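import Pool.Agent.GCN.Defs

/-!
# [GCN-A1] one prime: the bilinear deviation is at most the product of the standard deviations
-/

set_option autoImplicit false

open Finset

namespace GCN

private noncomputable def a1_A (q M : ℕ) (a : ℕ → ℂ) (x : ZMod q) : ℂ :=
  ∑ n ∈ (range M).filter (fun n : ℕ => (n : ZMod q) = x), a n

private lemma a1_cls (q M : ℕ) (a : ℕ → ℂ) (h : ℕ) (hh : h < q) :
    cls M a q h = a1_A q M a (h : ZMod q) := by
  unfold cls a1_A
  apply Finset.sum_congr _ (fun _ _ => rfl)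
  ext n
  simp only [mem_filter, mem_range]
  rw [ZMod.natCast_eq_natCast_iff', Nat.mod_eq_of_lt hh]

private lemma a1_range (q : ℕ) [NeZero q] (g : ZMod q → ℝ) :
    ∑ h ∈ range q, g (h : ZMod q) = ∑ x : ZMod q, g x := by
  refine Finset.sum_nbij' (fun h => (h : ZMod q)) (fun x => x.val) ?_ ?_ ?_ ?_ ?_
  · intro h _
    exact mem_univ _
  · intro x _
    exact mem_range.2 (ZMod.val_lt x)
  · intro h hh
    exact ZMod.val_natCast_of_lt (mem_range.1 hh)
  · intro x _
    exact ZMod.natCast_zmod_val x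
  · intro h _
    rfl

private lemma a1_Vr (q M : ℕ) [NeZero q] (a : ℕ → ℂ) :
    Vr M a q = ∑ x : ZMod q, ‖a1_A q M a x - (∑ n ∈ range M, a n) / q‖ ^ 2 := by
  rw [← a1_range]
  unfold Vr
  apply Finset.sum_congr rfl
  intro h hh
  rw [a1_cls q M a h (mem_range.1 hh)]

private lemma a1_group (q M K : ℕ) [NeZero q] (a b : ℕ → ℂ) (F : ZMod q → ZMod q → ℂ) :
    ∑ m ∈ range M, ∑ k ∈ range K, F m k * (a m * b k) =
      ∑ x : ZMod q, ∑ y : ZMod q, F x y * (a1_A q M a x * a1_A q K b y) := by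
  have h1 : ∀ G : ℕ → ℂ, ∑ m ∈ range M, G m =
      ∑ x : ZMod q, ∑ m ∈ (range M).filter (fun n : ℕ => (n : ZMod q) = x), G m := by
    intro G
    exact (Finset.sum_fiberwise (range M) (fun n : ℕ => (n : ZMod q)) G).symm
  have h2 : ∀ G : ℕ → ℂ, ∑ m ∈ range K, G m =
      ∑ x : ZMod q, ∑ m ∈ (range K).filter (fun n : ℕ => (n : ZMod q) = x), G m := by
    intro G
    exact (Finset.sum_fiberwise (range K) (fun n : ℕ => (n : ZMod q)) G).symm
  rw [h1]
  apply Finset.sum_congr rfl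
  intro x _
  have h3 : ∀ m ∈ (range M).filter (fun n : ℕ => (n : ZMod q) = x),
      ∑ k ∈ range K, F m k * (a m * b k) = ∑ y : ZMod q, F x y * (a m * a1_A q K b y) := by
    intro m hm
    rw [h2]
    apply Finset.sum_congr rfl
    intro y _
    have hx : (m : ZMod q) = x := (mem_filter.1 hm).2
    unfold a1_A
    rw [Finset.mul_sum, Finset.mul_sum]
    apply Finset.sum_congr rfl
    intro k hk
    rw [hx, (mem_filter.1 hk).2]
  rw [Finset.sum_congr rfl h3, Finset.sum_comm]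
  apply Finset.sum_congr rfl
  intro y _
  rw [← Finset.mul_sum]
  congr 1
  rw [← Finset.sum_mul]
  rfl

/-- [A1] Proof. For `h ∈ [1, q-1]` let `h'` be the inverse of `h` modulo `q` (`1 ≤ h' < q`, `h h' % q = 1`), `A h = cls M a q h`, `B h = cls K b q h`. Grouping `m`, `k` by their classes: the
first sum of `DB` is `∑_h A h * B h'`, the second one `(∑_h A h) (∑_h B h)`, `h` in `[1, q-1]` (`q ∣ m k` iff `q ∣ m` or `q ∣ k`). With the mean `α = (∑_h A h)/(q-1)` over the units and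
`β = (∑_{k<K} b k)/q`, `γ = (∑_{m<M} a m)/q`: `DB = ∑_{h=1}^{q-1} (A h - α) (B h' - β)` (as `∑ (A h - α) = 0` and `∑_h B h' = ∑_h B h`), so by Cauchy-Schwarz
`‖DB‖² ≤ ∑_h ‖A h - α‖² ∑_h ‖B h - β‖²`; `∑_h ‖A h - α‖² ≤ ∑_h ‖A h - γ‖²` (the mean minimizes), and both sums over `[1,q-1]` are at most the sums over `range q`. -/
theorem bil_one (q M K : ℕ) (hq : q.Prime) (a b : ℕ → ℂ) :
    ‖DB M K a b q‖ ≤ √(Vr M a q) * √(Vr K b q) := by
  have : Fact q.Prime := ⟨hq⟩
  have : NeZero q := ⟨hq.ne_zero⟩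
  have hq2 : 2 ≤ q := hq.two_le
  set A := a1_A q M a with hA
  set B := a1_A q K b with hB
  set U : Finset (ZMod q) := univ.filter (fun x => x ≠ 0) with hU
  have hUcard : ((U.card : ℕ) : ℂ) = (q : ℂ) - 1 := by
    have h1 : U.card = q - 1 := by
      rw [hU, Finset.filter_ne' univ (0 : ZMod q), Finset.card_erase_of_mem (mem_univ _),
        Finset.card_univ, ZMod.card]
    rw [h1, Nat.cast_sub (by omega), Nat.cast_one]
  have hq1 : ((q : ℂ) - 1) ≠ 0 := by
    rw [← hUcard]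
    have h1 : U.card = q - 1 := by
      rw [hU, Finset.filter_ne' univ (0 : ZMod q), Finset.card_erase_of_mem (mem_univ _),
        Finset.card_univ, ZMod.card]
    rw [h1]
    exact_mod_cast (by omega : q - 1 ≠ 0)
  -- first sum
  have e1 : (∑ m ∈ range M, ∑ k ∈ range K, if (m * k) % q = 1 then a m * b k else 0) =
      ∑ x ∈ U, A x * B x⁻¹ := by
    have e : ∀ m k : ℕ, (if (m * k) % q = 1 then a m * b k else 0) =
        (fun x y : ZMod q => if x * y = 1 then (1 : ℂ) else 0) m k * (a m * b k) := by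
      intro m k
      have h : ((m : ZMod q) * (k : ZMod q) = 1) ↔ (m * k) % q = 1 := by
        rw [← Nat.cast_mul, ← Nat.cast_one, ZMod.natCast_eq_natCast_iff',
          Nat.mod_eq_of_lt (show 1 < q by omega)]
      simp only [h]
      split_ifs <;> simp
    simp only [e]
    rw [a1_group q M K a b (fun x y : ZMod q => if x * y = 1 then (1 : ℂ) else 0)]
    rw [hU, Finset.sum_filter]
    apply Finset.sum_congr rfl
    intro x _
    by_cases hx : x = 0
    · subst hx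
      simp
    · rw [if_pos hx]
      rw [Finset.sum_eq_single x⁻¹]
      · rw [if_pos (mul_inv_cancel₀ hx), one_mul]
      · intro y _ hy
        rw [if_neg, zero_mul]
        intro h
        exact hy (eq_inv_of_mul_eq_one_right h)
      · intro h
        exact absurd (mem_univ _) h
  -- second sum
  have e2 : (∑ m ∈ range M, ∑ k ∈ range K, if q ∣ m * k then 0 else a m * b k) =
      (∑ x ∈ U, A x) * ∑ x ∈ U, B x := by
    have e : ∀ m k : ℕ, (if q ∣ m * k then 0 else a m * b k) =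
        (fun x y : ZMod q => if x ≠ 0 ∧ y ≠ 0 then (1 : ℂ) else 0) m k * (a m * b k) := by
      intro m k
      have h : ((m : ZMod q) ≠ 0 ∧ (k : ZMod q) ≠ 0) ↔ ¬ q ∣ m * k := by
        rw [← mul_ne_zero_iff, ← Nat.cast_mul, Ne, ZMod.natCast_eq_zero_iff]
      simp only [h]
      split_ifs <;> simp_all
    simp only [e]
    rw [a1_group q M K a b (fun x y : ZMod q => if x ≠ 0 ∧ y ≠ 0 then (1 : ℂ) else 0)]
    rw [hU, Finset.sum_mul_sum, Finset.sum_filter]
    apply Finset.sum_congr rfl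
    intro x _
    by_cases hx : x = 0
    · subst hx
      simp
    · rw [if_pos hx, Finset.sum_filter]
      apply Finset.sum_congr rfl
      intro y _
      by_cases hy : y = 0
      · subst hy
        simp
      · simp [hx, hy, hA, hB]
  -- inversion
  have einv : ∀ {β : Type} [AddCommMonoid β] (g : ZMod q → β), ∑ x ∈ U, g x⁻¹ = ∑ x ∈ U, g x := by
    intro β _ g
    refine Finset.sum_nbij' (fun x => x⁻¹) (fun x => x⁻¹) ?_ ?_ ?_ ?_ ?_
    · intro x hx
      rw [hU, mem_filter] at hx ⊢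
      exact ⟨mem_univ _, inv_ne_zero hx.2⟩
    · intro x hx
      rw [hU, mem_filter] at hx ⊢
      exact ⟨mem_univ _, inv_ne_zero hx.2⟩
    · intro x _
      exact inv_inv x
    · intro x _
      exact inv_inv x
    · intro x _
      rfl
  set al : ℂ := (∑ x ∈ U, A x) / ((q : ℂ) - 1) with hal
  set be : ℂ := (∑ k ∈ range K, b k) / q with hbe
  set ga : ℂ := (∑ m ∈ range M, a m) / q with hga
  have hzero : ∑ x ∈ U, (A x - al) = 0 := by
    rw [Finset.sum_sub_distrib, Finset.sum_const, nsmul_eq_mul, hUcard, hal, mul_div_cancel₀ _ hq1,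
      sub_self]
  have eDB : DB M K a b q = ∑ x ∈ U, (A x - al) * (B x⁻¹ - be) := by
    have h1 : ∑ x ∈ U, (A x - al) * (B x⁻¹ - be) =
        ∑ x ∈ U, A x * B x⁻¹ - al * ∑ x ∈ U, B x⁻¹ - (∑ x ∈ U, (A x - al)) * be := by
      rw [Finset.sum_mul, Finset.mul_sum, ← Finset.sum_sub_distrib, ← Finset.sum_sub_distrib]
      apply Finset.sum_congr rfl
      intro x _
      ring
    rw [h1, hzero, einv B, zero_mul, sub_zero]
    unfold DB
    rw [e1, e2, hal]
    ring
  have hmean : ∑ x ∈ U, ‖A x - al‖ ^ 2 ≤ ∑ x ∈ U, ‖A x - ga‖ ^ 2 := by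
    have h1 : ∀ x, ‖A x - ga‖ ^ 2 = ‖A x - al‖ ^ 2 + ‖al - ga‖ ^ 2 +
        2 * ((A x - al) * (starRingEnd ℂ) (al - ga)).re := by
      intro x
      simp only [← Complex.normSq_eq_norm_sq]
      have : A x - ga = (A x - al) + (al - ga) := by ring
      rw [this, Complex.normSq_add]
    have h2 : ∑ x ∈ U, ‖A x - ga‖ ^ 2 = ∑ x ∈ U, ‖A x - al‖ ^ 2 + ∑ x ∈ U, ‖al - ga‖ ^ 2 +
        2 * ((∑ x ∈ U, (A x - al)) * (starRingEnd ℂ) (al - ga)).re := by
      rw [Finset.sum_mul, Complex.re_sum, Finset.mul_sum, ← Finset.sum_add_distrib,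
        ← Finset.sum_add_distrib]
      exact Finset.sum_congr rfl fun x _ => h1 x
    rw [h2, hzero, zero_mul, Complex.zero_re, mul_zero, add_zero]
    have : 0 ≤ ∑ x ∈ U, ‖al - ga‖ ^ 2 := Finset.sum_nonneg fun x _ => sq_nonneg _
    linarith
  have hsub : ∀ g : ZMod q → ℝ, (∀ x, 0 ≤ g x) → ∑ x ∈ U, g x ≤ ∑ x, g x := by
    intro g hg
    exact Finset.sum_le_sum_of_subset_of_nonneg (Finset.subset_univ _) fun x _ _ => hg x
  have hVA : ∑ x ∈ U, ‖A x - al‖ ^ 2 ≤ Vr M a q := by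
    rw [a1_Vr]
    exact hmean.trans (hsub _ fun x => sq_nonneg _)
  have hVB : ∑ x ∈ U, ‖B x⁻¹ - be‖ ^ 2 ≤ Vr K b q := by
    rw [a1_Vr, einv (fun x => ‖B x - be‖ ^ 2)]
    exact hsub _ fun x => sq_nonneg _
  rw [eDB]
  calc ‖∑ x ∈ U, (A x - al) * (B x⁻¹ - be)‖ ≤ ∑ x ∈ U, ‖A x - al‖ * ‖B x⁻¹ - be‖ := by
        refine (norm_sum_le _ _).trans (Finset.sum_le_sum fun x _ => ?_)
        rw [norm_mul]
    _ ≤ √(∑ x ∈ U, ‖A x - al‖ ^ 2) * √(∑ x ∈ U, ‖B x⁻¹ - be‖ ^ 2) :=
        Real.sum_mul_le_sqrt_mul_sqrt U _ _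
    _ ≤ √(Vr M a q) * √(Vr K b q) :=
        mul_le_mul (Real.sqrt_le_sqrt hVA) (Real.sqrt_le_sqrt hVB) (Real.sqrt_nonneg _)
          (Real.sqrt_nonneg _)

end GCN
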