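import Pool.Agent.GCN.Defs
import Pool.Agent.MP_de0709_nt.V

/-!
# [GCN-A2] the sum of the variances (large sieve for prime moduli)
-/

set_option autoImplicit false

open Finset

namespace GCN

theorem a2_re (N : ℕ) (a : ℕ → ℂ) (q h : ℕ) :
    (cls N a q h - (∑ n ∈ range N, a n) / q).re =
      Pool.Agent.MP_de0709_nt.cls N (fun n => (a n).re) q h - (∑ n ∈ range N, (a n).re) / q := by
  rw [Complex.sub_re, Complex.div_natCast_re, Complex.re_sum, cls, Complex.re_sum,
    Pool.Agent.MP_de0709_nt.cls]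

theorem a2_im (N : ℕ) (a : ℕ → ℂ) (q h : ℕ) :
    (cls N a q h - (∑ n ∈ range N, a n) / q).im =
      Pool.Agent.MP_de0709_nt.cls N (fun n => (a n).im) q h - (∑ n ∈ range N, (a n).im) / q := by
  rw [Complex.sub_im, Complex.div_natCast_im, Complex.im_sum, cls, Complex.im_sum,
    Pool.Agent.MP_de0709_nt.cls]

theorem a2_sq (z : ℂ) : ‖z‖ ^ 2 = z.re ^ 2 + z.im ^ 2 := by
  rw [Complex.sq_norm, Complex.normSq_apply]
  ring

/-- [A2] Proof. `variance_sum` in `Pool/Agent/MP_de0709_nt/V.lean` for the real part and the imaginary part of `a`: `‖z‖² = re² + im²` (`Complex.sq_norm`, `Complex.normSq_apply`), the real part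
of `cls N a q h` is the `cls` of that file for the real parts. -/
theorem var_sum (Q N : ℕ) (hQ : 1 ≤ Q) (a : ℕ → ℂ) :
    ∑ q ∈ Nat.primesLE Q, (q : ℝ) * Vr N a q ≤
      32 * ((N : ℝ) + (Q : ℝ) ^ 2) * ∑ n ∈ range N, ‖a n‖ ^ 2 := by
  have h1 := Pool.Agent.MP_de0709_nt.variance_sum Q N hQ (fun n => (a n).re)
  have h2 := Pool.Agent.MP_de0709_nt.variance_sum Q N hQ (fun n => (a n).im)
  have h3 : ∑ n ∈ range N, ‖a n‖ ^ 2 = ∑ n ∈ range N, (a n).re ^ 2 + ∑ n ∈ range N, (a n).im ^ 2 := by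
    rw [← sum_add_distrib]
    exact sum_congr rfl fun n _ => a2_sq _
  rw [h3, mul_add]
  refine le_trans (le_of_eq ?_) (add_le_add h1 h2)
  rw [← sum_add_distrib]
  refine sum_congr rfl fun q _ => ?_
  rw [← mul_add, Vr, ← sum_add_distrib]
  congr 1
  refine sum_congr rfl fun h _ => ?_
  rw [a2_sq, a2_re, a2_im]

end GCN
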