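import Pool.Agent.GCN.Defs
import Pool.Agent.MP_ffd2b5_nt.LA

/-!
# [GCN-A3a] finite Fourier separation of an interval condition
-/

set_option autoImplicit false

open Finset

namespace GCN

private theorem a3a_e_norm (t : ℝ) : ‖Pool.Agent.MP_ffd2b5_nt.e t‖ = 1 := by
  unfold Pool.Agent.MP_ffd2b5_nt.e
  rw [show (2 * (Real.pi : ℂ) * Complex.I * (t : ℂ)) = ((2 * Real.pi * t : ℝ) : ℂ) * Complex.I by
    push_cast; ring]
  exact Complex.norm_exp_ofReal_mul_I _

private theorem a3a_e_add (s t : ℝ) : Pool.Agent.MP_ffd2b5_nt.e (s + t) =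
    Pool.Agent.MP_ffd2b5_nt.e s * Pool.Agent.MP_ffd2b5_nt.e t := by
  unfold Pool.Agent.MP_ffd2b5_nt.e
  rw [← Complex.exp_add]
  congr 1
  push_cast
  ring

private theorem a3a_e_zero : Pool.Agent.MP_ffd2b5_nt.e 0 = 1 := by
  unfold Pool.Agent.MP_ffd2b5_nt.e
  simp

private theorem a3a_e_mul (n : ℕ) (t : ℝ) : Pool.Agent.MP_ffd2b5_nt.e (n * t) =
    Pool.Agent.MP_ffd2b5_nt.e t ^ n := by
  unfold Pool.Agent.MP_ffd2b5_nt.e
  rw [← Complex.exp_nat_mul]
  congr 1
  push_cast
  ring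

private theorem a3a_orth (K : ℕ) (k l : ℕ) (hk : k < K) (hl : l < K) :
    ∑ h ∈ range K, Pool.Agent.MP_ffd2b5_nt.e (h * (((l : ℝ) - k) / K)) =
      if l = k then (K : ℂ) else 0 := by
  have hK0 : (K : ℝ) ≠ 0 := by
    have : K ≠ 0 := by omega
    exact_mod_cast this
  split_ifs with h
  · subst h
    have h1 : ∀ h ∈ range K, Pool.Agent.MP_ffd2b5_nt.e (h * (((l : ℝ) - l) / K)) = 1 := by
      intro h _
      rw [sub_self, zero_div, mul_zero, a3a_e_zero]
    rw [Finset.sum_congr rfl h1, Finset.sum_const, Finset.card_range, nsmul_eq_mul, mul_one]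
  · rw [Finset.sum_congr rfl fun h _ => a3a_e_mul h (((l : ℝ) - k) / K)]
    have hz1 : Pool.Agent.MP_ffd2b5_nt.e (((l : ℝ) - k) / K) ≠ 1 := by
      intro h1
      unfold Pool.Agent.MP_ffd2b5_nt.e at h1
      rw [Complex.exp_eq_one_iff] at h1
      obtain ⟨n, hn⟩ := h1
      have h2 : (((l : ℝ) - k) / K : ℝ) = (n : ℝ) := by
        have h3 : (2 * (Real.pi : ℂ) * Complex.I) ≠ 0 := Complex.two_pi_I_ne_zero
        have h4 : ((((l : ℝ) - k) / K : ℝ) : ℂ) = (n : ℂ) := by
          apply mul_left_cancel₀ h3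
          rw [hn]
          ring
        exact_mod_cast h4
      rw [div_eq_iff hK0] at h2
      have h5 : (l : ℤ) - k = n * K := by exact_mod_cast h2
      have h6 : n = 0 := by
        by_contra hne
        have h7 : 1 ≤ |n| := Int.one_le_abs hne
        have h8 : |(l : ℤ) - k| = |n| * K := by
          rw [h5, abs_mul]
          congr 1
          exact abs_of_nonneg (Int.natCast_nonneg K)
        have h9 : |(l : ℤ) - k| < K := by
          rw [abs_lt]
          constructor <;> omega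
        nlinarith
      rw [h6, zero_mul] at h5
      apply h
      omega
    have hzK : Pool.Agent.MP_ffd2b5_nt.e (((l : ℝ) - k) / K) ^ K = 1 := by
      rw [← a3a_e_mul, mul_div_cancel₀ _ hK0]
      unfold Pool.Agent.MP_ffd2b5_nt.e
      rw [Complex.exp_eq_one_iff]
      refine ⟨(l : ℤ) - k, ?_⟩
      push_cast
      ring
    rw [geom_sum_eq hz1, hzK, sub_self, zero_div]

private theorem a3a_sum (K h a b : ℕ) (h1 : 1 ≤ h) (h2 : h < K) :
    ‖∑ l ∈ Ico a b, Pool.Agent.MP_ffd2b5_nt.e (h * ((l : ℝ) / K))‖ ≤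
      K * (1 / (2 * (min h (K - h) : ℕ))) := by
  have hK0 : (0 : ℝ) < K := by
    have : 0 < K := by omega
    exact_mod_cast this
  have hh0 : (0 : ℝ) < h := by exact_mod_cast h1
  have hhK : (h : ℝ) < K := by exact_mod_cast h2
  rw [Finset.sum_Ico_eq_sum_range]
  have h3 : ∀ i ∈ range (b - a), Pool.Agent.MP_ffd2b5_nt.e (h * (((a + i : ℕ) : ℝ) / K)) =
      Pool.Agent.MP_ffd2b5_nt.e (h * ((a : ℝ) / K)) *
        Pool.Agent.MP_ffd2b5_nt.e (i * ((h : ℝ) / K)) := by
    intro i _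
    rw [← a3a_e_add]
    congr 1
    push_cast
    ring
  rw [Finset.sum_congr rfl h3, ← Finset.mul_sum, norm_mul, a3a_e_norm, one_mul]
  rcases le_total (2 * h) K with hle | hle
  · have hmin : min h (K - h) = h := by omega
    have hleR : 2 * (h : ℝ) ≤ K := by exact_mod_cast hle
    have h4 := Pool.Agent.MP_ffd2b5_nt.dirichlet_kernel (b - a) ((h : ℝ) / K) 0
      (by
        rw [Int.cast_zero]
        positivity)
      (by
        rw [Int.cast_zero, sub_zero, abs_of_pos (by positivity), div_le_div_iff₀ hK0 two_pos]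
        linarith)
    rw [hmin]
    refine h4.trans (le_of_eq ?_)
    rw [Int.cast_zero, sub_zero, abs_of_pos (by positivity)]
    field_simp
  · have hmin : min h (K - h) = K - h := by omega
    have hleR : (K : ℝ) ≤ 2 * h := by exact_mod_cast hle
    have h5 : (h : ℝ) / K - ((1 : ℤ) : ℝ) = -(((K : ℝ) - h) / K) := by
      push_cast
      field_simp
      ring
    have h6 : 0 < ((K : ℝ) - h) / K := div_pos (by linarith) hK0
    have h4 := Pool.Agent.MP_ffd2b5_nt.dirichlet_kernel (b - a) ((h : ℝ) / K) 1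
      (by
        intro h7
        rw [← sub_eq_zero, h5] at h7
        linarith)
      (by
        rw [h5, abs_neg, abs_of_pos h6, div_le_div_iff₀ hK0 two_pos]
        linarith)
    rw [hmin]
    refine h4.trans (le_of_eq ?_)
    rw [h5, abs_neg, abs_of_pos h6, Nat.cast_sub h2.le]
    have h7 : (K : ℝ) - h ≠ 0 := by linarith
    field_simp

private theorem a3a_harm (n : ℕ) : ∑ h ∈ range n, (1 : ℝ) / ((h : ℝ) + 1) ≤
    1 + Real.log ((n : ℝ) + 1) := by
  have h1 := harmonic_le_one_add_log n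
  have h2 : ((harmonic n : ℚ) : ℝ) = ∑ h ∈ range n, (1 : ℝ) / ((h : ℝ) + 1) := by
    unfold harmonic
    push_cast
    refine Finset.sum_congr rfl fun h _ => ?_
    rw [one_div]
  rw [← h2]
  rcases Nat.eq_zero_or_pos n with hn | hn
  · subst hn
    simp
  · refine h1.trans ?_
    have hn0 : (0 : ℝ) < n := by exact_mod_cast hn
    have := Real.log_le_log hn0 (by linarith : (n : ℝ) ≤ n + 1)
    linarith

private theorem a3a_weights (K : ℕ) (hK : 1 ≤ K) :
    ∑ h ∈ range K, (if h = 0 then (1 : ℝ) else 1 / (2 * (min h (K - h) : ℕ))) ≤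
      2 + Real.log K := by
  obtain ⟨n, rfl⟩ : ∃ n, K = n + 1 := ⟨K - 1, by omega⟩
  rw [Finset.sum_range_succ']
  rw [if_pos rfl]
  have h1 : ∀ h ∈ range n, (if h + 1 = 0 then (1 : ℝ) else
      1 / (2 * (min (h + 1) (n + 1 - (h + 1)) : ℕ))) ≤
      (1 / 2) * (1 / ((h : ℝ) + 1)) + (1 / 2) * (1 / (((n - 1 - h : ℕ) : ℝ) + 1)) := by
    intro h hh
    rw [Finset.mem_range] at hh
    rw [if_neg (by omega)]
    have e1 : n + 1 - (h + 1) = (n - 1 - h) + 1 := by omega
    rw [e1]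
    have p1 : (0 : ℝ) < (h : ℝ) + 1 := by positivity
    have p2 : (0 : ℝ) < ((n - 1 - h : ℕ) : ℝ) + 1 := by positivity
    rcases le_total (h + 1) ((n - 1 - h) + 1) with hle | hle
    · rw [min_eq_left hle]
      push_cast
      have : 0 ≤ (1 / 2 : ℝ) * (1 / (((n - 1 - h : ℕ) : ℝ) + 1)) := by positivity
      have e2 : 1 / (2 * ((h : ℝ) + 1)) = (1 / 2) * (1 / ((h : ℝ) + 1)) := by
        field_simp
      rw [e2]
      linarith
    · rw [min_eq_right hle]
      push_cast
      have : 0 ≤ (1 / 2 : ℝ) * (1 / ((h : ℝ) + 1)) := by positivity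
      have e2 : 1 / (2 * (((n - 1 - h : ℕ) : ℝ) + 1)) =
          (1 / 2) * (1 / (((n - 1 - h : ℕ) : ℝ) + 1)) := by
        field_simp
      rw [e2]
      linarith
  have h2 := Finset.sum_le_sum h1
  rw [Finset.sum_add_distrib, ← Finset.mul_sum, ← Finset.mul_sum,
    Finset.sum_range_reflect (fun j : ℕ => (1 : ℝ) / ((j : ℝ) + 1)) n] at h2
  have h3 := a3a_harm n
  rw [Nat.cast_succ]
  linarith

/-- [A3a] finite Fourier separation. Proof. For `k, l < K`: `(1/K) ∑_{h<K} e(h (l - k)/K) = 1` if `k = l`, else `0` (geometric sum), with `e t = exp(2πi t)`. So for `k < K`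
`1[u m < k ≤ v m] = (1/K) ∑_{h<K} D_m(h) e(-h k/K)`, `D_m(h) = ∑_{l<K, u m < l ≤ v m} e(h l/K)`. Take `c h m = D_m(h)`, `d h k = e(-h k/K)/K`. A sum of `e(h l/K)` over an interval of `l` is
at most `K` (in fact the number of terms) and, for `1 ≤ h < K`, at most `1/|sin(π h/K)| ≤ K/(2 min(h, K-h))` (geometric sum; compare `dirichlet_kernel` in `MP_ffd2b5_nt/LA.lean`). Then
`(1/K)(K + ∑_{1≤h<K} K/(2 min(h,K-h))) ≤ 1 + ∑_{1≤h≤K/2} 1/h ≤ 2 + log K`. So `w 0 = 1`, `w h = 1/(2 min(h,K-h))`. -/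
theorem separate (K : ℕ) (hK : 1 ≤ K) (u v : ℕ → ℕ) :
    ∃ (c d : ℕ → ℕ → ℂ) (w : ℕ → ℝ), (∀ h, 0 ≤ w h) ∧ (∀ h < K, ∀ m, ‖c h m‖ ≤ K * w h) ∧
      (∀ h < K, ∀ k, ‖d h k‖ ≤ 1 / K) ∧ ∑ h ∈ range K, w h ≤ 2 + Real.log K ∧
      ∀ m, ∀ k < K, (if u m < k ∧ k ≤ v m then (1 : ℂ) else 0) = ∑ h ∈ range K, c h m * d h k := by
  have hK0 : (0 : ℝ) < K := by exact_mod_cast (by omega : 0 < K)
  have hKC : (K : ℂ) ≠ 0 := by
    have : K ≠ 0 := by omega
    exact_mod_cast this
  have hset : ∀ m, (range K).filter (fun l => u m < l ∧ l ≤ v m) =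
      Ico (u m + 1) (min K (v m + 1)) := by
    intro m
    ext l
    rw [Finset.mem_filter, Finset.mem_range, Finset.mem_Ico]
    omega
  refine ⟨fun h m => ∑ l ∈ (range K).filter (fun l => u m < l ∧ l ≤ v m),
      Pool.Agent.MP_ffd2b5_nt.e (h * ((l : ℝ) / K)),
    fun h k => Pool.Agent.MP_ffd2b5_nt.e (-(h * ((k : ℝ) / K))) / K,
    fun h => if h = 0 then 1 else 1 / (2 * (min h (K - h) : ℕ)), ?_, ?_, ?_,
    a3a_weights K hK, ?_⟩
  · intro h
    show 0 ≤ (if h = 0 then (1 : ℝ) else 1 / (2 * (min h (K - h) : ℕ)))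
    split_ifs
    · exact zero_le_one
    · positivity
  · intro h hh m
    show ‖∑ l ∈ (range K).filter (fun l => u m < l ∧ l ≤ v m),
      Pool.Agent.MP_ffd2b5_nt.e (h * ((l : ℝ) / K))‖ ≤
        K * (if h = 0 then (1 : ℝ) else 1 / (2 * (min h (K - h) : ℕ)))
    rcases Nat.eq_zero_or_pos h with h0 | h0
    · subst h0
      rw [if_pos rfl, mul_one]
      refine (norm_sum_le _ _).trans ?_
      rw [Finset.sum_congr rfl fun l _ => a3a_e_norm _, Finset.sum_const, nsmul_eq_mul, mul_one]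
      have h1 := Finset.card_filter_le (range K) (fun l => u m < l ∧ l ≤ v m)
      rw [Finset.card_range] at h1
      exact_mod_cast h1
    · rw [if_neg (by omega)]
      rw [hset]
      exact a3a_sum K h _ _ h0 hh
  · intro h _ k
    rw [norm_div, a3a_e_norm, Complex.norm_natCast]
  · intro m k hk
    have h1 : ∀ h ∈ range K, (∑ l ∈ (range K).filter (fun l => u m < l ∧ l ≤ v m),
        Pool.Agent.MP_ffd2b5_nt.e (h * ((l : ℝ) / K))) *
          (Pool.Agent.MP_ffd2b5_nt.e (-(h * ((k : ℝ) / K))) / K) =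
        ∑ l ∈ (range K).filter (fun l => u m < l ∧ l ≤ v m),
          Pool.Agent.MP_ffd2b5_nt.e (h * (((l : ℝ) - k) / K)) / K := by
      intro h _
      rw [Finset.sum_mul]
      refine Finset.sum_congr rfl fun l _ => ?_
      rw [← mul_div_assoc, ← a3a_e_add]
      congr 2
      ring
    rw [Finset.sum_congr rfl h1, Finset.sum_comm]
    have h2 : ∀ l ∈ (range K).filter (fun l => u m < l ∧ l ≤ v m),
        ∑ h ∈ range K, Pool.Agent.MP_ffd2b5_nt.e (h * (((l : ℝ) - k) / K)) / K =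
          if l = k then (1 : ℂ) else 0 := by
      intro l hl
      rw [Finset.mem_filter, Finset.mem_range] at hl
      rw [← Finset.sum_div, a3a_orth K k l hk hl.1]
      split_ifs
      · exact div_self hKC
      · exact zero_div _
    rw [Finset.sum_congr rfl h2, Finset.sum_ite_eq']
    simp only [Finset.mem_filter, Finset.mem_range, hk, true_and]

end GCN
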