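import Pool.Agent.GCN.A1
import Pool.Agent.GCN.A2
import Pool.Agent.GCN.A3a

/-!
# [GCN-A3] bilinear forms with an interval condition
-/

set_option autoImplicit false

open Finset

namespace GCN

theorem a3_vr_nonneg (N : ℕ) (a : ℕ → ℂ) (q : ℕ) : 0 ≤ Vr N a q :=
  sum_nonneg fun _ _ => sq_nonneg _

theorem a3_one (Q0 Q M K : ℕ) (hQ0 : 1 ≤ Q0) (hQ : 1 ≤ Q) (A B : ℕ → ℂ) :
    ∑ q ∈ (Nat.primesLE Q).filter (fun q => Q0 < q), ‖DB M K A B q‖ ≤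
      32 / (Q0 : ℝ) * √(((M : ℝ) + (Q : ℝ) ^ 2) * ((K : ℝ) + (Q : ℝ) ^ 2) * (∑ m ∈ range M, ‖A m‖ ^ 2) *
          ∑ k ∈ range K, ‖B k‖ ^ 2) := by
  have hQ0' : (0 : ℝ) < Q0 := by exact_mod_cast hQ0
  have h1 : ∀ q ∈ (Nat.primesLE Q).filter (fun q => Q0 < q), ‖DB M K A B q‖ ≤
      1 / (Q0 : ℝ) * (√((q : ℝ) * Vr M A q) * √((q : ℝ) * Vr K B q)) := by
    intro q hq
    rw [mem_filter, Nat.mem_primesLE] at hq
    have hqp : q.Prime := hq.1.2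
    have hq0 : (Q0 : ℝ) < q := by exact_mod_cast hq.2
    have h2 := bil_one q M K hqp A B
    refine h2.trans ?_
    have hqn : (0 : ℝ) ≤ q := by positivity
    rw [Real.sqrt_mul hqn, Real.sqrt_mul hqn]
    have h3 : √(q : ℝ) * √(Vr M A q) * (√(q : ℝ) * √(Vr K B q)) = q * (√(Vr M A q) * √(Vr K B q)) := by
      have h4 := Real.mul_self_sqrt hqn
      linear_combination (√(Vr M A q) * √(Vr K B q)) * h4
    rw [h3, ← mul_assoc, one_div_mul_eq_div]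
    refine le_mul_of_one_le_left (by positivity) ?_
    rw [one_le_div hQ0']
    exact hq0.le
  have h2 : ∑ q ∈ (Nat.primesLE Q).filter (fun q => Q0 < q), √((q : ℝ) * Vr M A q) * √((q : ℝ) * Vr K B q) ≤
      √(∑ q ∈ (Nat.primesLE Q).filter (fun q => Q0 < q), (q : ℝ) * Vr M A q) *
        √(∑ q ∈ (Nat.primesLE Q).filter (fun q => Q0 < q), (q : ℝ) * Vr K B q) :=
    Real.sum_sqrt_mul_sqrt_le _ (fun q => mul_nonneg (by positivity) (a3_vr_nonneg _ _ _))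
      (fun q => mul_nonneg (by positivity) (a3_vr_nonneg _ _ _))
  have h3 : ∀ (N : ℕ) (a : ℕ → ℂ), ∑ q ∈ (Nat.primesLE Q).filter (fun q => Q0 < q), (q : ℝ) * Vr N a q ≤
      32 * ((N : ℝ) + (Q : ℝ) ^ 2) * ∑ n ∈ range N, ‖a n‖ ^ 2 := fun N a =>
    (sum_le_sum_of_subset_of_nonneg (filter_subset _ _) fun q _ _ =>
      mul_nonneg (by positivity) (a3_vr_nonneg _ _ _)).trans (var_sum Q N hQ a)
  have h4 : √(∑ q ∈ (Nat.primesLE Q).filter (fun q => Q0 < q), (q : ℝ) * Vr M A q) *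
        √(∑ q ∈ (Nat.primesLE Q).filter (fun q => Q0 < q), (q : ℝ) * Vr K B q) ≤
      32 * √(((M : ℝ) + (Q : ℝ) ^ 2) * ((K : ℝ) + (Q : ℝ) ^ 2) * (∑ m ∈ range M, ‖A m‖ ^ 2) *
          ∑ k ∈ range K, ‖B k‖ ^ 2) := by
    refine (mul_le_mul (Real.sqrt_le_sqrt (h3 M A)) (Real.sqrt_le_sqrt (h3 K B)) (Real.sqrt_nonneg _)
      (Real.sqrt_nonneg _)).trans_eq ?_
    have h5 : (0 : ℝ) ≤ 32 * ((M : ℝ) + (Q : ℝ) ^ 2) * ∑ n ∈ range M, ‖A n‖ ^ 2 := by positivity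
    rw [← Real.sqrt_mul h5]
    have h6 : 32 * ((M : ℝ) + (Q : ℝ) ^ 2) * (∑ n ∈ range M, ‖A n‖ ^ 2) *
        (32 * ((K : ℝ) + (Q : ℝ) ^ 2) * ∑ n ∈ range K, ‖B n‖ ^ 2) =
        32 ^ 2 * (((M : ℝ) + (Q : ℝ) ^ 2) * ((K : ℝ) + (Q : ℝ) ^ 2) * (∑ m ∈ range M, ‖A m‖ ^ 2) *
          ∑ k ∈ range K, ‖B k‖ ^ 2) := by ring
    rw [h6, Real.sqrt_mul (by norm_num), Real.sqrt_sq (by norm_num)]
  refine (sum_le_sum h1).trans ?_
  rw [← mul_sum]
  refine (mul_le_mul_of_nonneg_left (h2.trans h4) (by positivity)).trans_eq ?_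
  ring

theorem a3_split (M K : ℕ) (a b : ℕ → ℂ) (u v : ℕ → ℕ) (c d : ℕ → ℕ → ℂ)
    (h : ∀ m, ∀ k < K, (if u m < k ∧ k ≤ v m then (1 : ℂ) else 0) = ∑ h ∈ range K, c h m * d h k) (q : ℕ) :
    DI M K a b u v q = ∑ h ∈ range K, DB M K (fun m => a m * c h m) (fun k => b k * d h k) q := by
  have h1 : ∀ m, ∀ k ∈ range K, (if (m * k) % q = 1 ∧ u m < k ∧ k ≤ v m then a m * b k else 0) =
      ∑ h ∈ range K, if (m * k) % q = 1 then a m * c h m * (b k * d h k) else 0 := by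
    intro m k hk
    by_cases hq : (m * k) % q = 1
    · simp only [hq, true_and, if_true]
      have h2 := h m k (mem_range.1 hk)
      have h3 : (if u m < k ∧ k ≤ v m then a m * b k else 0) =
          a m * b k * (if u m < k ∧ k ≤ v m then (1 : ℂ) else 0) := by
        split_ifs <;> simp
      rw [h3, h2, mul_sum]
      exact sum_congr rfl fun h _ => by ring
    · simp only [hq, false_and, if_false, sum_const_zero]
  have h2 : ∀ m, ∀ k ∈ range K, (if ¬ q ∣ m * k ∧ u m < k ∧ k ≤ v m then a m * b k else 0) =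
      ∑ h ∈ range K, if q ∣ m * k then 0 else a m * c h m * (b k * d h k) := by
    intro m k hk
    by_cases hq : q ∣ m * k
    · simp only [hq, not_true_eq_false, false_and, if_false, if_true, sum_const_zero]
    · simp only [hq, not_false_eq_true, true_and, if_false]
      have h2 := h m k (mem_range.1 hk)
      have h3 : (if u m < k ∧ k ≤ v m then a m * b k else 0) =
          a m * b k * (if u m < k ∧ k ≤ v m then (1 : ℂ) else 0) := by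
        split_ifs <;> simp
      rw [h3, h2, mul_sum]
      exact sum_congr rfl fun h _ => by ring
  have h3 : ∀ F : ℕ → ℕ → ℕ → ℂ, ∑ m ∈ range M, ∑ k ∈ range K, ∑ h ∈ range K, F m k h =
      ∑ h ∈ range K, ∑ m ∈ range M, ∑ k ∈ range K, F m k h := by
    intro F
    rw [sum_comm' (s := range K) (t := fun _ => range M) (t' := range M) (s' := fun _ => range K)
      (fun x y => by tauto)]
    exact sum_congr rfl fun m _ => sum_comm
  unfold DI DB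
  rw [sum_congr rfl fun m _ => sum_congr rfl (h1 m), sum_congr rfl fun m _ => sum_congr rfl (h2 m),
    h3, h3, mul_sum, ← sum_sub_distrib]

/-- [A3b] Proof. `separate` gives `DI M K a b u v q = ∑_{h<K} DB M K (fun m => a m * c h m) (fun k => b k * d h k) q`. `bil_one`, the Cauchy-Schwarz inequality for the sum over `q` and
`var_sum`: for every `h`, `∑_{q > Q0} ‖DB‖ ≤ (1/Q0) ∑_q q √V √V' ≤ (1/Q0) √(∑ q V) √(∑ q V') ≤ (32/Q0) √((M+Q²) ∑‖a c_h‖² (K+Q²) ∑‖b d_h‖²) ≤ (32/Q0) w h √(...)`. -/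
theorem bil_sep (Q0 Q M K : ℕ) (hQ0 : 1 ≤ Q0) (hQ : 1 ≤ Q) (hK : 1 ≤ K) (a b : ℕ → ℂ) (u v : ℕ → ℕ) :
    ∑ q ∈ (Nat.primesLE Q).filter (fun q => Q0 < q), ‖DI M K a b u v q‖ ≤
      32 / (Q0 : ℝ) * (2 + Real.log K) *
        √(((M : ℝ) + (Q : ℝ) ^ 2) * ((K : ℝ) + (Q : ℝ) ^ 2) * (∑ m ∈ range M, ‖a m‖ ^ 2) *
          ∑ k ∈ range K, ‖b k‖ ^ 2) := by
  obtain ⟨c, d, w, hw, hc, hd, hws, h⟩ := separate K hK u v
  have hK' : (0 : ℝ) < K := by exact_mod_cast hK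
  have hQ0' : (0 : ℝ) < Q0 := by exact_mod_cast hQ0
  have h1 : ∀ h ∈ range K, ∑ q ∈ (Nat.primesLE Q).filter (fun q => Q0 < q),
      ‖DB M K (fun m => a m * c h m) (fun k => b k * d h k) q‖ ≤
      32 / (Q0 : ℝ) * (w h * √(((M : ℝ) + (Q : ℝ) ^ 2) * ((K : ℝ) + (Q : ℝ) ^ 2) *
        (∑ m ∈ range M, ‖a m‖ ^ 2) * ∑ k ∈ range K, ‖b k‖ ^ 2)) := by
    intro h hh
    refine (a3_one Q0 Q M K hQ0 hQ _ _).trans (mul_le_mul_of_nonneg_left ?_ (by positivity))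
    have h2 : ∑ m ∈ range M, ‖a m * c h m‖ ^ 2 ≤ ((K : ℝ) * w h) ^ 2 * ∑ m ∈ range M, ‖a m‖ ^ 2 := by
      rw [mul_sum]
      refine sum_le_sum fun m _ => ?_
      rw [norm_mul, mul_pow, mul_comm]
      exact mul_le_mul_of_nonneg_right (pow_le_pow_left₀ (norm_nonneg _) (hc h (mem_range.1 hh) m) 2)
        (by positivity)
    have h3 : ∑ k ∈ range K, ‖b k * d h k‖ ^ 2 ≤ (1 / (K : ℝ)) ^ 2 * ∑ k ∈ range K, ‖b k‖ ^ 2 := by
      rw [mul_sum]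
      refine sum_le_sum fun k _ => ?_
      rw [norm_mul, mul_pow, mul_comm]
      exact mul_le_mul_of_nonneg_right (pow_le_pow_left₀ (norm_nonneg _) (hd h (mem_range.1 hh) k) 2)
        (by positivity)
    have h4 : ((M : ℝ) + (Q : ℝ) ^ 2) * ((K : ℝ) + (Q : ℝ) ^ 2) * (∑ m ∈ range M, ‖a m * c h m‖ ^ 2) *
        ∑ k ∈ range K, ‖b k * d h k‖ ^ 2 ≤ w h ^ 2 * (((M : ℝ) + (Q : ℝ) ^ 2) * ((K : ℝ) + (Q : ℝ) ^ 2) *
          (∑ m ∈ range M, ‖a m‖ ^ 2) * ∑ k ∈ range K, ‖b k‖ ^ 2) := by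
      refine (mul_le_mul (mul_le_mul_of_nonneg_left h2 (by positivity)) h3 (by positivity)
        (by positivity)).trans_eq ?_
      field_simp
    refine (Real.sqrt_le_sqrt h4).trans_eq ?_
    rw [Real.sqrt_mul (by positivity), Real.sqrt_sq (hw h)]
  calc ∑ q ∈ (Nat.primesLE Q).filter (fun q => Q0 < q), ‖DI M K a b u v q‖
      ≤ ∑ q ∈ (Nat.primesLE Q).filter (fun q => Q0 < q), ∑ h ∈ range K,
          ‖DB M K (fun m => a m * c h m) (fun k => b k * d h k) q‖ := by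
        refine sum_le_sum fun q _ => ?_
        rw [a3_split M K a b u v c d h q]
        exact norm_sum_le _ _
    _ = ∑ h ∈ range K, ∑ q ∈ (Nat.primesLE Q).filter (fun q => Q0 < q),
          ‖DB M K (fun m => a m * c h m) (fun k => b k * d h k) q‖ := sum_comm
    _ ≤ ∑ h ∈ range K, 32 / (Q0 : ℝ) * (w h * √(((M : ℝ) + (Q : ℝ) ^ 2) * ((K : ℝ) + (Q : ℝ) ^ 2) *
          (∑ m ∈ range M, ‖a m‖ ^ 2) * ∑ k ∈ range K, ‖b k‖ ^ 2)) := sum_le_sum h1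
    _ = 32 / (Q0 : ℝ) * (∑ h ∈ range K, w h) * √(((M : ℝ) + (Q : ℝ) ^ 2) * ((K : ℝ) + (Q : ℝ) ^ 2) *
          (∑ m ∈ range M, ‖a m‖ ^ 2) * ∑ k ∈ range K, ‖b k‖ ^ 2) := by
        rw [← mul_sum, ← sum_mul]
        ring
    _ ≤ _ := mul_le_mul_of_nonneg_right (mul_le_mul_of_nonneg_left hws (by positivity)) (Real.sqrt_nonneg _)

end GCN
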