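import Pool.Agent.GCN.Defs

/-!
# [GCN-A4] sums of type I
-/

set_option autoImplicit false

open Finset

namespace GCN

/-- the number of the members of a residue class in an interval -/
theorem a4_count (s t N r : ℕ) (hst : s ≤ t) (hN : 0 < N) :
    |(((Ioc s t).filter (fun n => n ≡ r [MOD N])).card : ℝ) - ((t : ℝ) - s) / N| ≤ 1 := by
  have h2 := Nat.Ioc_filter_modEq_card s t hN r
  have hq' : (0 : ℚ) < N := by exact_mod_cast hN
  have h3 : ⌊((s : ℚ) - (r : ℚ)) / N⌋ ≤ ⌊((t : ℚ) - r) / N⌋ := by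
    apply Int.floor_le_floor
    gcongr
  rw [max_eq_left (by linarith)] at h2
  have h4 : (((Ioc s t).filter (fun n => n ≡ r [MOD N])).card : ℚ) =
      (⌊((t : ℚ) - r) / N⌋ : ℚ) - ⌊((s : ℚ) - (r : ℚ)) / N⌋ := by
    exact_mod_cast h2
  have h5 : |(((Ioc s t).filter (fun n => n ≡ r [MOD N])).card : ℚ) - ((t : ℚ) - s) / N| ≤ 1 := by
    rw [h4]
    have e1 := Int.floor_le (((t : ℚ) - r) / N)
    have e2 := Int.lt_floor_add_one (((t : ℚ) - r) / N)
    have e3 := Int.floor_le (((s : ℚ) - (r : ℚ)) / N)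
    have e4 := Int.lt_floor_add_one (((s : ℚ) - (r : ℚ)) / N)
    have e5 : ((t : ℚ) - r) / N = ((t : ℚ) - s) / N + ((s : ℚ) - (r : ℚ)) / N := by
      ring
    rw [abs_le]
    constructor <;> linarith
  have h6 : ((|(((Ioc s t).filter (fun n => n ≡ r [MOD N])).card : ℚ) - ((t : ℚ) - s) / N| : ℚ) : ℝ) ≤
      ((1 : ℚ) : ℝ) := by exact_mod_cast h5
  push_cast at h6
  exact h6

/-- a linear congruence is a class -/
theorem a4_class (N m c : ℕ) (h : Nat.Coprime m N) (hN : 0 < N) :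
    ∃ r : ℕ, ∀ k : ℕ, (m * k ≡ c [MOD N] ↔ k ≡ r [MOD N]) := by
  have hne : NeZero N := ⟨hN.ne'⟩
  refine ⟨((c : ZMod N) * (m : ZMod N)⁻¹).val, fun k => ?_⟩
  have h1 : (m : ZMod N) * (m : ZMod N)⁻¹ = 1 := ZMod.coe_mul_inv_eq_one m h
  rw [← ZMod.natCast_eq_natCast_iff, ← ZMod.natCast_eq_natCast_iff, ZMod.natCast_val,
    ZMod.cast_id', id_eq]
  push_cast
  constructor
  · intro h2
    rw [← h2, mul_comm (m : ZMod N), mul_assoc, h1, mul_one]
  · intro h2
    rw [h2, mul_comm, mul_assoc, mul_comm ((m : ZMod N)⁻¹), h1, mul_one]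

/-- the first condition as a congruence -/
theorem a4_dvd (f n : ℕ) (hf : 1 ≤ f) : f ∣ n + 1 ↔ n ≡ f - 1 [MOD f] := by
  constructor
  · intro h
    have h1 : n + 1 ≡ (f - 1) + 1 [MOD f] := by
      rw [Nat.sub_add_cancel hf]
      exact ((Nat.modEq_zero_iff_dvd.mpr h).trans (Nat.modEq_zero_iff_dvd.mpr (dvd_refl f)).symm)
    exact Nat.ModEq.add_right_cancel' 1 h1
  · intro h
    have h1 : n + 1 ≡ (f - 1) + 1 [MOD f] := Nat.ModEq.add_right 1 h
    rw [Nat.sub_add_cancel hf] at h1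
    exact (Nat.modEq_zero_iff_dvd.mp (h1.trans (Nat.modEq_zero_iff_dvd.mpr (dvd_refl f))))

/-- the coefficient -/
noncomputable def a4c (f q m k : ℕ) : ℝ :=
  (if f ∣ m * k + 1 ∧ (m * k) % q = 1 then 1 else 0) -
    1 / ((q : ℝ) - 1) * (if f ∣ m * k + 1 ∧ ¬ q ∣ m * k then 1 else 0)

theorem a4_bound (f q m s t : ℕ) (hf : 1 ≤ f) (hq : q.Prime) (hqf : ¬ q ∣ f) (hst : s ≤ t) :
    |∑ k ∈ Ioc s t, a4c f q m k| ≤ 3 := by
  have hq2 : (2 : ℝ) ≤ q := by exact_mod_cast hq.two_le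
  by_cases hm : Nat.Coprime m f ∧ ¬ q ∣ m
  · obtain ⟨hmf, hmq⟩ := hm
    have hcof : Nat.Coprime f q := ((Nat.Prime.coprime_iff_not_dvd hq).mpr hqf).symm
    have hcom : Nat.Coprime m q := ((Nat.Prime.coprime_iff_not_dvd hq).mpr hmq).symm
    have hmN : Nat.Coprime m (f * q) := Nat.Coprime.mul_right hmf hcom
    have hN : 0 < f * q := Nat.mul_pos hf hq.pos
    obtain ⟨c1, h1a, h1b⟩ := Nat.chineseRemainder hcof (f - 1) 1
    obtain ⟨c0, h0a, h0b⟩ := Nat.chineseRemainder hcof (f - 1) 0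
    obtain ⟨r1, hr1⟩ := a4_class (f * q) m c1 hmN hN
    obtain ⟨r0, hr0⟩ := a4_class (f * q) m c0 hmN hN
    obtain ⟨rf, hrf⟩ := a4_class f m (f - 1) hmf hf
    have e1 : ∀ k, (f ∣ m * k + 1 ∧ (m * k) % q = 1) ↔ k ≡ r1 [MOD f * q] := by
      intro k
      rw [← hr1 k, ← Nat.modEq_and_modEq_iff_modEq_mul hcof, a4_dvd f (m * k) hf]
      have e : (m * k) % q = 1 ↔ m * k ≡ 1 [MOD q] := by
        unfold Nat.ModEq
        rw [Nat.mod_eq_of_lt (a := 1) hq.one_lt]
      rw [e]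
      constructor
      · rintro ⟨ha, hb⟩
        exact ⟨ha.trans h1a.symm, hb.trans h1b.symm⟩
      · rintro ⟨ha, hb⟩
        exact ⟨ha.trans h1a, hb.trans h1b⟩
    have e0 : ∀ k, (f ∣ m * k + 1 ∧ q ∣ m * k) ↔ k ≡ r0 [MOD f * q] := by
      intro k
      rw [← hr0 k, ← Nat.modEq_and_modEq_iff_modEq_mul hcof, a4_dvd f (m * k) hf,
        ← Nat.modEq_zero_iff_dvd]
      constructor
      · rintro ⟨ha, hb⟩
        exact ⟨ha.trans h0a.symm, hb.trans h0b.symm⟩
      · rintro ⟨ha, hb⟩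
        exact ⟨ha.trans h0a, hb.trans h0b⟩
    have ef : ∀ k, (f ∣ m * k + 1) ↔ k ≡ rf [MOD f] := by
      intro k
      rw [← hrf k, a4_dvd f (m * k) hf]
    have hsum : ∑ k ∈ Ioc s t, a4c f q m k =
        (((Ioc s t).filter (fun n => n ≡ r1 [MOD f * q])).card : ℝ) -
        1 / ((q : ℝ) - 1) * ((((Ioc s t).filter (fun n => n ≡ rf [MOD f])).card : ℝ) -
          (((Ioc s t).filter (fun n => n ≡ r0 [MOD f * q])).card : ℝ)) := by
      rw [card_filter, card_filter, card_filter]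
      push_cast
      rw [← sum_sub_distrib, mul_sum, ← sum_sub_distrib]
      refine sum_congr rfl fun k _ => ?_
      unfold a4c
      congr 1
      · exact if_congr (e1 k) rfl rfl
      · congr 1
        rw [← if_congr (ef k) rfl rfl, ← if_congr (e0 k) rfl rfl]
        by_cases p1 : f ∣ m * k + 1 <;> by_cases p2 : q ∣ m * k <;> simp [p1, p2]
    have b1 := a4_count s t (f * q) r1 hst hN
    have b0 := a4_count s t (f * q) r0 hst hN
    have bf := a4_count s t f rf hst hf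
    rw [hsum]
    set x1 : ℝ := (((Ioc s t).filter (fun n => n ≡ r1 [MOD f * q])).card : ℝ)
    set x0 : ℝ := (((Ioc s t).filter (fun n => n ≡ r0 [MOD f * q])).card : ℝ)
    set xf : ℝ := (((Ioc s t).filter (fun n => n ≡ rf [MOD f])).card : ℝ)
    have hf0 : (0 : ℝ) < f := by exact_mod_cast hf
    have hq1 : (0 : ℝ) < (q : ℝ) - 1 := by linarith
    have key : x1 - 1 / ((q : ℝ) - 1) * (xf - x0) =
        (x1 - ((t : ℝ) - s) / ((f * q : ℕ) : ℝ)) -
          1 / ((q : ℝ) - 1) * ((xf - ((t : ℝ) - s) / f) - (x0 - ((t : ℝ) - s) / ((f * q : ℕ) : ℝ))) := by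
      push_cast
      field_simp
      ring
    rw [key]
    have hi : 1 / ((q : ℝ) - 1) ≤ 1 := by
      rw [div_le_one hq1]
      linarith
    have hi0 : 0 ≤ 1 / ((q : ℝ) - 1) := by positivity
    have t1 : |(xf - ((t : ℝ) - s) / f) - (x0 - ((t : ℝ) - s) / ((f * q : ℕ) : ℝ))| ≤ 2 := by
      have := abs_sub (xf - ((t : ℝ) - s) / f) (x0 - ((t : ℝ) - s) / ((f * q : ℕ) : ℝ))
      linarith
    have t2 := abs_sub (x1 - ((t : ℝ) - s) / ((f * q : ℕ) : ℝ))
      (1 / ((q : ℝ) - 1) * ((xf - ((t : ℝ) - s) / f) - (x0 - ((t : ℝ) - s) / ((f * q : ℕ) : ℝ))))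
    have t3 : |1 / ((q : ℝ) - 1) * ((xf - ((t : ℝ) - s) / f) - (x0 - ((t : ℝ) - s) / ((f * q : ℕ) : ℝ)))| ≤ 1 * 2 := by
      rw [abs_mul, abs_of_nonneg hi0]
      exact mul_le_mul hi t1 (abs_nonneg _) zero_le_one
    linarith
  · have hz : ∀ k, a4c f q m k = 0 := by
      intro k
      unfold a4c
      by_cases hmq : q ∣ m
      · have h1 : q ∣ m * k := hmq.mul_right k
        have h2 : (m * k) % q ≠ 1 := by
          rw [Nat.mod_eq_zero_of_dvd h1]
          exact zero_ne_one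
        rw [if_neg (fun h => h2 h.2), if_neg (fun h => h.2 h1)]
        simp
      · have hmf : ¬ Nat.Coprime m f := fun h => hm ⟨h, hmq⟩
        have h1 : ¬ f ∣ m * k + 1 := by
          intro h
          apply hmf
          have hd1 : Nat.gcd m f ∣ m * k + 1 := (Nat.gcd_dvd_right m f).trans h
          have hd2 : Nat.gcd m f ∣ m * k := (Nat.gcd_dvd_left m f).mul_right k
          have hd3 : Nat.gcd m f ∣ 1 := (Nat.dvd_add_right hd2).mp hd1
          exact Nat.dvd_one.mp hd3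
        rw [if_neg (fun h => h1 h.1), if_neg (fun h => h1 h.1)]
        simp
    rw [sum_congr rfl (fun k _ => hz k)]
    simp

/-- [A4] Proof. Let `c k = [f ∣ m k + 1, m k % q = 1] - (1/(q-1)) [f ∣ m k + 1, q ∤ m k]` and `C s t = ∑_{k ∈ Ioc s t} c k`. Claim: `|C s t| ≤ 3`. If `gcd(m, f) > 1` or `q ∣ m` all terms vanish
(`f ∣ m k + 1` resp. `m k % q = 1`, `q ∤ m k` are impossible). Otherwise the first condition is one class modulo `f q` (coprime moduli), so the number of `k` is `(t-s)/(f q) + θ₁`,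
`|θ₁| ≤ 1`; the second is the class modulo `f` without one class modulo `f q`: `(t-s)/f - (t-s)/(f q) + θ₂`, `|θ₂| ≤ 2` (`Nat.Ioc_filter_modEq_card`, or `count_ivl` in `MP_f32cb9_nt/Sieve.lean`);
so `|C| ≤ 1 + 2/(q-1) ≤ 3`. Abel summation: `∑_{k ∈ Ioc u v} w k c k = w (u+1) C u v + ∑_{j=u+2}^{v} (w j - w (j-1)) C (j-1) v`, so the absolute value is at most `3 w v`
(`w ≥ 0` monotone). -/
theorem typeI (f q m u v : ℕ) (w : ℕ → ℝ) (hf : 1 ≤ f) (hq : q.Prime) (hqf : ¬ q ∣ f)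
    (hw0 : ∀ k, 0 ≤ w k) (hw : Monotone w) :
    |(∑ k ∈ Ioc u v, if f ∣ m * k + 1 ∧ (m * k) % q = 1 then w k else 0) -
      1 / ((q : ℝ) - 1) * ∑ k ∈ Ioc u v, if f ∣ m * k + 1 ∧ ¬ q ∣ m * k then w k else 0| ≤
      6 * w v := by
  have hconv : (∑ k ∈ Ioc u v, if f ∣ m * k + 1 ∧ (m * k) % q = 1 then w k else 0) -
      1 / ((q : ℝ) - 1) * ∑ k ∈ Ioc u v, (if f ∣ m * k + 1 ∧ ¬ q ∣ m * k then w k else 0) =
      ∑ k ∈ Ioc u v, w k * a4c f q m k := by
    rw [mul_sum, ← sum_sub_distrib]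
    refine sum_congr rfl fun k _ => ?_
    unfold a4c
    split_ifs <;> ring
  rw [hconv]
  clear hconv
  rcases le_total v u with hvu | huv
  · rw [Ioc_eq_empty_of_le hvu, sum_empty, abs_zero]
    have := hw0 v
    positivity
  · have key : |(∑ k ∈ Ioc u v, w k * a4c f q m k) - w v * ∑ k ∈ Ioc u v, a4c f q m k| ≤
        3 * (w v - w u) := by
      induction v, huv using Nat.le_induction with
      | base => simp
      | succ n hn ih =>
        have hc := a4_bound f q m u n hf hq hqf hn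
        have i1 : Ioc u (n + 1) = insert (n + 1) (Ioc u n) := by
          ext j
          simp only [mem_Ioc, mem_insert]
          omega
        have i2 : n + 1 ∉ Ioc u n := by
          rw [mem_Ioc]
          omega
        rw [i1, sum_insert i2, sum_insert i2]
        have hmn : w n ≤ w (n + 1) := hw (Nat.le_succ n)
        set S := ∑ k ∈ Ioc u n, w k * a4c f q m k
        set C := ∑ k ∈ Ioc u n, a4c f q m k
        have e : w (n + 1) * a4c f q m (n + 1) + S - w (n + 1) * (a4c f q m (n + 1) + C) =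
            (S - w n * C) - (w (n + 1) - w n) * C := by ring
        rw [e]
        have t1 := abs_sub (S - w n * C) ((w (n + 1) - w n) * C)
        have t2 : |(w (n + 1) - w n) * C| ≤ (w (n + 1) - w n) * 3 := by
          rw [abs_mul, abs_of_nonneg (sub_nonneg.mpr hmn)]
          exact mul_le_mul_of_nonneg_left hc (sub_nonneg.mpr hmn)
        linarith [ih]
    have hc := a4_bound f q m u v hf hq hqf huv
    have t3 : |w v * ∑ k ∈ Ioc u v, a4c f q m k| ≤ w v * 3 := by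
      rw [abs_mul, abs_of_nonneg (hw0 v)]
      exact mul_le_mul_of_nonneg_left hc (hw0 v)
    have t4 := abs_add_le ((∑ k ∈ Ioc u v, w k * a4c f q m k) - w v * ∑ k ∈ Ioc u v, a4c f q m k)
      (w v * ∑ k ∈ Ioc u v, a4c f q m k)
    rw [sub_add_cancel] at t4
    have := hw0 u
    linarith

end GCN
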