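import Pool.Agent.GCN.A4
import Pool.Agent.EPK.V1b
import Pool.Agent.LPX.V1

/-!
# [GCN-A5] Vaughan's identity for one prime `q`
-/

set_option autoImplicit false

open Finset

namespace GCN

/-- the sum of type II -/
noncomputable def T2 (f z U q : ℕ) : ℝ :=
  (∑ m ∈ Icc 1 z, ∑ k ∈ Ioc (z / 2 / m) (z / m),
      if U < m ∧ U < k ∧ f ∣ m * k + 1 ∧ (m * k) % q = 1 then
        ArithmeticFunction.vonMangoldt m * Pool.Agent.EPK.vb U k else 0) -
    1 / ((q : ℝ) - 1) * ∑ m ∈ Icc 1 z, ∑ k ∈ Ioc (z / 2 / m) (z / m),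
      if U < m ∧ U < k ∧ f ∣ m * k + 1 ∧ ¬ q ∣ m * k then
        ArithmeticFunction.vonMangoldt m * Pool.Agent.EPK.vb U k else 0

/-- the coefficient -/
noncomputable def a5e (f q n : ℕ) : ℝ :=
  (if f ∣ n + 1 ∧ n % q = 1 then 1 else 0) -
    1 / ((q : ℝ) - 1) * (if f ∣ n + 1 ∧ ¬ q ∣ n then 1 else 0)

theorem a5_typeI (f q m u v : ℕ) (w : ℕ → ℝ) (hf : 1 ≤ f) (hq : q.Prime) (hqf : ¬ q ∣ f)
    (hw0 : ∀ k, 0 ≤ w k) (hw : Monotone w) :
    |∑ k ∈ Ioc u v, w k * a5e f q (m * k)| ≤ 6 * w v := by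
  have h := typeI f q m u v w hf hq hqf hw0 hw
  have hconv : (∑ k ∈ Ioc u v, if f ∣ m * k + 1 ∧ (m * k) % q = 1 then w k else 0) -
      1 / ((q : ℝ) - 1) * ∑ k ∈ Ioc u v, (if f ∣ m * k + 1 ∧ ¬ q ∣ m * k then w k else 0) =
      ∑ k ∈ Ioc u v, w k * a5e f q (m * k) := by
    rw [mul_sum, ← sum_sub_distrib]
    refine sum_congr rfl fun k _ => ?_
    unfold a5e
    split_ifs <;> ring
  rwa [hconv] at h

theorem a5_antidiag (R R' : ℕ) (hR : R ≤ R') (F : ℕ → ℕ → ℝ) :
    ∑ n ∈ Ioc R R', ∑ p ∈ n.divisorsAntidiagonal, F p.1 p.2 =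
      ∑ m ∈ Icc 1 R', ∑ k ∈ Ioc (R / m) (R' / m), F m k := by
  have h := Pool.Agent.LPX.sum_antidiag2 R R' hR (fun a b => ((F a b : ℝ) : ℂ))
  exact_mod_cast h

theorem a5_EL (f z q : ℕ) : EL f z q = ∑ n ∈ Ioc (z / 2) z,
    ArithmeticFunction.vonMangoldt n * a5e f q n := by
  unfold EL
  rw [mul_sum, ← sum_sub_distrib]
  refine sum_congr rfl fun k _ => ?_
  unfold a5e
  split_ifs <;> ring

theorem a5_T2 (f z U q : ℕ) : T2 f z U q = ∑ m ∈ Icc 1 z, ∑ k ∈ Ioc (z / 2 / m) (z / m),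
    (if U < m then ArithmeticFunction.vonMangoldt m * Pool.Agent.EPK.vb U k else 0) *
      a5e f q (m * k) := by
  unfold T2
  rw [mul_sum, ← sum_sub_distrib]
  refine sum_congr rfl fun m _ => ?_
  rw [mul_sum, ← sum_sub_distrib]
  refine sum_congr rfl fun k _ => ?_
  by_cases h1 : U < m
  · by_cases h2 : U < k
    · simp only [h1, h2, true_and, if_true]
      unfold a5e
      split_ifs <;> ring
    · have h3 : Pool.Agent.EPK.vb U k = 0 := (Pool.Agent.EPK.va_vb U).2.2.2 k (by omega)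
      rw [h3]
      simp
  · simp [h1]

/-- [A5] Proof. For `n > z/2 ≥ U` Vaughan's identity (`EPK.vaughan_point`, the first term vanishes): `Λ(n) = ∑_{d k = n, d ≤ U} μ(d) log k - ∑_{d k = n} va U d + ∑_{d k = n, d > U} Λ(d) vb U k`
(`va U d = 0` for `d > U²`, `vb U k = 0` for `k ≤ U`, `|va U d| ≤ log d`: `EPK.va_vb`). Insert into `EL` and rearrange with `sum_antidiag2` (LPX/V1.lean; it is stated over `ℂ`; use it with real coefficients
cast to `ℂ`, or copy its proof): sums over `m ∈ Icc 1 z`, `k ∈ Ioc (z/2/m) (z/m)`, `n = m k`. For fixed `m` the first two terms are `typeI` with the weights `log` (monotone, `≥ 0`) and `1`: absolute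
value `≤ 6 log z` for each of the `≤ U` values of `m` and `≤ 6 log (U²) ≤ 6 log z` for each of the `≤ U²` values of `m`. Total `≤ 12 U² log z ≤ 18 U² log z`. The third term is `T2`. -/
theorem vaughan_q (f z U q : ℕ) (hf : 1 ≤ f) (hq : q.Prime) (hqf : ¬ q ∣ f) (hU : 1 ≤ U)
    (hUz : U ^ 2 ≤ z / 2) : |EL f z q| ≤ 18 * (U : ℝ) ^ 2 * Real.log z + |T2 f z U q| := by
  obtain ⟨va1, va2, -, vb0⟩ := Pool.Agent.EPK.va_vb U
  have hUU : U ≤ U ^ 2 := by nlinarith
  have hz2 : z / 2 ≤ z := Nat.div_le_self z 2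
  have hz1 : 1 ≤ z := by
    have : 1 ≤ U ^ 2 := Nat.one_le_pow _ _ hU
    omega
  have hlogz : 0 ≤ Real.log z := Real.log_natCast_nonneg z
  have hmono : Monotone (fun k : ℕ => Real.log (k : ℝ)) := by
    intro a b hab
    rcases Nat.eq_zero_or_pos a with h | h
    · subst h
      simp only [Nat.cast_zero, Real.log_zero]
      exact Real.log_natCast_nonneg b
    · exact Real.log_le_log (by exact_mod_cast h) (by exact_mod_cast hab)
  have e1 : EL f z q = ∑ n ∈ Ioc (z / 2) z, ∑ p ∈ n.divisorsAntidiagonal,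
      ((if p.1 ≤ U then ((ArithmeticFunction.moebius p.1 : ℤ) : ℝ) * Real.log p.2 else 0) -
        Pool.Agent.EPK.va U p.1 +
        (if U < p.1 then ArithmeticFunction.vonMangoldt p.1 * Pool.Agent.EPK.vb U p.2 else 0)) *
        a5e f q (p.1 * p.2) := by
    rw [a5_EL]
    refine sum_congr rfl fun n hn => ?_
    rw [mem_Ioc] at hn
    have h1 := Pool.Agent.EPK.vaughan_point U n (by omega)
    rw [if_neg (by omega), zero_add, sum_filter, sum_filter, ← sum_sub_distrib,
      ← sum_add_distrib] at h1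
    rw [h1, sum_mul]
    refine sum_congr rfl fun p hp => ?_
    rw [(Nat.mem_divisorsAntidiagonal.mp hp).1]
  rw [a5_antidiag (z / 2) z hz2 (fun a b =>
    ((if a ≤ U then ((ArithmeticFunction.moebius a : ℤ) : ℝ) * Real.log b else 0) -
        Pool.Agent.EPK.va U a +
        (if U < a then ArithmeticFunction.vonMangoldt a * Pool.Agent.EPK.vb U b else 0)) *
        a5e f q (a * b))] at e1
  have e2 : EL f z q = (∑ m ∈ Icc 1 z, (if m ≤ U then ((ArithmeticFunction.moebius m : ℤ) : ℝ) *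
      ∑ k ∈ Ioc (z / 2 / m) (z / m), Real.log k * a5e f q (m * k) else 0)) -
      (∑ m ∈ Icc 1 z, Pool.Agent.EPK.va U m * ∑ k ∈ Ioc (z / 2 / m) (z / m), 1 * a5e f q (m * k)) +
      T2 f z U q := by
    rw [e1, a5_T2, ← sum_sub_distrib, ← sum_add_distrib]
    refine sum_congr rfl fun m _ => ?_
    have h3 : (if m ≤ U then ((ArithmeticFunction.moebius m : ℤ) : ℝ) *
        ∑ k ∈ Ioc (z / 2 / m) (z / m), Real.log k * a5e f q (m * k) else 0) =
        ∑ k ∈ Ioc (z / 2 / m) (z / m),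
          (if m ≤ U then ((ArithmeticFunction.moebius m : ℤ) : ℝ) * Real.log k else 0) *
            a5e f q (m * k) := by
      split_ifs
      · rw [mul_sum]
        refine sum_congr rfl fun k _ => ?_
        ring
      · simp
    rw [h3, mul_sum, ← sum_sub_distrib, ← sum_add_distrib]
    refine sum_congr rfl fun k _ => ?_
    ring
  have b1 : |∑ m ∈ Icc 1 z, (if m ≤ U then ((ArithmeticFunction.moebius m : ℤ) : ℝ) *
      ∑ k ∈ Ioc (z / 2 / m) (z / m), Real.log k * a5e f q (m * k) else 0)| ≤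
      (U : ℝ) * (6 * Real.log z) := by
    refine (abs_sum_le_sum_abs _ _).trans ?_
    have h4 : ∀ m ∈ Icc 1 z, |(if m ≤ U then ((ArithmeticFunction.moebius m : ℤ) : ℝ) *
        ∑ k ∈ Ioc (z / 2 / m) (z / m), Real.log k * a5e f q (m * k) else 0)| ≤
        (if m ≤ U then 6 * Real.log z else 0) := by
      intro m hm
      rw [mem_Icc] at hm
      by_cases hmU : m ≤ U
      · rw [if_pos hmU, if_pos hmU, abs_mul]
        have h5 : |((ArithmeticFunction.moebius m : ℤ) : ℝ)| ≤ 1 := by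
          have h1 : |ArithmeticFunction.moebius m| ≤ 1 := ArithmeticFunction.abs_moebius_le_one
          exact_mod_cast h1
        have h6 := a5_typeI f q m (z / 2 / m) (z / m) (fun k : ℕ => Real.log (k : ℝ)) hf hq hqf
          (fun k => Real.log_natCast_nonneg k) hmono
        have h7 : Real.log ((z / m : ℕ) : ℝ) ≤ Real.log z := hmono (Nat.div_le_self z m)
        calc _ ≤ 1 * (6 * Real.log ((z / m : ℕ) : ℝ)) :=
              mul_le_mul h5 h6 (abs_nonneg _) zero_le_one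
          _ ≤ 6 * Real.log z := by linarith
      · rw [if_neg hmU, if_neg hmU, abs_zero]
    refine (sum_le_sum h4).trans ?_
    rw [← sum_filter, sum_const, nsmul_eq_mul]
    refine mul_le_mul_of_nonneg_right ?_ (by positivity)
    have h8 : ((Icc 1 z).filter (fun m => m ≤ U)).card ≤ (Icc 1 U).card := by
      apply card_le_card
      intro m hm
      rw [mem_filter, mem_Icc] at hm
      rw [mem_Icc]
      exact ⟨hm.1.1, hm.2⟩
    rw [Nat.card_Icc] at h8
    exact_mod_cast (by simpa using h8)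
  have b2 : |∑ m ∈ Icc 1 z, Pool.Agent.EPK.va U m *
      ∑ k ∈ Ioc (z / 2 / m) (z / m), 1 * a5e f q (m * k)| ≤
      ((U ^ 2 : ℕ) : ℝ) * (Real.log z * 6) := by
    refine (abs_sum_le_sum_abs _ _).trans ?_
    have h4 : ∀ m ∈ Icc 1 z, |Pool.Agent.EPK.va U m *
        ∑ k ∈ Ioc (z / 2 / m) (z / m), 1 * a5e f q (m * k)| ≤
        (if m ≤ U ^ 2 then Real.log z * 6 else 0) := by
      intro m hm
      rw [mem_Icc] at hm
      by_cases hmU : m ≤ U ^ 2
      · rw [if_pos hmU, abs_mul]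
        have h6 := a5_typeI f q m (z / 2 / m) (z / m) (fun _ : ℕ => (1 : ℝ)) hf hq hqf
          (fun k => zero_le_one) monotone_const
        have h7 : |Pool.Agent.EPK.va U m| ≤ Real.log z :=
          (va1 m hm.1).trans (hmono hm.2)
        rw [mul_one] at h6
        exact mul_le_mul h7 h6 (abs_nonneg _) hlogz
      · rw [if_neg hmU, va2 m (by omega), zero_mul, abs_zero]
    refine (sum_le_sum h4).trans ?_
    rw [← sum_filter, sum_const, nsmul_eq_mul]
    refine mul_le_mul_of_nonneg_right ?_ (by positivity)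
    have h8 : ((Icc 1 z).filter (fun m => m ≤ U ^ 2)).card ≤ (Icc 1 (U ^ 2)).card := by
      apply card_le_card
      intro m hm
      rw [mem_filter, mem_Icc] at hm
      rw [mem_Icc]
      exact ⟨hm.1.1, hm.2⟩
    rw [Nat.card_Icc] at h8
    exact_mod_cast (by simpa using h8)
  rw [e2]
  set S1 := ∑ m ∈ Icc 1 z, (if m ≤ U then ((ArithmeticFunction.moebius m : ℤ) : ℝ) *
      ∑ k ∈ Ioc (z / 2 / m) (z / m), Real.log k * a5e f q (m * k) else 0)
  set S2 := ∑ m ∈ Icc 1 z, Pool.Agent.EPK.va U m *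
      ∑ k ∈ Ioc (z / 2 / m) (z / m), 1 * a5e f q (m * k)
  have t1 := abs_add_le (S1 - S2) (T2 f z U q)
  have t2 := abs_sub S1 S2
  have hUr : (1 : ℝ) ≤ U := by exact_mod_cast hU
  have hU2 : (U : ℝ) ≤ (U : ℝ) ^ 2 := by nlinarith
  have t3 : (U : ℝ) * (6 * Real.log z) ≤ (U : ℝ) ^ 2 * (6 * Real.log z) :=
    mul_le_mul_of_nonneg_right hU2 (by positivity)
  have t4 : 0 ≤ (U : ℝ) ^ 2 * Real.log z := by positivity
  push_cast at b2
  nlinarith

end GCN
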