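import Pool.Agent.GCN.A5

/-!
# [GCN-A6a] decomposition of the sum of type II
-/

set_option autoImplicit false

open Finset

namespace GCN

/-- the coefficients of `m` in the dyadic interval `(2^i, 2^(i+1)]` and in the class `u` modulo `f` -/
noncomputable def ca (f z U i u m : ℕ) : ℂ :=
  if 2 ^ i < m ∧ m ≤ 2 ^ (i + 1) ∧ U < m ∧ m ≤ z / U ∧ m % f = u then
    ((ArithmeticFunction.vonMangoldt m : ℝ) : ℂ) else 0

/-- the coefficients of `k` -/
noncomputable def cb (f U u k : ℕ) : ℂ :=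
  if U < k ∧ f ∣ u * k + 1 then ((Pool.Agent.EPK.vb U k : ℝ) : ℂ) else 0

theorem a6a_inner (f z U m k : ℕ) (hf : 1 ≤ f) (hU : 1 ≤ U) (hmz : m ≤ z)
    (hk2 : k ≤ z / m) :
    ∑ i ∈ range (Nat.log 2 z + 1), ∑ u ∈ range f, ca f z U i u m * cb f U u k =
      if U < m ∧ U < k ∧ f ∣ m * k + 1 then
        ((ArithmeticFunction.vonMangoldt m : ℝ) : ℂ) * ((Pool.Agent.EPK.vb U k : ℝ) : ℂ) else 0 := by
  by_cases h1 : U < m
  · by_cases h2 : U < k
    · have hm1 : m - 1 ≠ 0 := by omega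
      have hi : ∀ i, (2 ^ i < m ∧ m ≤ 2 ^ (i + 1)) ↔ i = Nat.log 2 (m - 1) := by
        intro i
        rw [eq_comm, Nat.log_eq_iff (Or.inr ⟨by norm_num, hm1⟩)]
        constructor
        · rintro ⟨a, b⟩
          exact ⟨by omega, by omega⟩
        · rintro ⟨a, b⟩
          exact ⟨by omega, by omega⟩
      have hmU : m ≤ z / U := by
        rw [Nat.le_div_iff_mul_le (by omega)]
        have h3 : k * m ≤ z := (Nat.le_div_iff_mul_le (by omega)).mp hk2
        nlinarith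
      have hlog : Nat.log 2 (m - 1) ∈ range (Nat.log 2 z + 1) := by
        rw [mem_range]
        have : Nat.log 2 (m - 1) ≤ Nat.log 2 z := Nat.log_mono_right (by omega)
        omega
      rw [sum_eq_single_of_mem _ hlog, sum_eq_single_of_mem (m % f)
        (mem_range.mpr (Nat.mod_lt _ (by omega)))]
      · have h4 := (hi (Nat.log 2 (m - 1))).mpr rfl
        unfold ca cb
        rw [if_pos ⟨h4.1, h4.2, h1, hmU, rfl⟩]
        have h5 : f ∣ m % f * k + 1 ↔ f ∣ m * k + 1 := by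
          have h6 : m % f * k + 1 ≡ m * k + 1 [MOD f] :=
            Nat.ModEq.add_right 1 (Nat.ModEq.mul_right k (Nat.mod_modEq m f))
          exact h6.dvd_iff (dvd_refl f)
        rw [if_congr (show (U < k ∧ f ∣ m % f * k + 1) ↔ (U < m ∧ U < k ∧ f ∣ m * k + 1) by
          rw [h5]; tauto) rfl rfl]
        split_ifs <;> simp
      · intro u _ hu
        have : ca f z U (Nat.log 2 (m - 1)) u m = 0 := by
          unfold ca
          rw [if_neg (fun h => hu h.2.2.2.2.symm)]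
        rw [this, zero_mul]
      · intro i _ hne
        refine sum_eq_zero fun u _ => ?_
        have : ca f z U i u m = 0 := by
          unfold ca
          rw [if_neg (fun h => hne ((hi i).mp ⟨h.1, h.2.1⟩))]
        rw [this, zero_mul]
    · rw [if_neg (fun h => h2 h.2.1)]
      refine sum_eq_zero fun i _ => sum_eq_zero fun u _ => ?_
      have : cb f U u k = 0 := by
        unfold cb
        rw [if_neg (fun h => h2 h.1)]
      rw [this, mul_zero]
  · rw [if_neg (fun h => h1 h.1)]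
    refine sum_eq_zero fun i _ => sum_eq_zero fun u _ => ?_
    have : ca f z U i u m = 0 := by
      unfold ca
      rw [if_neg (fun h => h1 h.2.2.1)]
    rw [this, zero_mul]

theorem a6a_block (f z U i u : ℕ) (Q : ℕ → Prop) [DecidablePred Q] :
    ∑ m ∈ range (2 ^ (i + 1) + 1), ∑ k ∈ range (z / 2 ^ i + 1),
      (if Q (m * k) ∧ z / 2 / m < k ∧ k ≤ z / m then ca f z U i u m * cb f U u k else 0) =
    ∑ m ∈ Icc 1 z, ∑ k ∈ Ioc (z / 2 / m) (z / m),
      if Q (m * k) then ca f z U i u m * cb f U u k else 0 := by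
  have h0 : ∀ m, ¬ (2 ^ i < m ∧ m ≤ 2 ^ (i + 1) ∧ m ≤ z / U) → ca f z U i u m = 0 := by
    intro m hm
    unfold ca
    rw [if_neg (fun h => hm ⟨h.1, h.2.1, h.2.2.2.1⟩)]
  have hpow : 1 ≤ 2 ^ i := Nat.one_le_pow _ _ (by norm_num)
  have e1 : ∑ m ∈ range (2 ^ (i + 1) + 1), ∑ k ∈ range (z / 2 ^ i + 1),
      (if Q (m * k) ∧ z / 2 / m < k ∧ k ≤ z / m then ca f z U i u m * cb f U u k else 0) =
      ∑ m ∈ (range (2 ^ (i + 1) + 1)).filter (fun m => 2 ^ i < m ∧ m ≤ 2 ^ (i + 1) ∧ m ≤ z / U),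
      ∑ k ∈ range (z / 2 ^ i + 1),
      (if Q (m * k) ∧ z / 2 / m < k ∧ k ≤ z / m then ca f z U i u m * cb f U u k else 0) := by
    rw [sum_filter]
    refine sum_congr rfl fun m _ => ?_
    split_ifs with h
    · rfl
    · refine sum_eq_zero fun k _ => ?_
      rw [h0 m h]
      simp
  have e2 : ∑ m ∈ Icc 1 z, ∑ k ∈ Ioc (z / 2 / m) (z / m),
      (if Q (m * k) then ca f z U i u m * cb f U u k else 0) =
      ∑ m ∈ (Icc 1 z).filter (fun m => 2 ^ i < m ∧ m ≤ 2 ^ (i + 1) ∧ m ≤ z / U),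
      ∑ k ∈ Ioc (z / 2 / m) (z / m),
      (if Q (m * k) then ca f z U i u m * cb f U u k else 0) := by
    rw [sum_filter]
    refine sum_congr rfl fun m _ => ?_
    split_ifs with h
    · rfl
    · refine sum_eq_zero fun k _ => ?_
      rw [h0 m h]
      simp
  have hset : (range (2 ^ (i + 1) + 1)).filter
      (fun m => 2 ^ i < m ∧ m ≤ 2 ^ (i + 1) ∧ m ≤ z / U) =
      (Icc 1 z).filter (fun m => 2 ^ i < m ∧ m ≤ 2 ^ (i + 1) ∧ m ≤ z / U) := by
    ext m
    simp only [mem_filter, mem_range, mem_Icc]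
    have : z / U ≤ z := Nat.div_le_self z U
    constructor
    · rintro ⟨_, b, c, d⟩
      exact ⟨⟨by omega, by omega⟩, b, c, d⟩
    · rintro ⟨_, b, c, d⟩
      exact ⟨by omega, b, c, d⟩
  rw [e1, e2, hset]
  refine sum_congr rfl fun m hm => ?_
  rw [mem_filter, mem_Icc] at hm
  have hdiv : z / m ≤ z / 2 ^ i := Nat.div_le_div_left hm.2.1.le (by omega)
  have hset2 : Ioc (z / 2 / m) (z / m) =
      (range (z / 2 ^ i + 1)).filter (fun k => z / 2 / m < k ∧ k ≤ z / m) := by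
    ext k
    simp only [mem_filter, mem_range, mem_Ioc]
    constructor
    · rintro ⟨a, b⟩
      exact ⟨by omega, a, b⟩
    · rintro ⟨_, a, b⟩
      exact ⟨a, b⟩
  rw [hset2, sum_filter]
  refine sum_congr rfl fun k _ => ?_
  by_cases p1 : Q (m * k) <;> by_cases p2 : z / 2 / m < k ∧ k ≤ z / m
  · rw [if_pos ⟨p1, p2⟩, if_pos p2, if_pos p1]
  · rw [if_neg (fun h => p2 h.2), if_neg p2]
  · rw [if_neg (fun h => p1 h.1), if_pos p2, if_neg p1]
  · rw [if_neg (fun h => p1 h.1), if_neg p2]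

theorem a6a_main (f z U : ℕ) (hf : 1 ≤ f) (hU : 1 ≤ U) (Q : ℕ → Prop) [DecidablePred Q] :
    ∑ m ∈ Icc 1 z, ∑ k ∈ Ioc (z / 2 / m) (z / m),
      (if U < m ∧ U < k ∧ f ∣ m * k + 1 ∧ Q (m * k) then
        ((ArithmeticFunction.vonMangoldt m : ℝ) : ℂ) * ((Pool.Agent.EPK.vb U k : ℝ) : ℂ) else 0) =
    ∑ i ∈ range (Nat.log 2 z + 1), ∑ u ∈ range f,
      ∑ m ∈ range (2 ^ (i + 1) + 1), ∑ k ∈ range (z / 2 ^ i + 1),
      (if Q (m * k) ∧ z / 2 / m < k ∧ k ≤ z / m then ca f z U i u m * cb f U u k else 0) := by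
  have e1 : ∑ i ∈ range (Nat.log 2 z + 1), ∑ u ∈ range f,
      ∑ m ∈ range (2 ^ (i + 1) + 1), ∑ k ∈ range (z / 2 ^ i + 1),
      (if Q (m * k) ∧ z / 2 / m < k ∧ k ≤ z / m then ca f z U i u m * cb f U u k else 0) =
      ∑ i ∈ range (Nat.log 2 z + 1), ∑ m ∈ Icc 1 z, ∑ u ∈ range f,
      ∑ k ∈ Ioc (z / 2 / m) (z / m),
      if Q (m * k) then ca f z U i u m * cb f U u k else 0 := by
    refine sum_congr rfl fun i _ => ?_
    rw [sum_comm (s := Icc 1 z)]
    exact sum_congr rfl fun u _ => a6a_block f z U i u Q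
  rw [e1, sum_comm]
  refine sum_congr rfl fun m hm => ?_
  rw [mem_Icc] at hm
  have e2 : ∑ i ∈ range (Nat.log 2 z + 1), ∑ u ∈ range f,
      ∑ k ∈ Ioc (z / 2 / m) (z / m),
      (if Q (m * k) then ca f z U i u m * cb f U u k else 0) =
      ∑ i ∈ range (Nat.log 2 z + 1), ∑ k ∈ Ioc (z / 2 / m) (z / m), ∑ u ∈ range f,
      (if Q (m * k) then ca f z U i u m * cb f U u k else 0) :=
    sum_congr rfl fun i _ => sum_comm
  rw [e2, sum_comm]
  refine sum_congr rfl fun k hk => ?_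
  rw [mem_Ioc] at hk
  have h3 := a6a_inner f z U m k hf hU hm.2 hk.2
  by_cases p1 : Q (m * k)
  · simp only [p1, if_true, and_true]
    exact h3.symm
  · rw [if_neg (fun h => p1 h.2.2.2)]
    symm
    refine sum_eq_zero fun i _ => sum_eq_zero fun u _ => ?_
    rw [if_neg p1]

/-- [A6a] Proof. Every `m ≥ 2` is in exactly one interval `(2^i, 2^(i+1)]` with `i ≤ log₂ z`, and in one class `u < f`; for `m ≡ u mod f`: `f ∣ m k + 1 ↔ f ∣ u k + 1`. If `U < k ≤ z/m` then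
`m ≤ z/U` and `k ≤ z/m ≤ z/2^i`, so `k < K = z/2^i + 1`. -/
theorem T2_split (f z U q : ℕ) (hf : 1 ≤ f) (hU : 1 ≤ U) :
    ((T2 f z U q : ℝ) : ℂ) = ∑ i ∈ range (Nat.log 2 z + 1), ∑ u ∈ range f,
      DI (2 ^ (i + 1) + 1) (z / 2 ^ i + 1) (ca f z U i u) (cb f U u)
        (fun m => z / 2 / m) (fun m => z / m) q := by
  have h1 := a6a_main f z U hf hU (fun n => n % q = 1)
  have h2 := a6a_main f z U hf hU (fun n => ¬ q ∣ n)
  beta_reduce at h1 h2
  unfold T2 DI
  simp only [sum_sub_distrib, ← mul_sum]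
  rw [← h1, ← h2]
  rw [Complex.ofReal_sub, Complex.ofReal_mul, Complex.ofReal_sum, Complex.ofReal_sum]
  congr 1
  · refine sum_congr rfl fun m _ => ?_
    rw [Complex.ofReal_sum]
    refine sum_congr rfl fun k _ => ?_
    split_ifs <;> simp
  · congr 1
    · push_cast
      rfl
    · refine sum_congr rfl fun m _ => ?_
      rw [Complex.ofReal_sum]
      refine sum_congr rfl fun k _ => ?_
      split_ifs <;> simp

end GCN
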