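import Pool.Agent.GCN.Defs

/-!
# [GCN-A6b] second moment of the divisor function
-/

set_option autoImplicit false

open Finset

namespace GCN

theorem a6b_harm (n : ℕ) : ∑ i ∈ Icc 1 n, (1 / (i : ℝ)) ≤ 1 + Real.log n := by
  have h := harmonic_le_one_add_log n
  have h2 : ((harmonic n : ℚ) : ℝ) = ∑ i ∈ Icc 1 n, (1 / (i : ℝ)) := by
    rw [harmonic_eq_sum_Icc]
    push_cast
    simp only [one_div]
  rw [← h2]
  exact h

theorem a6b_tau {n k : ℕ} (hk : k ∈ Icc 1 n) :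
    ((k.divisors.card : ℝ)) = ∑ a ∈ Icc 1 n, if a ∣ k then (1 : ℝ) else 0 := by
  rw [Finset.mem_Icc] at hk
  rw [← Finset.sum_filter, Finset.sum_const, nsmul_eq_mul, mul_one]
  have h1 : k.divisors = (Icc 1 n).filter (fun a => a ∣ k) := by
    ext a
    rw [Nat.mem_divisors, Finset.mem_filter, Finset.mem_Icc]
    constructor
    · rintro ⟨h2, h3⟩
      exact ⟨⟨Nat.pos_of_dvd_of_pos h2 (by omega), (Nat.le_of_dvd (by omega) h2).trans hk.2⟩, h2⟩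
    · rintro ⟨_, h2⟩
      exact ⟨h2, by omega⟩
  rw [h1]

theorem a6b_count (n a b : ℕ) (ha : 1 ≤ a) :
    ∑ k ∈ Icc 1 n, (if a ∣ k then (1 : ℝ) else 0) * (if b ∣ k then (1 : ℝ) else 0) ≤
      n * (1 / (Nat.gcd a b : ℝ) * (1 / ((a / Nat.gcd a b : ℕ) : ℝ)) *
        (1 / ((b / Nat.gcd a b : ℕ) : ℝ))) := by
  have h1 : ∀ k, (if a ∣ k then (1 : ℝ) else 0) * (if b ∣ k then (1 : ℝ) else 0) =
      if Nat.lcm a b ∣ k then (1 : ℝ) else 0 := by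
    intro k
    by_cases h2 : a ∣ k
    · by_cases h3 : b ∣ k
      · rw [if_pos h2, if_pos h3, if_pos (Nat.lcm_dvd h2 h3), one_mul]
      · rw [if_neg h3, if_neg (fun h => h3 ((Nat.dvd_lcm_right a b).trans h)), mul_zero]
    · rw [if_neg h2, if_neg (fun h => h2 ((Nat.dvd_lcm_left a b).trans h)), zero_mul]
  simp only [h1]
  rw [← Finset.sum_filter, Finset.sum_const, nsmul_eq_mul, mul_one]
  have h2 : ((Icc 1 n).filter (fun k => Nat.lcm a b ∣ k)).card = n / Nat.lcm a b := by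
    have h3 := Nat.Ioc_filter_dvd_card_eq_div n (Nat.lcm a b)
    have h4 : Ioc 0 n = Icc 1 n := by
      ext k
      rw [Finset.mem_Ioc, Finset.mem_Icc]
      omega
    rwa [h4] at h3
  rw [h2]
  have hg : 0 < Nat.gcd a b := Nat.gcd_pos_of_pos_left b ha
  obtain ⟨a', ha'⟩ := Nat.gcd_dvd_left a b
  obtain ⟨b', hb'⟩ := Nat.gcd_dvd_right a b
  set g := Nat.gcd a b with hgdef
  have ea : a / g = a' := by
    rw [ha']
    exact Nat.mul_div_cancel_left _ hg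
  have eb : b / g = b' := by
    rw [hb']
    exact Nat.mul_div_cancel_left _ hg
  have el : Nat.lcm a b = g * a' * b' := by
    have h3 := Nat.gcd_mul_lcm a b
    rw [← hgdef] at h3
    have h4 : g * Nat.lcm a b = g * (g * a' * b') := by
      rw [h3]
      nth_rewrite 1 [ha']
      nth_rewrite 1 [hb']
      ring
    exact Nat.eq_of_mul_eq_mul_left hg h4
  rw [ea, eb, el]
  have h5 : ((n / (g * a' * b') : ℕ) : ℝ) ≤ (n : ℝ) / ((g * a' * b' : ℕ) : ℝ) := Nat.cast_div_le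
  refine h5.trans (le_of_eq ?_)
  push_cast
  rw [div_eq_mul_one_div, one_div_mul_one_div, one_div_mul_one_div]

theorem a6b_inj (n : ℕ) :
    ∑ p ∈ Icc 1 n ×ˢ Icc 1 n, (1 / (Nat.gcd p.1 p.2 : ℝ) * (1 / ((p.1 / Nat.gcd p.1 p.2 : ℕ) : ℝ)) *
        (1 / ((p.2 / Nat.gcd p.1 p.2 : ℕ) : ℝ))) ≤ (∑ i ∈ Icc 1 n, (1 / (i : ℝ))) ^ 3 := by
  set e : ℕ × ℕ → (ℕ × ℕ) × ℕ := fun p =>
    ((Nat.gcd p.1 p.2, p.1 / Nat.gcd p.1 p.2), p.2 / Nat.gcd p.1 p.2) with he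
  set F : (ℕ × ℕ) × ℕ → ℝ := fun q => 1 / (q.1.1 : ℝ) * (1 / (q.1.2 : ℝ)) * (1 / (q.2 : ℝ)) with hF
  have hinj : Set.InjOn e (Icc 1 n ×ˢ Icc 1 n : Finset (ℕ × ℕ)) := by
    intro p _ q _ h
    have h1 : Nat.gcd p.1 p.2 = Nat.gcd q.1 q.2 := congrArg (fun z => z.1.1) h
    have h2 : p.1 / Nat.gcd p.1 p.2 = q.1 / Nat.gcd q.1 q.2 := congrArg (fun z => z.1.2) h
    have h3 : p.2 / Nat.gcd p.1 p.2 = q.2 / Nat.gcd q.1 q.2 := congrArg (fun z => z.2) h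
    have h4 := Nat.div_mul_cancel (Nat.gcd_dvd_left p.1 p.2)
    have h5 := Nat.div_mul_cancel (Nat.gcd_dvd_right p.1 p.2)
    have h6 := Nat.div_mul_cancel (Nat.gcd_dvd_left q.1 q.2)
    have h7 := Nat.div_mul_cancel (Nat.gcd_dvd_right q.1 q.2)
    have h8 : p.1 = q.1 := by rw [← h4, ← h6, h2, h1]
    have h9 : p.2 = q.2 := by rw [← h5, ← h7, h3, h1]
    exact Prod.ext h8 h9
  have hsub : (Icc 1 n ×ˢ Icc 1 n).image e ⊆ (Icc 1 n ×ˢ Icc 1 n) ×ˢ Icc 1 n := by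
    intro q hq
    rw [Finset.mem_image] at hq
    obtain ⟨p, hp, rfl⟩ := hq
    rw [Finset.mem_product, Finset.mem_Icc, Finset.mem_Icc] at hp
    obtain ⟨⟨h1, h2⟩, h3, h4⟩ := hp
    have hg : 0 < Nat.gcd p.1 p.2 := Nat.gcd_pos_of_pos_left _ h1
    have hgl : Nat.gcd p.1 p.2 ≤ p.1 := Nat.gcd_le_left _ h1
    have hgr : Nat.gcd p.1 p.2 ≤ p.2 := Nat.gcd_le_right _ h3
    rw [Finset.mem_product, Finset.mem_product, Finset.mem_Icc, Finset.mem_Icc, Finset.mem_Icc]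
    exact ⟨⟨⟨hg, hgl.trans h2⟩, Nat.div_pos hgl hg, (Nat.div_le_self _ _).trans h2⟩,
      Nat.div_pos hgr hg, (Nat.div_le_self _ _).trans h4⟩
  have h1 : ∑ p ∈ Icc 1 n ×ˢ Icc 1 n, F (e p) = ∑ q ∈ (Icc 1 n ×ˢ Icc 1 n).image e, F q :=
    (Finset.sum_image hinj).symm
  have h2 : ∑ q ∈ (Icc 1 n ×ˢ Icc 1 n).image e, F q ≤ ∑ q ∈ (Icc 1 n ×ˢ Icc 1 n) ×ˢ Icc 1 n, F q :=
    Finset.sum_le_sum_of_subset_of_nonneg hsub fun q _ _ => by
      rw [hF]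
      positivity
  have h3 : ∑ q ∈ (Icc 1 n ×ˢ Icc 1 n) ×ˢ Icc 1 n, F q = (∑ i ∈ Icc 1 n, (1 / (i : ℝ))) ^ 3 := by
    rw [Finset.sum_product, Finset.sum_product, pow_succ, pow_two, Finset.sum_mul_sum,
      Finset.sum_mul]
    refine Finset.sum_congr rfl fun i _ => ?_
    rw [Finset.sum_mul]
    refine Finset.sum_congr rfl fun j _ => ?_
    rw [Finset.mul_sum]
  exact h1.trans_le (h2.trans_eq h3)

/-- [A6b] `∑_{k ≤ n} τ(k)² ≤ n (1 + log n)³`. Proof. `τ(k)² ≤ ∑_{d e ∣ ..}`: `∑_{k≤n} τ(k)² = ∑_{a,b ≤ n} #{k ≤ n : lcm(a,b) ∣ k} ≤ n ∑_{a,b≤n} 1/lcm(a,b)`, and with `g = gcd`: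
`∑_{a,b} g/(a b) ≤ ∑_g (1/g) (∑_{a' ≤ n} 1/a')² ≤ (1 + log n)³`. (Look first for a bound of the second moment of the divisor function in the pool.) -/
theorem sum_tau_sq (n : ℕ) (hn : 1 ≤ n) :
    ∑ k ∈ Icc 1 n, ((k.divisors.card : ℝ)) ^ 2 ≤ n * (1 + Real.log n) ^ 3 := by
  have h1 : ∀ k ∈ Icc 1 n, ((k.divisors.card : ℝ)) ^ 2 = ∑ p ∈ Icc 1 n ×ˢ Icc 1 n,
      (if p.1 ∣ k then (1 : ℝ) else 0) * (if p.2 ∣ k then (1 : ℝ) else 0) := by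
    intro k hk
    rw [a6b_tau hk, pow_two, Finset.sum_mul_sum, Finset.sum_product]
  rw [Finset.sum_congr rfl h1, Finset.sum_comm]
  have h2 : ∀ p ∈ Icc 1 n ×ˢ Icc 1 n, ∑ k ∈ Icc 1 n,
      (if p.1 ∣ k then (1 : ℝ) else 0) * (if p.2 ∣ k then (1 : ℝ) else 0) ≤
      n * (1 / (Nat.gcd p.1 p.2 : ℝ) * (1 / ((p.1 / Nat.gcd p.1 p.2 : ℕ) : ℝ)) *
        (1 / ((p.2 / Nat.gcd p.1 p.2 : ℕ) : ℝ))) := by
    intro p hp
    rw [Finset.mem_product, Finset.mem_Icc, Finset.mem_Icc] at hp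
    exact a6b_count n p.1 p.2 hp.1.1
  refine (Finset.sum_le_sum h2).trans ?_
  rw [← Finset.mul_sum]
  refine mul_le_mul_of_nonneg_left ((a6b_inj n).trans ?_) (Nat.cast_nonneg n)
  exact pow_le_pow_left₀ (Finset.sum_nonneg fun i _ => by positivity) (a6b_harm n) 3

end GCN
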