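import Pool.Agent.GCN.A3
import Pool.Agent.GCN.A6a
import Pool.Agent.GCN.A6b

/-!
# [GCN-A6] the sum of type II on average over the primes `q ∈ (Q, 2Q]`
-/

set_option autoImplicit false

open Finset

namespace GCN

theorem a6_ca0 (f z U i u : ℕ) (h : 2 ^ (i + 1) ≤ U ∨ z / U ≤ 2 ^ i) (m : ℕ) :
    ca f z U i u m = 0 := by
  unfold ca
  rw [if_neg]
  rintro ⟨h1, h2, h3, h4, _⟩
  rcases h with h | h <;> omega

theorem a6_ca (f z U i u : ℕ) :
    ∑ m ∈ range (2 ^ (i + 1) + 1), ‖ca f z U i u m‖ ^ 2 ≤ 2 ^ i * Real.log z ^ 2 := by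
  have h1 : ∀ m ∈ range (2 ^ (i + 1) + 1), ‖ca f z U i u m‖ ^ 2 ≤
      if 2 ^ i < m then Real.log z ^ 2 else 0 := by
    intro m _
    unfold ca
    by_cases h : 2 ^ i < m ∧ m ≤ 2 ^ (i + 1) ∧ U < m ∧ m ≤ z / U ∧ m % f = u
    · rw [if_pos h, if_pos h.1, Complex.norm_real, Real.norm_eq_abs, sq_abs]
      have h2 : ArithmeticFunction.vonMangoldt m ≤ Real.log m :=
        ArithmeticFunction.vonMangoldt_le_log
      have h3 : 0 ≤ ArithmeticFunction.vonMangoldt m := ArithmeticFunction.vonMangoldt_nonneg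
      have h4 : (m : ℝ) ≤ z := by exact_mod_cast h.2.2.2.1.trans (Nat.div_le_self z U)
      have h5 : (0 : ℝ) < m := by
        have h6 : 0 < m := lt_of_le_of_lt (Nat.zero_le _) h.1
        exact_mod_cast h6
      exact pow_le_pow_left₀ h3 (h2.trans (Real.log_le_log h5 h4)) 2
    · rw [if_neg h, norm_zero]
      have h6 : 0 ≤ Real.log z ^ 2 := sq_nonneg _
      split_ifs
      · simpa using h6
      · simp
  refine (Finset.sum_le_sum h1).trans ?_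
  rw [← Finset.sum_filter, Finset.sum_const, nsmul_eq_mul]
  have h2 : (range (2 ^ (i + 1) + 1)).filter (fun m => 2 ^ i < m) = Ioc (2 ^ i) (2 ^ (i + 1)) := by
    ext m
    rw [Finset.mem_filter, Finset.mem_range, Finset.mem_Ioc]
    omega
  rw [h2, Nat.card_Ioc]
  have h3 : 2 ^ (i + 1) - 2 ^ i = 2 ^ i := by
    rw [pow_succ]
    omega
  rw [h3]
  push_cast
  exact le_rfl

theorem a6_cb (f z U i u : ℕ) (hi : 2 ^ i ≤ z) :
    ∑ k ∈ range (z / 2 ^ i + 1), ‖cb f U u k‖ ^ 2 ≤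
      (z / 2 ^ i : ℝ) * (1 + Real.log z) ^ 3 := by
  obtain ⟨n, hn⟩ : ∃ n, n = z / 2 ^ i := ⟨_, rfl⟩
  rw [← hn]
  have hn1 : 1 ≤ n := by
    rw [hn]
    exact Nat.div_pos hi (by positivity)
  have h0 : ∑ k ∈ range (n + 1), ‖cb f U u k‖ ^ 2 = ∑ k ∈ Icc 1 n, ‖cb f U u k‖ ^ 2 := by
    symm
    refine Finset.sum_subset ?_ ?_
    · intro k hk
      rw [Finset.mem_Icc] at hk
      rw [Finset.mem_range]
      omega
    · intro k hk hk'
      rw [Finset.mem_range] at hk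
      rw [Finset.mem_Icc] at hk'
      have h1 : k = 0 := by omega
      rw [h1]
      unfold cb
      rw [if_neg (fun h => absurd h.1 (Nat.not_lt_zero _)), norm_zero]
      norm_num
  rw [h0]
  have h1 : ∀ k ∈ Icc 1 n, ‖cb f U u k‖ ^ 2 ≤ ((k.divisors.card : ℝ)) ^ 2 := by
    intro k _
    refine pow_le_pow_left₀ (norm_nonneg _) ?_ 2
    unfold cb
    split_ifs
    · rw [Complex.norm_real, Real.norm_eq_abs]
      exact (Pool.Agent.EPK.va_vb U).2.2.1 k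
    · rw [norm_zero]
      positivity
  refine (Finset.sum_le_sum h1).trans ((sum_tau_sq n hn1).trans ?_)
  have hn0 : (0 : ℝ) < n := by exact_mod_cast hn1
  have hnz : (n : ℝ) ≤ (z / 2 ^ i : ℝ) := by
    rw [hn]
    have h2 := Nat.cast_div_le (α := ℝ) (m := z) (n := 2 ^ i)
    push_cast at h2
    exact h2
  have hz1 : (n : ℝ) ≤ z := by
    rw [hn]
    exact_mod_cast Nat.div_le_self z (2 ^ i)
  have hl : Real.log n ≤ Real.log z := Real.log_le_log hn0 hz1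
  have hl0 : 0 ≤ Real.log n := Real.log_nonneg (by exact_mod_cast hn1)
  exact mul_le_mul hnz (pow_le_pow_left₀ (by linarith) (by linarith) 3) (by positivity)
    (by positivity)

/-- the square root of the product -/
theorem a6_sqrt {z Q U m L : ℝ} (hz : 0 < z) (hQ : 0 < Q) (hU : 0 < U) (hm : 1 ≤ m) (hL : 0 ≤ L)
    (hmz : m ≤ z) (h1 : m ≤ z / U) (h2 : z / m ≤ 2 * (z / U)) {M K A B : ℝ} (hM : M = 2 * m + 1)
    (hK0 : 0 ≤ K) (hK : K ≤ z / m + 1) (hA0 : 0 ≤ A) (hA : A ≤ m * L ^ 2) (hB0 : 0 ≤ B)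
    (hB : B ≤ z / m * (1 + L) ^ 3) :
    √((M + (2 * Q) ^ 2) * (K + (2 * Q) ^ 2) * A * B) ≤
      (1 + L) ^ 3 * (3 * z + 6 * Q * (z / √U) + 4 * Q ^ 2 * √z) := by
  have hm0 : 0 < m := by linarith
  have hsU : 0 < √U := Real.sqrt_pos.2 hU
  have hsz : 0 < √z := Real.sqrt_pos.2 hz
  have hsU2 : √U ^ 2 = U := Real.sq_sqrt hU.le
  have hsz2 : √z ^ 2 = z := Real.sq_sqrt hz.le
  rw [Real.sqrt_le_left (by positivity)]
  have hzm : 1 ≤ z / m := by rwa [le_div_iff₀ hm0, one_mul]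
  have e1 : M + (2 * Q) ^ 2 ≤ 3 * m + 4 * Q ^ 2 := by
    rw [hM]
    nlinarith
  have e2 : K + (2 * Q) ^ 2 ≤ 2 * (z / m) + 4 * Q ^ 2 := by nlinarith
  have e3 : (M + (2 * Q) ^ 2) * (K + (2 * Q) ^ 2) ≤ (3 * m + 4 * Q ^ 2) * (2 * (z / m) + 4 * Q ^ 2) :=
    mul_le_mul e1 e2 (by positivity) (by positivity)
  have e4 : (3 * m + 4 * Q ^ 2) * (2 * (z / m) + 4 * Q ^ 2) ≤
      6 * z + 36 * Q ^ 2 * (z / U) + 16 * Q ^ 4 := by
    have h3 : m * (z / m) = z := by field_simp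
    have h4 : (3 * m + 4 * Q ^ 2) * (2 * (z / m) + 4 * Q ^ 2) =
        6 * (m * (z / m)) + 12 * Q ^ 2 * m + 8 * Q ^ 2 * (z / m) + 16 * Q ^ 4 := by ring
    rw [h4, h3]
    have h5 : 12 * Q ^ 2 * m ≤ 12 * Q ^ 2 * (z / U) := mul_le_mul_of_nonneg_left h1 (by positivity)
    have h6 : 8 * Q ^ 2 * (z / m) ≤ 8 * Q ^ 2 * (2 * (z / U)) :=
      mul_le_mul_of_nonneg_left h2 (by positivity)
    have h7 : 0 ≤ Q ^ 2 * (z / U) := by positivity
    nlinarith
  have e5 : A * B ≤ z * (1 + L) ^ 6 := by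
    have h3 : A * B ≤ (m * L ^ 2) * (z / m * (1 + L) ^ 3) := mul_le_mul hA hB hB0 (by positivity)
    have h4 : (m * L ^ 2) * (z / m * (1 + L) ^ 3) = z * (L ^ 2 * (1 + L) ^ 3) := by
      field_simp
    rw [h4] at h3
    refine h3.trans (mul_le_mul_of_nonneg_left ?_ hz.le)
    have h5 : L ^ 2 ≤ (1 + L) ^ 3 := by nlinarith [pow_nonneg hL 3]
    have h6 : (1 + L) ^ 6 = (1 + L) ^ 3 * (1 + L) ^ 3 := by ring
    rw [h6]
    exact mul_le_mul_of_nonneg_right h5 (by positivity)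
  have e6 : (M + (2 * Q) ^ 2) * (K + (2 * Q) ^ 2) * A * B ≤
      (6 * z + 36 * Q ^ 2 * (z / U) + 16 * Q ^ 4) * (z * (1 + L) ^ 6) := by
    rw [mul_assoc]
    exact mul_le_mul (e3.trans e4) e5 (by positivity) (by positivity)
  refine e6.trans ?_
  have e7 : (6 * z + 36 * Q ^ 2 * (z / U) + 16 * Q ^ 4) * z ≤
      (3 * z + 6 * Q * (z / √U) + 4 * Q ^ 2 * √z) ^ 2 := by
    have h3 : (z / √U) ^ 2 = z ^ 2 / U := by rw [div_pow, hsU2]
    have h4 : (3 * z + 6 * Q * (z / √U) + 4 * Q ^ 2 * √z) ^ 2 =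
        9 * z ^ 2 + 36 * Q ^ 2 * (z / √U) ^ 2 + 16 * Q ^ 4 * √z ^ 2 + 36 * z * Q * (z / √U) +
          24 * z * Q ^ 2 * √z + 48 * Q ^ 3 * (z / √U) * √z := by ring
    rw [h4, h3, hsz2]
    have h5 : 36 * Q ^ 2 * (z / U) * z = 36 * Q ^ 2 * (z ^ 2 / U) := by ring
    have h6 : 0 ≤ 36 * z * Q * (z / √U) := by positivity
    have h7 : 0 ≤ 24 * z * Q ^ 2 * √z := by positivity
    have h8 : 0 ≤ 48 * Q ^ 3 * (z / √U) * √z := by positivity
    nlinarith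
  have e8 : ((1 + L) ^ 3 * (3 * z + 6 * Q * (z / √U) + 4 * Q ^ 2 * √z)) ^ 2 =
      (1 + L) ^ 6 * (3 * z + 6 * Q * (z / √U) + 4 * Q ^ 2 * √z) ^ 2 := by ring
  rw [e8]
  have e9 := mul_le_mul_of_nonneg_left e7 (by positivity : (0 : ℝ) ≤ (1 + L) ^ 6)
  linarith

theorem a6_term (f z U Q i u : ℕ) (hU : 1 ≤ U) (hQ : 1 ≤ Q) (hz : 2 ≤ z) (hi : i ≤ Nat.log 2 z) :
    ∑ q ∈ (Nat.primesLE (2 * Q)).filter (fun q => Q < q),
      ‖DI (2 ^ (i + 1) + 1) (z / 2 ^ i + 1) (ca f z U i u) (cb f U u)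
        (fun m => z / 2 / m) (fun m => z / m) q‖ ≤
      576 * (1 + Real.log z) ^ 4 * ((z : ℝ) / Q + (z : ℝ) / √U + Q * √z) := by
  have hz0 : (0 : ℝ) < z := by
    have : 0 < z := by omega
    exact_mod_cast this
  have hQ0 : (0 : ℝ) < Q := by exact_mod_cast hQ
  have hU0 : (0 : ℝ) < U := by exact_mod_cast hU
  have hL : 0 ≤ Real.log z := Real.log_nonneg (by
    have : 1 ≤ z := by omega
    exact_mod_cast this)
  have h1 := bil_sep Q (2 * Q) (2 ^ (i + 1) + 1) (z / 2 ^ i + 1) hQ (by omega)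
    (Nat.le_add_left 1 _)
    (ca f z U i u) (cb f U u) (fun m => z / 2 / m) (fun m => z / m)
  refine h1.trans ?_
  by_cases hact : 2 ^ (i + 1) ≤ U ∨ z / U ≤ 2 ^ i
  · have h2 : ∑ m ∈ range (2 ^ (i + 1) + 1), ‖ca f z U i u m‖ ^ 2 = 0 := by
      refine Finset.sum_eq_zero fun m _ => ?_
      rw [a6_ca0 f z U i u hact m, norm_zero]
      norm_num
    rw [h2, mul_zero, zero_mul, Real.sqrt_zero, mul_zero]
    positivity
  · push Not at hact
    obtain ⟨hact1, hact2⟩ := hact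
    have hi2 : 2 ^ i ≤ z := (Nat.pow_le_pow_right (by norm_num) hi).trans
      (Nat.pow_log_le_self 2 (by omega))
    set m : ℝ := (2 : ℝ) ^ i with hm
    have hm1 : 1 ≤ m := one_le_pow₀ (by norm_num)
    have hm0 : 0 < m := by linarith
    have hmz : m ≤ z := by
      rw [hm]
      exact_mod_cast hi2
    have hmU : m ≤ z / U := by
      rw [le_div_iff₀ hU0]
      have h3 : 2 ^ i * U ≤ z := by
        have h4 : 2 ^ i ≤ z / U := hact2.le
        exact (Nat.mul_le_mul_right U h4).trans (Nat.div_mul_le_self z U)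
      rw [hm]
      exact_mod_cast h3
    have hzm : (z : ℝ) / m ≤ 2 * (z / U) := by
      have h3 : (U : ℝ) ≤ 2 * m := by
        have h4 : U ≤ 2 * 2 ^ i := by
          rw [pow_succ] at hact1
          omega
        rw [hm]
        exact_mod_cast h4
      rw [div_le_iff₀ hm0, mul_comm (2 : ℝ), mul_assoc, div_mul_eq_mul_div, le_div_iff₀ hU0]
      nlinarith
    have hcast : ((2 ^ (i + 1) + 1 : ℕ) : ℝ) = 2 * m + 1 := by
      push_cast
      rw [hm]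
      ring
    have hK : ((z / 2 ^ i + 1 : ℕ) : ℝ) ≤ z / m + 1 := by
      have h2 := Nat.cast_div_le (α := ℝ) (m := z) (n := 2 ^ i)
      push_cast at h2 ⊢
      linarith
    have hsq := a6_sqrt (z := z) (Q := Q) (U := U) (m := m) (L := Real.log z)
      (M := ((2 ^ (i + 1) + 1 : ℕ) : ℝ)) (K := ((z / 2 ^ i + 1 : ℕ) : ℝ)) hz0 hQ0 hU0 hm1 hL hmz
      hmU hzm hcast (Nat.cast_nonneg _) hK
      (A := ∑ m ∈ range (2 ^ (i + 1) + 1), ‖ca f z U i u m‖ ^ 2)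
      (Finset.sum_nonneg fun _ _ => sq_nonneg _) (a6_ca f z U i u)
      (B := ∑ k ∈ range (z / 2 ^ i + 1), ‖cb f U u k‖ ^ 2)
      (Finset.sum_nonneg fun _ _ => sq_nonneg _) (a6_cb f z U i u hi2)
    have hlogK : 2 + Real.log ((z / 2 ^ i + 1 : ℕ) : ℝ) ≤ 3 * (1 + Real.log z) := by
      have h3 : ((z / 2 ^ i + 1 : ℕ) : ℝ) ≤ 2 * z := by
        have h4 : z / 2 ^ i + 1 ≤ 2 * z := by
          have := Nat.div_le_self z (2 ^ i)
          omega
        exact_mod_cast h4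
      have h5 : (0 : ℝ) < ((z / 2 ^ i + 1 : ℕ) : ℝ) := by
        exact_mod_cast Nat.succ_pos _
      have h6 := Real.log_le_log h5 h3
      rw [Real.log_mul (by norm_num) hz0.ne'] at h6
      have h7 : Real.log 2 ≤ 1 := by linarith [Real.log_two_lt_d9]
      linarith
    have hQcast : ((2 * Q : ℕ) : ℝ) = 2 * Q := by push_cast; ring
    rw [hQcast]
    have h32 : (0 : ℝ) ≤ 32 / Q := by positivity
    have hlK0 : 0 ≤ 2 + Real.log ((z / 2 ^ i + 1 : ℕ) : ℝ) := by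
      have h3 : 0 ≤ Real.log ((z / 2 ^ i + 1 : ℕ) : ℝ) := Real.log_nonneg (by
        have h4 : 1 ≤ z / 2 ^ i + 1 := Nat.le_add_left 1 _
        exact_mod_cast h4)
      linarith
    have hfin := mul_le_mul (mul_le_mul_of_nonneg_left hlogK h32) hsq (Real.sqrt_nonneg _)
      (by positivity)
    refine hfin.trans ?_
    have hs1 : 0 < √(z : ℝ) := Real.sqrt_pos.2 hz0
    have hs2 : 0 < √(U : ℝ) := Real.sqrt_pos.2 hU0
    have e1 : 32 / (Q : ℝ) * (3 * (1 + Real.log z)) * ((1 + Real.log z) ^ 3 *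
        (3 * z + 6 * Q * (z / √U) + 4 * Q ^ 2 * √z)) =
        96 * (1 + Real.log z) ^ 4 * (3 * ((z : ℝ) / Q) + 6 * (z / √U) + 4 * (Q * √z)) := by
      field_simp
      ring
    rw [e1]
    have e2 : 3 * ((z : ℝ) / Q) + 6 * (z / √U) + 4 * (Q * √z) ≤
        6 * ((z : ℝ) / Q + (z : ℝ) / √U + Q * √z) := by
      have h3 : 0 ≤ (z : ℝ) / Q := by positivity
      have h4 : 0 ≤ (Q : ℝ) * √z := by positivity
      linarith
    have e3 := mul_le_mul_of_nonneg_left e2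
      (by positivity : (0 : ℝ) ≤ 96 * (1 + Real.log z) ^ 4)
    linarith

/-- [A6c] Proof. `T2_split`, the triangle inequality and `bil_sep` with `Q0 = Q`, `2Q` instead of `Q`. The terms with `2^(i+1) ≤ U` or `z/U ≤ 2^i` vanish (`ca = 0`). `∑ ‖ca‖² ≤ 2^(i+1) (log z)²`,
`∑_k ‖cb‖² ≤ ∑_{k ≤ z/2^i} τ(k)² ≤ (z/2^i) (1 + log z)³` (`EPK.va_vb`, `sum_tau_sq`; if `z/2^i = 0` the sum is empty). With `m = 2^i ∈ (U/2, z/U)`:
`(2m + 1 + 4Q²)(z/m + 1 + 4Q²) · 2m (log z)² · (z/m)(1+log z)³ ≤ 400 (z + Q²(m + z/m) + Q⁴) z (1 + log z)⁵` and `m + z/m ≤ 3z/U`; so each of the `≤ 2 + log z/log 2` indices `i` and the `f` classes gives at most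
`(32/Q)(3 + log z) · 20 (1+log z)^(5/2) (z + Q √3 z/√U + Q² √z)`. The constant `10^6` is generous. -/
theorem T2_avg (f z U Q : ℕ) (hf : 1 ≤ f) (hU : 1 ≤ U) (hUz : U ≤ z) (hQ : 1 ≤ Q) (hz : 2 ≤ z) :
    ∑ q ∈ (Nat.primesLE (2 * Q)).filter (fun q => Q < q), |T2 f z U q| ≤
      10 ^ 6 * f * (1 + Real.log z) ^ 5 *
        ((z : ℝ) / Q + (z : ℝ) / √U + Q * √z) := by
  have hz0 : (0 : ℝ) < z := by
    have : 0 < z := by omega
    exact_mod_cast this
  have hL : 0 ≤ Real.log z := Real.log_nonneg (by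
    have : 1 ≤ z := by omega
    exact_mod_cast this)
  have h1 : ∀ q ∈ (Nat.primesLE (2 * Q)).filter (fun q => Q < q), |T2 f z U q| ≤
      ∑ i ∈ range (Nat.log 2 z + 1), ∑ u ∈ range f,
        ‖DI (2 ^ (i + 1) + 1) (z / 2 ^ i + 1) (ca f z U i u) (cb f U u)
          (fun m => z / 2 / m) (fun m => z / m) q‖ := by
    intro q _
    rw [← Real.norm_eq_abs, ← Complex.norm_real, T2_split f z U q hf hU]
    refine (norm_sum_le _ _).trans (Finset.sum_le_sum fun i _ => norm_sum_le _ _)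
  refine (Finset.sum_le_sum h1).trans ?_
  rw [Finset.sum_comm]
  have h2 : ∀ i ∈ range (Nat.log 2 z + 1),
      ∑ q ∈ (Nat.primesLE (2 * Q)).filter (fun q => Q < q), ∑ u ∈ range f,
        ‖DI (2 ^ (i + 1) + 1) (z / 2 ^ i + 1) (ca f z U i u) (cb f U u)
          (fun m => z / 2 / m) (fun m => z / m) q‖ ≤
      f * (576 * (1 + Real.log z) ^ 4 * ((z : ℝ) / Q + (z : ℝ) / √U + Q * √z)) := by
    intro i hi
    rw [Finset.mem_range] at hi
    rw [Finset.sum_comm]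
    refine (Finset.sum_le_sum fun u _ => a6_term f z U Q i u hU hQ hz (by omega)).trans ?_
    rw [Finset.sum_const, Finset.card_range, nsmul_eq_mul]
  refine (Finset.sum_le_sum h2).trans ?_
  rw [Finset.sum_const, Finset.card_range, nsmul_eq_mul]
  have h3 : ((Nat.log 2 z + 1 : ℕ) : ℝ) ≤ 2 * (1 + Real.log z) := by
    have h4 : 2 ^ Nat.log 2 z ≤ z := Nat.pow_log_le_self 2 (by omega)
    have h5 : (2 : ℝ) ^ Nat.log 2 z ≤ z := by exact_mod_cast h4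
    have h6 := Real.log_le_log (by positivity) h5
    rw [Real.log_pow] at h6
    have h7 := Real.log_two_gt_d9
    have h8 : (0 : ℝ) ≤ (Nat.log 2 z : ℝ) := Nat.cast_nonneg _
    push_cast
    nlinarith
  have h4 : 0 ≤ (f : ℝ) * (576 * (1 + Real.log z) ^ 4 *
      ((z : ℝ) / Q + (z : ℝ) / √U + Q * √z)) := by positivity
  refine (mul_le_mul_of_nonneg_right h3 h4).trans ?_
  have h5 : 0 ≤ (f : ℝ) * (1 + Real.log z) ^ 5 * ((z : ℝ) / Q + (z : ℝ) / √U + Q * √z) := by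
    positivity
  have h6 : 2 * (1 + Real.log z) * ((f : ℝ) * (576 * (1 + Real.log z) ^ 4 *
      ((z : ℝ) / Q + (z : ℝ) / √U + Q * √z))) =
      1152 * ((f : ℝ) * (1 + Real.log z) ^ 5 * ((z : ℝ) / Q + (z : ℝ) / √U + Q * √z)) := by ring
  rw [h6]
  nlinarith

end GCN
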