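import Pool.Agent.GCN.A6

/-!
# [GCN-A7] the theorem of Bombieri and Vinogradov for prime moduli and a fixed class modulo `f`
-/

set_option autoImplicit false

open Finset

open scoped Classical

namespace GCN

theorem a7_lim (f : ℕ) {ε δ : ℝ} (hε : 0 < ε) (hδ : 0 < δ) : ∃ z0 : ℕ, ∀ z : ℕ, z0 ≤ z →
    4 ≤ z ∧ 1 ≤ Real.log z ∧
    18 * (Real.log z ^ 2 * Real.exp (-(1 / 2) * Real.log z)) +
      128000000 * f * (2 * (Real.log z ^ 3)⁻¹ +
        2 * (Real.log z ^ 7 * Real.exp (-(ε / 8) * Real.log z)) +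
        Real.log z ^ 7 * Real.exp (-ε * Real.log z)) ≤ δ := by
  have hexp : ∀ (n : ℕ) (b : ℝ), 0 < b →
      Filter.Tendsto (fun t : ℝ => t ^ n * Real.exp (-b * t)) Filter.atTop (nhds 0) := by
    intro n b hb
    have h := tendsto_rpow_mul_exp_neg_mul_atTop_nhds_zero (n : ℝ) b hb
    simpa only [Real.rpow_natCast] using h
  have hinv : Filter.Tendsto (fun t : ℝ => (t ^ 3)⁻¹) Filter.atTop (nhds 0) :=
    tendsto_inv_atTop_zero.comp (Filter.tendsto_pow_atTop (by norm_num))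
  have h1 : Filter.Tendsto (fun t : ℝ => 18 * (t ^ 2 * Real.exp (-(1 / 2) * t)) +
      128000000 * (f : ℝ) * (2 * (t ^ 3)⁻¹ + 2 * (t ^ 7 * Real.exp (-(ε / 8) * t)) +
        t ^ 7 * Real.exp (-ε * t))) Filter.atTop (nhds (18 * 0 +
        128000000 * (f : ℝ) * (2 * 0 + 2 * 0 + 0))) :=
    ((hexp 2 (1 / 2) (by norm_num)).const_mul 18).add
      ((((hinv.const_mul 2).add ((hexp 7 (ε / 8) (by positivity)).const_mul 2)).add
        (hexp 7 ε hε)).const_mul _)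
  have h0 : (18 * 0 + 128000000 * (f : ℝ) * (2 * 0 + 2 * 0 + 0)) = 0 := by ring
  rw [h0] at h1
  have hlog : Filter.Tendsto (fun z : ℕ => Real.log z) Filter.atTop Filter.atTop :=
    Real.tendsto_log_atTop.comp tendsto_natCast_atTop_atTop
  have h2 := (h1.comp hlog).eventually (ge_mem_nhds hδ)
  have h3 := hlog.eventually (Filter.eventually_ge_atTop (1 : ℝ))
  have h4 : ∀ᶠ z : ℕ in Filter.atTop, 4 ≤ z := Filter.eventually_ge_atTop 4
  obtain ⟨z0, hz0⟩ := Filter.eventually_atTop.1 (h2.and (h3.and h4))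
  exact ⟨z0, fun z hz => ⟨(hz0 z hz).2.2, (hz0 z hz).2.1, (hz0 z hz).1⟩⟩

/-- the sum of type II over the primes in `(L ^ 10, y]` -/
theorem a7_dyadic (f z U y : ℕ) (hf : 1 ≤ f) (hU : 1 ≤ U) (hUz : U ≤ z) (hz : 4 ≤ z) (hyz : y ≤ z)
    (hL : 1 ≤ Real.log z) {B : ℝ} (hB : ∀ l : ℕ, Real.log (z : ℝ) ^ 10 < 2 * 2 ^ l → 2 ^ l ≤ y →
      ((z : ℝ) / ((2 ^ l : ℕ) : ℝ) + (z : ℝ) / √U + ((2 ^ l : ℕ) : ℝ) * √z) ≤ B) (hB0 : 0 ≤ B) :
    ∑ q ∈ (Nat.primesLE y).filter (fun q : ℕ => Real.log (z : ℝ) ^ 10 < (q : ℝ) ∧ ¬ q ∣ f),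
      |T2 f z U q| ≤ 2 * (1 + Real.log z) * (10 ^ 6 * f * (1 + Real.log z) ^ 5 * B) := by
  set S := (Nat.primesLE y).filter (fun q : ℕ => Real.log (z : ℝ) ^ 10 < (q : ℝ) ∧ ¬ q ∣ f) with hS
  set e : ℕ → ℕ := fun q => Nat.log 2 (q - 1) with he
  have hq : ∀ q ∈ S, q.Prime ∧ q ≤ y ∧ Real.log (z : ℝ) ^ 10 < (q : ℝ) ∧ 2 ^ e q < q ∧
      q ≤ 2 * 2 ^ e q := by
    intro q hq
    rw [hS, Finset.mem_filter, Nat.mem_primesLE] at hq
    obtain ⟨⟨h1, h2⟩, h3, h4⟩ := hq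
    have h5 := h2.two_le
    have h6 : 2 ^ e q ≤ q - 1 := Nat.pow_log_le_self 2 (by omega)
    have h7 : q - 1 < 2 ^ (e q + 1) := Nat.lt_pow_succ_log_self (by norm_num) _
    rw [pow_succ] at h7
    exact ⟨h2, h1, h3, by omega, by omega⟩
  have hmaps : ∀ q ∈ S, e q ∈ range (Nat.log 2 z + 1) := by
    intro q hqS
    obtain ⟨h1, h2, h3, h4, h5⟩ := hq q hqS
    rw [Finset.mem_range, Nat.lt_succ_iff]
    exact Nat.log_mono_right (by omega)
  rw [← Finset.sum_fiberwise_of_maps_to hmaps]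
  have hterm : ∀ l ∈ range (Nat.log 2 z + 1), ∑ q ∈ S.filter (fun q => e q = l), |T2 f z U q| ≤
      10 ^ 6 * f * (1 + Real.log z) ^ 5 * B := by
    intro l _
    rcases (S.filter (fun q => e q = l)).eq_empty_or_nonempty with h0 | ⟨q0, hq0⟩
    · rw [h0, Finset.sum_empty]
      positivity
    · rw [Finset.mem_filter] at hq0
      obtain ⟨hq0S, hq0l⟩ := hq0
      obtain ⟨h1, h2, h3, h4, h5⟩ := hq q0 hq0S
      rw [hq0l] at h4 h5
      have h6 : S.filter (fun q => e q = l) ⊆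
          (Nat.primesLE (2 * 2 ^ l)).filter (fun q => 2 ^ l < q) := by
        intro q hq'
        rw [Finset.mem_filter] at hq'
        obtain ⟨g1, g2, g3, g4, g5⟩ := hq q hq'.1
        rw [hq'.2] at g4 g5
        rw [Finset.mem_filter, Nat.mem_primesLE]
        exact ⟨⟨g5, g1⟩, g4⟩
      refine (Finset.sum_le_sum_of_subset_of_nonneg h6 fun _ _ _ => abs_nonneg _).trans ?_
      refine (T2_avg f z U (2 ^ l) hf hU hUz Nat.one_le_two_pow (by omega)).trans ?_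
      refine mul_le_mul_of_nonneg_left (hB l ?_ (by omega)) (by positivity)
      refine h3.trans_le ?_
      exact_mod_cast h5
  refine (Finset.sum_le_sum hterm).trans ?_
  rw [Finset.sum_const, Finset.card_range, nsmul_eq_mul]
  refine mul_le_mul_of_nonneg_right ?_ (by positivity)
  have h4 : 2 ^ Nat.log 2 z ≤ z := Nat.pow_log_le_self 2 (by omega)
  have h5 : (2 : ℝ) ^ Nat.log 2 z ≤ z := by exact_mod_cast h4
  have h6 := Real.log_le_log (by positivity) h5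
  rw [Real.log_pow] at h6
  have h7 := Real.log_two_gt_d9
  have h8 : (0 : ℝ) ≤ (Nat.log 2 z : ℝ) := Nat.cast_nonneg _
  push_cast
  nlinarith

/-- [A7] Proof. `U = ⌊z^(ε/4)⌋` (`U² ≤ z^(ε/2) ≤ z/2`), `L = log z`. `vaughan_q`: `∑_q log q |EL| ≤ ∑_q L · 18 U² L + L ∑_q |T2|`; the first sum is at most `z^(1/2) · 18 z^(ε/2) L²`, which is
`≤ (δ/2) z` for large `z`. The primes `q ∈ (L^10, y]` are covered by the intervals `(Q, 2Q]` with `Q = 2^l`, `L^10/2 < 2^l ≤ y`; by `T2_avg` each contributes at most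
`10^6 f (1+L)^5 (z/Q + z/√U + Q √z) ≤ 10^6 f (1+L)^5 (2 z/L^10 + 2 z^(1-ε/8) + z^(1-ε))`; there are `≤ 2 L + 1` of them (`2^l ≤ z`), another factor `L` from `log q`:
`≤ (δ/2) z` for large `z` (`L^(10-7) → ∞`, powers of `z` beat powers of `L`: `isLittleO_log_rpow_atTop` or `Real.add_pow_le_pow_mul_pow_of_add_eq_one`-free elementary bounds such as
`Real.log_le_rpow_div`). -/
theorem bv (f : ℕ) (hf : 1 ≤ f) (ε δ : ℝ) (hε : 0 < ε) (hε1 : ε ≤ 1 / 10) (hδ : 0 < δ) :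
    ∃ z0 : ℕ, ∀ z : ℕ, z0 ≤ z → ∀ y : ℕ, (y : ℝ) ≤ (z : ℝ) ^ (1 / 2 - ε) →
      ∑ q ∈ (Nat.primesLE y).filter (fun q : ℕ => Real.log (z : ℝ) ^ 10 < (q : ℝ) ∧ ¬ q ∣ f),
        Real.log (q : ℝ) * |EL f z q| ≤ δ * z := by
  obtain ⟨z0, hz0⟩ := a7_lim f hε hδ
  refine ⟨z0, fun z hz y hy => ?_⟩
  obtain ⟨hz4, hL1, hlim⟩ := hz0 z hz
  set L : ℝ := Real.log z with hL
  have hzr : (4 : ℝ) ≤ z := by exact_mod_cast hz4
  have hzp : (0 : ℝ) < z := by linarith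
  have hz1 : (1 : ℝ) ≤ z := by linarith
  have hpow : ∀ a : ℝ, (z : ℝ) ^ a = Real.exp (a * L) := by
    intro a
    rw [Real.rpow_def_of_pos hzp, mul_comm]
  have hL0 : 0 < L := by linarith
  -- the parameter `U`
  set U : ℕ := ⌊(z : ℝ) ^ (ε / 4)⌋₊ with hU
  have hzε : 1 ≤ (z : ℝ) ^ (ε / 4) := Real.one_le_rpow hz1 (by positivity)
  have hU1 : 1 ≤ U := Nat.le_floor (by rw [Nat.cast_one]; exact hzε)
  have hUle : (U : ℝ) ≤ (z : ℝ) ^ (ε / 4) := Nat.floor_le (by positivity)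
  have hUge : (z : ℝ) ^ (ε / 4) ≤ 2 * U := by
    have h1 : (z : ℝ) ^ (ε / 4) < U + 1 := Nat.lt_floor_add_one _
    have h2 : (1 : ℝ) ≤ U := by exact_mod_cast hU1
    linarith
  have hU2 : (U : ℝ) ^ 2 ≤ (z : ℝ) ^ (ε / 2) := by
    have h1 := pow_le_pow_left₀ (Nat.cast_nonneg U) hUle 2
    have h2 : ((z : ℝ) ^ (ε / 4)) ^ 2 = (z : ℝ) ^ (ε / 2) := by
      rw [← Real.rpow_natCast, ← Real.rpow_mul hzp.le]
      congr 1
      push_cast
      ring
    rwa [h2] at h1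
  have hUz2 : 2 * U ^ 2 ≤ z := by
    have h1 : (z : ℝ) ^ (ε / 2) ≤ (z : ℝ) ^ (1 / 2 : ℝ) :=
      Real.rpow_le_rpow_of_exponent_le hz1 (by linarith)
    rw [← Real.sqrt_eq_rpow] at h1
    have h2 : √(z : ℝ) * √(z : ℝ) = z := Real.mul_self_sqrt hzp.le
    have h3 : 2 ≤ √(z : ℝ) := by
      rw [show (2 : ℝ) = √4 by
        rw [show (4 : ℝ) = 2 ^ 2 by norm_num, Real.sqrt_sq (by norm_num)]]
      exact Real.sqrt_le_sqrt hzr
    have h4 : 2 * (U : ℝ) ^ 2 ≤ z := by nlinarith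
    exact_mod_cast h4
  have hUz : U ≤ z := by nlinarith
  have hUz3 : U ^ 2 ≤ z / 2 := by omega
  -- `y`
  have hy1 : (y : ℝ) ≤ z := by
    refine hy.trans ?_
    calc (z : ℝ) ^ (1 / 2 - ε) ≤ (z : ℝ) ^ (1 : ℝ) :=
          Real.rpow_le_rpow_of_exponent_le hz1 (by linarith)
      _ = z := Real.rpow_one _
  have hyz : y ≤ z := by exact_mod_cast hy1
  set S := (Nat.primesLE y).filter (fun q : ℕ => L ^ 10 < (q : ℝ) ∧ ¬ q ∣ f) with hS
  have hq : ∀ q ∈ S, q.Prime ∧ q ≤ y ∧ ¬ q ∣ f := by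
    intro q hq
    rw [hS, Finset.mem_filter, Nat.mem_primesLE] at hq
    exact ⟨hq.1.2, hq.1.1, hq.2.2⟩
  have hcard : (S.card : ℝ) ≤ y := by
    have h1 : S ⊆ Icc 1 y := by
      intro q hqS
      obtain ⟨h1, h2, h3⟩ := hq q hqS
      rw [Finset.mem_Icc]
      exact ⟨h1.one_lt.le, h2⟩
    have h2 := Finset.card_le_card h1
    rw [Nat.card_Icc] at h2
    exact_mod_cast h2
  have hlogq : ∀ q ∈ S, 0 ≤ Real.log (q : ℝ) ∧ Real.log (q : ℝ) ≤ L := by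
    intro q hqS
    obtain ⟨h1, h2, h3⟩ := hq q hqS
    have h4 : (1 : ℝ) ≤ q := by exact_mod_cast h1.one_lt.le
    have h5 : (q : ℝ) ≤ z := by exact_mod_cast h2.trans hyz
    exact ⟨Real.log_nonneg h4, Real.log_le_log (by linarith) h5⟩
  have hstep : ∀ q ∈ S, Real.log (q : ℝ) * |EL f z q| ≤
      L * (18 * (U : ℝ) ^ 2 * L) + L * |T2 f z U q| := by
    intro q hqS
    obtain ⟨h1, h2, h3⟩ := hq q hqS
    have h4 := vaughan_q f z U q hf h1 h3 hU1 hUz3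
    rw [← mul_add]
    exact mul_le_mul (hlogq q hqS).2 h4 (abs_nonneg _) hL0.le
  refine (Finset.sum_le_sum hstep).trans ?_
  rw [Finset.sum_add_distrib, Finset.sum_const, nsmul_eq_mul, ← Finset.mul_sum]
  -- the sum of type I
  have hI : (S.card : ℝ) * (L * (18 * (U : ℝ) ^ 2 * L)) ≤
      z * (18 * (L ^ 2 * Real.exp (-(1 / 2) * L))) := by
    have h1 : (S.card : ℝ) * (U : ℝ) ^ 2 ≤ z * Real.exp (-(1 / 2) * L) := by
      have h2 : (S.card : ℝ) * (U : ℝ) ^ 2 ≤ (z : ℝ) ^ (1 / 2 - ε) * (z : ℝ) ^ (ε / 2) :=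
        mul_le_mul (hcard.trans hy) hU2 (by positivity) (by positivity)
      refine h2.trans ?_
      rw [← Real.rpow_add hzp, ← hpow]
      have h3 : (z : ℝ) * (z : ℝ) ^ (-(1 / 2) : ℝ) = (z : ℝ) ^ (1 / 2 : ℝ) := by
        nth_rewrite 1 [← Real.rpow_one (z : ℝ)]
        rw [← Real.rpow_add hzp]
        norm_num
      rw [h3]
      exact Real.rpow_le_rpow_of_exponent_le hz1 (by linarith)
    have h2 := mul_le_mul_of_nonneg_left h1 (by positivity : (0 : ℝ) ≤ 18 * L ^ 2)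
    calc (S.card : ℝ) * (L * (18 * (U : ℝ) ^ 2 * L)) = 18 * L ^ 2 * ((S.card : ℝ) * (U : ℝ) ^ 2) := by
          ring
      _ ≤ 18 * L ^ 2 * (z * Real.exp (-(1 / 2) * L)) := h2
      _ = z * (18 * (L ^ 2 * Real.exp (-(1 / 2) * L))) := by ring
  -- the sum of type II
  set B : ℝ := z * (2 * (L ^ 10)⁻¹ + 2 * Real.exp (-(ε / 8) * L) + Real.exp (-ε * L)) with hBdef
  have hB0 : 0 ≤ B := by positivity
  have hUs : (z : ℝ) / √U ≤ z * (2 * Real.exp (-(ε / 8) * L)) := by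
    have h1 : (z : ℝ) ^ (ε / 8) / 2 ≤ √U := by
      rw [Real.le_sqrt' (by positivity)]
      have h2 : ((z : ℝ) ^ (ε / 8)) ^ 2 = (z : ℝ) ^ (ε / 4) := by
        rw [← Real.rpow_natCast, ← Real.rpow_mul hzp.le]
        congr 1
        push_cast
        ring
      rw [div_pow, h2]
      have h3 : 0 ≤ (z : ℝ) ^ (ε / 4) := by positivity
      linarith
    have h2 : (z : ℝ) / √U ≤ z / ((z : ℝ) ^ (ε / 8) / 2) :=
      div_le_div_of_nonneg_left hzp.le (by positivity) h1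
    refine h2.trans (le_of_eq ?_)
    rw [← hpow, Real.rpow_neg hzp.le]
    field_simp
  have hII := a7_dyadic f z U y hf hU1 hUz hz4 hyz hL1 (B := B) (by
    intro l h1 h2
    rw [← hL] at h1
    have h3 : (z : ℝ) / ((2 ^ l : ℕ) : ℝ) ≤ z * (2 * (L ^ 10)⁻¹) := by
      push_cast
      rw [div_eq_mul_inv]
      refine mul_le_mul_of_nonneg_left ?_ hzp.le
      rw [← div_eq_mul_inv, inv_le_comm₀ (by positivity) (by positivity), inv_div]
      linarith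
    have h4 : ((2 ^ l : ℕ) : ℝ) * √z ≤ z * Real.exp (-ε * L) := by
      have h5 : ((2 ^ l : ℕ) : ℝ) ≤ (z : ℝ) ^ (1 / 2 - ε) := by
        refine le_trans ?_ hy
        exact_mod_cast h2
      have h6 : ((2 ^ l : ℕ) : ℝ) * √z ≤ (z : ℝ) ^ (1 / 2 - ε) * √z :=
        mul_le_mul_of_nonneg_right h5 (Real.sqrt_nonneg _)
      refine h6.trans (le_of_eq ?_)
      rw [Real.sqrt_eq_rpow, ← Real.rpow_add hzp, ← hpow]
      nth_rewrite 2 [← Real.rpow_one (z : ℝ)]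
      rw [← Real.rpow_add hzp]
      congr 1
      ring
    rw [hBdef]
    linarith) hB0
  have hII2 : L * ∑ q ∈ S, |T2 f z U q| ≤
      z * (128000000 * f * (2 * (L ^ 3)⁻¹ + 2 * (L ^ 7 * Real.exp (-(ε / 8) * L)) +
        L ^ 7 * Real.exp (-ε * L))) := by
    have h1 := mul_le_mul_of_nonneg_left hII hL0.le
    refine h1.trans ?_
    have h2 : (1 + L) ^ 6 ≤ (2 * L) ^ 6 := pow_le_pow_left₀ (by positivity) (by linarith) 6
    have h3 : L * (2 * (1 + L) * (10 ^ 6 * f * (1 + L) ^ 5 * B)) =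
        2 * 10 ^ 6 * f * L * B * (1 + L) ^ 6 := by ring
    rw [h3]
    have h4 := mul_le_mul_of_nonneg_left h2 (by positivity : (0 : ℝ) ≤ 2 * 10 ^ 6 * f * L * B)
    refine h4.trans (le_of_eq ?_)
    rw [hBdef]
    field_simp
    ring
  have hfin : (S.card : ℝ) * (L * (18 * (U : ℝ) ^ 2 * L)) + L * ∑ q ∈ S, |T2 f z U q| ≤
      z * δ := by
    refine (add_le_add hI hII2).trans ?_
    rw [← mul_add]
    exact mul_le_mul_of_nonneg_left hlim hzp.le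
  linarith

end GCN
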