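import Pool.Agent.GCN.Defs
import Pool.Agent.EPK.M1b

/-!
# [GCN-A8c] a sum over primes
-/

set_option autoImplicit false

open Finset

namespace GCN

/-- [A8c] Proof. `mertens_one` (EPK/M1a): `∑_{u < q ≤ v} log q / q ≤ log(v/u) + 5`; divide by `log u` (every `log q ≥ log u`) and use `1/(q-1) ≤ 2/q`. -/
theorem sum_inv (u v : ℕ) (hu : 2 ≤ u) (huv : u ≤ v) :
    ∑ q ∈ (Ioc u v).filter Nat.Prime, 1 / ((q : ℝ) - 1) ≤
      2 * (Real.log ((v : ℝ) / u) + 5) / Real.log u := by
  have hu' : (2 : ℝ) ≤ u := by exact_mod_cast hu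
  have hu0 : (0 : ℝ) < u := by linarith
  have hv0 : (0 : ℝ) < v := lt_of_lt_of_le hu0 (by exact_mod_cast huv)
  have hlu : 0 < Real.log u := Real.log_pos (by linarith)
  have hm := Pool.Agent.EPK.mertens_one u v (by omega) huv
  have hm' := (abs_le.1 hm).2
  have h1 : ∀ q ∈ (Ioc u v).filter Nat.Prime,
      1 / ((q : ℝ) - 1) ≤ 2 / Real.log u * (Real.log q / q) := by
    intro q hq
    obtain ⟨hq1, hqp⟩ := Finset.mem_filter.1 hq
    obtain ⟨huq, _⟩ := Finset.mem_Ioc.1 hq1
    have hq2 : (2 : ℝ) ≤ q := by exact_mod_cast hqp.two_le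
    have huq' : (u : ℝ) ≤ q := by exact_mod_cast huq.le
    have hlq : Real.log u ≤ Real.log q := Real.log_le_log hu0 huq'
    have h2 : 1 / ((q : ℝ) - 1) ≤ 2 / q := by
      rw [div_le_div_iff₀ (by linarith) (by linarith)]
      linarith
    have h3 : (2 : ℝ) / q ≤ 2 / Real.log u * (Real.log q / q) := by
      have h4 : 2 / Real.log u * (Real.log q / q) = 2 / q * (Real.log q / Real.log u) := by
        field_simp
      rw [h4]
      have h5 : 1 ≤ Real.log q / Real.log u := by
        rw [le_div_iff₀ hlu]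
        linarith
      have h6 : (0 : ℝ) ≤ 2 / q := by positivity
      calc (2 : ℝ) / q = 2 / q * 1 := (mul_one _).symm
        _ ≤ _ := mul_le_mul_of_nonneg_left h5 h6
    exact h2.trans h3
  refine (Finset.sum_le_sum h1).trans ?_
  rw [← Finset.mul_sum, Real.log_div hv0.ne' hu0.ne']
  have h7 : 2 * (Real.log v - Real.log u + 5) / Real.log u =
      2 / Real.log u * (Real.log v - Real.log u + 5) := by ring
  rw [h7]
  refine mul_le_mul_of_nonneg_left ?_ (by positivity)
  linarith

end GCN
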