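import Pool.Agent.GCN.A8a
import Pool.Agent.GCN.A8c

/-!
# [GCN-A8] primes `a` such that `a - 1` has a prime factor in a short interval
-/

set_option autoImplicit false

open Finset

namespace GCN

/-- sizes for [A8d] -/
theorem a8_sizes (f : ℕ) (η ε : ℝ) (hf : 1 ≤ f) (hη : 0 < η) (hη1 : η ≤ 1 / 8) (hε : 0 < ε)
    (hε1 : ε ≤ 1 / 10) (z : ℕ) (h1 : 6 / (η + ε) ≤ Real.log z) (h2 : 40 ≤ Real.log z)
    (h3 : 8 * Real.log f + 8 ≤ Real.log z) :
    f ≤ ⌊(z : ℝ) ^ (1 / 2 - ε)⌋₊ ∧ 2 ≤ ⌊(z : ℝ) ^ (1 / 2 - ε)⌋₊ ∧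
    ⌊(z : ℝ) ^ (1 / 2 - ε)⌋₊ ≤ ⌊(z : ℝ) ^ (1 / 2 + η)⌋₊ ∧
    (∀ q : ℕ, q ≤ ⌊(z : ℝ) ^ (1 / 2 + η)⌋₊ → (f * q) ^ 4 ≤ z ^ 3) ∧
    2 * (Real.log ((⌊(z : ℝ) ^ (1 / 2 + η)⌋₊ : ℝ) / ⌊(z : ℝ) ^ (1 / 2 - ε)⌋₊) + 5) /
      Real.log ⌊(z : ℝ) ^ (1 / 2 - ε)⌋₊ ≤ 11 * (η + ε) := by
  have hz0 : z ≠ 0 := by
    rintro rfl
    rw [Nat.cast_zero, Real.log_zero] at h2
    linarith
  have hz1 : 1 ≤ z := Nat.one_le_iff_ne_zero.2 hz0
  have hZ : (0 : ℝ) < z := by exact_mod_cast hz1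
  set L := Real.log z with hL
  have hexp : ∀ s : ℝ, (z : ℝ) ^ s = Real.exp (s * L) := by
    intro s
    rw [Real.rpow_def_of_pos hZ, mul_comm]
  have hfR : (1 : ℝ) ≤ f := by exact_mod_cast hf
  have hlf : 0 ≤ Real.log f := Real.log_nonneg hfR
  have hfexp : (f : ℝ) = Real.exp (Real.log f) := (Real.exp_log (by linarith)).symm
  have hse : 0 < η + ε := by linarith
  have h1' : 6 ≤ (η + ε) * L := by
    rw [div_le_iff₀ hse] at h1
    linarith
  have hu1 : 2 * L / 5 ≤ (1 / 2 - ε) * L := by nlinarith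
  have haf : (f : ℝ) ≤ (z : ℝ) ^ (1 / 2 - ε) := by
    rw [hexp, hfexp]
    exact Real.exp_le_exp.2 (by linarith)
  have ha2 : (2 : ℝ) ≤ (z : ℝ) ^ (1 / 2 - ε) := by
    rw [hexp]
    have h4 := Real.add_one_le_exp ((1 / 2 - ε) * L)
    linarith
  have hab : (z : ℝ) ^ (1 / 2 - ε) ≤ (z : ℝ) ^ (1 / 2 + η) := by
    rw [hexp, hexp]
    exact Real.exp_le_exp.2 (by nlinarith)
  have hapos : (0 : ℝ) < (z : ℝ) ^ (1 / 2 - ε) := Real.rpow_pos_of_pos hZ _
  have hbpos : (0 : ℝ) < (z : ℝ) ^ (1 / 2 + η) := Real.rpow_pos_of_pos hZ _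
  set u := ⌊(z : ℝ) ^ (1 / 2 - ε)⌋₊ with hu
  set v := ⌊(z : ℝ) ^ (1 / 2 + η)⌋₊ with hv
  have hu2 : 2 ≤ u := Nat.le_floor (by exact_mod_cast ha2)
  have hvb : (v : ℝ) ≤ (z : ℝ) ^ (1 / 2 + η) := Nat.floor_le hbpos.le
  have huv : u ≤ v := Nat.floor_mono hab
  have hua : (z : ℝ) ^ (1 / 2 - ε) < u + 1 := Nat.lt_floor_add_one _
  have hua2 : (z : ℝ) ^ (1 / 2 - ε) / 2 ≤ u := by linarith
  refine ⟨Nat.le_floor haf, hu2, huv, ?_, ?_⟩
  · intro q hq
    have hqR : (q : ℝ) ≤ Real.exp (5 / 8 * L) := by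
      have h4 : (q : ℝ) ≤ v := by exact_mod_cast hq
      refine h4.trans (hvb.trans ?_)
      rw [hexp]
      exact Real.exp_le_exp.2 (by nlinarith)
    have h5 : ((f : ℝ) * q) ^ 4 ≤ (z : ℝ) ^ 3 := by
      have h6 : (f : ℝ) * q ≤ Real.exp (3 / 4 * L) := by
        calc (f : ℝ) * q ≤ Real.exp (L / 8) * Real.exp (5 / 8 * L) := by
              refine mul_le_mul ?_ hqR (Nat.cast_nonneg _) (Real.exp_pos _).le
              rw [hfexp]
              exact Real.exp_le_exp.2 (by linarith)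
          _ = Real.exp (3 / 4 * L) := by
              rw [← Real.exp_add]
              congr 1
              ring
      have h7 : (z : ℝ) ^ 3 = Real.exp (3 / 4 * L) ^ 4 := by
        have h8 : (z : ℝ) = Real.exp L := (Real.exp_log hZ).symm
        rw [← Real.exp_nat_mul, h8, ← Real.exp_nat_mul]
        congr 1
        push_cast
        ring
      rw [h7]
      exact pow_le_pow_left₀ (by positivity) h6 4
    exact_mod_cast h5
  · have hu0 : (0 : ℝ) < u := by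
      have : (2 : ℝ) ≤ u := by exact_mod_cast hu2
      linarith
    have hlog2 : Real.log 2 ≤ 0.7 := by
      have := Real.log_two_lt_d9
      linarith
    have hlu : 3 / 8 * L ≤ Real.log u := by
      have h4 : Real.log ((z : ℝ) ^ (1 / 2 - ε) / 2) ≤ Real.log u :=
        Real.log_le_log (by positivity) hua2
      rw [Real.log_div hapos.ne' (by norm_num), hexp, Real.log_exp] at h4
      linarith
    have hlv : Real.log ((v : ℝ) / u) ≤ (η + ε) * L + 1 := by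
      have hv0 : (0 : ℝ) < v := by
        have : (u : ℝ) ≤ v := by exact_mod_cast huv
        linarith
      have h4 : Real.log v ≤ (1 / 2 + η) * L := by
        have h5 := Real.log_le_log hv0 hvb
        rwa [hexp, Real.log_exp] at h5
      have h5 : (1 / 2 - ε) * L - 0.7 ≤ Real.log u := by
        have h6 : Real.log ((z : ℝ) ^ (1 / 2 - ε) / 2) ≤ Real.log u :=
          Real.log_le_log (by positivity) hua2
        rw [Real.log_div hapos.ne' (by norm_num), hexp, Real.log_exp] at h6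
        linarith
      rw [Real.log_div hv0.ne' hu0.ne']
      nlinarith
    have hL0 : 0 < L := by linarith
    have hlu0 : 0 < Real.log u := by nlinarith
    rw [div_le_iff₀ hlu0]
    calc 2 * (Real.log ((v : ℝ) / u) + 5) ≤ 2 * ((η + ε) * L + 1 + 5) := by linarith
      _ ≤ 4 * ((η + ε) * L) := by linarith
      _ ≤ 11 * (η + ε) * (3 / 8 * L) := by
          have : 0 ≤ (η + ε) * L := by positivity
          linarith
      _ ≤ 11 * (η + ε) * Real.log u := by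
          exact mul_le_mul_of_nonneg_left hlu (by positivity)

/-- [A8d] Proof. Let `y = ⌊z^(1/2-ε)⌋₊`, `v = ⌊z^(1/2+η)⌋₊`. Sum `bt_Pm` over the primes `q ∈ (y, v]`, `q ∤ f` (`y ≥ f` for large `z`; `(f q)^4 ≤ z^3` as `q ≤ z^(5/8)`): the number is at most
`C z/(φ(f) log z) ∑ 1/(q-1)`, and by `sum_inv` `∑ ≤ 2 ((η+ε) log z + 6)/((1/2-ε) log z - 1) ≤ 8 (η+ε)` for large `z`. -/
theorem p_zero : ∃ C : ℝ, 1 ≤ C ∧ ∀ (f : ℕ) (η ε : ℝ), 1 ≤ f → 0 < η → η ≤ 1 / 8 → 0 < ε → ε ≤ 1 / 10 →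
    ∃ z0 : ℕ, ∀ z : ℕ, z0 ≤ z → ∀ F : Finset ℕ, F ⊆ Pm f (z / 2) z →
      (∀ a ∈ F, ∃ q : ℕ, q.Prime ∧ q ∣ a - 1 ∧ (z : ℝ) ^ (1 / 2 - ε) < q ∧ (q : ℝ) ≤ (z : ℝ) ^ (1 / 2 + η)) →
      (F.card : ℝ) ≤ C * (η + ε) * z / (Nat.totient f * Real.log z) := by
  classical
  obtain ⟨C, hC, x0, hbt⟩ := bt_Pm
  refine ⟨11 * C, by linarith, fun f η ε hf hη hη1 hε hε1 => ?_⟩
  have hev : ∀ᶠ z : ℕ in Filter.atTop,
      max (6 / (η + ε)) (max 40 (8 * Real.log f + 8)) ≤ Real.log z :=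
    (Real.tendsto_log_atTop.comp tendsto_natCast_atTop_atTop).eventually_ge_atTop _
  obtain ⟨z1, hz1⟩ := Filter.eventually_atTop.1 hev
  refine ⟨max x0 z1, fun z hz F hF hq => ?_⟩
  have hL := hz1 z (le_trans (le_max_right _ _) hz)
  have hx0 : x0 ≤ z := le_trans (le_max_left _ _) hz
  obtain ⟨hL1, hL2⟩ := max_le_iff.1 hL
  obtain ⟨hL2, hL3⟩ := max_le_iff.1 hL2
  obtain ⟨s1, s2, s3, s4, s5⟩ := a8_sizes f η ε hf hη hη1 hε hε1 z hL1 hL2 hL3
  set u := ⌊(z : ℝ) ^ (1 / 2 - ε)⌋₊ with hu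
  set v := ⌊(z : ℝ) ^ (1 / 2 + η)⌋₊ with hv
  have hsub : F ⊆ ((Ioc u v).filter Nat.Prime).biUnion
      fun q => (Pm f (z / 2) z).filter fun p => q ∣ p - 1 := by
    intro a ha
    obtain ⟨q, hqp, hqa, hq1, hq2⟩ := hq a ha
    rw [Finset.mem_biUnion]
    refine ⟨q, ?_, Finset.mem_filter.2 ⟨hF ha, hqa⟩⟩
    rw [Finset.mem_filter, Finset.mem_Ioc]
    refine ⟨⟨?_, Nat.le_floor hq2⟩, hqp⟩
    exact (Nat.floor_lt (by positivity)).2 hq1
  have hφ : (0 : ℝ) < Nat.totient f := by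
    exact_mod_cast Nat.totient_pos.2 (by omega)
  have hL0 : 0 < Real.log z := by linarith
  have h1 : (F.card : ℝ) ≤ ∑ q ∈ (Ioc u v).filter Nat.Prime,
      C * z / (Nat.totient f * Real.log z) * (1 / ((q : ℝ) - 1)) := by
    calc (F.card : ℝ) ≤ ((((Ioc u v).filter Nat.Prime).biUnion
          fun q => (Pm f (z / 2) z).filter fun p => q ∣ p - 1).card : ℝ) := by
          exact_mod_cast Finset.card_le_card hsub
      _ ≤ ((∑ q ∈ (Ioc u v).filter Nat.Prime,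
            ((Pm f (z / 2) z).filter fun p => q ∣ p - 1).card : ℕ) : ℝ) := by
          exact_mod_cast Finset.card_biUnion_le
      _ = ∑ q ∈ (Ioc u v).filter Nat.Prime,
            (((Pm f (z / 2) z).filter fun p => q ∣ p - 1).card : ℝ) := by
          push_cast
          rfl
      _ ≤ _ := by
          refine Finset.sum_le_sum fun q hq => ?_
          rw [Finset.mem_filter, Finset.mem_Ioc] at hq
          obtain ⟨⟨hq1, hq2⟩, hqp⟩ := hq
          have hcop : Nat.Coprime q f := by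
            rw [hqp.coprime_iff_not_dvd]
            intro hd
            have := Nat.le_of_dvd (by omega) hd
            omega
          have h2 := hbt z f q hx0 hf hqp.one_lt.le hcop (s4 q hq2)
          refine h2.trans (le_of_eq ?_)
          rw [Nat.totient_prime hqp, Nat.cast_sub hqp.one_lt.le, Nat.cast_one]
          have hq3 : (0 : ℝ) < (q : ℝ) - 1 := by
            have : (1 : ℝ) < q := by exact_mod_cast hqp.one_lt
            linarith
          field_simp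
  rw [← Finset.mul_sum] at h1
  have h2 := sum_inv u v s2 s3
  have h3 : 0 ≤ C * z / (Nat.totient f * Real.log z) := by positivity
  calc (F.card : ℝ) ≤ C * z / (Nat.totient f * Real.log z) *
        ∑ q ∈ (Ioc u v).filter Nat.Prime, 1 / ((q : ℝ) - 1) := h1
    _ ≤ C * z / (Nat.totient f * Real.log z) * (11 * (η + ε)) :=
        mul_le_mul_of_nonneg_left (h2.trans s5) h3
    _ = _ := by
        field_simp

end GCN
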