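import Pool.Agent.GCN.Defs
import Pool.Agent.IDE.SV2

/-!
# [GCN-A8a] Brun-Titchmarsh
-/

set_option autoImplicit false

open Finset

namespace GCN

/-- [A8a] **Brun-Titchmarsh**. Proof. `Pool.Agent.IDE.brun_titchmarsh` with `s = q`, `y = x/2`, `Λ = x - x/2` (real division; all the primes counted are in `[x/2, x]`). If `gcd(b, q) > 1` a prime `p ≡ b` would
divide `q ≤ x^(3/4) < x/2 < p`: none. `2 q ≤ Λ` and `log(Λ/q) ≥ log(x^(1/4)/2) ≥ (log x)/8` for `x ≥ x0`; `C' = 16 C`. -/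
theorem bt : ∃ C : ℝ, 1 ≤ C ∧ ∃ x0 : ℕ, ∀ x q b : ℕ, x0 ≤ x → 1 ≤ q → q ^ 4 ≤ x ^ 3 →
    (((Ioc (x / 2) x).filter (fun p => p.Prime ∧ p ≡ b [MOD q])).card : ℝ) ≤
      C * x / (Nat.totient q * Real.log x) := by
  obtain ⟨C, hC, h⟩ := Pool.Agent.IDE.brun_titchmarsh
  refine ⟨4 * C + 1, by linarith, 256, ?_⟩
  intro x q b hx hq hqx
  have hx1 : (256 : ℝ) ≤ x := by exact_mod_cast hx
  have hx0 : (0 : ℝ) < x := by linarith
  have hq0 : (0 : ℝ) < q := by exact_mod_cast hq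
  have hlog : 0 < Real.log x := Real.log_pos (by linarith)
  have htot : (0 : ℝ) < Nat.totient q := by exact_mod_cast Nat.totient_pos.2 hq
  have hq4 : 4 * q ≤ x := by
    by_contra hcon
    push Not at hcon
    have h1 : x ^ 4 < (4 * q) ^ 4 := Nat.pow_lt_pow_left hcon (by norm_num)
    have h2 : (4 * q) ^ 4 = 256 * q ^ 4 := by ring
    have h3 : x ^ 4 = x * x ^ 3 := by ring
    have h4 : 256 * q ^ 4 ≤ 256 * x ^ 3 := Nat.mul_le_mul_left _ hqx
    have h5 : 256 * x ^ 3 ≤ x * x ^ 3 := Nat.mul_le_mul_right _ hx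
    omega
  have hq4' : 4 * (q : ℝ) ≤ x := by exact_mod_cast hq4
  have hxq : (q : ℝ) ^ 4 ≤ (x : ℝ) ^ 3 := by exact_mod_cast hqx
  by_cases hcop : Nat.Coprime b q
  · have h1 := h q b ((x : ℝ) / 2) ((x : ℝ) / 2)
      ((Ioc (x / 2) x).filter (fun p => p.Prime ∧ p ≡ b [MOD q])) hq hcop (by linarith) (by
        intro p hp
        rw [Finset.mem_filter, Finset.mem_Ioc] at hp
        obtain ⟨⟨h2, h3⟩, h4, h5⟩ := hp
        refine ⟨h4, ?_, ?_, h5⟩
        · have h6 : x < 2 * p := by omega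
          have h7 : (x : ℝ) < 2 * p := by exact_mod_cast h6
          linarith
        · have h7 : (p : ℝ) ≤ x := by exact_mod_cast h3
          linarith)
    have h2 : Real.log x / 8 ≤ Real.log ((x : ℝ) / 2 / q) := by
      have h3 : (x : ℝ) ≤ ((x : ℝ) / 2 / q) ^ 8 := by
        rw [div_div, div_pow, le_div_iff₀ (by positivity)]
        have h4 : (q : ℝ) ^ 8 ≤ (x : ℝ) ^ 6 := by
          have h5 := pow_le_pow_left₀ (by positivity) hxq 2
          have h6 : ((q : ℝ) ^ 4) ^ 2 = (q : ℝ) ^ 8 := by ring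
          have h7 : ((x : ℝ) ^ 3) ^ 2 = (x : ℝ) ^ 6 := by ring
          rwa [h6, h7] at h5
        have h5 : (x : ℝ) * (2 * q) ^ 8 = 256 * x * (q : ℝ) ^ 8 := by ring
        have h6 : (x : ℝ) ^ 8 = x * x * (x : ℝ) ^ 6 := by ring
        rw [h5, h6]
        exact mul_le_mul (mul_le_mul_of_nonneg_right hx1 hx0.le) h4 (by positivity) (by positivity)
      have h4 := Real.log_le_log hx0 h3
      rw [Real.log_pow] at h4
      push_cast at h4
      linarith
    refine h1.trans ?_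
    have h3 : C * ((x : ℝ) / 2) / (Nat.totient q * Real.log ((x : ℝ) / 2 / q)) ≤
        C * ((x : ℝ) / 2) / (Nat.totient q * (Real.log x / 8)) :=
      div_le_div_of_nonneg_left (by positivity) (by positivity)
        (mul_le_mul_of_nonneg_left h2 htot.le)
    refine h3.trans ?_
    have h4 : C * ((x : ℝ) / 2) / (Nat.totient q * (Real.log x / 8)) =
        4 * C * x / (Nat.totient q * Real.log x) := by
      field_simp
      ring
    rw [h4]
    refine div_le_div_of_nonneg_right ?_ (by positivity)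
    nlinarith
  · have h1 : (Ioc (x / 2) x).filter (fun p => p.Prime ∧ p ≡ b [MOD q]) = ∅ := by
      rw [Finset.eq_empty_iff_forall_notMem]
      intro p hp
      rw [Finset.mem_filter, Finset.mem_Ioc] at hp
      obtain ⟨⟨h2, h3⟩, h4, h5⟩ := hp
      have h6 : Nat.gcd p q = Nat.gcd b q := h5.gcd_eq
      rcases (Nat.dvd_prime h4).1 (Nat.gcd_dvd_left p q) with h7 | h7
      · exact hcop (h6.symm.trans h7)
      · have h8 : p ∣ q := by
          rw [← h7]
          exact Nat.gcd_dvd_right p q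
        have h9 := Nat.le_of_dvd hq h8
        omega
    rw [h1, Finset.card_empty, Nat.cast_zero]
    positivity

/-- [A8b] Proof. The primes `p ≡ -1 mod f` with `d ∣ p - 1`, `gcd(d, f) = 1`, are in one class modulo `f d` (Chinese remainder theorem, `Nat.chineseRemainder`); `φ(f d) = φ(f) φ(d)`. -/
theorem bt_Pm : ∃ C : ℝ, 1 ≤ C ∧ ∃ x0 : ℕ, ∀ x f d : ℕ, x0 ≤ x → 1 ≤ f → 1 ≤ d → Nat.Coprime d f →
    (f * d) ^ 4 ≤ x ^ 3 → (((Pm f (x / 2) x).filter (fun p => d ∣ p - 1)).card : ℝ) ≤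
      C * x / (Nat.totient f * Nat.totient d * Real.log x) := by
  obtain ⟨C, hC, x0, h⟩ := bt
  refine ⟨C, hC, x0, ?_⟩
  intro x f d hx hf hd hcop hfd
  have hcop' : Nat.Coprime f d := hcop.symm
  obtain ⟨b, hb1, hb2⟩ := Nat.chineseRemainder hcop' (f - 1) 1
  have h1 := h x (f * d) b hx (Nat.mul_pos hf hd) hfd
  rw [Nat.totient_mul hcop'] at h1
  push_cast at h1
  refine le_trans ?_ h1
  have h2 : ((Pm f (x / 2) x).filter (fun p => d ∣ p - 1)) ⊆
      (Ioc (x / 2) x).filter (fun p => p.Prime ∧ p ≡ b [MOD f * d]) := by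
    intro p hp
    unfold Pm at hp
    rw [Finset.mem_filter, Finset.mem_filter] at hp
    obtain ⟨⟨h3, h4, h5⟩, h6⟩ := hp
    rw [Finset.mem_filter]
    refine ⟨h3, h4, ?_⟩
    rw [← Nat.modEq_and_modEq_iff_modEq_mul hcop']
    constructor
    · refine Nat.ModEq.trans ?_ hb1.symm
      refine Nat.ModEq.add_right_cancel' 1 ?_
      rw [Nat.sub_add_cancel hf]
      exact ((Nat.modEq_zero_iff_dvd).2 h5).trans ((Nat.modEq_zero_iff_dvd).2 dvd_rfl).symm
    · exact ((Nat.modEq_iff_dvd' h4.one_lt.le).2 h6).symm.trans hb2.symm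
  exact_mod_cast Finset.card_le_card h2

end GCN
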