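import Pool.Agent.GCN.A9a

/-!
# [GCN-A9] many primes `a` such that all prime factors of `a - 1` are small
-/

set_option autoImplicit false

open Finset

open scoped Classical

namespace GCN

/-- the primes counted in `wt` -/
theorem a9_prod (a z : ℕ) (ha : 2 ≤ a) (haz : a ≤ z) (T : Finset ℕ)
    (hT : ∀ q ∈ T, q.Prime ∧ q ∣ a - 1) : ∑ q ∈ T, Real.log (q : ℝ) ≤ Real.log z := by
  have h1 : ∏ q ∈ T, q ∣ a - 1 :=
    Finset.prod_primes_dvd _ (fun q hq => (hT q hq).1.prime) fun q hq => (hT q hq).2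
  have h2 : ∏ q ∈ T, q ≤ z := (Nat.le_of_dvd (by omega) h1).trans (by omega)
  have h3 : (0 : ℝ) < ∏ q ∈ T, (q : ℝ) :=
    Finset.prod_pos fun q hq => by exact_mod_cast (hT q hq).1.pos
  rw [← Real.log_prod fun q hq => by exact_mod_cast (hT q hq).1.pos.ne']
  refine Real.log_le_log h3 ?_
  rw [← Nat.cast_prod]
  exact_mod_cast h2

/-- [A9b] Proof. The primes `q ≤ y` counted in `wt` and `q₁ > y` are different prime factors of `a - 1`, so `q₁ ∏ q ≤ a - 1 ≤ z`. -/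
theorem wt_le (Q : ℝ) (y a z : ℕ) (ha : 2 ≤ a) (haz : a ≤ z) :
    wt Q y a ≤ Real.log z ∧ ∀ q₁ : ℕ, q₁.Prime → y < q₁ → q₁ ∣ a - 1 →
      wt Q y a ≤ Real.log z - Real.log q₁ := by
  have hT : ∀ q ∈ (Nat.primesLE y).filter (fun q : ℕ => Q < (q : ℝ) ∧ q ∣ a - 1),
      q.Prime ∧ q ∣ a - 1 := by
    intro q hq
    rw [Finset.mem_filter, Nat.mem_primesLE] at hq
    exact ⟨hq.1.2, hq.2.2⟩
  refine ⟨a9_prod a z ha haz _ hT, fun q₁ hq₁ hy hd => ?_⟩
  have hn : q₁ ∉ (Nat.primesLE y).filter (fun q : ℕ => Q < (q : ℝ) ∧ q ∣ a - 1) := by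
    intro hq
    rw [Finset.mem_filter, Nat.mem_primesLE] at hq
    omega
  have h1 := a9_prod a z ha haz
    (insert q₁ ((Nat.primesLE y).filter (fun q : ℕ => Q < (q : ℝ) ∧ q ∣ a - 1))) (by
      intro q hq
      rcases Finset.mem_insert.1 hq with rfl | hq
      · exact ⟨hq₁, hd⟩
      · exact hT q hq)
  rw [Finset.sum_insert hn] at h1
  unfold wt
  linarith

/-- [A9c] **Proposition A**. Proof. `C₆ = 16 C` with `C` from `p_zero`, `η = 1/(8 C₆)`, `ε = δ = η/8`, `N = #P`. Let `B ⊆ P` be the `a` all of whose prime factors of `a - 1` are `≤ z^(1/2-ε)`,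
`P₁` those with a prime factor of `a - 1` greater than `z^(1/2+η)`, `P₀` the rest. `#P₀ ≤ C (η+ε) z/(φ(f) log z) ≤ C₆ (η+ε) N`. By `wt_le` `wt ≤ log z` on `B`, `≤ (1/2+ε) log z` on `P₀`
(a prime factor `> z^(1/2-ε)`, so `> y`), `≤ (1/2-η) log z` on `P₁`. With `wt_sum`: `(1/2-ε-δ) N ≤ #B + (1/2+ε) #P₀ + (1/2-η)(N - #B - #P₀)`, so
`(1/2+η) #B ≥ (η - ε - δ) N - (η+ε) #P₀ ≥ (3/4 η - C₆ (9η/8)²) N ≥ (3/4 - 81/512) η N ≥ η N/2`: `#B ≥ (η/2) N ≥ (η/32) z/(φ(f) log z)`. -/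
theorem prop_A : ∃ ε c : ℝ, 0 < ε ∧ ε ≤ 1 / 10 ∧ 0 < c ∧ ∀ f : ℕ, 1 ≤ f → ∃ z0 : ℕ, ∀ z : ℕ, z0 ≤ z →
    (z : ℝ) / (16 * Nat.totient f * Real.log z) ≤ ((Pm f (z / 2) z).card : ℝ) →
    c * z / (Nat.totient f * Real.log z) ≤
      (((Pm f (z / 2) z).filter
        (fun a => ∀ q : ℕ, q.Prime → q ∣ a - 1 → (q : ℝ) ≤ (z : ℝ) ^ (1 / 2 - ε))).card : ℝ) := by
  obtain ⟨C, hC, hp0⟩ := p_zero
  obtain ⟨η, hηdef⟩ : ∃ η : ℝ, η = 1 / (128 * C) := ⟨_, rfl⟩
  have hη : 0 < η := by rw [hηdef]; positivity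
  have hη1 : η ≤ 1 / 128 := by
    rw [hηdef]
    exact one_div_le_one_div_of_le (by norm_num) (by linarith)
  have hKη : 16 * C * η = 1 / 8 := by
    rw [hηdef]
    field_simp
    norm_num
  refine ⟨η / 8, η / 32, by positivity, by linarith, by positivity, fun f hf => ?_⟩
  obtain ⟨z1, hz1⟩ := hp0 f η (η / 8) hf hη (by linarith) (by positivity) (by linarith)
  obtain ⟨z2, hz2⟩ := wt_sum f hf (η / 8) (η / 8) (by positivity) (by linarith) (by positivity)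
  refine ⟨max (max z1 z2) 3, fun z hz hN => ?_⟩
  have hz1' := hz1 z (le_trans (le_max_left _ _) (le_trans (le_max_left _ _) hz))
  have hz2' := hz2 z (le_trans (le_max_right _ _) (le_trans (le_max_left _ _) hz)) hN
  have hz3 : 3 ≤ z := le_trans (le_max_right _ _) hz
  have hZ : (0 : ℝ) < z := by
    have : (3 : ℝ) ≤ z := by exact_mod_cast hz3
    linarith
  have hL : 0 < Real.log z := Real.log_pos (by
    have : (3 : ℝ) ≤ z := by exact_mod_cast hz3
    linarith)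
  have hφ : (0 : ℝ) < Nat.totient f := by
    exact_mod_cast Nat.totient_pos.2 (by omega)
  set L := Real.log z with hLdef
  set P := Pm f (z / 2) z with hP
  set y := ⌊(z : ℝ) ^ (1 / 2 - η / 8)⌋₊ with hy
  set B := P.filter (fun a => ∀ q : ℕ, q.Prime → q ∣ a - 1 → (q : ℝ) ≤ (z : ℝ) ^ (1 / 2 - η / 8))
    with hB
  set R := P.filter (fun a => ¬ ∀ q : ℕ, q.Prime → q ∣ a - 1 → (q : ℝ) ≤ (z : ℝ) ^ (1 / 2 - η / 8))
    with hR
  set P1 := R.filter (fun a => ∃ q : ℕ, q.Prime ∧ q ∣ a - 1 ∧ (z : ℝ) ^ (1 / 2 + η) < q) with hP1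
  set P0 := R.filter (fun a => ¬ ∃ q : ℕ, q.Prime ∧ q ∣ a - 1 ∧ (z : ℝ) ^ (1 / 2 + η) < q) with hP0
  have hPa : ∀ a ∈ P, 2 ≤ a ∧ a ≤ z := by
    intro a ha
    rw [hP, Pm, Finset.mem_filter, Finset.mem_Ioc] at ha
    exact ⟨ha.2.1.two_le, ha.1.2⟩
  -- cardinalities
  have c1 : (P.card : ℝ) = B.card + R.card := by
    have h := Finset.card_filter_add_card_filter_not (s := P)
      (fun a => ∀ q : ℕ, q.Prime → q ∣ a - 1 → (q : ℝ) ≤ (z : ℝ) ^ (1 / 2 - η / 8))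
    rw [← h]
    push_cast
    rfl
  have c2 : (R.card : ℝ) = P1.card + P0.card := by
    have h := Finset.card_filter_add_card_filter_not (s := R)
      (fun a => ∃ q : ℕ, q.Prime ∧ q ∣ a - 1 ∧ (z : ℝ) ^ (1 / 2 + η) < q)
    rw [← h]
    push_cast
    rfl
  -- the sum
  have s1 : ∑ a ∈ P, wt (L ^ 10) y a = ∑ a ∈ B, wt (L ^ 10) y a + (∑ a ∈ P1, wt (L ^ 10) y a +
      ∑ a ∈ P0, wt (L ^ 10) y a) := by
    rw [hP1, hP0, Finset.sum_filter_add_sum_filter_not, hB, hR,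
      Finset.sum_filter_add_sum_filter_not]
  have b1 : ∑ a ∈ B, wt (L ^ 10) y a ≤ B.card * L := by
    rw [← nsmul_eq_mul]
    refine Finset.sum_le_card_nsmul _ _ _ fun a ha => ?_
    obtain ⟨h2, h3⟩ := hPa a (Finset.mem_filter.1 ha).1
    exact (wt_le (L ^ 10) y a z h2 h3).1
  have b2 : ∑ a ∈ P1, wt (L ^ 10) y a ≤ P1.card * ((1 / 2 - η) * L) := by
    rw [← nsmul_eq_mul]
    refine Finset.sum_le_card_nsmul _ _ _ fun a ha => ?_
    rw [hP1, Finset.mem_filter] at ha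
    obtain ⟨haR, q, hq, hqa, hqz⟩ := ha
    obtain ⟨h2, h3⟩ := hPa a (Finset.mem_filter.1 haR).1
    have hyq : y < q := by
      have h4 : (y : ℝ) ≤ (z : ℝ) ^ (1 / 2 - η / 8) := Nat.floor_le (by positivity)
      have h5 : (z : ℝ) ^ (1 / 2 - η / 8) ≤ (z : ℝ) ^ (1 / 2 + η) := by
        refine Real.rpow_le_rpow_of_exponent_le ?_ (by linarith)
        have : (3 : ℝ) ≤ z := by exact_mod_cast hz3
        linarith
      have h6 : (y : ℝ) < q := by linarith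
      exact_mod_cast h6
    have h4 := (wt_le (L ^ 10) y a z h2 h3).2 q hq hyq hqa
    have h5 : (1 / 2 + η) * L ≤ Real.log q := by
      have h6 := Real.log_le_log (Real.rpow_pos_of_pos hZ _) hqz.le
      rwa [Real.log_rpow hZ] at h6
    linarith
  have b3 : ∑ a ∈ P0, wt (L ^ 10) y a ≤ P0.card * ((1 / 2 + η / 8) * L) := by
    rw [← nsmul_eq_mul]
    refine Finset.sum_le_card_nsmul _ _ _ fun a ha => ?_
    rw [hP0, Finset.mem_filter] at ha
    obtain ⟨haR, -⟩ := ha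
    rw [hR, Finset.mem_filter] at haR
    obtain ⟨haP, hno⟩ := haR
    obtain ⟨h2, h3⟩ := hPa a haP
    push Not at hno
    obtain ⟨q, hq, hqa, hqz⟩ := hno
    have hyq : y < q := by
      have h4 : (y : ℝ) ≤ (z : ℝ) ^ (1 / 2 - η / 8) := Nat.floor_le (by positivity)
      have h6 : (y : ℝ) < q := by linarith
      exact_mod_cast h6
    have h4 := (wt_le (L ^ 10) y a z h2 h3).2 q hq hyq hqa
    have h5 : (1 / 2 - η / 8) * L ≤ Real.log q := by
      have h6 := Real.log_le_log (Real.rpow_pos_of_pos hZ _) hqz.le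
      rwa [Real.log_rpow hZ] at h6
    linarith
  -- the middle set
  have m1 : (P0.card : ℝ) ≤ 9 / 64 * P.card := by
    have h1 := hz1' P0 (fun a ha => (Finset.mem_filter.1 (Finset.mem_filter.1 ha).1).1) (by
      intro a ha
      rw [hP0, Finset.mem_filter] at ha
      obtain ⟨haR, hno⟩ := ha
      rw [hR, Finset.mem_filter] at haR
      obtain ⟨haP, hno2⟩ := haR
      push Not at hno2 hno
      obtain ⟨q, hq, hqa, hqz⟩ := hno2
      exact ⟨q, hq, hqa, hqz, hno q hq hqa⟩)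
    have h2 : C * (η + η / 8) * z / (Nat.totient f * L) =
        16 * C * η * (9 / 8) * (z / (16 * Nat.totient f * L)) := by
      field_simp
      ring
    rw [h2, hKη] at h1
    linarith
  -- conclusion
  have k1 : ((P.card : ℝ) * (1 / 2 - η / 8 - η / 8)) * L ≤
      (B.card + P1.card * (1 / 2 - η) + P0.card * (1 / 2 + η / 8)) * L := by
    calc ((P.card : ℝ) * (1 / 2 - η / 8 - η / 8)) * L =
        (P.card : ℝ) * ((1 / 2 - η / 8 - η / 8) * L) := by ring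
      _ ≤ ∑ a ∈ P, wt (L ^ 10) y a := hz2'
      _ ≤ B.card * L + (P1.card * ((1 / 2 - η) * L) + P0.card * ((1 / 2 + η / 8) * L)) := by
          rw [s1]
          linarith
      _ = _ := by ring
  have k2 := le_of_mul_le_mul_right k1 hL
  have k3 : (P1.card : ℝ) = P.card - B.card - P0.card := by linarith
  rw [k3] at k2
  have hPc : (0 : ℝ) ≤ P.card := Nat.cast_nonneg _
  have hBc : (0 : ℝ) ≤ B.card := Nat.cast_nonneg _
  have k4 : (P0.card : ℝ) * η ≤ 9 / 64 * P.card * η := mul_le_mul_of_nonneg_right m1 hη.le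
  have k5 : η / 2 * P.card ≤ B.card := by nlinarith
  have k6 : η / 32 * z / (Nat.totient f * L) = η / 2 * (z / (16 * Nat.totient f * L)) := by
    field_simp
    ring
  rw [k6]
  exact (mul_le_mul_of_nonneg_left hN (by positivity)).trans k5

end GCN
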