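import Pool.Agent.GCN.A7
import Pool.Agent.GCN.A8

/-!
# [GCN-A9a] the average of the logarithm of the smooth part of `a - 1`
-/

set_option autoImplicit false

open Finset Filter

open scoped Classical

namespace GCN

/-- the logarithm of the (squarefree) part of `a - 1` with the primes in `(Q, y]` -/
noncomputable def wt (Q : ℝ) (y a : ℕ) : ℝ :=
  ∑ q ∈ (Nat.primesLE y).filter (fun q : ℕ => Q < (q : ℝ) ∧ q ∣ a - 1), Real.log (q : ℝ)

/-- distinct primes dividing `n - 1` -/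
theorem a9a_dvd (R : Finset ℕ) (hR : ∀ q ∈ R, q.Prime) (n : ℕ) (hn : 2 ≤ n)
    (hRn : ∀ q ∈ R, q ∣ n - 1) : ∑ q ∈ R, Real.log (q : ℝ) ≤ Real.log n := by
  have h1 : ∏ q ∈ R, q ∣ n - 1 :=
    Finset.prod_primes_dvd (n - 1) (fun a ha => (hR a ha).prime) hRn
  have h2 : ∏ q ∈ R, q ≤ n - 1 := Nat.le_of_dvd (by omega) h1
  have h3 : Real.log ((∏ q ∈ R, q : ℕ) : ℝ) = ∑ q ∈ R, Real.log (q : ℝ) := by
    rw [Nat.cast_prod, Real.log_prod]
    intro q hq
    have := (hR q hq).pos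
    positivity
  rw [← h3]
  have h4 : 0 < ∏ q ∈ R, q := Finset.prod_pos fun q hq => (hR q hq).pos
  refine Real.log_le_log (by exact_mod_cast h4) ?_
  exact_mod_cast h2.trans (Nat.sub_le n 1)

/-- the contribution of the proper prime powers -/
theorem a9a_pp (R : Finset ℕ) (hR : ∀ q ∈ R, q.Prime) (z : ℕ) (hz : 1 ≤ z) :
    ∑ q ∈ R, Real.log (q : ℝ) * (∑ n ∈ Ioc (z / 2) z,
      if ¬ n.Prime ∧ n % q = 1 then ArithmeticFunction.vonMangoldt n else 0) ≤
      Real.log z * (2 * √(z : ℝ) * Real.log z) := by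
  have hL : 0 ≤ Real.log (z : ℝ) := Real.log_natCast_nonneg z
  have h1 : ∑ q ∈ R, Real.log (q : ℝ) * (∑ n ∈ Ioc (z / 2) z,
      if ¬ n.Prime ∧ n % q = 1 then ArithmeticFunction.vonMangoldt n else 0) =
      ∑ n ∈ (Ioc (z / 2) z).filter (fun n => ¬ n.Prime), ArithmeticFunction.vonMangoldt n *
        ∑ q ∈ R.filter (fun q => n % q = 1), Real.log (q : ℝ) := by
    simp only [Finset.mul_sum]
    rw [Finset.sum_comm, Finset.sum_filter]
    refine Finset.sum_congr rfl fun n _ => ?_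
    by_cases hp : n.Prime
    · simp [hp]
    · simp only [hp, not_false_eq_true, true_and, if_true]
      rw [Finset.sum_filter]
      refine Finset.sum_congr rfl fun q _ => ?_
      split_ifs <;> ring
  rw [h1]
  have h2 : ∀ n ∈ (Ioc (z / 2) z).filter (fun n => ¬ n.Prime),
      ArithmeticFunction.vonMangoldt n * ∑ q ∈ R.filter (fun q => n % q = 1), Real.log (q : ℝ) ≤
        ArithmeticFunction.vonMangoldt n * Real.log z := by
    intro n hn
    rw [Finset.mem_filter, Finset.mem_Ioc] at hn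
    rcases le_or_gt n 1 with hn1 | hn1
    · have : n = 1 := by omega
      subst this
      simp
    · refine mul_le_mul_of_nonneg_left ?_ ArithmeticFunction.vonMangoldt_nonneg
      have h3 := a9a_dvd (R.filter (fun q => n % q = 1))
        (fun q hq => hR q (Finset.mem_filter.1 hq).1) n hn1 (fun q hq => by
          have h4 := (Finset.mem_filter.1 hq).2
          have h5 : n - 1 = q * (n / q) := by
            have := Nat.div_add_mod n q
            omega
          exact ⟨_, h5⟩)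
      refine h3.trans (Real.log_le_log (by positivity) ?_)
      exact_mod_cast hn.1.2
  refine (Finset.sum_le_sum h2).trans ?_
  rw [← Finset.sum_mul, mul_comm]
  refine mul_le_mul_of_nonneg_left ?_ hL
  have h5 := Chebyshev.psi_sub_theta_le (x := (z : ℝ)) (by exact_mod_cast hz)
  rw [Chebyshev.psi_sub_theta_eq_sum_not_prime, Nat.floor_natCast] at h5
  refine le_trans ?_ h5
  refine Finset.sum_le_sum_of_subset_of_nonneg ?_
    (fun n _ _ => ArithmeticFunction.vonMangoldt_nonneg)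
  intro n hn
  rw [Finset.mem_filter, Finset.mem_Ioc] at hn ⊢
  exact ⟨⟨by omega, hn.1.2⟩, hn.2⟩

/-- one prime `q` -/
theorem a9a_one (f z q : ℕ) (hq : q.Prime) (hqz : q ≤ z / 2) :
    ((Pm f (z / 2) z).card : ℝ) * (Real.log z - Real.log 2) * (1 / ((q : ℝ) - 1)) -
      |EL f z q| ≤
      Real.log z * (((Pm f (z / 2) z).filter (fun a => q ∣ a - 1)).card : ℝ) +
        ∑ n ∈ Ioc (z / 2) z,
          if ¬ n.Prime ∧ n % q = 1 then ArithmeticFunction.vonMangoldt n else 0 := by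
  have hq2 := hq.two_le
  have hq1 : (0 : ℝ) < (q : ℝ) - 1 := by
    have : (2 : ℝ) ≤ q := by exact_mod_cast hq2
    linarith
  have hz0 : 0 < z := by omega
  -- the main term
  have hA : ((Pm f (z / 2) z).card : ℝ) * (Real.log z - Real.log 2) ≤
      ∑ n ∈ Ioc (z / 2) z,
        if f ∣ n + 1 ∧ ¬ q ∣ n then ArithmeticFunction.vonMangoldt n else 0 := by
    have h1 : ∑ n ∈ Pm f (z / 2) z, (Real.log z - Real.log 2) ≤
        ∑ n ∈ Ioc (z / 2) z,
          if f ∣ n + 1 ∧ ¬ q ∣ n then ArithmeticFunction.vonMangoldt n else 0 := by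
      unfold Pm
      rw [Finset.sum_filter]
      refine Finset.sum_le_sum fun n hn => ?_
      rw [Finset.mem_Ioc] at hn
      by_cases hc : n.Prime ∧ f ∣ n + 1
      · rw [if_pos hc]
        have h2 : ¬ q ∣ n := by
          intro hd
          have := (Nat.prime_dvd_prime_iff_eq hq hc.1).1 hd
          omega
        rw [if_pos ⟨hc.2, h2⟩, ArithmeticFunction.vonMangoldt_apply_prime hc.1]
        rw [← Real.log_div (by positivity) (by norm_num)]
        refine Real.log_le_log (by positivity) ?_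
        have h3 : z ≤ 2 * n := by omega
        have h4 : (z : ℝ) ≤ 2 * n := by exact_mod_cast h3
        linarith
      · rw [if_neg hc]
        split_ifs
        · exact ArithmeticFunction.vonMangoldt_nonneg
        · exact le_refl _
    rwa [Finset.sum_const, nsmul_eq_mul] at h1
  have hB : (∑ n ∈ Ioc (z / 2) z,
      if f ∣ n + 1 ∧ n % q = 1 then ArithmeticFunction.vonMangoldt n else 0) ≤
      Real.log z * (((Pm f (z / 2) z).filter (fun a => q ∣ a - 1)).card : ℝ) +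
        ∑ n ∈ Ioc (z / 2) z,
          if ¬ n.Prime ∧ n % q = 1 then ArithmeticFunction.vonMangoldt n else 0 := by
    have h1 : Real.log z * (((Pm f (z / 2) z).filter (fun a => q ∣ a - 1)).card : ℝ) =
        ∑ n ∈ Ioc (z / 2) z,
          if (n.Prime ∧ f ∣ n + 1) ∧ q ∣ n - 1 then Real.log z else 0 := by
      unfold Pm
      rw [Finset.filter_filter, ← Finset.sum_filter, Finset.sum_const, nsmul_eq_mul, mul_comm]
    rw [h1, ← Finset.sum_add_distrib]
    refine Finset.sum_le_sum fun n hn => ?_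
    rw [Finset.mem_Ioc] at hn
    by_cases hc : f ∣ n + 1 ∧ n % q = 1
    · rw [if_pos hc]
      by_cases hp : n.Prime
      · have h2 : q ∣ n - 1 := by
          have h5 : n - 1 = q * (n / q) := by
            have := Nat.div_add_mod n q
            omega
          exact ⟨_, h5⟩
        rw [if_pos ⟨⟨hp, hc.1⟩, h2⟩, if_neg (by tauto), add_zero,
          ArithmeticFunction.vonMangoldt_apply_prime hp]
        refine Real.log_le_log (by exact_mod_cast hp.pos) ?_
        exact_mod_cast hn.2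
      · rw [if_neg (by tauto), if_pos ⟨hp, hc.2⟩, zero_add]
    · rw [if_neg hc]
      have hL : 0 ≤ Real.log (z : ℝ) := Real.log_natCast_nonneg z
      split_ifs
      · exact add_nonneg hL ArithmeticFunction.vonMangoldt_nonneg
      · simpa using hL
      · simpa using (ArithmeticFunction.vonMangoldt_nonneg (n := n))
      · simp
  have hE := neg_abs_le (EL f z q)
  have hE2 : EL f z q = (∑ n ∈ Ioc (z / 2) z,
      if f ∣ n + 1 ∧ n % q = 1 then ArithmeticFunction.vonMangoldt n else 0) -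
    1 / ((q : ℝ) - 1) * ∑ n ∈ Ioc (z / 2) z,
      if f ∣ n + 1 ∧ ¬ q ∣ n then ArithmeticFunction.vonMangoldt n else 0 := rfl
  have hC := mul_le_mul_of_nonneg_left hA (one_div_pos.2 hq1).le
  nlinarith [hC, hB, hE, hE2]

/-- the sum over the primes -/
theorem a9a_sum (f z y : ℕ) (Q : ℝ) (hyz : y ≤ z / 2) (hz : 1 ≤ z) :
    ((Pm f (z / 2) z).card : ℝ) * (Real.log z - Real.log 2) *
        (∑ q ∈ (Nat.primesLE y).filter (fun q : ℕ => Q < (q : ℝ) ∧ ¬ q ∣ f),
          Real.log (q : ℝ) / ((q : ℝ) - 1)) -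
      (∑ q ∈ (Nat.primesLE y).filter (fun q : ℕ => Q < (q : ℝ) ∧ ¬ q ∣ f),
        Real.log (q : ℝ) * |EL f z q|) ≤
      Real.log z * (∑ a ∈ Pm f (z / 2) z, wt Q y a) +
        Real.log z * (2 * √(z : ℝ) * Real.log z) := by
  set R := (Nat.primesLE y).filter (fun q : ℕ => Q < (q : ℝ) ∧ ¬ q ∣ f) with hR
  have hRp : ∀ q ∈ R, q.Prime ∧ q ≤ y ∧ Q < (q : ℝ) := by
    intro q hq
    rw [hR, Finset.mem_filter, Nat.mem_primesLE] at hq
    exact ⟨hq.1.2, hq.1.1, hq.2.1⟩
  have hL : 0 ≤ Real.log (z : ℝ) := Real.log_natCast_nonneg z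
  have h1 := Finset.sum_le_sum fun q (hq : q ∈ R) =>
    mul_le_mul_of_nonneg_left (a9a_one f z q (hRp q hq).1 ((hRp q hq).2.1.trans hyz))
      (Real.log_natCast_nonneg q)
  have h2 := a9a_pp R (fun q hq => (hRp q hq).1) z hz
  -- exchanging the sums
  have h3 : ∑ q ∈ R, Real.log (q : ℝ) *
      (((Pm f (z / 2) z).filter (fun a => q ∣ a - 1)).card : ℝ) ≤
      ∑ a ∈ Pm f (z / 2) z, wt Q y a := by
    have h4 : ∀ q ∈ R, Real.log (q : ℝ) *
        (((Pm f (z / 2) z).filter (fun a => q ∣ a - 1)).card : ℝ) =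
        ∑ a ∈ Pm f (z / 2) z, if q ∣ a - 1 then Real.log (q : ℝ) else 0 := by
      intro q _
      rw [← Finset.sum_filter, Finset.sum_const, nsmul_eq_mul, mul_comm]
    rw [Finset.sum_congr rfl h4, Finset.sum_comm]
    refine Finset.sum_le_sum fun a _ => ?_
    unfold wt
    rw [← Finset.sum_filter]
    refine Finset.sum_le_sum_of_subset_of_nonneg ?_ fun q _ _ => Real.log_natCast_nonneg q
    intro q hq
    rw [Finset.mem_filter, hR, Finset.mem_filter] at hq
    rw [Finset.mem_filter]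
    exact ⟨hq.1.1, hq.1.2.1, hq.2⟩
  have h5 : ∑ q ∈ R, Real.log (q : ℝ) *
      (((Pm f (z / 2) z).card : ℝ) * (Real.log z - Real.log 2) * (1 / ((q : ℝ) - 1)) -
        |EL f z q|) =
      ((Pm f (z / 2) z).card : ℝ) * (Real.log z - Real.log 2) *
        (∑ q ∈ R, Real.log (q : ℝ) / ((q : ℝ) - 1)) -
      ∑ q ∈ R, Real.log (q : ℝ) * |EL f z q| := by
    rw [Finset.mul_sum, ← Finset.sum_sub_distrib]
    refine Finset.sum_congr rfl fun q _ => ?_
    ring
  have h6 : ∑ q ∈ R, Real.log (q : ℝ) * (Real.log z *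
      (((Pm f (z / 2) z).filter (fun a => q ∣ a - 1)).card : ℝ) +
        ∑ n ∈ Ioc (z / 2) z,
          if ¬ n.Prime ∧ n % q = 1 then ArithmeticFunction.vonMangoldt n else 0) =
      Real.log z * (∑ q ∈ R, Real.log (q : ℝ) *
        (((Pm f (z / 2) z).filter (fun a => q ∣ a - 1)).card : ℝ)) +
      ∑ q ∈ R, Real.log (q : ℝ) * (∑ n ∈ Ioc (z / 2) z,
          if ¬ n.Prime ∧ n % q = 1 then ArithmeticFunction.vonMangoldt n else 0) := by
    rw [Finset.mul_sum, ← Finset.sum_add_distrib]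
    refine Finset.sum_congr rfl fun q _ => ?_
    ring
  have h7 := mul_le_mul_of_nonneg_left h3 hL
  rw [h5, h6] at h1
  linarith

/-- Mertens for the primes `q ∤ f` in `(Q, y]` -/
theorem a9a_mert (f y : ℕ) (hf : 1 ≤ f) (Q : ℝ) (hQ : 1 ≤ Q) (hQy : Q ≤ y) :
    Real.log y - Real.log Q - 5 - f ≤
      ∑ q ∈ (Nat.primesLE y).filter (fun q : ℕ => Q < (q : ℝ) ∧ ¬ q ∣ f),
        Real.log (q : ℝ) / ((q : ℝ) - 1) := by
  have hx1 : 1 ≤ ⌊Q⌋₊ := Nat.le_floor (by simpa using hQ)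
  have hxy : ⌊Q⌋₊ ≤ y := by
    have := Nat.floor_le_floor hQy
    rwa [Nat.floor_natCast] at this
  have h1 := Pool.Agent.EPK.mertens_one ⌊Q⌋₊ y hx1 hxy
  have h2 := (abs_le.1 h1).1
  have h3 : Real.log (⌊Q⌋₊ : ℝ) ≤ Real.log Q :=
    Real.log_le_log (by exact_mod_cast hx1) (Nat.floor_le (by linarith))
  have h4 : ∑ l ∈ (Ioc ⌊Q⌋₊ y).filter Nat.Prime, Real.log (l : ℝ) / l ≤
      (∑ q ∈ (Nat.primesLE y).filter (fun q : ℕ => Q < (q : ℝ) ∧ ¬ q ∣ f),
        Real.log (q : ℝ) / ((q : ℝ) - 1)) + ∑ q ∈ f.divisors, (1 : ℝ) := by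
    have h5 : (Ioc ⌊Q⌋₊ y).filter Nat.Prime ⊆
        ((Nat.primesLE y).filter (fun q : ℕ => Q < (q : ℝ) ∧ ¬ q ∣ f)) ∪
          (f.divisors.filter Nat.Prime) := by
      intro q hq
      rw [Finset.mem_filter, Finset.mem_Ioc] at hq
      rw [Finset.mem_union, Finset.mem_filter, Finset.mem_filter, Nat.mem_primesLE,
        Nat.mem_divisors]
      by_cases hd : q ∣ f
      · exact Or.inr ⟨⟨hd, by omega⟩, hq.2⟩
      · exact Or.inl ⟨⟨hq.1.2, hq.2⟩, (Nat.floor_lt (by linarith)).1 hq.1.1, hd⟩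
    refine (Finset.sum_le_sum_of_subset_of_nonneg h5 (fun q _ _ =>
      div_nonneg (Real.log_natCast_nonneg q) (Nat.cast_nonneg q))).trans ?_
    have h6 := Finset.sum_union_inter (s₁ := ((Nat.primesLE y).filter
      (fun q : ℕ => Q < (q : ℝ) ∧ ¬ q ∣ f))) (s₂ := (f.divisors.filter Nat.Prime))
      (f := fun q : ℕ => Real.log (q : ℝ) / q)
    have h7 : 0 ≤ ∑ q ∈ ((Nat.primesLE y).filter
      (fun q : ℕ => Q < (q : ℝ) ∧ ¬ q ∣ f)) ∩ (f.divisors.filter Nat.Prime),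
        Real.log (q : ℝ) / q := Finset.sum_nonneg fun q _ =>
      div_nonneg (Real.log_natCast_nonneg q) (Nat.cast_nonneg q)
    have h8 : ∑ q ∈ (Nat.primesLE y).filter (fun q : ℕ => Q < (q : ℝ) ∧ ¬ q ∣ f),
        Real.log (q : ℝ) / q ≤
        ∑ q ∈ (Nat.primesLE y).filter (fun q : ℕ => Q < (q : ℝ) ∧ ¬ q ∣ f),
        Real.log (q : ℝ) / ((q : ℝ) - 1) := by
      refine Finset.sum_le_sum fun q hq => ?_
      rw [Finset.mem_filter, Nat.mem_primesLE] at hq
      have h9 : (2 : ℝ) ≤ q := by exact_mod_cast hq.1.2.two_le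
      exact div_le_div_of_nonneg_left (Real.log_natCast_nonneg q) (by linarith) (by linarith)
    have h10 : ∑ q ∈ f.divisors.filter Nat.Prime, Real.log (q : ℝ) / q ≤
        ∑ q ∈ f.divisors, (1 : ℝ) := by
      refine (Finset.sum_le_sum fun q hq => ?_).trans
        (Finset.sum_le_sum_of_subset_of_nonneg (Finset.filter_subset _ _) fun _ _ _ => zero_le_one)
      rw [Finset.mem_filter] at hq
      have h9 : (0 : ℝ) < q := by exact_mod_cast hq.2.pos
      rw [div_le_one h9]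
      have := Real.log_le_sub_one_of_pos h9
      linarith
    linarith
  have h11 : ∑ q ∈ f.divisors, (1 : ℝ) ≤ f := by
    rw [Finset.sum_const, nsmul_eq_mul, mul_one]
    exact_mod_cast Nat.card_divisors_le_self f
  linarith

/-- [A9a] Proof. `L = log z`, `y = ⌊z^(1/2-ε)⌋₊`, `Q0 = L^10`, `P = Pm f (z/2) z`. For a prime `q ∈ (Q0, y]`, `q ∤ f`: with `Ψ = ∑ Λ(n)` over `n ∈ (z/2, z]`, `f ∣ n + 1`, `q ∤ n`:
`∑_{a ∈ P, q ∣ a-1} log a ≥ Ψ/(q-1) - |EL f z q| - (prime powers)`; `Ψ ≥ #P log(z/2)` (`q ≤ y < z/2` divides no prime in `P`). Proper prime powers: `∑_q log q ∑_{n = p^j ≤ z, j ≥ 2, q ∣ n-1} Λ(n)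
≤ L ∑_{n = p^j, j ≥ 2} Λ(n) ≤ 2 √z L^2` (`∑_{q ∣ n-1} log q ≤ log n`, `Chebyshev.psi_sub_theta_le`). Sum over `q` with the weight `log q`, divide by `L` (`log a ≤ L`):
`∑_{a ∈ P} wt ≥ #P (1 - log 2/L) ∑_{q ∈ (Q0,y], q ∤ f} log q/(q-1) - (δ' z)/L - 2 √z L`. By `mertens_one` (EPK/M1a) `∑_{q ∈ (Q0, y]} log q/q ≥ log y - log Q0 - 5 ≥ (1/2-ε) L - 1 - 10 log L - 5`; the `q ∣ f` change it by
at most `f`. As `#P ≥ z/(16 φ(f) L)`, `(δ' z)/L ≤ 16 φ(f) δ' #P ≤ (δ/2) #P L` for large `z` (take `δ' = 1` in `bv`; even the trivial `δ' = 1` is enough because of the factor `L`). -/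
theorem wt_sum (f : ℕ) (hf : 1 ≤ f) (ε δ : ℝ) (hε : 0 < ε) (hε1 : ε ≤ 1 / 10) (hδ : 0 < δ) :
    ∃ z0 : ℕ, ∀ z : ℕ, z0 ≤ z →
      (z : ℝ) / (16 * Nat.totient f * Real.log z) ≤ ((Pm f (z / 2) z).card : ℝ) →
      ((Pm f (z / 2) z).card : ℝ) * ((1 / 2 - ε - δ) * Real.log z) ≤
        ∑ a ∈ Pm f (z / 2) z, wt (Real.log (z : ℝ) ^ 10) ⌊(z : ℝ) ^ (1 / 2 - ε)⌋₊ a := by
  obtain ⟨z1, hz1⟩ := bv f hf ε 1 hε hε1 one_pos
  have hlog : Tendsto (fun z : ℕ => Real.log (z : ℝ)) atTop atTop :=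
    Real.tendsto_log_atTop.comp tendsto_natCast_atTop_atTop
  -- the largeness conditions
  have e1 : ∀ᶠ z : ℕ in atTop, 10 ≤ Real.log (z : ℝ) := hlog.eventually_ge_atTop 10
  have e2 : ∀ᶠ z : ℕ in atTop, Real.log (z : ℝ) ^ 10 ≤ (z : ℝ) ^ (1 / 2 - ε) / 2 := by
    have h := (isLittleO_log_rpow_rpow_atTop (s := 1 / 2 - ε) 10 (by linarith)).bound
      (c := 1 / 2) (by norm_num)
    filter_upwards [tendsto_natCast_atTop_atTop.eventually h, e1, eventually_ge_atTop 1]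
      with z hz hz2 hz3
    have h5 : (0 : ℝ) ≤ (z : ℝ) ^ (1 / 2 - ε) := by positivity
    have h6 : (0 : ℝ) ≤ Real.log (z : ℝ) ^ (10 : ℝ) := Real.rpow_nonneg (by linarith) _
    rw [Real.norm_of_nonneg h6, Real.norm_of_nonneg h5] at hz
    have h7 : Real.log (z : ℝ) ^ (10 : ℝ) = Real.log (z : ℝ) ^ (10 : ℕ) := by
      rw [← Real.rpow_natCast]
      norm_num
    rw [h7] at hz
    linarith
  have e3 : ∀ᶠ z : ℕ in atTop, 2 * √(z : ℝ) * Real.log z ^ 2 ≤ z := by
    have h := (isLittleO_log_rpow_rpow_atTop (s := 1 / 2) 2 (by norm_num)).bound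
      (c := 1 / 2) (by norm_num)
    filter_upwards [tendsto_natCast_atTop_atTop.eventually h, e1, eventually_ge_atTop 1]
      with z hz hz2 hz3
    have h5 : (0 : ℝ) ≤ (z : ℝ) ^ (1 / 2 : ℝ) := by positivity
    have h6 : (0 : ℝ) ≤ Real.log (z : ℝ) ^ (2 : ℝ) := Real.rpow_nonneg (by linarith) _
    rw [Real.norm_of_nonneg h6, Real.norm_of_nonneg h5, ← Real.sqrt_eq_rpow] at hz
    have h7 : Real.log (z : ℝ) ^ (2 : ℝ) = Real.log (z : ℝ) ^ (2 : ℕ) := by
      rw [← Real.rpow_natCast]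
      norm_num
    rw [h7] at hz
    have h8 : √(z : ℝ) * √(z : ℝ) = z := Real.mul_self_sqrt (Nat.cast_nonneg z)
    have h9 : 0 ≤ √(z : ℝ) := Real.sqrt_nonneg _
    nlinarith
  have e4 : ∀ᶠ z : ℕ in atTop,
      10 * Real.log (Real.log (z : ℝ)) + (8 + f + 32 * Nat.totient f) ≤ δ * Real.log z := by
    have h1 : ∀ᶠ x : ℝ in atTop, 10 * Real.log x ≤ δ / 2 * x := by
      have h := Real.isLittleO_log_id_atTop.bound (c := δ / 20) (by positivity)
      filter_upwards [h, eventually_ge_atTop 1] with x hx hx1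
      rw [Real.norm_of_nonneg (Real.log_nonneg hx1), id, Real.norm_of_nonneg (by linarith)] at hx
      linarith
    have h2 : ∀ᶠ x : ℝ in atTop, (8 + f + 32 * Nat.totient f : ℝ) ≤ δ / 2 * x := by
      have : Tendsto (fun x : ℝ => δ / 2 * x) atTop atTop :=
        tendsto_id.const_mul_atTop (by positivity)
      exact this.eventually_ge_atTop _
    filter_upwards [hlog.eventually h1, hlog.eventually h2] with z a b
    linarith
  obtain ⟨z2, hz2⟩ := eventually_atTop.1 (e1.and (e2.and (e3.and e4)))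
  refine ⟨max z1 (max z2 16), fun z hz hN => ?_⟩
  obtain ⟨c1, c2, c3, c4⟩ := hz2 z ((le_max_left _ _).trans ((le_max_right _ _).trans hz))
  have hz16 : 16 ≤ z := (le_max_right z2 16).trans ((le_max_right z1 _).trans hz)
  have hb := hz1 z ((le_max_left _ _).trans hz) ⌊(z : ℝ) ^ (1 / 2 - ε)⌋₊
    (Nat.floor_le (by positivity))
  set L := Real.log (z : ℝ) with hLdef
  set y := ⌊(z : ℝ) ^ (1 / 2 - ε)⌋₊ with hy
  set N := ((Pm f (z / 2) z).card : ℝ) with hNdef
  have hz1r : (1 : ℝ) ≤ z := by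
    have : (16 : ℝ) ≤ z := by exact_mod_cast hz16
    linarith
  have hz0r : (0 : ℝ) < z := by linarith
  have hlogL : 0 ≤ Real.log L := Real.log_nonneg (by linarith)
  have hN0 : 0 ≤ N := Nat.cast_nonneg _
  -- y ≤ z / 2
  have hyr : (y : ℝ) ≤ (z : ℝ) ^ (1 / 2 - ε) := Nat.floor_le (by positivity)
  have hys : (y : ℝ) ≤ √(z : ℝ) := by
    rw [Real.sqrt_eq_rpow]
    exact hyr.trans (Real.rpow_le_rpow_of_exponent_le hz1r (by linarith))
  have hyz : y ≤ z / 2 := by
    have h1 : (y : ℝ) * y ≤ z := by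
      have h8 : √(z : ℝ) * √(z : ℝ) = z := Real.mul_self_sqrt (Nat.cast_nonneg z)
      have h9 : (0 : ℝ) ≤ y := Nat.cast_nonneg y
      nlinarith [Real.sqrt_nonneg (z : ℝ)]
    have h2 : y * y ≤ z := by exact_mod_cast h1
    rcases le_or_gt y 1 with h | h
    · omega
    · have : 2 * y ≤ y * y := Nat.mul_le_mul_right y h
      omega
  -- log y
  have hpow : 2 ≤ (z : ℝ) ^ (1 / 2 - ε) := by
    have : (10 : ℝ) ^ 10 ≤ L ^ 10 := pow_le_pow_left₀ (by norm_num) c1 10
    linarith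
  have hyl : (z : ℝ) ^ (1 / 2 - ε) / 2 ≤ y := by
    have := Nat.lt_floor_add_one ((z : ℝ) ^ (1 / 2 - ε))
    rw [← hy] at this
    linarith
  have hlogy : (1 / 2 - ε) * L - 1 ≤ Real.log y := by
    have h1 : Real.log ((z : ℝ) ^ (1 / 2 - ε) / 2) ≤ Real.log y :=
      Real.log_le_log (by positivity) hyl
    rw [Real.log_div (by positivity) (by norm_num), Real.log_rpow hz0r] at h1
    have := Real.log_two_lt_d9
    linarith
  have hm := a9a_mert f y hf (L ^ 10) (one_le_pow₀ (by linarith)) (c2.trans hyl)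
  rw [Real.log_pow] at hm
  push_cast at hm
  have hs := a9a_sum f z y (L ^ 10) hyz (by omega)
  rw [← hLdef, ← hNdef] at hs
  set W := ∑ q ∈ (Nat.primesLE y).filter (fun q : ℕ => L ^ 10 < (q : ℝ) ∧ ¬ q ∣ f),
        Real.log (q : ℝ) / ((q : ℝ) - 1) with hW
  set S := ∑ a ∈ Pm f (z / 2) z, wt (L ^ 10) y a with hS
  set E := ∑ q ∈ (Nat.primesLE y).filter (fun q : ℕ => L ^ 10 < (q : ℝ) ∧ ¬ q ∣ f),
        Real.log (q : ℝ) * |EL f z q| with hE
  -- z ≤ 16 φ(f) L N
  have hφ : (0 : ℝ) < Nat.totient f := by exact_mod_cast Nat.totient_pos.2 hf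
  have hzN : (z : ℝ) ≤ 16 * Nat.totient f * L * N := by
    rw [div_le_iff₀ (by positivity)] at hN
    linarith
  have hlog2 : Real.log 2 ≤ 1 := by
    have := Real.log_two_lt_d9
    linarith
  have hlog20 : 0 ≤ Real.log 2 := Real.log_nonneg (by norm_num)
  set W0 := (1 / 2 - ε) * L - 10 * Real.log L - 6 - f with hW0
  have hWW : W0 ≤ W := by linarith
  have hf0 : (0 : ℝ) ≤ f := Nat.cast_nonneg f
  have hW0L : W0 ≤ L := by nlinarith
  -- N (L - log 2) W ≥ N L (W0 - 1)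
  have k1 : N * (L - Real.log 2) * W0 ≤ N * (L - Real.log 2) * W :=
    mul_le_mul_of_nonneg_left hWW (mul_nonneg hN0 (by linarith))
  have k2 : N * (L * (W0 - 1)) ≤ N * (L - Real.log 2) * W0 := by
    rw [mul_assoc]
    refine mul_le_mul_of_nonneg_left ?_ hN0
    nlinarith [mul_le_mul_of_nonneg_left hW0L hlog20]
  have k3 : L * (2 * √(z : ℝ) * L) ≤ z := by
    have : L * (2 * √(z : ℝ) * L) = 2 * √(z : ℝ) * L ^ 2 := by ring
    rw [this]
    exact c3
  have k4 : N * (L * (W0 - 1)) - (32 * Nat.totient f) * L * N ≤ L * S := by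
    nlinarith
  have k5 : L * (N * ((1 / 2 - ε - δ) * L)) ≤ L * S := by
    refine le_trans ?_ k4
    have : L * (N * ((1 / 2 - ε - δ) * L)) ≤ L * N * (W0 - 1 - 32 * Nat.totient f) := by
      rw [mul_assoc L N]
      refine mul_le_mul_of_nonneg_left (mul_le_mul_of_nonneg_left ?_ hN0) (by linarith)
      linarith
    linarith
  exact le_of_mul_le_mul_left k5 (by linarith)

end GCN
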