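import Pool.Agent.GCN.Defs
import Pool.Agent.MP_de0709_nt.V

/-!
# [GCN-B1b] primitive characters and Gauss sums
-/

set_option autoImplicit false

open Finset

open Pool.Agent.MP_ffd2b5_nt (e)

namespace GCN

theorem b1b_parseval {q : ℕ} [NeZero q] (f : ZMod q → ℂ) :
    ∑ n : ZMod q, ‖∑ b : ZMod q, f b * ZMod.stdAddChar (n * b)‖ ^ 2 = q * ∑ b, ‖f b‖ ^ 2 := by
  have h : ((∑ n : ZMod q, ‖∑ b : ZMod q, f b * ZMod.stdAddChar (n * b)‖ ^ 2 : ℝ) : ℂ) =
      ((q * ∑ b, ‖f b‖ ^ 2 : ℝ) : ℂ) := by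
    push_cast
    have h1 : ∀ n : ZMod q, ((‖∑ b : ZMod q, f b * ZMod.stdAddChar (n * b)‖ : ℝ) : ℂ) ^ 2 =
        ∑ b : ZMod q, ∑ c : ZMod q, f b * (starRingEnd ℂ) (f c) *
          ZMod.stdAddChar (n * (b - c)) := by
      intro n
      rw [← Complex.mul_conj', map_sum, sum_mul_sum]
      refine sum_congr rfl fun b _ => sum_congr rfl fun c _ => ?_
      rw [map_mul (starRingEnd ℂ), ← AddChar.map_neg_eq_conj, mul_mul_mul_comm, ← AddChar.map_add_eq_mul]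
      congr 2
      ring
    simp_rw [h1]
    rw [sum_comm]
    have h2 : ∀ b : ZMod q, ∑ n : ZMod q, ∑ c : ZMod q, f b * (starRingEnd ℂ) (f c) *
          ZMod.stdAddChar (n * (b - c)) = q * ((‖f b‖ : ℝ) : ℂ) ^ 2 := by
      intro b
      rw [sum_comm]
      have h3 : ∀ c : ZMod q, ∑ n : ZMod q, f b * (starRingEnd ℂ) (f c) *
          ZMod.stdAddChar (n * (b - c)) = if b = c then q * ((‖f b‖ : ℝ) : ℂ) ^ 2 else 0 := by
        intro c
        rw [← mul_sum, AddChar.sum_mulShift _ (ZMod.isPrimitive_stdAddChar q), ZMod.card]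
        by_cases hbc : b = c
        · subst hbc
          rw [if_pos (sub_self b), if_pos rfl, ← Complex.mul_conj']
          ring
        · rw [if_neg (sub_ne_zero.2 hbc), if_neg hbc]
          push_cast
          ring
      rw [sum_congr rfl fun c _ => h3 c, sum_ite_eq, if_pos (mem_univ b)]
    rw [sum_congr rfl fun b _ => h2 b, ← mul_sum]
  exact_mod_cast h

theorem b1b_star {q : ℕ} (χ : DirichletCharacter ℂ q) (c : ZMod q) :
    (starRingEnd ℂ) (χ c) = χ⁻¹ c := MulChar.star_apply' χ c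

theorem b1b_orth {q : ℕ} [NeZero q] (b c : ZMod q) (hc : IsUnit c) :
    ∑ χ : DirichletCharacter ℂ q, χ b * (starRingEnd ℂ) (χ c) =
      if c = b then (q.totient : ℂ) else 0 := by
  rw [← DirichletCharacter.sum_char_inv_mul_char_eq ℂ hc b]
  refine sum_congr rfl fun χ _ => ?_
  have h2 : χ⁻¹ c * χ c = 1 := by
    rw [← MulChar.mul_apply, inv_mul_cancel, MulChar.one_apply hc]
  have h3 : χ c⁻¹ * χ c = 1 := by
    rw [← map_mul, ZMod.inv_mul_of_unit c hc, map_one]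
  have h4 : χ c ≠ 0 := by
    intro h
    rw [h, mul_zero] at h3
    exact zero_ne_one h3
  rw [b1b_star, mul_right_cancel₀ h4 (h2.trans h3.symm), mul_comm]

theorem b1b_chars {q : ℕ} [NeZero q] (F : ZMod q → ℂ) :
    ∑ χ : DirichletCharacter ℂ q, ‖∑ b, χ b * F b‖ ^ 2 =
      q.totient * ∑ b ∈ univ.filter (fun b : ZMod q => IsUnit b), ‖F b‖ ^ 2 := by
  classical
  have h : ((∑ χ : DirichletCharacter ℂ q, ‖∑ b, χ b * F b‖ ^ 2 : ℝ) : ℂ) =
      ((q.totient * ∑ b ∈ univ.filter (fun b : ZMod q => IsUnit b), ‖F b‖ ^ 2 : ℝ) : ℂ) := by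
    push_cast
    have h1 : ∀ χ : DirichletCharacter ℂ q, ((‖∑ b : ZMod q, χ b * F b‖ : ℝ) : ℂ) ^ 2 =
        ∑ c ∈ univ.filter (fun c : ZMod q => IsUnit c), ∑ b : ZMod q,
          F b * (starRingEnd ℂ) (F c) * (χ b * (starRingEnd ℂ) (χ c)) := by
      intro χ
      rw [← Complex.mul_conj', map_sum, sum_mul_sum, sum_comm]
      rw [sum_filter]
      refine sum_congr rfl fun c _ => ?_
      split_ifs with hc
      · refine sum_congr rfl fun b _ => ?_
        rw [map_mul]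
        ring
      · refine sum_eq_zero fun b _ => ?_
        rw [χ.map_nonunit hc, zero_mul, map_zero, mul_zero]
    simp_rw [h1]
    rw [sum_comm, mul_sum]
    refine sum_congr rfl fun c hc => ?_
    rw [sum_comm]
    have h2 : ∀ b : ZMod q, ∑ χ : DirichletCharacter ℂ q,
        F b * (starRingEnd ℂ) (F c) * (χ b * (starRingEnd ℂ) (χ c)) =
          if c = b then (q.totient : ℂ) * ((‖F c‖ : ℝ) : ℂ) ^ 2 else 0 := by
      intro b
      rw [← mul_sum, b1b_orth b c (mem_filter.1 hc).2]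
      split_ifs with hcb
      · subst hcb
        rw [← Complex.mul_conj']
        ring
      · ring
    rw [sum_congr rfl fun b _ => h2 b, sum_ite_eq, if_pos (mem_univ c)]
  exact_mod_cast h

theorem b1b_tau {q : ℕ} [NeZero q] (χ : DirichletCharacter ℂ q) (hχ : χ.IsPrimitive) :
    ∃ τ : ℂ, ‖τ‖ ^ 2 = q ∧ ∀ n : ZMod q,
      ∑ b : ZMod q, χ⁻¹ b * ZMod.stdAddChar (n * b) = χ n * τ := by
  have hp : (χ⁻¹).IsPrimitive := by
    have h1 : χ.conductor = q := hχ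
    have h2 : (χ⁻¹).conductor = q := (DirichletCharacter.conductor_inv χ).trans h1
    exact h2
  have hτ : ∀ n : ZMod q, ∑ b : ZMod q, χ⁻¹ b * ZMod.stdAddChar (n * b) =
      χ n * gaussSum χ⁻¹ ZMod.stdAddChar := by
    intro n
    have h1 := gaussSum_mulShift_of_isPrimitive (e := ZMod.stdAddChar (N := q)) hp n
    rw [inv_inv] at h1
    rw [← h1]
    rfl
  refine ⟨_, ?_, hτ⟩
  have h1 := b1b_parseval (q := q) (fun b => χ⁻¹ b)
  simp_rw [hτ] at h1
  have h2 : ∀ b : ZMod q, ‖χ⁻¹ b‖ = ‖χ b‖ := by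
    intro b
    rw [← b1b_star, RCLike.norm_conj]
  simp_rw [h2, norm_mul, mul_pow] at h1
  rw [← sum_mul] at h1
  have h3 : 0 < ∑ n : ZMod q, ‖χ n‖ ^ 2 := by
    refine lt_of_lt_of_le one_pos (le_trans (le_of_eq ?_)
      (single_le_sum (fun n _ => by positivity) (mem_univ (1 : ZMod q))))
    rw [map_one, norm_one, one_pow]
  rw [mul_comm] at h1
  exact mul_right_cancel₀ h3.ne' h1

theorem b1b_e (q : ℕ) [NeZero q] (n b : ℕ) :
    e (n * ((b : ℝ) / q)) = ZMod.stdAddChar ((n : ZMod q) * (b : ZMod q)) := by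
  have h1 : ((n : ZMod q) * (b : ZMod q)) = (((n * b : ℕ) : ℤ) : ZMod q) := by
    push_cast
    ring
  rw [h1, ZMod.stdAddChar_coe]
  unfold e
  congr 1
  push_cast
  ring

/-- [B1b] Proof. Let `χ` be primitive modulo `q`, `τ = ∑_b χ⁻¹(b) e(b/q)` (a Gauss sum). Mathlib: `gaussSum_mulShift_of_isPrimitive` gives `χ(n) τ = ∑_{b mod q} χ⁻¹(b) e(n b/q)` for all `n`
(the additive character is `ZMod.stdAddChar`, `ZMod.stdAddChar_apply`/`toCircle`; `e t = exp(2πi t)`). `‖τ‖² = q`: sum `‖·‖²` over `n mod q`: `‖τ‖² φ(q) = ∑_n ‖∑_b χ⁻¹(b) e(nb/q)‖² = q ∑_b ‖χ⁻¹(b)‖² = q φ(q)`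
(orthogonality, `parseval`-like in `MP_de0709_nt/V.lean`). So `q ‖∑_n a n χ(n)‖² = ‖∑_b χ⁻¹(b) F(b)‖²`, `F(b) = ∑_n a n e(n b/q)`. Sum over the (primitive) characters `≤` sum over all characters modulo `q`, and
by orthogonality (`DirichletCharacter.sum_char_inv_mul_char_eq`) `∑_χ ‖∑_b χ(b) F(b)‖² = φ(q) ∑_{b unit} ‖F(b)‖²`. Finally `φ(q)/q ≤ 1`. -/
theorem prim_one (q N : ℕ) [NeZero q] (a : ℕ → ℂ) (𝒳 : Finset (DirichletCharacter ℂ q))
    (h𝒳 : ∀ χ ∈ 𝒳, χ.IsPrimitive) :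
    ∑ χ ∈ 𝒳, ‖∑ n ∈ range N, a n * χ (n : ZMod q)‖ ^ 2 ≤
      ∑ b ∈ (range q).filter (fun b => Nat.Coprime b q),
        ‖∑ n ∈ range N, a n * e (n * ((b : ℝ) / q))‖ ^ 2 := by
  classical
  have hq : (0 : ℝ) < q := by exact_mod_cast NeZero.pos q
  have h1 : ∀ χ ∈ 𝒳, (q : ℝ) * ‖∑ n ∈ range N, a n * χ (n : ZMod q)‖ ^ 2 =
      ‖∑ b : ZMod q, χ⁻¹ b * ∑ n ∈ range N, a n * ZMod.stdAddChar ((n : ZMod q) * b)‖ ^ 2 := by
    intro χ hχ
    obtain ⟨τ, hτ, hτn⟩ := b1b_tau χ (h𝒳 χ hχ)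
    have h2 : ∑ b : ZMod q, χ⁻¹ b * ∑ n ∈ range N, a n * ZMod.stdAddChar ((n : ZMod q) * b) =
        (∑ n ∈ range N, a n * χ (n : ZMod q)) * τ := by
      simp_rw [mul_sum]
      rw [sum_comm, sum_mul]
      refine sum_congr rfl fun n _ => ?_
      rw [mul_assoc, ← hτn, mul_sum]
      refine sum_congr rfl fun b _ => ?_
      ring
    rw [h2, norm_mul, mul_pow, hτ, mul_comm]
  have h2 := b1b_chars (q := q) (fun b => ∑ n ∈ range N, a n * ZMod.stdAddChar ((n : ZMod q) * b))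
  have h3 : ∑ b ∈ univ.filter (fun b : ZMod q => IsUnit b),
      ‖∑ n ∈ range N, a n * ZMod.stdAddChar ((n : ZMod q) * b)‖ ^ 2 =
        ∑ b ∈ (range q).filter (fun b => Nat.Coprime b q),
          ‖∑ n ∈ range N, a n * e (n * ((b : ℝ) / q))‖ ^ 2 := by
    symm
    refine sum_nbij' (fun b : ℕ => (b : ZMod q)) (fun b : ZMod q => b.val) ?_ ?_ ?_ ?_ ?_
    · intro b hb
      exact mem_filter.2 ⟨mem_univ _, (ZMod.isUnit_iff_coprime b q).2 (mem_filter.1 hb).2⟩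
    · intro b hb
      refine mem_filter.2 ⟨mem_range.2 (ZMod.val_lt b), ?_⟩
      rw [← ZMod.isUnit_iff_coprime, ZMod.natCast_zmod_val]
      exact (mem_filter.1 hb).2
    · intro b hb
      exact ZMod.val_cast_of_lt (mem_range.1 (mem_filter.1 hb).1)
    · intro b _
      exact ZMod.natCast_zmod_val b
    · intro b _
      simp_rw [b1b_e]
  rw [h3] at h2
  have h4 : ∑ χ : DirichletCharacter ℂ q,
      ‖∑ b : ZMod q, χ b * ∑ n ∈ range N, a n * ZMod.stdAddChar ((n : ZMod q) * b)‖ ^ 2 =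
      ∑ χ : DirichletCharacter ℂ q,
        ‖∑ b : ZMod q, χ⁻¹ b * ∑ n ∈ range N, a n * ZMod.stdAddChar ((n : ZMod q) * b)‖ ^ 2 :=
    (Equiv.sum_comp (Equiv.inv (DirichletCharacter ℂ q)) _).symm
  have h5 : (q : ℝ) * ∑ χ ∈ 𝒳, ‖∑ n ∈ range N, a n * χ (n : ZMod q)‖ ^ 2 ≤
      q * ∑ b ∈ (range q).filter (fun b => Nat.Coprime b q),
          ‖∑ n ∈ range N, a n * e (n * ((b : ℝ) / q))‖ ^ 2 := by
    rw [mul_sum, sum_congr rfl h1]
    refine (sum_le_sum_of_subset_of_nonneg (subset_univ 𝒳) fun χ _ _ => by positivity).trans ?_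
    rw [← h4, h2]
    exact mul_le_mul_of_nonneg_right (by exact_mod_cast Nat.totient_le q)
      (sum_nonneg fun b _ => by positivity)
  exact le_of_mul_le_mul_left h5 hq

end GCN
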