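import Pool.Agent.GCN.B1a
import Pool.Agent.GCN.B1b

/-!
# [GCN-B1] the multiplicative large sieve
-/

set_option autoImplicit false

open Finset

open Pool.Agent.MP_ffd2b5_nt (e)

namespace GCN

/-- [B1c] Proof. Group `𝒲` by the moduli (`Finset.sum_sigma'`, or `𝒲 ⊆ (Icc 1 Q).sigma …`): `prim_one` for every modulus and `farey_all`. -/
theorem large_sieve_prim (Q N : ℕ) (hQ : 1 ≤ Q) (a : ℕ → ℂ) (𝒲 : Finset Ch)
    (h𝒲 : ∀ w ∈ 𝒲, w.2.IsPrimitive ∧ 0 < w.1 ∧ w.1 ≤ Q) :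
    ∑ w ∈ 𝒲, ‖∑ n ∈ range N, a n * w.2 (n : ZMod w.1)‖ ^ 2 ≤
      32 * ((N : ℝ) + (Q : ℝ) ^ 2) * ∑ n ∈ range N, ‖a n‖ ^ 2 := by
  classical
  rw [← Finset.sum_fiberwise_of_maps_to (s := 𝒲) (t := Icc 1 Q) (g := fun w => w.1)
    (fun w hw => mem_Icc.2 ⟨(h𝒲 w hw).2.1, (h𝒲 w hw).2.2⟩)]
  refine le_trans (Finset.sum_le_sum fun q hq => ?_) (farey_all Q N hQ a)
  have hq0 : NeZero q := ⟨by
    have := (mem_Icc.1 hq).1
    omega⟩
  have hinj : Function.Injective (Sigma.mk q : DirichletCharacter ℂ q → Ch) := sigma_mk_injective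
  have h1 : 𝒲.filter (fun w => w.1 = q) =
      (𝒲.preimage (Sigma.mk q) hinj.injOn).image (Sigma.mk q) := by
    ext w
    rw [mem_filter, mem_image]
    constructor
    · rintro ⟨hw, rfl⟩
      exact ⟨w.2, mem_preimage.2 hw, rfl⟩
    · rintro ⟨χ, hχ, rfl⟩
      exact ⟨mem_preimage.1 hχ, rfl⟩
  rw [h1, Finset.sum_image (fun χ _ χ' _ h => hinj h)]
  exact prim_one q N a _ fun χ hχ => (h𝒲 _ (mem_preimage.1 hχ)).1

end GCN
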