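import Pool.Agent.GCN.Defs
import Pool.Agent.MP_ffd2b5_nt.LS2

/-!
# [GCN-B1a] the additive large sieve at all Farey fractions
-/

set_option autoImplicit false

open Finset

open Pool.Agent.MP_ffd2b5_nt (e)

namespace GCN

/-- the numerator of the difference of two fractions is not `0` -/
theorem b1a_ne (q q' b b' : ℕ) (hq : 0 < q) (hq' : 0 < q') (hb : b < q) (hb' : b' < q')
    (hc : Nat.Coprime b q) (hc' : Nat.Coprime b' q') (hne : ¬ (q = q' ∧ b = b')) (m : ℤ) :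
    (b : ℤ) * q' - b' * q - m * (q * q') ≠ 0 := by
  intro h
  have h1 : (q : ℤ) ∣ (b : ℤ) * q' := ⟨b' + m * q', by linear_combination h⟩
  have h2 : (q' : ℤ) ∣ (b' : ℤ) * q := ⟨b - m * q, by linear_combination -h⟩
  have h3 : q ∣ b * q' := by exact_mod_cast h1
  have h4 : q' ∣ b' * q := by exact_mod_cast h2
  have h5 : q ∣ q' := hc.symm.dvd_of_dvd_mul_left h3
  have h6 : q' ∣ q := hc'.symm.dvd_of_dvd_mul_left h4
  have h7 : q = q' := Nat.dvd_antisymm h5 h6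
  subst h7
  have h8 : ((b : ℤ) - b' - m * q) * q = 0 := by linear_combination h
  have h9 : (b : ℤ) - b' - m * q = 0 := by
    rcases mul_eq_zero.1 h8 with h10 | h10
    · exact h10
    · exfalso; omega
  have h11 : (q : ℤ) ∣ (b : ℤ) - b' := ⟨m, by linear_combination h9⟩
  have h12 : (b : ℤ) - b' = 0 := Int.eq_zero_of_abs_lt_dvd h11 (by
    rw [abs_lt]; constructor <;> omega)
  exact hne ⟨rfl, by omega⟩

/-- [B1a] Proof. Like `farey_sieve` in `MP_ffd2b5_nt/LS2.lean`, for all denominators: `large_sieve` (`MP_ffd2b5_nt/LF.lean`) with the points `b/q` (index type `Σ` or `ℕ × ℕ`), `δ = 1/Q²`. Spacing: for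
`(q, b) ≠ (q', b')`: `b/q - b'/q' - m = (b q' - b' q - m q q')/(q q')` with a nonzero integer numerator (if `b/q = b'/q' + m`, the denominators in lowest terms agree: `q = q'`, and then `q ∣ b - b'`,
`|b - b'| < q`: `b = b'`); `1/(q q') ≥ 1/Q²`. `16 (N + Q² + 1) ≤ 32 (N + Q²)`. -/
theorem farey_all (Q N : ℕ) (hQ : 1 ≤ Q) (a : ℕ → ℂ) :
    ∑ q ∈ Icc 1 Q, ∑ b ∈ (range q).filter (fun b => Nat.Coprime b q),
      ‖∑ n ∈ range N, a n * e (n * ((b : ℝ) / q))‖ ^ 2 ≤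
      32 * ((N : ℝ) + (Q : ℝ) ^ 2) * ∑ n ∈ range N, ‖a n‖ ^ 2 := by
  have hx1 : (1 : ℝ) ≤ Q := by exact_mod_cast hQ
  have hx2 : (1 : ℝ) ≤ (Q : ℝ) ^ 2 := by nlinarith
  have hx3 : (0 : ℝ) < (Q : ℝ) ^ 2 := by linarith
  rw [Finset.sum_sigma']
  have key := Pool.Agent.MP_ffd2b5_nt.large_sieve
    ((Icc 1 Q).sigma fun q => (range q).filter (fun b => Nat.Coprime b q))
    (fun r : (_ : ℕ) × ℕ => (r.2 : ℝ) / r.1) (1 / (Q : ℝ) ^ 2) (by positivity)
    (by rw [div_le_one hx3]; exact hx2) ?_ N a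
  · refine key.trans ?_
    apply mul_le_mul_of_nonneg_right _ (Finset.sum_nonneg fun n _ => by positivity)
    rw [one_div_one_div]
    have : (0 : ℝ) ≤ N := Nat.cast_nonneg N
    linarith
  · rintro ⟨q, b⟩ hr ⟨q', b'⟩ hs hne m
    rw [Finset.mem_sigma, Finset.mem_Icc, Finset.mem_filter, Finset.mem_range] at hr hs
    obtain ⟨⟨hq, hqQ⟩, hb, hc⟩ := hr
    obtain ⟨⟨hq', hqQ'⟩, hb', hc'⟩ := hs
    simp only at hq hqQ hb hc hq' hqQ' hb' hc'
    have hz := b1a_ne q q' b b' (by omega) (by omega) hb hb' hc hc' (by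
      rintro ⟨rfl, rfl⟩
      exact hne rfl) m
    have hz1 : (1 : ℝ) ≤ |((b : ℝ) * q' - b' * q - m * (q * q'))| := by
      have h1 : (1 : ℤ) ≤ |(b : ℤ) * q' - b' * q - m * (q * q')| := Int.one_le_abs hz
      exact_mod_cast h1
    have hp0 : (0 : ℝ) < q := by exact_mod_cast (by omega : 0 < q)
    have hp0' : (0 : ℝ) < q' := by exact_mod_cast (by omega : 0 < q')
    have hqq : (q : ℝ) * q' ≤ (Q : ℝ) ^ 2 := by
      rw [sq]
      exact mul_le_mul (by exact_mod_cast hqQ) (by exact_mod_cast hqQ') hp0'.le (by linarith)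
    have e1 : (b : ℝ) / q - (b' : ℝ) / q' - m =
        ((b : ℝ) * q' - b' * q - m * (q * q')) / (q * q') := by
      field_simp
    simp only
    rw [e1, abs_div, abs_of_pos (mul_pos hp0 hp0')]
    calc 1 / (Q : ℝ) ^ 2 ≤ 1 / (q * q') := one_div_le_one_div_of_le (mul_pos hp0 hp0') hqq
      _ ≤ _ := div_le_div_of_nonneg_right hz1 (mul_pos hp0 hp0').le

end GCN
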