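import Pool.Agent.GCN.B2a

/-!
# [GCN-B2] the number of the bad characters
-/

set_option autoImplicit false

open Finset

namespace GCN

/-- combinatorial part: a set of at least `3r/4` indices has a group with `g` members -/
theorem b2_group (r g : ℕ) (hg : 1 ≤ g) (hgr : 8 * g ≤ r) (L : Finset ℕ) (hL : L ⊆ range r)
    (h : 3 * r ≤ 4 * L.card) :
    ∃ i ∈ range (r / (2 * g)), g ≤ (L ∩ Ico (2 * g * i) (2 * g * i + 2 * g)).card := by
  by_contra hcon
  push Not at hcon
  set t := r / (2 * g) with ht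
  have h2g : 0 < 2 * g := by omega
  have h1 : 2 * g * t ≤ r := Nat.mul_div_le r (2 * g)
  have h2 : r < 2 * g * t + 2 * g := by
    have := Nat.lt_mul_div_succ r h2g
    rw [← ht] at this
    linarith
  have hsub : L ⊆ (range t).biUnion (fun i => L ∩ Ico (2 * g * i) (2 * g * i + 2 * g)) ∪ Ico (2 * g * t) r := by
    intro j hj
    have hjr := mem_range.mp (hL hj)
    rw [mem_union, mem_biUnion]
    rcases lt_or_ge j (2 * g * t) with h3 | h3
    · left
      refine ⟨j / (2 * g), ?_, ?_⟩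
      · rw [mem_range]
        exact Nat.div_lt_of_lt_mul h3
      · rw [mem_inter, mem_Ico]
        refine ⟨hj, Nat.mul_div_le j (2 * g), ?_⟩
        have := Nat.lt_mul_div_succ j h2g
        linarith
    · right
      rw [mem_Ico]
      exact ⟨h3, hjr⟩
  have h3 : L.card ≤ t * (g - 1) + (2 * g - 1) := by
    calc L.card ≤ _ := card_le_card hsub
      _ ≤ _ := card_union_le _ _
      _ ≤ t * (g - 1) + (2 * g - 1) := by
        apply Nat.add_le_add
        · have := card_biUnion_le_card_mul (range t)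
            (fun i => L ∩ Ico (2 * g * i) (2 * g * i + 2 * g)) (g - 1) (by
              intro i hi
              have := hcon i hi
              omega)
          rwa [card_range] at this
        · rw [Nat.card_Ico]
          omega
  have h4 : t * (g - 1) + t = t * g := by
    obtain ⟨k, rfl⟩ : ∃ k, g = k + 1 := ⟨g - 1, by omega⟩
    simp
    ring
  have h5 : 2 * g * t = 2 * (t * g) := by ring
  have h6 : L.card + 1 ≤ t * (g - 1) + 2 * g := by omega
  rw [h5] at h1 h2
  clear_value t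
  clear hcon hsub ht h5 h3 hL
  generalize t * (g - 1) = d at *
  generalize t * g = e at *
  omega

/-- [B2b] Proof. Let `t = r/(2g)` (integer part) and consider the `t` groups `{2gi, …, 2gi + 2g - 1}`, `i < t`. If fewer than `g` indices were large in every group, the number of large indices would be at most
`t (g-1) + (2g - 1) < r/2 + 2g ≤ 3r/4` (`8g ≤ r`), against `Bad`. So every `w ∈ 𝒲` has a group and a set `I` of `g` large indices in it. The number of the sets `I` is at most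
`t·C(2g, g) ≤ r 4^g` (`Nat.choose_le`/`Nat.centralBinom ≤ 4^g`), and for each one `large_set` applies. -/
theorem bad_count (A : ℕ → Finset ℕ) (r m z g Q : ℕ) (hg : 1 ≤ g) (hgr : 8 * g ≤ r) (hz : 2 ≤ z)
    (hm : 1 ≤ m) (hA : ∀ j < r, (∀ a ∈ A j, a.Prime ∧ a ≤ z) ∧ (A j).card = m)
    (hdis : ∀ i < r, ∀ j < r, i ≠ j → Disjoint (A i) (A j)) (hQ : 1 ≤ Q) (hQz : Q ^ 2 ≤ z ^ g)
    (𝒲 : Finset Ch) (h𝒲 : ∀ w ∈ 𝒲, Bad A r m w ∧ 0 < w.1 ∧ w.1 ≤ Q) :
    (𝒲.card : ℝ) ≤ 96 * r * (1024 * (z : ℝ) / m) ^ g := by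
  classical
  set t := r / (2 * g) with ht
  have h2g : 0 < 2 * g := by omega
  have h1 : 2 * g * t ≤ r := Nat.mul_div_le r (2 * g)
  set B : ℝ := 96 * (256 * (z : ℝ) / m) ^ g with hB
  have hB0 : 0 ≤ B := by positivity
  set P : Finset ℕ → Finset Ch := fun I => 𝒲.filter (fun w => ∀ j ∈ I, (m : ℝ) / 16 ≤ ‖∑ a ∈ A j, w.2 (a : ZMod w.1)‖) with hP
  have hsub : 𝒲 ⊆ (range t).biUnion (fun i => (powersetCard g (Ico (2 * g * i) (2 * g * i + 2 * g))).biUnion P) := by
    intro w hw
    have hb := (h𝒲 w hw).1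
    obtain ⟨i, hi, hcard⟩ := b2_group r g hg hgr _ (filter_subset _ _) hb.2
    obtain ⟨I, hI1, hI2⟩ := exists_subset_card_eq hcard
    rw [mem_biUnion]
    refine ⟨i, hi, ?_⟩
    rw [mem_biUnion]
    refine ⟨I, ?_, ?_⟩
    · rw [mem_powersetCard]
      exact ⟨hI1.trans inter_subset_right, hI2⟩
    · rw [hP, mem_filter]
      refine ⟨hw, fun j hj => ?_⟩
      exact (mem_filter.mp (mem_inter.mp (hI1 hj)).1).2
  have hPc : ∀ i ∈ range t, ∀ I ∈ powersetCard g (Ico (2 * g * i) (2 * g * i + 2 * g)), ((P I).card : ℝ) ≤ B := by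
    intro i hi I hI
    rw [mem_powersetCard] at hI
    rw [mem_range] at hi
    have hlt : ∀ j ∈ I, j < r := by
      intro j hj
      have h3 := (mem_Ico.mp (hI.1 hj)).2
      have h4 : 2 * g * i + 2 * g ≤ 2 * g * t := by
        have : 2 * g * (i + 1) ≤ 2 * g * t := Nat.mul_le_mul_left _ hi
        linarith
      omega
    apply large_set A I m z g Q hI.2 hz hm (fun j hj => hA j (hlt j hj))
      (fun i hi j hj hij => hdis i (hlt i hi) j (hlt j hj) hij) hQ hQz
    intro w hw
    rw [hP, mem_filter] at hw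
    obtain ⟨h5, h6, h7⟩ := h𝒲 w hw.1
    exact ⟨h5.1, h6, h7, hw.2⟩
  have h2 : (𝒲.card : ℝ) ≤ ∑ i ∈ range t, ∑ I ∈ powersetCard g (Ico (2 * g * i) (2 * g * i + 2 * g)), ((P I).card : ℝ) := by
    have h3 : 𝒲.card ≤ ∑ i ∈ range t, ∑ I ∈ powersetCard g (Ico (2 * g * i) (2 * g * i + 2 * g)), (P I).card := by
      refine (card_le_card hsub).trans (card_biUnion_le.trans ?_)
      exact sum_le_sum (fun i _ => card_biUnion_le)
    exact_mod_cast h3
  have h3 : ∑ i ∈ range t, ∑ I ∈ powersetCard g (Ico (2 * g * i) (2 * g * i + 2 * g)), ((P I).card : ℝ) ≤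
      ∑ i ∈ range t, ∑ I ∈ powersetCard g (Ico (2 * g * i) (2 * g * i + 2 * g)), B :=
    sum_le_sum (fun i hi => sum_le_sum (fun I hI => hPc i hi I hI))
  have h4 : ∑ i ∈ range t, ∑ I ∈ powersetCard g (Ico (2 * g * i) (2 * g * i + 2 * g)), B =
      t * (((2 * g).choose g : ℕ) * B) := by
    have : ∀ i ∈ range t, ∑ I ∈ powersetCard g (Ico (2 * g * i) (2 * g * i + 2 * g)), B =
        ((2 * g).choose g : ℕ) * B := by
      intro i _
      rw [sum_const, card_powersetCard, Nat.card_Ico, nsmul_eq_mul]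
      congr 3
      omega
    rw [sum_congr rfl this, sum_const, card_range, nsmul_eq_mul]
  have h5 : (t : ℝ) ≤ r := by
    have : t ≤ r := Nat.div_le_self _ _
    exact_mod_cast this
  have h6 : (((2 * g).choose g : ℕ) : ℝ) ≤ 4 ^ g := by
    have : (2 * g).choose g ≤ 2 ^ (2 * g) := Nat.choose_le_two_pow (2 * g) g
    rw [pow_mul] at this
    exact_mod_cast this
  calc (𝒲.card : ℝ) ≤ _ := h2
    _ ≤ _ := h3
    _ = _ := h4
    _ ≤ (r : ℝ) * (4 ^ g * B) := by
      apply mul_le_mul h5 _ (by positivity) (Nat.cast_nonneg _)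
      exact mul_le_mul_of_nonneg_right h6 hB0
    _ = 96 * r * (1024 * (z : ℝ) / m) ^ g := by
      rw [hB]
      have : (1024 * (z : ℝ) / m) = 4 * (256 * (z : ℝ) / m) := by ring
      rw [this, mul_pow]
      ring

end GCN
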