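import Pool.Agent.GCN.B1

/-!
# [GCN-B2a] characters with many large sums
-/

set_option autoImplicit false

open Finset

namespace GCN

/-- [B2a] Proof. `∏_{j ∈ I} ∑_{a ∈ A j} w(a) = ∑_n c n w(n)` with `c n` = number of the tuples `(a_j)_{j ∈ I}`, `a_j ∈ A j`, with product `n` (`Finset.prod_univ_sum`/`Finset.prod_sum`, multiplicativity of `w`). The blocks are
disjoint sets of primes, so by unique factorization `c n ∈ {0, 1}` (the tuple is determined by the set of the primes dividing `n`), `c n = 0` for `n > z^g`, `∑ c n = m^g`.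
`large_sieve_prim` with `N = z^g + 1`: `#𝒲 (m/16)^(2g) ≤ 32 (z^g + 1 + Q²) m^g ≤ 96 z^g m^g`. -/
theorem large_set (A : ℕ → Finset ℕ) (I : Finset ℕ) (m z g Q : ℕ) (hI : I.card = g) (hz : 2 ≤ z) (hm : 1 ≤ m)
    (hA : ∀ j ∈ I, (∀ a ∈ A j, a.Prime ∧ a ≤ z) ∧ (A j).card = m)
    (hdis : ∀ i ∈ I, ∀ j ∈ I, i ≠ j → Disjoint (A i) (A j)) (hQ : 1 ≤ Q) (hQz : Q ^ 2 ≤ z ^ g)
    (𝒲 : Finset Ch) (h𝒲 : ∀ w ∈ 𝒲, w.2.IsPrimitive ∧ 0 < w.1 ∧ w.1 ≤ Q ∧
      ∀ j ∈ I, (m : ℝ) / 16 ≤ ‖∑ a ∈ A j, w.2 (a : ZMod w.1)‖) :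
    (𝒲.card : ℝ) ≤ 96 * (256 * (z : ℝ) / m) ^ g := by
  classical
  obtain ⟨T, hT⟩ : ∃ T : Finset (∀ j ∈ I, ℕ), T = I.pi A := ⟨_, rfl⟩
  obtain ⟨P, hP⟩ : ∃ P : (∀ j ∈ I, ℕ) → ℕ, ∀ f, P f = ∏ x ∈ I.attach, f x.1 x.2 := ⟨_, fun _ => rfl⟩
  have hTm : ∀ f ∈ T, ∀ j (hj : j ∈ I), f j hj ∈ A j := by
    intro f hf j hj
    rw [hT, Finset.mem_pi] at hf
    exact hf j hj
  have hTc : T.card = m ^ g := by
    rw [hT, Finset.card_pi, Finset.prod_congr rfl (fun j hj => (hA j hj).2), Finset.prod_const, hI]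
  have hinj : Set.InjOn P T := by
    intro f hf f' hf' h
    funext j hj
    have hpr := ((hA j hj).1 _ (hTm f hf j hj)).1
    have h1 : f j hj ∣ P f' := by
      rw [← h, hP]
      exact Finset.dvd_prod_of_mem (fun x : I => f x.1 x.2) (Finset.mem_attach I ⟨j, hj⟩)
    rw [hP, Prime.dvd_finsetProd_iff hpr.prime] at h1
    obtain ⟨i, -, hi⟩ := h1
    have hpr' := ((hA i.1 i.2).1 _ (hTm f' hf' i.1 i.2)).1
    have h2 : f j hj = f' i.1 i.2 := (Nat.prime_dvd_prime_iff_eq hpr hpr').1 hi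
    by_cases hij : j = i.1
    · subst hij
      exact h2
    · exfalso
      have h3 := hTm f hf j hj
      rw [h2] at h3
      exact (Finset.disjoint_left.1 (hdis j hj i.1 i.2 hij) h3) (hTm f' hf' i.1 i.2)
  have hPle : ∀ f ∈ T, P f ≤ z ^ g := by
    intro f hf
    rw [hP, ← hI, ← Finset.card_attach]
    exact Finset.prod_le_pow_card _ _ _ fun x _ => ((hA x.1 x.2).1 _ (hTm f hf x.1 x.2)).2
  have hls := large_sieve_prim Q (z ^ g + 1) hQ (fun n => if n ∈ T.image P then (1 : ℂ) else 0) 𝒲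
    (fun w hw => ⟨(h𝒲 w hw).1, (h𝒲 w hw).2.1, (h𝒲 w hw).2.2.1⟩)
  have hsub : T.image P ⊆ range (z ^ g + 1) := by
    intro n hn
    obtain ⟨f, hf, rfl⟩ := mem_image.1 hn
    exact mem_range.2 (Nat.lt_succ_of_le (hPle f hf))
  have hr : ∑ n ∈ range (z ^ g + 1), ‖(if n ∈ T.image P then (1 : ℂ) else 0)‖ ^ 2 = (m : ℝ) ^ g := by
    have h1 : ∀ n ∈ range (z ^ g + 1), ‖(if n ∈ T.image P then (1 : ℂ) else 0)‖ ^ 2 =
        if n ∈ T.image P then (1 : ℝ) else 0 := by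
      intro n _
      split_ifs <;> simp
    rw [Finset.sum_congr rfl h1, ← Finset.sum_filter, Finset.filter_mem_eq_inter,
      Finset.inter_eq_right.2 hsub, Finset.sum_const, nsmul_eq_mul, mul_one,
      Finset.card_image_of_injOn hinj, hTc]
    push_cast
    rfl
  rw [hr] at hls
  have hl : ∀ w ∈ 𝒲, ((m : ℝ) / 16) ^ (2 * g) ≤
      ‖∑ n ∈ range (z ^ g + 1), (if n ∈ T.image P then (1 : ℂ) else 0) * w.2 (n : ZMod w.1)‖ ^ 2 := by
    intro w hw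
    have h1 : ∑ n ∈ range (z ^ g + 1), (if n ∈ T.image P then (1 : ℂ) else 0) * w.2 (n : ZMod w.1) =
        ∏ j ∈ I, ∑ a ∈ A j, w.2 (a : ZMod w.1) := by
      have h2 : ∀ n ∈ range (z ^ g + 1), (if n ∈ T.image P then (1 : ℂ) else 0) * w.2 (n : ZMod w.1) =
          if n ∈ T.image P then w.2 (n : ZMod w.1) else 0 := by
        intro n _
        split_ifs
        · rw [one_mul]
        · rw [zero_mul]
      rw [Finset.sum_congr rfl h2, ← Finset.sum_filter, Finset.filter_mem_eq_inter,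
        Finset.inter_eq_right.2 hsub, Finset.sum_image hinj, Finset.prod_sum, hT]
      refine Finset.sum_congr rfl fun f _ => ?_
      rw [hP, Nat.cast_prod, map_prod]
    rw [h1, norm_prod, mul_comm 2 g, pow_mul]
    refine pow_le_pow_left₀ (by positivity) ?_ 2
    rw [← hI, ← Finset.prod_const]
    exact Finset.prod_le_prod (fun j _ => by positivity) fun j hj => (h𝒲 w hw).2.2.2 j hj
  have hm0 : (0 : ℝ) < m := by exact_mod_cast hm
  have hz0 : (0 : ℝ) < z := by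
    have : 0 < z := by omega
    exact_mod_cast this
  have h3 : (𝒲.card : ℝ) * ((m : ℝ) / 16) ^ (2 * g) ≤
      32 * (((z ^ g + 1 : ℕ) : ℝ) + (Q : ℝ) ^ 2) * (m : ℝ) ^ g := by
    refine le_trans ?_ hls
    rw [← nsmul_eq_mul, ← Finset.sum_const]
    exact Finset.sum_le_sum hl
  have h4 : ((z ^ g + 1 : ℕ) : ℝ) + (Q : ℝ) ^ 2 ≤ 3 * (z : ℝ) ^ g := by
    have h5 : (Q : ℝ) ^ 2 ≤ (z : ℝ) ^ g := by exact_mod_cast hQz
    have h6 : (1 : ℝ) ≤ (z : ℝ) ^ g := by exact_mod_cast Nat.one_le_pow g z (by omega)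
    push_cast
    linarith
  have h5 : (𝒲.card : ℝ) * ((m : ℝ) / 16) ^ (2 * g) ≤ 96 * (z : ℝ) ^ g * (m : ℝ) ^ g := by
    refine h3.trans ?_
    have h7 : 32 * (((z ^ g + 1 : ℕ) : ℝ) + (Q : ℝ) ^ 2) ≤ 96 * (z : ℝ) ^ g := by linarith
    exact mul_le_mul_of_nonneg_right h7 (by positivity)
  have h6 : 96 * (z : ℝ) ^ g * (m : ℝ) ^ g = 96 * (256 * (z : ℝ) / m) ^ g * ((m : ℝ) / 16) ^ (2 * g) := by
    have e1 : ((m : ℝ) / 16) ^ (2 * g) = ((m : ℝ) ^ 2 / 256) ^ g := by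
      rw [pow_mul]
      congr 1
      ring
    rw [e1, mul_assoc, mul_assoc, ← mul_pow, ← mul_pow]
    congr 2
    field_simp
  rw [h6] at h5
  exact le_of_mul_le_mul_right h5 (by positivity)

end GCN
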