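import Pool.Agent.GCN.B2

/-!
# [GCN-B3] the weighted number of the bad characters
-/

set_option autoImplicit false

open Finset

namespace GCN

theorem b3_g (z Q : ℕ) (hz : 2 ≤ z) (hQ : 1 ≤ Q) :
    ∃ g : ℕ, 1 ≤ g ∧ Q ^ 2 ≤ z ^ g ∧ z ^ g ≤ z * Q ^ 2 := by
  rcases Nat.lt_or_ge Q 2 with h | h
  · have : Q = 1 := by omega
    subst this
    exact ⟨1, le_refl _, by simp; omega, by simp⟩
  · have h4 : 1 < Q ^ 2 := by nlinarith
    have h1 : 0 < Nat.clog z (Q ^ 2) := Nat.clog_pos (by omega) h4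
    refine ⟨Nat.clog z (Q ^ 2), h1, Nat.le_pow_clog (by omega) _, ?_⟩
    have h2 := Nat.pow_pred_clog_lt_self (b := z) (by omega) h4
    obtain ⟨k, hk⟩ : ∃ k, Nat.clog z (Q ^ 2) = k + 1 := ⟨Nat.clog z (Q ^ 2) - 1, by omega⟩
    rw [hk] at h2 ⊢
    rw [pow_succ, mul_comm]
    apply Nat.mul_le_mul_left
    simpa using h2.le

theorem b3_bound (ε : ℝ) (hε : 0 < ε) (hε1 : ε ≤ 1 / 10) (z m g Q : ℕ) (hz : 2 ≤ z) (hQ : 1 ≤ Q)
    (hm : 1024 * (z : ℝ) ^ (1 / 2 + 3 * ε / 4) ≤ m) (hg : z ^ g ≤ z * Q ^ 2) :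
    (1024 * (z : ℝ) / m) ^ g ≤ (z : ℝ) ^ ((1 : ℝ) / 2) * (Q : ℝ) ^ (1 - ε) := by
  have hz' : (2 : ℝ) ≤ z := by exact_mod_cast hz
  have hz0 : (0 : ℝ) < z := by linarith
  have hQ' : (1 : ℝ) ≤ Q := by exact_mod_cast hQ
  have hQ0 : (0 : ℝ) < Q := by linarith
  have hzp : 0 < (z : ℝ) ^ (1 / 2 + 3 * ε / 4) := Real.rpow_pos_of_pos hz0 _
  have hmpos : (0 : ℝ) < m := by linarith
  set θ : ℝ := 1 / 2 - 3 * ε / 4 with hθ
  have hθ0 : 0 ≤ θ := by rw [hθ]; linarith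
  have h1 : 1024 * (z : ℝ) / m ≤ (z : ℝ) ^ θ := by
    rw [div_le_iff₀ hmpos]
    have h2 : (z : ℝ) ^ θ * (1024 * (z : ℝ) ^ (1 / 2 + 3 * ε / 4)) ≤ (z : ℝ) ^ θ * m :=
      mul_le_mul_of_nonneg_left hm (Real.rpow_nonneg hz0.le _)
    have h3 : (z : ℝ) ^ θ * (1024 * (z : ℝ) ^ (1 / 2 + 3 * ε / 4)) = 1024 * z := by
      have : (z : ℝ) ^ θ * (z : ℝ) ^ (1 / 2 + 3 * ε / 4) = z := by
        rw [← Real.rpow_add hz0, hθ]
        have : 1 / 2 - 3 * ε / 4 + (1 / 2 + 3 * ε / 4) = 1 := by ring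
        rw [this, Real.rpow_one]
      calc _ = 1024 * ((z : ℝ) ^ θ * (z : ℝ) ^ (1 / 2 + 3 * ε / 4)) := by ring
        _ = _ := by rw [this]
    linarith
  have h2 : (1024 * (z : ℝ) / m) ^ g ≤ ((z : ℝ) ^ θ) ^ g := pow_le_pow_left₀ (by positivity) h1 g
  have h3 : ((z : ℝ) ^ θ) ^ g = ((z : ℝ) ^ g) ^ θ := by
    rw [← Real.rpow_natCast, ← Real.rpow_mul hz0.le, mul_comm, Real.rpow_mul hz0.le, Real.rpow_natCast]
  have h4 : ((z : ℝ) ^ g) ^ θ ≤ ((z : ℝ) * (Q : ℝ) ^ 2) ^ θ := by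
    apply Real.rpow_le_rpow (by positivity) _ hθ0
    exact_mod_cast hg
  have h5 : ((z : ℝ) * (Q : ℝ) ^ 2) ^ θ = (z : ℝ) ^ θ * (Q : ℝ) ^ (2 * θ) := by
    rw [Real.mul_rpow hz0.le (by positivity), ← Real.rpow_natCast (Q : ℝ) 2, ← Real.rpow_mul hQ0.le]
    norm_num
  have h6 : (z : ℝ) ^ θ ≤ (z : ℝ) ^ ((1 : ℝ) / 2) :=
    Real.rpow_le_rpow_of_exponent_le (by linarith) (by rw [hθ]; linarith)
  have h7 : (Q : ℝ) ^ (2 * θ) ≤ (Q : ℝ) ^ (1 - ε) :=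
    Real.rpow_le_rpow_of_exponent_le hQ' (by rw [hθ]; linarith)
  calc _ ≤ _ := h2
    _ = _ := h3
    _ ≤ _ := h4
    _ = _ := h5
    _ ≤ _ := mul_le_mul h6 h7 (Real.rpow_nonneg hQ0.le _) (Real.rpow_nonneg hz0.le _)

/-- [B3a] Proof. Dyadic: for `i ≤ log₂ X0 + 1` let `𝒲_i` be the `w` with `2^i ≤ 2 w.1 < 2^(i+1)`, i.e. `Q/2 ≤ w.1 < Q`, `Q = 2^i`, `1 ≤ Q ≤ 2 X0`. Let `g ≥ 1` be minimal with `Q² ≤ z^g`: `z^g ≤ z Q²` and
`g ≤ 2 log Q/log z + 1`, so `8 g ≤ r`. `bad_count`: `#𝒲_i ≤ 96 r (1024 z/m)^g`; `1024 z/m ≤ z^(1/2 - 3ε/4)`, so `(1024 z/m)^g ≤ (z^g)^(1/2-3ε/4) ≤ (z Q²)^(1/2-3ε/4) ≤ z^(1/2) Q^(1-3ε/2)`. The contribution of `𝒲_i`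
is at most `96 r z^(1/2) Q^(1-3ε/2) (Q/2)^(-(1-ε)) ≤ 192 r z^(1/2)` (`Q ≥ 1`); there are at most `log₂ X0 + 3 ≤ z + 3` indices `i`, `r ≤ z`: total `≤ 192 z^(3/2) (z+3) ≤ z^3` for `z ≥ z0`. -/
theorem bad_sum : ∃ z0 : ℕ, ∀ (ε : ℝ) (A : ℕ → Finset ℕ) (r m z X0 : ℕ), 0 < ε → ε ≤ 1 / 10 → z0 ≤ z →
    r ≤ z → 1 ≤ X0 → X0 ≤ 2 ^ z → 1024 * (z : ℝ) ^ (1 / 2 + 3 * ε / 4) ≤ m →
    8 * (2 * Real.log (2 * X0) / Real.log z + 1) ≤ r →
    (∀ j < r, (∀ a ∈ A j, a.Prime ∧ a ≤ z) ∧ (A j).card = m) →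
    (∀ i < r, ∀ j < r, i ≠ j → Disjoint (A i) (A j)) →
    ∀ 𝒲 : Finset Ch, (∀ w ∈ 𝒲, Bad A r m w ∧ 0 < w.1 ∧ w.1 ≤ X0) →
      ∑ w ∈ 𝒲, (w.1 : ℝ) ^ (-(1 - ε)) ≤ (z : ℝ) ^ 3 := by
  refine ⟨147456, ?_⟩
  intro ε A r m z X0 hε hε1 hz0 hrz hX0 hX0z hm hr hA hdis 𝒲 h𝒲
  classical
  have hz2 : 2 ≤ z := by omega
  have hz' : (147456 : ℝ) ≤ z := by exact_mod_cast hz0
  have hzpos : (0 : ℝ) < z := by linarith
  have hlz : 0 < Real.log z := Real.log_pos (by linarith)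
  have hm1 : 1 ≤ m := by
    have h1 : (0 : ℝ) < m := by
      have := Real.rpow_pos_of_pos hzpos (1 / 2 + 3 * ε / 4)
      linarith
    exact_mod_cast h1
  have hmaps : ∀ w ∈ 𝒲, Nat.log 2 w.1 ∈ range (z + 1) := by
    intro w hw
    obtain ⟨_, h1, h2⟩ := h𝒲 w hw
    rw [mem_range]
    have h3 : Nat.log 2 w.1 ≤ Nat.log 2 (2 ^ z) := Nat.log_mono_right (h2.trans hX0z)
    rw [Nat.log_pow (by norm_num)] at h3
    omega
  rw [← sum_fiberwise_of_maps_to hmaps]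
  have hone : ∀ i ∈ range (z + 1), ∑ w ∈ 𝒲.filter (fun w => Nat.log 2 w.1 = i), (w.1 : ℝ) ^ (-(1 - ε)) ≤
      192 * z * (z : ℝ) ^ ((1 : ℝ) / 2) := by
    intro i _
    rcases (𝒲.filter (fun w => Nat.log 2 w.1 = i)).eq_empty_or_nonempty with hem | ⟨w0, hw0⟩
    · rw [hem, sum_empty]; positivity
    set Q : ℕ := 2 ^ (i + 1) with hQ
    have hQ1 : 1 ≤ Q := Nat.one_le_two_pow
    have hQX : Q ≤ 2 * X0 := by
      rw [mem_filter] at hw0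
      obtain ⟨_, h1, h2⟩ := h𝒲 w0 hw0.1
      have h3 := Nat.pow_log_le_self 2 (x := w0.1) (by omega)
      rw [hw0.2] at h3
      rw [hQ, pow_succ]
      omega
    obtain ⟨g, hg1, hg2, hg3⟩ := b3_g z Q hz2 hQ1
    have hQ0 : (0 : ℝ) < Q := by exact_mod_cast hQ1
    have h8 : 8 * g ≤ r := by
      have h1 : (g : ℝ) * Real.log z ≤ Real.log z + 2 * Real.log Q := by
        have h2 : ((z ^ g : ℕ) : ℝ) ≤ ((z * Q ^ 2 : ℕ) : ℝ) := by exact_mod_cast hg3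
        push_cast at h2
        have h3 := Real.log_le_log (by positivity) h2
        rw [Real.log_pow, Real.log_mul (by positivity) (by positivity), Real.log_pow] at h3
        exact_mod_cast h3
      have h2 : (g : ℝ) ≤ 2 * Real.log Q / Real.log z + 1 := by
        rw [div_add_one hlz.ne', le_div_iff₀ hlz]
        linarith
      have h3 : Real.log Q ≤ Real.log (2 * X0) := by
        apply Real.log_le_log hQ0
        exact_mod_cast hQX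
      have h4 : 2 * Real.log Q / Real.log z ≤ 2 * Real.log (2 * X0) / Real.log z :=
        div_le_div_of_nonneg_right (by linarith) hlz.le
      have h5 : ((8 * g : ℕ) : ℝ) ≤ r := by push_cast; linarith
      exact_mod_cast h5
    have hcount := bad_count A r m z g Q hg1 h8 hz2 hm1 hA hdis hQ1 hg2
      (𝒲.filter (fun w => Nat.log 2 w.1 = i)) (by
        intro w hw
        rw [mem_filter] at hw
        obtain ⟨h1, h2, h3⟩ := h𝒲 w hw.1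
        refine ⟨h1, h2, ?_⟩
        have h4 := Nat.lt_pow_succ_log_self (b := 2) (by norm_num) w.1
        rw [hw.2] at h4
        exact h4.le)
    have hbd := b3_bound ε hε hε1 z m g Q hz2 hQ1 hm hg3
    have hterm : ∀ w ∈ 𝒲.filter (fun w => Nat.log 2 w.1 = i), (w.1 : ℝ) ^ (-(1 - ε)) ≤
        2 * (Q : ℝ) ^ (-(1 - ε)) := by
      intro w hw
      rw [mem_filter] at hw
      obtain ⟨h1, h2, h3⟩ := h𝒲 w hw.1
      have h4 := Nat.pow_log_le_self 2 (x := w.1) (by omega)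
      rw [hw.2] at h4
      have h5 : (Q : ℝ) / 2 ≤ w.1 := by
        have : Q ≤ 2 * w.1 := by rw [hQ, pow_succ]; omega
        have h6 : (Q : ℝ) ≤ 2 * w.1 := by exact_mod_cast this
        linarith
      have h6 : (w.1 : ℝ) ^ (-(1 - ε)) ≤ ((Q : ℝ) / 2) ^ (-(1 - ε)) :=
        Real.rpow_le_rpow_of_nonpos (by positivity) h5 (by linarith)
      have h7 : ((Q : ℝ) / 2) ^ (-(1 - ε)) = 2 ^ (1 - ε) * (Q : ℝ) ^ (-(1 - ε)) := by
        rw [Real.div_rpow hQ0.le (by norm_num), Real.rpow_neg (by norm_num : (0 : ℝ) ≤ 2), div_inv_eq_mul, mul_comm]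
      have h8 : (2 : ℝ) ^ (1 - ε) ≤ 2 := by
        calc (2 : ℝ) ^ (1 - ε) ≤ 2 ^ (1 : ℝ) := Real.rpow_le_rpow_of_exponent_le (by norm_num) (by linarith)
          _ = 2 := Real.rpow_one 2
      rw [h7] at h6
      exact h6.trans (mul_le_mul_of_nonneg_right h8 (Real.rpow_nonneg hQ0.le _))
    calc _ ≤ ∑ w ∈ 𝒲.filter (fun w => Nat.log 2 w.1 = i), 2 * (Q : ℝ) ^ (-(1 - ε)) := sum_le_sum hterm
      _ = ((𝒲.filter (fun w => Nat.log 2 w.1 = i)).card : ℝ) * (2 * (Q : ℝ) ^ (-(1 - ε))) := by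
        rw [sum_const, nsmul_eq_mul]
      _ ≤ (96 * r * ((z : ℝ) ^ ((1 : ℝ) / 2) * (Q : ℝ) ^ (1 - ε))) * (2 * (Q : ℝ) ^ (-(1 - ε))) := by
        apply mul_le_mul_of_nonneg_right _ (by positivity)
        exact hcount.trans (mul_le_mul_of_nonneg_left hbd (by positivity))
      _ = 192 * r * (z : ℝ) ^ ((1 : ℝ) / 2) * ((Q : ℝ) ^ (1 - ε) * (Q : ℝ) ^ (-(1 - ε))) := by ring
      _ = 192 * r * (z : ℝ) ^ ((1 : ℝ) / 2) := by
        rw [← Real.rpow_add hQ0]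
        simp
      _ ≤ 192 * z * (z : ℝ) ^ ((1 : ℝ) / 2) := by
        have : (r : ℝ) ≤ z := by exact_mod_cast hrz
        gcongr
  calc _ ≤ ∑ i ∈ range (z + 1), 192 * z * (z : ℝ) ^ ((1 : ℝ) / 2) := sum_le_sum hone
    _ = (z + 1) * (192 * z * (z : ℝ) ^ ((1 : ℝ) / 2)) := by
      rw [sum_const, card_range, nsmul_eq_mul]; push_cast; ring
    _ ≤ (2 * z) * (192 * z * (z : ℝ) ^ ((1 : ℝ) / 2)) := by
      apply mul_le_mul_of_nonneg_right _ (by positivity)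
      linarith
    _ = (z : ℝ) ^ 2 * (384 * (z : ℝ) ^ ((1 : ℝ) / 2)) := by ring
    _ ≤ (z : ℝ) ^ 2 * z := by
      apply mul_le_mul_of_nonneg_left _ (by positivity)
      rw [← Real.sqrt_eq_rpow]
      have h1 : (384 : ℝ) ≤ Real.sqrt z := by
        apply Real.le_sqrt_of_sq_le
        norm_num
        linarith
      calc 384 * Real.sqrt z ≤ Real.sqrt z * Real.sqrt z :=
            mul_le_mul_of_nonneg_right h1 (Real.sqrt_nonneg _)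
        _ = z := Real.mul_self_sqrt hzpos.le
    _ = (z : ℝ) ^ 3 := by ring

/-- [B3b] Proof. `DirichletCharacter ℂ n` is finite for `n ≠ 0`. -/
theorem finite_mod (X : ℕ) : {w : Ch | 0 < w.1 ∧ w.1 ≤ X}.Finite := by
  have h : {w : Ch | 0 < w.1 ∧ w.1 ≤ X} =
      ⋃ n ∈ (Set.Icc 1 X : Set ℕ), Set.range (fun χ : DirichletCharacter ℂ n => (⟨n, χ⟩ : Ch)) := by
    ext w
    simp only [Set.mem_ofPred_eq, Set.mem_iUnion, Set.mem_range, Set.mem_Icc, exists_prop]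
    constructor
    · intro hw
      exact ⟨w.1, ⟨hw.1, hw.2⟩, w.2, rfl⟩
    · rintro ⟨n, ⟨h1, h2⟩, χ, rfl⟩
      exact ⟨h1, h2⟩
  rw [h]
  apply Set.Finite.biUnion (Set.finite_Icc 1 X)
  intro n hn
  have : NeZero n := ⟨by have := hn.1; omega⟩
  have : Finite (DirichletCharacter ℂ n) := inferInstance
  exact Set.finite_range _

end GCN
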