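import Pool.Agent.GCN.Defs
import Pool.Agent.LBS.S2

/-!
# [GCN-C1] an upper bound sieve with at most two forbidden classes modulo every prime
-/

set_option autoImplicit false

open Finset

namespace GCN

open Pool.Agent.MP_f32cb9_nt in
open Pool.Agent.LBS in
/-- every large prime is in a block -/
theorem c1_block {p n : ℕ} (hp : p.Prime) (h1 : 1024 < p) (h2 : p < 2 ^ (10 * 2 ^ n)) :
    ∃ i < n, p ∈ BK i := by
  have hex : ∃ j : ℕ, p ≤ 2 ^ (10 * 2 ^ j) := ⟨n, h2.le⟩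
  classical
  set j := Nat.find hex with hj
  have hj1 : p ≤ 2 ^ (10 * 2 ^ j) := Nat.find_spec hex
  have hjm : j ≤ n := Nat.find_min' hex h2.le
  have hj0 : j ≠ 0 := by
    intro h0
    rw [h0] at hj1
    norm_num at hj1
    omega
  obtain ⟨i, hi⟩ := Nat.exists_eq_succ_of_ne_zero hj0
  have hi1 : ¬ p ≤ 2 ^ (10 * 2 ^ i) := Nat.find_min hex (by omega)
  refine ⟨i, by omega, ?_⟩
  rw [mem_BK]
  refine ⟨by omega, ?_, hp⟩
  rw [← Nat.succ_eq_add_one, ← hi]
  exact hj1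

open Pool.Agent.MP_f32cb9_nt in
open Pool.Agent.LBS in
theorem c1_VV {R : ℕ → Finset ℕ} (hR : Adm R) (hR0 : ∀ p, p ≤ 1024 → R p = ∅) {v n : ℕ}
    (hv : v < 2 ^ (10 * 2 ^ n)) :
    VV R BK n ≤ ∏ p ∈ Nat.primesLE v, (1 - dens R p) := by
  classical
  have h1 : ∏ p ∈ (Nat.primesLE v).filter (fun p => 1024 < p), (1 - dens R p) =
      ∏ p ∈ Nat.primesLE v, (1 - dens R p) := by
    apply Finset.prod_filter_of_ne
    intro p _ hne
    by_contra hc
    apply hne
    unfold Pool.Agent.MP_f32cb9_nt.dens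
    rw [hR0 p (by omega)]
    simp
  have h2 : VV R BK n = ∏ p ∈ (range n).biUnion BK, (1 - dens R p) := by
    rw [Finset.prod_biUnion (fun i _ j _ hij => BK_disj hij)]
    rfl
  have h3 : (Nat.primesLE v).filter (fun p => 1024 < p) ⊆ (range n).biUnion BK := by
    intro p hp
    rw [mem_filter, Nat.mem_primesLE] at hp
    obtain ⟨i, hi, hpi⟩ := c1_block (n := n) hp.1.2 hp.2 (by omega)
    rw [mem_biUnion]
    exact ⟨i, mem_range.mpr hi, hpi⟩
  have hf : ∀ p ∈ (range n).biUnion BK, 0 ≤ 1 - dens R p ∧ 1 - dens R p ≤ 1 := by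
    intro p hp
    rw [mem_biUnion] at hp
    obtain ⟨i, _, hpi⟩ := hp
    have := dens_BK hR hpi
    constructor <;> linarith
  rw [← h1, h2, ← Finset.prod_sdiff h3]
  have h4 : ∏ p ∈ (range n).biUnion BK \ (Nat.primesLE v).filter (fun p => 1024 < p),
      (1 - dens R p) ≤ 1 := by
    apply Finset.prod_le_one
    · intro p hp
      exact (hf p (mem_sdiff.mp hp).1).1
    · intro p hp
      exact (hf p (mem_sdiff.mp hp).1).2
  have h5 : 0 ≤ ∏ p ∈ (Nat.primesLE v).filter (fun p => 1024 < p), (1 - dens R p) :=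
    Finset.prod_nonneg fun p hp => (hf p (h3 hp)).1
  calc _ ≤ 1 * ∏ p ∈ (Nat.primesLE v).filter (fun p => 1024 < p), (1 - dens R p) :=
        mul_le_mul_of_nonneg_right h4 h5
    _ = _ := one_mul _

/-- [C1] Proof. `m` with `2^(10·2^m) ≤ v < 2^(10·2^(m+1))` (if `v < 1024` all `R p`, `p ≤ v`, are empty, the product is `1` and the number is `≤ H/q0 + 1 ≤ 2 H/q0`: `count_ivl` in
`MP_f32cb9_nt/Sieve.lean`). `sieve_upper` there with the blocks `B i = (BK i).filter (¬ · ∣ q0)` (`LBS/S2.lean`: `BK`, `bk m`, `ek m`; `Adm R` holds), `i < m`: the number is at most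
`(H/q0) GA + WW` (`chi R B m t = 1` for `t` counted; `Set`/`ivl N H = Ioc N (N+H)`). Since `R p = ∅` (so `dens R p = 0`) for `p ∣ q0`, `esy`, `Vb` for `B i` and `BK i` agree
(a product over a subset that contains a `p ∣ q0` vanishes), so `esy_BK` gives the hypothesis of `GA_le` (`MP_f32cb9_nt/Dens.lean`) with `e = ek m`, `sum_ek ≤ 1/4`: `GA ≤ e^(1/4) VV`, `VV = ∏ (1 - |R p|/p)` over the
primes in the blocks, i.e. over `p ∈ (1024, 2^(10·2^m)]` (`R p = ∅` below); the missing primes are in `BK m`, `Vb_BK : Vb ≥ e^(-6)`, so `VV ≤ e^6 ∏_{p ≤ v}`. `WW ≤ WW (BK) ≤ 2^(760·2^m) ≤ v^76` (`Wt_mono`, `WW_BK`), and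
`∏_{p≤v} (1 - |R p|/p) ≥ ∏_{1024 < p ≤ v} (1-2/p) ≥ ∏_{2 < n ≤ v} (1 - 2/n) ≥ 1/v^2`, so `WW ≤ v^200/v^124 ≤ (H/q0) ∏`. -/
theorem block_sieve : ∃ C : ℝ, 1 ≤ C ∧ ∀ (R : ℕ → Finset ℕ) (q0 c N H v : ℕ), 1 ≤ q0 → 2 ≤ v →
    (∀ p, R p ⊆ range p ∧ (R p).card ≤ 2) →
    (∀ p, (R p).Nonempty → p.Prime ∧ 1024 < p ∧ ¬ p ∣ q0) → q0 * v ^ 200 ≤ H →
    (((Ioc N (N + H)).filter
      (fun n => n ≡ c [MOD q0] ∧ ∀ p ∈ Nat.primesLE v, n % p ∉ R p)).card : ℝ) ≤
      C * ((H : ℝ) / q0) * ∏ p ∈ Nat.primesLE v, (1 - ((R p).card : ℝ) / p) := by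
  classical
  refine ⟨Real.exp (25 / 4) + 2, by linarith [Real.exp_pos (25 / 4)], ?_⟩
  intro R q0 c N H v hq0 hv hR hRn hH
  have hq0' : (0 : ℝ) < q0 := by exact_mod_cast hq0
  have hHq : (v : ℝ) ^ 200 ≤ (H : ℝ) / q0 := by
    rw [le_div_iff₀ hq0', mul_comm]
    exact_mod_cast hH
  have hv1 : (1 : ℝ) ≤ v := by exact_mod_cast (by omega : 1 ≤ v)
  have hHq1 : 1 ≤ (H : ℝ) / q0 := le_trans (one_le_pow₀ hv1) hHq
  have hR0 : ∀ p, p ≤ 1024 → R p = ∅ := by
    intro p hp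
    by_contra hc
    have := (hRn p (Finset.nonempty_iff_ne_empty.mpr hc)).2.1
    omega
  have hE : 0 < Real.exp (25 / 4) := Real.exp_pos _
  have hprod : ∏ p ∈ Nat.primesLE v, (1 - ((R p).card : ℝ) / p) =
      ∏ p ∈ Nat.primesLE v, (1 - Pool.Agent.MP_f32cb9_nt.dens R p) := rfl
  rcases lt_or_ge v 1024 with hlt | hge
  · -- no sieving
    have h1 : ∏ p ∈ Nat.primesLE v, (1 - ((R p).card : ℝ) / p) = 1 := by
      apply Finset.prod_eq_one
      intro p hp
      rw [hR0 p (by have := Nat.le_of_mem_primesLE hp; omega)]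
      simp
    rw [h1, mul_one]
    have h2 := Pool.Agent.MP_f32cb9_nt.count_ivl N H q0 c (by omega)
    have h3 := (abs_le.mp h2).2
    have h4 : (((Ioc N (N + H)).filter
        (fun n => n ≡ c [MOD q0] ∧ ∀ p ∈ Nat.primesLE v, n % p ∉ R p)).card : ℝ) ≤
        (((Pool.Agent.MP_f32cb9_nt.ivl N H).filter (fun n => n ≡ c [MOD q0])).card : ℝ) := by
      have : ((Ioc N (N + H)).filter
        (fun n => n ≡ c [MOD q0] ∧ ∀ p ∈ Nat.primesLE v, n % p ∉ R p)).card ≤
        ((Pool.Agent.MP_f32cb9_nt.ivl N H).filter (fun n => n ≡ c [MOD q0])).card := by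
        apply Finset.card_le_card
        intro n hn
        rw [mem_filter] at hn ⊢
        exact ⟨hn.1, hn.2.1⟩
      exact_mod_cast this
    nlinarith
  · have hAdm : Pool.Agent.LBS.Adm R := fun p _ _ => hR p
    -- the number of blocks
    have hex : ∃ j : ℕ, v < 2 ^ (10 * 2 ^ j) := ⟨v, lt_of_lt_of_le Nat.lt_two_pow_self
      (Nat.pow_le_pow_right (by norm_num) (by
        have := Nat.lt_two_pow_self (n := v)
        omega))⟩
    obtain ⟨m, hm1, hm2⟩ : ∃ m : ℕ, 2 ^ (10 * 2 ^ m) ≤ v ∧ v < 2 ^ (10 * 2 ^ (m + 1)) := by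
      have hj1 : v < 2 ^ (10 * 2 ^ (Nat.find hex)) := Nat.find_spec hex
      have hj0 : Nat.find hex ≠ 0 := by
        intro h0
        rw [h0] at hj1
        norm_num at hj1
        omega
      obtain ⟨i, hi⟩ := Nat.exists_eq_succ_of_ne_zero hj0
      have hi1 : ¬ v < 2 ^ (10 * 2 ^ i) := Nat.find_min hex (by omega)
      refine ⟨i, by omega, ?_⟩
      rw [← Nat.succ_eq_add_one, ← hi]
      exact hj1
    set B : ℕ → Finset ℕ := fun i => (Pool.Agent.LBS.BK i).filter (fun p => ¬ p ∣ q0) with hBdef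
    have hBsub : ∀ i, B i ⊆ Pool.Agent.LBS.BK i := fun i => Finset.filter_subset _ _
    set P : ℝ := ∏ p ∈ Nat.primesLE v, (1 - Pool.Agent.MP_f32cb9_nt.dens R p) with hP
    rw [hprod]
    -- the upper bound of the sieve
    have hs := Pool.Agent.MP_f32cb9_nt.sieve_upper R B (Pool.Agent.LBS.bk m) N H m
      (fun i _ p hp => (Pool.Agent.LBS.mem_BK.1 (hBsub i hp)).2.2)
      (fun i _ j _ hij => (Pool.Agent.LBS.BK_disj hij).mono (hBsub i) (hBsub j))
      (fun i _ p _ => (hR p).1) q0 c (by omega)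
      (fun i _ p hp => (Finset.mem_filter.1 hp).2)
    have hcount : (((Ioc N (N + H)).filter
        (fun n => n ≡ c [MOD q0] ∧ ∀ p ∈ Nat.primesLE v, n % p ∉ R p)).card : ℝ) ≤
        ∑ t ∈ (Pool.Agent.MP_f32cb9_nt.ivl N H).filter (fun t => t ≡ c [MOD q0]),
          Pool.Agent.MP_f32cb9_nt.chi R B m t := by
      rw [Finset.card_eq_sum_ones]
      push_cast
      have hsub : (Ioc N (N + H)).filter
          (fun n => n ≡ c [MOD q0] ∧ ∀ p ∈ Nat.primesLE v, n % p ∉ R p) ⊆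
          (Pool.Agent.MP_f32cb9_nt.ivl N H).filter (fun t => t ≡ c [MOD q0]) := by
        intro n hn
        rw [mem_filter] at hn ⊢
        exact ⟨hn.1, hn.2.1⟩
      refine le_trans ?_ (Finset.sum_le_sum_of_subset_of_nonneg hsub
        fun t _ _ => Pool.Agent.MP_f32cb9_nt.chi_nonneg R B m t)
      apply Finset.sum_le_sum
      intro t ht
      apply le_of_eq
      symm
      unfold Pool.Agent.MP_f32cb9_nt.chi
      apply Finset.prod_eq_one
      intro i hi
      apply Finset.prod_eq_one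
      intro p hp
      have hpB := Pool.Agent.LBS.mem_BK.1 (hBsub i hp)
      have hle : p ≤ v := by
        refine hpB.2.1.trans (le_trans ?_ hm1)
        apply Nat.pow_le_pow_right (by norm_num)
        have := Nat.pow_le_pow_right (n := 2) (by norm_num) (Nat.succ_le_of_lt (mem_range.mp hi))
        simp only [Nat.succ_eq_add_one] at this
        omega
      have hnot := (mem_filter.mp ht).2.2 p (Nat.mem_primesLE.mpr ⟨hle, hpB.2.2⟩)
      unfold Pool.Agent.MP_f32cb9_nt.hit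
      rw [if_neg hnot, sub_zero]
    -- the density
    have hVb : ∀ i, Pool.Agent.MP_f32cb9_nt.Vb R B i =
        Pool.Agent.MP_f32cb9_nt.Vb R Pool.Agent.LBS.BK i := by
      intro i
      unfold Pool.Agent.MP_f32cb9_nt.Vb
      apply Finset.prod_filter_of_ne
      intro p _ hne hdvd
      apply hne
      have : R p = ∅ := by
        by_contra hc
        exact (hRn p (Finset.nonempty_iff_ne_empty.mpr hc)).2.2 hdvd
      rw [Pool.Agent.MP_f32cb9_nt.dens, this]
      simp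
    have hesy : ∀ i n, Pool.Agent.MP_f32cb9_nt.esy (Pool.Agent.MP_f32cb9_nt.dens R) n (B i) ≤
        Pool.Agent.MP_f32cb9_nt.esy (Pool.Agent.MP_f32cb9_nt.dens R) n (Pool.Agent.LBS.BK i) := by
      intro i n
      unfold Pool.Agent.MP_f32cb9_nt.esy
      apply Finset.sum_le_sum_of_subset_of_nonneg (Finset.powersetCard_mono (hBsub i))
      intro Q hQ _
      apply Finset.prod_nonneg
      intro p hp
      exact (Pool.Agent.LBS.dens_BK hAdm ((Finset.mem_powersetCard.1 hQ).1 hp)).1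
    have hG := (Pool.Agent.MP_f32cb9_nt.GA_le R B (Pool.Agent.LBS.bk m) (Pool.Agent.LBS.ek m) m
      (fun i _ p hp => ⟨(Pool.Agent.LBS.dens_BK hAdm (hBsub i hp)).1,
        by linarith [(Pool.Agent.LBS.dens_BK hAdm (hBsub i hp)).2.1]⟩)
      (fun i _ => by
        rw [hVb i]
        exact (hesy i _).trans (Pool.Agent.LBS.esy_BK hAdm m i))).2
    have hVV : Pool.Agent.MP_f32cb9_nt.VV R B m =
        Pool.Agent.MP_f32cb9_nt.VV R Pool.Agent.LBS.BK m := by
      unfold Pool.Agent.MP_f32cb9_nt.VV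
      exact Finset.prod_congr rfl fun i _ => hVb i
    have hVV0 : 0 ≤ Pool.Agent.MP_f32cb9_nt.VV R Pool.Agent.LBS.BK m := by
      apply Pool.Agent.MP_f32cb9_nt.VV_nonneg
      intro i _ p hp
      exact ⟨(Pool.Agent.LBS.dens_BK hAdm hp).1,
        by linarith [(Pool.Agent.LBS.dens_BK hAdm hp).2.1]⟩
    have hPge := c1_VV hAdm hR0 hm2
    have hVs : Pool.Agent.MP_f32cb9_nt.VV R Pool.Agent.LBS.BK (m + 1) =
        Pool.Agent.MP_f32cb9_nt.VV R Pool.Agent.LBS.BK m *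
          Pool.Agent.MP_f32cb9_nt.Vb R Pool.Agent.LBS.BK m := by
      unfold Pool.Agent.MP_f32cb9_nt.VV
      rw [Finset.prod_range_succ]
    have hVbm := Pool.Agent.LBS.Vb_BK hAdm m
    have he6 : Real.exp 6 * Real.exp (-6) = 1 := by rw [← Real.exp_add]; norm_num
    have hVP : Pool.Agent.MP_f32cb9_nt.VV R Pool.Agent.LBS.BK m ≤ Real.exp 6 * P := by
      have h1 : Pool.Agent.MP_f32cb9_nt.VV R Pool.Agent.LBS.BK m * Real.exp (-6) ≤ P := by
        refine le_trans ?_ hPge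
        rw [hVs]
        exact mul_le_mul_of_nonneg_left hVbm hVV0
      calc Pool.Agent.MP_f32cb9_nt.VV R Pool.Agent.LBS.BK m =
          Real.exp 6 * (Pool.Agent.MP_f32cb9_nt.VV R Pool.Agent.LBS.BK m * Real.exp (-6)) := by
            linear_combination (-Pool.Agent.MP_f32cb9_nt.VV R Pool.Agent.LBS.BK m) * he6
        _ ≤ _ := mul_le_mul_of_nonneg_left h1 (Real.exp_pos 6).le
    have hP0 : 1 / (v : ℝ) ≤ P := by
      have h1 : Real.exp (-6 * (m + 1 : ℕ)) ≤
          Pool.Agent.MP_f32cb9_nt.VV R Pool.Agent.LBS.BK (m + 1) := by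
        unfold Pool.Agent.MP_f32cb9_nt.VV
        calc Real.exp (-6 * (m + 1 : ℕ)) = ∏ _i ∈ range (m + 1), Real.exp (-6) := by
              rw [Finset.prod_const, card_range, ← Real.exp_nat_mul]; congr 1; ring
          _ ≤ _ := Finset.prod_le_prod (fun _ _ => (Real.exp_pos _).le)
              fun i _ => Pool.Agent.LBS.Vb_BK hAdm i
      refine le_trans ?_ (h1.trans hPge)
      have h2 : Real.exp (-6 * (m + 1 : ℕ)) = (Real.exp 6 ^ (m + 1))⁻¹ := by
        rw [← Real.exp_nat_mul, ← Real.exp_neg]; congr 1; ring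
      have h3 : Real.exp 6 ^ (m + 1) ≤ (2 : ℝ) ^ (9 * (m + 1)) := by
        rw [pow_mul]
        exact pow_le_pow_left₀ (Real.exp_pos _).le Pool.Agent.LBS.exp6 (m + 1)
      have h4 : (2 : ℝ) ^ (9 * (m + 1)) ≤ 2 ^ (10 * 2 ^ m) := by
        apply pow_le_pow_right₀ (by norm_num)
        have := Nat.lt_two_pow_self (n := m)
        omega
      have h5 : (2 : ℝ) ^ (10 * 2 ^ m) ≤ v := by exact_mod_cast hm1
      rw [h2, one_div]
      exact inv_anti₀ (by positivity) (h3.trans (h4.trans h5))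
    have hPpos : 0 < P := lt_of_lt_of_le (by positivity) hP0
    -- the error
    have hWW : Pool.Agent.MP_f32cb9_nt.WW R B (Pool.Agent.LBS.bk m) m ≤ (v : ℝ) ^ 76 := by
      have h1 : Pool.Agent.MP_f32cb9_nt.WW R B (Pool.Agent.LBS.bk m) m ≤
          Pool.Agent.MP_f32cb9_nt.WW R Pool.Agent.LBS.BK (Pool.Agent.LBS.bk m) m := by
        unfold Pool.Agent.MP_f32cb9_nt.WW
        exact Finset.prod_le_prod (fun i _ => Pool.Agent.MP_f32cb9_nt.Wt_nonneg _ _ _)
          fun i _ => Pool.Agent.MP_f32cb9_nt.Wt_mono R le_rfl (hBsub i)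
      refine h1.trans ((Pool.Agent.LBS.WW_BK hAdm m).trans ?_)
      have h2 : (2 : ℝ) ^ (760 * 2 ^ m) = ((2 : ℝ) ^ (10 * 2 ^ m)) ^ 76 := by
        rw [← pow_mul]
        congr 1
        ring
      rw [h2]
      exact pow_le_pow_left₀ (by positivity) (by exact_mod_cast hm1) 76
    have hWP : Pool.Agent.MP_f32cb9_nt.WW R B (Pool.Agent.LBS.bk m) m ≤ (H : ℝ) / q0 * P := by
      refine hWW.trans ?_
      have hv0 : (0 : ℝ) < v := by linarith
      calc (v : ℝ) ^ 76 ≤ (v : ℝ) ^ 199 := pow_le_pow_right₀ hv1 (by norm_num)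
        _ = (v : ℝ) ^ 200 * (1 / v) := by
            rw [pow_succ (v : ℝ) 199]
            field_simp
        _ ≤ (H : ℝ) / q0 * P := mul_le_mul hHq hP0 (by positivity) (by linarith)
    have hGP : Pool.Agent.MP_f32cb9_nt.GA R B (Pool.Agent.LBS.bk m) m ≤
        Real.exp (25 / 4) * P := by
      refine hG.trans ?_
      rw [hVV]
      have h1 : Real.exp (∑ i ∈ range m, Pool.Agent.LBS.ek m i) ≤ Real.exp (1 / 4) :=
        Real.exp_le_exp.2 (Pool.Agent.LBS.sum_ek m)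
      have h2 : Real.exp (25 / 4) = Real.exp (1 / 4) * Real.exp 6 := by
        rw [← Real.exp_add]; norm_num
      rw [h2, mul_assoc]
      exact mul_le_mul h1 hVP hVV0 (Real.exp_pos _).le
    have hHq0 : 0 ≤ (H : ℝ) / q0 := by linarith
    calc _ ≤ (H : ℝ) / q0 * Pool.Agent.MP_f32cb9_nt.GA R B (Pool.Agent.LBS.bk m) m +
          Pool.Agent.MP_f32cb9_nt.WW R B (Pool.Agent.LBS.bk m) m := hcount.trans hs
      _ ≤ (H : ℝ) / q0 * (Real.exp (25 / 4) * P) + (H : ℝ) / q0 * P :=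
          add_le_add (mul_le_mul_of_nonneg_left hGP hHq0) hWP
      _ = (Real.exp (25 / 4) + 1) * ((H : ℝ) / q0) * P := by ring
      _ ≤ (Real.exp (25 / 4) + 2) * ((H : ℝ) / q0) * P := by
          apply mul_le_mul_of_nonneg_right _ hPpos.le
          apply mul_le_mul_of_nonneg_right _ hHq0
          linarith

end GCN
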