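import Pool.Agent.GCN.C2a

/-!
# [GCN-C2] the sum of `1/M` over integers composed of the primes of an interval
-/

set_option autoImplicit false

open Finset

namespace GCN

/-- `n ↦ 1 / n` -/
noncomputable def c2_f : ℕ →* ℝ where
  toFun n := 1 / (n : ℝ)
  map_one' := by norm_num
  map_mul' a b := by
    push_cast
    rw [one_div_mul_one_div]

theorem c2_f_apply (n : ℕ) : c2_f n = 1 / (n : ℝ) := rfl

/-- [C2d] Proof. All `M ∈ T` are products of primes in `(y, W]` with exponents `≤ J` for some `J`; expand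
`∏_{p} (∑_{j ≤ J} p^(-j)) ≤ ∏ (1 - 1/p)⁻¹` (`Finset.prod_univ_sum` or induction over the primes; see also Mathlib's `Nat.smoothNumbers`, `EulerProduct.summable_and_hasSum_factoredNumbers_prod_filter_prime_tsum`
and `Nat.factoredNumbers`: with `s` = the set of primes in `(y, W]`, the sum of `1/M` over `Nat.factoredNumbers s` is `∏ (1 - 1/p)⁻¹`), and `prod_inv`. -/
theorem sum_M : ∃ C : ℝ, 1 ≤ C ∧ ∀ (y W : ℕ) (T : Finset ℕ), 2 ≤ y → y ≤ W →
    (∀ M ∈ T, M ≠ 0 ∧ ∀ p : ℕ, p.Prime → p ∣ M → y < p ∧ p ≤ W) →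
    ∑ M ∈ T, (1 : ℝ) / M ≤ C * (Real.log W / Real.log y) := by
  obtain ⟨C, hC1, hC⟩ := prod_inv
  refine ⟨C, hC1, fun y W T hy hyW hT => ?_⟩
  refine le_trans ?_ (hC y W hy hyW)
  have h1 : ∀ {p : ℕ}, p.Prime → ‖c2_f p‖ < 1 := by
    intro p hp
    have h2 : (1 : ℝ) < p := by exact_mod_cast hp.one_lt
    rw [c2_f_apply, Real.norm_eq_abs, abs_of_nonneg (by positivity), div_lt_one (by linarith)]
    exact h2
  have h2 := (EulerProduct.summable_and_hasSum_factoredNumbers_prod_filter_prime_geometric h1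
    (Ioc y W)).2
  have h3 : ∀ M ∈ T, M ∈ Nat.factoredNumbers (Ioc y W) := by
    intro M hM
    rw [Nat.mem_factoredNumbers']
    intro p hp hpM
    rw [mem_Ioc]
    exact (hT M hM).2 p hp hpM
  have h4 : ∑ M ∈ T, (1 : ℝ) / M =
      ∑ M ∈ T.subtype (· ∈ Nat.factoredNumbers (Ioc y W)), c2_f (M : ℕ) := by
    rw [Finset.sum_subtype_of_mem (fun M => c2_f M) h3]
    rfl
  rw [h4]
  refine (sum_le_hasSum _ (fun M _ => ?_) h2).trans (le_of_eq rfl)
  rw [c2_f_apply]
  positivity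

end GCN
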