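import Pool.Agent.GCN.Defs
import Pool.Agent.EPK.M1b

/-!
# [GCN-C2a] products over primes
-/

set_option autoImplicit false

open Finset

namespace GCN

/-- Both bounds from Mertens' second theorem with a uniform constant. -/
theorem c2a_mert : ∃ K : ℝ, 0 ≤ K ∧ ∀ u v : ℕ, 2 ≤ u → u ≤ v →
    (Real.log (Real.log v) - Real.log (Real.log u)) - K ≤
      ∑ l ∈ (Ioc u v).filter Nat.Prime, (1 : ℝ) / l ∧
    ∑ l ∈ (Ioc u v).filter Nat.Prime, (1 : ℝ) / l ≤
      (Real.log (Real.log v) - Real.log (Real.log u)) + K := by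
  obtain ⟨C, hC, h⟩ := Pool.Agent.EPK.mertens_two
  have hl2 : 0 < Real.log 2 := Real.log_pos (by norm_num)
  refine ⟨C / Real.log 2, by positivity, ?_⟩
  intro u v hu huv
  have h1 := h u v hu huv
  have h2 : C / Real.log u ≤ C / Real.log 2 := by
    apply div_le_div_of_nonneg_left hC.le hl2
    apply Real.log_le_log (by norm_num)
    exact_mod_cast hu
  rw [abs_le] at h1
  constructor <;> linarith [h1.1, h1.2]

theorem c2a_logpos (u : ℕ) (hu : 2 ≤ u) : 0 < Real.log (u : ℝ) := by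
  apply Real.log_pos
  have : (2 : ℝ) ≤ u := by exact_mod_cast hu
  linarith

theorem c2a_explog (u v : ℕ) (hu : 2 ≤ u) (huv : u ≤ v) :
    Real.exp (-(Real.log (Real.log v) - Real.log (Real.log u))) = Real.log u / Real.log v := by
  have h1 := c2a_logpos u hu
  have h2 := c2a_logpos v (le_trans hu huv)
  rw [neg_sub, Real.exp_sub, Real.exp_log h1, Real.exp_log h2]

/-- [C2a] Proof. `1 - t ≤ exp (-t)` and `mertens_two` (EPK/M1b): `∏ (1 - j/p) ≤ exp(-j ∑ 1/p) ≤ e^(jC) (log u/log v)^j`, `j = 1, 2`. -/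
theorem prod_up : ∃ C : ℝ, 1 ≤ C ∧ ∀ u v : ℕ, 2 ≤ u → u ≤ v →
    ∏ p ∈ (Ioc u v).filter Nat.Prime, (1 - 1 / (p : ℝ)) ≤ C * (Real.log u / Real.log v) ∧
    ∏ p ∈ (Ioc u v).filter Nat.Prime, (1 - 2 / (p : ℝ)) ≤ C * (Real.log u / Real.log v) ^ 2 := by
  obtain ⟨K, hK, hm⟩ := c2a_mert
  refine ⟨Real.exp (2 * K), Real.one_le_exp (by positivity), ?_⟩
  intro u v hu huv
  obtain ⟨hm1, -⟩ := hm u v hu huv
  set S := ∑ l ∈ (Ioc u v).filter Nat.Prime, (1 : ℝ) / l with hS
  set D := Real.log (Real.log v) - Real.log (Real.log u) with hD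
  have hex : Real.exp (-D) = Real.log u / Real.log v := c2a_explog u v hu huv
  have hge : ∀ p ∈ (Ioc u v).filter Nat.Prime, (2 : ℝ) ≤ p := by
    intro p hp
    rw [mem_filter] at hp
    exact_mod_cast hp.2.two_le
  constructor
  · calc ∏ p ∈ (Ioc u v).filter Nat.Prime, (1 - 1 / (p : ℝ))
        ≤ ∏ p ∈ (Ioc u v).filter Nat.Prime, Real.exp (-(1 / (p : ℝ))) := by
          apply Finset.prod_le_prod
          · intro p hp
            have h2 := hge p hp
            rw [sub_nonneg, div_le_one (by linarith)]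
            linarith
          · intro p _
            have := Real.add_one_le_exp (-(1 / (p : ℝ)))
            linarith
      _ = Real.exp (-S) := by
          rw [← Real.exp_sum, Finset.sum_neg_distrib]
      _ ≤ Real.exp (2 * K + -D) := by
          apply Real.exp_le_exp.mpr
          linarith
      _ = Real.exp (2 * K) * (Real.log u / Real.log v) := by
          rw [Real.exp_add, hex]
  · calc ∏ p ∈ (Ioc u v).filter Nat.Prime, (1 - 2 / (p : ℝ))
        ≤ ∏ p ∈ (Ioc u v).filter Nat.Prime, Real.exp (2 * (-(1 / (p : ℝ)))) := by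
          apply Finset.prod_le_prod
          · intro p hp
            have h2 := hge p hp
            rw [sub_nonneg, div_le_one (by linarith)]
            linarith
          · intro p _
            have := Real.add_one_le_exp (2 * (-(1 / (p : ℝ))))
            have h3 : 2 * (-(1 / (p : ℝ))) = -(2 / (p : ℝ)) := by ring
            linarith
      _ = Real.exp (-(2 * S)) := by
          rw [← Real.exp_sum, ← Finset.mul_sum, Finset.sum_neg_distrib]
          congr 1
          ring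
      _ ≤ Real.exp (2 * K + (-D + -D)) := by
          apply Real.exp_le_exp.mpr
          linarith
      _ = Real.exp (2 * K) * (Real.log u / Real.log v) ^ 2 := by
          rw [Real.exp_add, Real.exp_add, hex]
          ring

/-- [C2b] Proof. `prod_up` from `u = 2` (and `1 - 1/2 ≤ 1`). -/
theorem prod_full : ∃ C : ℝ, 1 ≤ C ∧ ∀ y : ℕ, 2 ≤ y →
    ∏ p ∈ Nat.primesLE y, (1 - 1 / (p : ℝ)) ≤ C / Real.log y := by
  obtain ⟨C, hC, h⟩ := prod_up
  refine ⟨C, hC, ?_⟩
  intro y hy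
  obtain ⟨h1, -⟩ := h 2 y le_rfl hy
  have hset : Nat.primesLE y = insert 2 ((Ioc 2 y).filter Nat.Prime) := by
    ext p
    rw [Nat.mem_primesLE, mem_insert, mem_filter, mem_Ioc]
    constructor
    · rintro ⟨hp1, hp2⟩
      rcases eq_or_lt_of_le hp2.two_le with h | h
      · left; exact h.symm
      · right; exact ⟨⟨h, hp1⟩, hp2⟩
    · rintro (rfl | ⟨⟨_, hp1⟩, hp2⟩)
      · exact ⟨hy, Nat.prime_two⟩
      · exact ⟨hp1, hp2⟩
  have hnot : 2 ∉ (Ioc 2 y).filter Nat.Prime := by simp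
  rw [hset, prod_insert hnot]
  have hly := c2a_logpos y hy
  have hP : 0 ≤ ∏ p ∈ (Ioc 2 y).filter Nat.Prime, (1 - 1 / (p : ℝ)) := by
    apply Finset.prod_nonneg
    intro p hp
    rw [mem_filter] at hp
    have h2 : (2 : ℝ) ≤ p := by exact_mod_cast hp.2.two_le
    rw [sub_nonneg, div_le_one (by linarith)]
    linarith
  have hl2 : Real.log ((2 : ℕ) : ℝ) ≤ 1 := by
    have := Real.log_two_lt_d9
    push_cast
    linarith
  calc (1 - 1 / ((2 : ℕ) : ℝ)) * ∏ p ∈ (Ioc 2 y).filter Nat.Prime, (1 - 1 / (p : ℝ))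
      ≤ 1 * ∏ p ∈ (Ioc 2 y).filter Nat.Prime, (1 - 1 / (p : ℝ)) := by
        apply mul_le_mul_of_nonneg_right _ hP
        norm_num
    _ = ∏ p ∈ (Ioc 2 y).filter Nat.Prime, (1 - 1 / (p : ℝ)) := one_mul _
    _ ≤ C * (Real.log ((2 : ℕ) : ℝ) / Real.log y) := h1
    _ ≤ C * (1 / Real.log y) := by
        apply mul_le_mul_of_nonneg_left _ (by linarith)
        exact div_le_div_of_nonneg_right hl2 hly.le
    _ = C / Real.log y := by ring

/-- [C2c] Proof. For a prime `p`: `1/(1 - 1/p) = 1 + 1/(p-1) ≤ exp(1/p + 2/p²)`; `∑_p 2/p² ≤ 2` and `mertens_two` (upper bound). -/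
theorem prod_inv : ∃ C : ℝ, 1 ≤ C ∧ ∀ u v : ℕ, 2 ≤ u → u ≤ v →
    ∏ p ∈ (Ioc u v).filter Nat.Prime, (1 - 1 / (p : ℝ))⁻¹ ≤ C * (Real.log v / Real.log u) := by
  obtain ⟨K, hK, hm⟩ := c2a_mert
  refine ⟨Real.exp (K + 2), Real.one_le_exp (by positivity), ?_⟩
  intro u v hu huv
  obtain ⟨-, hm2⟩ := hm u v hu huv
  set S := ∑ l ∈ (Ioc u v).filter Nat.Prime, (1 : ℝ) / l with hS
  set D := Real.log (Real.log v) - Real.log (Real.log u) with hD
  have hex : Real.exp (-D) = Real.log u / Real.log v := c2a_explog u v hu huv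
  have hex2 : Real.exp D = Real.log v / Real.log u := by
    have h1 : Real.exp D = (Real.exp (-D))⁻¹ := by rw [Real.exp_neg, inv_inv]
    rw [h1, hex, inv_div]
  have hsq : ∑ l ∈ (Ioc u v).filter Nat.Prime, 2 * ((l : ℝ) ^ 2)⁻¹ ≤ 2 := by
    have h1 : ∑ l ∈ (Ioc u v).filter Nat.Prime, ((l : ℝ) ^ 2)⁻¹ ≤
        ∑ l ∈ Ioc u v, ((l : ℝ) ^ 2)⁻¹ := by
      apply Finset.sum_le_sum_of_subset_of_nonneg (filter_subset _ _)
      intro i _ _
      positivity
    have h2 : ∑ l ∈ Ioc u v, ((l : ℝ) ^ 2)⁻¹ ≤ (u : ℝ)⁻¹ - (v : ℝ)⁻¹ :=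
      sum_Ioc_inv_sq_le_sub (by omega) huv
    have h3 : (u : ℝ)⁻¹ ≤ 1 := by
      apply inv_le_one_of_one_le₀
      have : (2 : ℝ) ≤ u := by exact_mod_cast hu
      linarith
    have h4 : 0 ≤ (v : ℝ)⁻¹ := by positivity
    rw [← Finset.mul_sum]
    linarith
  calc ∏ p ∈ (Ioc u v).filter Nat.Prime, (1 - 1 / (p : ℝ))⁻¹
      ≤ ∏ p ∈ (Ioc u v).filter Nat.Prime, Real.exp (1 / (p : ℝ) + 2 * ((p : ℝ) ^ 2)⁻¹) := by
        apply Finset.prod_le_prod
        · intro p hp
          rw [mem_filter] at hp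
          have h2 : (2 : ℝ) ≤ p := by exact_mod_cast hp.2.two_le
          rw [inv_nonneg, sub_nonneg, div_le_one (by linarith)]
          linarith
        · intro p hp
          rw [mem_filter] at hp
          have h2 : (2 : ℝ) ≤ p := by exact_mod_cast hp.2.two_le
          have hp0 : (0 : ℝ) < p := by linarith
          have hp1 : (0 : ℝ) < p - 1 := by linarith
          have h3 : (1 - 1 / (p : ℝ))⁻¹ = 1 / ((p : ℝ) - 1) + 1 := by
            field_simp
            ring
          have h4 : 1 / ((p : ℝ) - 1) ≤ 1 / (p : ℝ) + 2 * ((p : ℝ) ^ 2)⁻¹ := by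
            have h5 : 1 / (p : ℝ) + 2 * ((p : ℝ) ^ 2)⁻¹ = (p + 2) / (p : ℝ) ^ 2 := by
              field_simp
            rw [h5, div_le_div_iff₀ hp1 (by positivity)]
            nlinarith
          rw [h3]
          refine le_trans (Real.add_one_le_exp _) ?_
          exact Real.exp_le_exp.mpr h4
    _ = Real.exp (S + ∑ l ∈ (Ioc u v).filter Nat.Prime, 2 * ((l : ℝ) ^ 2)⁻¹) := by
        rw [← Real.exp_sum, Finset.sum_add_distrib]
    _ ≤ Real.exp ((K + 2) + D) := by
        apply Real.exp_le_exp.mpr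
        linarith
    _ = Real.exp (K + 2) * (Real.log v / Real.log u) := by
        rw [Real.exp_add, hex2]

end GCN
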