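import Pool.Agent.GCN.Defs

/-!
# [GCN-C3] counting modulo a divisor
-/

set_option autoImplicit false

open Finset

namespace GCN

/-- the fibres of the reduction of units -/
theorem c3_fiber (N n : ℕ) (hN : 0 < N) (hn : n ∣ N) (u0 : (ZMod n)ˣ) :
    haveI : NeZero N := ⟨hN.ne'⟩
    (Finset.univ.filter (fun u : (ZMod N)ˣ => ZMod.unitsMap hn u = u0)).card * Nat.totient n =
      Nat.totient N := by
  have : NeZero N := ⟨hN.ne'⟩
  have hn0 : 0 < n := Nat.pos_of_dvd_of_pos hn hN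
  have : NeZero n := ⟨hn0.ne'⟩
  have hsur := ZMod.unitsMap_surjective hn
  have h1 : (Finset.univ : Finset (ZMod N)ˣ).card =
      ∑ v : (ZMod n)ˣ, (Finset.univ.filter (fun u : (ZMod N)ˣ => ZMod.unitsMap hn u = v)).card :=
    Finset.card_eq_sum_card_fiberwise fun u _ => Finset.mem_univ _
  have h2 : ∀ v : (ZMod n)ˣ,
      (Finset.univ.filter (fun u : (ZMod N)ˣ => ZMod.unitsMap hn u = v)).card =
      (Finset.univ.filter (fun u : (ZMod N)ˣ => ZMod.unitsMap hn u = u0)).card := fun v =>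
    MonoidHom.card_fiber_eq_of_mem_range (ZMod.unitsMap hn) (hsur v) (hsur u0)
  rw [Finset.sum_congr rfl fun v _ => h2 v, Finset.sum_const, Finset.card_univ, Finset.card_univ,
    ZMod.card_units_eq_totient, ZMod.card_units_eq_totient, smul_eq_mul] at h1
  rw [h1, mul_comm]

/-- [C3a] Proof. If `gcd(b, n) > 1` the left side is `0` (`s` is prime to `n`). Otherwise the elements `s ≡ b mod n` lie in the classes of the units modulo `N` above `b`; there are
`φ(N)/φ(n)` of them (`ZMod.unitsMap_surjective`, fibres of a surjective homomorphism of finite groups; `Nat.card (ZMod N)ˣ = φ(N)`). -/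
theorem class_down (S : Finset ℕ) (N n : ℕ) (hN : 0 < N) (hn : n ∣ N)
    (hS : ∀ s ∈ S, Nat.Coprime s N) (D : ℝ)
    (hD : ∀ b : ℕ, ((S.filter (fun s => s ≡ b [MOD N])).card : ℝ) ≤ D) (b : ℕ) :
    ((S.filter (fun s => s ≡ b [MOD n])).card : ℝ) ≤ D * Nat.totient N / Nat.totient n := by
  classical
  have : NeZero N := ⟨hN.ne'⟩
  have hn0 : 0 < n := Nat.pos_of_dvd_of_pos hn hN
  have : NeZero n := ⟨hn0.ne'⟩
  have hD0 : 0 ≤ D := le_trans (Nat.cast_nonneg _) (hD 0)
  have hφn : (0 : ℝ) < (Nat.totient n : ℝ) := by exact_mod_cast Nat.totient_pos.2 hn0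
  rcases (S.filter (fun s => s ≡ b [MOD n])).eq_empty_or_nonempty with he | ⟨s0, hs0⟩
  · rw [he, Finset.card_empty, Nat.cast_zero]
    positivity
  rw [Finset.mem_filter] at hs0
  have hc0 : Nat.Coprime s0 n := Nat.Coprime.coprime_dvd_right hn (hS s0 hs0.1)
  set u0 : (ZMod n)ˣ := ZMod.unitOfCoprime s0 hc0 with hu0
  set F : Finset (ZMod N)ˣ := Finset.univ.filter (fun u => ZMod.unitsMap hn u = u0) with hF
  have h1 : (S.filter (fun s => s ≡ b [MOD n])).image (fun s : ℕ => (s : ZMod N)) ⊆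
      F.image (fun u : (ZMod N)ˣ => (u : ZMod N)) := by
    intro a ha
    rw [Finset.mem_image] at ha
    obtain ⟨s, hs, rfl⟩ := ha
    rw [Finset.mem_filter] at hs
    rw [Finset.mem_image]
    refine ⟨ZMod.unitOfCoprime s (hS s hs.1), ?_, ZMod.coe_unitOfCoprime _ _⟩
    rw [hF, Finset.mem_filter]
    refine ⟨Finset.mem_univ _, ?_⟩
    rw [Units.ext_iff, ZMod.unitsMap_val, hu0, ZMod.coe_unitOfCoprime, ZMod.coe_unitOfCoprime,
      ZMod.cast_natCast hn, ZMod.natCast_eq_natCast_iff]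
    exact hs.2.trans hs0.2.symm
  have h2 := c3_fiber N n hN hn u0
  have h3 : (S.filter (fun s => s ≡ b [MOD n])).card ≤
      ⌊D⌋₊ * ((S.filter (fun s => s ≡ b [MOD n])).image (fun s : ℕ => (s : ZMod N))).card := by
    refine Finset.card_le_mul_card_image _ _ fun a ha => ?_
    rw [Finset.mem_image] at ha
    obtain ⟨s, hs, rfl⟩ := ha
    rw [Nat.le_floor_iff hD0]
    refine le_trans ?_ (hD s)
    refine Nat.cast_le.2 (Finset.card_le_card fun t ht => ?_)
    rw [Finset.mem_filter, Finset.mem_filter] at ht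
    rw [Finset.mem_filter]
    exact ⟨ht.1.1, (ZMod.natCast_eq_natCast_iff _ _ _).1 ht.2⟩
  have h4 : ((S.filter (fun s => s ≡ b [MOD n])).card : ℝ) ≤ D * F.card := by
    calc ((S.filter (fun s => s ≡ b [MOD n])).card : ℝ)
        ≤ ((⌊D⌋₊ * ((S.filter (fun s => s ≡ b [MOD n])).image
            (fun s : ℕ => (s : ZMod N))).card : ℕ) : ℝ) := Nat.cast_le.2 h3
      _ = (⌊D⌋₊ : ℝ) * (((S.filter (fun s => s ≡ b [MOD n])).image
            (fun s : ℕ => (s : ZMod N))).card : ℝ) := Nat.cast_mul _ _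
      _ ≤ D * F.card := by
          refine mul_le_mul (Nat.floor_le hD0) (Nat.cast_le.2 ?_) (Nat.cast_nonneg _) hD0
          exact (Finset.card_le_card h1).trans Finset.card_image_le
  rw [le_div_iff₀ hφn]
  calc ((S.filter (fun s => s ≡ b [MOD n])).card : ℝ) * Nat.totient n
      ≤ D * F.card * Nat.totient n := mul_le_mul_of_nonneg_right h4 hφn.le
    _ = D * ((F.card * Nat.totient n : ℕ) : ℝ) := by push_cast; ring
    _ = D * Nat.totient N := by rw [h2]

/-- [C3b] the number of `n ∈ [1, X]` (`n ≥ 1`) divisible by `d` is at most `X/d`; here for `s - 1`. -/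
theorem count_dvd (x d : ℕ) (hd : 0 < d) (T : Finset ℕ) (hT : ∀ s ∈ T, 2 ≤ s ∧ s ≤ x ∧ d ∣ s - 1) :
    (T.card : ℝ) ≤ (x : ℝ) / d := by
  have h1 : T.card ≤ (Finset.Icc 1 (x / d)).card := by
    refine Finset.card_le_card_of_injOn (fun s => (s - 1) / d) (fun s hs => ?_) ?_
    · obtain ⟨h2, h3, h4⟩ := hT s hs
      rw [Finset.coe_Icc, Set.mem_Icc]
      refine ⟨?_, Nat.div_le_div_right (by omega)⟩
      rw [Nat.one_le_div_iff hd]
      exact Nat.le_of_dvd (by omega) h4
    · intro s hs t ht hst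
      obtain ⟨h2, -, h4⟩ := hT s hs
      obtain ⟨h5, -, h6⟩ := hT t ht
      have h7 : (s - 1) / d = (t - 1) / d := hst
      have h8 : s - 1 = t - 1 := by
        rw [← Nat.div_mul_cancel h4, ← Nat.div_mul_cancel h6, h7]
      omega
  rw [Nat.card_Icc, Nat.add_sub_cancel] at h1
  exact (Nat.cast_le.2 h1).trans Nat.cast_div_le

/-- [C3c] Proof. The conditions are one class modulo `N d` (coprime), the number of integers of the class in an interval of length `x` is at most `x/(N d) + 1`. -/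
theorem count_class (x N d b : ℕ) (hN : 0 < N) (hd : 0 < d) (h : Nat.Coprime N d) (T : Finset ℕ)
    (hT : ∀ s ∈ T, 1 ≤ s ∧ s ≤ x ∧ s ≡ b [MOD N] ∧ d ∣ s - 1) :
    (T.card : ℝ) ≤ (x : ℝ) / (N * d) + 1 := by
  have hNd : 0 < N * d := Nat.mul_pos hN hd
  have hcl : ∀ s ∈ T, ∀ t ∈ T, s ≡ t [MOD N * d] := by
    intro s hs t ht
    obtain ⟨h1, -, h3, h4⟩ := hT s hs
    obtain ⟨h5, -, h7, h8⟩ := hT t ht
    refine (Nat.modEq_and_modEq_iff_modEq_mul h).1 ⟨h3.trans h7.symm, ?_⟩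
    exact ((Nat.modEq_iff_dvd' h1).2 h4).symm.trans ((Nat.modEq_iff_dvd' h5).2 h8)
  have h1 : T.card ≤ (Finset.range (x / (N * d) + 1)).card := by
    refine Finset.card_le_card_of_injOn (fun s => s / (N * d)) (fun s hs => ?_) ?_
    · obtain ⟨-, h3, -⟩ := hT s hs
      rw [Finset.coe_range, Set.mem_Iio]
      exact Nat.lt_succ_of_le (Nat.div_le_div_right h3)
    · intro s hs t ht hst
      have h2 : s / (N * d) = t / (N * d) := hst
      have h3 : s % (N * d) = t % (N * d) := hcl s hs t ht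
      rw [← Nat.div_add_mod s (N * d), ← Nat.div_add_mod t (N * d), h2, h3]
  rw [Finset.card_range] at h1
  calc (T.card : ℝ) ≤ ((x / (N * d) + 1 : ℕ) : ℝ) := Nat.cast_le.2 h1
    _ = ((x / (N * d) : ℕ) : ℝ) + 1 := by push_cast; ring
    _ ≤ (x : ℝ) / ((N * d : ℕ) : ℝ) + 1 := by
        have := @Nat.cast_div_le ℝ _ _ _ x (N * d)
        linarith
    _ = (x : ℝ) / (N * d) + 1 := by rw [Nat.cast_mul]

end GCN
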