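import Pool.Agent.GCN.Defs

/-!
# [GCN-N1] the part of an integer composed of the primes of a set
-/

set_option autoImplicit false

open Finset

namespace GCN

/-! [N1] All of these follow from the factorization: `prt S n = ∏_{p ∣ n, p ∈ S} p^(v_p(n))`, so the exponent of the prime `p` in `prt S n` is `v_p(n)` if `p ∈ S` and `0` otherwise
(`Nat.factorization_prod_pow_eq_self`-like lemmas; `Nat.eq_of_factorization_eq`, `Nat.factorization_le_iff_dvd`). -/

theorem prt_ne_zero (S : Set ℕ) (n : ℕ) : prt S n ≠ 0 := by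
  classical
  unfold prt
  refine Finset.prod_ne_zero_iff.2 fun p hp => pow_ne_zero _ ?_
  exact (Nat.prime_of_mem_primeFactors (Finset.mem_filter.1 hp).1).ne_zero

theorem prt_factorization (S : Set ℕ) (n p : ℕ) [Decidable (p ∈ S)] :
    (prt S n).factorization p = if p ∈ S then n.factorization p else 0 := by
  classical
  have h1 : prt S n = (n.factorization.filter (fun p => p ∈ S)).prod (fun p k => p ^ k) := by
    unfold prt
    rw [Finsupp.prod, Finsupp.support_filter, Nat.support_factorization]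
    refine Finset.prod_congr (by ext; simp only [Finset.mem_filter]) fun q hq => ?_
    rw [Finsupp.filter_apply_pos _ _ (Finset.mem_filter.1 hq).2]
  rw [h1, Nat.prod_pow_factorization_eq_self]
  · rw [Finsupp.filter_apply]
    congr
  · intro q hq
    rw [Finsupp.support_filter, Finset.mem_filter, Nat.support_factorization] at hq
    exact Nat.prime_of_mem_primeFactors hq.1

theorem prt_dvd (S : Set ℕ) (n : ℕ) : prt S n ∣ n := by
  classical
  rcases eq_or_ne n 0 with rfl | hn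
  · exact dvd_zero _
  rw [← Nat.factorization_le_iff_dvd (prt_ne_zero S n) hn]
  intro p
  rw [prt_factorization]
  split_ifs
  · exact le_rfl
  · exact Nat.zero_le _

theorem prt_one (S : Set ℕ) : prt S 1 = 1 := by
  exact Nat.dvd_one.1 (prt_dvd S 1)

theorem prime_of_dvd_prt (S : Set ℕ) (n p : ℕ) (hp : p.Prime) (h : p ∣ prt S n) :
    p ∈ S ∧ p ∣ n := by
  classical
  have h1 : 0 < (prt S n).factorization p := hp.factorization_pos_of_dvd (prt_ne_zero S n) h
  rw [prt_factorization] at h1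
  split_ifs at h1 with h2
  · exact ⟨h2, h.trans (prt_dvd S n)⟩
  · omega

theorem prt_mul (S : Set ℕ) (a b : ℕ) (ha : a ≠ 0) (hb : b ≠ 0) :
    prt S (a * b) = prt S a * prt S b := by
  classical
  refine Nat.eq_of_factorization_eq (prt_ne_zero S _)
    (mul_ne_zero (prt_ne_zero S _) (prt_ne_zero S _)) fun p => ?_
  rw [Nat.factorization_mul (prt_ne_zero S _) (prt_ne_zero S _), Finsupp.add_apply,
    prt_factorization, prt_factorization, prt_factorization, Nat.factorization_mul ha hb,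
    Finsupp.add_apply]
  split_ifs <;> rfl

theorem prt_prod {ι : Type*} (S : Set ℕ) (T : Finset ι) (g : ι → ℕ) (hg : ∀ i ∈ T, g i ≠ 0) :
    prt S (∏ i ∈ T, g i) = ∏ i ∈ T, prt S (g i) := by
  classical
  induction T using Finset.induction_on with
  | empty => rw [Finset.prod_empty, Finset.prod_empty, prt_one]
  | insert i T hi ih =>
    rw [Finset.prod_insert hi, Finset.prod_insert hi, prt_mul S _ _ (hg i (Finset.mem_insert_self i T))
      (Finset.prod_ne_zero_iff.2 fun j hj => hg j (Finset.mem_insert_of_mem hj)),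
      ih fun j hj => hg j (Finset.mem_insert_of_mem hj)]

theorem prt_dvd_prt (S : Set ℕ) (a b : ℕ) (hb : b ≠ 0) (h : a ∣ b) : prt S a ∣ prt S b := by
  obtain ⟨c, rfl⟩ := h
  rw [prt_mul S a c (left_ne_zero_of_mul hb) (right_ne_zero_of_mul hb)]
  exact dvd_mul_right _ _

theorem prt_eq_self (S : Set ℕ) (n : ℕ) (hn : n ≠ 0) (h : ∀ p : ℕ, p.Prime → p ∣ n → p ∈ S) :
    prt S n = n := by
  classical
  refine Nat.eq_of_factorization_eq (prt_ne_zero S _) hn fun p => ?_
  rw [prt_factorization]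
  split_ifs with h1
  · rfl
  · by_contra h2
    have h3 : n.factorization p ≠ 0 := fun h4 => h2 h4.symm
    have h4 : p ∈ n.primeFactors := by
      rw [← Nat.support_factorization, Finsupp.mem_support_iff]
      exact h3
    exact h1 (h p (Nat.prime_of_mem_primeFactors h4) (Nat.dvd_of_mem_primeFactors h4))

theorem prt_eq_one (S : Set ℕ) (n : ℕ) (h : ∀ p : ℕ, p.Prime → p ∣ n → p ∉ S) :
    prt S n = 1 := by
  by_contra h1
  obtain ⟨p, hp, hpd⟩ := Nat.exists_prime_and_dvd h1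
  obtain ⟨h2, h3⟩ := prime_of_dvd_prt S n p hp hpd
  exact h p hp h3 h2

/-- a divisor of `n` composed of primes of `S` divides `prt S n` -/
theorem dvd_prt (S : Set ℕ) (d n : ℕ) (hn : n ≠ 0) (hd : d ∣ n)
    (h : ∀ p : ℕ, p.Prime → p ∣ d → p ∈ S) : d ∣ prt S n := by
  have hd0 : d ≠ 0 := by
    rintro rfl
    exact hn (zero_dvd_iff.1 hd)
  have h1 := prt_dvd_prt S d n hn hd
  rwa [prt_eq_self S d hd0 h] at h1

theorem prt_coprime (S T : Set ℕ) (a b : ℕ) (h : Disjoint S T) :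
    Nat.Coprime (prt S a) (prt T b) := by
  refine Nat.coprime_of_dvd fun p hp h1 h2 => ?_
  exact Set.disjoint_left.1 h (prime_of_dvd_prt S a p hp h1).1 (prime_of_dvd_prt T b p hp h2).1

/-- the three parts of `n` -/
theorem prt_split (y W n : ℕ) (hyW : y ≤ W) (hn : n ≠ 0) :
    prt (Set.Iic y) n * prt (Set.Ioc y W) n * prt (Set.Ioi W) n = n := by
  classical
  refine Nat.eq_of_factorization_eq (mul_ne_zero (mul_ne_zero (prt_ne_zero _ _) (prt_ne_zero _ _))
    (prt_ne_zero _ _)) hn fun p => ?_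
  rw [Nat.factorization_mul (mul_ne_zero (prt_ne_zero _ _) (prt_ne_zero _ _)) (prt_ne_zero _ _),
    Nat.factorization_mul (prt_ne_zero _ _) (prt_ne_zero _ _), Finsupp.add_apply, Finsupp.add_apply,
    prt_factorization, prt_factorization, prt_factorization]
  simp only [Set.mem_Iic, Set.mem_Ioc, Set.mem_Ioi]
  split_ifs <;> omega

/-- number of divisors -/
theorem card_divisors_le (n : ℕ) (hn : n ≠ 0) : n.divisors.card ≤ 2 ^ n.primeFactorsList.length := by
  have h1 : n.primeFactorsList.length = ∑ p ∈ n.primeFactors, n.factorization p := by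
    have h2 := ArithmeticFunction.cardFactors_eq_sum_factorization (n := n)
    rw [ArithmeticFunction.cardFactors_apply] at h2
    rw [h2, Finsupp.sum, Nat.support_factorization]
  rw [Nat.card_divisors hn, h1, ← Finset.prod_pow_eq_pow_sum]
  refine Finset.prod_le_prod' fun p _ => ?_
  exact Nat.succ_le_of_lt (Nat.lt_two_pow_self)

/-- for `y`-rough numbers -/
theorem pow_length_le (y n : ℕ) (hn : n ≠ 0) (h : ∀ p : ℕ, p.Prime → p ∣ n → y < p) :
    y ^ n.primeFactorsList.length ≤ n := by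
  have h1 : y ^ n.primeFactorsList.length ≤ n.primeFactorsList.prod := by
    refine List.pow_card_le_prod _ _ fun p hp => ?_
    exact (h p (Nat.prime_of_mem_primeFactorsList hp) (Nat.dvd_of_mem_primeFactorsList hp)).le
  rwa [Nat.prod_primeFactorsList hn] at h1

/-- [N1'] Proof. `b^Ω ≤ n^θ` if `b ≤ y^θ`, by `pow_length_le`. -/
theorem rpow_length_le (y n : ℕ) (b θ : ℝ) (hn : n ≠ 0) (hb : 0 ≤ b) (hθ : 0 ≤ θ)
    (hby : b ≤ (y : ℝ) ^ θ) (h : ∀ p : ℕ, p.Prime → p ∣ n → y < p) :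
    b ^ n.primeFactorsList.length ≤ (n : ℝ) ^ θ := by
  have h1 : ((y : ℝ) ^ n.primeFactorsList.length) ≤ (n : ℝ) := by
    exact_mod_cast pow_length_le y n hn h
  calc b ^ n.primeFactorsList.length ≤ ((y : ℝ) ^ θ) ^ n.primeFactorsList.length :=
        pow_le_pow_left₀ hb hby _
    _ = ((y : ℝ) ^ n.primeFactorsList.length) ^ θ := by
        rw [← Real.rpow_natCast, ← Real.rpow_natCast, ← Real.rpow_mul (by positivity),
          ← Real.rpow_mul (by positivity), mul_comm]
    _ ≤ (n : ℝ) ^ θ := Real.rpow_le_rpow (by positivity) h1 hθ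

/-! ### the core modulus -/

theorem Lc_ne_zero (z : ℕ) (Q : Finset ℕ) (hQ : ∀ l ∈ Q, l.Prime) : Lc z Q ≠ 0 := by
  unfold Lc
  exact Finset.prod_ne_zero_iff.2 fun l hl => pow_ne_zero _ (hQ l hl).ne_zero

theorem prime_dvd_Lc (z : ℕ) (Q : Finset ℕ) (hQ : ∀ l ∈ Q, l.Prime) (p : ℕ) (hp : p.Prime) :
    p ∣ Lc z Q ↔ p ∈ Q := by
  unfold Lc
  rw [hp.prime.dvd_finsetProd_iff]
  constructor
  · rintro ⟨l, hl, hpl⟩
    rwa [(Nat.prime_dvd_prime_iff_eq hp (hQ l hl)).1 (hp.dvd_of_dvd_pow hpl)]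
  · intro h
    exact ⟨p, h, dvd_pow_self p (Nat.succ_ne_zero _)⟩

theorem Lc_dvd (z : ℕ) (Q Q' : Finset ℕ) (h : Q ⊆ Q') : Lc z Q ∣ Lc z Q' := by
  unfold Lc
  exact Finset.prod_dvd_prod_of_subset _ _ _ h

/-- [N1''] Proof. For `l ∈ Q` the exponent of `l` in `n` is at most `log_l(z^2) + 1` (`hexp`), the other primes do not divide `n`. -/
theorem dvd_Lc (z : ℕ) (Q : Finset ℕ) (hQ : ∀ l ∈ Q, l.Prime) (n : ℕ) (hn : n ≠ 0)
    (h : ∀ p : ℕ, p.Prime → p ∣ n → p ∈ Q)
    (hexp : ∀ l ∈ Q, ¬ l ^ (Nat.log l (z ^ 2) + 2) ∣ n) : n ∣ Lc z Q := by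
  classical
  rw [← Nat.factorization_le_iff_dvd hn (Lc_ne_zero z Q hQ)]
  intro p
  by_cases hp : p.Prime ∧ p ∣ n
  · have hpQ := h p hp.1 hp.2
    have h1 : n.factorization p ≤ Nat.log p (z ^ 2) + 1 := by
      by_contra h2
      push Not at h2
      exact hexp p hpQ ((hp.1.pow_dvd_iff_le_factorization hn).2 (by omega))
    refine h1.trans ?_
    rw [← hp.1.pow_dvd_iff_le_factorization (Lc_ne_zero z Q hQ)]
    exact Finset.dvd_prod_of_mem (fun l => l ^ (Nat.log l (z ^ 2) + 1)) hpQ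
  · have h1 : n.factorization p = 0 := by
      rw [Nat.factorization_eq_zero_iff]
      by_cases h2 : p.Prime
      · exact Or.inr (Or.inl fun h3 => hp ⟨h2, h3⟩)
      · exact Or.inl h2
    rw [h1]
    exact Nat.zero_le _

/-- [N1'''] Proof. `l^(log_l(z^2)+1) ≤ z^2 l ≤ z^2 y ≤ z^3`, and there are at most `y` primes. -/
theorem Lc_le (z y : ℕ) (Q : Finset ℕ) (hQ : ∀ l ∈ Q, l.Prime ∧ l ≤ y) (hz : 1 ≤ z) (hyz : y ≤ z) :
    Lc z Q ≤ z ^ (3 * Q.card) := by
  unfold Lc
  rw [pow_mul]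
  refine Finset.prod_le_pow_card _ _ _ fun l hl => ?_
  have h1 : l ^ Nat.log l (z ^ 2) ≤ z ^ 2 := Nat.pow_log_le_self l (pow_ne_zero _ (by omega))
  calc l ^ (Nat.log l (z ^ 2) + 1) = l ^ Nat.log l (z ^ 2) * l := pow_succ _ _
    _ ≤ z ^ 2 * z := Nat.mul_le_mul h1 ((hQ l hl).2.trans hyz)
    _ = z ^ 3 := by ring

end GCN
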