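import Pool.Agent.GCN.C1
import Pool.Agent.GCN.C2
import Pool.Agent.GCN.N1

set_option autoImplicit false

open Finset

namespace GCN

/-- the 400th root -/
theorem c4_root (x : ℕ) : ∃ v : ℕ, v ^ 400 ≤ x ∧ x < (v + 1) ^ 400 := by
  classical
  have h0 : ∃ n : ℕ, x < n ^ 400 :=
    ⟨x + 1, lt_of_lt_of_le (Nat.lt_succ_self x) (Nat.le_self_pow (by norm_num) _)⟩
  have h1 : Nat.find h0 ≠ 0 := by
    intro h
    have h2 := Nat.find_spec h0
    rw [h, zero_pow (by norm_num)] at h2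
    exact absurd h2 (Nat.not_lt_zero _)
  obtain ⟨v, hv⟩ := Nat.exists_eq_succ_of_ne_zero h1
  refine ⟨v, ?_, ?_⟩
  · have h2 := Nat.find_min h0 (m := v) (by omega)
    exact not_lt.1 h2
  · have h2 := Nat.find_spec h0
    rw [hv] at h2
    exact h2

/-- the parameter of the sieve -/
theorem c4_v {x W : ℕ} (hW : 16 ≤ W) (hWx : W ^ 400 ≤ x) :
    ∃ v : ℕ, v ^ 400 ≤ x ∧ W ≤ v ∧ 16 * v ≤ x ∧ Real.log x ≤ 800 * Real.log v := by
  obtain ⟨v, hv1, hv2⟩ := c4_root x
  have hWv : W ≤ v := by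
    have h1 : W ^ 400 < (v + 1) ^ 400 := lt_of_le_of_lt hWx hv2
    exact Nat.lt_succ_iff.1 (lt_of_pow_lt_pow_left₀ 400 (Nat.zero_le _) h1)
  have hv16 : 16 ≤ v := hW.trans hWv
  have hv0 : 0 < v := lt_of_lt_of_le (by norm_num) hv16
  have hxv : 16 * v ≤ x := by
    calc 16 * v ≤ v * v := Nat.mul_le_mul_right _ hv16
      _ = v ^ 2 := (pow_two v).symm
      _ ≤ v ^ 400 := Nat.pow_le_pow_right hv0 (by norm_num)
      _ ≤ x := hv1
  have hx0 : 0 < x := lt_of_lt_of_le (Nat.mul_pos (by norm_num) hv0) hxv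
  refine ⟨v, hv1, hWv, hxv, ?_⟩
  have h1 : Real.log x ≤ Real.log (((v + 1 : ℕ) : ℝ) ^ 400) := by
    apply Real.log_le_log (by exact_mod_cast hx0)
    exact_mod_cast hv2.le
  rw [Real.log_pow] at h1
  have h2 : Real.log ((v + 1 : ℕ) : ℝ) ≤ 2 * Real.log v := by
    have h3 : ((v + 1 : ℕ) : ℝ) ≤ (v : ℝ) ^ 2 := by
      have : v + 1 ≤ v ^ 2 := by
        clear h1 hv1 hv2 hWx
        nlinarith
      exact_mod_cast this
    have h4 := Real.log_le_log (Nat.cast_pos.2 (Nat.succ_pos v)) h3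
    rw [Real.log_pow] at h4
    exact_mod_cast h4
  clear hv1 hv2 hWx
  push_cast at h1 h2
  linarith

/-- the modulus is small -/
theorem c4_H {x v q : ℕ} (hx : 16 ≤ x) (hv : v ^ 400 ≤ x) (hq : q ^ 4 ≤ x) :
    q * v ^ 200 ≤ x - x / 2 := by
  by_contra hlt
  push Not at hlt
  generalize hu : v ^ 200 = u at hlt
  have hu2 : u ^ 2 ≤ x := by
    rw [← hu, ← pow_mul]
    exact hv
  clear hu hv
  have h1 : x < 2 * (q * u) := by omega
  have h2 : x ^ 4 < 16 * x ^ 3 := by
    calc x ^ 4 < (2 * (q * u)) ^ 4 := Nat.pow_lt_pow_left h1 (by norm_num)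
      _ = 16 * (q ^ 4 * (u ^ 2) ^ 2) := by ring
      _ ≤ 16 * (x * x ^ 2) := by
          apply Nat.mul_le_mul_left
          exact Nat.mul_le_mul hq (Nat.pow_le_pow_left hu2 2)
      _ = 16 * x ^ 3 := by ring
  have h3 : x ^ 4 = x * x ^ 3 := by ring
  rw [h3] at h2
  have h4 : x < 16 := lt_of_mul_lt_mul_right h2 (Nat.zero_le _)
  omega

/-- the forbidden classes -/
noncomputable def c4_R (y W v N : ℕ) (p : ℕ) : Finset ℕ := by
  classical
  exact if p.Prime ∧ y < p ∧ p ≤ W ∧ ¬ p ∣ N then {0, 1}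
    else if p.Prime ∧ W < p ∧ p ≤ v then {0} else ∅

theorem c4_R_one {y W v N p : ℕ} (h : p.Prime ∧ y < p ∧ p ≤ W ∧ ¬ p ∣ N) :
    c4_R y W v N p = {0, 1} := by
  simp only [c4_R, if_pos h]

theorem c4_R_two {y W v N p : ℕ} (h : ¬ (p.Prime ∧ y < p ∧ p ≤ W ∧ ¬ p ∣ N))
    (h' : p.Prime ∧ W < p ∧ p ≤ v) :
    c4_R y W v N p = {0} := by
  simp only [c4_R, if_neg h, if_pos h']

theorem c4_R_three {y W v N p : ℕ} (h : ¬ (p.Prime ∧ y < p ∧ p ≤ W ∧ ¬ p ∣ N))
    (h' : ¬ (p.Prime ∧ W < p ∧ p ≤ v)) :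
    c4_R y W v N p = ∅ := by
  simp only [c4_R, if_neg h, if_neg h']

theorem c4_R_card (y W v N p : ℕ) : (c4_R y W v N p).card ≤ 2 := by
  by_cases h : p.Prime ∧ y < p ∧ p ≤ W ∧ ¬ p ∣ N
  · rw [c4_R_one h]; exact Finset.card_le_two
  · by_cases h' : p.Prime ∧ W < p ∧ p ≤ v
    · rw [c4_R_two h h']; simp
    · rw [c4_R_three h h']; simp

theorem c4_R_sub (y W v N p : ℕ) : c4_R y W v N p ⊆ range p := by
  by_cases h : p.Prime ∧ y < p ∧ p ≤ W ∧ ¬ p ∣ N
  · rw [c4_R_one h]
    have := h.1.two_le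
    intro a ha
    simp only [Finset.mem_insert, Finset.mem_singleton] at ha
    rw [Finset.mem_range]
    omega
  · by_cases h' : p.Prime ∧ W < p ∧ p ≤ v
    · rw [c4_R_two h h']
      have := h'.1.two_le
      intro a ha
      simp only [Finset.mem_singleton] at ha
      rw [Finset.mem_range]
      omega
    · rw [c4_R_three h h']; simp

theorem c4_prod {y W v N : ℕ} (hy : 4 ≤ y) (hWv : W ≤ v) (hN : N ≠ 0)
    (hNp : ∀ p : ℕ, p.Prime → p ∣ N → y < p ∧ p ≤ W)
    (hcard : N.primeFactors.card ≤ y) :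
    ∏ p ∈ Nat.primesLE v, (1 - ((c4_R y W v N p).card : ℝ) / p) ≤
      Real.exp 4 * (∏ p ∈ (Ioc y W).filter Nat.Prime, (1 - 2 / (p : ℝ))) *
        ∏ p ∈ (Ioc W v).filter Nat.Prime, (1 - 1 / (p : ℝ)) := by
  classical
  have e1 : ∏ p ∈ (Ioc y W).filter Nat.Prime, (1 - 2 / (p : ℝ)) =
      ∏ p ∈ Nat.primesLE v, if p ∈ Ioc y W then (1 - 2 / (p : ℝ)) else 1 := by
    rw [← Finset.prod_filter]
    apply Finset.prod_congr _ (fun _ _ => rfl)
    ext p
    simp only [Finset.mem_filter, Nat.mem_primesLE, Finset.mem_Ioc]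
    constructor
    · rintro ⟨⟨h1, h2⟩, h3⟩
      exact ⟨⟨by omega, h3⟩, h1, h2⟩
    · rintro ⟨⟨h1, h2⟩, h3, h4⟩
      exact ⟨⟨h3, h4⟩, h2⟩
  have e2 : ∏ p ∈ (Ioc W v).filter Nat.Prime, (1 - 1 / (p : ℝ)) =
      ∏ p ∈ Nat.primesLE v, if p ∈ Ioc W v then (1 - 1 / (p : ℝ)) else 1 := by
    rw [← Finset.prod_filter]
    apply Finset.prod_congr _ (fun _ _ => rfl)
    ext p
    simp only [Finset.mem_filter, Nat.mem_primesLE, Finset.mem_Ioc]
    constructor
    · rintro ⟨⟨h1, h2⟩, h3⟩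
      exact ⟨⟨by omega, h3⟩, h1, h2⟩
    · rintro ⟨⟨h1, h2⟩, h3, h4⟩
      exact ⟨⟨h3, h4⟩, h2⟩
  have e3 : ∏ p ∈ Nat.primesLE v, (if p ∣ N then Real.exp (4 / y) else 1) ≤ Real.exp 4 := by
    rw [← Finset.prod_filter, Finset.prod_const]
    have h1 : ((Nat.primesLE v).filter (fun p => p ∣ N)).card ≤ y := by
      refine le_trans (Finset.card_le_card ?_) hcard
      intro p hp
      rw [Finset.mem_filter, Nat.mem_primesLE] at hp
      exact Nat.mem_primeFactors.2 ⟨hp.1.2, hp.2, hN⟩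
    have hy0 : (0 : ℝ) < y := by
      have : 0 < y := by omega
      exact_mod_cast this
    calc Real.exp (4 / y) ^ ((Nat.primesLE v).filter (fun p => p ∣ N)).card
        ≤ Real.exp (4 / y) ^ y := by
          apply pow_le_pow_right₀ _ h1
          exact Real.one_le_exp (by positivity)
      _ = Real.exp 4 := by
          rw [← Real.exp_nat_mul]
          congr 1
          field_simp
  have hlow : ∀ p ∈ Nat.primesLE v, y < p → (0 : ℝ) ≤ 1 - 2 / (p : ℝ) ∧ 0 ≤ 1 - 1 / (p : ℝ) := by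
    intro p _ hp
    have h1 : (4 : ℝ) ≤ p := by
      have : 4 ≤ p := by omega
      exact_mod_cast this
    constructor
    · rw [sub_nonneg, div_le_one (by linarith)]; linarith
    · rw [sub_nonneg, div_le_one (by linarith)]; linarith
  have key : ∏ p ∈ Nat.primesLE v, (1 - ((c4_R y W v N p).card : ℝ) / p) ≤
      ∏ p ∈ Nat.primesLE v, (((if p ∣ N then Real.exp (4 / y) else 1) *
        (if p ∈ Ioc y W then (1 - 2 / (p : ℝ)) else 1)) *
        (if p ∈ Ioc W v then (1 - 1 / (p : ℝ)) else 1)) := by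
    apply Finset.prod_le_prod
    · intro p hp
      rw [Nat.mem_primesLE] at hp
      have h1 : ((c4_R y W v N p).card : ℝ) ≤ 2 := by exact_mod_cast c4_R_card y W v N p
      have h2 : (2 : ℝ) ≤ p := by exact_mod_cast hp.2.two_le
      rw [sub_nonneg, div_le_one (by linarith)]
      linarith
    · intro p hp
      have hp' := hp
      rw [Nat.mem_primesLE] at hp
      obtain ⟨hpv, hpp⟩ := hp
      by_cases c1 : p ∈ Ioc y W
      · rw [Finset.mem_Ioc] at c1
        have c2 : p ∉ Ioc W v := by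
          rw [Finset.mem_Ioc]; omega
        rw [if_pos (Finset.mem_Ioc.2 c1), if_neg c2, mul_one]
        by_cases c3 : p ∣ N
        · rw [if_pos c3, c4_R_three (by tauto) (by omega)]
          simp only [Finset.card_empty, Nat.cast_zero, zero_div, sub_zero]
          -- 1 ≤ exp (4/y) * (1 - 2/p)
          have hpy : (y : ℝ) ≤ p := by exact_mod_cast c1.1.le
          have hy4 : (4 : ℝ) ≤ y := by exact_mod_cast hy
          have hp0 : (0 : ℝ) < p := by linarith
          have ht : 2 / (p : ℝ) ≤ 1 / 2 := by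
            rw [div_le_iff₀ hp0]; linarith
          have h5 : 1 + 4 / (p : ℝ) ≤ Real.exp (4 / y) := by
            calc 1 + 4 / (p : ℝ) ≤ 1 + 4 / y := by gcongr
              _ ≤ Real.exp (4 / y) := by
                have := Real.add_one_le_exp (4 / (y : ℝ))
                linarith
          have h6 : (1 : ℝ) ≤ (1 + 4 / (p : ℝ)) * (1 - 2 / (p : ℝ)) := by
            have h7 : 4 / (p : ℝ) = 2 * (2 / (p : ℝ)) := by ring
            rw [h7]
            have h8 : 0 < 2 / (p : ℝ) := by positivity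
            nlinarith
          calc (1 : ℝ) ≤ (1 + 4 / (p : ℝ)) * (1 - 2 / (p : ℝ)) := h6
            _ ≤ Real.exp (4 / y) * (1 - 2 / (p : ℝ)) := by
              apply mul_le_mul_of_nonneg_right h5
              linarith
        · rw [if_neg c3, c4_R_one ⟨hpp, c1.1, c1.2, c3⟩, one_mul, Finset.card_pair (by norm_num)]
          norm_num
      · rw [if_neg c1]
        have c3 : ¬ p ∣ N := fun h => c1 (Finset.mem_Ioc.2 (hNp p hpp h))
        rw [if_neg c3, one_mul, one_mul]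
        by_cases c2 : p ∈ Ioc W v
        · rw [if_pos c2]
          rw [Finset.mem_Ioc] at c1 c2
          rw [c4_R_two (by tauto) ⟨hpp, c2⟩]
          simp
        · rw [if_neg c2]
          rw [Finset.mem_Ioc] at c1 c2
          rw [c4_R_three (by tauto) (by tauto)]
          simp
  rw [Finset.prod_mul_distrib, Finset.prod_mul_distrib, ← e1, ← e2] at key
  refine key.trans ?_
  apply mul_le_mul_of_nonneg_right
  · apply mul_le_mul_of_nonneg_right e3
    rw [e1]
    apply Finset.prod_nonneg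
    intro p hp
    split_ifs with h
    · exact (hlow p hp (Finset.mem_Ioc.1 h).1).1
    · norm_num
  · apply Finset.prod_nonneg
    intro p hp
    rw [Finset.mem_filter, Finset.mem_Ioc] at hp
    have h1 : (1 : ℝ) ≤ p := by exact_mod_cast hp.2.one_lt.le
    rw [sub_nonneg, div_le_one (by linarith)]
    exact h1

theorem c4_cop {a b T : ℕ} (ha : ∀ p : ℕ, p.Prime → p ∣ a → p ≤ T)
    (hb : ∀ p : ℕ, p.Prime → p ∣ b → T < p) : a.Coprime b := by
  by_contra h
  obtain ⟨p, hp, h1, h2⟩ := Nat.Prime.not_coprime_iff_dvd.1 h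
  have := ha p hp h1
  have := hb p hp h2
  omega

theorem c4_f_prime {K p : ℕ} (hK : 2 ≤ K) (hp : p.Prime) : p ∣ 4 * K.factorial ↔ p ≤ K := by
  rw [hp.dvd_mul, hp.dvd_factorial]
  constructor
  · rintro (h | h)
    · have h1 : p ∣ 2 := by
        have : p ∣ 2 ^ 2 := by norm_num; exact h
        exact hp.dvd_of_dvd_pow this
      have := Nat.le_of_dvd (by norm_num) h1
      omega
    · exact h
  · exact Or.inr

theorem c4_L_prime {K y z p : ℕ} (hp : p.Prime) : p ∣ Lc z (cp K y) ↔ K < p ∧ p ≤ y := by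
  rw [prime_dvd_Lc z (cp K y) (fun l hl => (Finset.mem_filter.1 hl).2) p hp]
  simp [cp, hp]

/-- `φ(f) φ(L0) log y ≤ C f L0` -/
theorem c4_tot {C : ℝ} (hC : ∀ y : ℕ, 2 ≤ y →
    ∏ p ∈ Nat.primesLE y, (1 - 1 / (p : ℝ)) ≤ C / Real.log y) {K y z : ℕ} (hK : 2 ≤ K)
    (hKy : K < y) :
    (Nat.totient (4 * K.factorial) : ℝ) * Nat.totient (Lc z (cp K y)) * Real.log y ≤
      C * ((4 * K.factorial : ℕ) * (Lc z (cp K y) : ℕ)) := by
  have hcop : Nat.Coprime (4 * K.factorial) (Lc z (cp K y)) := by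
    apply c4_cop (T := K)
    · intro p hp h
      exact (c4_f_prime hK hp).1 h
    · intro p hp h
      exact ((c4_L_prime hp).1 h).1
  have h1 := Nat.totient_eq_mul_prod_factors (4 * K.factorial * Lc z (cp K y))
  have hne : 4 * K.factorial * Lc z (cp K y) ≠ 0 := by
    apply mul_ne_zero
    · have := Nat.factorial_pos K
      omega
    · exact Lc_ne_zero z _ (fun l hl => (Finset.mem_filter.1 hl).2)
  have h2 : (4 * K.factorial * Lc z (cp K y)).primeFactors = Nat.primesLE y := by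
    ext p
    rw [Nat.mem_primeFactors, Nat.mem_primesLE]
    constructor
    · rintro ⟨hp, h, _⟩
      refine ⟨?_, hp⟩
      rcases (hp.dvd_mul).1 h with h | h
      · have := (c4_f_prime hK hp).1 h
        omega
      · exact ((c4_L_prime hp).1 h).2
    · rintro ⟨h, hp⟩
      refine ⟨hp, ?_, hne⟩
      by_cases hpK : p ≤ K
      · exact dvd_mul_of_dvd_left ((c4_f_prime hK hp).2 hpK) _
      · exact dvd_mul_of_dvd_right ((c4_L_prime hp).2 ⟨by omega, h⟩) _
  rw [h2, Nat.totient_mul hcop] at h1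
  have h3 : ((Nat.totient (4 * K.factorial) : ℝ) * Nat.totient (Lc z (cp K y))) =
      ((4 * K.factorial : ℕ) * (Lc z (cp K y) : ℕ) : ℝ) *
        ∏ p ∈ Nat.primesLE y, (1 - 1 / (p : ℝ)) := by
    have h4 : (((Nat.totient (4 * K.factorial) * Nat.totient (Lc z (cp K y)) : ℕ) : ℚ) : ℝ) =
      (((4 * K.factorial * Lc z (cp K y) : ℕ) : ℚ) *
        ∏ p ∈ Nat.primesLE y, (1 - (p : ℚ)⁻¹) : ℚ) := by rw [h1]
    push_cast at h4
    push_cast
    simpa [one_div] using h4
  have hy : (0 : ℝ) < Real.log y := Real.log_pos (by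
    have : 1 < y := by omega
    exact_mod_cast this)
  have h5 := hC y (by omega)
  rw [le_div_iff₀ hy] at h5
  rw [h3, mul_assoc, mul_comm C]
  exact mul_le_mul_of_nonneg_left h5 (by positivity)

theorem c4_sub {K z y W x M M' b v c : ℕ} (hK : 2 ≤ K) (hKy : K < y) (hy4 : 4 ≤ y)
    (hvx : v ≤ x / 2) (hcop : Nat.Coprime M M')
    (hp : ∀ p : ℕ, p.Prime → p ∣ M * M' → y < p ∧ p ≤ W)
    (hc : c ∈ (SM (4 * K.factorial) x y W M).filter (fun s => s ≡ b [MOD Lc z (cp K y) * M'])) :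
    (SM (4 * K.factorial) x y W M).filter (fun s => s ≡ b [MOD Lc z (cp K y) * M']) ⊆
      (Ioc (x / 2) (x / 2 + (x - x / 2))).filter
      (fun n => n ≡ c [MOD 4 * K.factorial * Lc z (cp K y) * M * M'] ∧
        ∀ p ∈ Nat.primesLE v, n % p ∉ c4_R y W v (M * M') p) := by
  classical
  have hmem : ∀ s, s ∈ (SM (4 * K.factorial) x y W M).filter
      (fun s => s ≡ b [MOD Lc z (cp K y) * M']) →
      x / 2 < s ∧ s ≤ x ∧ s.Prime ∧ 4 * K.factorial ∣ s + 1 ∧
        prt (Set.Ioc y W) ((s - 1) / 2) = M ∧ s ≡ b [MOD Lc z (cp K y) * M'] ∧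
        s = 2 * ((s - 1) / 2) + 1 ∧ (s - 1) / 2 ≠ 0 ∧ M ∣ (s - 1) / 2 := by
    intro s hs
    rw [Finset.mem_filter] at hs
    obtain ⟨h1, h2⟩ := hs
    simp only [SM, Finset.mem_filter, Pm, Finset.mem_Ioc] at h1
    obtain ⟨⟨⟨h3, h4⟩, h5, h6⟩, h7⟩ := h1
    have h8 : 4 ∣ s + 1 := Dvd.dvd.trans (dvd_mul_right 4 _) h6
    have h9 : (s - 1) / 2 ≠ 0 := by
      have := h5.two_le
      omega
    refine ⟨h3, h4, h5, h6, h7, h2, by omega, h9, ?_⟩
    rw [← h7]
    exact prt_dvd _ _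
  obtain ⟨_, _, _, hc4, _, hc6, hc7, _, hc9⟩ := hmem c hc
  intro s hs
  obtain ⟨h1, h2, h3, h4, h5, h6, h7, h8, h9⟩ := hmem s hs
  rw [Finset.mem_filter, Finset.mem_Ioc]
  refine ⟨⟨h1, by omega⟩, ?_, ?_⟩
  · -- congruence
    have g1 : s ≡ c [MOD 4 * K.factorial] := by
      have k1 : s + 1 ≡ c + 1 [MOD 4 * K.factorial] :=
        ((Nat.modEq_zero_iff_dvd.2 h4).trans (Nat.modEq_zero_iff_dvd.2 hc4).symm)
      exact Nat.ModEq.add_right_cancel' 1 k1
    have g2 : s ≡ c [MOD Lc z (cp K y) * M'] := h6.trans hc6.symm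
    have g3 : s ≡ c [MOD M] := by
      obtain ⟨u, hu⟩ := h9
      obtain ⟨w, hw⟩ := hc9
      have k1 : s = M * (2 * u) + 1 := by rw [h7, hu]; ring
      have k2 : c = M * (2 * w) + 1 := by rw [hc7, hw]; ring
      rw [k1, k2]
      apply Nat.ModEq.add_right
      exact (Nat.modEq_zero_iff_dvd.2 (dvd_mul_right _ _)).trans
        (Nat.modEq_zero_iff_dvd.2 (dvd_mul_right _ _)).symm
    have hM : ∀ p : ℕ, p.Prime → p ∣ M → y < p := fun p hpp h =>
      (hp p hpp (dvd_mul_of_dvd_left h _)).1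
    have hM' : ∀ p : ℕ, p.Prime → p ∣ M' → y < p := fun p hpp h =>
      (hp p hpp (dvd_mul_of_dvd_right h _)).1
    have f1 : Nat.Coprime (4 * K.factorial) (Lc z (cp K y) * M') := by
      apply c4_cop (T := K)
      · intro p hpp h
        exact (c4_f_prime hK hpp).1 h
      · intro p hpp h
        rcases (hpp.dvd_mul).1 h with h | h
        · exact ((c4_L_prime hpp).1 h).1
        · have := hM' p hpp h
          omega
    have f2 : Nat.Coprime (4 * K.factorial * (Lc z (cp K y) * M')) M := by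
      apply Nat.Coprime.mul_left
      · apply c4_cop (T := K)
        · intro p hpp h
          exact (c4_f_prime hK hpp).1 h
        · intro p hpp h
          have := hM p hpp h
          omega
      · apply Nat.Coprime.mul_left
        · apply c4_cop (T := y)
          · intro p hpp h
            exact ((c4_L_prime hpp).1 h).2
          · exact hM
        · exact hcop.symm
    have g4 := (Nat.modEq_and_modEq_iff_modEq_mul f1).1 ⟨g1, g2⟩
    have g5 := (Nat.modEq_and_modEq_iff_modEq_mul f2).1 ⟨g4, g3⟩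
    have e : 4 * K.factorial * Lc z (cp K y) * M * M' =
        4 * K.factorial * (Lc z (cp K y) * M') * M := by ring
    rw [e]
    exact g5
  · intro p hpv
    rw [Nat.mem_primesLE] at hpv
    obtain ⟨hpv, hpp⟩ := hpv
    have hz : s % p ≠ 0 := by
      intro h
      have h' := (Nat.prime_dvd_prime_iff_eq hpp h3).1 (Nat.dvd_of_mod_eq_zero h)
      omega
    by_cases c1 : p.Prime ∧ y < p ∧ p ≤ W ∧ ¬ p ∣ M * M'
    · rw [c4_R_one c1, Finset.mem_insert, Finset.mem_singleton]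
      rintro (h | h)
      · exact hz h
      · apply c1.2.2.2
        apply dvd_mul_of_dvd_left
        rw [← h5]
        apply dvd_prt _ _ _ h8
        · have k1 : p ∣ s - 1 := by
            have k2 : s ≡ 1 [MOD p] := by
              unfold Nat.ModEq
              rw [h, Nat.mod_eq_of_lt hpp.one_lt]
            exact (Nat.modEq_iff_dvd' h3.one_lt.le).1 k2.symm
          have k3 : s - 1 = 2 * ((s - 1) / 2) := by omega
          rw [k3] at k1
          rcases (hpp.dvd_mul).1 k1 with k4 | k4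
          · have := Nat.le_of_dvd (by norm_num) k4
            omega
          · exact k4
        · intro q hq hqp
          have : q = p := (Nat.prime_dvd_prime_iff_eq hq hpp).1 hqp
          rw [this]
          exact ⟨c1.2.1, c1.2.2.1⟩
    · by_cases c2 : p.Prime ∧ W < p ∧ p ≤ v
      · rw [c4_R_two c1 c2, Finset.mem_singleton]
        exact hz
      · rw [c4_R_three c1 c2]
        simp

/-- the final computation -/
theorem c4_final {A C0 C1 C2 x q f L M M' H P e ly lW lx lv pf pL pM : ℝ} (hC0 : 0 ≤ C0) (hC1 : 0 ≤ C1)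
    (hx : 0 ≤ x) (hf : 0 < f) (hL : 0 < L) (hM : 0 < M) (hM' : 0 < M') (hHx : H ≤ x)
    (he : 0 < e) (hly : 0 < ly) (hlW : 0 < lW) (hlx : 0 < lx) (hlv : lx ≤ 800 * lv)
    (hpf : 0 < pf) (hpL : 0 < pL) (hpM : 0 < pM) (hpM' : pM ≤ M')
    (hq : q = f * L * M * M') (hT : pf * pL * ly ≤ C2 * (f * L))
    (hP : P ≤ e * (C1 * (ly / lW) ^ 2) * (C1 * (lW / lv)))
    (hA : A ≤ C0 * (H / q) * P) (hP0 : 0 ≤ P) :
    A ≤ (C0 * e * C1 ^ 2 * 800 * C2) * (x * ly / (pf * lx * lW)) / (M * pL * pM) := by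
  have hlv0 : 0 < lv := by linarith
  have hq0 : 0 < q := by rw [hq]; positivity
  have h1 : P ≤ e * C1 ^ 2 * 800 * (ly ^ 2 / (lW * lx)) := by
    refine hP.trans ?_
    have h2 : lW / lv ≤ 800 * (lW / lx) := by
      rw [div_le_iff₀ hlv0]
      have : 800 * (lW / lx) * lv = lW * ((800 * lv) / lx) := by ring
      rw [this]
      have h3 : 1 ≤ (800 * lv) / lx := by rw [le_div_iff₀ hlx]; linarith
      nlinarith
    calc e * (C1 * (ly / lW) ^ 2) * (C1 * (lW / lv))
        ≤ e * (C1 * (ly / lW) ^ 2) * (C1 * (800 * (lW / lx))) := by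
          apply mul_le_mul_of_nonneg_left _ (by positivity)
          exact mul_le_mul_of_nonneg_left h2 hC1
      _ = e * C1 ^ 2 * 800 * (ly ^ 2 / (lW * lx)) := by
          field_simp
  have h2 : C0 * (H / q) * P ≤ C0 * (x / q) * (e * C1 ^ 2 * 800 * (ly ^ 2 / (lW * lx))) := by
    apply mul_le_mul _ h1 hP0 (by positivity)
    apply mul_le_mul_of_nonneg_left _ hC0
    exact div_le_div_of_nonneg_right hHx hq0.le
  refine hA.trans (h2.trans ?_)
  have h3 : 1 / (f * L) ≤ C2 / (pf * pL * ly) := by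
    rw [div_le_div_iff₀ (by positivity) (by positivity)]
    linarith
  have h4 : 1 / M' ≤ 1 / pM := one_div_le_one_div_of_le hpM hpM'
  have h5 : 1 / (f * L) * (1 / M') ≤ C2 / (pf * pL * ly) * (1 / pM) := by
    apply mul_le_mul h3 h4 (by positivity)
    exact le_trans (by positivity) h3
  calc C0 * (x / q) * (e * C1 ^ 2 * 800 * (ly ^ 2 / (lW * lx)))
      = (C0 * x * (e * C1 ^ 2 * 800 * (ly ^ 2 / (lW * lx))) / M) * (1 / (f * L) * (1 / M')) := by
        rw [hq]; field_simp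
    _ ≤ (C0 * x * (e * C1 ^ 2 * 800 * (ly ^ 2 / (lW * lx))) / M) *
        (C2 / (pf * pL * ly) * (1 / pM)) := by
        apply mul_le_mul_of_nonneg_left h5
        positivity
    _ = (C0 * e * C1 ^ 2 * 800 * C2) * (x * ly / (pf * lx * lW)) / (M * pL * pM) := by
        field_simp

/-- [C4] Proof. Let `f = 4 K!`, `L0 = Lc z (cp K y)`, `q0 = f L0 M M'` (four pairwise coprime factors: the primes of `f` are `≤ K`, those of `L0` in `(K, y]`, those of `M`, `M'` in `(y, W]`). For `s` counted: `f ∣ s + 1`,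
`s ≡ b mod L0 M'` and `M ∣ (s-1)/2`, so `s ≡ 1 mod M`: `s` is in one class modulo `q0` (Chinese remainder theorem). Let `v` be maximal with `v^400 ≤ x`: `v ≥ W`, `(v+1)^400 > x`, so `log v ≥ (log x)/800`. Forbidden classes:
`R p = ∅` for `p ≤ y` and for `p ∣ M M'`; `R p = {0, 1}` for the other primes `p ∈ (y, W]`; `R p = {0}` for `p ∈ (W, v]`; `∅` for `p > v` or not prime. A prime `s > x/2 ≥ v` is not `0 mod p`; `s ≡ 1 mod p`, `p ∈ (y, W]` odd, gives
`p ∣ (s-1)/2`, so `p ∣ M`. `q0^4 ≤ x`, so `q0 v^200 ≤ x^(3/4) ≤ x/2`: `block_sieve` with `N = x/2`, `H = x - x/2`: the number is at most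
`C (x/q0) ∏_{y<p≤W, p∤MM'} (1-2/p) ∏_{W<p≤v} (1-1/p)`. The primes `p ∣ M M'` (at most `y` of them, all `> y ≥ 4`) cost a factor `≤ (1-2/y)^(-y) ≤ 16` (`1 - 2/p ≥ (1/4)^(1/p·2)…`: `(1 - t)⁻¹ ≤ exp(2t)` for `t ≤ 1/2`). By
`prod_up`: `≤ C' (x/q0) (log y/log W)² (log W/log v) ≤ 800 C' (x/q0) (log y)²/(log W log x)`. Finally `φ(f) φ(L0)/(f L0) = ∏_{p ≤ y} (1 - 1/p) ≤ C/log y` (`prod_full`; `f L0` has exactly the primes `≤ y`;
`Nat.totient_eq_mul_prod_factors`) and `φ(M') ≤ M'`. `y0 = 1024`. -/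
theorem sb : ∃ C : ℝ, 1 ≤ C ∧ ∃ y0 : ℕ, ∀ K z y W x M M' b : ℕ, 2 ≤ K → K < y → y0 ≤ y → y < W →
    W ^ 400 ≤ x → M ≠ 0 → M' ≠ 0 → Nat.Coprime M M' →
    (∀ p : ℕ, p.Prime → p ∣ M * M' → y < p ∧ p ≤ W) → (M * M').primeFactors.card ≤ y →
    (4 * K.factorial * Lc z (cp K y) * M * M') ^ 4 ≤ x →
    (((SM (4 * K.factorial) x y W M).filter
      (fun s => s ≡ b [MOD Lc z (cp K y) * M'])).card : ℝ) ≤
      C * EE (4 * K.factorial) x y W /
        (M * Nat.totient (Lc z (cp K y)) * Nat.totient M') := by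
  classical
  obtain ⟨C0, hC0, hsieve⟩ := block_sieve
  obtain ⟨C1, hC1, hup⟩ := prod_up
  obtain ⟨C2, hC2, hfull⟩ := prod_full
  have he1 : (1 : ℝ) ≤ Real.exp 4 := Real.one_le_exp (by norm_num)
  refine ⟨C0 * Real.exp 4 * C1 ^ 2 * 800 * C2, ?_, 1024, ?_⟩
  · have a1 : 1 ≤ C0 * Real.exp 4 := one_le_mul_of_one_le_of_one_le hC0 he1
    have a2 : 1 ≤ C1 ^ 2 := one_le_pow₀ hC1
    have a3 : 1 ≤ C0 * Real.exp 4 * C1 ^ 2 := one_le_mul_of_one_le_of_one_le a1 a2
    have a4 : 1 ≤ C0 * Real.exp 4 * C1 ^ 2 * 800 :=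
      one_le_mul_of_one_le_of_one_le a3 (by norm_num)
    exact one_le_mul_of_one_le_of_one_le a4 hC2
  intro K z y W x M M' b hK hKy hy0 hyW hWx hM hM' hcop hp hcard hq4
  have hW16 : 16 ≤ W := by
    clear hWx
    omega
  obtain ⟨v, hv1, hWv, hxv, hlv⟩ := c4_v hW16 hWx
  have hx16 : 16 ≤ x := by
    clear hv1 hWx
    omega
  have hH := c4_H hx16 hv1 hq4
  clear hWx hv1 hq4
  generalize hH' : v ^ 200 = v200 at hH
  have hvx : v ≤ x / 2 := by omega
  have hf0 : 0 < 4 * K.factorial := by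
    have := Nat.factorial_pos K
    omega
  have hL0 : 0 < Lc z (cp K y) :=
    Nat.pos_of_ne_zero (Lc_ne_zero z _ (fun l hl => (Finset.mem_filter.1 hl).2))
  have hMp : 0 < M := Nat.pos_of_ne_zero hM
  have hMp' : 0 < M' := Nat.pos_of_ne_zero hM'
  have hq0 : 1 ≤ 4 * K.factorial * Lc z (cp K y) * M * M' := by
    have : 0 < 4 * K.factorial * Lc z (cp K y) * M * M' := by positivity
    exact this
  have hEE : EE (4 * K.factorial) x y W = (x : ℝ) * Real.log y /
    (Nat.totient (4 * K.factorial) * Real.log x * Real.log W) := rfl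
  have hly : 0 < Real.log y := Real.log_pos (by
    have : 1 < y := by omega
    exact_mod_cast this)
  have hlW : 0 < Real.log W := Real.log_pos (by
    have : 1 < W := by omega
    exact_mod_cast this)
  have hlx : 0 < Real.log x := Real.log_pos (by
    have : 1 < x := by omega
    exact_mod_cast this)
  have hpf : (0 : ℝ) < Nat.totient (4 * K.factorial) := by
    exact_mod_cast Nat.totient_pos.2 hf0
  have hpL : (0 : ℝ) < Nat.totient (Lc z (cp K y)) := by
    exact_mod_cast Nat.totient_pos.2 hL0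
  have hpM : (0 : ℝ) < Nat.totient M' := by
    exact_mod_cast Nat.totient_pos.2 hMp'
  rcases Finset.eq_empty_or_nonempty ((SM (4 * K.factorial) x y W M).filter
      (fun s => s ≡ b [MOD Lc z (cp K y) * M'])) with hemp | ⟨c, hc⟩
  · rw [hemp, Finset.card_empty, Nat.cast_zero, hEE]
    positivity
  have hsub := c4_sub hK hKy (by omega) hvx hcop hp hc
  have hmain := hsieve (c4_R y W v (M * M')) (4 * K.factorial * Lc z (cp K y) * M * M') c (x / 2)
    (x - x / 2) v hq0 (by omega)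
    (fun p => ⟨c4_R_sub y W v (M * M') p, c4_R_card y W v (M * M') p⟩) ?_ (by rw [hH']; exact hH)
  swap
  · intro p hne
    have hcase : (p.Prime ∧ y < p ∧ p ≤ W ∧ ¬ p ∣ M * M') ∨ (p.Prime ∧ W < p ∧ p ≤ v) := by
      by_contra hno
      rw [not_or] at hno
      rw [c4_R_three hno.1 hno.2] at hne
      exact Finset.not_nonempty_empty hne
    have hpp : p.Prime := by
      rcases hcase with h | h
      · exact h.1
      · exact h.1
    have hyp : y < p := by
      rcases hcase with h | h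
      · exact h.2.1
      · have := h.2.1
        omega
    refine ⟨hpp, by omega, ?_⟩
    intro hd
    have hd' : p ∣ 4 * K.factorial * Lc z (cp K y) * (M * M') := by
      rw [← mul_assoc]
      exact hd
    rcases (hpp.dvd_mul).1 hd' with h | h
    · rcases (hpp.dvd_mul).1 h with h | h
      · have := (c4_f_prime hK hpp).1 h
        omega
      · have := ((c4_L_prime hpp).1 h).2
        omega
    · rcases hcase with g | g
      · exact g.2.2.2 h
      · have := (hp p hpp h).2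
        omega
  have hA := (Nat.cast_le (α := ℝ)).2 (Finset.card_le_card hsub)
  have hA' := hA.trans hmain
  have hprod := c4_prod (v := v) (by omega : 4 ≤ y) hWv (Nat.mul_ne_zero hM hM') hp hcard
  have hy2 : 2 ≤ y := by omega
  have hW2 : 2 ≤ W := by omega
  have u1 := (hup y W hy2 hyW.le).2
  have u2 := (hup W v hW2 hWv).1
  have hP0 : 0 ≤ ∏ p ∈ Nat.primesLE v, (1 - ((c4_R y W v (M * M') p).card : ℝ) / p) := by
    apply Finset.prod_nonneg
    intro p hpv
    rw [Nat.mem_primesLE] at hpv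
    have h1 : ((c4_R y W v (M * M') p).card : ℝ) ≤ 2 := by
      exact_mod_cast c4_R_card y W v (M * M') p
    have h2 : (2 : ℝ) ≤ p := by exact_mod_cast hpv.2.two_le
    rw [sub_nonneg, div_le_one (by linarith)]
    linarith
  have hP : ∏ p ∈ Nat.primesLE v, (1 - ((c4_R y W v (M * M') p).card : ℝ) / p) ≤
      Real.exp 4 * (C1 * (Real.log y / Real.log W) ^ 2) * (C1 * (Real.log W / Real.log v)) := by
    refine hprod.trans ?_
    apply mul_le_mul _ u2
    · apply Finset.prod_nonneg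
      intro p hpm
      rw [Finset.mem_filter, Finset.mem_Ioc] at hpm
      have h1 : (1 : ℝ) ≤ p := by exact_mod_cast hpm.2.one_lt.le
      rw [sub_nonneg, div_le_one (by linarith)]
      exact h1
    · positivity
    · exact mul_le_mul_of_nonneg_left u1 (by positivity)
  have hHx : (((x - x / 2 : ℕ)) : ℝ) ≤ x := by
    exact_mod_cast Nat.sub_le _ _
  have hT := c4_tot hfull (z := z) hK hKy
  have hfin := c4_final (A := (((SM (4 * K.factorial) x y W M).filter
      (fun s => s ≡ b [MOD Lc z (cp K y) * M'])).card : ℝ)) (C0 := C0) (C1 := C1) (C2 := C2)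
    (x := x) (q := ((4 * K.factorial * Lc z (cp K y) * M * M' : ℕ) : ℝ))
    (f := ((4 * K.factorial : ℕ) : ℝ)) (L := ((Lc z (cp K y) : ℕ) : ℝ)) (M := M) (M' := M')
    (e := Real.exp 4) (ly := Real.log y) (lW := Real.log W) (lx := Real.log x)
    (lv := Real.log v) (pM := Nat.totient M')
    (by linarith) (by linarith) (Nat.cast_nonneg x) (by exact_mod_cast hf0) (by exact_mod_cast hL0)
    (by exact_mod_cast hMp) (by exact_mod_cast hMp') hHx (by positivity) hly hlW hlx hlv hpf hpL hpM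
    (by exact_mod_cast Nat.totient_le M') (by push_cast; ring) hT hP hA' hP0
  rw [hEE]
  exact hfin

end GCN
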