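import Pool.Agent.GCN.C5a
import Pool.Agent.GCN.C2

/-!
# [GCN-C5] the parts `M` are heavy for most primes `s`
-/

set_option autoImplicit false

open Finset

namespace GCN

theorem c5_mem (f x y W M s : ℕ) : s ∈ SM f x y W M ↔
    s ∈ Pm f (x / 2) x ∧ prt (Set.Ioc y W) ((s - 1) / 2) = M := by
  unfold SM
  simp only [mem_filter]

/-- the numbers `s` of a set `B` with rare parts are few -/
theorem c5_rare {C : ℝ} (_hC : 1 ≤ C)
    (hsum : ∀ (y W : ℕ) (T : Finset ℕ), 2 ≤ y → y ≤ W →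
      (∀ M ∈ T, M ≠ 0 ∧ ∀ p : ℕ, p.Prime → p ∣ M → y < p ∧ p ≤ W) →
      ∑ M ∈ T, (1 : ℝ) / M ≤ C * (Real.log W / Real.log y))
    (f x y W : ℕ) (c : ℝ) (hc : 0 < c) (hy : 2 ≤ y) (hyW : y < W) (hx : 1 ≤ x) (B : Finset ℕ)
    (hB : ∀ s ∈ B, s ∈ Pm f (x / 2) x ∧
      ((SM f x y W (prt (Set.Ioc y W) ((s - 1) / 2))).card : ℝ) ≤
        c * EE f x y W / ((prt (Set.Ioc y W) ((s - 1) / 2) : ℕ) : ℝ)) :
    (B.card : ℝ) ≤ c * C * ((x : ℝ) / (Nat.totient f * Real.log x)) := by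
  classical
  have hly : 0 < Real.log y := Real.log_pos (by exact_mod_cast (by omega : 1 < y))
  have hlW : 0 < Real.log W := Real.log_pos (by exact_mod_cast (by omega : 1 < W))
  have hlx : 0 ≤ Real.log x := Real.log_nonneg (by exact_mod_cast hx)
  have hEE : 0 ≤ EE f x y W := by
    unfold EE
    positivity
  have h1 : (B.card : ℝ) ≤ ∑ M ∈ B.image (fun s => prt (Set.Ioc y W) ((s - 1) / 2)),
      c * EE f x y W * (1 / (M : ℝ)) := by
    rw [Finset.card_eq_sum_card_image (fun s => prt (Set.Ioc y W) ((s - 1) / 2)) B, Nat.cast_sum]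
    refine Finset.sum_le_sum fun M hM => ?_
    obtain ⟨s, hs, rfl⟩ := Finset.mem_image.1 hM
    refine le_trans ?_ (le_trans (hB s hs).2 (le_of_eq (by ring)))
    refine Nat.cast_le.2 (Finset.card_le_card fun a ha => ?_)
    rw [Finset.mem_filter] at ha
    exact (c5_mem _ _ _ _ _ _).2 ⟨(hB a ha.1).1, ha.2⟩
  have h2 := hsum y W (B.image (fun s => prt (Set.Ioc y W) ((s - 1) / 2))) hy hyW.le (by
    intro M hM
    obtain ⟨s, hs, rfl⟩ := Finset.mem_image.1 hM
    exact ⟨prt_ne_zero _ _, fun p hp hpM => (prime_of_dvd_prt _ _ p hp hpM).1⟩)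
  rw [← Finset.mul_sum] at h1
  have h3 : c * EE f x y W * (C * (Real.log W / Real.log y)) =
      c * C * ((x : ℝ) / (Nat.totient f * Real.log x)) := by
    have e1 : EE f x y W * (Real.log W / Real.log y) = (x : ℝ) / (Nat.totient f * Real.log x) := by
      unfold EE
      rw [div_mul_div_comm, mul_comm (x : ℝ) (Real.log y), mul_assoc (Real.log y) (x : ℝ),
        mul_comm (_ * Real.log W) (Real.log y), mul_div_mul_left _ _ hly.ne',
        mul_div_mul_right _ _ hlW.ne']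
    calc c * EE f x y W * (C * (Real.log W / Real.log y)) =
        c * C * (EE f x y W * (Real.log W / Real.log y)) := by ring
      _ = _ := by rw [e1]
  rw [← h3]
  exact h1.trans (mul_le_mul_of_nonneg_left h2 (by positivity))

/-- [C5b] Proof. `C3` from `mk`, `C` from `sum_M`, `c = 1/(64 C)`. The `s` with `Mp s = M` and `#(SM f x y W M) < c EE/M` are, summed over the different values `M` (which satisfy the hypothesis of `sum_M`:
`prt_ne_zero`, `prime_of_dvd_prt` in N1), at most `∑_M c EE/M ≤ c C EE log W/log y = c C x/(φ(f) log x) ≤ 16 c C #S = #S/4`. -/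
theorem heavy : ∃ (C3 : ℕ) (c : ℝ), 1 ≤ C3 ∧ 0 < c ∧ c ≤ 1 ∧ ∃ x0 : ℕ, ∀ f x y W : ℕ, 1 ≤ f →
    x0 ≤ x → 2 ≤ y → y < W → W ^ 400 ≤ x → f ^ 400 ≤ x →
    (x : ℝ) / (16 * Nat.totient f * Real.log x) ≤ ((Pm f (x / 2) x).card : ℝ) →
    (Pm f (x / 2) x).card ≤ 2 * ((Pm f (x / 2) x).filter
      (fun s => prt (Set.Ioc y W) ((s - 1) / 2) ≤ W ^ C3 ∧
        c * EE f x y W / ((prt (Set.Ioc y W) ((s - 1) / 2) : ℕ) : ℝ) ≤
          ((SM f x y W (prt (Set.Ioc y W) ((s - 1) / 2))).card : ℝ))).card := by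
  classical
  obtain ⟨C3, hC3, x0, hmk⟩ := mk
  obtain ⟨C, hC, hsum⟩ := sum_M
  have hC0 : 0 < C := by linarith
  refine ⟨C3, 1 / (64 * C), hC3, by positivity, ?_, x0, ?_⟩
  · rw [div_le_one (by positivity)]
    linarith
  intro f x y W hf hx hy hyW hWx hfx hS
  have hW1 : 1 ≤ W := by omega
  have hx1 : 1 ≤ x := le_trans (Nat.one_le_pow _ _ hW1) hWx
  have hx2 : 1 < x := lt_of_lt_of_le (Nat.one_lt_pow (by norm_num) (by omega : 1 < W)) hWx
  have hlx : 0 < Real.log x := Real.log_pos (by exact_mod_cast hx2)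
  have hphi : (0 : ℝ) < Nat.totient f := by exact_mod_cast Nat.totient_pos.2 hf
  have hm := hmk f x y W hf hx hy hyW hWx hfx hS
  set S := Pm f (x / 2) x with hSdef
  set B1 := S.filter (fun s => W ^ C3 < prt (Set.Ioc y W) ((s - 1) / 2)) with hB1
  set B2 := S.filter (fun s => ¬ (1 / (64 * C) * EE f x y W /
      ((prt (Set.Ioc y W) ((s - 1) / 2) : ℕ) : ℝ) ≤
      ((SM f x y W (prt (Set.Ioc y W) ((s - 1) / 2))).card : ℝ))) with hB2
  set G := S.filter (fun s => prt (Set.Ioc y W) ((s - 1) / 2) ≤ W ^ C3 ∧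
      1 / (64 * C) * EE f x y W / ((prt (Set.Ioc y W) ((s - 1) / 2) : ℕ) : ℝ) ≤
      ((SM f x y W (prt (Set.Ioc y W) ((s - 1) / 2))).card : ℝ)) with hG
  have hB2' := c5_rare hC hsum f x y W (1 / (64 * C)) (by positivity) hy hyW hx1 B2 (by
    intro s hs
    rw [hB2, Finset.mem_filter] at hs
    exact ⟨hs.1, (not_le.1 hs.2).le⟩)
  have h4 : 4 * (B2.card : ℝ) ≤ (S.card : ℝ) := by
    have e1 : (x : ℝ) / (16 * Nat.totient f * Real.log x) =
        (x : ℝ) / (Nat.totient f * Real.log x) / 16 := by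
      rw [div_div]
      congr 1
      ring
    have e2 : 1 / (64 * C) * C = 1 / 64 := by
      field_simp
    rw [e1] at hS
    rw [e2] at hB2'
    linarith
  have h5 : 4 * B2.card ≤ S.card := by exact_mod_cast h4
  have h6 : S ⊆ G ∪ (B1 ∪ B2) := by
    intro s hs
    by_cases ha : prt (Set.Ioc y W) ((s - 1) / 2) ≤ W ^ C3
    · by_cases hb : 1 / (64 * C) * EE f x y W / ((prt (Set.Ioc y W) ((s - 1) / 2) : ℕ) : ℝ) ≤
          ((SM f x y W (prt (Set.Ioc y W) ((s - 1) / 2))).card : ℝ)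
      · exact Finset.mem_union_left _ (Finset.mem_filter.2 ⟨hs, ha, hb⟩)
      · exact Finset.mem_union_right _ (Finset.mem_union_right _ (Finset.mem_filter.2 ⟨hs, hb⟩))
    · exact Finset.mem_union_right _ (Finset.mem_union_left _ (Finset.mem_filter.2 ⟨hs, not_le.1 ha⟩))
  have h7 := (Finset.card_le_card h6).trans ((Finset.card_union_le _ _).trans
    (Nat.add_le_add_left (Finset.card_union_le _ _) _))
  have h8 : 4 * B1.card ≤ S.card := hm
  omega

end GCN
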