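import Pool.Agent.GCN.A8a
import Pool.Agent.GCN.C2a
import Pool.Agent.GCN.C3
import Pool.Agent.GCN.N1
import Pool.Agent.EPK.M1b

/-!
# [GCN-C5a] the parts `M` are small for most primes `s`
-/

set_option autoImplicit false

open Finset

namespace GCN

/-- the exponent counts the powers -/
theorem c5a_v {p m J : ℕ} (hp : p.Prime) (hm : m ≠ 0) (hJ : m < 2 ^ (J + 1)) :
    m.factorization p ≤ ((Icc 1 J).filter fun j => p ^ j ∣ m).card := by
  have h1 : Icc 1 (m.factorization p) ⊆ (Icc 1 J).filter fun j => p ^ j ∣ m := by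
    intro j hj
    rw [mem_Icc] at hj
    rw [mem_filter, mem_Icc]
    have h2 : p ^ j ∣ m := (hp.pow_dvd_iff_le_factorization hm).2 hj.2
    refine ⟨⟨hj.1, ?_⟩, h2⟩
    by_contra h3
    have h4 : 2 ^ (J + 1) ≤ m := (Nat.pow_le_pow_right (by norm_num) (by omega)).trans
      ((Nat.pow_le_pow_left hp.two_le j).trans (Nat.le_of_dvd (by omega) h2))
    omega
  have h5 := card_le_card h1
  rw [Nat.card_Icc] at h5
  omega

/-- the logarithm of the part -/
theorem c5a_log {y W s J : ℕ} (hs : s.Prime) (h2 : s ≠ 2) (hJ : s < 2 ^ (J + 1)) :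
    Real.log (prt (Set.Ioc y W) ((s - 1) / 2)) ≤ ∑ p ∈ (Ioc y W).filter Nat.Prime, ∑ j ∈ Icc 1 J,
      if p ^ j ∣ s - 1 then Real.log p else 0 := by
  obtain ⟨n, hn⟩ : ∃ n, n = (s - 1) / 2 := ⟨_, rfl⟩
  have hodd : s % 2 = 1 := by
    rcases hs.eq_two_or_odd with h | h
    · exact absurd h h2
    · exact h
  have hs3 : 3 ≤ s := by
    have := hs.two_le
    omega
  have hns : s - 1 = 2 * n := by omega
  have hn0 : n ≠ 0 := by omega
  have hprt : (prt (Set.Ioc y W) n : ℝ) =
      ∏ p ∈ n.primeFactors.filter (fun p => p ∈ Set.Ioc y W), (p : ℝ) ^ n.factorization p := by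
    unfold prt
    push_cast
    refine prod_congr ?_ fun _ _ => rfl
    congr
  rw [← hn, hprt]
  rw [Real.log_prod (fun p hp => by
    have hp1 := (Nat.prime_of_mem_primeFactors (mem_filter.1 hp).1).pos
    positivity)]
  have h1 : ∀ p ∈ n.primeFactors.filter (fun p => p ∈ Set.Ioc y W),
      Real.log ((p : ℝ) ^ n.factorization p) ≤ ∑ j ∈ Icc 1 J, if p ^ j ∣ s - 1 then Real.log p else 0 := by
    intro p hp
    have hpp := Nat.prime_of_mem_primeFactors (mem_filter.1 hp).1
    rw [Real.log_pow, ← sum_filter, sum_const, nsmul_eq_mul]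
    refine mul_le_mul_of_nonneg_right ?_ (Real.log_natCast_nonneg p)
    have h3 : n.factorization p ≤ (s - 1).factorization p := by
      have h4 : n ∣ s - 1 := by
        rw [hns]
        exact Dvd.intro_left 2 rfl
      exact (Nat.factorization_le_iff_dvd hn0 (by omega)).2 h4 p
    have h5 := c5a_v (p := p) (m := s - 1) (J := J) hpp (by omega) (by omega)
    exact_mod_cast h3.trans h5
  refine (sum_le_sum h1).trans ?_
  refine sum_le_sum_of_subset_of_nonneg ?_ ?_
  · intro p hp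
    rw [mem_filter] at hp
    rw [mem_filter, mem_Ioc]
    exact ⟨hp.2, Nat.prime_of_mem_primeFactors hp.1⟩
  · intro p _ _
    refine sum_nonneg fun j _ => ?_
    split_ifs
    · exact Real.log_natCast_nonneg p
    · exact le_rfl

/-- the geometric sum -/
theorem c5a_geom {p : ℕ} (hp : 3 ≤ p) (J : ℕ) : ∑ j ∈ Icc 1 J, 1 / (p : ℝ) ^ j ≤ 3 / 2 / p := by
  have hp' : (3 : ℝ) ≤ p := by exact_mod_cast hp
  have h : ∑ j ∈ Icc 1 J, 1 / (p : ℝ) ^ j ≤ 3 / 2 / p - 3 / 2 / p * (1 / (p : ℝ) ^ J) := by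
    induction J with
    | zero => simp
    | succ J ih =>
      rw [sum_Icc_succ_top (by omega)]
      have h1 : 1 / (p : ℝ) ^ (J + 1) ≤ 3 / 2 / p * (1 / (p : ℝ) ^ J) - 3 / 2 / p * (1 / (p : ℝ) ^ (J + 1)) := by
        have hpos : 0 < (p : ℝ) ^ J := by positivity
        have h2 : 3 / 2 / (p : ℝ) * (1 / (p : ℝ) ^ J) - 3 / 2 / p * (1 / (p : ℝ) ^ (J + 1)) =
            (1 / (p : ℝ) ^ (J + 1)) * (3 / 2 - 3 / 2 / p) := by
          rw [pow_succ]
          field_simp
        rw [h2]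
        have h3 : 3 / 2 / (p : ℝ) ≤ 1 / 2 := by
          rw [div_div, div_le_div_iff₀ (by positivity) (by norm_num)]
          linarith
        have h4 : 0 < 1 / (p : ℝ) ^ (J + 1) := by positivity
        nlinarith
      linarith
  have h5 : 0 ≤ 3 / 2 / (p : ℝ) * (1 / (p : ℝ) ^ J) := by positivity
  linarith

/-- the totient of a power -/
theorem c5a_tot {p j : ℕ} (hp : p.Prime) (hp3 : 3 ≤ p) (hj : 1 ≤ j) :
    (p : ℝ) ^ j ≤ 3 / 2 * (Nat.totient (p ^ j) : ℝ) := by
  rw [Nat.totient_prime_pow hp hj]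
  have hp' : (3 : ℝ) ≤ p := by exact_mod_cast hp3
  obtain ⟨i, rfl⟩ : ∃ i, j = i + 1 := ⟨j - 1, by omega⟩
  rw [Nat.add_sub_cancel, Nat.cast_mul, Nat.cast_pow, Nat.cast_sub (by omega), Nat.cast_one, pow_succ]
  have h1 : 0 < (p : ℝ) ^ i := by positivity
  nlinarith

/-- the counting of one power -/
theorem c5a_count : ∃ C : ℝ, 1 ≤ C ∧ ∃ x0 : ℕ, ∀ f x l j : ℕ, 1 ≤ f → x0 ≤ x → l.Prime → 3 ≤ l → 1 ≤ j →
    ∀ t : ℝ, 1 ≤ t → (x : ℝ) = t ^ 400 →
    (((Pm f (x / 2) x).filter fun s => l ^ j ∣ s - 1).card : ℝ) ≤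
      3 / 2 * C * x / (Nat.totient f * Real.log x) * (1 / (l : ℝ) ^ j) + f * t ^ 100 := by
  obtain ⟨C, hC, x0, h⟩ := bt_Pm
  refine ⟨C, hC, max x0 4, ?_⟩
  intro f x l j hf hx hl hl3 hj t ht hxt
  have hx4 : 4 ≤ x := (le_max_right _ _).trans hx
  have hlog : 0 < Real.log x := Real.log_pos (by exact_mod_cast (by omega : 1 < x))
  have hφ : (0 : ℝ) < Nat.totient f := by exact_mod_cast Nat.totient_pos.2 hf
  have hl0 : (0 : ℝ) < l := by exact_mod_cast hl.pos
  have hx0 : (0 : ℝ) < x := by exact_mod_cast (by omega : 0 < x)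
  have hf0 : (0 : ℝ) < f := by exact_mod_cast hf
  have hA : 0 ≤ 3 / 2 * C * x / (Nat.totient f * Real.log x) * (1 / (l : ℝ) ^ j) := by positivity
  have hB : 0 ≤ (f : ℝ) * t ^ 100 := by positivity
  have hmem : ∀ s ∈ (Pm f (x / 2) x).filter (fun s => l ^ j ∣ s - 1), 2 ≤ s ∧ s ≤ x ∧ l ^ j ∣ s - 1 := by
    intro s hs
    rw [mem_filter] at hs
    unfold Pm at hs
    rw [mem_filter, mem_Ioc] at hs
    exact ⟨hs.1.2.1.two_le, hs.1.1.2, hs.2⟩
  by_cases hlf : l ∣ f
  · have he : (Pm f (x / 2) x).filter (fun s => l ^ j ∣ s - 1) = ∅ := by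
      rw [filter_eq_empty_iff]
      intro s hs hd
      unfold Pm at hs
      rw [mem_filter] at hs
      have h1 : l ∣ s + 1 := hlf.trans hs.2.2
      have h2 : l ∣ s - 1 := (dvd_pow_self l (by omega)).trans hd
      have h3 := Nat.dvd_sub h1 h2
      have h4 : s + 1 - (s - 1) = 2 := by
        have := hs.2.1.two_le
        omega
      rw [h4] at h3
      have := Nat.le_of_dvd (by norm_num) h3
      omega
    rw [he, card_empty, Nat.cast_zero]
    linarith
  · by_cases hbig : (f * l ^ j) ^ 4 ≤ x ^ 3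
    · have hco : Nat.Coprime (l ^ j) f := Nat.Coprime.pow_left j ((Nat.Prime.coprime_iff_not_dvd hl).2 hlf)
      have h1 := h x f (l ^ j) ((le_max_left _ _).trans hx) hf (Nat.one_le_pow _ _ hl.pos) hco hbig
      have htot : (0 : ℝ) < Nat.totient (l ^ j) := by
        exact_mod_cast Nat.totient_pos.2 (pow_pos hl.pos j)
      have h2 : C * x / (Nat.totient f * Nat.totient (l ^ j) * Real.log x) ≤
          3 / 2 * C * x / (Nat.totient f * Real.log x) * (1 / (l : ℝ) ^ j) := by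
        have h3 := c5a_tot hl hl3 hj
        rw [mul_one_div, div_div, div_le_div_iff₀ (by positivity) (by positivity)]
        have h4 : 0 < C * x * (Nat.totient f * Real.log x) := by positivity
        nlinarith
      linarith
    · push Not at hbig
      have h1 := count_dvd x (l ^ j) (pow_pos hl.pos j) _ hmem
      have h2 : t ^ 300 < f * (l : ℝ) ^ j := by
        have h3 : ((x : ℝ)) ^ 3 < ((f : ℝ) * (l : ℝ) ^ j) ^ 4 := by exact_mod_cast hbig
        rw [hxt, ← pow_mul] at h3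
        have h4 : (t ^ 300) ^ 4 < ((f : ℝ) * (l : ℝ) ^ j) ^ 4 := by
          rw [← pow_mul]
          exact h3
        exact lt_of_pow_lt_pow_left₀ 4 (by positivity) h4
      have h5 : (x : ℝ) / ((l ^ j : ℕ) : ℝ) ≤ f * t ^ 100 := by
        rw [Nat.cast_pow, div_le_iff₀ (by positivity), hxt]
        have h6 : t ^ 400 = t ^ 100 * t ^ 300 := by rw [← pow_add]
        rw [h6]
        have h7 : 0 < t ^ 100 := by positivity
        nlinarith
      linarith

/-- [C5a] the part composed of the primes in `(y, W]` is at most `W ^ C3` for most of the primes `s` (Brun-Titchmarsh, Mertens, Markov). -/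
theorem mk : ∃ C3 : ℕ, 1 ≤ C3 ∧ ∃ x0 : ℕ, ∀ f x y W : ℕ, 1 ≤ f → x0 ≤ x → 2 ≤ y → y < W →
    W ^ 400 ≤ x → f ^ 400 ≤ x →
    (x : ℝ) / (16 * Nat.totient f * Real.log x) ≤ ((Pm f (x / 2) x).card : ℝ) →
    4 * ((Pm f (x / 2) x).filter
      (fun s => W ^ C3 < prt (Set.Ioc y W) ((s - 1) / 2))).card ≤ (Pm f (x / 2) x).card := by
  obtain ⟨C, hC, x0, hcount⟩ := c5a_count
  refine ⟨⌈512 * C⌉₊, Nat.one_le_ceil_iff.2 (by linarith), max x0 (2 ^ 28), ?_⟩
  intro f x y W hf hx hy hyW hW hfx hS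
  have hx28 : 2 ^ 28 ≤ x := (le_max_right _ _).trans hx
  have hxx0 : x0 ≤ x := (le_max_left _ _).trans hx
  -- the scale
  obtain ⟨t, ht, hxt⟩ : ∃ t : ℝ, 1 ≤ t ∧ (x : ℝ) = t ^ 400 := by
    refine ⟨(x : ℝ) ^ ((400 : ℕ) : ℝ)⁻¹, ?_, ?_⟩
    · exact Real.one_le_rpow (by exact_mod_cast (by omega : 1 ≤ x)) (by positivity)
    · rw [Real.rpow_inv_natCast_pow (by positivity) (by norm_num)]
  have ht0 : 0 < t := by linarith
  have hWt : (W : ℝ) ≤ t := by
    refine le_of_pow_le_pow_left₀ (n := 400) (by norm_num) ht0.le ?_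
    rw [← hxt]
    exact_mod_cast hW
  have hft : (f : ℝ) ≤ t := by
    refine le_of_pow_le_pow_left₀ (n := 400) (by norm_num) ht0.le ?_
    rw [← hxt]
    exact_mod_cast hfx
  have ht100 : 128 ≤ t ^ 100 := by
    refine le_of_pow_le_pow_left₀ (n := 4) (by norm_num) (by positivity) ?_
    rw [← pow_mul, show 100 * 4 = 400 by norm_num, ← hxt]
    have : (2 ^ 28 : ℝ) ≤ x := by exact_mod_cast hx28
    norm_num at this ⊢
    exact this
  set S := Pm f (x / 2) x with hSd
  obtain ⟨J, hJd⟩ : ∃ J, J = Nat.log 2 x := ⟨_, rfl⟩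
  have hJ1 : x < 2 ^ (J + 1) := by
    rw [hJd]
    exact Nat.lt_pow_succ_log_self (by norm_num) x
  have hJ2 : 2 ^ J ≤ x := by
    rw [hJd]
    exact Nat.pow_log_le_self 2 (by omega)
  have hlogx : 0 < Real.log x := Real.log_pos (by exact_mod_cast (by omega : 1 < x))
  have hJ3 : (J : ℝ) ≤ 2 * Real.log x := by
    have h1 : ((2 : ℝ)) ^ J ≤ x := by exact_mod_cast hJ2
    have h2 := Real.log_le_log (by positivity) h1
    rw [Real.log_pow] at h2
    have h3 := Real.log_two_gt_d9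
    nlinarith [Nat.cast_nonneg (α := ℝ) J]
  have hlog8 : Real.log x ≤ 8 * t ^ 50 := by
    have h1 : (x : ℝ) = (t ^ 50) ^ 8 := by rw [hxt, ← pow_mul]
    rw [h1, Real.log_pow]
    have h2 := Real.log_le_self (show 0 ≤ t ^ 50 by positivity)
    push_cast
    linarith
  have hWlog : 1 ≤ Real.log W := by
    have h1 : (3 : ℝ) ≤ W := by exact_mod_cast (by omega : 3 ≤ W)
    rw [Real.le_log_iff_exp_le (by linarith)]
    have := Real.exp_one_lt_d9
    linarith
  have hφ : (0 : ℝ) < Nat.totient f := by exact_mod_cast Nat.totient_pos.2 hf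
  have hφt : (Nat.totient f : ℝ) ≤ t := by
    refine le_trans ?_ hft
    exact_mod_cast Nat.totient_le f
  have hf0 : (0 : ℝ) < f := by exact_mod_cast hf
  obtain ⟨A, hA⟩ : ∃ A : ℝ, A = 3 / 2 * C * x / (Nat.totient f * Real.log x) := ⟨_, rfl⟩
  have hx0 : (0 : ℝ) < x := by rw [hxt]; positivity
  have hA0 : 0 < A := by
    rw [hA]
    positivity
  -- the sum of the logarithms
  have hsum : ∑ s ∈ S, Real.log (prt (Set.Ioc y W) ((s - 1) / 2)) ≤
      ∑ l ∈ (Ioc y W).filter Nat.Prime, ∑ j ∈ Icc 1 J, Real.log l * ((S.filter fun s => l ^ j ∣ s - 1).card : ℝ) := by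
    have h1 : ∀ s ∈ S, Real.log (prt (Set.Ioc y W) ((s - 1) / 2)) ≤
        ∑ p ∈ (Ioc y W).filter Nat.Prime, ∑ j ∈ Icc 1 J, if p ^ j ∣ s - 1 then Real.log p else 0 := by
      intro s hs
      rw [hSd] at hs
      unfold Pm at hs
      rw [mem_filter, mem_Ioc] at hs
      exact c5a_log hs.2.1 (by omega) (by omega)
    refine (sum_le_sum h1).trans (le_of_eq ?_)
    rw [sum_comm]
    refine sum_congr rfl fun l _ => ?_
    rw [sum_comm]
    refine sum_congr rfl fun j _ => ?_
    rw [← sum_filter, sum_const, nsmul_eq_mul, mul_comm]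
  have hl3 : ∀ l ∈ (Ioc y W).filter Nat.Prime, l.Prime ∧ 3 ≤ l ∧ l ≤ W := by
    intro l hl
    rw [mem_filter, mem_Ioc] at hl
    exact ⟨hl.2, by omega, hl.1.2⟩
  have hl1 : ∀ l ∈ (Ioc y W).filter Nat.Prime, ∑ j ∈ Icc 1 J, Real.log l * ((S.filter fun s => l ^ j ∣ s - 1).card : ℝ) ≤
      3 / 2 * A * (Real.log l / l) + J * (f * t ^ 100) * Real.log W := by
    intro l hl
    obtain ⟨hlp, hl3', hlW⟩ := hl3 l hl
    have hlpos : (0 : ℝ) < l := by exact_mod_cast hlp.pos
    have hlog0 : 0 ≤ Real.log l := Real.log_natCast_nonneg l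
    have h1 : ∀ j ∈ Icc 1 J, Real.log l * ((S.filter fun s => l ^ j ∣ s - 1).card : ℝ) ≤
        Real.log l * A * (1 / (l : ℝ) ^ j) + Real.log l * (f * t ^ 100) := by
      intro j hj
      rw [mem_Icc] at hj
      have h2 := hcount f x l j hf hxx0 hlp hl3' hj.1 t ht hxt
      rw [← hA, ← hSd] at h2
      have h3 := mul_le_mul_of_nonneg_left h2 hlog0
      rw [mul_add, ← mul_assoc] at h3
      exact h3
    refine (sum_le_sum h1).trans ?_
    rw [sum_add_distrib, ← mul_sum, sum_const, Nat.card_Icc, nsmul_eq_mul]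
    refine add_le_add ?_ ?_
    · have h4 := mul_le_mul_of_nonneg_left (c5a_geom hl3' J) (mul_nonneg hlog0 hA0.le)
      refine h4.trans (le_of_eq ?_)
      field_simp
    · have h5 : Real.log l ≤ Real.log W := Real.log_le_log hlpos (by exact_mod_cast hlW)
      rw [Nat.add_sub_cancel]
      have h6 : 0 ≤ (J : ℝ) * (f * t ^ 100) := by positivity
      nlinarith
  have hmert : ∑ l ∈ (Ioc y W).filter Nat.Prime, Real.log l / l ≤ 3 * Real.log W := by
    have h1 := (Pool.Agent.Lib.helper94.ANT.mA_bounds (n := W) (by omega)).2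
    have h2 : ∑ l ∈ (Ioc y W).filter Nat.Prime, Real.log l / l ≤ Pool.Agent.Lib.helper94.ANT.mA W := by
      unfold Pool.Agent.Lib.helper94.ANT.mA
      refine sum_le_sum_of_subset_of_nonneg ?_ fun l _ _ => div_nonneg (Real.log_natCast_nonneg l) (Nat.cast_nonneg l)
      intro l hl
      rw [mem_filter, mem_Ioc] at hl
      rw [Nat.mem_primesLE]
      exact ⟨hl.1.2, hl.2⟩
    linarith
  have hcard : (((Ioc y W).filter Nat.Prime).card : ℝ) ≤ W := by
    have h1 : ((Ioc y W).filter Nat.Prime).card ≤ W := (card_filter_le _ _).trans (by rw [Nat.card_Ioc]; omega)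
    exact_mod_cast h1
  have hB : (W : ℝ) * (J * (f * t ^ 100)) ≤ x / (Nat.totient f * Real.log x) := by
    rw [le_div_iff₀ (by positivity)]
    have e1 : (W : ℝ) * (J * (f * t ^ 100)) * (Nat.totient f * Real.log x) ≤
        t * ((2 * Real.log x) * (t * t ^ 100)) * (t * Real.log x) := by
      gcongr
    have e2 : t * ((2 * Real.log x) * (t * t ^ 100)) * (t * Real.log x) =
        2 * t ^ 103 * (Real.log x * Real.log x) := by ring
    have e3 : Real.log x * Real.log x ≤ (8 * t ^ 50) * (8 * t ^ 50) :=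
      mul_le_mul hlog8 hlog8 hlogx.le (by positivity)
    have e4 : 2 * t ^ 103 * (Real.log x * Real.log x) ≤ 2 * t ^ 103 * ((8 * t ^ 50) * (8 * t ^ 50)) :=
      mul_le_mul_of_nonneg_left e3 (by positivity)
    have e5 : 2 * t ^ 103 * ((8 * t ^ 50) * (8 * t ^ 50)) = 128 * t ^ 203 := by ring
    have e6 : 128 * t ^ 203 ≤ t ^ 100 * t ^ 203 := mul_le_mul_of_nonneg_right ht100 (by positivity)
    have e7 : t ^ 100 * t ^ 203 ≤ t ^ 400 := by
      rw [← pow_add]
      exact pow_le_pow_right₀ ht (by norm_num)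
    rw [hxt] at e1 e2 e4 ⊢
    linarith
  have htotal : ∑ s ∈ S, Real.log (prt (Set.Ioc y W) ((s - 1) / 2)) ≤ 128 * C * S.card * Real.log W := by
    refine hsum.trans ((sum_le_sum hl1).trans ?_)
    rw [sum_add_distrib, ← mul_sum, sum_const, nsmul_eq_mul]
    obtain ⟨R, hR⟩ : ∃ R : ℝ, R = x / (Nat.totient f * Real.log x) := ⟨_, rfl⟩
    have hR0 : 0 < R := by rw [hR]; positivity
    have hAR : A = 3 / 2 * C * R := by
      rw [hA, hR, mul_div_assoc]
    have hSR : R ≤ 16 * S.card := by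
      have h1 : (x : ℝ) / (16 * Nat.totient f * Real.log x) = R / 16 := by
        rw [hR]
        field_simp
      rw [h1] at hS
      linarith
    have h2 : 3 / 2 * A * ∑ l ∈ (Ioc y W).filter Nat.Prime, Real.log l / l ≤ 3 / 2 * A * (3 * Real.log W) :=
      mul_le_mul_of_nonneg_left hmert (by positivity)
    have h3 : (((Ioc y W).filter Nat.Prime).card : ℝ) * (J * (f * t ^ 100) * Real.log W) ≤ R * Real.log W := by
      have h4 : (((Ioc y W).filter Nat.Prime).card : ℝ) * (J * (f * t ^ 100)) ≤ W * (J * (f * t ^ 100)) :=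
        mul_le_mul_of_nonneg_right hcard (by positivity)
      rw [← mul_assoc]
      refine mul_le_mul_of_nonneg_right ?_ (by linarith)
      rw [hR]
      exact h4.trans hB
    have h5 : 3 / 2 * A * (3 * Real.log W) + R * Real.log W ≤ 8 * C * R * Real.log W := by
      rw [hAR]
      have h6 : 0 < R * Real.log W := by positivity
      nlinarith
    have h7 : 8 * C * R * Real.log W ≤ 8 * C * (16 * S.card) * Real.log W := by
      gcongr
    linarith
  -- Markov
  set T := S.filter (fun s => W ^ ⌈512 * C⌉₊ < prt (Set.Ioc y W) ((s - 1) / 2)) with hT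
  have hmark : (T.card : ℝ) * (512 * C * Real.log W) ≤ ∑ s ∈ S, Real.log (prt (Set.Ioc y W) ((s - 1) / 2)) := by
    have h1 : ∑ s ∈ T, (512 * C * Real.log W) ≤ ∑ s ∈ T, Real.log (prt (Set.Ioc y W) ((s - 1) / 2)) := by
      refine sum_le_sum fun s hs => ?_
      rw [hT, mem_filter] at hs
      have hW0 : (0 : ℝ) < W := by exact_mod_cast (by omega : 0 < W)
      have h2 : ((W : ℝ)) ^ ⌈512 * C⌉₊ ≤ (prt (Set.Ioc y W) ((s - 1) / 2) : ℕ) := by exact_mod_cast hs.2.le
      have h3 := Real.log_le_log (by positivity) h2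
      rw [Real.log_pow] at h3
      refine le_trans ?_ h3
      exact mul_le_mul_of_nonneg_right (Nat.le_ceil _) (by linarith)
    rw [sum_const, nsmul_eq_mul] at h1
    refine h1.trans (sum_le_sum_of_subset_of_nonneg (filter_subset _ _) fun s _ _ => Real.log_natCast_nonneg _)
  have hfin : (4 : ℝ) * T.card ≤ S.card := by
    have h1 := hmark.trans htotal
    have h2 : 0 < 128 * C * Real.log W := by positivity
    have h3 : (128 * C * Real.log W) * (4 * T.card) ≤ (128 * C * Real.log W) * S.card := by linarith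
    exact le_of_mul_le_mul_left h3 h2
  exact_mod_cast hfin

end GCN
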