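import Mathlib

/-!
# [GCN] definitions

For every integer `k ≠ 0` the set `N_k` of the generalized Carmichael numbers is infinite, and `N_k(X) ≥ X^(1/2)` for arbitrarily large `X`
(MP_a171f4_nt). Paper proof: team-store GCN_PROOF.md.
-/

set_option autoImplicit false

open Finset

namespace GCN

/-! ### the problem -/

/-- the set `C_k` -/
def Cset (k : ℤ) : Set ℤ :=
  {n | max k 0 < n ∧ ∀ a : ℤ, a ^ (n - k + 1).toNat ≡ a [ZMOD n]}

/-- the Carmichael function: the exponent of the group of units modulo `m` -/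
noncomputable def lam (m : ℕ) : ℕ := Monoid.exponent (ZMod m)ˣ

/-- the set `N_k` -/
noncomputable def Nset (k : ℤ) : Set ℤ := by
  classical
  exact if 0 < k ∧ Squarefree k then
      Cset k \ {n | ∃ p : ℕ, p.Prime ∧
        p ≡ 1 [MOD lam k.natAbs / Nat.gcd (lam k.natAbs) k.natAbs] ∧ n = k * p}
    else Cset k

/-- the counting function `N_k(X)` -/
noncomputable def Ncount (k : ℤ) (X : ℝ) : ℕ := {n : ℤ | n ∈ Nset k ∧ 0 < n ∧ (n : ℝ) ≤ X}.ncard

/-! ### primes and parts -/

/-- the primes `p ≡ -1 mod f` with `u < p ≤ v` -/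
def Pm (f u v : ℕ) : Finset ℕ := (Ioc u v).filter fun p => p.Prime ∧ f ∣ p + 1

/-- the part of `n` composed of the primes in `S` (with multiplicities) -/
noncomputable def prt (S : Set ℕ) (n : ℕ) : ℕ := by
  classical
  exact ∏ p ∈ n.primeFactors.filter (fun p => p ∈ S), p ^ n.factorization p

/-- the core primes -/
def cp (K y : ℕ) : Finset ℕ := (Ioc K y).filter Nat.Prime

/-- the core modulus for the set `Q` of primes; every factor is `> z ^ 2` -/
def Lc (z : ℕ) (Q : Finset ℕ) : ℕ := ∏ l ∈ Q, l ^ (Nat.log l (z ^ 2) + 1)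

/-- the primes `s ≡ -1 mod f` in `(x/2, x]` for which the part of `(s-1)/2` with the primes in `(y, W]` is `M` -/
noncomputable def SM (f x y W M : ℕ) : Finset ℕ := by
  classical
  exact (Pm f (x / 2) x).filter fun s => prt (Set.Ioc y W) ((s - 1) / 2) = M

/-- the expected size of `SM 1` -/
noncomputable def EE (f x y W : ℕ) : ℝ :=
  (x : ℝ) * Real.log y / (Nat.totient f * Real.log x * Real.log W)

/-! ### characters -/

/-- a modulus with a Dirichlet character -/
abbrev Ch : Type := Σ n : ℕ, DirichletCharacter ℂ n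

/-- `w` is a primitive character for which at least `3r/4` of the sums over the blocks `A j`, `j < r`, of
size `m` are large -/
def Bad (A : ℕ → Finset ℕ) (r m : ℕ) (w : Ch) : Prop :=
  w.2.IsPrimitive ∧ 3 * r ≤ 4 * ((range r).filter
    (fun j => (m : ℝ) / 16 ≤ ‖∑ a ∈ A j, w.2 (a : ZMod w.1)‖)).card

/-- the weighted number of the members of `𝒲` whose modulus has a prime factor `> W`, while the rest of the
modulus divides `L0 * M * M'` (expressed by the two parts) -/
noncomputable def Phi (𝒲 : Finset Ch) (ε : ℝ) (y W L0 N : ℕ) : ℝ := by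
  classical
  exact ∑ w ∈ 𝒲.filter (fun w => 1 < prt (Set.Ioi W) w.1 ∧ prt (Set.Iic y) w.1 ∣ L0 ∧
    prt (Set.Ioc y W) w.1 ∣ N), ((prt (Set.Ioi W) w.1 : ℕ) : ℝ) ^ (-(1 - ε / 4))

/-! ### the analytic part -/

/-- sum over a residue class -/
noncomputable def cls (N : ℕ) (a : ℕ → ℂ) (q h : ℕ) : ℂ :=
  ∑ n ∈ (range N).filter (fun n => n % q = h), a n

/-- variance over the residue classes modulo `q` -/
noncomputable def Vr (N : ℕ) (a : ℕ → ℂ) (q : ℕ) : ℝ :=
  ∑ h ∈ range q, ‖cls N a q h - (∑ n ∈ range N, a n) / q‖ ^ 2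

/-- deviation of the bilinear sum over `m k ≡ 1 mod q` -/
noncomputable def DB (M K : ℕ) (a b : ℕ → ℂ) (q : ℕ) : ℂ :=
  (∑ m ∈ range M, ∑ k ∈ range K, if (m * k) % q = 1 then a m * b k else 0) -
    1 / ((q : ℂ) - 1) * ∑ m ∈ range M, ∑ k ∈ range K, if q ∣ m * k then 0 else a m * b k

/-- the same with the restriction `u m < k ≤ v m` -/
noncomputable def DI (M K : ℕ) (a b : ℕ → ℂ) (u v : ℕ → ℕ) (q : ℕ) : ℂ :=
  (∑ m ∈ range M, ∑ k ∈ range K,
      if (m * k) % q = 1 ∧ u m < k ∧ k ≤ v m then a m * b k else 0) -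
    1 / ((q : ℂ) - 1) * ∑ m ∈ range M, ∑ k ∈ range K,
      if ¬ q ∣ m * k ∧ u m < k ∧ k ≤ v m then a m * b k else 0

/-- deviation of the von Mangoldt function in `(z/2, z]`, class `-1` modulo `f`, class `1` modulo `q` -/
noncomputable def EL (f z q : ℕ) : ℝ :=
  (∑ n ∈ Ioc (z / 2) z, if f ∣ n + 1 ∧ n % q = 1 then ArithmeticFunction.vonMangoldt n else 0) -
    1 / ((q : ℝ) - 1) *
      ∑ n ∈ Ioc (z / 2) z, if f ∣ n + 1 ∧ ¬ q ∣ n then ArithmeticFunction.vonMangoldt n else 0

end GCN
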