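import Pool.Agent.GCN.Defs

/-!
# [GCN] further definitions: selected primes, triples, unclean tuples
-/

set_option autoImplicit false

open Finset

namespace GCN

/-- the primes of `SM f x y W M` such that `s - 1` has no prime factor in `D` and only small powers of the core primes -/
noncomputable def SS (f x y z W K M : ℕ) (D : Finset ℕ) : Finset ℕ := by
  classical
  exact (SM f x y W M).filter (fun s => (∀ l ∈ D, ¬ l ∣ s - 1) ∧
    ∀ l ∈ cp K y, ¬ l ^ (Nat.log l (z ^ 2) + 2) ∣ s - 1)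

/-- ordered triples of distinct elements of `S` -/
noncomputable def Tri (S : Finset ℕ) : Finset (Fin 3 → ℕ) := by
  classical
  exact (Fintype.piFinset (fun _ : Fin 3 => S)).filter Function.Injective

/-- the set of characters in the sum `Phi` -/
noncomputable def Wf (𝒲 : Finset Ch) (y W L0 N : ℕ) : Finset Ch := by
  classical
  exact 𝒲.filter (fun w => 1 < prt (Set.Ioi W) w.1 ∧ prt (Set.Iic y) w.1 ∣ L0 ∧
    prt (Set.Ioc y W) w.1 ∣ N)

/-- the product of all `s_i - 1` and `t_i - 1` -/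
def mone (u : (Fin 3 → ℕ) × (Fin 3 → ℕ)) : ℕ := (∏ i, (u.1 i - 1)) * ∏ i, (u.2 i - 1)

/-- the product of all `s_i` and `t_i` -/
def mprod (u : (Fin 3 → ℕ) × (Fin 3 → ℕ)) : ℕ := (∏ i, u.1 i) * ∏ i, u.2 i

/-- there is a bad character whose modulus is built from the core, the parts and the rough part of `mone u` -/
def Unclean (𝒲 : Finset Ch) (y W L0 N : ℕ) (u : (Fin 3 → ℕ) × (Fin 3 → ℕ)) : Prop :=
  ∃ w ∈ Wf 𝒲 y W L0 N, prt (Set.Ioi W) w.1 ∣ mone u

/-- the primes `a` of the block `A j` that are used: no `l ∈ D` divides `a - 1`, `a` does not divide `Q` -/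
noncomputable def AD (A : ℕ → Finset ℕ) (D : Finset ℕ) (Q j : ℕ) : Finset ℕ := by
  classical
  exact (A j).filter (fun a => (∀ l ∈ D, ¬ l ∣ a - 1) ∧ ¬ a ∣ Q)

/-- the indices of the blocks in which few primes `a` have a prime factor of `a - 1` in `D` -/
noncomputable def JJ (A : ℕ → Finset ℕ) (D : Finset ℕ) (r m : ℕ) : Finset ℕ := by
  classical
  exact (range r).filter (fun j => 32 * ((A j).filter (fun a => ∃ l ∈ D, l ∣ a - 1)).card ≤ m)

theorem Phi_eq (𝒲 : Finset Ch) (ε : ℝ) (y W L0 N : ℕ) :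
    Phi 𝒲 ε y W L0 N = ∑ w ∈ Wf 𝒲 y W L0 N, ((prt (Set.Ioi W) w.1 : ℕ) : ℝ) ^ (-(1 - ε / 4)) := by
  unfold Phi Wf
  rfl

end GCN
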