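import Pool.Agent.GCN.Defs

/-!
# [GCN-X1] character sums over a set of integers
-/

set_option autoImplicit false

open Finset

namespace GCN

theorem x1_conj (N : ℕ) [NeZero N] (χ : DirichletCharacter ℂ N) (s : ℕ) (hs : Nat.Coprime s N) :
    (starRingEnd ℂ) (χ (s : ZMod N)) = χ ((s : ZMod N)⁻¹) := by
  have hu : IsUnit (s : ZMod N) := (ZMod.isUnit_iff_coprime s N).2 hs
  have h1 : ‖χ (s : ZMod N)‖ = 1 := by
    have := DirichletCharacter.unit_norm_eq_one χ hu.unit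
    simpa using this
  have h2 : χ ((s : ZMod N)⁻¹) * χ (s : ZMod N) = 1 := by
    rw [← map_mul, ZMod.inv_mul_of_unit _ hu, map_one]
  have h3 : (starRingEnd ℂ) (χ (s : ZMod N)) * χ (s : ZMod N) = 1 := by
    rw [mul_comm, Complex.mul_conj, Complex.normSq_eq_norm_sq, h1]
    norm_num
  have h4 : χ (s : ZMod N) ≠ 0 := by
    intro h
    rw [h, mul_zero] at h2
    exact zero_ne_one h2
  exact mul_right_cancel₀ h4 (h3.trans h2.symm)

theorem x1_sq (N : ℕ) [NeZero N] (S : Finset ℕ) (hS : ∀ s ∈ S, Nat.Coprime s N)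
    (χ : DirichletCharacter ℂ N) :
    ((‖∑ s ∈ S, χ (s : ZMod N)‖ ^ 2 : ℝ) : ℂ) =
      ∑ s ∈ S, ∑ t ∈ S, χ ((s : ZMod N)⁻¹) * χ (t : ZMod N) := by
  rw [← Complex.normSq_eq_norm_sq, Complex.normSq_eq_conj_mul_self, map_sum, Finset.sum_mul_sum]
  refine Finset.sum_congr rfl fun s hs => Finset.sum_congr rfl fun t _ => ?_
  rw [x1_conj N χ s (hS s hs)]

/-- [X1a] **Parseval**. Proof. Expand the square; orthogonality (`DirichletCharacter.sum_char_inv_mul_char_eq`: `∑_χ χ(a)⁻¹ χ(b) = φ(N)` if `a = b`, else `0`, for units `a`), `conj (χ s) = χ(s)⁻¹ = (χ⁻¹) s`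
for `s` prime to `N`; `(s : ZMod N) = (s' : ZMod N)` iff `s ≡ s' [MOD N]`. -/
theorem parseval_char (N : ℕ) [NeZero N] (S : Finset ℕ) (hS : ∀ s ∈ S, Nat.Coprime s N) :
    ∑ χ : DirichletCharacter ℂ N, ‖∑ s ∈ S, χ (s : ZMod N)‖ ^ 2 =
      Nat.totient N * (((S ×ˢ S).filter (fun t => t.1 ≡ t.2 [MOD N])).card : ℝ) := by
  classical
  have h1 : ((∑ χ : DirichletCharacter ℂ N, ‖∑ s ∈ S, χ (s : ZMod N)‖ ^ 2 : ℝ) : ℂ) =
      ((Nat.totient N * (((S ×ˢ S).filter (fun t => t.1 ≡ t.2 [MOD N])).card : ℝ) : ℝ) : ℂ) := by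
    rw [Complex.ofReal_sum]
    rw [Finset.sum_congr rfl fun χ _ => x1_sq N S hS χ, Finset.sum_comm]
    rw [Finset.sum_congr rfl fun s _ => Finset.sum_comm]
    have h2 : ∀ s ∈ S, ∀ t ∈ S, ∑ χ : DirichletCharacter ℂ N, χ ((s : ZMod N)⁻¹) * χ (t : ZMod N) =
        (Nat.totient N : ℂ) * (if s ≡ t [MOD N] then 1 else 0) := by
      intro s hs t _
      rw [DirichletCharacter.sum_char_inv_mul_char_eq ℂ ((ZMod.isUnit_iff_coprime s N).2 (hS s hs))]
      have h3 : ((s : ZMod N) = (t : ZMod N)) ↔ s ≡ t [MOD N] := ZMod.natCast_eq_natCast_iff s t N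
      by_cases h : s ≡ t [MOD N]
      · rw [if_pos h, if_pos (h3.2 h), mul_one]
      · rw [if_neg h, if_neg (fun h4 => h (h3.1 h4)), mul_zero]
    rw [Finset.sum_congr rfl fun s hs => Finset.sum_congr rfl fun t ht => h2 s hs t ht]
    rw [← Finset.sum_product', ← Finset.mul_sum, Finset.sum_boole]
    push_cast
    rfl
  exact_mod_cast h1

/-- [X1b] Proof. `parseval_char` and `#{(s,s') : s ≡ s'} ≤ #S (D/φ(N))`. -/
theorem parseval_le (N : ℕ) [NeZero N] (S : Finset ℕ) (hS : ∀ s ∈ S, Nat.Coprime s N) (D : ℝ)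
    (hD : ∀ b : ℕ, ((S.filter (fun s => s ≡ b [MOD N])).card : ℝ) ≤ D / Nat.totient N) :
    ∑ χ : DirichletCharacter ℂ N, ‖∑ s ∈ S, χ (s : ZMod N)‖ ^ 2 ≤ D * S.card := by
  classical
  rw [parseval_char N S hS]
  have hφ : (0 : ℝ) < Nat.totient N := by
    exact_mod_cast Nat.totient_pos.2 (Nat.pos_of_ne_zero (NeZero.ne N))
  have h1 : (((S ×ˢ S).filter (fun t => t.1 ≡ t.2 [MOD N])).card : ℝ) ≤
      S.card * (D / Nat.totient N) := by
    have h2 : ((S ×ˢ S).filter (fun t => t.1 ≡ t.2 [MOD N])).card =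
        ∑ b ∈ S, (S.filter (fun s => s ≡ b [MOD N])).card := by
      rw [Finset.card_filter, Finset.sum_product_right]
      refine Finset.sum_congr rfl fun b _ => ?_
      rw [Finset.card_filter]
    rw [h2, Nat.cast_sum]
    calc ∑ b ∈ S, ((S.filter (fun s => s ≡ b [MOD N])).card : ℝ) ≤ ∑ _b ∈ S, D / Nat.totient N :=
          Finset.sum_le_sum fun b _ => hD b
      _ = S.card * (D / Nat.totient N) := by rw [Finset.sum_const, nsmul_eq_mul]
  calc (Nat.totient N : ℝ) * (((S ×ˢ S).filter (fun t => t.1 ≡ t.2 [MOD N])).card : ℝ) ≤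
        Nat.totient N * (S.card * (D / Nat.totient N)) := mul_le_mul_of_nonneg_left h1 hφ.le
    _ = D * S.card := by
        field_simp

/-- [X1c] Proof. By `parseval_le` `#𝒳 (#S/B)² ≤ D #S`. -/
theorem exc_count (N : ℕ) [NeZero N] (S : Finset ℕ) (hne : S.Nonempty) (hS : ∀ s ∈ S, Nat.Coprime s N)
    (D B : ℝ) (hB : 0 < B)
    (hD : ∀ b : ℕ, ((S.filter (fun s => s ≡ b [MOD N])).card : ℝ) ≤ D / Nat.totient N)
    (𝒳 : Finset (DirichletCharacter ℂ N))
    (h𝒳 : ∀ χ ∈ 𝒳, (S.card : ℝ) / B ≤ ‖∑ s ∈ S, χ (s : ZMod N)‖) :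
    (𝒳.card : ℝ) ≤ B ^ 2 * D / S.card := by
  classical
  have hc : (0 : ℝ) < S.card := by exact_mod_cast Finset.card_pos.2 hne
  have h1 : (𝒳.card : ℝ) * ((S.card : ℝ) / B) ^ 2 ≤ D * S.card := by
    calc (𝒳.card : ℝ) * ((S.card : ℝ) / B) ^ 2 = ∑ _χ ∈ 𝒳, ((S.card : ℝ) / B) ^ 2 := by
          rw [Finset.sum_const, nsmul_eq_mul]
      _ ≤ ∑ χ ∈ 𝒳, ‖∑ s ∈ S, χ (s : ZMod N)‖ ^ 2 := by
          refine Finset.sum_le_sum fun χ hχ => ?_
          exact pow_le_pow_left₀ (div_nonneg hc.le hB.le) (h𝒳 χ hχ) 2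
      _ ≤ ∑ χ : DirichletCharacter ℂ N, ‖∑ s ∈ S, χ (s : ZMod N)‖ ^ 2 :=
          Finset.sum_le_sum_of_subset_of_nonneg (Finset.subset_univ _) fun _ _ _ => by positivity
      _ ≤ D * S.card := parseval_le N S hS D hD
  rw [div_pow, mul_div_assoc', div_le_iff₀ (by positivity)] at h1
  rw [le_div_iff₀ hc]
  have h2 : ((𝒳.card : ℝ) * S.card) * S.card ≤ (B ^ 2 * D) * S.card := by nlinarith [h1]
  exact le_of_mul_le_mul_right h2 hc

/-- [X1d] Proof. `χ' = changeLevel h χ` has the same conductor (`DirichletCharacter.conductor_changeLevel`-like; see `FactorsThrough`, `changeLevel_factorsThrough`), it divides `n`, and it is not `1` as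
`χ ≠ 1` (`DirichletCharacter.conductor_eq_one_iff` and injectivity of `changeLevel`); so `χ'` is not exceptional. `χ' s = χ s` for `s` prime to `N` (`changeLevel_eq_cast_of_dvd`). -/
theorem no_exc (n N : ℕ) [NeZero N] (h : n ∣ N) (S : Finset ℕ) (hS : ∀ s ∈ S, Nat.Coprime s N) (B : ℝ)
    (F : Finset ℕ)
    (hF : ∀ χ : DirichletCharacter ℂ N, (S.card : ℝ) / B ≤ ‖∑ s ∈ S, χ (s : ZMod N)‖ → χ.conductor ∈ F)
    (hn : ∀ c ∈ F, c ≠ 1 → ¬ c ∣ n) (χ : DirichletCharacter ℂ n) (hχ : χ ≠ 1) :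
    ‖∑ s ∈ S, χ (s : ZMod n)‖ < (S.card : ℝ) / B := by
  classical
  by_contra hcon
  push Not at hcon
  have : NeZero n := ⟨fun h0 => NeZero.ne N (Nat.eq_zero_of_zero_dvd (h0 ▸ h))⟩
  have h1 : ∀ s ∈ S, χ (s : ZMod n) = (DirichletCharacter.changeLevel h χ) (s : ZMod N) := by
    intro s hs
    have h2 := DirichletCharacter.changeLevel_eq_cast_of_dvd' χ h (a := (s : ℤ))
      (Nat.isCoprime_iff_coprime.2 (hS s hs))
    simpa using h2.symm
  rw [Finset.sum_congr rfl h1] at hcon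
  have h3 := hF _ hcon
  rw [DirichletCharacter.conductor_changeLevel] at h3
  refine hn _ h3 (fun h4 => hχ ?_) (DirichletCharacter.conductor_dvd_level χ)
  exact DirichletCharacter.eq_one_iff_conductor_eq_one.2 h4

end GCN
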