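import Pool.Agent.GCN.Defs2
import Pool.Agent.GCN.X1

/-!
# [GCN-E1] products of three primes are equidistributed
-/

set_option autoImplicit false

open Finset

namespace GCN

/-- the character sum over the triples -/
theorem e1_all (N : ℕ) [NeZero N] (S : Finset ℕ) (c : ℕ) (hc : Nat.Coprime c N) :
    ∑ χ : DirichletCharacter ℂ N, χ ((c : ZMod N)⁻¹) * (∑ s ∈ S, χ (s : ZMod N)) ^ 3 =
      (Nat.totient N : ℂ) * ((((Fintype.piFinset (fun _ : Fin 3 => S)).filter
        (fun t => ∏ i, t i ≡ c [MOD N])).card : ℕ) : ℂ) := by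
  classical
  have h1 : ∀ χ : DirichletCharacter ℂ N, (∑ s ∈ S, χ (s : ZMod N)) ^ 3 =
      ∑ t ∈ Fintype.piFinset (fun _ : Fin 3 => S), χ ((∏ i, t i : ℕ) : ZMod N) := by
    intro χ
    have h2 := Finset.prod_univ_sum (fun _ : Fin 3 => S) (fun _ (s : ℕ) => χ (s : ZMod N))
    rw [prod_const, card_univ, Fintype.card_fin] at h2
    rw [h2]
    refine sum_congr rfl fun t _ => ?_
    push_cast
    rw [map_prod]
  simp only [h1, mul_sum]
  rw [sum_comm]
  have hu : IsUnit (c : ZMod N) := (ZMod.isUnit_iff_coprime c N).mpr hc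
  have h3 : ∀ t ∈ Fintype.piFinset (fun _ : Fin 3 => S),
      ∑ χ : DirichletCharacter ℂ N, χ ((c : ZMod N)⁻¹) * χ ((∏ i, t i : ℕ) : ZMod N) =
      if ∏ i, t i ≡ c [MOD N] then (Nat.totient N : ℂ) else 0 := by
    intro t _
    rw [DirichletCharacter.sum_char_inv_mul_char_eq ℂ hu]
    refine if_congr ?_ rfl rfl
    rw [ZMod.natCast_eq_natCast_iff]
    exact ⟨fun h => h.symm, fun h => h.symm⟩
  rw [sum_congr rfl h3, ← sum_filter, sum_const, nsmul_eq_mul, mul_comm]

/-- triples with two equal members -/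
theorem e1_pair (N : ℕ) (S : Finset ℕ) (hS : ∀ s ∈ S, Nat.Coprime s N) (B : ℝ) (hB : 0 ≤ B)
    (hD : ∀ b : ℕ, ((S.filter (fun s => s ≡ b [MOD N])).card : ℝ) ≤ B) (c : ℕ)
    (i j k : Fin 3) (hall : ∀ m : Fin 3, m = i ∨ m = j ∨ m = k)
    (hprod : ∀ t : Fin 3 → ℕ, ∏ m, t m = t i * t j * t k) :
    (((Fintype.piFinset (fun _ : Fin 3 => S)).filter
      (fun t => t i = t j ∧ ∏ m, t m ≡ c [MOD N])).card : ℝ) ≤ S.card * B := by
  classical
  set T := (Fintype.piFinset (fun _ : Fin 3 => S)).filter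
      (fun t => t i = t j ∧ ∏ m, t m ≡ c [MOD N]) with hT
  have hmap : (T : Set (Fin 3 → ℕ)).MapsTo (fun t => t i) (S : Finset ℕ) := by
    intro t ht
    rw [mem_coe, hT, mem_filter, Fintype.mem_piFinset] at ht
    rw [mem_coe]
    exact ht.1 i
  rw [card_eq_sum_card_fiberwise hmap, Nat.cast_sum]
  have hfib : ∀ b ∈ S, ((T.filter (fun t => t i = b)).card : ℝ) ≤ B := by
    intro b hb
    rcases (T.filter (fun t => t i = b)).eq_empty_or_nonempty with he | ⟨t', ht'⟩
    · rw [he, card_empty, Nat.cast_zero]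
      exact hB
    · rw [mem_filter, hT, mem_filter, Fintype.mem_piFinset] at ht'
      obtain ⟨⟨h1, h2, h3⟩, h4⟩ := ht'
      have hle : (T.filter (fun t => t i = b)).card ≤
          (S.filter (fun s => s ≡ t' k [MOD N])).card := by
        refine card_le_card_of_injOn (fun t => t k) ?_ ?_
        · intro t ht
          rw [mem_coe, mem_filter, hT, mem_filter, Fintype.mem_piFinset] at ht
          obtain ⟨⟨g1, g2, g3⟩, g4⟩ := ht
          rw [mem_coe, mem_filter]
          refine ⟨g1 k, ?_⟩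
          rw [hprod, ← g2, g4] at g3
          rw [hprod, ← h2, h4] at h3
          refine Nat.ModEq.cancel_left_of_coprime ?_ (g3.trans h3.symm)
          have cb := hS b hb
          exact (Nat.Coprime.mul_left cb cb).symm
        · intro t ht u hu htu
          rw [mem_coe, mem_filter, hT, mem_filter] at ht hu
          obtain ⟨⟨-, g2, -⟩, g4⟩ := ht
          obtain ⟨⟨-, u2, -⟩, u4⟩ := hu
          funext m
          rcases hall m with h | h | h
          · rw [h, g4, u4]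
          · rw [h, ← g2, ← u2, g4, u4]
          · rw [h]
            exact htu
      have hle' : ((T.filter (fun t => t i = b)).card : ℝ) ≤
          ((S.filter (fun s => s ≡ t' k [MOD N])).card : ℝ) := by exact_mod_cast hle
      exact hle'.trans (hD _)
  refine (sum_le_sum hfib).trans ?_
  rw [sum_const, nsmul_eq_mul]

/-- [E1b] Proof. `Ŝ(χ) = ∑_{s ∈ S} χ(s)`. The number of all triples with product `≡ c` is `(1/φ) ∑_χ χ(c)⁻¹ Ŝ(χ)³` (`DirichletCharacter.sum_char_inv_mul_char_eq`), at least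
`(1/φ)(#S³ - max_{χ≠1} |Ŝ(χ)| ∑_χ |Ŝ(χ)|²) ≥ (1/φ)(#S³ - (#S/(2C)) C #S²) = #S³/(2φ)` (`parseval_le` with `D = C #S`). The triples that are not injective: `t i = t j` for one of three pairs; choose that
element (`#S` ways), the remaining one is in one class modulo `N`: at most `3 #S C #S/φ ≤ #S³/(6φ)` by `18 C ≤ #S`. -/
theorem eq_three (N : ℕ) [NeZero N] (S : Finset ℕ) (hS : ∀ s ∈ S, Nat.Coprime s N) (C : ℝ) (hC : 1 ≤ C)
    (hD : ∀ b : ℕ, ((S.filter (fun s => s ≡ b [MOD N])).card : ℝ) ≤ C * S.card / Nat.totient N)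
    (hχ : ∀ χ : DirichletCharacter ℂ N, χ ≠ 1 → ‖∑ s ∈ S, χ (s : ZMod N)‖ ≤ S.card / (2 * C))
    (h18 : 18 * C ≤ S.card) (c : ℕ) (hc : Nat.Coprime c N) :
    (S.card : ℝ) ^ 3 / (3 * Nat.totient N) ≤
      (((Tri S).filter (fun t => ∏ i, t i ≡ c [MOD N])).card : ℝ) := by
  classical
  set A := ((Fintype.piFinset (fun _ : Fin 3 => S)).filter
        (fun t => ∏ i, t i ≡ c [MOD N])) with hA
  have hφ : (0 : ℝ) < (Nat.totient N : ℝ) := by
    exact_mod_cast Nat.totient_pos.mpr (Nat.pos_of_ne_zero (NeZero.ne N))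
  have hC0 : 0 < C := by linarith
  have hScard : (0 : ℝ) < S.card := by linarith
  have hu : IsUnit (c : ZMod N) := (ZMod.isUnit_iff_coprime c N).mpr hc
  -- the main estimate
  have hall := e1_all N S c hc
  have hpars := parseval_le N S hS (C * S.card) hD
  have hone : (∑ s ∈ S, (1 : DirichletCharacter ℂ N) (s : ZMod N)) = (S.card : ℂ) := by
    rw [sum_congr rfl (g := fun _ => (1 : ℂ)) (fun s hs =>
      MulChar.one_apply ((ZMod.isUnit_iff_coprime s N).mpr (hS s hs)))]
    simp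
  have hcinv : IsUnit ((c : ZMod N)⁻¹) := by
    obtain ⟨v, hv⟩ := hu
    rw [← hv, ZMod.inv_coe_unit]
    exact Units.isUnit _
  have hnorm : ∀ χ : DirichletCharacter ℂ N, ‖χ ((c : ZMod N)⁻¹)‖ ≤ 1 := fun χ =>
    DirichletCharacter.norm_le_one χ _
  have hsplit := Finset.add_sum_erase (Finset.univ : Finset (DirichletCharacter ℂ N))
    (fun χ => χ ((c : ZMod N)⁻¹) * (∑ s ∈ S, χ (s : ZMod N)) ^ 3) (mem_univ 1)
  rw [hall] at hsplit
  simp only [MulChar.one_apply hcinv, one_mul, hone] at hsplit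
  have hrest : ‖∑ χ ∈ (Finset.univ : Finset (DirichletCharacter ℂ N)).erase 1,
      χ ((c : ZMod N)⁻¹) * (∑ s ∈ S, χ (s : ZMod N)) ^ 3‖ ≤ (S.card : ℝ) ^ 3 / 2 := by
    refine (norm_sum_le _ _).trans ?_
    have hterm : ∀ χ ∈ (Finset.univ : Finset (DirichletCharacter ℂ N)).erase 1,
        ‖χ ((c : ZMod N)⁻¹) * (∑ s ∈ S, χ (s : ZMod N)) ^ 3‖ ≤
          S.card / (2 * C) * ‖∑ s ∈ S, χ (s : ZMod N)‖ ^ 2 := by
      intro χ hχ1
      rw [norm_mul, norm_pow]
      have h1 := hχ χ (ne_of_mem_erase hχ1)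
      set a := ‖∑ s ∈ S, χ (s : ZMod N)‖ with ha
      have ha0 : 0 ≤ a := norm_nonneg _
      calc ‖χ ((c : ZMod N)⁻¹)‖ * a ^ 3 ≤ 1 * a ^ 3 :=
            mul_le_mul_of_nonneg_right (hnorm χ) (by positivity)
        _ = a * a ^ 2 := by ring
        _ ≤ _ := mul_le_mul_of_nonneg_right h1 (by positivity)
    refine (sum_le_sum hterm).trans ?_
    rw [← mul_sum]
    have h2 : ∑ χ ∈ (Finset.univ : Finset (DirichletCharacter ℂ N)).erase 1,
        ‖∑ s ∈ S, χ (s : ZMod N)‖ ^ 2 ≤ C * S.card * S.card := by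
      refine le_trans ?_ hpars
      exact sum_le_sum_of_subset_of_nonneg (erase_subset _ _) (fun _ _ _ => by positivity)
    calc (S.card : ℝ) / (2 * C) * ∑ χ ∈ (Finset.univ : Finset (DirichletCharacter ℂ N)).erase 1,
        ‖∑ s ∈ S, χ (s : ZMod N)‖ ^ 2 ≤ (S.card : ℝ) / (2 * C) * (C * S.card * S.card) :=
          mul_le_mul_of_nonneg_left h2 (by positivity)
      _ = (S.card : ℝ) ^ 3 / 2 := by
        field_simp
  have hmain : (S.card : ℝ) ^ 3 / 2 ≤ Nat.totient N * (A.card : ℝ) := by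
    have h3 : ((Nat.totient N : ℝ) * (A.card : ℝ)) = (S.card : ℝ) ^ 3 +
        (∑ χ ∈ (Finset.univ : Finset (DirichletCharacter ℂ N)).erase 1,
          χ ((c : ZMod N)⁻¹) * (∑ s ∈ S, χ (s : ZMod N)) ^ 3).re := by
      have h4 := congrArg Complex.re hsplit
      rw [Complex.add_re] at h4
      have h5 : ((S.card : ℂ) ^ 3).re = (S.card : ℝ) ^ 3 := by
        have : ((S.card : ℂ) ^ 3) = (((S.card : ℝ) ^ 3 : ℝ) : ℂ) := by push_cast; rfl
        rw [this, Complex.ofReal_re]
      have h6 : ((Nat.totient N : ℂ) * ((A.card : ℕ) : ℂ)).re =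
          (Nat.totient N : ℝ) * (A.card : ℝ) := by
        have : ((Nat.totient N : ℂ) * ((A.card : ℕ) : ℂ)) =
            (((Nat.totient N : ℝ) * (A.card : ℝ) : ℝ) : ℂ) := by push_cast; rfl
        rw [this, Complex.ofReal_re]
      rw [h5] at h4
      rw [← h4] at h6
      linarith
    have h7 := (Complex.abs_re_le_norm (∑ χ ∈ (Finset.univ : Finset (DirichletCharacter ℂ N)).erase 1,
          χ ((c : ZMod N)⁻¹) * (∑ s ∈ S, χ (s : ZMod N)) ^ 3)).trans hrest
    have h8 := (abs_le.mp h7).1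
    linarith
  -- the triples that are not injective
  have hB : 0 ≤ C * S.card / Nat.totient N := by positivity
  have q1 := e1_pair N S hS _ hB hD c 0 1 2 (by decide) (fun t => Fin.prod_univ_three t)
  have q2 := e1_pair N S hS _ hB hD c 0 2 1 (by decide) (fun t => by
    rw [Fin.prod_univ_three]; ring)
  have q3 := e1_pair N S hS _ hB hD c 1 2 0 (by decide) (fun t => by
    rw [Fin.prod_univ_three]; ring)
  set T1 := (Fintype.piFinset (fun _ : Fin 3 => S)).filter
      (fun t => t 0 = t 1 ∧ ∏ m, t m ≡ c [MOD N])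
  set T2 := (Fintype.piFinset (fun _ : Fin 3 => S)).filter
      (fun t => t 0 = t 2 ∧ ∏ m, t m ≡ c [MOD N])
  set T3 := (Fintype.piFinset (fun _ : Fin 3 => S)).filter
      (fun t => t 1 = t 2 ∧ ∏ m, t m ≡ c [MOD N])
  have hsub : A ⊆ (Tri S).filter (fun t => ∏ i, t i ≡ c [MOD N]) ∪ (T1 ∪ (T2 ∪ T3)) := by
    intro t ht
    rw [hA, mem_filter] at ht
    rw [mem_union, mem_union, mem_union]
    by_cases h01 : t 0 = t 1
    · right; left
      exact mem_filter.mpr ⟨ht.1, h01, ht.2⟩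
    by_cases h02 : t 0 = t 2
    · right; right; left
      exact mem_filter.mpr ⟨ht.1, h02, ht.2⟩
    by_cases h12 : t 1 = t 2
    · right; right; right
      exact mem_filter.mpr ⟨ht.1, h12, ht.2⟩
    left
    refine mem_filter.mpr ⟨?_, ht.2⟩
    unfold Tri
    refine mem_filter.mpr ⟨ht.1, ?_⟩
    intro a b hab
    fin_cases a <;> fin_cases b <;> first | rfl | (exfalso; revert hab; simp only [Fin.zero_eta, Fin.mk_one, Fin.reduceFinMk]; first | exact h01 | exact h02 | exact h12 | exact fun h => h01 h.symm | exact fun h => h02 h.symm | exact fun h => h12 h.symm)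
  have hc1 := card_le_card hsub
  have hc2 := card_union_le ((Tri S).filter (fun t => ∏ i, t i ≡ c [MOD N])) (T1 ∪ (T2 ∪ T3))
  have hc3 := card_union_le T1 (T2 ∪ T3)
  have hc4 := card_union_le T2 T3
  have hcard : A.card ≤ ((Tri S).filter (fun t => ∏ i, t i ≡ c [MOD N])).card +
      (T1.card + (T2.card + T3.card)) := by omega
  have hcard' : (A.card : ℝ) ≤ (((Tri S).filter (fun t => ∏ i, t i ≡ c [MOD N])).card : ℝ) +
      ((T1.card : ℝ) + ((T2.card : ℝ) + (T3.card : ℝ))) := by exact_mod_cast hcard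
  have hAlow : (S.card : ℝ) ^ 3 / (2 * Nat.totient N) ≤ A.card := by
    rw [div_le_iff₀ (by positivity)]
    linarith
  have hthree : 3 * ((S.card : ℝ) * (C * S.card / Nat.totient N)) ≤
      (S.card : ℝ) ^ 3 / (6 * Nat.totient N) := by
    rw [le_div_iff₀ (by positivity)]
    have e : 3 * ((S.card : ℝ) * (C * S.card / Nat.totient N)) * (6 * Nat.totient N) =
        (18 * C) * (S.card : ℝ) ^ 2 := by
      field_simp
      ring
    rw [e]
    calc (18 * C) * (S.card : ℝ) ^ 2 ≤ (S.card : ℝ) * (S.card : ℝ) ^ 2 :=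
          mul_le_mul_of_nonneg_right h18 (by positivity)
      _ = (S.card : ℝ) ^ 3 := by ring
  have hid : (S.card : ℝ) ^ 3 / (3 * Nat.totient N) =
      (S.card : ℝ) ^ 3 / (2 * Nat.totient N) - (S.card : ℝ) ^ 3 / (6 * Nat.totient N) := by
    field_simp
    ring
  rw [hid]
  linarith

end GCN
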