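import Pool.Agent.GCN.Defs2

/-!
# [GCN-E1a] triples with a given product: upper bound
-/

set_option autoImplicit false

open Finset

namespace GCN

/-- [E1a] Proof. The number is at most `φ(N)² D₀ D₁ D₂`: `#(S i) ≤ φ(N) D i` (sum over the classes of the units; the elements are prime to `N`), and for given `t 0`, `t 1` (prime to `N`) the element `t 2` is in one class modulo `N`
(if `c` is prime to `N`; otherwise there is no triple). -/
theorem triple_le (N : ℕ) (hN : 0 < N) (S : Fin 3 → Finset ℕ)
    (hS : ∀ i, ∀ s ∈ S i, Nat.Coprime s N) (D : Fin 3 → ℝ)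
    (hD : ∀ i, ∀ b : ℕ, (((S i).filter (fun s => s ≡ b [MOD N])).card : ℝ) ≤ D i) (c : ℕ) :
    (((Fintype.piFinset S).filter (fun t => ∏ i, t i ≡ c [MOD N])).card : ℝ) ≤
      (Nat.totient N : ℝ) ^ 2 * ∏ i, D i := by
  classical
  have hD0 : ∀ i, 0 ≤ D i := fun i => (Nat.cast_nonneg _).trans (hD i 0)
  have hU : ((range N).filter (fun a => N.Coprime a)).card = N.totient := rfl
  set T := (Fintype.piFinset S).filter (fun t => ∏ i, t i ≡ c [MOD N]) with hT
  have hmap : (T : Set (Fin 3 → ℕ)).MapsTo (fun t => (t 0 % N, t 1 % N))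
      (((range N).filter (fun a => N.Coprime a)) ×ˢ
        ((range N).filter (fun a => N.Coprime a)) : Finset (ℕ × ℕ)) := by
    intro t ht
    rw [mem_coe, hT, mem_filter, Fintype.mem_piFinset] at ht
    have key : ∀ i, t i % N ∈ (range N).filter (fun a => N.Coprime a) := by
      intro i
      rw [mem_filter, mem_range]
      refine ⟨Nat.mod_lt _ hN, ?_⟩
      have h1 := hS i (t i) (ht.1 i)
      rw [Nat.coprime_comm] at h1
      unfold Nat.Coprime at h1 ⊢
      rw [Nat.gcd_rec] at h1
      rw [Nat.gcd_comm]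
      exact h1
    rw [mem_coe, mem_product]
    exact ⟨key 0, key 1⟩
  rw [card_eq_sum_card_fiberwise hmap, Nat.cast_sum]
  have hfib : ∀ b ∈ (((range N).filter (fun a => N.Coprime a)) ×ˢ
        ((range N).filter (fun a => N.Coprime a)) : Finset (ℕ × ℕ)),
      ((T.filter (fun t => (t 0 % N, t 1 % N) = b)).card : ℝ) ≤ ∏ i, D i := by
    intro b _
    rcases (T.filter (fun t => (t 0 % N, t 1 % N) = b)).eq_empty_or_nonempty with he | ⟨t', ht'⟩
    · rw [he, card_empty, Nat.cast_zero]
      exact prod_nonneg fun i _ => hD0 i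
    · rw [mem_filter, hT, mem_filter, Fintype.mem_piFinset] at ht'
      obtain ⟨⟨h1, h2⟩, h3⟩ := ht'
      have hsub : T.filter (fun t => (t 0 % N, t 1 % N) = b) ⊆
          Fintype.piFinset (fun i => (S i).filter (fun s => s ≡ t' i [MOD N])) := by
        intro t ht
        rw [mem_filter, hT, mem_filter, Fintype.mem_piFinset] at ht
        obtain ⟨⟨g1, g2⟩, g3⟩ := ht
        have e : (t 0 % N, t 1 % N) = (t' 0 % N, t' 1 % N) := g3.trans h3.symm
        rw [Prod.mk.injEq] at e
        have e0 : t 0 ≡ t' 0 [MOD N] := e.1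
        have e1 : t 1 ≡ t' 1 [MOD N] := e.2
        have e2 : t 2 ≡ t' 2 [MOD N] := by
          have p1 : t 0 * t 1 * t 2 ≡ t' 0 * t' 1 * t' 2 [MOD N] := by
            have a1 := g2.trans h2.symm
            rwa [Fin.prod_univ_three, Fin.prod_univ_three] at a1
          have p2 : t 0 * t 1 * t' 2 ≡ t' 0 * t' 1 * t' 2 [MOD N] :=
            Nat.ModEq.mul_right _ (Nat.ModEq.mul e0 e1)
          have p3 := p1.trans p2.symm
          refine Nat.ModEq.cancel_left_of_coprime ?_ p3
          have c0 := hS 0 (t 0) (g1 0)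
          have c1 := hS 1 (t 1) (g1 1)
          exact (Nat.Coprime.mul_left c0 c1).symm
        rw [Fintype.mem_piFinset]
        intro i
        rw [mem_filter]
        refine ⟨g1 i, ?_⟩
        fin_cases i
        · exact e0
        · exact e1
        · exact e2
      have hc := card_le_card hsub
      rw [Fintype.card_piFinset] at hc
      have hc' : ((T.filter (fun t => (t 0 % N, t 1 % N) = b)).card : ℝ) ≤
          ∏ i, (((S i).filter (fun s => s ≡ t' i [MOD N])).card : ℝ) := by
        exact_mod_cast hc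
      exact hc'.trans (prod_le_prod (fun i _ => Nat.cast_nonneg _) (fun i _ => hD i (t' i)))
  refine (sum_le_sum hfib).trans ?_
  rw [sum_const, card_product, hU, nsmul_eq_mul]
  push_cast
  rw [sq]

end GCN
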