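import Pool.Agent.GCN.Defs2

/-!
# [GCN-E2] combination of two equidistributed families
-/

set_option autoImplicit false

open Finset

namespace GCN

/-- the pairs are split by the class of `g a` modulo `L` -/
theorem e2_card {α β : Type*} (𝒮 : Finset α) (𝒯 : Finset β) (g : α → ℕ) (h : β → ℕ)
    (L M M' : ℕ) (hL : 0 < L) (hLM : Nat.Coprime L M)
    (hLM' : Nat.Coprime L M') (hMM' : Nat.Coprime M M')
    (hg : ∀ a ∈ 𝒮, g a ≡ 1 [MOD M]) (hh : ∀ b ∈ 𝒯, h b ≡ 1 [MOD M'])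
    (c : ℕ) (hc : Nat.Coprime c (L * M * M')) :
    ∃ (c₁ c₂ : Fin (Nat.totient L) → ℕ), (∀ u, Nat.Coprime (c₁ u) (L * M')) ∧
      (∀ u, Nat.Coprime (c₂ u) (L * M)) ∧
      ((𝒮 ×ˢ 𝒯).filter (fun u => g u.1 * h u.2 ≡ c [MOD L * M * M'])).card =
        ∑ u, (𝒮.filter (fun a => g a ≡ c₁ u [MOD L * M'])).card *
          (𝒯.filter (fun b => h b ≡ c₂ u [MOD L * M])).card := by
  classical
  have : NeZero L := ⟨hL.ne'⟩
  have hcL : Nat.Coprime c L := Nat.Coprime.coprime_dvd_right ⟨M * M', by ring⟩ hc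
  have hcM : Nat.Coprime c M := Nat.Coprime.coprime_dvd_right ⟨L * M', by ring⟩ hc
  have hcM' : Nat.Coprime c M' := Nat.Coprime.coprime_dvd_right ⟨L * M, by ring⟩ hc
  have hcU : IsUnit (c : ZMod L) := (ZMod.isUnit_iff_coprime c L).2 hcL
  let d₁ : (ZMod L)ˣ → ℕ := fun u => (Nat.chineseRemainder hLM' (u : ZMod L).val c : ℕ)
  let d₂ : (ZMod L)ˣ → ℕ := fun u =>
    (Nat.chineseRemainder hLM ((c : ZMod L) * ((u⁻¹ : (ZMod L)ˣ) : ZMod L)).val c : ℕ)
  have h1L : ∀ u, (d₁ u : ZMod L) = u := by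
    intro u
    have h2 := (ZMod.natCast_eq_natCast_iff _ _ _).2
      (Nat.chineseRemainder hLM' (u : ZMod L).val c).2.1
    rw [ZMod.natCast_zmod_val] at h2
    exact h2
  have h1M : ∀ u, d₁ u ≡ c [MOD M'] := fun u =>
    (Nat.chineseRemainder hLM' (u : ZMod L).val c).2.2
  have h2L : ∀ u, (d₂ u : ZMod L) = (c : ZMod L) * ((u⁻¹ : (ZMod L)ˣ) : ZMod L) := by
    intro u
    have h2 := (ZMod.natCast_eq_natCast_iff _ _ _).2
      (Nat.chineseRemainder hLM ((c : ZMod L) * ((u⁻¹ : (ZMod L)ˣ) : ZMod L)).val c).2.1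
    rw [ZMod.natCast_zmod_val] at h2
    exact h2
  have h2M : ∀ u, d₂ u ≡ c [MOD M] := fun u =>
    (Nat.chineseRemainder hLM ((c : ZMod L) * ((u⁻¹ : (ZMod L)ˣ) : ZMod L)).val c).2.2
  have hcard : Fintype.card (ZMod L)ˣ = Nat.totient L := ZMod.card_units_eq_totient L
  let e : (ZMod L)ˣ ≃ Fin (Nat.totient L) := Fintype.equivFinOfCardEq hcard
  refine ⟨fun u => d₁ (e.symm u), fun u => d₂ (e.symm u), fun u => ?_, fun u => ?_, ?_⟩
  · refine Nat.Coprime.mul_right ?_ ?_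
    · rw [← ZMod.isUnit_iff_coprime, h1L]
      exact Units.isUnit _
    · rw [Nat.Coprime, (h1M _).gcd_eq]
      exact hcM'
  · refine Nat.Coprime.mul_right ?_ ?_
    · rw [← ZMod.isUnit_iff_coprime, h2L]
      exact hcU.mul (Units.isUnit _)
    · rw [Nat.Coprime, (h2M _).gcd_eq]
      exact hcM
  · rw [Equiv.sum_comp e.symm (fun u => (𝒮.filter (fun a => g a ≡ d₁ u [MOD L * M'])).card *
      (𝒯.filter (fun b => h b ≡ d₂ u [MOD L * M])).card)]
    let f : α × β → (ZMod L)ˣ := fun x =>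
      if hx : IsUnit (g x.1 : ZMod L) then hx.unit else 1
    rw [Finset.card_eq_sum_card_fiberwise (f := f) (t := Finset.univ)
      (fun x _ => Finset.mem_univ _)]
    refine Finset.sum_congr rfl fun u _ => ?_
    rw [← Finset.card_product]
    congr 1
    ext ⟨a, b⟩
    rw [Finset.mem_filter, Finset.mem_filter, Finset.mem_product, Finset.mem_product,
      Finset.mem_filter, Finset.mem_filter]
    constructor
    · rintro ⟨⟨⟨ha, hb⟩, h3⟩, h4⟩
      have h3a : g a * h b ≡ c [MOD L * M * M'] := h3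
      have h5 : g a * h b ≡ c [MOD L] := h3a.of_dvd ⟨M * M', by ring⟩
      have h6 : g a * h b ≡ c [MOD M] := h3a.of_dvd ⟨L * M', by ring⟩
      have h7 : g a * h b ≡ c [MOD M'] := h3a.of_dvd ⟨L * M, by ring⟩
      have h8 : (g a : ZMod L) * (h b : ZMod L) = c := by
        rw [← Nat.cast_mul]
        exact (ZMod.natCast_eq_natCast_iff _ _ _).2 h5
      have h9 : IsUnit (g a : ZMod L) := by
        rw [← h8] at hcU
        exact isUnit_of_mul_isUnit_left hcU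
      have h10 : (g a : ZMod L) = u := by
        have h11 : f (a, b) = u := h4
        have h12 : f (a, b) = h9.unit := dif_pos h9
        rw [← h11, h12]
        rfl
      refine ⟨⟨ha, ?_⟩, hb, ?_⟩
      · refine (Nat.modEq_and_modEq_iff_modEq_mul hLM').1 ⟨?_, ?_⟩
        · rw [← ZMod.natCast_eq_natCast_iff, h1L, h10]
        · have h11 : g a * h b ≡ g a * 1 [MOD M'] := (hh b hb).mul_left _
          rw [mul_one] at h11
          exact (h11.symm.trans h7).trans (h1M u).symm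
      · refine (Nat.modEq_and_modEq_iff_modEq_mul hLM).1 ⟨?_, ?_⟩
        · rw [← ZMod.natCast_eq_natCast_iff, h2L, ← h8, h10, mul_comm (u : ZMod L), mul_assoc,
            Units.mul_inv, mul_one]
        · have h11 : g a * h b ≡ 1 * h b [MOD M] := (hg a ha).mul_right _
          rw [one_mul] at h11
          exact (h11.symm.trans h6).trans (h2M u).symm
    · rintro ⟨⟨ha, h3⟩, hb, h4⟩
      have h5 := (Nat.modEq_and_modEq_iff_modEq_mul hLM').2 h3
      have h6 := (Nat.modEq_and_modEq_iff_modEq_mul hLM).2 h4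
      have h10 : (g a : ZMod L) = u := by
        rw [← h1L u]
        exact (ZMod.natCast_eq_natCast_iff _ _ _).2 h5.1
      have h11 : (h b : ZMod L) = (c : ZMod L) * ((u⁻¹ : (ZMod L)ˣ) : ZMod L) := by
        rw [← h2L u]
        exact (ZMod.natCast_eq_natCast_iff _ _ _).2 h6.1
      refine ⟨⟨⟨ha, hb⟩, ?_⟩, ?_⟩
      · have h12 : g a * h b ≡ c [MOD L] := by
          rw [← ZMod.natCast_eq_natCast_iff, Nat.cast_mul, h10, h11, mul_comm (c : ZMod L),
            ← mul_assoc, Units.mul_inv, one_mul]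
        have h13 : g a * h b ≡ c [MOD M] := by
          have h14 : g a * h b ≡ 1 * c [MOD M] := (hg a ha).mul (h6.2.trans (h2M u))
          rwa [one_mul] at h14
        have h15 : g a * h b ≡ c [MOD M'] := by
          have h14 : g a * h b ≡ c * 1 [MOD M'] := (h5.2.trans (h1M u)).mul (hh b hb)
          rwa [mul_one] at h14
        exact (Nat.modEq_and_modEq_iff_modEq_mul (Nat.Coprime.mul_left hLM' hMM')).1
          ⟨(Nat.modEq_and_modEq_iff_modEq_mul hLM).1 ⟨h12, h13⟩, h15⟩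
      · have h9 : IsUnit (g a : ZMod L) := by
          rw [h10]
          exact Units.isUnit _
        have h12 : f (a, b) = h9.unit := dif_pos h9
        rw [h12]
        exact Units.ext h10

theorem e2_tot (L M M' : ℕ) (hL : 0 < L) (hM : 0 < M) (hM' : 0 < M') (hLM : Nat.Coprime L M)
    (hLM' : Nat.Coprime L M') (hMM' : Nat.Coprime M M') (A B : ℝ) :
    ∑ _u : Fin (Nat.totient L), (A / Nat.totient (L * M')) * (B / Nat.totient (L * M)) =
      A * B / Nat.totient (L * M * M') := by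
  have h1 : (0 : ℝ) < Nat.totient L := by exact_mod_cast Nat.totient_pos.2 hL
  have h2 : (0 : ℝ) < Nat.totient M := by exact_mod_cast Nat.totient_pos.2 hM
  have h3 : (0 : ℝ) < Nat.totient M' := by exact_mod_cast Nat.totient_pos.2 hM'
  rw [Nat.totient_mul (Nat.Coprime.mul_left hLM' hMM'), Nat.totient_mul hLM,
    Nat.totient_mul hLM', Finset.sum_const, Finset.card_univ, Fintype.card_fin, nsmul_eq_mul]
  push_cast
  field_simp

/-- [E2a] Proof. For every unit `u` modulo `L` let `c₁ ≡ u mod L`, `≡ c mod M'` and `c₂ ≡ c/u mod L`, `≡ c mod M` (Chinese remainder theorem). For `a` with `g a ≡ c₁ mod L M'` and `b` with `h b ≡ c₂ mod L M`: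
`g a h b ≡ c` modulo `L`; modulo `M`: `g a ≡ 1`, `h b ≡ c`; modulo `M'`: `g a ≡ c`, `h b ≡ 1`; so `≡ c mod L M M'`. The pairs for different `u` are different: at least
`φ(L) (A/φ(L M')) (B/φ(L M)) = A B/(φ(L) φ(M) φ(M')) = A B/φ(L M M')`. -/
theorem combine_lower {α β : Type*} (𝒮 : Finset α) (𝒯 : Finset β) (g : α → ℕ) (h : β → ℕ)
    (L M M' : ℕ) (hL : 0 < L) (hM : 0 < M) (hM' : 0 < M') (hLM : Nat.Coprime L M)
    (hLM' : Nat.Coprime L M') (hMM' : Nat.Coprime M M')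
    (hg : ∀ a ∈ 𝒮, g a ≡ 1 [MOD M]) (hh : ∀ b ∈ 𝒯, h b ≡ 1 [MOD M']) (A B : ℝ)
    (hA0 : 0 ≤ A) (hB0 : 0 ≤ B)
    (hA : ∀ c : ℕ, Nat.Coprime c (L * M') →
      A / Nat.totient (L * M') ≤ ((𝒮.filter (fun a => g a ≡ c [MOD L * M'])).card : ℝ))
    (hB : ∀ c : ℕ, Nat.Coprime c (L * M) →
      B / Nat.totient (L * M) ≤ ((𝒯.filter (fun b => h b ≡ c [MOD L * M])).card : ℝ))
    (c : ℕ) (hc : Nat.Coprime c (L * M * M')) :
    A * B / Nat.totient (L * M * M') ≤
      (((𝒮 ×ˢ 𝒯).filter (fun u => g u.1 * h u.2 ≡ c [MOD L * M * M'])).card : ℝ) := by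
  have _h0 := hA0
  obtain ⟨c₁, c₂, h1, h2, h3⟩ := e2_card 𝒮 𝒯 g h L M M' hL hLM hLM' hMM' hg hh c hc
  rw [h3, ← e2_tot L M M' hL hM hM' hLM hLM' hMM' A B, Nat.cast_sum]
  refine Finset.sum_le_sum fun u _ => ?_
  rw [Nat.cast_mul]
  exact mul_le_mul (hA _ (h1 u)) (hB _ (h2 u)) (by positivity) (Nat.cast_nonneg _)

/-- [E2b] Proof. Every pair counted has `g a` prime to `L` (as `c` is), so `g a ≡ u mod L` for one unit `u` of `L`, then `g a ≡ c mod M'` (`h b ≡ 1 mod M'`), so `g a ≡ c₁ mod L M'`, and `h b ≡ c₂ mod L M`.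
The number is at most `φ(L) (A/φ(L M')) (B/φ(L M)) = A B/φ(L M M')`. -/
theorem combine_upper {α β : Type*} (𝒮 : Finset α) (𝒯 : Finset β) (g : α → ℕ) (h : β → ℕ)
    (L M M' : ℕ) (hL : 0 < L) (hM : 0 < M) (hM' : 0 < M') (hLM : Nat.Coprime L M)
    (hLM' : Nat.Coprime L M') (hMM' : Nat.Coprime M M')
    (hg : ∀ a ∈ 𝒮, g a ≡ 1 [MOD M]) (hh : ∀ b ∈ 𝒯, h b ≡ 1 [MOD M']) (A B : ℝ)
    (hA0 : 0 ≤ A) (hB0 : 0 ≤ B)
    (hA : ∀ c : ℕ, ((𝒮.filter (fun a => g a ≡ c [MOD L * M'])).card : ℝ) ≤ A / Nat.totient (L * M'))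
    (hB : ∀ c : ℕ, ((𝒯.filter (fun b => h b ≡ c [MOD L * M])).card : ℝ) ≤ B / Nat.totient (L * M))
    (c : ℕ) (hc : Nat.Coprime c (L * M * M')) :
    (((𝒮 ×ˢ 𝒯).filter (fun u => g u.1 * h u.2 ≡ c [MOD L * M * M'])).card : ℝ) ≤
      A * B / Nat.totient (L * M * M') := by
  have _h0 := hB0
  obtain ⟨c₁, c₂, -, -, h3⟩ := e2_card 𝒮 𝒯 g h L M M' hL hLM hLM' hMM' hg hh c hc
  rw [h3, ← e2_tot L M M' hL hM hM' hLM hLM' hMM' A B, Nat.cast_sum]
  refine Finset.sum_le_sum fun u _ => ?_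
  rw [Nat.cast_mul]
  exact mul_le_mul (hA _) (hB _) (Nat.cast_nonneg _) (by positivity)

end GCN
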