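import Pool.Agent.GCN.Defs2

/-!
# [GCN] the environment: all parameters and what is used about them
-/

set_option autoImplicit false

open Finset

open scoped Classical

namespace GCN

/-- all parameters, with the analytic facts and the numerical inequalities -/
structure Env (k : ℤ) where
  ε : ℝ
  C2 : ℝ
  ch : ℝ
  GS : ℝ
  GA : ℝ
  C3 : ℕ
  P : ℕ
  N0 : ℕ
  K : ℕ
  z : ℕ
  y : ℕ
  W : ℕ
  x : ℕ
  r : ℕ
  m : ℕ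
  X0 : ℕ
  A0 : Finset ℕ
  A : ℕ → Finset ℕ
  𝒲 : Finset Ch
  hk : k ≠ 0
  hε : 0 < ε
  hε1 : ε ≤ 1 / 10
  hC2 : 1 ≤ C2
  hch : 0 < ch
  hch1 : ch ≤ 1
  hC3 : 1 ≤ C3
  hN0 : (16 * C2 / ch) ^ 2 * (C2 / ch) ≤ N0
  hP : 2 * N0 + 2 ≤ P
  hK2 : 2 ≤ K
  hkK : k.natAbs ≤ K
  hKy : K < y
  hyz : 2 * y < z
  hzW : z < W
  hWx : W ^ 400 ≤ x
  /-- the number of the primes `s` -/
  hS0 : 0 < (Pm (4 * K.factorial) (x / 2) x).card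
  /-- the sieve bound -/
  sb : ∀ M M' b : ℕ, M ≠ 0 → M' ≠ 0 → Nat.Coprime M M' →
    (∀ p : ℕ, p.Prime → p ∣ M * M' → y < p ∧ p ≤ W) → M * M' ≤ W ^ (C3 * P) →
    (((SM (4 * K.factorial) x y W M).filter
      (fun s => s ≡ b [MOD Lc z (cp K y) * M'])).card : ℝ) ≤
      C2 * EE (4 * K.factorial) x y W / (M * Nat.totient (Lc z (cp K y)) * Nat.totient M')
  /-- heavy parts -/
  heavy : (Pm (4 * K.factorial) (x / 2) x).card ≤ 2 * ((Pm (4 * K.factorial) (x / 2) x).filter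
      (fun s => prt (Set.Ioc y W) ((s - 1) / 2) ≤ W ^ C3 ∧
        ch * EE (4 * K.factorial) x y W / ((prt (Set.Ioc y W) ((s - 1) / 2) : ℕ) : ℝ) ≤
          ((SM (4 * K.factorial) x y W (prt (Set.Ioc y W) ((s - 1) / 2))).card : ℝ))).card
  hGS : 0 ≤ GS
  /-- Brun-Titchmarsh for the primes `s` -/
  btS : ∀ l : ℕ, l.Prime → y < l → l ≤ W →
    (((Pm (4 * K.factorial) (x / 2) x).filter (fun s => l ∣ s - 1)).card : ℝ) ≤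
      GS * (Pm (4 * K.factorial) (x / 2) x).card / (l - 1)
  hGA : 0 ≤ GA
  /-- Brun-Titchmarsh for the primes `a` -/
  btA : ∀ l ∈ cp K y, ((A0.filter (fun a => l ∣ a - 1)).card : ℝ) ≤ GA / (l - 1)
  hA0 : ∀ a ∈ A0, a ∈ Pm (4 * K.factorial) (z / 2) z ∧ ∀ q : ℕ, q.Prime → q ∣ a - 1 → q ≤ y
  hA : ∀ j < r, A j ⊆ A0 ∧ (A j).card = m
  hdis : ∀ i < r, ∀ j < r, i ≠ j → Disjoint (A i) (A j)
  /-- the bad characters -/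
  h𝒲pos : ∀ w ∈ 𝒲, 0 < w.1
  h𝒲 : ∀ w : Ch, Bad A r m w → 0 < w.1 → w.1 ≤ X0 → w ∈ 𝒲
  h𝒲z : ∑ w ∈ 𝒲, (w.1 : ℝ) ^ (-(1 - ε)) ≤ (z : ℝ) ^ 3
  hX0 : Lc z (cp K y) * W ^ (2 * C3) * x ^ 6 ≤ X0
  /- the numerical inequalities for the choice of the parts -/
  n_y2 : (2 : ℝ) ≤ (y : ℝ) ^ (ε / 4)
  n_phi : (x : ℝ) ^ 2 * Lc z (cp K y) * (W : ℝ) ^ (-(ε / 2)) * (z : ℝ) ^ 3 ≤
    (W : ℝ) ^ (-(ε / 4)) * (((Pm (4 * K.factorial) (x / 2) x).card : ℝ) ^ 2 / (16 * P ^ 2))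
  n_cop : 32 * (P : ℝ) ^ 2 * GS ^ 2 ≤ y
  n_one : 4 * P * (C2 * EE (4 * K.factorial) x y W) ≤ (Pm (4 * K.factorial) (x / 2) x).card
  /- the numerical inequalities for the selected primes -/
  n_K : 32 * (C2 / ch) * (P * N0) * (C2 / ch) ≤ K
  n_z : 32 * (C2 / ch) * ((x : ℝ) * y) ≤ ch * EE (4 * K.factorial) x y W * z ^ 2
  n_big : 72 * (C2 / ch) * (W : ℝ) ^ C3 ≤ ch * EE (4 * K.factorial) x y W
  /- the numerical inequalities for the unclean tuples -/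
  n_W6 : (6 : ℝ) ≤ (W : ℝ) ^ (ε / 8)
  n_mod : (Lc z (cp K y) : ℝ) * (W : ℝ) ^ (2 * C3) ≤ (x : ℝ) ^ (ε / 8)
  n_uc : (4 * x / (ch * EE (4 * K.factorial) x y W)) ^ 6 * (W : ℝ) ^ (-(ε / 4)) ≤ 1 / 18
  /- the numerical inequalities for the blocks -/
  n_D : 256 * (P * N0) * GA ≤ K * (r * m)
  n_m : 32 * y ≤ m
  n_MW : W ^ (C3 * P) ≤ y ^ y
  n_r : 36 * (X0 : ℝ) ≤ (15 / 2 : ℝ) ^ ((r : ℝ) / 8)
  n_m2 : (z : ℝ) ^ (1 + 3 * ε / 2) ≤ (15 * m / 16) ^ 2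
  n_fin : 2 * (x : ℝ) ^ 6 * (36 * X0) ^ 2 ≤ (z : ℝ) ^ (3 * ε / 2 * (7 * r / 8))

namespace Env

variable {k : ℤ} (E : Env k)

/-- the modulus of all primes -/
def f : ℕ := 4 * E.K.factorial

/-- the full core modulus -/
noncomputable def L0 : ℕ := Lc E.z (cp E.K E.y)

/-- the core modulus without the primes of `D` -/
noncomputable def L (D : Finset ℕ) : ℕ := Lc E.z (cp E.K E.y \ D)

/-- expected size -/
noncomputable def EQ : ℝ := EE (4 * E.K.factorial) E.x E.y E.W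

/-- the primes with part `M` -/
noncomputable def S (M : ℕ) : Finset ℕ := SM (4 * E.K.factorial) E.x E.y E.W M

/-- the selected primes -/
noncomputable def S' (D : Finset ℕ) (M : ℕ) : Finset ℕ :=
  SS (4 * E.K.factorial) E.x E.y E.z E.W E.K M D

/-- the part of `(s - 1) / 2` with the primes in `(y, W]` -/
noncomputable def Mp (s : ℕ) : ℕ := prt (Set.Ioc E.y E.W) ((s - 1) / 2)

/-- the primes `s` -/
def SA : Finset ℕ := Pm (4 * E.K.factorial) (E.x / 2) E.x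

/-- pairs that must be avoided -/
def Rbad (s s' : ℕ) : Prop :=
  ¬ (Nat.Coprime (E.Mp s) (E.Mp s') ∧ ¬ (E.Mp s = 1 ∧ E.Mp s' = 1) ∧
    Phi E.𝒲 E.ε E.y E.W E.L0 (E.Mp s * E.Mp s') ≤ (E.W : ℝ) ^ (-(E.ε / 4)))

end Env

/-- the rough part of the modulus -/
noncomputable def Qr (W : ℕ) (u : (Fin 3 → ℕ) × (Fin 3 → ℕ)) : ℕ :=
  (∏ i, prt (Set.Ioi W) ((u.1 i - 1) / 2)) * ∏ i, prt (Set.Ioi W) ((u.2 i - 1) / 2)

/-- the chosen set `D` and the chosen parts `M`, `M'` -/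
structure Sel {k : ℤ} (E : Env k) where
  D : Finset ℕ
  M : ℕ
  M' : ℕ
  hD : D ⊆ cp E.K E.y
  hDc : D.card ≤ E.P * E.N0
  hM : M ≠ 0
  hM' : M' ≠ 0
  hco : Nat.Coprime M M'
  hne : M ≠ M'
  hpr : ∀ p : ℕ, p.Prime → p ∣ M * M' → E.y < p ∧ p ≤ E.W
  hMW : M ≤ E.W ^ E.C3
  hMW' : M' ≤ E.W ^ E.C3
  hPhi : Phi E.𝒲 E.ε E.y E.W E.L0 (M * M') ≤ (E.W : ℝ) ^ (-(E.ε / 4))
  h1 : E.ch * E.EQ / M ≤ ((E.S M).card : ℝ)
  h1' : E.ch * E.EQ / M' ≤ ((E.S M').card : ℝ)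
  hχ : ∀ χ : DirichletCharacter ℂ (E.L D * M'), χ ≠ 1 →
    ‖∑ s ∈ E.S M, χ (s : ZMod (E.L D * M'))‖ ≤ (E.S M).card / (16 * E.C2 / E.ch)
  hχ' : ∀ χ : DirichletCharacter ℂ (E.L D * M), χ ≠ 1 →
    ‖∑ s ∈ E.S M', χ (s : ZMod (E.L D * M))‖ ≤ (E.S M').card / (16 * E.C2 / E.ch)

end GCN
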