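import Pool.Agent.GCN.F1a

/-!
# [GCN-F1] scales with many primes `≡ -1 mod f`
-/

set_option autoImplicit false

open Finset

namespace GCN

/-- the sum over a dyadic block -/
noncomputable def f1_psf (f j : ℕ) : ℝ :=
  ∑ n ∈ Ioc (2 ^ j) (2 ^ (j + 1)), if f ∣ n + 1 then ArithmeticFunction.vonMangoldt n else 0

theorem f1_ite_nonneg (f n : ℕ) :
    0 ≤ (if f ∣ n + 1 then ArithmeticFunction.vonMangoldt n else 0 : ℝ) := by
  split_ifs
  · exact ArithmeticFunction.vonMangoldt_nonneg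
  · exact le_rfl

theorem f1_floor (j : ℕ) : ⌊(2 : ℝ) ^ j⌋₊ = 2 ^ j := by
  have : ((2 ^ j : ℕ) : ℝ) = (2 : ℝ) ^ j := by push_cast; rfl
  rw [← this, Nat.floor_natCast]

theorem f1_psi_le (f j : ℕ) : f1_psf f j ≤ (Real.log 4 + 4) * 2 ^ (j + 1) := by
  refine le_trans ?_ (Chebyshev.psi_le_const_mul_self (x := (2 : ℝ) ^ (j + 1)) (by positivity))
  rw [Chebyshev.psi, f1_floor, f1_psf]
  calc _ ≤ ∑ n ∈ Ioc (2 ^ j) (2 ^ (j + 1)), ArithmeticFunction.vonMangoldt n := by
        refine sum_le_sum fun n _ => ?_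
        split_ifs
        · exact le_rfl
        · exact ArithmeticFunction.vonMangoldt_nonneg
    _ ≤ _ := sum_le_sum_of_subset_of_nonneg (Ioc_subset_Ioc_left (Nat.zero_le _))
        fun _ _ _ => ArithmeticFunction.vonMangoldt_nonneg

theorem f1_geom (T : ℝ) (hT : 0 < T) (J : ℕ) :
    ∑ j ∈ range J, ((2 : ℝ) ^ (-(1 / T))) ^ j ≤ 1 + 3 / 2 * T := by
  have hlog : (2 : ℝ) / 3 < Real.log 2 := by
    have := Real.log_two_gt_d9
    linarith
  set x := (2 : ℝ) ^ (-(1 / T)) with hx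
  set a := Real.log 2 / T with ha
  have ha0 : 0 < a := by positivity
  have hxe : x = Real.exp (-a) := by
    rw [hx, Real.rpow_def_of_pos (by norm_num)]
    congr 1
    rw [ha]
    ring
  have hx0 : 0 < x := Real.rpow_pos_of_pos (by norm_num) _
  have h1 : x * (1 + a) ≤ 1 := by
    rw [hxe, Real.exp_neg, inv_mul_le_iff₀ (Real.exp_pos a), mul_one]
    linarith [Real.add_one_le_exp a]
  have h2 : (1 - x) * ∑ j ∈ range J, x ^ j = 1 - x ^ J := mul_neg_geom_sum x J
  have h3 : 0 ≤ x ^ J := by positivity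
  set S := ∑ j ∈ range J, x ^ j with hS'
  have hS : 0 ≤ S := sum_nonneg fun _ _ => by positivity
  have h5 : a * T = Real.log 2 := by
    rw [ha]
    field_simp
  have h4 : a * S ≤ 1 + a := by
    have h6 : a ≤ (1 + a) * (1 - x) := by nlinarith
    calc a * S ≤ (1 + a) * (1 - x) * S := mul_le_mul_of_nonneg_right h6 hS
      _ = (1 + a) * ((1 - x) * S) := by ring
      _ = (1 + a) * (1 - x ^ J) := by rw [h2]
      _ ≤ (1 + a) * 1 := by
        apply mul_le_mul_of_nonneg_left _ (by linarith)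
        linarith
      _ = 1 + a := by ring
  by_contra hcon
  push Not at hcon
  have h7 : a * (1 + 3 / 2 * T) < a * S := mul_lt_mul_of_pos_left hcon ha0
  have h8 : a * (1 + 3 / 2 * T) = a + 3 / 2 * Real.log 2 := by
    rw [mul_add, mul_one, ← h5]
    ring
  linarith

theorem f1_range (g : ℕ → ℝ) (h0 : g 0 = 0) (h1 : g 1 = 0) (J : ℕ) :
    ∑ i ∈ range (2 ^ J + 1), g i = ∑ j ∈ range J, ∑ n ∈ Ioc (2 ^ j) (2 ^ (j + 1)), g n := by
  induction J with
  | zero =>
    rw [pow_zero, sum_range_succ, sum_range_one, h0, h1]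
    simp
  | succ J ih =>
    rw [sum_range_succ (fun j => ∑ n ∈ Ioc (2 ^ j) (2 ^ (j + 1)), g n), ← ih]
    rw [range_eq_Ico, range_eq_Ico]
    have h2 : Ioc (2 ^ J) (2 ^ (J + 1)) = Ico (2 ^ J + 1) (2 ^ (J + 1) + 1) := by
      ext n
      simp only [mem_Ioc, mem_Ico]
      omega
    rw [h2, sum_Ico_consecutive]
    · exact Nat.zero_le _
    · have : 2 ^ J ≤ 2 ^ (J + 1) := Nat.pow_le_pow_right (by norm_num) (by omega)
      omega

/-- the part of the series in a block -/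
theorem f1_block (f j : ℕ) (T : ℝ) (hT : 0 < T) :
    ∑ n ∈ Ioc (2 ^ j) (2 ^ (j + 1)),
      (if f ∣ n + 1 then ArithmeticFunction.vonMangoldt n else 0) / (n : ℝ) ^ (1 + 1 / T) ≤
      f1_psf f j / 2 ^ j * ((2 : ℝ) ^ (-(1 / T))) ^ j := by
  have h1 : ((2 : ℝ) ^ j) ^ (1 + 1 / T) = 2 ^ j * (((2 : ℝ) ^ (-(1 / T))) ^ j)⁻¹ := by
    rw [Real.rpow_add (by positivity), Real.rpow_one]
    congr 1
    rw [Real.rpow_neg (by norm_num), inv_pow, inv_inv, ← Real.rpow_natCast, ← Real.rpow_mul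
      (by norm_num), ← Real.rpow_natCast, ← Real.rpow_mul (by norm_num)]
    congr 1
    ring
  have h2 : f1_psf f j / 2 ^ j * ((2 : ℝ) ^ (-(1 / T))) ^ j =
      f1_psf f j / ((2 : ℝ) ^ j) ^ (1 + 1 / T) := by
    rw [h1]
    have : ((2 : ℝ) ^ (-(1 / T))) ^ j ≠ 0 := by positivity
    field_simp
  rw [h2, f1_psf, sum_div]
  refine sum_le_sum fun n hn => ?_
  have hn' : (2 : ℝ) ^ j ≤ n := by
    have := (mem_Ioc.1 hn).1.le
    exact_mod_cast this
  exact div_le_div_of_nonneg_left (f1_ite_nonneg f n) (by positivity)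
    (Real.rpow_le_rpow (by positivity) hn' (by positivity))

theorem f1_key (f : ℕ) (hf : 1 ≤ f) : ∃ e H : ℝ, 0 < e ∧ e ≤ H ∧ ∃ T0 : ℝ, ∀ T : ℝ, T0 ≤ T →
    ∃ j : ℕ, e * T ≤ j ∧ (j : ℝ) ≤ H * T ∧ (2 : ℝ) ^ j / (4 * Nat.totient f) ≤ f1_psf f j := by
  obtain ⟨C, hC⟩ := lower f hf
  set c : ℝ := Real.log 4 + 4 with hc
  have hc4 : 4 < c := by
    have : 0 < Real.log 4 := Real.log_pos (by norm_num)
    linarith
  have hφ : (0 : ℝ) < Nat.totient f := by exact_mod_cast Nat.totient_pos.2 hf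
  have hφ1 : (1 : ℝ) ≤ Nat.totient f := by exact_mod_cast Nat.totient_pos.2 hf
  set φ : ℝ := (Nat.totient f : ℝ) with hφd
  obtain ⟨m, hm⟩ := pow_unbounded_of_one_lt (64 * φ * c) (by norm_num : (1 : ℝ) < 2)
  refine ⟨1 / (64 * φ * c), 2 * m + 1, by positivity, ?_, ?_⟩
  · have : 1 / (64 * φ * c) ≤ 1 := by
      rw [div_le_one (by positivity)]
      nlinarith
    have hm0 : (0 : ℝ) ≤ m := by positivity
    linarith
  refine ⟨max 1 (4 * φ * (2 * c + C + 2)), ?_⟩
  intro T hT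
  have hT1 : 1 ≤ T := le_trans (le_max_left _ _) hT
  have hT2 : 4 * φ * (2 * c + C + 2) ≤ T := le_trans (le_max_right _ _) hT
  have hT0 : 0 < T := by linarith
  by_contra hcon
  push Not at hcon
  -- the block bounds
  set x : ℝ := (2 : ℝ) ^ (-(1 / T)) with hx
  set s : ℝ := (2 : ℝ) ^ (-(1 / (2 * T))) with hs
  have hx0 : 0 < x := Real.rpow_pos_of_pos (by norm_num) _
  have hs0 : 0 < s := Real.rpow_pos_of_pos (by norm_num) _
  have hxs : x = s ^ 2 := by
    rw [hx, hs, ← Real.rpow_natCast, ← Real.rpow_mul (by norm_num)]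
    congr 1
    field_simp
    norm_num
  have hs1 : s ≤ 1 := by
    rw [hs]
    apply Real.rpow_le_one_of_one_le_of_nonpos (by norm_num)
    have : 0 < 1 / (2 * T) := by positivity
    linarith
  have hx1 : x ≤ 1 := by
    rw [hxs]
    exact pow_le_one₀ hs0.le hs1
  have hblock : ∀ j : ℕ, f1_psf f j / 2 ^ j * x ^ j ≤
      2 * c * (if (j : ℝ) < 1 / (64 * φ * c) * T then 1 else 0) + 1 / (4 * φ) * x ^ j +
        1 / (32 * φ) * s ^ j := by
    intro j
    have h2j : (0 : ℝ) < 2 ^ j := by positivity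
    have hA : f1_psf f j / 2 ^ j ≤ 2 * c := by
      rw [div_le_iff₀ h2j]
      have := f1_psi_le f j
      rw [pow_succ] at this
      linarith
    have hA0 : 0 ≤ f1_psf f j / 2 ^ j :=
      div_nonneg (sum_nonneg fun n _ => f1_ite_nonneg f n) h2j.le
    have hxj0 : 0 < x ^ j := by positivity
    have hxj1 : x ^ j ≤ 1 := pow_le_one₀ hx0.le hx1
    have hsj0 : 0 < s ^ j := by positivity
    have ht1 : 0 ≤ 1 / (4 * φ) * x ^ j := by positivity
    have ht2 : 0 ≤ 1 / (32 * φ) * s ^ j := by positivity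
    by_cases hj : (j : ℝ) < 1 / (64 * φ * c) * T
    · rw [if_pos hj]
      have : f1_psf f j / 2 ^ j * x ^ j ≤ 2 * c * 1 := mul_le_mul hA hxj1 hxj0.le (by linarith)
      linarith
    · rw [if_neg hj, mul_zero, zero_add]
      push Not at hj
      by_cases hj2 : (j : ℝ) ≤ (2 * m + 1) * T
      · have h3 := hcon j hj hj2
        have h4 : f1_psf f j / 2 ^ j ≤ 1 / (4 * φ) := by
          rw [div_le_iff₀ h2j]
          rw [one_div_mul_eq_div]
          exact h3.le
        have := mul_le_mul_of_nonneg_right h4 hxj0.le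
        linarith
      · push Not at hj2
        -- s ^ j ≤ 2 ^ (-m)
        have h5 : s ^ j ≤ ((2 : ℝ) ^ m)⁻¹ := by
          rw [hs, ← Real.rpow_natCast, ← Real.rpow_mul (by norm_num), ← Real.rpow_natCast,
            ← Real.rpow_neg (by norm_num)]
          apply Real.rpow_le_rpow_of_exponent_le (by norm_num)
          have h6 : (m : ℝ) ≤ 1 / (2 * T) * j := by
            rw [one_div_mul_eq_div, le_div_iff₀ (by positivity)]
            nlinarith
          linarith
        have h7 : ((2 : ℝ) ^ m)⁻¹ ≤ 1 / (64 * φ * c) := by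
          rw [← one_div]
          exact one_div_le_one_div_of_le (by positivity) hm.le
        have h8 : x ^ j = s ^ j * s ^ j := by rw [hxs]; ring
        have h9 : f1_psf f j / 2 ^ j * x ^ j ≤ 1 / (32 * φ) * s ^ j := by
          rw [h8]
          calc f1_psf f j / 2 ^ j * (s ^ j * s ^ j) ≤ 2 * c * (1 / (64 * φ * c) * s ^ j) := by
                apply mul_le_mul hA _ (by positivity) (by linarith)
                exact mul_le_mul_of_nonneg_right (h5.trans h7) hsj0.le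
            _ = 1 / (32 * φ) * s ^ j := by
              field_simp
              norm_num
        linarith
  -- the bound of the partial sums
  have hsum : ∑' n : ℕ, (if f ∣ n + 1 then ArithmeticFunction.vonMangoldt n else 0) /
      (n : ℝ) ^ (1 + 1 / T) ≤
      2 * c * (1 / (64 * φ * c) * T + 1) + 1 / (4 * φ) * (1 + 3 / 2 * T) +
        1 / (32 * φ) * (1 + 3 / 2 * (2 * T)) := by
    apply Real.tsum_le_of_sum_range_le
    · intro n
      exact div_nonneg (f1_ite_nonneg f n) (Real.rpow_nonneg (Nat.cast_nonneg n) _)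
    · intro N
      have hN : N ≤ 2 ^ N + 1 := by
        have := Nat.lt_two_pow_self (n := N)
        omega
      calc _ ≤ ∑ n ∈ range (2 ^ N + 1),
            (if f ∣ n + 1 then ArithmeticFunction.vonMangoldt n else 0) /
              (n : ℝ) ^ (1 + 1 / T) := by
            apply sum_le_sum_of_subset_of_nonneg (range_subset_range.2 hN)
            intro n _ _
            exact div_nonneg (f1_ite_nonneg f n) (Real.rpow_nonneg (Nat.cast_nonneg n) _)
        _ = ∑ j ∈ range N, ∑ n ∈ Ioc (2 ^ j) (2 ^ (j + 1)),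
            (if f ∣ n + 1 then ArithmeticFunction.vonMangoldt n else 0) /
              (n : ℝ) ^ (1 + 1 / T) := by
            apply f1_range (fun n : ℕ => (if f ∣ n + 1 then ArithmeticFunction.vonMangoldt n else 0) /
              (n : ℝ) ^ (1 + 1 / T))
            · simp
            · simp
        _ ≤ ∑ j ∈ range N, (2 * c * (if (j : ℝ) < 1 / (64 * φ * c) * T then 1 else 0) +
              1 / (4 * φ) * x ^ j + 1 / (32 * φ) * s ^ j) :=
            sum_le_sum fun j _ => (f1_block f j T hT0).trans (hblock j)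
        _ = 2 * c * ∑ j ∈ range N, (if (j : ℝ) < 1 / (64 * φ * c) * T then 1 else 0) +
              1 / (4 * φ) * ∑ j ∈ range N, x ^ j + 1 / (32 * φ) * ∑ j ∈ range N, s ^ j := by
            rw [sum_add_distrib, sum_add_distrib, mul_sum, mul_sum, mul_sum]
        _ ≤ _ := by
            have hg1 := f1_geom T hT0 N
            have hg2 := f1_geom (2 * T) (by positivity) N
            have hg3 : ∑ j ∈ range N, (if (j : ℝ) < 1 / (64 * φ * c) * T then (1 : ℝ) else 0) ≤
                1 / (64 * φ * c) * T + 1 := by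
              rw [← sum_filter, sum_const, nsmul_eq_mul, mul_one]
              have hsub : (range N).filter (fun j : ℕ => (j : ℝ) < 1 / (64 * φ * c) * T) ⊆
                  range ⌈1 / (64 * φ * c) * T⌉₊ := by
                intro j hj
                rw [mem_filter] at hj
                rw [mem_range, Nat.lt_ceil]
                exact hj.2
              have h1 := card_le_card hsub
              rw [card_range] at h1
              have h2 : ((⌈1 / (64 * φ * c) * T⌉₊ : ℕ) : ℝ) < 1 / (64 * φ * c) * T + 1 :=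
                Nat.ceil_lt_add_one (by positivity)
              have h3 : (((range N).filter
                (fun j : ℕ => (j : ℝ) < 1 / (64 * φ * c) * T)).card : ℝ) ≤
                  (⌈1 / (64 * φ * c) * T⌉₊ : ℕ) := by exact_mod_cast h1
              linarith
            have hc0 : 0 ≤ 2 * c := by linarith
            have hp1 : 0 ≤ 1 / (4 * φ) := by positivity
            have hp2 : 0 ≤ 1 / (32 * φ) := by positivity
            gcongr
  have hlow := hC T hT1
  have hfin := hlow.trans hsum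
  have e1 : 2 * c * (1 / (64 * φ * c) * T + 1) = 1 / 32 * (T / φ) + 2 * c := by
    field_simp
    ring
  have e2 : 1 / (4 * φ) * (1 + 3 / 2 * T) = 1 / 4 * (1 / φ) + 3 / 8 * (T / φ) := by
    field_simp
    ring
  have e3 : 1 / (32 * φ) * (1 + 3 / 2 * (2 * T)) = 1 / 32 * (1 / φ) + 3 / 32 * (T / φ) := by
    field_simp
  rw [e1, e2, e3] at hfin
  have h1φ : 1 / φ ≤ 1 := by
    rw [div_le_one hφ]
    exact hφ1
  have hTφ : 4 * (2 * c + C + 2) ≤ T / φ := by
    rw [le_div_iff₀ hφ]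
    linarith
  have hTp : 0 < T / φ := by positivity
  linarith


theorem f1_psf_le (f j : ℕ) : f1_psf f j ≤
    ((Pm f (2 ^ j) (2 ^ (j + 1))).card : ℝ) * Real.log ((2 : ℝ) ^ (j + 1)) +
      2 * Real.sqrt ((2 : ℝ) ^ (j + 1)) * Real.log ((2 : ℝ) ^ (j + 1)) := by
  have hX1 : (1 : ℝ) ≤ 2 ^ (j + 1) := one_le_pow₀ (by norm_num)
  have h1 := Chebyshev.abs_psi_sub_theta_le_sqrt_mul_log hX1
  have h2 := (le_abs_self _).trans h1
  have h3 : Chebyshev.psi ((2 : ℝ) ^ (j + 1)) - Chebyshev.theta ((2 : ℝ) ^ (j + 1)) =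
      ∑ n ∈ (Ioc 0 (2 ^ (j + 1))).filter (fun n => ¬ n.Prime),
        ArithmeticFunction.vonMangoldt n := by
    rw [Chebyshev.psi, Chebyshev.theta, f1_floor, sub_eq_iff_eq_add,
      ← sum_filter_add_sum_filter_not (Ioc 0 (2 ^ (j + 1))) Nat.Prime, add_comm]
    congr 1
    refine sum_congr rfl fun p hp => ?_
    exact ArithmeticFunction.vonMangoldt_apply_prime (mem_filter.1 hp).2
  rw [h3] at h2
  rw [f1_psf, ← sum_filter_add_sum_filter_not (Ioc (2 ^ j) (2 ^ (j + 1))) Nat.Prime]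
  refine add_le_add ?_ (le_trans ?_ h2)
  · rw [← sum_filter]
    have h4 : ((Ioc (2 ^ j) (2 ^ (j + 1))).filter Nat.Prime).filter (fun n => f ∣ n + 1) =
        Pm f (2 ^ j) (2 ^ (j + 1)) := by
      rw [Pm, filter_filter]
    rw [h4]
    rw [← nsmul_eq_mul]
    apply sum_le_card_nsmul
    intro p hp
    have hp' := mem_filter.1 hp
    have hp2 : p ≤ 2 ^ (j + 1) := (mem_Ioc.1 hp'.1).2
    rw [ArithmeticFunction.vonMangoldt_apply_prime hp'.2.1]
    apply Real.log_le_log (by exact_mod_cast hp'.2.1.pos)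
    exact_mod_cast hp2
  · calc _ ≤ ∑ n ∈ (Ioc (2 ^ j) (2 ^ (j + 1))).filter (fun n => ¬ n.Prime),
          ArithmeticFunction.vonMangoldt n := by
          refine sum_le_sum fun n _ => ?_
          split_ifs
          · exact le_rfl
          · exact ArithmeticFunction.vonMangoldt_nonneg
      _ ≤ _ := sum_le_sum_of_subset_of_nonneg
          (filter_subset_filter _ (Ioc_subset_Ioc_left (Nat.zero_le _)))
          fun _ _ _ => ArithmeticFunction.vonMangoldt_nonneg

theorem f1_large (c : ℝ) (hc : 0 < c) : ∃ X0 : ℝ, ∀ X : ℝ, X0 ≤ X →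
    2 * Real.sqrt X * Real.log X ≤ c * X := by
  have h := (isLittleO_log_rpow_atTop (r := 1 / 2) (by norm_num)).bound (c := c / 2) (by positivity)
  obtain ⟨X0, hX0⟩ := Filter.eventually_atTop.1 h
  refine ⟨max X0 1, fun X hX => ?_⟩
  have hX1 : 1 ≤ X := (le_max_right _ _).trans hX
  have h1 := hX0 X ((le_max_left _ _).trans hX)
  rw [Real.norm_of_nonneg (Real.log_nonneg hX1), Real.norm_of_nonneg (by positivity),
    ← Real.sqrt_eq_rpow] at h1
  have h2 : Real.sqrt X * Real.sqrt X = X := Real.mul_self_sqrt (by linarith)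
  have h3 : 0 ≤ Real.sqrt X := Real.sqrt_nonneg X
  nlinarith [mul_le_mul_of_nonneg_left h1 h3]

/-- [F1b] Proof. Chebyshev: `ψ(v) ≤ c₀ v` (`Chebyshev.psi_le_const_mul_self`, `c₀ = log 4 + 4`). Let `e = 1/(64 φ(f) c₀)` and `H ≥ 1` with `8 c₀ 2^(-H) ≤ 1/(8 φ(f))`. Suppose that every `j ∈ [e T, H T]` has
`ψ_f(2^j, 2^(j+1)] := ∑_{2^j < n ≤ 2^(j+1), f ∣ n+1} Λ(n) < 2^j/(4 φ(f))`. Split the series of `lower` into the blocks `(2^j, 2^(j+1)]` (terms `n ≤ 1` are `0`), each with `n^(-1-1/T) ≤ 2^(-j(1+1/T))`: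
`j < e T`: `≤ ∑ 2 c₀ ≤ 2 c₀ (e T + 1)`; `e T ≤ j ≤ H T`: `≤ (1/(4 φ(f))) ∑_j 2^(-j/T) ≤ (1/(4 φ(f))) (T/log 2 + 1)` (`1/(1 - 2^(-1/T)) ≤ T/log 2 + 1`), which is `≤ (3/(8 φ(f))) T + 1`;
`j > H T`: `≤ 2 c₀ 2^(-H) (T/log 2 + 1)`. The sum is `< T/φ(f) - C` for large `T`, a contradiction. So some `j ∈ [e T, H T]` has `ψ_f ≥ 2^j/(4 φ(f))`; the proper prime powers contribute at most
`2 √(2^(j+1)) log 2^(j+1)` (`Chebyshev.psi_sub_theta_le`), so `∑_{p ∈ Pm f (2^j) (2^(j+1))} log p ≥ 2^j/(5 φ(f))` for large `T`, and `log p ≤ log 2^(j+1)`: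
`#Pm ≥ 2^(j+1)/(10 φ(f) log 2^(j+1))`. -/
theorem scales (f : ℕ) (hf : 1 ≤ f) : ∃ e H : ℝ, 0 < e ∧ e ≤ H ∧ ∃ T0 : ℝ, ∀ T : ℝ, T0 ≤ T →
    ∃ j : ℕ, e * T ≤ j ∧ (j : ℝ) ≤ H * T ∧
      ((2 : ℝ) ^ (j + 1)) / (16 * Nat.totient f * Real.log ((2 : ℝ) ^ (j + 1))) ≤
        ((Pm f (2 ^ j) (2 ^ (j + 1))).card : ℝ) := by
  obtain ⟨e, H, he, heH, T0, hT0⟩ := f1_key f hf
  have hφ : (0 : ℝ) < Nat.totient f := by exact_mod_cast Nat.totient_pos.2 hf
  obtain ⟨X0, hX0⟩ := f1_large (1 / (16 * Nat.totient f)) (by positivity)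
  refine ⟨e, H, he, heH, max T0 (X0 / e), fun T hT => ?_⟩
  obtain ⟨j, hj1, hj2, hj3⟩ := hT0 T ((le_max_left _ _).trans hT)
  refine ⟨j, hj1, hj2, ?_⟩
  have h1 : X0 ≤ (2 : ℝ) ^ (j + 1) := by
    have h2 : X0 / e ≤ T := (le_max_right _ _).trans hT
    rw [div_le_iff₀ he] at h2
    have h3 : (j : ℝ) ≤ 2 ^ (j + 1) := by
      have := (Nat.lt_two_pow_self (n := j + 1)).le
      have h4 : j ≤ 2 ^ (j + 1) := by omega
      exact_mod_cast h4
    linarith
  have h5 := hX0 _ h1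
  have h6 := f1_psf_le f j
  have hL : 0 < Real.log ((2 : ℝ) ^ (j + 1)) :=
    Real.log_pos (one_lt_pow₀ (by norm_num) (by omega))
  rw [← div_div, div_le_iff₀ hL]
  have h7 : (2 : ℝ) ^ j / (4 * Nat.totient f) = 2 * ((2 : ℝ) ^ (j + 1) / (16 * Nat.totient f)) := by
    rw [pow_succ]
    field_simp
    norm_num
  have h8 : 1 / (16 * (Nat.totient f : ℝ)) * 2 ^ (j + 1) =
      (2 : ℝ) ^ (j + 1) / (16 * Nat.totient f) := one_div_mul_eq_div _ _
  rw [h8] at h5
  rw [h7] at hj3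
  linarith

end GCN
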