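import Pool.Agent.GCN.Defs

/-!
# [GCN-F1a] a lower bound for a Dirichlet series
-/

set_option autoImplicit false

open Finset

namespace GCN

/-- [F1a] Proof. `ArithmeticFunction.vonMangoldt.LSeries_residueClass_lower_bound` with `a = -1 : ZMod f` and `x = 1 + 1/T ∈ (1, 2]`; `(n : ZMod f) = -1` iff `f ∣ n + 1`. -/
theorem lower (f : ℕ) (hf : 1 ≤ f) : ∃ C : ℝ, ∀ T : ℝ, 1 ≤ T →
    T / Nat.totient f - C ≤ ∑' n : ℕ,
      (if f ∣ n + 1 then ArithmeticFunction.vonMangoldt n else 0) / (n : ℝ) ^ (1 + 1 / T) := by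
  have : NeZero f := ⟨by omega⟩
  have ha : IsUnit (-1 : ZMod f) := isUnit_one.neg
  obtain ⟨C, hC⟩ := ArithmeticFunction.vonMangoldt.LSeries_residueClass_lower_bound ha
  refine ⟨C, fun T hT => ?_⟩
  have hT0 : 0 < T := by linarith
  have hx : (1 + 1 / T) ∈ Set.Ioc (1 : ℝ) 2 := by
    constructor
    · have : 0 < 1 / T := by positivity
      linarith
    · have : 1 / T ≤ 1 := by
        rw [div_le_one hT0]
        exact hT
      linarith
  have h := hC hx
  have h1 : (Nat.totient f : ℝ)⁻¹ / (1 + 1 / T - 1) = T / Nat.totient f := by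
    rw [add_sub_cancel_left, div_div_eq_mul_div, div_one, inv_mul_eq_div]
  rw [h1] at h
  refine h.trans (le_of_eq ?_)
  refine tsum_congr fun n => ?_
  congr 1
  have h2 : ((n : ZMod f) = -1) ↔ f ∣ n + 1 := by
    rw [← ZMod.natCast_eq_zero_iff, Nat.cast_add, Nat.cast_one, ← add_eq_zero_iff_eq_neg]
  unfold ArithmeticFunction.vonMangoldt.residueClass
  by_cases h3 : f ∣ n + 1
  · rw [if_pos h3, Set.indicator_of_mem (by exact h2.2 h3)]
  · rw [if_neg h3, Set.indicator_of_notMem (by exact fun h4 => h3 (h2.1 h4))]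

end GCN
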