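import Mathlib

/-!
# [GCN-G1] growth
-/

set_option autoImplicit false

namespace GCN

theorem g1_ev (ε : ℝ) (hε : 0 < ε) (b : ℝ) (hb : 1 ≤ b) : ∃ z0 : ℕ, ∀ z : ℕ, z0 ≤ z →
    (1 : ℝ) ≤ z ∧ (2 : ℝ) ≤ (z : ℝ) ^ (2 / 5 : ℝ) ∧
      2 * b * Real.log z ≤ (z : ℝ) ^ (2 / 5 : ℝ) ∧ 15 * Real.log 2 ≤ Real.log z ∧
      3 * b ≤ Real.log z ∧ b + 3 ≤ (z : ℝ) ^ (1 / 2 : ℝ) ∧
      b * Real.log z ≤ (z : ℝ) ^ (ε / 4) := by
  have hcast : Filter.Tendsto (fun n : ℕ => (n : ℝ)) Filter.atTop Filter.atTop :=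
    tendsto_natCast_atTop_atTop
  have hb0 : 0 < b := by linarith
  have hlog : ∀ r : ℝ, 0 < r → ∀ c : ℝ, 0 < c → ∀ᶠ x : ℝ in Filter.atTop,
      c * Real.log x ≤ x ^ r := by
    intro r hr c hc
    have h1 := (isLittleO_log_rpow_atTop hr).def (inv_pos.2 hc)
    filter_upwards [h1, Filter.eventually_ge_atTop (1 : ℝ)] with x hx hx1
    have h2 : 0 ≤ Real.log x := Real.log_nonneg hx1
    have h3 : 0 ≤ x ^ r := Real.rpow_nonneg (by linarith) r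
    rw [Real.norm_of_nonneg h2, Real.norm_of_nonneg h3] at hx
    calc c * Real.log x ≤ c * (c⁻¹ * x ^ r) := mul_le_mul_of_nonneg_left hx hc.le
      _ = x ^ r := by field_simp
  have e1 := hcast.eventually (Filter.eventually_ge_atTop (1 : ℝ))
  have e2 := hcast.eventually ((tendsto_rpow_atTop (show (0 : ℝ) < 2 / 5 by norm_num)).eventually_ge_atTop 2)
  have e3 := hcast.eventually (hlog (2 / 5) (by norm_num) (2 * b) (by linarith))
  have e4 := hcast.eventually (Real.tendsto_log_atTop.eventually_ge_atTop (15 * Real.log 2))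
  have e5 := hcast.eventually (Real.tendsto_log_atTop.eventually_ge_atTop (3 * b))
  have e6 := hcast.eventually ((tendsto_rpow_atTop (show (0 : ℝ) < 1 / 2 by norm_num)).eventually_ge_atTop (b + 3))
  have e7 := hcast.eventually (hlog (ε / 4) (by linarith) b hb0)
  have h := e1.and (e2.and (e3.and (e4.and (e5.and (e6.and e7)))))
  rw [Filter.eventually_atTop] at h
  exact h

/-- [G1] Proof. `y ≥ z^(1/2-ε) - 1 ≥ z^(2/5)/2` for large `z` (`1/2 - ε ≥ 2/5`), and `y ≤ z^(1/2-ε) ≤ z^(1/2)`; `log z = o(z^δ)` for every `δ > 0` (`isLittleO_log_rpow_atTop`). Exponents: `a y³ ≤ a z^(3/2) ≤ z²`;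
`a z^(1/2+3ε/4) y log z ≤ a z^(1-ε/4) log z ≤ z`; `log y ≥ (2/5) log z - log 2 ≥ (1/3) log z`. Every claim holds for large `z`: take the maximum of the thresholds (or `Filter.Eventually.and`,
`Filter.eventually_atTop`). -/
theorem grow (ε : ℝ) (hε : 0 < ε) (hε1 : ε ≤ 1 / 10) (a : ℝ) : ∃ z0 : ℕ, ∀ z : ℕ, z0 ≤ z → ∀ y : ℕ,
    (y : ℝ) ≤ (z : ℝ) ^ (1 / 2 - ε) → (z : ℝ) ^ (1 / 2 - ε) < y + 1 →
    a ≤ y ∧ a ≤ Real.log y ∧ a * Real.log z ≤ y ∧ a * Real.log y ≤ y ∧ Real.log z ≤ 3 * Real.log y ∧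
      a * (y : ℝ) ^ 3 ≤ (z : ℝ) ^ 2 ∧ 2 * y < z ∧ a * y ≤ z ∧
      a * (z : ℝ) ^ (1 / 2 + 3 * ε / 4) * y * Real.log z ≤ z := by
  obtain ⟨b, hab, hb⟩ : ∃ b : ℝ, a ≤ b ∧ 1 ≤ b := ⟨max a 1, le_max_left _ _, le_max_right _ _⟩
  obtain ⟨z0, hz0⟩ := g1_ev ε hε b hb
  refine ⟨z0, ?_⟩
  intro z hz y hy1 hy2
  obtain ⟨h1, h2, h3, h4, h5, h6, h7⟩ := hz0 z hz
  have hb0 : 0 < b := by linarith
  have hzp : (0 : ℝ) < z := by linarith
  have hlz : 0 ≤ Real.log z := Real.log_nonneg h1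
  have hyn : (0 : ℝ) ≤ y := Nat.cast_nonneg y
  have p1 : (z : ℝ) ^ (2 / 5 : ℝ) ≤ (z : ℝ) ^ (1 / 2 - ε) :=
    Real.rpow_le_rpow_of_exponent_le h1 (by linarith)
  have p2 : (z : ℝ) ^ (2 / 5 : ℝ) / 2 ≤ y := by linarith
  have p3 : (y : ℝ) ≤ (z : ℝ) ^ (1 / 2 : ℝ) :=
    hy1.trans (Real.rpow_le_rpow_of_exponent_le h1 (by linarith))
  have hyp : (0 : ℝ) < y := by linarith
  have p4 : (2 / 5) * Real.log z - Real.log 2 ≤ Real.log y := by
    have q1 : Real.log ((z : ℝ) ^ (2 / 5 : ℝ) / 2) ≤ Real.log y :=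
      Real.log_le_log (by linarith) p2
    rw [Real.log_div (by linarith) (by norm_num), Real.log_rpow hzp] at q1
    exact q1
  have p5 : Real.log z ≤ 3 * Real.log y := by linarith
  have p6 : b ≤ Real.log y := by linarith
  have p7 : Real.log y ≤ y := Real.log_le_self hyn
  have p8 : b * Real.log z ≤ y := by linarith
  have hsq : (z : ℝ) ^ (1 / 2 : ℝ) * (z : ℝ) ^ (1 / 2 : ℝ) = z := by
    rw [← Real.rpow_add hzp]
    norm_num
  have hs0 : 0 < (z : ℝ) ^ (1 / 2 : ℝ) := Real.rpow_pos_of_pos hzp _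
  generalize hS : (z : ℝ) ^ (1 / 2 : ℝ) = S at *
  have p9 : (y : ℝ) ≤ z := by
    rw [← hsq]
    nlinarith
  have p10 : Real.log y ≤ Real.log z := Real.log_le_log hyp p9
  have p11 : b * y ≤ z := by
    rw [← hsq]
    exact mul_le_mul (by linarith) p3 hyn hs0.le
  have p12 : 2 * (y : ℝ) < z := by
    rw [← hsq]
    nlinarith
  have p13 : b * (y : ℝ) ^ 3 ≤ (z : ℝ) ^ 2 := by
    have q2 : (y : ℝ) ^ 3 ≤ S ^ 3 := pow_le_pow_left₀ hyn p3 3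
    calc b * (y : ℝ) ^ 3 ≤ S * S ^ 3 :=
          mul_le_mul (by linarith) q2 (by positivity) hs0.le
      _ = (S * S) ^ 2 := by ring
      _ = (z : ℝ) ^ 2 := by rw [hsq]
  have p14 : b * (z : ℝ) ^ (1 / 2 + 3 * ε / 4) * y * Real.log z ≤ z := by
    have q3 : (z : ℝ) ^ (1 / 2 + 3 * ε / 4) * (z : ℝ) ^ (1 / 2 - ε) * (z : ℝ) ^ (ε / 4) = z := by
      rw [← Real.rpow_add hzp, ← Real.rpow_add hzp]
      have q4 : 1 / 2 + 3 * ε / 4 + (1 / 2 - ε) + ε / 4 = 1 := by ring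
      rw [q4, Real.rpow_one]
    have q5 : 0 ≤ (z : ℝ) ^ (1 / 2 + 3 * ε / 4) := Real.rpow_nonneg hzp.le _
    calc b * (z : ℝ) ^ (1 / 2 + 3 * ε / 4) * y * Real.log z
        = (z : ℝ) ^ (1 / 2 + 3 * ε / 4) * y * (b * Real.log z) := by ring
      _ ≤ (z : ℝ) ^ (1 / 2 + 3 * ε / 4) * (z : ℝ) ^ (1 / 2 - ε) * (z : ℝ) ^ (ε / 4) := by
          refine mul_le_mul (mul_le_mul_of_nonneg_left hy1 q5) h7 (by positivity) ?_
          exact mul_nonneg q5 (Real.rpow_nonneg hzp.le _)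
      _ = z := q3
  have hly : 0 ≤ Real.log y := by linarith
  refine ⟨by linarith, by linarith, ?_, ?_, p5, ?_, ?_, ?_, ?_⟩
  · exact (mul_le_mul_of_nonneg_right hab hlz).trans p8
  · exact (mul_le_mul hab p10 hly hb0.le).trans p8
  · exact (mul_le_mul_of_nonneg_right hab (by positivity)).trans p13
  · exact_mod_cast p12
  · exact (mul_le_mul_of_nonneg_right hab hyn).trans p11
  · refine le_trans ?_ p14
    have q5 : 0 ≤ (z : ℝ) ^ (1 / 2 + 3 * ε / 4) := Real.rpow_nonneg hzp.le _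
    exact mul_le_mul_of_nonneg_right (mul_le_mul_of_nonneg_right
      (mul_le_mul_of_nonneg_right hab q5) hyn) hlz

end GCN
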