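import Pool.Agent.GCN.N1
import Pool.Agent.GCN.G1

/-!
# [GCN-G2] the size of the core modulus; blocks
-/

set_option autoImplicit false

open Finset

namespace GCN

/-- number of primes up to `y` -/
theorem g2_pi (y : ℕ) (hy : 2 ≤ y) : (Nat.primeCounting y : ℝ) * Real.log y ≤ 5 * y := by
  have hy1 : (1 : ℝ) < y := by exact_mod_cast hy
  have hl : 0 < Real.log y := Real.log_pos hy1
  have h1 := Chebyshev.pi_le_log4_mul_div hy1
  rw [Nat.floor_natCast] at h1
  have h2 : Real.log √(y : ℝ) = Real.log y / 2 := Real.log_sqrt (by linarith)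
  rw [h2] at h1
  have h3 : Real.log y ≤ 2 * √(y : ℝ) := by
    have h4 : Real.log √(y : ℝ) ≤ √(y : ℝ) - 1 :=
      Real.log_le_sub_one_of_pos (Real.sqrt_pos.2 (by linarith))
    rw [h2] at h4
    linarith
  have h4 : √(y : ℝ) * Real.log y ≤ 2 * y := by
    calc √(y : ℝ) * Real.log y ≤ √(y : ℝ) * (2 * √(y : ℝ)) :=
          mul_le_mul_of_nonneg_left h3 (Real.sqrt_nonneg _)
      _ = 2 * (√(y : ℝ) * √(y : ℝ)) := by ring
      _ = 2 * y := by rw [Real.mul_self_sqrt (by linarith)]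
  have h5 : Real.log 4 ≤ 1.4 := by
    have h6 : Real.log 4 = 2 * Real.log 2 := by
      rw [show (4 : ℝ) = 2 ^ 2 by norm_num, Real.log_pow]
      norm_num
    rw [h6]
    have := Real.log_two_lt_d9
    norm_num at this ⊢
    linarith
  have h6 : (Real.log 4 * y / (Real.log y / 2) + √(y : ℝ)) * Real.log y =
      2 * Real.log 4 * y + √(y : ℝ) * Real.log y := by
    field_simp
  have h7 := mul_le_mul_of_nonneg_right h1 hl.le
  rw [h6] at h7
  have h8 : 2 * Real.log 4 * y ≤ 2 * 1.4 * y := by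
    have : (0 : ℝ) ≤ y := by linarith
    exact mul_le_mul_of_nonneg_right (by linarith) this
  linarith

/-- [G2a] Proof. `Lc_le` (N1): `Lc ≤ z^(3 #(cp K y))`, `#(cp K y) ≤ π(y) ≤ log 4 · y/log √y + √y ≤ 4 y/log y` for large `y` (`Chebyshev.pi_le_log4_mul_div`), `log z ≤ 3 log y` (`grow`): `log Lc ≤ 3·4 (y/log y)·3 log y = 36 y`. -/
theorem Lc_log : ∃ CL : ℝ, 1 ≤ CL ∧ ∀ ε : ℝ, 0 < ε → ε ≤ 1 / 10 → ∃ z0 : ℕ, ∀ K z y : ℕ, z0 ≤ z →
    (y : ℝ) ≤ (z : ℝ) ^ (1 / 2 - ε) → (z : ℝ) ^ (1 / 2 - ε) < y + 1 →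
    Real.log (Lc z (cp K y)) ≤ CL * y := by
  refine ⟨45, by norm_num, fun ε hε hε1 => ?_⟩
  obtain ⟨z0, hz0⟩ := grow ε hε hε1 2
  refine ⟨z0, fun K z y hz h1 h2 => ?_⟩
  obtain ⟨g1, -, -, -, g5, -, g7, -, -⟩ := hz0 z hz y h1 h2
  have hy2 : 2 ≤ y := by exact_mod_cast g1
  have hQ : ∀ l ∈ cp K y, l.Prime ∧ l ≤ y := by
    intro l hl
    unfold cp at hl
    rw [Finset.mem_filter, Finset.mem_Ioc] at hl
    exact ⟨hl.2, hl.1.2⟩
  have h3 := Lc_le z y (cp K y) hQ (by omega) (by omega)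
  have h4 : (cp K y).card ≤ Nat.primeCounting y := by
    have h5 : cp K y ⊆ Nat.primesLE y := by
      intro l hl
      rw [Nat.mem_primesLE]
      exact ⟨(hQ l hl).2, (hQ l hl).1⟩
    calc (cp K y).card ≤ (Nat.primesLE y).card := Finset.card_le_card h5
      _ = Nat.primeCounting y := Nat.primesLE_card_eq_primeCounting y
  have hL0 : 0 < (Lc z (cp K y) : ℝ) := by
    have := Lc_ne_zero z (cp K y) fun l hl => (hQ l hl).1
    positivity
  have h5 : Real.log (Lc z (cp K y)) ≤ (3 * (cp K y).card : ℕ) * Real.log z := by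
    rw [← Real.log_pow]
    exact Real.log_le_log hL0 (by exact_mod_cast h3)
  have hly : 0 ≤ Real.log y := Real.log_natCast_nonneg y
  calc Real.log (Lc z (cp K y)) ≤ (3 * (cp K y).card : ℕ) * Real.log z := h5
    _ ≤ (3 * (cp K y).card : ℕ) * (3 * Real.log y) :=
        mul_le_mul_of_nonneg_left g5 (Nat.cast_nonneg _)
    _ = 9 * ((cp K y).card * Real.log y) := by
        push_cast
        ring
    _ ≤ 9 * (Nat.primeCounting y * Real.log y) := by
        refine mul_le_mul_of_nonneg_left ?_ (by norm_num)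
        exact mul_le_mul_of_nonneg_right (by exact_mod_cast h4) hly
    _ ≤ 9 * (5 * y) := mul_le_mul_of_nonneg_left (g2_pi y hy2) (by norm_num)
    _ = 45 * y := by ring

/-- [G2b] Proof. Enumerate `A0` (`Finset.orderEmbOfFin` or `Finset.exists_subset_card_eq` repeatedly, induction on `r`). -/
theorem blocks_exist (A0 : Finset ℕ) (r m : ℕ) (h : r * m ≤ A0.card) : ∃ A : ℕ → Finset ℕ,
    (∀ j < r, A j ⊆ A0 ∧ (A j).card = m) ∧ ∀ i < r, ∀ j < r, i ≠ j → Disjoint (A i) (A j) := by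
  induction r generalizing A0 with
  | zero => exact ⟨fun _ => ∅, fun j hj => absurd hj (by omega), fun j hj => absurd hj (by omega)⟩
  | succ r ih =>
    rw [Nat.succ_mul] at h
    obtain ⟨B, hB, hBm⟩ := Finset.exists_subset_card_eq (show m ≤ A0.card by omega)
    have h1 : r * m ≤ (A0 \ B).card := by
      rw [Finset.card_sdiff_of_subset hB]
      omega
    obtain ⟨A, hA, hA'⟩ := ih (A0 \ B) h1
    have hd : ∀ j < r, Disjoint (A j) B := fun j hj =>
      Finset.disjoint_of_subset_left (hA j hj).1 Finset.sdiff_disjoint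
    refine ⟨fun j => if j = r then B else A j, fun j hj => ?_, fun i hi j hj hij => ?_⟩
    · rcases eq_or_ne j r with rfl | hjr
      · simp only [if_true]
        exact ⟨hB, hBm⟩
      · simp only [if_neg hjr]
        exact ⟨(hA j (by omega)).1.trans Finset.sdiff_subset, (hA j (by omega)).2⟩
    · rcases eq_or_ne i r with rfl | hir
      · simp only [if_true, if_neg hij.symm]
        exact (hd j (by omega)).symm
      · rcases eq_or_ne j r with rfl | hjr
        · simp only [if_true, if_neg hir]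
          exact hd i (by omega)
        · simp only [if_neg hir, if_neg hjr]
          exact hA' i (by omega) j (by omega) hij

/-- [G2c] Proof. `m = #A0/r` (integer division). `#A0/r ≥ c z/(log z (4 C y + 1)) ≥ c z/(5 C y log z) ≥ 1100 z^(1/2+3ε/4)` by `grow` (`1 ≤ y`); `#A0 < r (m+1) ≤ 2 r m`; `32 y ≤ 32 z^(1/2) ≤ 1024 z^(1/2+3ε/4)`. -/
theorem block_size (ε c C : ℝ) (hε : 0 < ε) (hε1 : ε ≤ 1 / 10) (hc : 0 < c) (hC : 1 ≤ C) : ∃ z0 : ℕ,
    ∀ z y r N : ℕ, z0 ≤ z → (y : ℝ) ≤ (z : ℝ) ^ (1 / 2 - ε) → (z : ℝ) ^ (1 / 2 - ε) < y + 1 →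
      1 ≤ r → (r : ℝ) ≤ 4 * C * y + 1 → c * z / Real.log z ≤ N →
      1024 * (z : ℝ) ^ (1 / 2 + 3 * ε / 4) ≤ ((N / r : ℕ) : ℝ) ∧ 32 * y ≤ N / r ∧
        N ≤ 2 * (r * (N / r)) := by
  obtain ⟨z0, hz0⟩ := grow ε hε hε1 (5500 * C / c + 3)
  have hC0 : 0 < C := by linarith
  have hq0 : 0 < 5500 * C / c := by positivity
  refine ⟨z0, fun z y r N hz h1 h2 hr hrC hN => ?_⟩
  obtain ⟨g1, g2, -, -, -, -, g7, -, g9⟩ := hz0 z hz y h1 h2
  have hy1 : (1 : ℝ) ≤ y := by linarith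
  have hy0 : (0 : ℝ) < y := by linarith
  have hzy : 2 * (y : ℝ) < z := by exact_mod_cast g7
  have hz1 : (1 : ℝ) < z := by linarith
  have hz00 : (0 : ℝ) < z := by linarith
  have hlz : 0 < Real.log z := Real.log_pos hz1
  have hr0 : (0 : ℝ) < r := by exact_mod_cast hr
  have hCy : 1 ≤ C * y := by
    calc (1 : ℝ) = 1 * 1 := by ring
      _ ≤ C * y := mul_le_mul hC hy1 (by norm_num) hC0.le
  set Z : ℝ := (z : ℝ) ^ (1 / 2 + 3 * ε / 4) with hZ
  have hZ1 : 1 ≤ Z := Real.one_le_rpow hz1.le (by linarith)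
  have hZy : (y : ℝ) ≤ Z := h1.trans (Real.rpow_le_rpow_of_exponent_le hz1.le (by linarith))
  have h3 : 1100 * Z ≤ (N : ℝ) / r := by
    rw [le_div_iff₀ hr0]
    have h4 : 5500 * C / c * Z * y * Real.log z ≤ z := by
      refine le_trans ?_ g9
      have h5 : 0 ≤ Z * y * Real.log z := by positivity
      have h6 : 5500 * C / c * (Z * y * Real.log z) ≤
          (5500 * C / c + 3) * (Z * y * Real.log z) :=
        mul_le_mul_of_nonneg_right (by linarith) h5
      linarith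
    have h5 : 5500 * C * Z * y ≤ c * z / Real.log z := by
      rw [le_div_iff₀ hlz]
      have h6 := mul_le_mul_of_nonneg_left h4 hc.le
      have h7 : c * (5500 * C / c * Z * y * Real.log z) = 5500 * C * Z * y * Real.log z := by
        field_simp
      linarith
    have h6 : 1100 * Z * r ≤ 1100 * Z * (5 * (C * y)) :=
      mul_le_mul_of_nonneg_left (by linarith) (by linarith)
    linarith
  have h4 : (N : ℝ) / r < ((N / r : ℕ) : ℝ) + 1 := by
    rw [div_lt_iff₀ hr0]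
    have h5 : N < (N / r + 1) * r := by
      rw [mul_comm]
      exact Nat.lt_mul_div_succ N (by omega)
    exact_mod_cast h5
  have h5 : 1024 * Z ≤ ((N / r : ℕ) : ℝ) := by linarith
  have h6 : 32 * y ≤ N / r := by
    have h7 : (32 : ℝ) * y ≤ ((N / r : ℕ) : ℝ) := by linarith
    exact_mod_cast h7
  refine ⟨h5, h6, ?_⟩
  have h7 : 1 ≤ N / r := by
    have h8 : (1 : ℝ) ≤ ((N / r : ℕ) : ℝ) := by linarith
    exact_mod_cast h8
  have h8 : N < r * (N / r + 1) := Nat.lt_mul_div_succ N (by omega)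
  have h9 : r * 1 ≤ r * (N / r) := Nat.mul_le_mul_left r h7
  rw [Nat.mul_add] at h8
  omega

end GCN
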