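import Pool.Agent.GCN.Reg
import Pool.Agent.GCN.G1

/-!
# [GCN-G3] numerical inequalities, part 1
-/

set_option autoImplicit false

open Finset

namespace GCN

/-- comparison by logarithms -/
theorem g3_le (u v : ℝ) (hu : 0 < u) (hv : 0 < v) (h : Real.log u ≤ Real.log v) : u ≤ v :=
  (Real.log_le_log_iff hu hv).1 h

theorem g3_lt (u v : ℝ) (hu : 0 < u) (hv : 0 < v) (h : Real.log u < Real.log v) : u < v :=
  (Real.log_lt_log_iff hu hv).1 h

/-- [G3] Proof. Everything by logarithms, with `grow` (G1) for a suitable constant: `log W = w y log 2`, `1/2 ≤ log 2 ≤ 1`. `z < W`: `log z < w y log 2`. `W^400 ≤ x`: `400 w y ≤ C1 y ≤ log x`. `a^400 ≤ x`: `400 log a ≤ y ≤ log x`.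
`(a L0 W^R)^4 ≤ x`: `4 (log a + CL y + R w y) ≤ 4 (1 + CL + R w) y ≤ C1 y`. `2 ≤ y^(ε/4)`: `log 2 ≤ (ε/4) log y`. `6 ≤ W^(ε/8)`: `log 6 ≤ (ε/8) w y log 2`. `W^R ≤ y^y`: `R w y log 2 ≤ y log y`.
`L0 W^R ≤ x^(ε/8)`: `CL y + R w y ≤ (ε/8) C1 y`. -/
theorem num1 (ε CL C1 Λ a : ℝ) (w R : ℕ) (hε : 0 < ε) (hε1 : ε ≤ 1 / 10) (hCL : 1 ≤ CL) (hw : 1 ≤ w)
    (ha : 1 ≤ a) (hC1 : 400 * w + 4 * (CL + R * w + 1) + 8 * (CL + R * w + 1) / ε ≤ C1) :
    ∃ z0 : ℕ, ∀ z y W x L0 : ℕ, z0 ≤ z → Reg ε CL C1 Λ w z y W x L0 →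
      a ≤ y ∧ a ≤ x ∧ 2 * y < z ∧ z < W ∧ W ^ 400 ≤ x ∧ a ^ 400 ≤ x ∧
      (a * L0 * (W : ℝ) ^ R) ^ 4 ≤ x ∧ (2 : ℝ) ≤ (y : ℝ) ^ (ε / 4) ∧ (6 : ℝ) ≤ (W : ℝ) ^ (ε / 8) ∧
      W ^ R ≤ y ^ y ∧ (L0 : ℝ) * (W : ℝ) ^ R ≤ (x : ℝ) ^ (ε / 8) ∧
      a * Real.log y ≤ Real.log W := by
  obtain ⟨z0, hz0⟩ := grow ε hε hε1 (400 * a + 32 / ε + R * w + 10)
  have hw1 : (1 : ℝ) ≤ w := by exact_mod_cast hw
  have hRw : (0 : ℝ) ≤ R * w := by positivity
  have hε32 : 320 ≤ 32 / ε := by
    rw [le_div_iff₀ hε]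
    linarith
  have hq : 8 * (CL + R * w + 1) / ε = (CL + R * w + 1) * (8 / ε) := by ring
  have hloga : Real.log a ≤ a := (Real.log_le_sub_one_of_pos (by linarith)).trans (by linarith)
  have hloga0 : 0 ≤ Real.log a := Real.log_nonneg ha
  have l2 := Real.log_two_gt_d9
  have l2' := Real.log_two_lt_d9
  refine ⟨z0, fun z y W x L0 hz hR => ?_⟩
  obtain ⟨g1, g2, g3, g4, g5, g6, g7, g8, g9⟩ := hz0 z hz y hR.hy hR.hy'
  have hε0 : 0 ≤ 32 / ε := by positivity
  have hyb : 400 * a + 32 / ε + R * w + 10 ≤ y := g1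
  have hy1 : (1 : ℝ) ≤ y := by linarith
  have hy0 : (0 : ℝ) < y := by linarith
  have hly0 : 0 ≤ Real.log y := Real.log_nonneg hy1
  have hzr : 2 * (y : ℝ) < z := by exact_mod_cast g7
  have hz1 : (1 : ℝ) ≤ z := by linarith
  have hlz0 : 0 ≤ Real.log z := Real.log_nonneg hz1
  have hWr : (W : ℝ) = 2 ^ (w * y) := by
    rw [hR.hW]
    push_cast
    rfl
  have hW0 : (0 : ℝ) < W := by
    rw [hWr]
    positivity
  have hlW : Real.log W = w * y * Real.log 2 := by
    rw [hWr, Real.log_pow]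
    push_cast
    ring
  have hC1' : 4 * (CL + R * w + 1) ≤ C1 ∧ 400 * w ≤ C1 ∧ 8 * (CL + R * w + 1) / ε ≤ C1 := by
    have h1 : 0 ≤ 8 * (CL + R * w + 1) / ε := by positivity
    refine ⟨by linarith, by linarith, by linarith⟩
  have hC11 : 1 ≤ C1 := by linarith [hC1'.1]
  have hlx : (y : ℝ) ≤ Real.log x := (le_mul_of_one_le_left hy0.le hC11).trans hR.hx
  have hx0 : (0 : ℝ) < x := by
    rcases Nat.eq_zero_or_pos x with h | h
    · rw [h] at hlx
      simp only [Nat.cast_zero, Real.log_zero] at hlx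
      linarith
    · exact_mod_cast h
  have hxy : (y : ℝ) ≤ x := hlx.trans ((Real.log_le_sub_one_of_pos hx0).trans (by linarith))
  have hL0 : (1 : ℝ) ≤ L0 := by exact_mod_cast hR.hL
  have hL0' : (0 : ℝ) < L0 := by linarith
  have hla : Real.log a ≤ y := by linarith
  have hwy : (y : ℝ) ≤ w * y := le_mul_of_one_le_left hy0.le hw1
  have hRwy : (0 : ℝ) ≤ R * w * y := by positivity
  have hwyl : (w : ℝ) * y * Real.log 2 ≤ w * y := by
    have : (0 : ℝ) ≤ w * y := by positivity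
    exact mul_le_of_le_one_right this (by linarith)
  have hwyl' : (y : ℝ) / 2 ≤ w * y * Real.log 2 := by
    have h1 : (y : ℝ) * (1 / 2) ≤ w * y * Real.log 2 :=
      mul_le_mul hwy (by linarith) (by norm_num) (by positivity)
    linarith
  have hRWl : (R : ℝ) * Real.log W ≤ R * w * y := by
    rw [hlW]
    have : (0 : ℝ) ≤ R := by positivity
    calc (R : ℝ) * (w * y * Real.log 2) ≤ R * (w * y) := mul_le_mul_of_nonneg_left hwyl this
      _ = R * w * y := by ring
  have hLW : Real.log (L0 * (W : ℝ) ^ R) = Real.log L0 + R * Real.log W := by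
    rw [Real.log_mul hL0'.ne' (by positivity), Real.log_pow]
  have hLW' : Real.log (L0 * (W : ℝ) ^ R) ≤ (CL + R * w) * y := by
    rw [hLW]
    have := hR.hL'
    linarith
  refine ⟨by linarith, by linarith, g7, ?_, ?_, ?_, ?_, ?_, ?_, ?_, ?_, ?_⟩
  · have h1 : Real.log z < Real.log W := by
      rw [hlW]
      have h2 : 2 * Real.log z < y := by
        have h3 : 3 * Real.log z ≤ (400 * a + 32 / ε + R * w + 10) * Real.log z :=
          mul_le_mul_of_nonneg_right (by linarith) hlz0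
        have h4 : 0 < Real.log z := Real.log_pos (by linarith)
        linarith
      linarith
    exact_mod_cast g3_lt _ _ (by linarith) hW0 h1
  · have h1 : (W : ℝ) ^ 400 ≤ x := by
      refine g3_le _ _ (by positivity) hx0 ?_
      rw [Real.log_pow, hlW]
      have h2 : (400 : ℝ) * w * y ≤ C1 * y := mul_le_mul_of_nonneg_right hC1'.2.1 hy0.le
      have h3 := hR.hx
      push_cast
      linarith
    exact_mod_cast h1
  · refine g3_le _ _ (by positivity) hx0 ?_
    rw [Real.log_pow]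
    push_cast
    linarith
  · refine g3_le _ _ (by positivity) hx0 ?_
    rw [Real.log_pow, mul_assoc, Real.log_mul (by linarith) (by positivity)]
    have h2 : 4 * (CL + R * w + 1) * y ≤ C1 * y := mul_le_mul_of_nonneg_right hC1'.1 hy0.le
    have h3 := hR.hx
    push_cast
    linarith
  · refine g3_le _ _ (by norm_num) (by positivity) ?_
    rw [Real.log_rpow hy0]
    have h1 : 32 / ε ≤ Real.log y := by linarith
    have h2 : 32 ≤ ε * Real.log y := by
      rw [div_le_iff₀ hε] at h1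
      linarith
    linarith
  · refine g3_le _ _ (by norm_num) (by positivity) ?_
    rw [Real.log_rpow hW0, hlW]
    have h1 : 32 / ε ≤ y := by linarith
    have h2 : 32 ≤ ε * y := by
      rw [div_le_iff₀ hε] at h1
      linarith
    have h3 : Real.log 6 ≤ 2 := by
      have h4 : Real.log 6 ≤ Real.log 2 + Real.log 3 := by
        rw [← Real.log_mul (by norm_num) (by norm_num)]
        norm_num
      have h5 : Real.log 3 ≤ Real.log 2 + 1 / 2 := by
        have h6 : Real.log (3 / 2) ≤ 3 / 2 - 1 := Real.log_le_sub_one_of_pos (by norm_num)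
        rw [Real.log_div (by norm_num) (by norm_num)] at h6
        linarith
      linarith
    have h4 : ε * ((y : ℝ) / 2) ≤ ε * (w * y * Real.log 2) :=
      mul_le_mul_of_nonneg_left hwyl' hε.le
    linarith
  · have h1 : (W : ℝ) ^ R ≤ (y : ℝ) ^ y := by
      refine g3_le _ _ (by positivity) (by positivity) ?_
      rw [Real.log_pow, Real.log_pow]
      have h2 : (R : ℝ) * w ≤ Real.log y := by linarith
      have h3 : (R : ℝ) * w * y ≤ Real.log y * y := mul_le_mul_of_nonneg_right h2 hy0.le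
      linarith
    exact_mod_cast h1
  · refine g3_le _ _ (by positivity) (by positivity) ?_
    rw [Real.log_rpow hx0]
    have h1 : 8 * (CL + R * w + 1) ≤ C1 * ε := by
      rw [← div_le_iff₀ hε]
      exact hC1'.2.2
    have h2 : 8 * (CL + R * w + 1) * y ≤ C1 * ε * y := mul_le_mul_of_nonneg_right h1 hy0.le
    have h3 : ε / 8 * (C1 * y) ≤ ε / 8 * Real.log x :=
      mul_le_mul_of_nonneg_left hR.hx (by positivity)
    linarith
  · rw [hlW]
    have h1 : 2 * a * Real.log y ≤ (400 * a + 32 / ε + R * w + 10) * Real.log y :=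
      mul_le_mul_of_nonneg_right (by linarith) hly0
    linarith

end GCN
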