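import Pool.Agent.GCN.Reg
import Pool.Agent.GCN.G1

/-!
# [GCN-G4] numerical inequalities, part 2
-/

set_option autoImplicit false

open Finset

namespace GCN

/-- comparison by logarithms -/
theorem g4_le (u v : ℝ) (hu : 0 < u) (hv : 0 < v) (h : Real.log u ≤ Real.log v) : u ≤ v :=
  (Real.log_le_log_iff hu hv).1 h

/-- [G4] Proof. With `grow` (G1). `0 < log x ≤ Λ y`, `log W = w y log 2 ≤ w y`. (1) `a (log x)² L0 z³ ≤ W^(ε/4)`: `log a + 2 log(Λ y) + CL y + 3 log z ≤ (CL + 1) y ≤ (ε/4) w y log 2` (`log 2 ≥ 1/2`, `8 (CL+1)/ε ≤ w`). (2) `18 (a log x log W)^6 ≤ W^(ε/4)`: the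
left side is at most `18 (a Λ w y²)^6`, its logarithm is `O(log y) ≤ y ≤ (ε/4) w y log 2`. (3) `a y log x log W ≤ a Λ w y³ ≤ z²`. (4) `a W^R log x log W ≤ x`: `W^R log x log W a ≤ e^(R w y + y) ≤ e^(C1 y) ≤ x`. -/
theorem num2 (ε CL C1 Λ a : ℝ) (w R : ℕ) (hε : 0 < ε) (hε1 : ε ≤ 1 / 10) (hCL : 1 ≤ CL)
    (hw : 8 * (CL + 1) / ε ≤ w) (ha : 1 ≤ a) (hC1 : R * w + 1 ≤ C1) (hΛ : 1 ≤ Λ) :
    ∃ z0 : ℕ, ∀ z y W x L0 : ℕ, z0 ≤ z → Reg ε CL C1 Λ w z y W x L0 →
      a * Real.log x ^ 2 * L0 * (z : ℝ) ^ 3 ≤ (W : ℝ) ^ (ε / 4) ∧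
      18 * (a * Real.log x * Real.log W) ^ 6 ≤ (W : ℝ) ^ (ε / 4) ∧
      a * y * Real.log x * Real.log W ≤ (z : ℝ) ^ 2 ∧
      a * (W : ℝ) ^ R * Real.log x * Real.log W ≤ x := by
  obtain ⟨z0, hz0⟩ := grow ε hε hε1 (a * Λ * w + 100 * (a + Λ + w + 1))
  have hwe : 8 * (CL + 1) ≤ w * ε := (div_le_iff₀ hε).1 hw
  have hw1 : (1 : ℝ) ≤ w := by
    by_contra h
    push Not at h
    have h1 : (w : ℝ) * ε ≤ 1 * ε := mul_le_mul_of_nonneg_right h.le hε.le
    linarith
  have hRw : (0 : ℝ) ≤ R * w := by positivity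
  have hloga : Real.log a ≤ a := (Real.log_le_sub_one_of_pos (by linarith)).trans (by linarith)
  have hlogΛ : Real.log Λ ≤ Λ := (Real.log_le_sub_one_of_pos (by linarith)).trans (by linarith)
  have hlogw : Real.log w ≤ w := (Real.log_le_sub_one_of_pos (by linarith)).trans (by linarith)
  have l2 := Real.log_two_gt_d9
  have l2' := Real.log_two_lt_d9
  have hA : 0 ≤ a * Λ * w := by positivity
  refine ⟨z0, fun z y W x L0 hz hR => ?_⟩
  obtain ⟨g1, g2, g3, g4, g5, g6, g7, g8, g9⟩ := hz0 z hz y hR.hy hR.hy'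
  have hy1 : (1 : ℝ) ≤ y := by linarith
  have hy0 : (0 : ℝ) < y := by linarith
  have hly0 : 0 ≤ Real.log y := Real.log_nonneg hy1
  have hzr : 2 * (y : ℝ) < z := by exact_mod_cast g7
  have hz1 : (1 : ℝ) ≤ z := by linarith
  have hlz0 : 0 ≤ Real.log z := Real.log_nonneg hz1
  have hWr : (W : ℝ) = 2 ^ (w * y) := by
    rw [hR.hW]
    push_cast
    rfl
  have hW0 : (0 : ℝ) < W := by
    rw [hWr]
    positivity
  have hlW : Real.log W = w * y * Real.log 2 := by
    rw [hWr, Real.log_pow]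
    push_cast
    ring
  have hC11 : 1 ≤ C1 := by linarith
  have hlx : (y : ℝ) ≤ Real.log x := (le_mul_of_one_le_left hy0.le hC11).trans hR.hx
  have hlx0 : 0 < Real.log x := by linarith
  have hx0 : (0 : ℝ) < x := by
    rcases Nat.eq_zero_or_pos x with h | h
    · rw [h] at hlx
      simp only [Nat.cast_zero, Real.log_zero] at hlx
      linarith
    · exact_mod_cast h
  have hL0 : (1 : ℝ) ≤ L0 := by exact_mod_cast hR.hL
  have hL0' : (0 : ℝ) < L0 := by linarith
  have hwy0 : (0 : ℝ) < w * y := by positivity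
  have hlW0 : 0 < Real.log W := by
    rw [hlW]
    exact mul_pos hwy0 (by linarith)
  have hlWle : Real.log W ≤ w * y := by
    rw [hlW]
    exact mul_le_of_le_one_right hwy0.le (by linarith)
  have hllx : Real.log (Real.log x) ≤ Real.log Λ + Real.log y := by
    rw [← Real.log_mul (by linarith) hy0.ne']
    exact Real.log_le_log hlx0 hR.hx'
  have hllW : Real.log (Real.log W) ≤ Real.log w + Real.log y := by
    rw [← Real.log_mul (by linarith) hy0.ne']
    exact Real.log_le_log hlW0 hlWle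
  have b1 : 100 * (a + Λ + w + 1) ≤ y := by linarith
  have b2 : 100 * Real.log y ≤ y := by
    have h1 : 100 * Real.log y ≤ (a * Λ * w + 100 * (a + Λ + w + 1)) * Real.log y :=
      mul_le_mul_of_nonneg_right (by linarith) hly0
    linarith
  have b3 : 100 * Real.log z ≤ y := by
    have h1 : 100 * Real.log z ≤ (a * Λ * w + 100 * (a + Λ + w + 1)) * Real.log z :=
      mul_le_mul_of_nonneg_right (by linarith) hlz0
    linarith
  have hbig : (CL + 1) * y ≤ ε / 4 * Real.log W := by
    rw [hlW]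
    have h1 : 8 * (CL + 1) * y ≤ w * ε * y := mul_le_mul_of_nonneg_right hwe hy0.le
    have h2 : w * ε * y * (1 / 2) ≤ w * ε * y * Real.log 2 :=
      mul_le_mul_of_nonneg_left (by linarith) (by positivity)
    linarith
  have hCLy : y ≤ (CL + 1) * y := le_mul_of_one_le_left hy0.le (by linarith)
  refine ⟨?_, ?_, ?_, ?_⟩
  · refine g4_le _ _ (by positivity) (by positivity) ?_
    rw [Real.log_rpow hW0, Real.log_mul (by positivity) (by positivity),
      Real.log_mul (by positivity) (by positivity), Real.log_mul (by positivity) (by positivity),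
      Real.log_pow, Real.log_pow]
    have h1 := hR.hL'
    push_cast
    linarith
  · refine g4_le _ _ (by positivity) (by positivity) ?_
    rw [Real.log_rpow hW0, Real.log_mul (by norm_num) (by positivity), Real.log_pow,
      Real.log_mul (by positivity) (by positivity), Real.log_mul (by positivity) (by positivity)]
    have h3 : Real.log 18 ≤ 17 := (Real.log_le_sub_one_of_pos (by norm_num)).trans (by norm_num)
    push_cast
    linarith
  · have h1 : a * y * Real.log x * Real.log W ≤ a * y * (Λ * y) * (w * y) := by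
      refine mul_le_mul (mul_le_mul_of_nonneg_left hR.hx' (by positivity)) hlWle hlW0.le
        (by positivity)
    have h2 : a * Λ * w * (y : ℝ) ^ 3 ≤ (a * Λ * w + 100 * (a + Λ + w + 1)) * (y : ℝ) ^ 3 :=
      mul_le_mul_of_nonneg_right (by linarith) (by positivity)
    have h3 : a * y * (Λ * y) * (w * y) = a * Λ * w * (y : ℝ) ^ 3 := by ring
    linarith
  · refine g4_le _ _ (by positivity) hx0 ?_
    rw [Real.log_mul (by positivity) (by positivity), Real.log_mul (by positivity) (by positivity),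
      Real.log_mul (by positivity) (by positivity), Real.log_pow]
    have h1 : (R : ℝ) * Real.log W ≤ R * (w * y) := mul_le_mul_of_nonneg_left hlWle (by positivity)
    have h2 : (R * w + 1) * (y : ℝ) ≤ C1 * y := mul_le_mul_of_nonneg_right hC1 hy0.le
    have h3 := hR.hx
    linarith

end GCN
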