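import Pool.Agent.GCN.Reg
import Pool.Agent.GCN.G1

/-!
# [GCN-G5] numerical inequalities, part 3
-/

set_option autoImplicit false

open Finset

namespace GCN

/-- the logarithm of `X0` -/
theorem g5_log (ε CL C1 Λ C : ℝ) (w R : ℕ) (hC1 : 1 ≤ C1)
    (hC : CL + R * w + 6 * Λ + 1 ≤ C) (z y W x L0 X0 : ℕ) (hR : Reg ε CL C1 Λ w z y W x L0)
    (hy1 : (1 : ℝ) ≤ y) (hX0 : X0 = L0 * W ^ R * x ^ 6) :
    1 ≤ x ∧ 1 ≤ X0 ∧ Real.log X0 ≤ (C - 1) * y := by
  have hx1 : 1 ≤ x := by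
    rcases Nat.eq_zero_or_pos x with h | h
    · exfalso
      have h1 := hR.hx
      rw [h, Nat.cast_zero, Real.log_zero] at h1
      have h2 : 0 < C1 * y := by positivity
      linarith
    · exact h
  have hW1 : 1 ≤ W := by
    rw [hR.hW]
    exact Nat.one_le_two_pow
  have hX1 : 1 ≤ X0 := by
    rw [hX0]
    exact Nat.one_le_iff_ne_zero.2 (mul_ne_zero (mul_ne_zero (by have := hR.hL; omega)
      (pow_ne_zero _ (by omega))) (pow_ne_zero _ (by omega)))
  refine ⟨hx1, hX1, ?_⟩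
  have hL0 : (L0 : ℝ) ≠ 0 := by
    have := hR.hL
    exact_mod_cast (by omega : L0 ≠ 0)
  have hWr : (W : ℝ) ≠ 0 := by exact_mod_cast (by omega : W ≠ 0)
  have hxr : (x : ℝ) ≠ 0 := by exact_mod_cast (by omega : x ≠ 0)
  have h1 : Real.log X0 = Real.log L0 + R * Real.log W + 6 * Real.log x := by
    rw [hX0]
    push_cast
    rw [Real.log_mul (mul_ne_zero hL0 (pow_ne_zero _ hWr)) (pow_ne_zero _ hxr),
      Real.log_mul hL0 (pow_ne_zero _ hWr), Real.log_pow, Real.log_pow]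
    norm_num
  have h2 : Real.log W ≤ w * y := by
    rw [hR.hW]
    push_cast
    rw [Real.log_pow]
    push_cast
    have h3 : Real.log 2 ≤ 1 := by
      have := Real.log_two_lt_d9
      linarith
    have h4 : (0 : ℝ) ≤ w * y := by positivity
    nlinarith
  have h3 : (R : ℝ) * Real.log W ≤ R * (w * y) :=
    mul_le_mul_of_nonneg_left h2 (Nat.cast_nonneg R)
  rw [h1]
  have h4 : (CL + R * w + 6 * Λ) * y ≤ (C - 1) * y :=
    mul_le_mul_of_nonneg_right (by linarith) (by linarith)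
  have h5 := hR.hL'
  have h6 := hR.hx'
  nlinarith

theorem g5_log152 : 2 ≤ Real.log (15 / 2) := by
  rw [Real.le_log_iff_exp_le (by norm_num)]
  have h1 : Real.exp 2 = Real.exp 1 * Real.exp 1 := by
    rw [← Real.exp_add]; norm_num
  rw [h1]
  have h2 := Real.exp_one_lt_d9
  have h3 := Real.exp_pos 1
  nlinarith

/-- [G5] Proof. With `grow` (G1). `log X0 ≤ (CL + R w + 6 Λ) y ≤ (C - 1) y`, so `log (36 X0) ≤ C y` (`y ≥ log 36`). (1) `(r/8) log(15/2) ≥ (4 C y/8)·2 = C y` (`log (15/2) ≥ 2`). (2) `log` of the left side `≤ log 2 + 6 Λ y + 2 C y ≤ 9 C y`; of the right side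
`(3ε/2)(7r/8) log z ≥ (21/4) ε C y log z`, large `z`. (3) `r ≤ 4 C y + 1 ≤ z`. (4) `X0 ≤ e^(C y) ≤ 2^z` as `2 C y ≤ z`. (5) `8 (2 log(2 X0)/log z + 1) ≤ 16 C y/log z + 8 ≤ r` for large `z`. (6) `1 ≤ X0`: `x ≥ 1` as `log x ≥ C1 y > 0`. -/
theorem num3 (ε CL C1 Λ C : ℝ) (w R : ℕ) (hε : 0 < ε) (hε1 : ε ≤ 1 / 10) (hCL : 1 ≤ CL)
    (hC1 : 1 ≤ C1) (hΛ : 1 ≤ Λ) (hC : CL + R * w + 6 * Λ + 1 ≤ C) :
    ∃ z0 : ℕ, ∀ z y W x L0 r X0 : ℕ, z0 ≤ z → Reg ε CL C1 Λ w z y W x L0 →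
      4 * C * y ≤ r → (r : ℝ) ≤ 4 * C * y + 1 → X0 = L0 * W ^ R * x ^ 6 →
      36 * (X0 : ℝ) ≤ (15 / 2 : ℝ) ^ ((r : ℝ) / 8) ∧
      2 * (x : ℝ) ^ 6 * (36 * X0) ^ 2 ≤ (z : ℝ) ^ (3 * ε / 2 * (7 * r / 8)) ∧
      r ≤ z ∧ X0 ≤ 2 ^ z ∧ 8 * (2 * Real.log (2 * X0) / Real.log z + 1) ≤ r ∧ 1 ≤ X0 ∧ 1 ≤ r := by
  have hRw : (0 : ℝ) ≤ R * w := by positivity
  have hC8 : 8 ≤ C := by linarith
  have hεi : 0 < 1 / ε := by positivity
  obtain ⟨z0, hz0⟩ := grow ε hε hε1 (36 + 1 / ε + 4 * C)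
  refine ⟨z0 + 1, fun z y W x L0 r X0 hz hR hr hr' hX0 => ?_⟩
  obtain ⟨g1, g2, g3, g4, g5, g6, g7, g8, g9⟩ := hz0 z (by omega) y hR.hy hR.hy'
  have hy1 : (1 : ℝ) ≤ y := by linarith
  have hy36 : (36 : ℝ) ≤ y := by linarith
  have hCy : 36 * 8 ≤ C * y := by nlinarith
  obtain ⟨hx1, hX1, hlX⟩ := g5_log ε CL C1 Λ C w R hC1 hC z y W x L0 X0 hR hy1 hX0
  have hXr : (1 : ℝ) ≤ X0 := by exact_mod_cast hX1
  have hXp : (0 : ℝ) < X0 := by linarith
  have hxr : (1 : ℝ) ≤ x := by exact_mod_cast hx1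
  have hzy : (y : ℝ) < z := by
    have : y < z := by omega
    exact_mod_cast this
  have hzr : (36 : ℝ) < z := by linarith
  have hlz : 36 + 1 / ε + 4 * C ≤ Real.log z := by
    refine g2.trans ?_
    exact Real.log_le_log (by linarith) hzy.le
  have hl36 : Real.log 36 ≤ y := by
    have := Real.log_le_sub_one_of_pos (show (0 : ℝ) < 36 by norm_num)
    linarith
  have hlog36 : Real.log (36 * X0) ≤ C * y := by
    rw [Real.log_mul (by norm_num) (by linarith)]
    linarith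
  have hrp : (0 : ℝ) ≤ r := Nat.cast_nonneg r
  have hr1 : (1 : ℝ) ≤ r := by linarith
  refine ⟨?_, ?_, ?_, ?_, ?_, hX1, ?_⟩
  · rw [← Real.log_le_log_iff (by positivity) (by positivity), Real.log_rpow (by norm_num)]
    have h1 := g5_log152
    have h2 : (r : ℝ) / 8 * 2 ≤ r / 8 * Real.log (15 / 2) :=
      mul_le_mul_of_nonneg_left h1 (by positivity)
    linarith
  · have hz0' : (0 : ℝ) < z := by linarith
    rw [← Real.log_le_log_iff (by positivity) (Real.rpow_pos_of_pos hz0' _), Real.log_rpow hz0',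
      Real.log_mul (by positivity) (by positivity), Real.log_mul (by norm_num) (by positivity),
      Real.log_pow, Real.log_pow]
    push_cast
    have h1 : Real.log 2 ≤ y := by
      have := Real.log_two_lt_d9
      linarith
    have h2 : 6 * Real.log x ≤ 6 * (Λ * y) := by
      have := hR.hx'
      linarith
    have h3 : (6 * Λ + 1) * y ≤ C * y := mul_le_mul_of_nonneg_right (by linarith) (by linarith)
    have h4 : Real.log 2 + 6 * Real.log x + 2 * Real.log (36 * X0) ≤ 3 * (C * y) := by nlinarith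
    refine h4.trans ?_
    have h5 : 1 ≤ ε * Real.log z := by
      have h6 : 1 / ε ≤ Real.log z := by linarith
      rw [div_le_iff₀ hε] at h6
      linarith
    have h7 : 3 * ε / 2 * (7 * r / 8) * Real.log z = (21 / 16 * r) * (ε * Real.log z) := by ring
    rw [h7]
    have h8 : (21 / 16 * (r : ℝ)) * 1 ≤ (21 / 16 * r) * (ε * Real.log z) :=
      mul_le_mul_of_nonneg_left h5 (by positivity)
    linarith
  · have h1 : (r : ℝ) ≤ z := by
      refine hr'.trans (le_trans ?_ g8)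
      nlinarith
    exact_mod_cast h1
  · have h1 : (X0 : ℝ) ≤ ((2 ^ z : ℕ) : ℝ) := by
      push_cast
      rw [← Real.log_le_log_iff hXp (by positivity), Real.log_pow]
      have h2 := Real.log_two_gt_d9
      have h3 : (z : ℝ) * (1 / 2) ≤ z * Real.log 2 :=
        mul_le_mul_of_nonneg_left (by linarith) (by linarith)
      have h4 : Real.log X0 ≤ C * y := by linarith
      have h5 : 4 * C * y ≤ (36 + 1 / ε + 4 * C) * y :=
        mul_le_mul_of_nonneg_right (by linarith) (by linarith)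
      linarith
    exact_mod_cast h1
  · have h1 : Real.log (2 * X0) ≤ C * y := by
      refine le_trans (Real.log_le_log (by positivity) ?_) hlog36
      linarith
    have h2 : 2 * Real.log (2 * X0) / Real.log z ≤ 2 * (C * y) / 8 := by
      apply div_le_div₀
      · positivity
      · linarith
      · norm_num
      · linarith
    linarith
  · exact_mod_cast hr1

end GCN
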