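import Pool.Agent.GCN.Reg
import Pool.Agent.GCN.A9
import Pool.Agent.GCN.B3
import Pool.Agent.GCN.C4
import Pool.Agent.GCN.C5
import Pool.Agent.GCN.G2

/-!
# [GCN-G6] the constants
-/

set_option autoImplicit false

open Finset

open scoped Classical

namespace GCN

/-- [G6] Proof. `ε`, `cA` from `prop_A` (A9); `C2`, `y0` from `sb` (C4); `C3`, `ch`, `x0` from `heavy` (C5); `CB`, `x0` from `bt_Pm` (A8a); `z0` from `bad_sum` (B3); `CL` from `Lc_log` (G2), its `z0` for `ε`. `N0 = ⌈(16 C2/ch)² (C2/ch)⌉`, `P = 2 N0 + 2`,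
`K` = the maximum of `2`, `|k|`, `⌈32 (C2/ch)² P N0⌉`, `⌈512 P N0 CB/cA⌉`. Then `z0` of `prop_A` for `f = 4 K!`; the maximum of all thresholds. -/
theorem exists_cst (k : ℤ) (hk : k ≠ 0) : Nonempty (Cst k) := by
  obtain ⟨ε, cA, hε, hε1, hcA, hA⟩ := prop_A
  obtain ⟨C2, hC2, y0, hsb⟩ := sb
  obtain ⟨C3, ch, hC3, hch, hch1, x0, hheavy⟩ := heavy
  obtain ⟨CB, hCB, xB, hbt⟩ := bt_Pm
  obtain ⟨zB, hbad⟩ := bad_sum
  obtain ⟨CL, hCL, hLc⟩ := Lc_log
  obtain ⟨zL, hzL⟩ := hLc ε hε hε1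
  obtain ⟨N0, hN0⟩ := exists_nat_ge ((16 * C2 / ch) ^ 2 * (C2 / ch))
  obtain ⟨P, hP⟩ : ∃ P : ℕ, 2 * N0 + 2 ≤ P := ⟨_, le_refl _⟩
  obtain ⟨K1, hK1⟩ := exists_nat_ge (32 * (C2 / ch) * (P * N0) * (C2 / ch))
  obtain ⟨K2, hK2⟩ := exists_nat_ge (512 * (P * N0) * CB / cA)
  obtain ⟨K, hKa, hKb, hKc, hKd⟩ : ∃ K : ℕ, 2 ≤ K ∧ k.natAbs ≤ K ∧ K1 ≤ K ∧ K2 ≤ K :=
    ⟨2 + k.natAbs + K1 + K2, by omega, by omega, by omega, by omega⟩
  have hf : 1 ≤ 4 * K.factorial := by
    have := Nat.factorial_pos K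
    omega
  obtain ⟨zA, hzA⟩ := hA (4 * K.factorial) hf
  obtain ⟨z0, h1, h2, h3, h4, h5, h6⟩ : ∃ z0 : ℕ, y0 ≤ z0 ∧ x0 ≤ z0 ∧ xB ≤ z0 ∧ zB ≤ z0 ∧
      zL ≤ z0 ∧ zA ≤ z0 :=
    ⟨y0 + x0 + xB + zB + zL + zA, by omega, by omega, by omega, by omega, by omega, by omega⟩
  exact ⟨{ ε := ε, C2 := C2, ch := ch, CB := CB, cA := cA, CL := CL, C3 := C3, P := P, N0 := N0,
           K := K, z0 := z0
           hk := hk
           hε := hε
           hε1 := hε1
           hC2 := hC2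
           hch := hch
           hch1 := hch1
           hC3 := hC3
           hCB := hCB
           hcA := hcA
           hCL := hCL
           hN0 := hN0
           hP := hP
           hK2 := hKa
           hkK := hKb
           hK3 := hK1.trans (by exact_mod_cast hKc)
           hK4 := by
             rw [div_le_iff₀ hcA] at hK2
             refine hK2.trans ?_
             rw [mul_comm]
             exact mul_le_mul_of_nonneg_left (by exact_mod_cast hKd) hcA.le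
           sb := fun z y W x M M' b hKy hz hyW hWx hM hM' hco hp hc hx =>
             hsb K z y W x M M' b hKa hKy (h1.trans hz) hyW hWx hM hM' hco hp hc hx
           heavy := fun x y W hx hy hyW hWx hfx hS =>
             hheavy (4 * K.factorial) x y W hf (h2.trans hx) hy hyW hWx hfx hS
           bt := fun x d hx hd hco hdx =>
             hbt x (4 * K.factorial) d (h3.trans hx) hf hd hco hdx
           propA := fun z hz hS => hzA z (h6.trans hz) hS
           badsum := fun A r m z X0 hz hrz hX hX2 hm hr hA' hdis 𝒲 hW =>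
             hbad ε A r m z X0 hε hε1 (h4.trans hz) hrz hX hX2 hm hr hA' hdis 𝒲 hW
           Lclog := fun z y hz hy hy' => hzL K z y (h5.trans hz) hy hy' }⟩

end GCN
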