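import Pool.Agent.GCN.H4

/-!
# [GCN-H5] scales with many primes `≡ -1 mod f`, within a bounded factor
-/

set_option autoImplicit false

open Finset

namespace GCN

theorem h5_tel (S : ℕ → ℝ) (hS : ∀ n, 0 ≤ S n) (a b : ℕ) (hab : a ≤ b) :
    ∑ n ∈ Ioc (2 ^ a) (2 ^ b), S n / (n : ℝ) ≤
      ∑ j ∈ Ico a b, (∑ n ∈ Ioc (2 ^ j) (2 ^ (j + 1)), S n) / (2 : ℝ) ^ j := by
  induction b, hab using Nat.le_induction with
  | base => simp
  | succ b hab ih =>
    rw [← sum_Ioc_consecutive _ (Nat.pow_le_pow_right two_pos hab)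
      (Nat.pow_le_pow_right two_pos (Nat.le_succ b)), sum_Ico_succ_top hab]
    refine add_le_add ih ?_
    rw [sum_div]
    refine sum_le_sum fun n hn => ?_
    have h1 := (mem_Ioc.1 hn).1
    refine div_le_div_of_nonneg_left (hS n) (by positivity) ?_
    exact_mod_cast h1.le

theorem h5_pm (f j : ℕ) :
    ∑ n ∈ Ioc (2 ^ j) (2 ^ (j + 1)), (if f ∣ n + 1 then ArithmeticFunction.vonMangoldt n else 0) ≤
      ((Pm f (2 ^ j) (2 ^ (j + 1))).card : ℝ) * Real.log ((2 : ℝ) ^ (j + 1)) +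
      2 * Real.sqrt ((2 : ℝ) ^ (j + 1)) * Real.log ((2 : ℝ) ^ (j + 1)) := by
  classical
  have hx1 : (1 : ℝ) ≤ (2 : ℝ) ^ (j + 1) := one_le_pow₀ (by norm_num)
  have h1 : ∀ n : ℕ, (if f ∣ n + 1 then ArithmeticFunction.vonMangoldt n else 0) ≤
      (if n.Prime ∧ f ∣ n + 1 then Real.log n else 0) +
      (ArithmeticFunction.vonMangoldt n - if n.Prime then Real.log n else 0) := by
    intro n
    have hv : 0 ≤ ArithmeticFunction.vonMangoldt n := ArithmeticFunction.vonMangoldt_nonneg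
    by_cases hp : n.Prime
    · have hvp : ArithmeticFunction.vonMangoldt n = Real.log n :=
        ArithmeticFunction.vonMangoldt_apply_prime hp
      by_cases hf : f ∣ n + 1
      · simp [hp, hf, hvp]
      · simp [hp, hf, hvp]
    · by_cases hf : f ∣ n + 1
      · simp [hp, hf]
      · simp [hp, hf, hv]
  have hnn : ∀ n : ℕ, 0 ≤ ArithmeticFunction.vonMangoldt n - if n.Prime then Real.log n else 0 := by
    intro n
    by_cases hp : n.Prime
    · rw [if_pos hp, ArithmeticFunction.vonMangoldt_apply_prime hp, sub_self]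
    · rw [if_neg hp, sub_zero]
      exact ArithmeticFunction.vonMangoldt_nonneg
  refine (sum_le_sum fun n _ => h1 n).trans ?_
  rw [sum_add_distrib]
  refine add_le_add ?_ ?_
  · rw [← sum_filter]
    calc ∑ n ∈ (Ioc (2 ^ j) (2 ^ (j + 1))).filter (fun n => n.Prime ∧ f ∣ n + 1), Real.log n ≤
        ∑ n ∈ (Ioc (2 ^ j) (2 ^ (j + 1))).filter (fun n => n.Prime ∧ f ∣ n + 1),
          Real.log ((2 : ℝ) ^ (j + 1)) := by
          refine sum_le_sum fun n hn => ?_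
          obtain ⟨hn1, hn2, -⟩ := mem_filter.1 hn
          refine Real.log_le_log (by exact_mod_cast hn2.pos) ?_
          exact_mod_cast (mem_Ioc.1 hn1).2
      _ = _ := by
        rw [sum_const, nsmul_eq_mul]
        rfl
  · have h2 := Chebyshev.psi_sub_theta_le hx1
    have hfl : ⌊(2 : ℝ) ^ (j + 1)⌋₊ = 2 ^ (j + 1) := by
      have : ((2 : ℝ) ^ (j + 1)) = ((2 ^ (j + 1) : ℕ) : ℝ) := by push_cast; rfl
      rw [this, Nat.floor_natCast]
    have h3 : Chebyshev.psi ((2 : ℝ) ^ (j + 1)) - Chebyshev.theta ((2 : ℝ) ^ (j + 1)) =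
        ∑ n ∈ Ioc 0 (2 ^ (j + 1)), (ArithmeticFunction.vonMangoldt n -
          if n.Prime then Real.log n else 0) := by
      rw [Chebyshev.psi, Chebyshev.theta, hfl, sum_sub_distrib, sum_filter]
    rw [h3] at h2
    refine le_trans ?_ h2
    refine sum_le_sum_of_subset_of_nonneg ?_ (fun n _ _ => hnn n)
    intro n hn
    rw [mem_Ioc] at hn ⊢
    exact ⟨by omega, hn.2⟩

theorem h5_log (φ x : ℝ) (hφ : 1 ≤ φ) (hx : (77 * φ) ^ 4 ≤ x) :
    2 * Real.sqrt x * Real.log x ≤ x * (5 / 48) / φ := by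
  have hx0 : 0 < x := lt_of_lt_of_le (by positivity) hx
  set y := Real.sqrt (Real.sqrt x) with hy
  have hsx : 0 ≤ Real.sqrt x := Real.sqrt_nonneg x
  have hy2 : y ^ 2 = Real.sqrt x := Real.sq_sqrt hsx
  have hx2 : Real.sqrt x ^ 2 = x := Real.sq_sqrt hx0.le
  have hy4 : y ^ 4 = x := by
    calc y ^ 4 = (y ^ 2) ^ 2 := by ring
      _ = x := by rw [hy2, hx2]
  have hy0 : 0 < y := Real.sqrt_pos.2 (Real.sqrt_pos.2 hx0)
  have hylow : 77 * φ ≤ y := by
    have : (77 * φ) ^ 4 ≤ y ^ 4 := by rw [hy4]; exact hx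
    exact le_of_pow_le_pow_left₀ (by norm_num) hy0.le this
  have hlog : Real.log x ≤ 4 * y := by
    rw [← hy4, Real.log_pow]
    have := Real.log_le_sub_one_of_pos hy0
    push_cast
    linarith
  rw [le_div_iff₀ (by linarith)]
  have h1 : 2 * Real.sqrt x * Real.log x ≤ 2 * y ^ 2 * (4 * y) := by
    rw [hy2]
    exact mul_le_mul_of_nonneg_left hlog (by positivity)
  have h2 : 2 * Real.sqrt x * Real.log x * φ ≤ 2 * y ^ 2 * (4 * y) * φ :=
    mul_le_mul_of_nonneg_right h1 (by linarith)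
  have h3 : 2 * y ^ 2 * (4 * y) * φ ≤ y ^ 4 * (5 / 48) := by
    have h4 : 8 * φ ≤ y * (5 / 48) := by linarith
    calc 2 * y ^ 2 * (4 * y) * φ = y ^ 3 * (8 * φ) := by ring
      _ ≤ y ^ 3 * (y * (5 / 48)) := mul_le_mul_of_nonneg_left h4 (by positivity)
      _ = y ^ 4 * (5 / 48) := by ring
  rw [← hy4] at *
  linarith

/-- [H5] Proof. Like F1b. `C` from `mertens_ap`, `A` a natural number with `A/(12 φ(f)) > 2 C + 1`. Let `J ≥ J0` and suppose that every `j ∈ [J - A, J]` has `ψ_f(2^j, 2^(j+1)] := ∑_{2^j < n ≤ 2^(j+1), f ∣ n+1} Λ(n) < 2^j/(3 φ(f))`. Then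
`∑_{2^(J-A) < n ≤ 2^J, f ∣ n+1} Λ(n)/n ≤ ∑_{J-A ≤ j < J} ψ_f(2^j, 2^(j+1)]/2^j ≤ A/(3 φ(f))`, but by `mertens_ap` it is at least `A log 2/φ(f) - 2C ≥ (2/3) A/φ(f) - 2 C`: a contradiction. So some `j ∈ [J-A, J]` has `ψ_f ≥ 2^j/(3 φ(f))`; the proper
prime powers contribute at most `2 √(2^(j+1)) log 2^(j+1)` (`Chebyshev.psi_sub_theta_le`), so `∑_{p ∈ Pm f (2^j) (2^(j+1))} log p ≥ 2^j/(4 φ(f))` for large `J`, and `log p ≤ log 2^(j+1)`: `#Pm ≥ 2^(j+1)/(8 φ(f) log 2^(j+1))`. -/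
theorem scales_bdd (f : ℕ) (hf : 1 ≤ f) : ∃ A J0 : ℕ, ∀ J : ℕ, J0 ≤ J → ∃ j : ℕ, J ≤ j + A ∧ j ≤ J ∧
    ((2 : ℝ) ^ (j + 1)) / (16 * Nat.totient f * Real.log ((2 : ℝ) ^ (j + 1))) ≤
      ((Pm f (2 ^ j) (2 ^ (j + 1))).card : ℝ) := by
  classical
  obtain ⟨C, hC⟩ := mertens_ap f hf
  have hC0 : 0 ≤ C := (abs_nonneg _).trans (hC 1 le_rfl)
  set φ : ℝ := (Nat.totient f : ℝ) with hφdef
  have hφ1 : (1 : ℝ) ≤ φ := by
    rw [hφdef]
    exact_mod_cast Nat.totient_pos.2 hf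
  obtain ⟨A, hA⟩ := exists_nat_gt (6 * C * φ)
  obtain ⟨B, hB⟩ := exists_nat_gt ((77 * φ) ^ 4)
  refine ⟨A, A + B, fun J hJ => ?_⟩
  let S : ℕ → ℝ := fun n => if f ∣ n + 1 then ArithmeticFunction.vonMangoldt n else 0
  have hS : ∀ n, 0 ≤ S n := by
    intro n
    show 0 ≤ if f ∣ n + 1 then ArithmeticFunction.vonMangoldt n else 0
    split_ifs
    · exact ArithmeticFunction.vonMangoldt_nonneg
    · exact le_rfl
  have hlog2 : (0.69 : ℝ) < Real.log 2 := by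
    have := Real.log_two_gt_d9
    linarith
  have key : ∃ j ∈ Ico (J - A) J, (2 : ℝ) ^ j / (3 * φ) ≤
      ∑ n ∈ Ioc (2 ^ j) (2 ^ (j + 1)), S n := by
    by_contra hcon
    push Not at hcon
    have h1 := h5_tel S hS (J - A) J (Nat.sub_le _ _)
    have h2 : ∑ j ∈ Ico (J - A) J, (∑ n ∈ Ioc (2 ^ j) (2 ^ (j + 1)), S n) / (2 : ℝ) ^ j ≤
        ∑ j ∈ Ico (J - A) J, 1 / (3 * φ) := by
      refine sum_le_sum fun j hj => ?_
      rw [div_le_iff₀ (by positivity)]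
      calc ∑ n ∈ Ioc (2 ^ j) (2 ^ (j + 1)), S n ≤ (2 : ℝ) ^ j / (3 * φ) := (hcon j hj).le
        _ = 1 / (3 * φ) * 2 ^ j := by ring
    rw [sum_const, Nat.card_Ico, nsmul_eq_mul, Nat.sub_sub_self (by omega)] at h2
    have hI : ∀ N : ℕ, (∑ n ∈ Icc 1 N, if f ∣ n + 1 then
        ArithmeticFunction.vonMangoldt n / (n : ℝ) else 0) = ∑ n ∈ Ioc 0 N, S n / (n : ℝ) := by
      intro N
      have hIcc : Icc 1 N = Ioc 0 N := by
        ext n
        simp only [mem_Icc, mem_Ioc]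
        omega
      rw [hIcc]
      refine sum_congr rfl fun n _ => ?_
      show _ = (if f ∣ n + 1 then ArithmeticFunction.vonMangoldt n else 0) / (n : ℝ)
      split_ifs
      · rfl
      · rw [zero_div]
    have h3 := hC (2 ^ J) Nat.one_le_two_pow
    have h4 := hC (2 ^ (J - A)) Nat.one_le_two_pow
    rw [hI] at h3 h4
    rw [← sum_Ioc_consecutive _ (Nat.zero_le (2 ^ (J - A)))
      (Nat.pow_le_pow_right two_pos (Nat.sub_le J A))] at h3
    have h5 := (abs_le.1 h3).1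
    have h6 := (abs_le.1 h4).2
    have h7 : Real.log ((2 ^ J : ℕ) : ℝ) = J * Real.log 2 := by
      push_cast
      rw [Real.log_pow]
    have h8 : Real.log ((2 ^ (J - A) : ℕ) : ℝ) = (J - A) * Real.log 2 := by
      push_cast
      rw [Real.log_pow, Nat.cast_sub (by omega)]
    rw [h7] at h5
    rw [h8] at h6
    have h9 : (J : ℝ) * Real.log 2 / φ - ((J : ℝ) - A) * Real.log 2 / φ = A * Real.log 2 / φ := by
      ring
    have h10 : (A : ℝ) * Real.log 2 / φ - 2 * C ≤ A * (1 / (3 * φ)) := by linarith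
    have h11 : (A : ℝ) * Real.log 2 - 2 * C * φ ≤ A / 3 := by
      have h12 := mul_le_mul_of_nonneg_right h10 (show (0 : ℝ) ≤ φ by linarith)
      have h13 : ((A : ℝ) * Real.log 2 / φ - 2 * C) * φ = A * Real.log 2 - 2 * C * φ := by
        field_simp
      have h14 : (A : ℝ) * (1 / (3 * φ)) * φ = A / 3 := by
        field_simp
      rw [h13, h14] at h12
      exact h12
    have hA0 : (0 : ℝ) < A := lt_of_le_of_lt (by positivity) hA
    have h15 : (A : ℝ) * 0.69 ≤ A * Real.log 2 := mul_le_mul_of_nonneg_left hlog2.le hA0.le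
    linarith
  obtain ⟨j, hj, hjS⟩ := key
  obtain ⟨hj1, hj2⟩ := mem_Ico.1 hj
  refine ⟨j, by omega, by omega, ?_⟩
  have h1 := hjS.trans (h5_pm f j)
  have hxB : (77 * φ) ^ 4 ≤ (2 : ℝ) ^ (j + 1) := by
    have h2 : B ≤ j + 1 := by omega
    have h3 : B < 2 ^ B := Nat.lt_two_pow_self
    have h4 : (B : ℝ) ≤ (2 : ℝ) ^ B := by exact_mod_cast h3.le
    have h5 : (2 : ℝ) ^ B ≤ (2 : ℝ) ^ (j + 1) := pow_le_pow_right₀ (by norm_num) h2
    linarith
  have h2 := h5_log φ _ hφ1 hxB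
  have hlogpos : 0 < Real.log ((2 : ℝ) ^ (j + 1)) := by
    apply Real.log_pos
    exact one_lt_pow₀ (by norm_num) (by omega)
  have h3 : (2 : ℝ) ^ (j + 1) / (16 * φ) ≤
      ((Pm f (2 ^ j) (2 ^ (j + 1))).card : ℝ) * Real.log ((2 : ℝ) ^ (j + 1)) := by
    have h4 : (2 : ℝ) ^ j / (3 * φ) = (2 : ℝ) ^ (j + 1) / (6 * φ) := by
      rw [pow_succ]
      field_simp
      ring
    have h5 : (2 : ℝ) ^ (j + 1) / (6 * φ) = (2 : ℝ) ^ (j + 1) / (16 * φ) +
        (2 : ℝ) ^ (j + 1) * (5 / 48) / φ := by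
      field_simp
      ring
    rw [h4, h5] at h1
    linarith
  calc ((2 : ℝ) ^ (j + 1)) / (16 * φ * Real.log ((2 : ℝ) ^ (j + 1))) =
      ((2 : ℝ) ^ (j + 1) / (16 * φ)) / Real.log ((2 : ℝ) ^ (j + 1)) := by rw [div_div]
    _ ≤ (((Pm f (2 ^ j) (2 ^ (j + 1))).card : ℝ) * Real.log ((2 : ℝ) ^ (j + 1))) /
        Real.log ((2 : ℝ) ^ (j + 1)) := div_le_div_of_nonneg_right h3 hlogpos.le
    _ = ((Pm f (2 ^ j) (2 ^ (j + 1))).card : ℝ) := by
      field_simp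

end GCN
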