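import Pool.Agent.GCN.G7
import Pool.Agent.GCN.H5

/-!
# [GCN-G7s] the scales, all sizes
-/

set_option autoImplicit false

open Finset

namespace GCN

/-- [G7s] The same as `exists_reg`, with `z` in a bounded range `[2 ^ (J - A), 2 ^ J]` for all large `J`. -/
theorem exists_reg_all {k : ℤ} (c : Cst k) (w : ℕ) (C1 : ℝ) (hC1 : 1 ≤ C1) : ∃ Λ : ℝ, 1 ≤ Λ ∧
    ∃ A J0 : ℕ, ∀ J : ℕ, J0 ≤ J → ∃ z y W x : ℕ, z ≤ 2 ^ J ∧ 2 ^ J ≤ 2 ^ A * z ∧
      Reg c.ε c.CL C1 Λ w z y W x (Lc z (cp c.K y)) ∧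
      (z : ℝ) / (16 * Nat.totient (4 * c.K.factorial) * Real.log z) ≤
        ((Pm (4 * c.K.factorial) (z / 2) z).card : ℝ) ∧
      (x : ℝ) / (16 * Nat.totient (4 * c.K.factorial) * Real.log x) ≤
        ((Pm (4 * c.K.factorial) (x / 2) x).card : ℝ) := by
  have hf : 1 ≤ 4 * c.K.factorial := by
    have := Nat.factorial_pos c.K
    omega
  obtain ⟨e, H, he, heH, T0, hT0⟩ := scales (4 * c.K.factorial) hf
  have hH : 0 < H := lt_of_lt_of_le he heH
  have hlog2 := Real.log_two_gt_d9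
  have hlog2' := Real.log_two_lt_d9
  obtain ⟨A, J0, hA⟩ := scales_bdd (4 * c.K.factorial) hf
  refine ⟨2 * H * C1 / e + H * |T0| + 1, ?_, A, J0 + A + c.z0 + 1, fun J hJ => ?_⟩
  · have h1 : 0 ≤ 2 * H * C1 / e := by positivity
    have h2 : 0 ≤ H * |T0| := by positivity
    linarith
  -- the scale z
  obtain ⟨j, hj1, hj2, hj3⟩ := hA (J - 1) (by omega)
  have hjM : c.z0 ≤ j := by omega
  have hzj : j < 2 ^ (j + 1) :=
    lt_of_lt_of_le (Nat.lt_two_pow_self) (Nat.pow_le_pow_right (by norm_num) (Nat.le_succ j))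
  obtain ⟨z, hz⟩ : ∃ z : ℕ, z = 2 ^ (j + 1) := ⟨_, rfl⟩
  have hzM : c.z0 ≤ z := by omega
  have hz1 : (1 : ℝ) ≤ z := by
    rw [hz]
    exact_mod_cast Nat.one_le_two_pow
  have hzp : (1 : ℝ) ≤ (z : ℝ) ^ (1 / 2 - c.ε) := by
    apply Real.one_le_rpow hz1
    have := c.hε1
    linarith
  obtain ⟨y, hy⟩ : ∃ y : ℕ, y = ⌊(z : ℝ) ^ (1 / 2 - c.ε)⌋₊ := ⟨_, rfl⟩
  have hy0 : (y : ℝ) ≤ (z : ℝ) ^ (1 / 2 - c.ε) := by
    rw [hy]
    exact Nat.floor_le (by linarith)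
  have hy0' : (z : ℝ) ^ (1 / 2 - c.ε) < y + 1 := by
    rw [hy]
    exact Nat.lt_floor_add_one _
  have hy1 : 1 ≤ y := by
    rw [hy, Nat.one_le_floor_iff]
    exact hzp
  have hyr : (1 : ℝ) ≤ y := by exact_mod_cast hy1
  -- the scale x
  have hT' : T0 ≤ 2 * C1 * y / e + |T0| := by
    have h1 : 0 ≤ 2 * C1 * y / e := by positivity
    have h2 := le_abs_self T0
    linarith
  obtain ⟨i, hi1, hi2, hi3⟩ := hT0 _ hT'
  have hlogx : Real.log ((2 ^ (i + 1) : ℕ) : ℝ) = (i + 1) * Real.log 2 := by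
    push_cast
    rw [Real.log_pow]
    push_cast
    ring
  refine ⟨z, y, 2 ^ (w * y), 2 ^ (i + 1), ?_, ?_, ?_, ?_, ?_⟩
  · rw [hz]
    exact Nat.pow_le_pow_right (by norm_num) (by omega)
  · rw [hz, ← pow_add]
    exact Nat.pow_le_pow_right (by norm_num) (by omega)
  · refine ⟨hy0, hy0', rfl, ?_, ?_, ?_, ?_⟩
    · rw [hlogx]
      have h1 : 2 * C1 * y ≤ i := by
        refine le_trans ?_ hi1
        rw [mul_add, mul_div_cancel₀ _ he.ne']
        have : 0 ≤ e * |T0| := by positivity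
        linarith
      have h2 : (i : ℝ) * (1 / 2) ≤ i * Real.log 2 :=
        mul_le_mul_of_nonneg_left (by linarith) (Nat.cast_nonneg i)
      nlinarith
    · rw [hlogx]
      have h1 : ((i : ℝ) + 1) * Real.log 2 ≤ (i + 1) * 1 :=
        mul_le_mul_of_nonneg_left (by linarith) (by positivity)
      have h2 : H * (2 * C1 * y / e + |T0|) = 2 * H * C1 / e * y + H * |T0| := by
        field_simp
      have h3 : H * |T0| * 1 ≤ H * |T0| * y := mul_le_mul_of_nonneg_left hyr (by positivity)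
      have h4 : (2 * H * C1 / e + H * |T0| + 1) * y = 2 * H * C1 / e * y + H * |T0| * y + y := by
        ring
      rw [h4]
      linarith
    · exact Nat.one_le_iff_ne_zero.2 (Lc_ne_zero z _ fun l hl => (Finset.mem_filter.1 hl).2)
    · exact c.Lclog z y (by omega) hy0 hy0'
  · rw [hz]
    exact g7_card _ _ hj3
  · exact g7_card _ _ hi3

end GCN
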