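import Pool.Agent.GCN.G3
import Pool.Agent.GCN.G4
import Pool.Agent.GCN.G5
import Pool.Agent.GCN.G6
import Pool.Agent.GCN.G7

/-!
# [GCN-G8] the environment exists
-/

set_option autoImplicit false

open Finset

open scoped Classical

namespace GCN

/-- `n_phi` -/
theorem g8_phi (x z W lx L φ P a S ε : ℝ) (hlx : 0 < lx) (hφ : 0 < φ) (hP : 0 < P)
    (ha : 16 * P ^ 2 * (256 * φ ^ 2) ≤ a) (hW : 0 < W) (hx : 0 < x)
    (hS : x / (16 * φ * lx) ≤ S) (h : a * lx ^ 2 * L * z ^ 3 ≤ W ^ (ε / 4)) :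
    x ^ 2 * L * W ^ (-(ε / 2)) * z ^ 3 ≤ W ^ (-(ε / 4)) * (S ^ 2 / (16 * P ^ 2)) := by
  have hu : 0 < W ^ (-(ε / 4)) := Real.rpow_pos_of_pos hW _
  have h1 : W ^ (-(ε / 2)) = W ^ (-(ε / 4)) * W ^ (-(ε / 4)) := by
    rw [← Real.rpow_add hW]
    ring_nf
  have h2 : W ^ (ε / 4) * W ^ (-(ε / 4)) = 1 := by
    rw [← Real.rpow_add hW]
    simp
  set u := W ^ (-(ε / 4)) with hu'
  have ha0 : 0 < a := lt_of_lt_of_le (by positivity) ha
  have h3 : a * lx ^ 2 * L * z ^ 3 * u ≤ 1 := by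
    calc _ ≤ W ^ (ε / 4) * u := mul_le_mul_of_nonneg_right h hu.le
      _ = 1 := h2
  have h4 : L * z ^ 3 * u ≤ 1 / (a * lx ^ 2) := by
    rw [le_div_iff₀ (by positivity)]
    linarith
  have h5 : (x / (16 * φ * lx)) ^ 2 ≤ S ^ 2 := pow_le_pow_left₀ (by positivity) hS 2
  have h6 : x ^ 2 / (a * lx ^ 2) ≤ (x / (16 * φ * lx)) ^ 2 / (16 * P ^ 2) := by
    rw [div_pow, div_div]
    apply div_le_div_of_nonneg_left (by positivity) (by positivity)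
    nlinarith [sq_nonneg lx, mul_le_mul_of_nonneg_right ha (sq_nonneg lx)]
  rw [h1]
  calc x ^ 2 * L * (u * u) * z ^ 3 = (u * x ^ 2) * (L * z ^ 3 * u) := by ring
    _ ≤ (u * x ^ 2) * (1 / (a * lx ^ 2)) := mul_le_mul_of_nonneg_left h4 (by positivity)
    _ = u * (x ^ 2 / (a * lx ^ 2)) := by ring
    _ ≤ u * ((x / (16 * φ * lx)) ^ 2 / (16 * P ^ 2)) := mul_le_mul_of_nonneg_left h6 hu.le
    _ ≤ u * (S ^ 2 / (16 * P ^ 2)) := by gcongr

/-- `n_one` -/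
theorem g8_one (x lx ly lW φ P C2 a S : ℝ) (hlx : 0 < lx) (hly : 0 < ly) (hlW : 0 < lW) (hφ : 0 < φ)
    (ha : 64 * P * C2 ≤ a) (hx : 0 < x) (hS : x / (16 * φ * lx) ≤ S) (h : a * ly ≤ lW) :
    4 * P * (C2 * (x * ly / (φ * lx * lW))) ≤ S := by
  refine le_trans ?_ hS
  have h1 : 64 * P * C2 * ly ≤ lW := (mul_le_mul_of_nonneg_right ha hly.le).trans h
  have h2 : 4 * P * (C2 * (x * ly / (φ * lx * lW))) = (64 * P * C2 * ly / lW) * (x / (16 * φ * lx)) := by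
    field_simp
    ring
  rw [h2]
  have h3 : 64 * P * C2 * ly / lW ≤ 1 := (div_le_one hlW).2 h1
  calc _ ≤ 1 * (x / (16 * φ * lx)) := mul_le_mul_of_nonneg_right h3 (by positivity)
    _ = _ := one_mul _

/-- `n_z` -/
theorem g8_z (x y z lx ly lW φ q ch a : ℝ) (hlx : 0 < lx) (hly : 1 ≤ ly) (hlW : 0 < lW)
    (hφ : 0 < φ) (hch : 0 < ch) (hy : 0 ≤ y) (ha : 32 * q * (φ / ch) ≤ a) (hx : 0 < x)
    (h : a * y * lx * lW ≤ z ^ 2) :
    32 * q * (x * y) ≤ ch * (x * ly / (φ * lx * lW)) * z ^ 2 := by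
  have h1 : 32 * q * (φ / ch) * (y * lx * lW) ≤ a * (y * lx * lW) :=
    mul_le_mul_of_nonneg_right ha (by positivity)
  have h2 : 32 * q * (φ / ch) * (y * lx * lW) ≤ z ^ 2 := by linarith
  have h3 : z ^ 2 ≤ ly * z ^ 2 := by nlinarith [sq_nonneg z]
  have h4 : 32 * q * (x * y) = (ch * x / (φ * lx * lW)) * (32 * q * (φ / ch) * (y * lx * lW)) := by
    field_simp
  have h5 : ch * (x * ly / (φ * lx * lW)) * z ^ 2 = (ch * x / (φ * lx * lW)) * (ly * z ^ 2) := by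
    ring
  rw [h4, h5]
  exact mul_le_mul_of_nonneg_left (h2.trans h3) (by positivity)

/-- `n_big` -/
theorem g8_big (x lx ly lW φ q ch a w : ℝ) (hlx : 0 < lx) (hly : 1 ≤ ly) (hlW : 0 < lW)
    (hφ : 0 < φ) (hch : 0 < ch) (hw : 0 ≤ w) (ha : 72 * q * (φ / ch) ≤ a) (hx : 0 < x)
    (h : a * w * lx * lW ≤ x) :
    72 * q * w ≤ ch * (x * ly / (φ * lx * lW)) := by
  have h1 : 72 * q * (φ / ch) * (w * lx * lW) ≤ a * (w * lx * lW) :=
    mul_le_mul_of_nonneg_right ha (by positivity)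
  have h2 : 72 * q * (φ / ch) * (w * lx * lW) ≤ x := by linarith
  have h3 : x ≤ x * ly := by nlinarith
  have h4 : 72 * q * w = (ch / (φ * lx * lW)) * (72 * q * (φ / ch) * (w * lx * lW)) := by
    field_simp
  have h5 : ch * (x * ly / (φ * lx * lW)) = (ch / (φ * lx * lW)) * (x * ly) := by
    ring
  rw [h4, h5]
  exact mul_le_mul_of_nonneg_left (h2.trans h3) (by positivity)

/-- `n_uc` -/
theorem g8_uc (x lx ly lW φ ch a W ε : ℝ) (hlx : 0 < lx) (hly : 1 ≤ ly) (hlW : 0 < lW)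
    (hφ : 0 < φ) (hch : 0 < ch) (ha : 4 * (φ / ch) ≤ a) (hx : 0 < x) (hW : 0 < W)
    (h : 18 * (a * lx * lW) ^ 6 ≤ W ^ (ε / 4)) :
    (4 * x / (ch * (x * ly / (φ * lx * lW)))) ^ 6 * W ^ (-(ε / 4)) ≤ 1 / 18 := by
  have hu : 0 < W ^ (-(ε / 4)) := Real.rpow_pos_of_pos hW _
  have h2 : W ^ (ε / 4) * W ^ (-(ε / 4)) = 1 := by
    rw [← Real.rpow_add hW]
    simp
  have hly0 : 0 < ly := by linarith
  have h3 : 4 * x / (ch * (x * ly / (φ * lx * lW))) = 4 * (φ / ch) * (lx * lW) / ly := by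
    field_simp
  have h4 : 4 * (φ / ch) * (lx * lW) / ly ≤ a * lx * lW := by
    rw [div_le_iff₀ hly0]
    have h5 : 4 * (φ / ch) * (lx * lW) ≤ a * (lx * lW) :=
      mul_le_mul_of_nonneg_right ha (by positivity)
    have h6 : 0 ≤ a * (lx * lW) := le_trans (by positivity) h5
    nlinarith
  rw [h3]
  have h7 : (4 * (φ / ch) * (lx * lW) / ly) ^ 6 ≤ (a * lx * lW) ^ 6 :=
    pow_le_pow_left₀ (by positivity) h4 6
  have h8 : (4 * (φ / ch) * (lx * lW) / ly) ^ 6 ≤ W ^ (ε / 4) / 18 := by linarith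
  calc _ ≤ W ^ (ε / 4) / 18 * W ^ (-(ε / 4)) := mul_le_mul_of_nonneg_right h8 hu.le
    _ = (W ^ (ε / 4) * W ^ (-(ε / 4))) / 18 := by ring
    _ = 1 / 18 := by rw [h2]

/-- `n_D` -/
theorem g8_D (PN CB cA K z lz φ rm N : ℝ) (hlz : 0 < lz) (hφ : 0 < φ) (hz : 0 < z) (hK : 0 ≤ K)
    (hK4 : 512 * PN * CB ≤ cA * K) (hN : cA * z / (φ * lz) ≤ N) (hN2 : N ≤ 2 * rm) :
    256 * PN * (CB * z / (φ * lz)) ≤ K * rm := by
  have h1 : 256 * PN * (CB * z / (φ * lz)) = (512 * PN * CB) * (z / (φ * lz)) / 2 := by ring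
  have h2 : (512 * PN * CB) * (z / (φ * lz)) ≤ (cA * K) * (z / (φ * lz)) :=
    mul_le_mul_of_nonneg_right hK4 (by positivity)
  have h3 : (cA * K) * (z / (φ * lz)) = K * (cA * z / (φ * lz)) := by ring
  have h4 : K * (cA * z / (φ * lz)) ≤ K * (2 * rm) :=
    mul_le_mul_of_nonneg_left (hN.trans hN2) hK
  rw [h1]
  linarith

/-- `n_m2` -/
theorem g8_m2 (z m ε : ℝ) (hz : 0 < z) (hm : 1024 * z ^ (1 / 2 + 3 * ε / 4) ≤ m) :
    z ^ (1 + 3 * ε / 2) ≤ (15 * m / 16) ^ 2 := by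
  have h1 : z ^ (1 + 3 * ε / 2) = (z ^ (1 / 2 + 3 * ε / 4)) ^ 2 := by
    rw [← Real.rpow_natCast, ← Real.rpow_mul hz.le]
    norm_num
    ring_nf
  have h2 : 0 < z ^ (1 / 2 + 3 * ε / 4) := Real.rpow_pos_of_pos hz _
  rw [h1]
  apply pow_le_pow_left₀ h2.le
  linarith

/-- a prime `> K` is prime to `4 K!` -/
theorem g8_coprime (K l : ℕ) (hK : 2 ≤ K) (hl : l.Prime) (h : K < l) :
    Nat.Coprime l (4 * K.factorial) := by
  rw [Nat.Prime.coprime_iff_not_dvd hl]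
  intro hd
  rcases (Nat.Prime.dvd_mul hl).1 hd with h1 | h1
  · have h2 : l ∣ 2 ^ 2 := by simpa using h1
    have h3 := (Nat.prime_dvd_prime_iff_eq hl Nat.prime_two).1 (hl.dvd_of_dvd_pow h2)
    omega
  · exact absurd ((Nat.Prime.dvd_factorial hl).1 h1) (by omega)

/-- few prime factors -/
theorem g8_card (y R W N : ℕ) (hy : 2 ≤ y) (hN : N ≠ 0)
    (hp : ∀ p : ℕ, p.Prime → p ∣ N → y < p ∧ p ≤ W) (hNW : N ≤ W ^ R) (hW : W ^ R ≤ y ^ y) :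
    N.primeFactors.card ≤ y := by
  have h1 : y ^ N.primeFactors.card ≤ ∏ p ∈ N.primeFactors, p := by
    apply Finset.pow_card_le_prod
    intro p hp'
    exact (hp p (Nat.prime_of_mem_primeFactors hp') (Nat.dvd_of_mem_primeFactors hp')).1.le
  have h2 : ∏ p ∈ N.primeFactors, p ≤ N :=
    Nat.le_of_dvd (Nat.pos_of_ne_zero hN) (Nat.prod_primeFactors_dvd N)
  have h3 : y ^ N.primeFactors.card ≤ y ^ y := h1.trans (h2.trans (hNW.trans hW))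
  exact (Nat.pow_le_pow_iff_right (by omega)).1 h3

/-- Brun-Titchmarsh for the primes `s` -/
theorem g8_btS {k : ℤ} (c : Cst k) (x y W l : ℕ) (hz0 : c.z0 ≤ x) (hKy : c.K < y)
    (hl : l.Prime) (hyl : y < l) (hlW : l ≤ W) (hWx : W ^ 400 ≤ x)
    (hfx : (4 * c.K.factorial) ^ 400 ≤ x) (hlx : 0 < Real.log x)
    (hS : (x : ℝ) / (16 * Nat.totient (4 * c.K.factorial) * Real.log x) ≤
      ((Pm (4 * c.K.factorial) (x / 2) x).card : ℝ)) :
    (((Pm (4 * c.K.factorial) (x / 2) x).filter (fun s => l ∣ s - 1)).card : ℝ) ≤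
      (16 * c.CB) * (Pm (4 * c.K.factorial) (x / 2) x).card / (l - 1) := by
  have hK := c.hK2
  have hf : 1 ≤ 4 * c.K.factorial := by
    have := Nat.factorial_pos c.K
    omega
  have hx1 : 1 ≤ x := by
    rcases Nat.eq_zero_or_pos x with h | h
    · rw [h] at hlx
      simp at hlx
    · exact h
  have hco := g8_coprime c.K l hK hl (by omega)
  have hfl : (4 * c.K.factorial * l) ^ 4 ≤ x ^ 3 := by
    rw [mul_pow]
    have h1 : (4 * c.K.factorial) ^ 4 ≤ x :=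
      (Nat.pow_le_pow_right hf (by norm_num)).trans hfx
    have h2 : l ^ 4 ≤ x := by
      refine (Nat.pow_le_pow_left hlW 4).trans ((Nat.pow_le_pow_right ?_ (by norm_num)).trans hWx)
      exact (hl.pos).trans_le hlW
    calc (4 * c.K.factorial) ^ 4 * l ^ 4 ≤ x * x := Nat.mul_le_mul h1 h2
      _ = x ^ 2 := (pow_two x).symm
      _ ≤ x ^ 3 := Nat.pow_le_pow_right hx1 (by norm_num)
  have h1 := c.bt x l hz0 hl.one_lt.le hco hfl
  refine h1.trans ?_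
  have hφ : (0 : ℝ) < Nat.totient (4 * c.K.factorial) := by exact_mod_cast Nat.totient_pos.2 hf
  have hl1 : (0 : ℝ) < (l : ℝ) - 1 := by
    have : (1 : ℝ) < l := by exact_mod_cast hl.one_lt
    linarith
  have hCB : 0 < c.CB := by have := c.hCB; linarith
  rw [Nat.totient_prime hl, Nat.cast_sub hl.one_lt.le, Nat.cast_one]
  have h2 : c.CB * x / (Nat.totient (4 * c.K.factorial) * ((l : ℝ) - 1) * Real.log x) =
      16 * c.CB * (x / (16 * Nat.totient (4 * c.K.factorial) * Real.log x)) / ((l : ℝ) - 1) := by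
    field_simp
  rw [h2]
  gcongr

/-- Brun-Titchmarsh for the primes `a` -/
theorem g8_btA {k : ℤ} (c : Cst k) (z y l : ℕ) (A0 : Finset ℕ) (hz0 : c.z0 ≤ z)
    (hl : l ∈ cp c.K y) (hyz : y ^ 2 ≤ z) (hfz : (4 * c.K.factorial) ^ 4 ≤ z)
    (hA0 : A0 ⊆ Pm (4 * c.K.factorial) (z / 2) z) :
    (((A0.filter (fun a => l ∣ a - 1)).card : ℕ) : ℝ) ≤
      (c.CB * z / (Nat.totient (4 * c.K.factorial) * Real.log z)) / (l - 1) := by
  obtain ⟨hl1, hl2⟩ := Finset.mem_filter.1 hl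
  obtain ⟨hl3, hl4⟩ := Finset.mem_Ioc.1 hl1
  have hK := c.hK2
  have hco := g8_coprime c.K l hK hl2 hl3
  have hfl : (4 * c.K.factorial * l) ^ 4 ≤ z ^ 3 := by
    rw [mul_pow]
    have h2 : l ^ 4 ≤ z ^ 2 := by
      calc l ^ 4 ≤ y ^ 4 := Nat.pow_le_pow_left hl4 4
        _ = (y ^ 2) ^ 2 := by ring
        _ ≤ z ^ 2 := Nat.pow_le_pow_left hyz 2
    calc (4 * c.K.factorial) ^ 4 * l ^ 4 ≤ z * z ^ 2 := Nat.mul_le_mul hfz h2
      _ = z ^ 3 := by ring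
  have h1 := c.bt z l hz0 hl2.one_lt.le hco hfl
  have h3 : (((A0.filter (fun a => l ∣ a - 1)).card : ℕ) : ℝ) ≤
      (((Pm (4 * c.K.factorial) (z / 2) z).filter (fun p => l ∣ p - 1)).card : ℝ) := by
    exact_mod_cast Finset.card_le_card (Finset.filter_subset_filter _ hA0)
  refine (h3.trans h1).trans ?_
  rw [Nat.totient_prime hl2, Nat.cast_sub hl2.one_lt.le, Nat.cast_one, div_div]
  apply le_of_eq
  ring_nf

/-- [G8] Proof. `c : Cst k` (`exists_cst`), `f = 4 K!`, `φ = φ(f)`, `R = C3 P ≥ 2 C3`. `w = ⌈8 (CL+1)/ε⌉`, `C1 = 400 w + 4 (CL + R w + 1) + 8 (CL + R w + 1)/ε`, `Λ` from `exists_reg` (G7), `C = CL + R w + 6 Λ + 1`, `a` = a large constant: `a ≥ 1, X, z0,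
K + 1, f, f^4, 16 P² 256 φ², 32 P² (16 CB)², 64 P C2, 32 (C2/ch) φ/ch, 72 (C2/ch) φ/ch, 4 φ/ch`. `Z` = maximum of the thresholds of `grow`, `num1`, `num2`, `num3` (with `R` resp. `2 C3`), `block_size` (`c = cA/φ`), `z0`, `f^4`.
`exists_reg` gives `z, y, W, x`. `r = ⌈4 C y⌉₊`, `A0` = the primes of `propA` (`(q : ℝ) ≤ z^(1/2-ε) < y + 1` gives `q ≤ y`), `m = #A0/r`, `A` from `blocks_exist`, `X0 = L0 W^(2 C3) x^6`, `𝒲` = all bad `w` with `0 < w.1 ≤ X0`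
(`finite_mod`, B3), `GS = 16 CB`, `GA = CB z/(φ log z)`, `log y ≥ 1`.
`sb`: `(f L0 M M')^4 ≤ (f L0 W^R)^4 ≤ x`, `y^(#primeFactors (M M')) ≤ M M' ≤ W^R ≤ y^y`. `btS`: `bt` with `d = l ≤ W` prime `> K` (so prime to `f`), `(f l)^4 ≤ x^3`, `φ(l) = l - 1`, `x/(φ log x) ≤ 16 #Pm`. `btA`: `bt` for `z`, `d = l ≤ y`, `(f l)^4 ≤ f^4 z² ≤ z^3`.
`n_phi`: `x² L0 W^(-ε/2) z³ ≤ x² W^(-ε/2) W^(ε/4)/(a (log x)²) ≤ W^(-ε/4) #Pm²/(16 P²)` (`num2` (1)). `n_one`: `EE = x log y/(φ log x log W)`, `64 P C2 log y ≤ log W`. `n_z`: `num2` (3) and `log y ≥ 1`. `n_big`: `num2` (4).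
`n_uc`: `4 x/(ch EE) = 4 φ log x log W/(ch log y) ≤ a log x log W`, `num2` (2). `n_D`: `r m ≥ #A0/2 ≥ cA z/(2 φ log z)` and `hK4`. `n_m2`: `1024 z^(1/2+3ε/4) ≤ m`. The rest: `num1`, `num3`. -/
theorem exists_env (k : ℤ) (hk : k ≠ 0) (X : ℝ) : ∃ E : Env k, X ≤ E.x := by
  classical
  obtain ⟨c⟩ := exists_cst k hk
  have hK2 := c.hK2
  have hε := c.hε
  have hε1 := c.hε1
  have hf : 1 ≤ 4 * c.K.factorial := by
    have := Nat.factorial_pos c.K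
    omega
  have hφn : 0 < Nat.totient (4 * c.K.factorial) := Nat.totient_pos.2 hf
  have hφ : (0 : ℝ) < Nat.totient (4 * c.K.factorial) := by exact_mod_cast hφn
  have hch := c.hch
  have hC2 := c.hC2
  have hCB := c.hCB
  have hcA := c.hcA
  have hCL := c.hCL
  have hP2 : 2 ≤ c.P := by
    have := c.hP
    omega
  have hPr : (0 : ℝ) < c.P := by exact_mod_cast (by omega : 0 < c.P)
  have hR2 : 2 * c.C3 ≤ c.C3 * c.P := by
    rw [mul_comm 2]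
    exact Nat.mul_le_mul_left _ hP2
  have hR1 : c.C3 ≤ c.C3 * c.P := Nat.le_mul_of_pos_right _ (by omega)
  -- the constants
  obtain ⟨w, hw⟩ : ∃ w : ℕ, w = ⌈8 * (c.CL + 1) / c.ε⌉₊ := ⟨_, rfl⟩
  have hwr : 8 * (c.CL + 1) / c.ε ≤ w := by
    rw [hw]
    exact Nat.le_ceil _
  have hw1 : 1 ≤ w := by
    rw [hw, Nat.one_le_ceil_iff]
    positivity
  obtain ⟨R, hR⟩ : ∃ R : ℕ, R = c.C3 * c.P := ⟨_, rfl⟩
  obtain ⟨C1, hC1⟩ : ∃ C1 : ℝ, C1 = 400 * w + 4 * (c.CL + R * w + 1) +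
    8 * (c.CL + R * w + 1) / c.ε := ⟨_, rfl⟩
  have hRw : (0 : ℝ) ≤ R * w := by positivity
  have hpos8 : 0 ≤ 8 * (c.CL + R * w + 1) / c.ε := by positivity
  have hC11 : 1 ≤ C1 := by
    rw [hC1]
    have : (0 : ℝ) ≤ 400 * w := by positivity
    linarith
  have hC12 : (R : ℝ) * w + 1 ≤ C1 := by
    rw [hC1]
    have : (0 : ℝ) ≤ 400 * w := by positivity
    linarith
  obtain ⟨Λ, hΛ, hreg⟩ := exists_reg c w C1 hC11
  obtain ⟨C, hC⟩ : ∃ C : ℝ, C = c.CL + R * w + 6 * Λ + 1 := ⟨_, rfl⟩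
  have hC0 : 1 ≤ C := by
    rw [hC]
    linarith
  have hC2' : c.CL + ((2 * c.C3 : ℕ) : ℝ) * w + 6 * Λ + 1 ≤ C := by
    rw [hC]
    have h1 : ((2 * c.C3 : ℕ) : ℝ) ≤ R := by
      rw [hR]
      exact_mod_cast hR2
    have h2 : ((2 * c.C3 : ℕ) : ℝ) * w ≤ R * w := mul_le_mul_of_nonneg_right h1 (by positivity)
    linarith
  obtain ⟨φ, hφeq⟩ : ∃ φ : ℝ, φ = Nat.totient (4 * c.K.factorial) := ⟨_, rfl⟩
  have hφ0 : 0 < φ := by rw [hφeq]; exact hφ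
  obtain ⟨q, hq⟩ : ∃ q : ℝ, q = c.C2 / c.ch := ⟨_, rfl⟩
  have hq0 : 0 ≤ q := by rw [hq]; positivity
  obtain ⟨a, ha1, haX, haz, haK, haf, haP, haC, haP2, haq, haq2, haφ⟩ : ∃ a : ℝ, 1 ≤ a ∧ X ≤ a ∧
      (c.z0 : ℝ) ≤ a ∧ (c.K : ℝ) + 1 ≤ a ∧ ((4 * c.K.factorial : ℕ) : ℝ) ≤ a ∧
      16 * (c.P : ℝ) ^ 2 * (256 * φ ^ 2) ≤ a ∧ 32 * (c.P : ℝ) ^ 2 * (16 * c.CB) ^ 2 ≤ a ∧
      64 * c.P * c.C2 ≤ a ∧ 32 * q * (φ / c.ch) ≤ a ∧ 72 * q * (φ / c.ch) ≤ a ∧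
      4 * (φ / c.ch) ≤ a := by
    have e1 : 0 ≤ |X| := abs_nonneg X
    have e2 : (0 : ℝ) ≤ c.z0 := Nat.cast_nonneg _
    have e3 : (0 : ℝ) ≤ c.K := Nat.cast_nonneg _
    have e4 : (0 : ℝ) ≤ ((4 * c.K.factorial : ℕ) : ℝ) := Nat.cast_nonneg _
    have e5 : 0 ≤ 16 * (c.P : ℝ) ^ 2 * (256 * φ ^ 2) := by positivity
    have e6 : 0 ≤ 32 * (c.P : ℝ) ^ 2 * (16 * c.CB) ^ 2 := by positivity
    have e7 : 0 ≤ 64 * c.P * c.C2 := by positivity
    have e8 : 0 ≤ 72 * q * (φ / c.ch) := by positivity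
    have e9 : 0 ≤ 4 * (φ / c.ch) := by positivity
    have e10 : 32 * q * (φ / c.ch) ≤ 72 * q * (φ / c.ch) := by
      have : 0 ≤ q * (φ / c.ch) := by positivity
      linarith
    have e11 := le_abs_self X
    refine ⟨1 + |X| + c.z0 + c.K + ((4 * c.K.factorial : ℕ) : ℝ) +
      16 * (c.P : ℝ) ^ 2 * (256 * φ ^ 2) + 32 * (c.P : ℝ) ^ 2 * (16 * c.CB) ^ 2 + 64 * c.P * c.C2 +
      72 * q * (φ / c.ch) + 4 * (φ / c.ch), ?_, ?_, ?_, ?_, ?_, ?_, ?_, ?_, ?_, ?_, ?_⟩ <;> linarith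
  obtain ⟨Z1, hZ1⟩ := grow c.ε hε hε1 1
  obtain ⟨Z2, hZ2⟩ := num1 c.ε c.CL C1 Λ a w R hε hε1 hCL hw1 ha1 hC1.ge
  obtain ⟨Z3, hZ3⟩ := num2 c.ε c.CL C1 Λ a w R hε hε1 hCL hwr ha1 hC12 hΛ
  obtain ⟨Z4, hZ4⟩ := num3 c.ε c.CL C1 Λ C w (2 * c.C3) hε hε1 hCL hC11 hΛ hC2'
  obtain ⟨Z5, hZ5⟩ := block_size c.ε (c.cA / φ) C hε hε1 (by positivity) hC0
  obtain ⟨z, y, W, x, hzZ, hreg0, hPz, hPx⟩ :=
    hreg (Z1 + Z2 + Z3 + Z4 + Z5 + c.z0 + (4 * c.K.factorial) ^ 4 + 2)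
  obtain ⟨hz1, hz2, hz3, hz4, hz5, hz6, hz7, hz8⟩ : Z1 ≤ z ∧ Z2 ≤ z ∧ Z3 ≤ z ∧ Z4 ≤ z ∧ Z5 ≤ z ∧
      c.z0 ≤ z ∧ (4 * c.K.factorial) ^ 4 ≤ z ∧ 2 ≤ z := by
    refine ⟨?_, ?_, ?_, ?_, ?_, ?_, ?_, ?_⟩ <;> omega
  obtain ⟨_, g2, _⟩ := hZ1 z hz1 y hreg0.hy hreg0.hy'
  obtain ⟨a1, a2, a3, a4, a5, a6, a7, a8, a9, a10, a11, a12⟩ := hZ2 z y W x _ hz2 hreg0
  obtain ⟨b1, b2, b3, b4⟩ := hZ3 z y W x _ hz3 hreg0
  obtain ⟨r, hr⟩ : ∃ r : ℕ, r = ⌈4 * C * y⌉₊ := ⟨_, rfl⟩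
  have hr1 : 4 * C * y ≤ r := by
    rw [hr]
    exact Nat.le_ceil _
  have hr2 : (r : ℝ) ≤ 4 * C * y + 1 := by
    rw [hr]
    exact (Nat.ceil_lt_add_one (by positivity)).le
  obtain ⟨X0, hX0⟩ : ∃ X0 : ℕ, X0 = Lc z (cp c.K y) * W ^ (2 * c.C3) * x ^ 6 := ⟨_, rfl⟩
  obtain ⟨d1, d2, d3, d4, d5, d6, d7⟩ := hZ4 z y W x _ r X0 hz4 hreg0 hr1 hr2 hX0
  have hyr : (1 : ℝ) ≤ y := ha1.trans a1
  have hKy : c.K < y := by
    have h1 : (c.K : ℝ) + 1 ≤ y := haK.trans a1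
    have h2 : c.K + 1 ≤ y := by exact_mod_cast h1
    omega
  have hz0y : c.z0 ≤ y := by exact_mod_cast haz.trans a1
  have hz0x : c.z0 ≤ x := by exact_mod_cast haz.trans a2
  have hyW : y < W := by omega
  have hy2 : 2 ≤ y := by omega
  have hx1r : (1 : ℝ) ≤ x := ha1.trans a2
  have hx0r : (0 : ℝ) < x := by linarith
  have hlx : 0 < Real.log x := by
    have h1 := hreg0.hx
    have h2 : 0 < C1 * y := by positivity
    linarith
  have hzr : (2 : ℝ) ≤ z := by exact_mod_cast hz8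
  have hz0r : (0 : ℝ) < z := by linarith
  have hlz : 0 < Real.log z := Real.log_pos (by linarith)
  have hly : 1 ≤ Real.log y := g2
  have hW1 : 1 < W := by omega
  have hWr : (1 : ℝ) < W := by exact_mod_cast hW1
  have hW0 : (0 : ℝ) < W := by linarith
  have hlW : 0 < Real.log W := Real.log_pos hWr
  have hfx : (4 * c.K.factorial) ^ 400 ≤ x := by
    have h1 : (((4 * c.K.factorial : ℕ) : ℝ)) ^ 400 ≤ x :=
      (pow_le_pow_left₀ (Nat.cast_nonneg _) haf 400).trans a6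
    exact_mod_cast h1
  have hPx' : (x : ℝ) / (16 * φ * Real.log x) ≤ ((Pm (4 * c.K.factorial) (x / 2) x).card : ℝ) := by
    rw [hφeq]
    exact hPx
  have hEE : EE (4 * c.K.factorial) x y W =
      (x : ℝ) * Real.log y / (φ * Real.log x * Real.log W) := by
    unfold EE
    rw [hφeq]
  -- the primes a
  obtain ⟨A0, hA0⟩ : ∃ A0 : Finset ℕ, A0 = (Pm (4 * c.K.factorial) (z / 2) z).filter
      (fun a => ∀ q : ℕ, q.Prime → q ∣ a - 1 → (q : ℝ) ≤ (z : ℝ) ^ (1 / 2 - c.ε)) := ⟨_, rfl⟩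
  have hA0c : c.cA * z / (φ * Real.log z) ≤ (A0.card : ℝ) := by
    rw [hA0, hφeq]
    exact c.propA z hz6 hPz
  have hA0s : A0 ⊆ Pm (4 * c.K.factorial) (z / 2) z := by
    rw [hA0]
    exact Finset.filter_subset _ _
  have hA0y : ∀ a ∈ A0, ∀ q : ℕ, q.Prime → q ∣ a - 1 → q ≤ y := by
    intro a ha q hq1 hq2
    rw [hA0] at ha
    have h1 := (Finset.mem_filter.1 ha).2 q hq1 hq2
    have h2 : (q : ℝ) < y + 1 := lt_of_le_of_lt h1 hreg0.hy'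
    have h3 : q < y + 1 := by exact_mod_cast h2
    omega
  obtain ⟨m, hm⟩ : ∃ m : ℕ, m = A0.card / r := ⟨_, rfl⟩
  obtain ⟨e1, e2, e3⟩ := hZ5 z y r A0.card hz5 hreg0.hy hreg0.hy' d7 hr2 (by
    refine le_trans (le_of_eq ?_) hA0c
    field_simp)
  rw [← hm] at e1 e2 e3
  obtain ⟨A, hA, hdis⟩ := blocks_exist A0 r m (by
    rw [hm]
    exact Nat.mul_div_le _ _)
  have hApr : ∀ j < r, (∀ a ∈ A j, a.Prime ∧ a ≤ z) ∧ (A j).card = m := by
    intro j hj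
    refine ⟨fun a ha => ?_, (hA j hj).2⟩
    have h1 := hA0s ((hA j hj).1 ha)
    obtain ⟨h2, h3, _⟩ := Finset.mem_filter.1 h1
    exact ⟨h3, (Finset.mem_Ioc.1 h2).2⟩
  -- the bad characters
  obtain ⟨𝒲, h𝒲⟩ : ∃ 𝒲 : Finset Ch, 𝒲 = (finite_mod X0).toFinset.filter (fun w => Bad A r m w) :=
    ⟨_, rfl⟩
  have h𝒲m : ∀ w : Ch, w ∈ 𝒲 ↔ (0 < w.1 ∧ w.1 ≤ X0) ∧ Bad A r m w := by
    intro w
    rw [h𝒲, Finset.mem_filter, Set.Finite.mem_toFinset]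
    rfl
  have hsum := c.badsum A r m z X0 hz6 d3 d6 d4 e1 d5 hApr hdis 𝒲 (fun w hw =>
    ⟨((h𝒲m w).1 hw).2, ((h𝒲m w).1 hw).1.1, ((h𝒲m w).1 hw).1.2⟩)
  have hGA : 0 ≤ c.CB * z / (Nat.totient (4 * c.K.factorial) * Real.log z) := by positivity
  have hyz2 : y ^ 2 ≤ z := by
    have h1 : (y : ℝ) ^ 2 ≤ z := by
      have h2 : (z : ℝ) ^ (1 / 2 - c.ε) ≤ (z : ℝ) ^ ((1 : ℝ) / 2) :=
        Real.rpow_le_rpow_of_exponent_le (by linarith) (by linarith)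
      have h3 : ((z : ℝ) ^ ((1 : ℝ) / 2)) ^ 2 = z := by
        rw [← Real.rpow_natCast, ← Real.rpow_mul hz0r.le]
        norm_num
      calc (y : ℝ) ^ 2 ≤ ((z : ℝ) ^ ((1 : ℝ) / 2)) ^ 2 :=
            pow_le_pow_left₀ (Nat.cast_nonneg _) (hreg0.hy.trans h2) 2
        _ = z := h3
    exact_mod_cast h1
  have hWC : ((W : ℝ)) ^ c.C3 ≤ (W : ℝ) ^ R := by
    apply pow_le_pow_right₀ hWr.le
    rw [hR]
    exact hR1
  have hWC2 : ((W : ℝ)) ^ (2 * c.C3) ≤ (W : ℝ) ^ R := by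
    apply pow_le_pow_right₀ hWr.le
    rw [hR]
    exact hR2
  refine ⟨{ ε := c.ε, C2 := c.C2, ch := c.ch, GS := 16 * c.CB
            GA := c.CB * z / (Nat.totient (4 * c.K.factorial) * Real.log z)
            C3 := c.C3, P := c.P, N0 := c.N0, K := c.K, z := z, y := y, W := W, x := x
            r := r, m := m, X0 := X0, A0 := A0, A := A, 𝒲 := 𝒲
            hk := hk
            hε := hε
            hε1 := hε1
            hC2 := hC2
            hch := hch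
            hch1 := c.hch1
            hC3 := c.hC3
            hN0 := c.hN0
            hP := c.hP
            hK2 := hK2
            hkK := c.hkK
            hKy := hKy
            hyz := a3
            hzW := a4
            hWx := a5
            hS0 := ?_
            sb := ?_
            heavy := c.heavy x y W hz0x hy2 hyW a5 hfx hPx
            hGS := by positivity
            btS := fun l hl hyl hlW' =>
              g8_btS c x y W l hz0x hKy hl hyl hlW' a5 hfx hlx hPx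
            hGA := hGA
            btA := fun l hl => g8_btA c z y l A0 hz6 hl hyz2 hz7 hA0s
            hA0 := fun a ha => ⟨hA0s ha, hA0y a ha⟩
            hA := hA
            hdis := hdis
            h𝒲pos := fun w hw => ((h𝒲m w).1 hw).1.1
            h𝒲 := fun w h1 h2 h3 => (h𝒲m w).2 ⟨⟨h2, h3⟩, h1⟩
            h𝒲z := hsum
            hX0 := hX0.ge
            n_y2 := a8
            n_phi := ?_
            n_cop := haC.trans a1
            n_one := ?_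
            n_K := c.hK3
            n_z := ?_
            n_big := ?_
            n_W6 := a9
            n_mod := ?_
            n_uc := ?_
            n_D := ?_
            n_m := e2
            n_MW := by
              rw [hR] at a10
              exact a10
            n_r := d1
            n_m2 := g8_m2 z m c.ε hz0r e1
            n_fin := d2 }, haX.trans a2⟩
  · have h1 : 0 < (x : ℝ) / (16 * φ * Real.log x) := by positivity
    have h2 := lt_of_lt_of_le h1 hPx'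
    exact_mod_cast h2
  · intro M M' b hM hM' hco hp hMW
    have hcard := g8_card y (c.C3 * c.P) W (M * M') hy2 (mul_ne_zero hM hM') hp hMW
      (by rw [hR] at a10; exact a10)
    refine c.sb z y W x M M' b hKy hz0y hyW a5 hM hM' hco hp hcard ?_
    have h1 : (((4 * c.K.factorial * Lc z (cp c.K y) * M * M' : ℕ)) : ℝ) ≤
        a * (Lc z (cp c.K y) : ℝ) * (W : ℝ) ^ R := by
      have h2 : ((4 * c.K.factorial * Lc z (cp c.K y) * M * M' : ℕ) : ℝ) =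
          ((4 * c.K.factorial : ℕ) : ℝ) * (Lc z (cp c.K y) : ℝ) * ((M * M' : ℕ) : ℝ) := by
        push_cast
        ring
      rw [h2]
      have h3 : ((M * M' : ℕ) : ℝ) ≤ (W : ℝ) ^ R := by
        rw [hR]
        exact_mod_cast hMW
      exact mul_le_mul (mul_le_mul_of_nonneg_right haf (Nat.cast_nonneg _)) h3
        (Nat.cast_nonneg _) (by positivity)
    have h4 : (((4 * c.K.factorial * Lc z (cp c.K y) * M * M' : ℕ)) : ℝ) ^ 4 ≤ x :=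
      (pow_le_pow_left₀ (Nat.cast_nonneg _) h1 4).trans a7
    exact_mod_cast h4
  · exact g8_phi x z W (Real.log x) _ φ c.P a _ c.ε hlx hφ0 hPr haP hW0 hx0r hPx' b1
  · rw [hEE]
    exact g8_one x (Real.log x) (Real.log y) (Real.log W) φ c.P c.C2 a _ hlx (by linarith) hlW hφ0
      haP2 hx0r hPx' a12
  · rw [hEE, ← hq]
    exact g8_z x y z (Real.log x) (Real.log y) (Real.log W) φ q c.ch a hlx hly hlW hφ0 hch
      (by linarith) haq hx0r b3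
  · rw [hEE, ← hq]
    refine g8_big x (Real.log x) (Real.log y) (Real.log W) φ q c.ch a _ hlx hly hlW hφ0 hch
      (by positivity) haq2 hx0r ?_
    refine le_trans ?_ b4
    have h1 : a * (W : ℝ) ^ c.C3 ≤ a * (W : ℝ) ^ R := mul_le_mul_of_nonneg_left hWC (by linarith)
    exact mul_le_mul_of_nonneg_right (mul_le_mul_of_nonneg_right h1 hlx.le) hlW.le
  · refine le_trans ?_ a11
    exact mul_le_mul_of_nonneg_left hWC2 (Nat.cast_nonneg _)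
  · rw [hEE]
    exact g8_uc x (Real.log x) (Real.log y) (Real.log W) φ c.ch a W c.ε hlx hly hlW hφ0 hch haφ
      hx0r hW0 b2
  · rw [← hφeq]
    have h1 : 512 * (((c.P : ℝ) * c.N0)) * c.CB ≤ c.cA * c.K := c.hK4
    have h2 : (A0.card : ℝ) ≤ 2 * ((r : ℝ) * m) := by exact_mod_cast e3
    exact g8_D ((c.P : ℝ) * c.N0) c.CB c.cA c.K z (Real.log z) φ ((r : ℝ) * m) A0.card hlz hφ0
      hz0r (Nat.cast_nonneg _) h1 hA0c h2

end GCN
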