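import Pool.Agent.GCN.G8
import Pool.Agent.GCN.G7s

/-!
# [GCN-G8s] the environment exists, all sizes
-/

set_option autoImplicit false

open Finset

open scoped Classical

namespace GCN

/-- [G8s] The environment of `exists_env`, with `z` in a bounded range, for all large `J`. -/
theorem exists_env_all (k : ℤ) (hk : k ≠ 0) : ∃ (ε C Λ : ℝ) (A J0 : ℕ), 0 < ε ∧ ε ≤ 1 / 10 ∧ 1 ≤ C ∧
    1 ≤ Λ ∧ ∀ J : ℕ, J0 ≤ J → ∃ E : Env k, E.z ≤ 2 ^ J ∧ 2 ^ J ≤ 2 ^ A * E.z ∧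
      (E.y : ℝ) ≤ (E.z : ℝ) ^ (1 / 2 - ε) ∧ (E.z : ℝ) ^ (1 / 2 - ε) < E.y + 1 ∧
      4 * C * E.y ≤ E.r ∧ (E.r : ℝ) ≤ 4 * C * E.y + 1 ∧ Real.log E.x ≤ Λ * E.y := by
  classical
  obtain ⟨c⟩ := exists_cst k hk
  have hK2 := c.hK2
  have hε := c.hε
  have hε1 := c.hε1
  have hf : 1 ≤ 4 * c.K.factorial := by
    have := Nat.factorial_pos c.K
    omega
  have hφn : 0 < Nat.totient (4 * c.K.factorial) := Nat.totient_pos.2 hf
  have hφ : (0 : ℝ) < Nat.totient (4 * c.K.factorial) := by exact_mod_cast hφn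
  have hch := c.hch
  have hC2 := c.hC2
  have hCB := c.hCB
  have hcA := c.hcA
  have hCL := c.hCL
  have hP2 : 2 ≤ c.P := by
    have := c.hP
    omega
  have hPr : (0 : ℝ) < c.P := by exact_mod_cast (by omega : 0 < c.P)
  have hR2 : 2 * c.C3 ≤ c.C3 * c.P := by
    rw [mul_comm 2]
    exact Nat.mul_le_mul_left _ hP2
  have hR1 : c.C3 ≤ c.C3 * c.P := Nat.le_mul_of_pos_right _ (by omega)
  -- the constants
  obtain ⟨w, hw⟩ : ∃ w : ℕ, w = ⌈8 * (c.CL + 1) / c.ε⌉₊ := ⟨_, rfl⟩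
  have hwr : 8 * (c.CL + 1) / c.ε ≤ w := by
    rw [hw]
    exact Nat.le_ceil _
  have hw1 : 1 ≤ w := by
    rw [hw, Nat.one_le_ceil_iff]
    positivity
  obtain ⟨R, hR⟩ : ∃ R : ℕ, R = c.C3 * c.P := ⟨_, rfl⟩
  obtain ⟨C1, hC1⟩ : ∃ C1 : ℝ, C1 = 400 * w + 4 * (c.CL + R * w + 1) +
    8 * (c.CL + R * w + 1) / c.ε := ⟨_, rfl⟩
  have hRw : (0 : ℝ) ≤ R * w := by positivity
  have hpos8 : 0 ≤ 8 * (c.CL + R * w + 1) / c.ε := by positivity
  have hC11 : 1 ≤ C1 := by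
    rw [hC1]
    have : (0 : ℝ) ≤ 400 * w := by positivity
    linarith
  have hC12 : (R : ℝ) * w + 1 ≤ C1 := by
    rw [hC1]
    have : (0 : ℝ) ≤ 400 * w := by positivity
    linarith
  obtain ⟨Λ, hΛ, Ab, J0, hreg⟩ := exists_reg_all c w C1 hC11
  obtain ⟨C, hC⟩ : ∃ C : ℝ, C = c.CL + R * w + 6 * Λ + 1 := ⟨_, rfl⟩
  have hC0 : 1 ≤ C := by
    rw [hC]
    linarith
  have hC2' : c.CL + ((2 * c.C3 : ℕ) : ℝ) * w + 6 * Λ + 1 ≤ C := by
    rw [hC]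
    have h1 : ((2 * c.C3 : ℕ) : ℝ) ≤ R := by
      rw [hR]
      exact_mod_cast hR2
    have h2 : ((2 * c.C3 : ℕ) : ℝ) * w ≤ R * w := mul_le_mul_of_nonneg_right h1 (by positivity)
    linarith
  obtain ⟨φ, hφeq⟩ : ∃ φ : ℝ, φ = Nat.totient (4 * c.K.factorial) := ⟨_, rfl⟩
  have hφ0 : 0 < φ := by rw [hφeq]; exact hφ
  obtain ⟨q, hq⟩ : ∃ q : ℝ, q = c.C2 / c.ch := ⟨_, rfl⟩
  have hq0 : 0 ≤ q := by rw [hq]; positivity
  obtain ⟨a, ha1, haX, haz, haK, haf, haP, haC, haP2, haq, haq2, haφ⟩ : ∃ a : ℝ, 1 ≤ a ∧ (0 : ℝ) ≤ a ∧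
      (c.z0 : ℝ) ≤ a ∧ (c.K : ℝ) + 1 ≤ a ∧ ((4 * c.K.factorial : ℕ) : ℝ) ≤ a ∧
      16 * (c.P : ℝ) ^ 2 * (256 * φ ^ 2) ≤ a ∧ 32 * (c.P : ℝ) ^ 2 * (16 * c.CB) ^ 2 ≤ a ∧
      64 * c.P * c.C2 ≤ a ∧ 32 * q * (φ / c.ch) ≤ a ∧ 72 * q * (φ / c.ch) ≤ a ∧
      4 * (φ / c.ch) ≤ a := by
    have e1 : (0 : ℝ) ≤ 1 := zero_le_one
    have e2 : (0 : ℝ) ≤ c.z0 := Nat.cast_nonneg _
    have e3 : (0 : ℝ) ≤ c.K := Nat.cast_nonneg _
    have e4 : (0 : ℝ) ≤ ((4 * c.K.factorial : ℕ) : ℝ) := Nat.cast_nonneg _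
    have e5 : 0 ≤ 16 * (c.P : ℝ) ^ 2 * (256 * φ ^ 2) := by positivity
    have e6 : 0 ≤ 32 * (c.P : ℝ) ^ 2 * (16 * c.CB) ^ 2 := by positivity
    have e7 : 0 ≤ 64 * c.P * c.C2 := by positivity
    have e8 : 0 ≤ 72 * q * (φ / c.ch) := by positivity
    have e9 : 0 ≤ 4 * (φ / c.ch) := by positivity
    have e10 : 32 * q * (φ / c.ch) ≤ 72 * q * (φ / c.ch) := by
      have : 0 ≤ q * (φ / c.ch) := by positivity
      linarith
    refine ⟨1 + c.z0 + c.K + ((4 * c.K.factorial : ℕ) : ℝ) +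
      16 * (c.P : ℝ) ^ 2 * (256 * φ ^ 2) + 32 * (c.P : ℝ) ^ 2 * (16 * c.CB) ^ 2 + 64 * c.P * c.C2 +
      72 * q * (φ / c.ch) + 4 * (φ / c.ch), ?_, ?_, ?_, ?_, ?_, ?_, ?_, ?_, ?_, ?_, ?_⟩ <;> linarith
  obtain ⟨Z1, hZ1⟩ := grow c.ε hε hε1 1
  obtain ⟨Z2, hZ2⟩ := num1 c.ε c.CL C1 Λ a w R hε hε1 hCL hw1 ha1 hC1.ge
  obtain ⟨Z3, hZ3⟩ := num2 c.ε c.CL C1 Λ a w R hε hε1 hCL hwr ha1 hC12 hΛ
  obtain ⟨Z4, hZ4⟩ := num3 c.ε c.CL C1 Λ C w (2 * c.C3) hε hε1 hCL hC11 hΛ hC2'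
  obtain ⟨Z5, hZ5⟩ := block_size c.ε (c.cA / φ) C hε hε1 (by positivity) hC0
  refine ⟨c.ε, C, Λ, Ab, J0 + Ab + (Z1 + Z2 + Z3 + Z4 + Z5 + c.z0 + (4 * c.K.factorial) ^ 4 + 2),
    hε, hε1, hC0, hΛ, fun J hJ => ?_⟩
  obtain ⟨z, y, W, x, hzJ, hJz, hreg0, hPz, hPx⟩ := hreg J (by omega)
  have hzZ : Z1 + Z2 + Z3 + Z4 + Z5 + c.z0 + (4 * c.K.factorial) ^ 4 + 2 ≤ z := by
    have h1 : 2 ^ (J - Ab) ≤ z := by
      have h2 : 2 ^ J = 2 ^ Ab * 2 ^ (J - Ab) := by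
        rw [← pow_add]
        congr 1
        omega
      rw [h2] at hJz
      exact Nat.le_of_mul_le_mul_left hJz (by positivity)
    have h3 : J - Ab < 2 ^ (J - Ab) := Nat.lt_two_pow_self
    omega
  obtain ⟨hz1, hz2, hz3, hz4, hz5, hz6, hz7, hz8⟩ : Z1 ≤ z ∧ Z2 ≤ z ∧ Z3 ≤ z ∧ Z4 ≤ z ∧ Z5 ≤ z ∧
      c.z0 ≤ z ∧ (4 * c.K.factorial) ^ 4 ≤ z ∧ 2 ≤ z := by
    refine ⟨?_, ?_, ?_, ?_, ?_, ?_, ?_, ?_⟩ <;> omega
  obtain ⟨_, g2, _⟩ := hZ1 z hz1 y hreg0.hy hreg0.hy'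
  obtain ⟨a1, a2, a3, a4, a5, a6, a7, a8, a9, a10, a11, a12⟩ := hZ2 z y W x _ hz2 hreg0
  obtain ⟨b1, b2, b3, b4⟩ := hZ3 z y W x _ hz3 hreg0
  obtain ⟨r, hr⟩ : ∃ r : ℕ, r = ⌈4 * C * y⌉₊ := ⟨_, rfl⟩
  have hr1 : 4 * C * y ≤ r := by
    rw [hr]
    exact Nat.le_ceil _
  have hr2 : (r : ℝ) ≤ 4 * C * y + 1 := by
    rw [hr]
    exact (Nat.ceil_lt_add_one (by positivity)).le
  obtain ⟨X0, hX0⟩ : ∃ X0 : ℕ, X0 = Lc z (cp c.K y) * W ^ (2 * c.C3) * x ^ 6 := ⟨_, rfl⟩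
  obtain ⟨d1, d2, d3, d4, d5, d6, d7⟩ := hZ4 z y W x _ r X0 hz4 hreg0 hr1 hr2 hX0
  have hyr : (1 : ℝ) ≤ y := ha1.trans a1
  have hKy : c.K < y := by
    have h1 : (c.K : ℝ) + 1 ≤ y := haK.trans a1
    have h2 : c.K + 1 ≤ y := by exact_mod_cast h1
    omega
  have hz0y : c.z0 ≤ y := by exact_mod_cast haz.trans a1
  have hz0x : c.z0 ≤ x := by exact_mod_cast haz.trans a2
  have hyW : y < W := by omega
  have hy2 : 2 ≤ y := by omega
  have hx1r : (1 : ℝ) ≤ x := ha1.trans a2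
  have hx0r : (0 : ℝ) < x := by linarith
  have hlx : 0 < Real.log x := by
    have h1 := hreg0.hx
    have h2 : 0 < C1 * y := by positivity
    linarith
  have hzr : (2 : ℝ) ≤ z := by exact_mod_cast hz8
  have hz0r : (0 : ℝ) < z := by linarith
  have hlz : 0 < Real.log z := Real.log_pos (by linarith)
  have hly : 1 ≤ Real.log y := g2
  have hW1 : 1 < W := by omega
  have hWr : (1 : ℝ) < W := by exact_mod_cast hW1
  have hW0 : (0 : ℝ) < W := by linarith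
  have hlW : 0 < Real.log W := Real.log_pos hWr
  have hfx : (4 * c.K.factorial) ^ 400 ≤ x := by
    have h1 : (((4 * c.K.factorial : ℕ) : ℝ)) ^ 400 ≤ x :=
      (pow_le_pow_left₀ (Nat.cast_nonneg _) haf 400).trans a6
    exact_mod_cast h1
  have hPx' : (x : ℝ) / (16 * φ * Real.log x) ≤ ((Pm (4 * c.K.factorial) (x / 2) x).card : ℝ) := by
    rw [hφeq]
    exact hPx
  have hEE : EE (4 * c.K.factorial) x y W =
      (x : ℝ) * Real.log y / (φ * Real.log x * Real.log W) := by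
    unfold EE
    rw [hφeq]
  -- the primes a
  obtain ⟨A0, hA0⟩ : ∃ A0 : Finset ℕ, A0 = (Pm (4 * c.K.factorial) (z / 2) z).filter
      (fun a => ∀ q : ℕ, q.Prime → q ∣ a - 1 → (q : ℝ) ≤ (z : ℝ) ^ (1 / 2 - c.ε)) := ⟨_, rfl⟩
  have hA0c : c.cA * z / (φ * Real.log z) ≤ (A0.card : ℝ) := by
    rw [hA0, hφeq]
    exact c.propA z hz6 hPz
  have hA0s : A0 ⊆ Pm (4 * c.K.factorial) (z / 2) z := by
    rw [hA0]
    exact Finset.filter_subset _ _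
  have hA0y : ∀ a ∈ A0, ∀ q : ℕ, q.Prime → q ∣ a - 1 → q ≤ y := by
    intro a ha q hq1 hq2
    rw [hA0] at ha
    have h1 := (Finset.mem_filter.1 ha).2 q hq1 hq2
    have h2 : (q : ℝ) < y + 1 := lt_of_le_of_lt h1 hreg0.hy'
    have h3 : q < y + 1 := by exact_mod_cast h2
    omega
  obtain ⟨m, hm⟩ : ∃ m : ℕ, m = A0.card / r := ⟨_, rfl⟩
  obtain ⟨e1, e2, e3⟩ := hZ5 z y r A0.card hz5 hreg0.hy hreg0.hy' d7 hr2 (by
    refine le_trans (le_of_eq ?_) hA0c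
    field_simp)
  rw [← hm] at e1 e2 e3
  obtain ⟨A, hA, hdis⟩ := blocks_exist A0 r m (by
    rw [hm]
    exact Nat.mul_div_le _ _)
  have hApr : ∀ j < r, (∀ a ∈ A j, a.Prime ∧ a ≤ z) ∧ (A j).card = m := by
    intro j hj
    refine ⟨fun a ha => ?_, (hA j hj).2⟩
    have h1 := hA0s ((hA j hj).1 ha)
    obtain ⟨h2, h3, _⟩ := Finset.mem_filter.1 h1
    exact ⟨h3, (Finset.mem_Ioc.1 h2).2⟩
  -- the bad characters
  obtain ⟨𝒲, h𝒲⟩ : ∃ 𝒲 : Finset Ch, 𝒲 = (finite_mod X0).toFinset.filter (fun w => Bad A r m w) :=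
    ⟨_, rfl⟩
  have h𝒲m : ∀ w : Ch, w ∈ 𝒲 ↔ (0 < w.1 ∧ w.1 ≤ X0) ∧ Bad A r m w := by
    intro w
    rw [h𝒲, Finset.mem_filter, Set.Finite.mem_toFinset]
    rfl
  have hsum := c.badsum A r m z X0 hz6 d3 d6 d4 e1 d5 hApr hdis 𝒲 (fun w hw =>
    ⟨((h𝒲m w).1 hw).2, ((h𝒲m w).1 hw).1.1, ((h𝒲m w).1 hw).1.2⟩)
  have hGA : 0 ≤ c.CB * z / (Nat.totient (4 * c.K.factorial) * Real.log z) := by positivity
  have hyz2 : y ^ 2 ≤ z := by
    have h1 : (y : ℝ) ^ 2 ≤ z := by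
      have h2 : (z : ℝ) ^ (1 / 2 - c.ε) ≤ (z : ℝ) ^ ((1 : ℝ) / 2) :=
        Real.rpow_le_rpow_of_exponent_le (by linarith) (by linarith)
      have h3 : ((z : ℝ) ^ ((1 : ℝ) / 2)) ^ 2 = z := by
        rw [← Real.rpow_natCast, ← Real.rpow_mul hz0r.le]
        norm_num
      calc (y : ℝ) ^ 2 ≤ ((z : ℝ) ^ ((1 : ℝ) / 2)) ^ 2 :=
            pow_le_pow_left₀ (Nat.cast_nonneg _) (hreg0.hy.trans h2) 2
        _ = z := h3
    exact_mod_cast h1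
  have hWC : ((W : ℝ)) ^ c.C3 ≤ (W : ℝ) ^ R := by
    apply pow_le_pow_right₀ hWr.le
    rw [hR]
    exact hR1
  have hWC2 : ((W : ℝ)) ^ (2 * c.C3) ≤ (W : ℝ) ^ R := by
    apply pow_le_pow_right₀ hWr.le
    rw [hR]
    exact hR2
  refine ⟨{ ε := c.ε, C2 := c.C2, ch := c.ch, GS := 16 * c.CB
            GA := c.CB * z / (Nat.totient (4 * c.K.factorial) * Real.log z)
            C3 := c.C3, P := c.P, N0 := c.N0, K := c.K, z := z, y := y, W := W, x := x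
            r := r, m := m, X0 := X0, A0 := A0, A := A, 𝒲 := 𝒲
            hk := hk
            hε := hε
            hε1 := hε1
            hC2 := hC2
            hch := hch
            hch1 := c.hch1
            hC3 := c.hC3
            hN0 := c.hN0
            hP := c.hP
            hK2 := hK2
            hkK := c.hkK
            hKy := hKy
            hyz := a3
            hzW := a4
            hWx := a5
            hS0 := ?_
            sb := ?_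
            heavy := c.heavy x y W hz0x hy2 hyW a5 hfx hPx
            hGS := by positivity
            btS := fun l hl hyl hlW' =>
              g8_btS c x y W l hz0x hKy hl hyl hlW' a5 hfx hlx hPx
            hGA := hGA
            btA := fun l hl => g8_btA c z y l A0 hz6 hl hyz2 hz7 hA0s
            hA0 := fun a ha => ⟨hA0s ha, hA0y a ha⟩
            hA := hA
            hdis := hdis
            h𝒲pos := fun w hw => ((h𝒲m w).1 hw).1.1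
            h𝒲 := fun w h1 h2 h3 => (h𝒲m w).2 ⟨⟨h2, h3⟩, h1⟩
            h𝒲z := hsum
            hX0 := hX0.ge
            n_y2 := a8
            n_phi := ?_
            n_cop := haC.trans a1
            n_one := ?_
            n_K := c.hK3
            n_z := ?_
            n_big := ?_
            n_W6 := a9
            n_mod := ?_
            n_uc := ?_
            n_D := ?_
            n_m := e2
            n_MW := by
              rw [hR] at a10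
              exact a10
            n_r := d1
            n_m2 := g8_m2 z m c.ε hz0r e1
            n_fin := d2 }, hzJ, hJz, hreg0.hy, hreg0.hy', hr1, hr2, hreg0.hx'⟩
  · have h1 : 0 < (x : ℝ) / (16 * φ * Real.log x) := by positivity
    have h2 := lt_of_lt_of_le h1 hPx'
    exact_mod_cast h2
  · intro M M' b hM hM' hco hp hMW
    have hcard := g8_card y (c.C3 * c.P) W (M * M') hy2 (mul_ne_zero hM hM') hp hMW
      (by rw [hR] at a10; exact a10)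
    refine c.sb z y W x M M' b hKy hz0y hyW a5 hM hM' hco hp hcard ?_
    have h1 : (((4 * c.K.factorial * Lc z (cp c.K y) * M * M' : ℕ)) : ℝ) ≤
        a * (Lc z (cp c.K y) : ℝ) * (W : ℝ) ^ R := by
      have h2 : ((4 * c.K.factorial * Lc z (cp c.K y) * M * M' : ℕ) : ℝ) =
          ((4 * c.K.factorial : ℕ) : ℝ) * (Lc z (cp c.K y) : ℝ) * ((M * M' : ℕ) : ℝ) := by
        push_cast
        ring
      rw [h2]
      have h3 : ((M * M' : ℕ) : ℝ) ≤ (W : ℝ) ^ R := by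
        rw [hR]
        exact_mod_cast hMW
      exact mul_le_mul (mul_le_mul_of_nonneg_right haf (Nat.cast_nonneg _)) h3
        (Nat.cast_nonneg _) (by positivity)
    have h4 : (((4 * c.K.factorial * Lc z (cp c.K y) * M * M' : ℕ)) : ℝ) ^ 4 ≤ x :=
      (pow_le_pow_left₀ (Nat.cast_nonneg _) h1 4).trans a7
    exact_mod_cast h4
  · exact g8_phi x z W (Real.log x) _ φ c.P a _ c.ε hlx hφ0 hPr haP hW0 hx0r hPx' b1
  · rw [hEE]
    exact g8_one x (Real.log x) (Real.log y) (Real.log W) φ c.P c.C2 a _ hlx (by linarith) hlW hφ0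
      haP2 hx0r hPx' a12
  · rw [hEE, ← hq]
    exact g8_z x y z (Real.log x) (Real.log y) (Real.log W) φ q c.ch a hlx hly hlW hφ0 hch
      (by linarith) haq hx0r b3
  · rw [hEE, ← hq]
    refine g8_big x (Real.log x) (Real.log y) (Real.log W) φ q c.ch a _ hlx hly hlW hφ0 hch
      (by positivity) haq2 hx0r ?_
    refine le_trans ?_ b4
    have h1 : a * (W : ℝ) ^ c.C3 ≤ a * (W : ℝ) ^ R := mul_le_mul_of_nonneg_left hWC (by linarith)
    exact mul_le_mul_of_nonneg_right (mul_le_mul_of_nonneg_right h1 hlx.le) hlW.le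
  · refine le_trans ?_ a11
    exact mul_le_mul_of_nonneg_left hWC2 (Nat.cast_nonneg _)
  · rw [hEE]
    exact g8_uc x (Real.log x) (Real.log y) (Real.log W) φ c.ch a W c.ε hlx hly hlW hφ0 hch haφ
      hx0r hW0 b2
  · rw [← hφeq]
    have h1 : 512 * (((c.P : ℝ) * c.N0)) * c.CB ≤ c.cA * c.K := c.hK4
    have h2 : (A0.card : ℝ) ≤ 2 * ((r : ℝ) * m) := by exact_mod_cast e3
    exact g8_D ((c.P : ℝ) * c.N0) c.CB c.cA c.K z (Real.log z) φ ((r : ℝ) * m) A0.card hlz hφ0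
      hz0r (Nat.cast_nonneg _) h1 hA0c h2

end GCN
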