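import Pool.Agent.GCN.Defs

/-!
# [GCN-H1] sums of a nonprincipal character with monotone weights
-/

set_option autoImplicit false

open Finset

namespace GCN

lemma h1_sum_range (q : ℕ) [NeZero q] (F : ZMod q → ℂ) :
    ∑ j ∈ range q, F (j : ZMod q) = ∑ x : ZMod q, F x := by
  refine Finset.sum_bij' (fun j _ => (j : ZMod q)) (fun x _ => x.val) ?_ ?_ ?_ ?_ ?_
  · intro j _
    exact mem_univ _
  · intro x _
    exact mem_range.2 (ZMod.val_lt x)
  · intro j hj
    exact ZMod.val_cast_of_lt (mem_range.1 hj)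
  · intro x _
    exact ZMod.natCast_zmod_val x
  · intro j _
    rfl

lemma h1_period (q : ℕ) [NeZero q] (χ : DirichletCharacter ℂ q) (hχ : χ ≠ 1) (m : ℕ) :
    ∑ n ∈ range (q * m), χ (n : ZMod q) = 0 := by
  induction m with
  | zero => simp
  | succ m ih =>
    rw [Nat.mul_succ, Finset.sum_range_add, ih, zero_add]
    have h1 : ∀ j ∈ range q, χ ((q * m + j : ℕ) : ZMod q) = χ (j : ZMod q) := by
      intro j _
      congr 1
      push_cast
      rw [ZMod.natCast_self, zero_mul, zero_add]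
    rw [Finset.sum_congr rfl h1, h1_sum_range q (fun x => χ x)]
    exact MulChar.sum_eq_zero_of_ne_one hχ

lemma h1_norm_sum (q : ℕ) (χ : DirichletCharacter ℂ q) (s : Finset ℕ) (a : ℕ → ℕ) :
    ‖∑ n ∈ s, χ ((a n : ℕ) : ZMod q)‖ ≤ s.card := by
  calc ‖∑ n ∈ s, χ ((a n : ℕ) : ZMod q)‖ ≤ ∑ _n ∈ s, (1 : ℝ) :=
        norm_sum_le_of_le _ fun n _ => DirichletCharacter.norm_le_one χ _
    _ = s.card := by simp

/-- [H1a] Proof. The sum over `q` consecutive integers is `0` (`DirichletCharacter.sum_eq_zero_of_ne_one`-like: `MulChar.sum_eq_zero_of_ne_one`), so only the last incomplete period (fewer than `q` terms of absolute value `≤ 1`) counts. -/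
theorem char_sum_le (q : ℕ) [NeZero q] (χ : DirichletCharacter ℂ q) (hχ : χ ≠ 1) (N : ℕ) :
    ‖∑ n ∈ range N, χ (n : ZMod q)‖ ≤ q := by
  have hq : 0 < q := Nat.pos_of_ne_zero (NeZero.ne q)
  rw [← Nat.div_add_mod N q, Finset.sum_range_add, h1_period q χ hχ, zero_add]
  refine (h1_norm_sum q χ (range (N % q)) (fun j => q * (N / q) + j)).trans ?_
  rw [card_range]
  exact_mod_cast (Nat.mod_lt N hq).le

/-- [H1b] Proof. Abel summation with `S n = ∑_{j ∈ Ioc M n} χ j`, `‖S n‖ ≤ 2 q` (`char_sum_le`): `∑ χ(n) g(n) = S N g(N) + ∑_{M < n < N} S n (g n - g (n+1))`, so the norm is at most `2 q g(M+1)`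
(if `M = N` the sum is empty; `0 ≤ g (M+1)`). -/
theorem abel_char (q : ℕ) [NeZero q] (χ : DirichletCharacter ℂ q) (hχ : χ ≠ 1) (g : ℕ → ℝ) (M N : ℕ)
    (hg0 : ∀ n, M < n → 0 ≤ g n) (hg : ∀ m n, M < m → m ≤ n → g n ≤ g m) :
    ‖∑ n ∈ Ioc M N, χ (n : ZMod q) * (g n : ℂ)‖ ≤ 2 * q * g (M + 1) := by
  have hq0 : (0 : ℝ) ≤ q := Nat.cast_nonneg q
  have hgM : 0 ≤ g (M + 1) := hg0 _ (Nat.lt_succ_self M)
  have hS : ∀ n, ‖∑ j ∈ Ioc M n, χ (j : ZMod q)‖ ≤ 2 * q := by
    intro n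
    rcases le_or_gt n M with hn | hn
    · rw [Finset.Ioc_eq_empty_of_le hn, Finset.sum_empty, norm_zero]
      positivity
    · have e1 : ∑ j ∈ Ioc M n, χ (j : ZMod q) =
          ∑ j ∈ range (n + 1), χ (j : ZMod q) - ∑ j ∈ range (M + 1), χ (j : ZMod q) := by
        rw [eq_sub_iff_add_eq, add_comm]
        have e2 : Ioc M n = Ico (M + 1) (n + 1) := by
          ext j
          rw [mem_Ioc, mem_Ico]
          omega
        rw [e2]
        exact Finset.sum_range_add_sum_Ico _ (by omega)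
      rw [e1]
      have h1 := char_sum_le q χ hχ (n + 1)
      have h2 := char_sum_le q χ hχ (M + 1)
      have h3 := norm_sub_le (∑ j ∈ range (n + 1), χ (j : ZMod q))
        (∑ j ∈ range (M + 1), χ (j : ZMod q))
      linarith
  rcases le_or_gt N M with hN | hN
  · rw [Finset.Ioc_eq_empty_of_le hN, Finset.sum_empty, norm_zero]
    positivity
  have key : ∀ N, M + 1 ≤ N → ‖(∑ n ∈ Ioc M N, χ (n : ZMod q) * (g n : ℂ)) -
      (∑ j ∈ Ioc M N, χ (j : ZMod q)) * (g N : ℂ)‖ ≤ 2 * q * (g (M + 1) - g N) := by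
    intro N hN
    induction N, hN using Nat.le_induction with
    | base =>
      have e3 : Ioc M (M + 1) = {M + 1} := by
        ext j
        rw [mem_Ioc, mem_singleton]
        omega
      rw [e3, Finset.sum_singleton, Finset.sum_singleton, sub_self, norm_zero, sub_self, mul_zero]
    | succ N hN ih =>
      have e4 : Ioc M (N + 1) = insert (N + 1) (Ioc M N) := by
        ext j
        rw [mem_Ioc, mem_insert, mem_Ioc]
        omega
      have e5 : N + 1 ∉ Ioc M N := by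
        rw [mem_Ioc]
        omega
      rw [e4, Finset.sum_insert e5, Finset.sum_insert e5]
      have e6 : χ ((N + 1 : ℕ) : ZMod q) * (g (N + 1) : ℂ) +
            ∑ n ∈ Ioc M N, χ (n : ZMod q) * (g n : ℂ) -
          (χ ((N + 1 : ℕ) : ZMod q) + ∑ j ∈ Ioc M N, χ (j : ZMod q)) * (g (N + 1) : ℂ) =
          ((∑ n ∈ Ioc M N, χ (n : ZMod q) * (g n : ℂ)) -
            (∑ j ∈ Ioc M N, χ (j : ZMod q)) * (g N : ℂ)) +
          (∑ j ∈ Ioc M N, χ (j : ZMod q)) * ((g N - g (N + 1) : ℝ) : ℂ) := by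
        push_cast
        ring
      rw [e6]
      have hmono : g (N + 1) ≤ g N := hg N (N + 1) (by omega) (by omega)
      have e7 : ‖(∑ j ∈ Ioc M N, χ (j : ZMod q)) * ((g N - g (N + 1) : ℝ) : ℂ)‖ ≤
          2 * q * (g N - g (N + 1)) := by
        rw [norm_mul, Complex.norm_real, Real.norm_of_nonneg (by linarith)]
        exact mul_le_mul_of_nonneg_right (hS N) (by linarith)
      refine (norm_add_le _ _).trans ?_
      linarith
  have h4 := key N hN
  have h5 : ‖(∑ j ∈ Ioc M N, χ (j : ZMod q)) * (g N : ℂ)‖ ≤ 2 * q * g N := by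
    rw [norm_mul, Complex.norm_real, Real.norm_of_nonneg (hg0 N (by omega))]
    exact mul_le_mul_of_nonneg_right (hS N) (hg0 N (by omega))
  have h6 := norm_sub_norm_le (∑ n ∈ Ioc M N, χ (n : ZMod q) * (g n : ℂ))
    ((∑ j ∈ Ioc M N, χ (j : ZMod q)) * (g N : ℂ))
  linarith

end GCN
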