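import Pool.Agent.GCN.H1

/-!
# [GCN-H2] the value at 1
-/

set_option autoImplicit false

open Finset

namespace GCN

theorem h2_a (q : ℕ) [NeZero q] (χ : DirichletCharacter ℂ q) (hχ : χ ≠ 1) (s : ℝ) (hs : 1 < s)
    (N : ℕ) (hN : 1 ≤ N) :
    ‖(∑ n ∈ Icc 1 N, χ (n : ZMod q) / (n : ℂ) ^ (s : ℂ)) - DirichletCharacter.LFunction χ (s : ℂ)‖ ≤
      2 * q / N := by
  have hsr : 1 < ((s : ℂ)).re := by rwa [Complex.ofReal_re]
  have hsum := DirichletCharacter.LSeriesSummable_of_one_lt_re χ hsr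
  have ht : Filter.Tendsto (fun M : ℕ => ∑ n ∈ range (M + 1),
      LSeries.term (fun n : ℕ => χ (n : ZMod q)) (s : ℂ) n) Filter.atTop
      (nhds (DirichletCharacter.LFunction χ (s : ℂ))) := by
    rw [DirichletCharacter.LFunction_eq_LSeries χ hsr]
    have h1 := (Summable.hasSum hsum).tendsto_sum_nat
    exact (Filter.tendsto_add_atTop_iff_nat 1).2 h1
  have hsplit : ∀ M : ℕ, N ≤ M → ∑ n ∈ range (M + 1),
      LSeries.term (fun n : ℕ => χ (n : ZMod q)) (s : ℂ) n =
      (∑ n ∈ Icc 1 N, χ (n : ZMod q) / (n : ℂ) ^ (s : ℂ)) +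
      ∑ n ∈ Ioc N M, χ (n : ZMod q) * (((n : ℝ) ^ (-s) : ℝ) : ℂ) := by
    intro M hM
    have h0 : range (M + 1) = insert 0 (Ioc 0 M) := by
      ext n
      simp only [mem_range, mem_insert, mem_Ioc]
      omega
    have h1 : Icc 1 N = Ioc 0 N := by
      ext n
      simp only [mem_Icc, mem_Ioc]
      omega
    rw [h0, sum_insert (by simp), LSeries.term_zero, zero_add, h1,
      ← sum_Ioc_consecutive _ (Nat.zero_le N) hM]
    congr 1
    · refine sum_congr rfl fun n hn => ?_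
      rw [LSeries.term_of_ne_zero (by have := (mem_Ioc.1 hn).1; omega)]
    · refine sum_congr rfl fun n hn => ?_
      have hn0 : n ≠ 0 := by have := (mem_Ioc.1 hn).1; omega
      rw [LSeries.term_of_ne_zero hn0, div_eq_mul_inv]
      congr 1
      rw [Complex.ofReal_cpow (Nat.cast_nonneg n), Complex.ofReal_neg, Complex.ofReal_natCast,
        Complex.cpow_neg]
  have hb : ∀ M : ℕ, N ≤ M → ‖(∑ n ∈ Icc 1 N, χ (n : ZMod q) / (n : ℂ) ^ (s : ℂ)) -
      ∑ n ∈ range (M + 1), LSeries.term (fun n : ℕ => χ (n : ZMod q)) (s : ℂ) n‖ ≤ 2 * q / N := by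
    intro M hM
    rw [hsplit M hM, sub_add_cancel_left, norm_neg]
    have h2 := abel_char q χ hχ (fun n => (n : ℝ) ^ (-s)) N M
      (fun n _ => Real.rpow_nonneg (Nat.cast_nonneg n) _) (fun m n hm hmn =>
        Real.rpow_le_rpow_of_nonpos (by
          have : 0 < m := by omega
          exact_mod_cast this) (by exact_mod_cast hmn) (by linarith))
    refine h2.trans ?_
    have hN0 : (0 : ℝ) < N := by exact_mod_cast hN
    have h3 : (((N + 1 : ℕ) : ℝ)) ^ (-s) ≤ 1 / N := by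
      have h4 : (((N + 1 : ℕ) : ℝ)) ^ (-s) ≤ (((N + 1 : ℕ) : ℝ)) ^ (-1 : ℝ) :=
        Real.rpow_le_rpow_of_exponent_le (by push_cast; linarith) (by linarith)
      refine h4.trans ?_
      rw [Real.rpow_neg_one, one_div]
      exact inv_anti₀ hN0 (by push_cast; linarith)
    calc 2 * (q : ℝ) * (((N + 1 : ℕ) : ℝ)) ^ (-s) ≤ 2 * q * (1 / N) :=
          mul_le_mul_of_nonneg_left h3 (by positivity)
      _ = 2 * q / N := by ring
  have ht2 := (tendsto_const_nhds (x := ∑ n ∈ Icc 1 N, χ (n : ZMod q) / (n : ℂ) ^ (s : ℂ))).sub ht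
  refine le_of_tendsto ht2.norm ?_
  filter_upwards [Filter.eventually_ge_atTop N] with M hM
  exact hb M hM

/-- [H2] Proof. `L = LFunction χ 1 ≠ 0` (`DirichletCharacter.LFunction_apply_one_ne_zero`). For real `s > 1`: `LFunction χ s = LSeries (χ ·) s = ∑ χ(n)/n^s` (`DirichletCharacter.LFunction_eq_LSeries`), and by `abel_char` with `g n = n^(-s)`,
`M = N` and the upper end tending to infinity: `‖LFunction χ s - ∑_{n ≤ N} χ(n)/n^s‖ ≤ 2 q/(N+1)^s ≤ 2q/N`. For fixed `N` let `s → 1+`: `LFunction χ` is continuous (`DirichletCharacter.differentiable_LFunction` for `χ ≠ 1`), the finite sum too. -/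
theorem L_one (q : ℕ) [NeZero q] (χ : DirichletCharacter ℂ q) (hχ : χ ≠ 1) : ∃ L : ℂ, L ≠ 0 ∧
    ∀ N : ℕ, 1 ≤ N → ‖∑ n ∈ Icc 1 N, χ (n : ZMod q) / (n : ℂ) - L‖ ≤ 2 * q / N := by
  refine ⟨DirichletCharacter.LFunction χ 1, DirichletCharacter.LFunction_apply_one_ne_zero hχ, ?_⟩
  intro N hN
  have hc : Continuous fun s : ℝ => ‖(∑ n ∈ Icc 1 N, χ (n : ZMod q) / (n : ℂ) ^ (s : ℂ)) -
      DirichletCharacter.LFunction χ (s : ℂ)‖ := by
    refine (Continuous.sub ?_ ?_).norm
    · refine continuous_finsetSum _ fun n hn => ?_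
      have hn0 : (n : ℂ) ≠ 0 := by
        have := (mem_Icc.1 hn).1
        exact_mod_cast (by omega : n ≠ 0)
      refine Continuous.div continuous_const ?_ ?_
      · exact continuous_const.cpow Complex.continuous_ofReal (fun s => Or.inl (by
          have := (mem_Icc.1 hn).1
          rw [Complex.natCast_re]
          exact_mod_cast this))
      · intro s
        rw [Complex.cpow_def_of_ne_zero hn0]
        exact Complex.exp_ne_zero _
    · exact (DirichletCharacter.differentiable_LFunction hχ).continuous.comp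
        Complex.continuous_ofReal
  have ht : Filter.Tendsto (fun s : ℝ => ‖(∑ n ∈ Icc 1 N, χ (n : ZMod q) / (n : ℂ) ^ (s : ℂ)) -
      DirichletCharacter.LFunction χ (s : ℂ)‖) (nhdsWithin 1 (Set.Ioi 1))
      (nhds ‖(∑ n ∈ Icc 1 N, χ (n : ZMod q) / (n : ℂ) ^ ((1 : ℝ) : ℂ)) -
      DirichletCharacter.LFunction χ ((1 : ℝ) : ℂ)‖) :=
    (hc.tendsto 1).mono_left nhdsWithin_le_nhds
  have h1 : ‖(∑ n ∈ Icc 1 N, χ (n : ZMod q) / (n : ℂ) ^ ((1 : ℝ) : ℂ)) -
      DirichletCharacter.LFunction χ ((1 : ℝ) : ℂ)‖ ≤ 2 * q / N := by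
    refine le_of_tendsto ht ?_
    filter_upwards [self_mem_nhdsWithin] with s hs
    exact h2_a q χ hχ s hs N hN
  simpa only [Complex.ofReal_one, Complex.cpow_one] using h1

end GCN
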