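import Pool.Agent.GCN.H2

/-!
# [GCN-H3] the sum of `χ(n) Λ(n) / n` is bounded
-/

set_option autoImplicit false

open Finset

namespace GCN

theorem h3_conv (q : ℕ) (χ : DirichletCharacter ℂ q) (N : ℕ) :
    ∑ n ∈ Ioc 0 N, χ (n : ZMod q) * ((Real.log n / n : ℝ) : ℂ) =
    ∑ m ∈ Ioc 0 N, (χ (m : ZMod q) * ((ArithmeticFunction.vonMangoldt m / m : ℝ) : ℂ)) *
      ∑ d ∈ Ioc 0 (N / m), χ (d : ZMod q) / (d : ℂ) := by
  let F : ArithmeticFunction ℂ :=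
    ⟨fun m => χ (m : ZMod q) * ((ArithmeticFunction.vonMangoldt m / m : ℝ) : ℂ), by simp⟩
  let G : ArithmeticFunction ℂ := ⟨fun d => χ (d : ZMod q) / (d : ℂ), by simp⟩
  have h := ArithmeticFunction.sum_Ioc_mul_eq_sum_sum F G N
  refine Eq.trans ?_ h
  refine sum_congr rfl fun n hn => ?_
  have hn0 : n ≠ 0 := by have := (mem_Ioc.1 hn).1; omega
  rw [ArithmeticFunction.mul_apply]
  have h1 : ∀ x ∈ n.divisorsAntidiagonal, F x.1 * G x.2 =
      (χ (n : ZMod q) / (n : ℂ)) * ((ArithmeticFunction.vonMangoldt x.1 : ℝ) : ℂ) := by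
    intro x hx
    have hx1 := Nat.mem_divisorsAntidiagonal.1 hx
    show χ (x.1 : ZMod q) * ((ArithmeticFunction.vonMangoldt x.1 / x.1 : ℝ) : ℂ) *
      (χ (x.2 : ZMod q) / (x.2 : ℂ)) = _
    rw [← hx1.1]
    push_cast
    rw [map_mul]
    ring
  rw [sum_congr rfl h1, ← mul_sum, Nat.sum_divisorsAntidiagonal
    (fun a _ => ((ArithmeticFunction.vonMangoldt a : ℝ) : ℂ)), ← Complex.ofReal_sum,
    ArithmeticFunction.vonMangoldt_sum]
  push_cast
  ring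

theorem h3_lhs (q : ℕ) [NeZero q] (χ : DirichletCharacter ℂ q) (hχ : χ ≠ 1) (N : ℕ) :
    ‖∑ n ∈ Ioc 0 N, χ (n : ZMod q) * ((Real.log n / n : ℝ) : ℂ)‖ ≤ 2 + 2 * q * 2 := by
  have hanti := Real.log_div_self_antitoneOn
  have he : Real.exp 1 ≤ 3 := by
    have := Real.exp_one_lt_d9
    linarith
  have hterm : ∀ n : ℕ, ‖χ (n : ZMod q) * ((Real.log n / n : ℝ) : ℂ)‖ ≤ 1 := by
    intro n
    rw [norm_mul]
    have h1 : ‖χ (n : ZMod q)‖ ≤ 1 := χ.norm_le_one _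
    have h2 : ‖((Real.log n / n : ℝ) : ℂ)‖ ≤ 1 := by
      rw [Complex.norm_real, Real.norm_eq_abs, abs_of_nonneg (div_nonneg
        (Real.log_natCast_nonneg n) (Nat.cast_nonneg n))]
      apply div_le_one_of_le₀ _ (Nat.cast_nonneg n)
      rcases Nat.eq_zero_or_pos n with h0 | h0
      · rw [h0]
        simp
      · have := Real.log_le_sub_one_of_pos (show (0 : ℝ) < n by exact_mod_cast h0)
        linarith
    calc ‖χ (n : ZMod q)‖ * ‖((Real.log n / n : ℝ) : ℂ)‖ ≤ 1 * 1 :=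
          mul_le_mul h1 h2 (norm_nonneg _) zero_le_one
      _ = 1 := one_mul 1
  rcases le_total N 2 with hN | hN
  · calc ‖∑ n ∈ Ioc 0 N, χ (n : ZMod q) * ((Real.log n / n : ℝ) : ℂ)‖ ≤
          ∑ n ∈ Ioc 0 N, ‖χ (n : ZMod q) * ((Real.log n / n : ℝ) : ℂ)‖ := norm_sum_le _ _
      _ ≤ ∑ n ∈ Ioc 0 N, (1 : ℝ) := sum_le_sum fun n _ => hterm n
      _ = N := by simp
      _ ≤ 2 := by exact_mod_cast hN
      _ ≤ 2 + 2 * q * 2 := by
        have : (0 : ℝ) ≤ q := Nat.cast_nonneg q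
        linarith
  · rw [← sum_Ioc_consecutive _ (Nat.zero_le 2) hN]
    refine (norm_add_le _ _).trans (add_le_add ?_ ?_)
    · calc ‖∑ n ∈ Ioc (0 : ℕ) 2, χ (n : ZMod q) * ((Real.log n / n : ℝ) : ℂ)‖ ≤
          ∑ n ∈ Ioc (0 : ℕ) 2, ‖χ (n : ZMod q) * ((Real.log n / n : ℝ) : ℂ)‖ := norm_sum_le _ _
        _ ≤ ∑ n ∈ Ioc (0 : ℕ) 2, (1 : ℝ) := sum_le_sum fun n _ => hterm n
        _ = 2 := by simp
    · have h3 := abel_char q χ hχ (fun n => Real.log n / n) 2 N (fun n _ => div_nonneg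
        (Real.log_natCast_nonneg n) (Nat.cast_nonneg n)) (fun m n hm hmn => by
          have hm3 : (3 : ℝ) ≤ m := by exact_mod_cast hm
          have hmn' : (m : ℝ) ≤ n := by exact_mod_cast hmn
          exact hanti (show Real.exp 1 ≤ (m : ℝ) by linarith)
            (show Real.exp 1 ≤ (n : ℝ) by linarith) hmn')
      refine h3.trans ?_
      have h4 : Real.log ((2 + 1 : ℕ) : ℝ) / ((2 + 1 : ℕ) : ℝ) ≤ 2 := by
        have := Real.log_le_sub_one_of_pos (show (0 : ℝ) < 3 by norm_num)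
        push_cast
        rw [div_le_iff₀ (by norm_num)]
        norm_num at this ⊢
        linarith
      exact mul_le_mul_of_nonneg_left h4 (by positivity)

theorem h3_div (N m : ℕ) (hm : 0 < m) (hmN : m ≤ N) :
    (1 : ℝ) / ((N / m : ℕ) : ℝ) ≤ 2 * m / N := by
  have h1 : 1 ≤ N / m := (Nat.one_le_div_iff hm).2 hmN
  have h2 : N < 2 * (N / m) * m := by
    have h3 := Nat.div_add_mod N m
    have h4 := Nat.mod_lt N hm
    nlinarith
  have hN0 : (0 : ℝ) < N := by exact_mod_cast lt_of_lt_of_le hm hmN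
  have h1' : (0 : ℝ) < ((N / m : ℕ) : ℝ) := by exact_mod_cast h1
  rw [div_le_div_iff₀ h1' hN0]
  have h5 : (N : ℝ) ≤ 2 * ((N / m : ℕ) : ℝ) * m := by exact_mod_cast h2.le
  linarith

/-- [H3] Proof. `log n = ∑_{m ∣ n} Λ(m)` (`ArithmeticFunction.vonMangoldt_sum`), so `∑_{n ≤ N} χ(n) (log n)/n = ∑_{m ≤ N} (χ(m) Λ(m)/m) ∑_{d ≤ N/m} χ(d)/d`. The left side is bounded: `abel_char` with `g n = (log n)/n`, decreasing for `n ≥ 3`, and two
extra terms. On the right replace the inner sum by `L` (`L_one`), error `2q/⌊N/m⌋ ≤ 4 q m/N` each: total error `≤ (4q/N) ∑_{m ≤ N} Λ(m) = 4 q ψ(N)/N ≤ 4 q (log 4 + 4)` (`Chebyshev.psi_le_const_mul_self`). So `‖L ∑_{m ≤ N} χ(m) Λ(m)/m‖ ≤ C'`, `L ≠ 0`. -/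
theorem sum_char_vonMangoldt (q : ℕ) [NeZero q] (χ : DirichletCharacter ℂ q) (hχ : χ ≠ 1) :
    ∃ C : ℝ, ∀ N : ℕ, ‖∑ n ∈ Icc 1 N,
      χ (n : ZMod q) * ((ArithmeticFunction.vonMangoldt n / n : ℝ) : ℂ)‖ ≤ C := by
  obtain ⟨L, hL0, hL⟩ := L_one q χ hχ
  have hLn : 0 < ‖L‖ := norm_pos_iff.2 hL0
  refine ⟨(2 + 2 * q * 2 + 4 * q * (Real.log 4 + 4)) / ‖L‖, fun N => ?_⟩
  have hIcc : Icc 1 N = Ioc 0 N := by
    ext n
    simp only [mem_Icc, mem_Ioc]
    omega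
  rw [hIcc, le_div_iff₀ hLn]
  rcases Nat.eq_zero_or_pos N with hN | hN
  · rw [hN]
    simp only [Ioc_self, sum_empty, norm_zero, zero_mul]
    have : 0 ≤ Real.log 4 := Real.log_nonneg (by norm_num)
    positivity
  have hN0 : (0 : ℝ) < N := by exact_mod_cast hN
  have hdec : (∑ n ∈ Ioc 0 N, χ (n : ZMod q) * ((ArithmeticFunction.vonMangoldt n / n : ℝ) : ℂ)) * L =
      (∑ n ∈ Ioc 0 N, χ (n : ZMod q) * ((Real.log n / n : ℝ) : ℂ)) -
      ∑ m ∈ Ioc 0 N, (χ (m : ZMod q) * ((ArithmeticFunction.vonMangoldt m / m : ℝ) : ℂ)) *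
        ((∑ d ∈ Ioc 0 (N / m), χ (d : ZMod q) / (d : ℂ)) - L) := by
    rw [h3_conv, ← sum_sub_distrib, sum_mul]
    refine sum_congr rfl fun m _ => ?_
    ring
  rw [← norm_mul, hdec]
  refine (norm_sub_le _ _).trans (add_le_add (h3_lhs q χ hχ N) ?_)
  have hpsi : ∑ m ∈ Ioc 0 N, ArithmeticFunction.vonMangoldt m ≤ (Real.log 4 + 4) * N := by
    have h := Chebyshev.psi_le_const_mul_self (x := (N : ℝ)) (Nat.cast_nonneg N)
    rwa [Chebyshev.psi, Nat.floor_natCast] at h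
  calc ‖∑ m ∈ Ioc 0 N, (χ (m : ZMod q) * ((ArithmeticFunction.vonMangoldt m / m : ℝ) : ℂ)) *
        ((∑ d ∈ Ioc 0 (N / m), χ (d : ZMod q) / (d : ℂ)) - L)‖ ≤
      ∑ m ∈ Ioc 0 N, ‖(χ (m : ZMod q) * ((ArithmeticFunction.vonMangoldt m / m : ℝ) : ℂ)) *
        ((∑ d ∈ Ioc 0 (N / m), χ (d : ZMod q) / (d : ℂ)) - L)‖ := norm_sum_le _ _
    _ ≤ ∑ m ∈ Ioc 0 N, (4 * q / N) * ArithmeticFunction.vonMangoldt m := by
      refine sum_le_sum fun m hm => ?_
      obtain ⟨hm0, hmN⟩ := mem_Ioc.1 hm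
      have hm0' : (0 : ℝ) < m := by exact_mod_cast hm0
      have hL1 := hL (N / m) ((Nat.one_le_div_iff hm0).2 hmN)
      have hIcc2 : Icc 1 (N / m) = Ioc 0 (N / m) := by
        ext n
        simp only [mem_Icc, mem_Ioc]
        omega
      rw [hIcc2] at hL1
      have hv : 0 ≤ ArithmeticFunction.vonMangoldt m := ArithmeticFunction.vonMangoldt_nonneg
      rw [norm_mul, norm_mul, Complex.norm_real, Real.norm_eq_abs,
        abs_of_nonneg (div_nonneg hv hm0'.le)]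
      have h1 : ‖χ (m : ZMod q)‖ ≤ 1 := χ.norm_le_one _
      have h2 : ‖χ (m : ZMod q)‖ * (ArithmeticFunction.vonMangoldt m / m) ≤
          ArithmeticFunction.vonMangoldt m / m :=
        mul_le_of_le_one_left (div_nonneg hv hm0'.le) h1
      have h3 : 2 * (q : ℝ) / ((N / m : ℕ) : ℝ) ≤ 2 * q * (2 * m / N) := by
        have := mul_le_mul_of_nonneg_left (h3_div N m hm0 hmN)
          (show (0 : ℝ) ≤ 2 * q by positivity)
        calc 2 * (q : ℝ) / ((N / m : ℕ) : ℝ) = 2 * q * (1 / ((N / m : ℕ) : ℝ)) := by ring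
          _ ≤ _ := this
      calc ‖χ (m : ZMod q)‖ * (ArithmeticFunction.vonMangoldt m / m) *
            ‖(∑ d ∈ Ioc 0 (N / m), χ (d : ZMod q) / (d : ℂ)) - L‖ ≤
            (ArithmeticFunction.vonMangoldt m / m) * (2 * q * (2 * m / N)) :=
            mul_le_mul h2 (hL1.trans h3) (norm_nonneg _) (div_nonneg hv hm0'.le)
        _ = (4 * q / N) * ArithmeticFunction.vonMangoldt m := by
          field_simp
          ring
    _ = (4 * q / N) * ∑ m ∈ Ioc 0 N, ArithmeticFunction.vonMangoldt m := by rw [← mul_sum]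
    _ ≤ (4 * q / N) * ((Real.log 4 + 4) * N) := mul_le_mul_of_nonneg_left hpsi (by positivity)
    _ = 4 * q * (Real.log 4 + 4) := by
      field_simp

end GCN
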