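import Pool.Agent.GCN.H3
import Pool.Agent.EPK.M1b

/-!
# [GCN-H4] Mertens' theorem for the class `-1` modulo `f`
-/

set_option autoImplicit false

open Finset

namespace GCN

theorem h4_log_factorial (N : ℕ) :
    Real.log (N.factorial : ℝ) = ∑ n ∈ Ioc 0 N, Real.log (n : ℝ) := by
  induction N with
  | zero => simp
  | succ N ih =>
    rw [Nat.factorial_succ, Nat.cast_mul, Real.log_mul (by positivity) (by positivity), ih,
      Finset.sum_Ioc_succ_top (Nat.zero_le N), add_comm]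

/-- `∑_{n ≤ N} Λ(n)/n = log N + O(1)` -/
theorem h4_mertens (N : ℕ) (hN : 1 ≤ N) :
    |(∑ n ∈ Icc 1 N, ArithmeticFunction.vonMangoldt n / (n : ℝ)) - Real.log N| ≤
      Real.log 4 + 4 := by
  have hN0 : (0 : ℝ) < N := by exact_mod_cast hN
  have hI : Ioc 0 N = Icc 1 N := by ext x; simp [Nat.succ_le_iff]
  have h1 : Real.log (N.factorial : ℝ) =
      ∑ n ∈ Icc 1 N, ArithmeticFunction.vonMangoldt n * ((N / n : ℕ) : ℝ) := by
    rw [h4_log_factorial, ← hI, ← ArithmeticFunction.sum_Ioc_mul_zeta_eq_sum,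
      ArithmeticFunction.vonMangoldt_mul_zeta]
    rfl
  have h2 : ∑ n ∈ Icc 1 N, ArithmeticFunction.vonMangoldt n * ((N / n : ℕ) : ℝ) ≤
      N * ∑ n ∈ Icc 1 N, ArithmeticFunction.vonMangoldt n / (n : ℝ) := by
    rw [Finset.mul_sum]
    apply Finset.sum_le_sum
    intro n hn
    have h0 : 0 ≤ ArithmeticFunction.vonMangoldt n := ArithmeticFunction.vonMangoldt_nonneg
    have h3 : ((N / n : ℕ) : ℝ) ≤ (N : ℝ) / n := Nat.cast_div_le
    calc ArithmeticFunction.vonMangoldt n * ((N / n : ℕ) : ℝ)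
        ≤ ArithmeticFunction.vonMangoldt n * ((N : ℝ) / n) := mul_le_mul_of_nonneg_left h3 h0
      _ = N * (ArithmeticFunction.vonMangoldt n / (n : ℝ)) := by ring
  have h3 : N * (∑ n ∈ Icc 1 N, ArithmeticFunction.vonMangoldt n / (n : ℝ)) -
      ∑ n ∈ Icc 1 N, ArithmeticFunction.vonMangoldt n ≤
      ∑ n ∈ Icc 1 N, ArithmeticFunction.vonMangoldt n * ((N / n : ℕ) : ℝ) := by
    rw [Finset.mul_sum, ← Finset.sum_sub_distrib]
    apply Finset.sum_le_sum
    intro n hn
    have h0 : 0 ≤ ArithmeticFunction.vonMangoldt n := ArithmeticFunction.vonMangoldt_nonneg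
    have h4 : (N : ℝ) / n < ((N / n : ℕ) : ℝ) + 1 := by
      rw [← Nat.floor_div_eq_div (K := ℝ)]
      exact Nat.lt_floor_add_one _
    have h5 : (N : ℝ) / n - 1 ≤ ((N / n : ℕ) : ℝ) := by linarith
    calc (N : ℝ) * (ArithmeticFunction.vonMangoldt n / (n : ℝ)) - ArithmeticFunction.vonMangoldt n
        = ArithmeticFunction.vonMangoldt n * ((N : ℝ) / n - 1) := by ring
      _ ≤ _ := mul_le_mul_of_nonneg_left h5 h0
  have h4 : ∑ n ∈ Icc 1 N, ArithmeticFunction.vonMangoldt n ≤ (Real.log 4 + 4) * N := by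
    have h5 := Chebyshev.psi_le_const_mul_self (x := (N : ℝ)) hN0.le
    unfold Chebyshev.psi at h5
    rwa [Nat.floor_natCast, hI] at h5
  have h6 := Pool.Agent.Lib.helper94.ANT.log_factorial_le N
  have h7 := Pool.Agent.Lib.helper94.ANT.le_log_factorial (n := N) (by omega)
  have h8 : 0 ≤ Real.log 4 := Real.log_nonneg (by norm_num)
  set S : ℝ := ∑ n ∈ Icc 1 N, ArithmeticFunction.vonMangoldt n / (n : ℝ) with hS
  rw [h1] at h6 h7
  have h9 : (N : ℝ) * S ≤ N * (Real.log N + (Real.log 4 + 4)) := by nlinarith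
  have h10 : (N : ℝ) * (Real.log N - 1) ≤ N * S := by nlinarith
  have h11 := le_of_mul_le_mul_left h9 hN0
  have h12 := le_of_mul_le_mul_left h10 hN0
  rw [abs_le]
  constructor <;> linarith

theorem h4_geom (p : ℕ) (hp : 2 ≤ p) (N : ℕ) :
    ∑ k ∈ Icc 1 N, 1 / (p : ℝ) ^ k ≤ 1 - 1 / (p : ℝ) ^ N := by
  induction N with
  | zero => simp
  | succ N ih =>
    rw [Finset.sum_Icc_succ_top (by omega)]
    have h0 : (0 : ℝ) < (p : ℝ) ^ N := by
      have : (0 : ℝ) < p := by exact_mod_cast (by omega : 0 < p)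
      positivity
    have h1 : (2 : ℝ) ≤ p := by exact_mod_cast hp
    have h2 : 1 / (p : ℝ) ^ (N + 1) + 1 / (p : ℝ) ^ (N + 1) ≤ 1 / (p : ℝ) ^ N := by
      rw [← add_div, div_le_div_iff₀ (by positivity) h0, pow_succ]
      nlinarith
    linarith

/-- the part of the sum not prime to `f` is bounded -/
theorem h4_noncoprime (f : ℕ) (hf : 1 ≤ f) (N : ℕ) :
    ∑ n ∈ (Icc 1 N).filter (fun n => ¬ Nat.Coprime n f),
      ArithmeticFunction.vonMangoldt n / (n : ℝ) ≤ ∑ p ∈ f.primeFactors, Real.log p := by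
  classical
  have hsub : ∑ n ∈ (Icc 1 N).filter (fun n => ¬ Nat.Coprime n f),
      ArithmeticFunction.vonMangoldt n / (n : ℝ) =
      ∑ n ∈ ((Icc 1 N).filter (fun n => ¬ Nat.Coprime n f)).filter (fun n => IsPrimePow n),
      ArithmeticFunction.vonMangoldt n / (n : ℝ) := by
    symm
    apply Finset.sum_subset (Finset.filter_subset _ _)
    intro n hn hn'
    have h1 : ¬ IsPrimePow n := fun h => hn' (Finset.mem_filter.2 ⟨hn, h⟩)
    rw [ArithmeticFunction.vonMangoldt_eq_zero_iff.2 h1, zero_div]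
  rw [hsub]
  have hmaps : ∀ n ∈ ((Icc 1 N).filter (fun n => ¬ Nat.Coprime n f)).filter
      (fun n => IsPrimePow n), n.minFac ∈ f.primeFactors := by
    intro n hn
    rw [Finset.mem_filter, Finset.mem_filter] at hn
    obtain ⟨⟨hnN, hnf⟩, hpp⟩ := hn
    have h1 := Nat.Prime.not_coprime_iff_dvd.1 hnf
    obtain ⟨q, hq, hqn, hqf⟩ := h1
    obtain ⟨p, k, hp, hk, rfl⟩ := (isPrimePow_nat_iff n).1 hpp
    have h2 : q = p := (Nat.prime_dvd_prime_iff_eq hq hp).1 (hq.dvd_of_dvd_pow hqn)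
    rw [Nat.Prime.pow_minFac hp hk.ne', Nat.mem_primeFactors]
    exact ⟨hp, h2 ▸ hqf, by omega⟩
  rw [← Finset.sum_fiberwise_of_maps_to hmaps]
  apply Finset.sum_le_sum
  intro p hp
  have hpp := Nat.prime_of_mem_primeFactors hp
  have hlp : 0 ≤ Real.log p := Real.log_natCast_nonneg p
  have hinj : Set.InjOn (fun k : ℕ => p ^ k) (↑(Icc 1 N) : Set ℕ) :=
    fun a _ b _ h => Nat.pow_right_injective hpp.two_le h
  calc ∑ n ∈ (((Icc 1 N).filter (fun n => ¬ Nat.Coprime n f)).filter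
        (fun n => IsPrimePow n)).filter (fun n => n.minFac = p),
          ArithmeticFunction.vonMangoldt n / (n : ℝ)
      ≤ ∑ n ∈ (Icc 1 N).image (fun k : ℕ => p ^ k),
          ArithmeticFunction.vonMangoldt n / (n : ℝ) := by
        apply Finset.sum_le_sum_of_subset_of_nonneg
        · intro n hn
          rw [Finset.mem_filter, Finset.mem_filter, Finset.mem_filter, Finset.mem_Icc] at hn
          obtain ⟨⟨⟨⟨hn1, hnN⟩, hnf⟩, hpp'⟩, hmin⟩ := hn
          obtain ⟨q, k, hq, hk, rfl⟩ := (isPrimePow_nat_iff n).1 hpp'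
          rw [Nat.Prime.pow_minFac hq hk.ne'] at hmin
          subst hmin
          rw [Finset.mem_image]
          refine ⟨k, Finset.mem_Icc.2 ⟨hk, ?_⟩, rfl⟩
          have := Nat.lt_pow_self hq.one_lt (n := k)
          omega
        · intro n _ _
          exact div_nonneg ArithmeticFunction.vonMangoldt_nonneg (Nat.cast_nonneg n)
    _ = ∑ k ∈ Icc 1 N, Real.log p * (1 / (p : ℝ) ^ k) := by
        rw [Finset.sum_image hinj]
        apply Finset.sum_congr rfl
        intro k hk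
        have hk1 : k ≠ 0 := by
          have := (Finset.mem_Icc.1 hk).1
          omega
        rw [ArithmeticFunction.vonMangoldt_apply_pow hk1,
          ArithmeticFunction.vonMangoldt_apply_prime hpp]
        push_cast
        ring
    _ ≤ Real.log p := by
        rw [← Finset.mul_sum]
        have h1 := h4_geom p hpp.two_le N
        have h2 : 0 ≤ 1 / (p : ℝ) ^ N := by positivity
        nlinarith

/-- the coprime part -/
theorem h4_coprime (f : ℕ) (hf : 1 ≤ f) (N : ℕ) (hN : 1 ≤ N) :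
    |(∑ n ∈ (Icc 1 N).filter (fun n => Nat.Coprime n f),
      ArithmeticFunction.vonMangoldt n / (n : ℝ)) - Real.log N| ≤
      (Real.log 4 + 4) + ∑ p ∈ f.primeFactors, Real.log p := by
  have h1 := h4_mertens N hN
  have h2 := h4_noncoprime f hf N
  have h3 := Finset.sum_filter_add_sum_filter_not (Icc 1 N) (fun n => Nat.Coprime n f)
    (fun n => ArithmeticFunction.vonMangoldt n / (n : ℝ))
  have h4 : 0 ≤ ∑ n ∈ (Icc 1 N).filter (fun n => ¬ Nat.Coprime n f),
      ArithmeticFunction.vonMangoldt n / (n : ℝ) :=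
    Finset.sum_nonneg fun n _ =>
      div_nonneg ArithmeticFunction.vonMangoldt_nonneg (Nat.cast_nonneg n)
  rw [abs_le] at h1 ⊢
  constructor <;> linarith [h1.1, h1.2]

theorem h4_neg_one_iff (f n : ℕ) : ((-1 : ZMod f) = (n : ZMod f)) ↔ f ∣ n + 1 := by
  rw [← ZMod.natCast_eq_zero_iff]
  push_cast
  constructor
  · intro h
    rw [← h]; ring
  · intro h
    exact (eq_neg_of_add_eq_zero_left h).symm

/-- [H4] Proof. For `n` prime to `f` (and trivially otherwise) `[f ∣ n + 1] = (1/φ(f)) ∑_χ χ(-1)⁻¹ χ(n)` (`DirichletCharacter.sum_char_inv_mul_char_eq` with `a = -1`). The nonprincipal characters contribute `O(1)` (H3). The principal one: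
`(1/φ(f)) ∑_{n ≤ N, (n, f) = 1} Λ(n)/n = (1/φ(f)) (∑_{n ≤ N} Λ(n)/n + O_f(1))` (the powers of the primes `p ∣ f` contribute `≤ ∑_{p ∣ f} (log p)/(p-1)`), and `∑_{n ≤ N} Λ(n)/n = log N + O(1)`: `mA_bounds` (`Lib/helper94/ANT/Mertens.lean`) for
the primes, `aux_sum_primes` there for the proper prime powers (`∑_{j ≥ 2} log p/p^j = log p/(p(p-1))`). -/
theorem mertens_ap (f : ℕ) (hf : 1 ≤ f) : ∃ C : ℝ, ∀ N : ℕ, 1 ≤ N →
    |(∑ n ∈ Icc 1 N, if f ∣ n + 1 then ArithmeticFunction.vonMangoldt n / (n : ℝ) else 0) -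
      Real.log N / Nat.totient f| ≤ C := by
  classical
  have : NeZero f := ⟨by omega⟩
  have hC : ∀ χ : DirichletCharacter ℂ f, ∃ C : ℝ, χ ≠ 1 → ∀ N : ℕ, ‖∑ n ∈ Icc 1 N,
      χ (n : ZMod f) * ((ArithmeticFunction.vonMangoldt n / n : ℝ) : ℂ)‖ ≤ C := by
    intro χ
    by_cases hχ : χ = 1
    · exact ⟨0, fun h => absurd hχ h⟩
    · obtain ⟨C, hC⟩ := sum_char_vonMangoldt f χ hχ
      exact ⟨C, fun _ => hC⟩
  choose C hC using hC
  set D : ℝ := (∑ χ ∈ (univ : Finset (DirichletCharacter ℂ f)).erase 1, C χ) +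
    ((Real.log 4 + 4) + ∑ p ∈ f.primeFactors, Real.log p) with hD
  refine ⟨|D|, fun N hN => ?_⟩
  have hφ : 0 < Nat.totient f := Nat.totient_pos.2 hf
  have hφR : (1 : ℝ) ≤ Nat.totient f := by exact_mod_cast hφ
  have ha : IsUnit (-1 : ZMod f) := isUnit_one.neg
  have ha' : IsUnit ((-1 : ZMod f)⁻¹) := by
    rw [ZMod.inv_neg_one]
    exact ha
  set S : ℝ := ∑ n ∈ Icc 1 N, if f ∣ n + 1 then ArithmeticFunction.vonMangoldt n / (n : ℝ) else 0
    with hS
  have h1 : ((Nat.totient f * S : ℝ) : ℂ) = ∑ χ : DirichletCharacter ℂ f, χ (-1 : ZMod f)⁻¹ *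
      ∑ n ∈ Icc 1 N, χ (n : ZMod f) * ((ArithmeticFunction.vonMangoldt n / n : ℝ) : ℂ) := by
    simp_rw [Finset.mul_sum]
    rw [Finset.sum_comm, hS, Finset.mul_sum, Complex.ofReal_sum]
    apply Finset.sum_congr rfl
    intro n hn
    have h2 : ∑ χ : DirichletCharacter ℂ f, χ (-1 : ZMod f)⁻¹ *
        (χ (n : ZMod f) * ((ArithmeticFunction.vonMangoldt n / n : ℝ) : ℂ)) =
        (∑ χ : DirichletCharacter ℂ f, χ (-1 : ZMod f)⁻¹ * χ (n : ZMod f)) *
          ((ArithmeticFunction.vonMangoldt n / n : ℝ) : ℂ) := by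
      rw [Finset.sum_mul]
      exact Finset.sum_congr rfl fun χ _ => by ring
    rw [h2, DirichletCharacter.sum_char_inv_mul_char_eq ℂ ha]
    by_cases h : f ∣ n + 1
    · rw [if_pos h, if_pos ((h4_neg_one_iff f n).2 h)]
      push_cast
      ring
    · rw [if_neg h, if_neg (fun h' => h ((h4_neg_one_iff f n).1 h'))]
      simp
  have h3 : (1 : DirichletCharacter ℂ f) (-1 : ZMod f)⁻¹ *
      ∑ n ∈ Icc 1 N, (1 : DirichletCharacter ℂ f) (n : ZMod f) *
        ((ArithmeticFunction.vonMangoldt n / n : ℝ) : ℂ) =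
      ((∑ n ∈ (Icc 1 N).filter (fun n => Nat.Coprime n f),
        ArithmeticFunction.vonMangoldt n / (n : ℝ) : ℝ) : ℂ) := by
    rw [MulChar.one_apply ha', one_mul, Finset.sum_filter, Complex.ofReal_sum]
    apply Finset.sum_congr rfl
    intro n hn
    by_cases h : Nat.Coprime n f
    · rw [if_pos h, MulChar.one_apply ((ZMod.isUnit_iff_coprime n f).2 h), one_mul]
    · rw [if_neg h, MulChar.map_nonunit _ (fun h' => h ((ZMod.isUnit_iff_coprime n f).1 h'))]
      simp
  have h4 : ((Nat.totient f * S - (∑ n ∈ (Icc 1 N).filter (fun n => Nat.Coprime n f),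
        ArithmeticFunction.vonMangoldt n / (n : ℝ)) : ℝ) : ℂ) =
      ∑ χ ∈ (univ : Finset (DirichletCharacter ℂ f)).erase 1, χ (-1 : ZMod f)⁻¹ *
        ∑ n ∈ Icc 1 N, χ (n : ZMod f) * ((ArithmeticFunction.vonMangoldt n / n : ℝ) : ℂ) := by
    rw [Complex.ofReal_sub, h1, ← Finset.add_sum_erase univ _ (Finset.mem_univ 1), h3]
    ring
  have h5 : |Nat.totient f * S - (∑ n ∈ (Icc 1 N).filter (fun n => Nat.Coprime n f),
        ArithmeticFunction.vonMangoldt n / (n : ℝ))| ≤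
      ∑ χ ∈ (univ : Finset (DirichletCharacter ℂ f)).erase 1, C χ := by
    rw [← Real.norm_eq_abs, ← Complex.norm_real, h4]
    refine (norm_sum_le _ _).trans (Finset.sum_le_sum fun χ hχ => ?_)
    rw [norm_mul]
    have h6 : ‖χ (-1 : ZMod f)⁻¹‖ ≤ 1 := DirichletCharacter.norm_le_one χ _
    have h7 := hC χ (Finset.ne_of_mem_erase hχ) N
    calc _ ≤ 1 * ‖∑ n ∈ Icc 1 N, χ (n : ZMod f) *
          ((ArithmeticFunction.vonMangoldt n / n : ℝ) : ℂ)‖ :=
          mul_le_mul_of_nonneg_right h6 (norm_nonneg _)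
      _ ≤ C χ := by rw [one_mul]; exact h7
  have h6 := h4_coprime f hf N hN
  have h7 : |Nat.totient f * S - Real.log N| ≤ D := by
    rw [abs_le] at h5 h6 ⊢
    rw [hD]
    constructor <;> linarith [h5.1, h5.2, h6.1, h6.2]
  have h8 : S - Real.log N / Nat.totient f =
      (Nat.totient f * S - Real.log N) / Nat.totient f := by
    have : (Nat.totient f : ℝ) ≠ 0 := by linarith
    field_simp
  rw [h8, abs_div, abs_of_pos (by linarith : (0 : ℝ) < Nat.totient f)]
  have h9 : |Nat.totient f * S - Real.log N| / (Nat.totient f : ℝ) ≤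
      |Nat.totient f * S - Real.log N| := div_le_self (abs_nonneg _) hφR
  exact h9.trans (h7.trans (le_abs_self D))

end GCN
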