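import Pool.Agent.GCN.Z7

/-!
# [GCN-Z8] counting the elements of `N_k`
-/

set_option autoImplicit false

open Finset

namespace GCN

theorem z8_inj {ι : Type} [Fintype ι] (A : ι → Finset ℕ)
    (hdis : ∀ i j, i ≠ j → Disjoint (A i) (A j)) (v : ι → ℕ) (hv : ∀ i, v i ∈ A i) :
    Function.Injective v := by
  intro i j hij
  by_contra h
  exact (Finset.disjoint_left.1 (hdis i j h)) (hv i) (hij ▸ hv j)

theorem z8_primeFactors (P : Finset ℕ) (hP : ∀ p ∈ P, p.Prime) : (∏ p ∈ P, p).primeFactors = P :=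
  Nat.primeFactors_prod hP

/-- [Z7c] Proof. The set `P = (image of v) ∪ B`; its product is `∏ v · ∏ B` (the `A i` are pairwise disjoint, and `a ≤ z < s`), different `v` give different sets, so different `n = e ∏ P` (squarefree products of primes determine
the set). `N ∣ ∏ P - κ` and `(p-1)/2 ∣ N`: `mem_Nset`. `0 < n ≤ e z^(#ι) x^(#B) ≤ X`; the set counted by `Ncount` is finite (integers in `(0, X]`). -/
theorem count_ge (k κ : ℤ) (hk : k ≠ 0) (K : ℕ) (hK : 2 ≤ K) (hkK : k.natAbs ≤ K) (e : ℕ)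
    (he : (e = 1 ∧ Odd k ∧ κ = k) ∨ (e = 2 ∧ k = 2 * κ)) {ι : Type} [Fintype ι] [DecidableEq ι]
    (A : ι → Finset ℕ) (B : Finset ℕ) (z x N : ℕ) (hN : 0 < N) (hBc : 2 ≤ B.card)
    (hA : ∀ i, ∀ a ∈ A i, a.Prime ∧ 4 * K.factorial ∣ a + 1 ∧ a ≤ z ∧ (a - 1) / 2 ∣ N)
    (hdis : ∀ i j, i ≠ j → Disjoint (A i) (A j))
    (hB : ∀ s ∈ B, s.Prime ∧ 4 * K.factorial ∣ s + 1 ∧ z < s ∧ s ≤ x ∧ (s - 1) / 2 ∣ N) (X : ℝ)
    (hX : 2 * (z : ℝ) ^ Fintype.card ι * (x : ℝ) ^ B.card ≤ X) (V : Finset (ι → ℕ))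
    (hV : ∀ v ∈ V, (∀ i, v i ∈ A i) ∧ (((∏ i, v i) * ∏ s ∈ B, s : ℕ) : ZMod N) = (κ : ℤ)) :
    V.card ≤ Ncount k X := by
  have he1 : 0 < e ∧ e ≤ 2 := by rcases he with ⟨h, -, -⟩ | ⟨h, -⟩ <;> omega
  -- the sets
  have hdisj : ∀ v ∈ V, Disjoint (univ.image v) B := by
    intro v hv
    rw [Finset.disjoint_left]
    intro a ha hb
    obtain ⟨i, -, rfl⟩ := Finset.mem_image.1 ha
    have h1 := (hA i _ ((hV v hv).1 i)).2.2.1
    have h2 := (hB _ hb).2.2.1
    omega
  have hprod : ∀ v ∈ V, ∏ p ∈ univ.image v ∪ B, p = (∏ i, v i) * ∏ s ∈ B, s := by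
    intro v hv
    rw [Finset.prod_union (hdisj v hv), Finset.prod_image]
    intro a _ b _ h
    exact z8_inj A hdis v (hV v hv).1 h
  have hprime : ∀ v ∈ V, ∀ p ∈ univ.image v ∪ B, p.Prime := by
    intro v hv p hp
    rcases Finset.mem_union.1 hp with h | h
    · obtain ⟨i, -, rfl⟩ := Finset.mem_image.1 h
      exact (hA i _ ((hV v hv).1 i)).1
    · exact (hB _ h).1
  set F : (ι → ℕ) → ℤ := fun v => ((e * ∏ p ∈ univ.image v ∪ B, p : ℕ) : ℤ) with hF
  have hinj : Set.InjOn F V := by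
    intro v hv w hw h
    have hv' : v ∈ V := hv
    have hw' : w ∈ V := hw
    simp only [hF] at h
    have h1 : e * ∏ p ∈ univ.image v ∪ B, p = e * ∏ p ∈ univ.image w ∪ B, p := by exact_mod_cast h
    have h2 := Nat.eq_of_mul_eq_mul_left he1.1 h1
    have h3 : univ.image v ∪ B = univ.image w ∪ B := by
      rw [← z8_primeFactors _ (hprime v hv'), ← z8_primeFactors _ (hprime w hw'), h2]
    funext i
    have h4 : v i ∈ univ.image w ∪ B := by
      rw [← h3]
      exact Finset.mem_union_left _ (Finset.mem_image_of_mem v (Finset.mem_univ i))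
    rcases Finset.mem_union.1 h4 with h5 | h5
    · obtain ⟨j, -, hj⟩ := Finset.mem_image.1 h5
      by_cases hij : j = i
      · rw [hij] at hj
        exact hj.symm
      · exfalso
        exact (Finset.disjoint_left.1 (hdis j i hij)) ((hV w hw').1 j) (hj ▸ (hV v hv').1 i)
    · exfalso
      have h6 := (hA i _ ((hV v hv').1 i)).2.2.1
      have h7 := (hB _ h5).2.2.1
      omega
  have hfin : {n : ℤ | n ∈ Nset k ∧ 0 < n ∧ (n : ℝ) ≤ X}.Finite := by
    apply (Set.finite_Icc (0 : ℤ) ⌊X⌋).subset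
    rintro n ⟨-, h1, h2⟩
    exact ⟨h1.le, Int.le_floor.2 h2⟩
  unfold Ncount
  rw [← Set.ncard_coe_finset V, ← Set.InjOn.ncard_image hinj]
  apply Set.ncard_le_ncard _ hfin
  rintro _ ⟨v, hv, rfl⟩
  have hv' : v ∈ V := hv
  have hpos : 0 < ∏ p ∈ univ.image v ∪ B, p := Finset.prod_pos fun p hp => (hprime v hv' p hp).pos
  refine ⟨?_, ?_, ?_⟩
  · apply mem_Nset k κ hk K hK hkK
    · intro p hp
      refine ⟨hprime v hv' p hp, ?_⟩
      rcases Finset.mem_union.1 hp with h | h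
      · obtain ⟨i, -, rfl⟩ := Finset.mem_image.1 h
        exact (hA i _ ((hV v hv').1 i)).2.1
      · exact (hB _ h).2.1
    · exact hBc.trans (Finset.card_le_card Finset.subset_union_right)
    · exact he
    · intro p hp
      have h1 : (N : ℤ) ∣ ((∏ p ∈ univ.image v ∪ B, p : ℕ) : ℤ) - κ := by
        rw [← ZMod.intCast_zmod_eq_zero_iff_dvd, hprod v hv']
        have := (hV v hv').2
        push_cast at this ⊢
        rw [this]
        simp
      have h2 : (((p - 1) / 2 : ℕ) : ℤ) ∣ (N : ℤ) := by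
        apply Int.natCast_dvd_natCast.2
        rcases Finset.mem_union.1 hp with h | h
        · obtain ⟨i, -, rfl⟩ := Finset.mem_image.1 h
          exact (hA i _ ((hV v hv').1 i)).2.2.2
        · exact (hB _ h).2.2.2.2
      exact h2.trans h1
  · simp only [hF]
    exact_mod_cast Nat.mul_pos he1.1 hpos
  · refine le_trans ?_ hX
    simp only [hF]
    have h1 : ((∏ i, v i : ℕ) : ℝ) ≤ (z : ℝ) ^ Fintype.card ι := by
      have : (∏ i, v i) ≤ ∏ _i : ι, z :=
        Finset.prod_le_prod' fun i _ => (hA i _ ((hV v hv').1 i)).2.2.1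
      rw [Finset.prod_const, Finset.card_univ] at this
      exact_mod_cast this
    have h2 : ((∏ s ∈ B, s : ℕ) : ℝ) ≤ (x : ℝ) ^ B.card := by
      have : (∏ s ∈ B, s) ≤ ∏ _s ∈ B, x := Finset.prod_le_prod' fun s hs => (hB s hs).2.2.2.1
      rw [Finset.prod_const] at this
      exact_mod_cast this
    have h3 : ((e : ℕ) : ℝ) ≤ 2 := by exact_mod_cast he1.2
    rw [hprod v hv']
    push_cast at h1 h2 ⊢
    calc (e : ℝ) * ((∏ i, (v i : ℝ)) * ∏ s ∈ B, (s : ℝ))
        ≤ 2 * ((z : ℝ) ^ Fintype.card ι * (x : ℝ) ^ B.card) := by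
          apply mul_le_mul h3 _ (by positivity) (by norm_num)
          exact mul_le_mul h1 h2 (by positivity) (by positivity)
      _ = 2 * (z : ℝ) ^ Fintype.card ι * (x : ℝ) ^ B.card := by ring

end GCN
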