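import Pool.Agent.GCN.T6a
import Pool.Agent.GCN.Z8

/-!
# [GCN-T6] the combinatorial core
-/

set_option autoImplicit false

open Finset

open scoped Classical

namespace GCN

theorem t6_Lc_pos (z : ℕ) (Q : Finset ℕ) (hQ : ∀ l ∈ Q, l.Prime) : 0 < Lc z Q := by
  unfold Lc
  exact Finset.prod_pos fun l hl => Nat.pow_pos (hQ l hl).pos

/-- the real number inequality -/
theorem t6_real (z x X0 m r n : ℕ) (ε : ℝ) (hε : 0 < ε) (hz : 1 ≤ z) (hX0 : 0 < X0)
    (hn : 7 * r ≤ 8 * n)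
    (n_m2 : (z : ℝ) ^ (1 + 3 * ε / 2) ≤ (15 * m / 16) ^ 2)
    (n_fin : 2 * (x : ℝ) ^ 6 * (36 * X0) ^ 2 ≤ (z : ℝ) ^ (3 * ε / 2 * (7 * r / 8))) :
    (2 * (z : ℝ) ^ n * (x : ℝ) ^ 6) ^ (1 / 2 : ℝ) ≤ (15 * (m : ℝ) / 16) ^ n / (36 * X0) := by
  have hz' : (1 : ℝ) ≤ z := by exact_mod_cast hz
  have hX0' : (0 : ℝ) < X0 := by exact_mod_cast hX0
  have hn' : (7 * (r : ℝ) / 8) ≤ n := by
    have : (7 * (r : ℝ)) ≤ 8 * n := by exact_mod_cast hn
    linarith
  have hnn : (0 : ℝ) ≤ (15 * (m : ℝ) / 16) ^ n / (36 * X0) := by positivity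
  rw [← Real.sqrt_eq_rpow]
  apply Real.sqrt_le_iff.2
  refine ⟨hnn, ?_⟩
  rw [div_pow, le_div_iff₀ (by positivity)]
  have h1 : (z : ℝ) ^ (3 * ε / 2 * (7 * r / 8)) ≤ (z : ℝ) ^ (3 * ε / 2 * (n : ℝ)) := by
    apply Real.rpow_le_rpow_of_exponent_le hz'
    exact mul_le_mul_of_nonneg_left hn' (by positivity)
  have h2 : (z : ℝ) ^ n * (z : ℝ) ^ (3 * ε / 2 * (n : ℝ)) = ((z : ℝ) ^ (1 + 3 * ε / 2)) ^ n := by
    rw [← Real.rpow_natCast ((z : ℝ) ^ (1 + 3 * ε / 2)) n, ← Real.rpow_mul (by positivity),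
      ← Real.rpow_natCast (z : ℝ) n, ← Real.rpow_add (by positivity)]
    congr 1
    ring
  calc 2 * (z : ℝ) ^ n * (x : ℝ) ^ 6 * (36 * (X0 : ℝ)) ^ 2
      = (z : ℝ) ^ n * (2 * (x : ℝ) ^ 6 * (36 * X0) ^ 2) := by ring
    _ ≤ (z : ℝ) ^ n * (z : ℝ) ^ (3 * ε / 2 * (n : ℝ)) :=
        mul_le_mul_of_nonneg_left (n_fin.trans h1) (by positivity)
    _ = ((z : ℝ) ^ (1 + 3 * ε / 2)) ^ n := h2
    _ ≤ ((15 * (m : ℝ) / 16) ^ 2) ^ n := pow_le_pow_left₀ (by positivity) n_m2 n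
    _ = ((15 * (m : ℝ) / 16) ^ n) ^ 2 := by rw [← pow_mul, ← pow_mul, mul_comm 2 n]

variable {k : ℤ} (E : Env k)

/-- [T6b] Proof. `s` from `exists_sel` (T1c), `κ = k`, `e = 1` for odd `k`, `κ = k/2`, `e = 2` for even `k`; `u` from `many_v`. `count_ge` (Z8) with `A j = AD …` (`AD_facts`; disjoint by `hdis`), `B = image u.1 ∪ image u.2`
(6 elements: the triples are injective and `S M`, `S M'` are disjoint as `M ≠ M'`; `∏ B = mprod u`; `s > x/2 > z`), `N = L (M M') Qr`, `X = 2 z^n x^6`, `n = #JJ ≥ 7r/8`. `Π ≥ (15m/16)^n` (`J_facts`), so `Ncount k X ≥ (15m/16)^n/(36 X0)` and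
`X (36 X0)² = z^n (2 x^6 (36 X0)²) ≤ z^n z^((3ε/2)(7r/8)) ≤ (z^(1+3ε/2))^n ≤ (15m/16)^(2n)` (`n_fin`, `n_m2`). So `X^(1/2) ≤ Ncount k X`. `X ≥ x`. -/
theorem final_bounds : ∃ X : ℝ, (E.x : ℝ) ≤ X ∧ (E.z : ℝ) ^ (7 * (E.r : ℝ) / 8) ≤ X ∧
    X ≤ 2 * (E.z : ℝ) ^ E.r * (E.x : ℝ) ^ 6 ∧ X ^ (1 / 2 : ℝ) ≤ Ncount k X := by
  obtain ⟨s⟩ := exists_sel E
  obtain ⟨κ, e, hκ0, hκK, he⟩ : ∃ (κ : ℤ) (e : ℕ), κ ≠ 0 ∧ κ.natAbs ≤ E.K ∧
      ((e = 1 ∧ Odd k ∧ κ = k) ∨ (e = 2 ∧ k = 2 * κ)) := by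
    rcases Int.even_or_odd k with ⟨t, ht⟩ | ho
    · refine ⟨t, 2, ?_, ?_, Or.inr ⟨rfl, by omega⟩⟩
      · rintro rfl
        exact E.hk (by simpa using ht)
      · have := E.hkK
        omega
    · exact ⟨k, 1, E.hk, E.hkK, Or.inl ⟨rfl, ho, rfl⟩⟩
  obtain ⟨u, hu, hcount⟩ := many_v E s κ hκ0 hκK
  obtain ⟨hQ0, hQp, -, hNX, hcop, hdvd⟩ := Qr_facts E s u hu
  have hyK := E.hKy
  have hyz := E.hyz
  have hzW := E.hzW
  have hK2 := E.hK2
  rw [Finset.mem_product] at hu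
  obtain ⟨hu1, hu2⟩ := hu
  have hu1' : (∀ i, u.1 i ∈ E.S' s.D s.M) ∧ Function.Injective u.1 := by
    have h := hu1
    unfold Tri at h
    rw [Finset.mem_filter, Fintype.mem_piFinset] at h
    exact h
  have hu2' : (∀ i, u.2 i ∈ E.S' s.D s.M') ∧ Function.Injective u.2 := by
    have h := hu2
    unfold Tri at h
    rw [Finset.mem_filter, Fintype.mem_piFinset] at h
    exact h
  have hpr' : ∀ p : ℕ, p.Prime → p ∣ s.M' * s.M → E.y < p ∧ p ≤ E.W := by
    intro p hp hd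
    exact s.hpr p hp (by rwa [mul_comm])
  have f1 := fun i => S_facts E s.D s.M s.M' s.hpr s.hM s.hM' (u.1 i) (hu1'.1 i)
  have f2 := fun i => S_facts E s.D s.M' s.M hpr' s.hM' s.hM (u.2 i) (hu2'.1 i)
  have hL : 0 < E.L s.D := by
    apply t6_Lc_pos
    intro l hl
    rw [Finset.mem_sdiff, cp, Finset.mem_filter] at hl
    exact hl.1.2
  set N : ℕ := E.L s.D * (s.M * s.M') * Qr E.W u with hN
  have hNpos : 0 < N := by
    have h1 : 0 < s.M := Nat.pos_of_ne_zero s.hM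
    have h2 : 0 < s.M' := Nat.pos_of_ne_zero s.hM'
    have h3 : 0 < Qr E.W u := Nat.pos_of_ne_zero hQ0
    positivity
  have hX0 : 0 < E.X0 := lt_of_lt_of_le hNpos hNX
  obtain ⟨hJ1, hJ2⟩ := J_facts E s
  -- the set B
  set B1 : Finset ℕ := Finset.univ.image u.1 with hB1
  set B2 : Finset ℕ := Finset.univ.image u.2 with hB2
  have hdisj : Disjoint B1 B2 := by
    rw [Finset.disjoint_left]
    intro a h1 h2
    obtain ⟨i, -, hi⟩ := Finset.mem_image.1 h1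
    obtain ⟨j, -, hj⟩ := Finset.mem_image.1 h2
    have g1 := (f1 i).1
    have g2 := (f2 j).1
    rw [hi] at g1
    rw [hj] at g2
    unfold Env.S SM at g1 g2
    rw [Finset.mem_filter] at g1 g2
    exact s.hne (g1.2.symm.trans g2.2)
  have hBc1 : B1.card = 3 := by
    rw [hB1, Finset.card_image_of_injective _ hu1'.2]; simp
  have hBc2 : B2.card = 3 := by
    rw [hB2, Finset.card_image_of_injective _ hu2'.2]; simp
  have hBc : (B1 ∪ B2).card = 6 := by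
    rw [Finset.card_union_of_disjoint hdisj, hBc1, hBc2]
  have hprodB : ∏ t ∈ B1 ∪ B2, t = mprod u := by
    rw [Finset.prod_union hdisj, hB1, hB2,
      Finset.prod_image (fun a _ b _ h => hu1'.2 h),
      Finset.prod_image (fun a _ b _ h => hu2'.2 h)]
    rfl
  have hc := count_ge k κ E.hk E.K E.hK2 E.hkK e he
    (ι := JJ E.A s.D E.r E.m) (fun j => AD E.A s.D (s.M * s.M') j) (B1 ∪ B2) E.z E.x N hNpos
    (by rw [hBc]; norm_num)
    (by
      intro j a ha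
      have hj : (j : ℕ) < E.r := by
        have := j.2
        unfold JJ at this
        rw [Finset.mem_filter, Finset.mem_range] at this
        exact this.1
      obtain ⟨a1, a2, a3, a4, a5⟩ := AD_facts E s (Qr E.W u) (fun p hp h => (hQp p hp h).1) j hj a ha
      exact ⟨a1, a2, a3, a5⟩)
    (by
      intro i j hij
      have hi' : (i : ℕ) < E.r := by
        have := i.2
        unfold JJ at this
        rw [Finset.mem_filter, Finset.mem_range] at this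
        exact this.1
      have hj' : (j : ℕ) < E.r := by
        have := j.2
        unfold JJ at this
        rw [Finset.mem_filter, Finset.mem_range] at this
        exact this.1
      have := E.hdis i hi' j hj' (fun h => hij (Subtype.ext h))
      refine Finset.disjoint_of_subset_left ?_ (Finset.disjoint_of_subset_right ?_ this)
      · unfold AD
        exact Finset.filter_subset _ _
      · unfold AD
        exact Finset.filter_subset _ _)
    (by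
      intro t ht
      rw [Finset.mem_union] at ht
      rcases ht with ht | ht
      · obtain ⟨i, -, rfl⟩ := Finset.mem_image.1 ht
        obtain ⟨-, g1, g2, g3, -, g4, -⟩ := f1 i
        exact ⟨g1, g2, by omega, g4, (hdvd i).1⟩
      · obtain ⟨i, -, rfl⟩ := Finset.mem_image.1 ht
        obtain ⟨-, g1, g2, g3, -, g4, -⟩ := f2 i
        exact ⟨g1, g2, by omega, g4, (hdvd i).2⟩)
    (2 * (E.z : ℝ) ^ Fintype.card (JJ E.A s.D E.r E.m) * (E.x : ℝ) ^ 6)
    (by rw [hBc])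
    ((Fintype.piFinset (fun j : JJ E.A s.D E.r E.m => AD E.A s.D (s.M * s.M') j)).filter
          (fun v => (((∏ i, v i) * mprod u : ℕ) : ZMod N) = κ))
    (by
      intro v hv
      rw [Finset.mem_filter, Fintype.mem_piFinset] at hv
      refine ⟨hv.1, ?_⟩
      rw [hprodB]
      exact hv.2)
  set n := Fintype.card (JJ E.A s.D E.r E.m) with hn
  have hncard : n = (JJ E.A s.D E.r E.m).card := by
    rw [hn]; exact Fintype.card_coe _
  have hprod : (15 * (E.m : ℝ) / 16) ^ n ≤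
      ∏ j : JJ E.A s.D E.r E.m, ((AD E.A s.D (s.M * s.M') j).card : ℝ) := by
    have : (15 * (E.m : ℝ) / 16) ^ n =
        ∏ _j : JJ E.A s.D E.r E.m, (15 * (E.m : ℝ) / 16) := by
      rw [Finset.prod_const, Finset.card_univ]
    rw [this]
    apply Finset.prod_le_prod
    · intro _ _; positivity
    · intro j _
      have := hJ2 j j.2
      have h' : (15 * (E.m : ℝ)) ≤ 16 * ((AD E.A s.D (s.M * s.M') j).card : ℝ) := by
        exact_mod_cast this
      linarith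
  have hX0' : (0 : ℝ) < E.X0 := by exact_mod_cast hX0
  have hz1 : 1 ≤ E.z := by omega
  have hreal := t6_real E.z E.x E.X0 E.m E.r n E.ε E.hε hz1 hX0 (by rw [hncard]; exact hJ1)
    E.n_m2 E.n_fin
  have hx1 : 1 ≤ E.x := by
    have h := E.hWx
    have : 0 < E.W := by omega
    exact le_trans (Nat.one_le_pow _ _ this) h
  have hx1' : (1 : ℝ) ≤ E.x := by exact_mod_cast hx1
  have hz1' : (1 : ℝ) ≤ E.z := by exact_mod_cast hz1
  refine ⟨2 * (E.z : ℝ) ^ n * (E.x : ℝ) ^ 6, ?_, ?_, ?_, ?_⟩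
  · have h1 : (1 : ℝ) ≤ (E.z : ℝ) ^ n := one_le_pow₀ hz1'
    have h2 : (E.x : ℝ) ≤ (E.x : ℝ) ^ 6 := by
      calc (E.x : ℝ) = (E.x : ℝ) ^ 1 := (pow_one _).symm
        _ ≤ (E.x : ℝ) ^ 6 := pow_le_pow_right₀ hx1' (by norm_num)
    calc (E.x : ℝ) ≤ 1 * (E.x : ℝ) ^ 6 := by rw [one_mul]; exact h2
      _ ≤ (2 * (E.z : ℝ) ^ n) * (E.x : ℝ) ^ 6 := by
          apply mul_le_mul_of_nonneg_right _ (by positivity)
          linarith
  · have h1 : (E.z : ℝ) ^ (7 * (E.r : ℝ) / 8) ≤ (E.z : ℝ) ^ n := by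
      rw [← Real.rpow_natCast]
      apply Real.rpow_le_rpow_of_exponent_le hz1'
      rw [hncard]
      have h2 : (7 * (E.r : ℝ)) ≤ 8 * ((JJ E.A s.D E.r E.m).card : ℝ) := by exact_mod_cast hJ1
      linarith
    have h2 : (1 : ℝ) ≤ (E.x : ℝ) ^ 6 := one_le_pow₀ hx1'
    have h3 : (0 : ℝ) ≤ (E.z : ℝ) ^ n := by positivity
    nlinarith
  · have hnr : n ≤ E.r := by
      rw [hncard]
      calc (JJ E.A s.D E.r E.m).card ≤ (range E.r).card := by
            apply Finset.card_le_card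
            unfold JJ
            exact Finset.filter_subset _ _
        _ = E.r := Finset.card_range _
    have h1 : (E.z : ℝ) ^ n ≤ (E.z : ℝ) ^ E.r := pow_le_pow_right₀ hz1' hnr
    have h2 : (0 : ℝ) ≤ (E.x : ℝ) ^ 6 := by positivity
    nlinarith
  · refine hreal.trans ?_
    refine le_trans ?_ (hcount.trans ?_)
    · exact div_le_div_of_nonneg_right hprod (by positivity)
    · exact_mod_cast hc

theorem final : ∃ X : ℝ, (E.x : ℝ) ≤ X ∧ X ^ (1 / 2 : ℝ) ≤ Ncount k X := by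
  obtain ⟨X, h1, -, -, h2⟩ := final_bounds E
  exact ⟨X, h1, h2⟩

end GCN
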