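import Pool.Agent.GCN.G8s
import Pool.Agent.GCN.T6

/-!
# [GCN-H7] a power of `X` for all large `X`
-/

set_option autoImplicit false

open Finset

namespace GCN

theorem h7_finite (k : ℤ) (X : ℝ) : {n : ℤ | n ∈ Nset k ∧ 0 < n ∧ (n : ℝ) ≤ X}.Finite := by
  apply (Set.finite_Icc (0 : ℤ) ⌊X⌋).subset
  rintro n ⟨-, h1, h2⟩
  exact ⟨h1.le, Int.le_floor.2 h2⟩

theorem ncount_mono (k : ℤ) {X Y : ℝ} (h : X ≤ Y) : Ncount k X ≤ Ncount k Y := by
  unfold Ncount
  apply Set.ncard_le_ncard _ (h7_finite k Y)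
  rintro n ⟨h0, h1, h2⟩
  exact ⟨h0, h1, h2.trans h⟩

/-- one scale -/
theorem h7_scale (k : ℤ) (hk : k ≠ 0) : ∃ (θ D c : ℝ) (J1 : ℕ), 0 < θ ∧ θ ≤ 1 ∧ 1 ≤ D ∧ 0 < c ∧
    1 ≤ J1 ∧ ∀ J : ℕ, J1 ≤ J → ∃ X : ℝ, 0 < X ∧ Real.log X ≤ D * ((2 : ℝ) ^ (θ * J) * J) ∧
      c * ((2 : ℝ) ^ (θ * J) * J) ≤ Real.log X ∧ X ^ (1 / 2 : ℝ) ≤ Ncount k X := by
  obtain ⟨ε, C, Λ, A, J0, hε, hε1, hC, hΛ, h⟩ := exists_env_all k hk
  refine ⟨1 / 2 - ε, 5 * C + 6 * Λ + 1, 1 / (8 * 2 ^ A), J0 + 2 * A + 20, by linarith, by linarith,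
    by linarith, by positivity, by omega, fun J hJ => ?_⟩
  obtain ⟨E, h1, h2, h3, h4, h5, h6, h7⟩ := h J (by omega)
  obtain ⟨X, hX1, hX2, hX3, hX4⟩ := final_bounds E
  have hlog2 := Real.log_two_gt_d9
  have hlog2' := Real.log_two_lt_d9
  have hK2 := E.hK2
  have hKy := E.hKy
  have hyz := E.hyz
  have hzW := E.hzW
  have hy1 : (1 : ℝ) ≤ E.y := by exact_mod_cast (by omega : 1 ≤ E.y)
  have hy2 : (2 : ℝ) ≤ E.y := by exact_mod_cast (by omega : 2 ≤ E.y)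
  have hz1 : (1 : ℝ) ≤ E.z := by exact_mod_cast (by omega : 1 ≤ E.z)
  have hz3 : (3 : ℝ) ≤ E.z := by exact_mod_cast (by omega : 3 ≤ E.z)
  have hx1 : (1 : ℝ) ≤ E.x := by
    have h := E.hWx
    have : 0 < E.W := by omega
    exact_mod_cast le_trans (Nat.one_le_pow _ _ this) h
  have hXpos : 0 < X := lt_of_lt_of_le (by linarith) hX1
  have hlz : 1 ≤ Real.log E.z := by
    rw [Real.le_log_iff_exp_le (by linarith)]
    exact (Real.exp_one_lt_d9.le.trans (by norm_num)).trans hz3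
  have hlz2 : Real.log E.z ≤ J := by
    have : Real.log E.z ≤ Real.log ((2 : ℝ) ^ J) :=
      Real.log_le_log (by linarith) (by exact_mod_cast h1)
    rw [Real.log_pow] at this
    have h0 : (0 : ℝ) ≤ J := Nat.cast_nonneg J
    nlinarith
  have hJr : (20 : ℝ) ≤ J := by exact_mod_cast (by omega : 20 ≤ J)
  have hzθ : (E.z : ℝ) ^ (1 / 2 - ε) ≤ (2 : ℝ) ^ ((1 / 2 - ε) * J) := by
    have e1 : (2 : ℝ) ^ ((1 / 2 - ε) * J) = ((2 : ℝ) ^ J) ^ (1 / 2 - ε) := by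
      rw [← Real.rpow_natCast 2 J, ← Real.rpow_mul (by norm_num)]
      congr 1
      ring
    rw [e1]
    exact Real.rpow_le_rpow (by linarith) (by exact_mod_cast h1) (by linarith)
  have hzθ' : (2 : ℝ) ^ ((1 / 2 - ε) * J) ≤ 2 ^ A * (E.z : ℝ) ^ (1 / 2 - ε) := by
    have e1 : (2 : ℝ) ^ ((1 / 2 - ε) * J) = ((2 : ℝ) ^ J) ^ (1 / 2 - ε) := by
      rw [← Real.rpow_natCast 2 J, ← Real.rpow_mul (by norm_num)]
      congr 1
      ring
    rw [e1]
    have e2 : ((2 : ℝ) ^ J) ≤ 2 ^ A * E.z := by exact_mod_cast h2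
    calc ((2 : ℝ) ^ J) ^ (1 / 2 - ε) ≤ (2 ^ A * E.z) ^ (1 / 2 - ε) :=
          Real.rpow_le_rpow (by positivity) e2 (by linarith)
      _ = ((2 : ℝ) ^ A) ^ (1 / 2 - ε) * (E.z : ℝ) ^ (1 / 2 - ε) :=
          Real.mul_rpow (by positivity) (by positivity)
      _ ≤ 2 ^ A * (E.z : ℝ) ^ (1 / 2 - ε) := by
          apply mul_le_mul_of_nonneg_right _ (by positivity)
          calc ((2 : ℝ) ^ A) ^ (1 / 2 - ε) ≤ ((2 : ℝ) ^ A) ^ (1 : ℝ) :=
                Real.rpow_le_rpow_of_exponent_le (one_le_pow₀ (by norm_num)) (by linarith)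
            _ = 2 ^ A := Real.rpow_one _
  have hyJ : (E.y : ℝ) ≤ (2 : ℝ) ^ ((1 / 2 - ε) * J) := h3.trans hzθ
  refine ⟨X, hXpos, ?_, ?_, hX4⟩
  · have e1 : Real.log X ≤ Real.log 2 + E.r * Real.log E.z + 6 * Real.log E.x := by
      have := Real.log_le_log hXpos hX3
      rw [Real.log_mul (by positivity) (by positivity), Real.log_mul (by norm_num) (by positivity),
        Real.log_pow, Real.log_pow] at this
      push_cast at this
      exact this
    have e2 : (E.r : ℝ) * Real.log E.z ≤ (4 * C * E.y + 1) * Real.log E.z :=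
      mul_le_mul_of_nonneg_right h6 (by linarith)
    have e3 : Real.log X ≤ (5 * C + 6 * Λ + 1) * (E.y * Real.log E.z) := by
      have a1 : (1 : ℝ) * Real.log E.z ≤ E.y * Real.log E.z :=
        mul_le_mul_of_nonneg_right hy1 (by linarith)
      have a2 : (E.y : ℝ) * 1 ≤ E.y * Real.log E.z := mul_le_mul_of_nonneg_left hlz (by linarith)
      have a3 : Real.log 2 ≤ E.y * Real.log E.z := by nlinarith
      have a4 : 6 * Real.log E.x ≤ 6 * Λ * (E.y * Real.log E.z) := by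
        have : Λ * E.y ≤ Λ * (E.y * Real.log E.z) := mul_le_mul_of_nonneg_left (by linarith) (by linarith)
        linarith
      have a5 : (E.y * Real.log E.z) ≤ C * (E.y * Real.log E.z) :=
        le_mul_of_one_le_left (by positivity) hC
      nlinarith
    refine e3.trans (mul_le_mul_of_nonneg_left ?_ (by linarith))
    exact mul_le_mul hyJ hlz2 (by linarith) (by positivity)
  · have e1 : 7 * (E.r : ℝ) / 8 * Real.log E.z ≤ Real.log X := by
      have := Real.log_le_log (by positivity) hX2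
      rwa [Real.log_rpow (by linarith)] at this
    have e2 : (E.y : ℝ) * Real.log E.z ≤ 7 * (E.r : ℝ) / 8 * Real.log E.z := by
      apply mul_le_mul_of_nonneg_right _ (by linarith)
      have : (1 : ℝ) * E.y ≤ C * E.y := mul_le_mul_of_nonneg_right hC (by linarith)
      linarith
    have e3 : (E.z : ℝ) ^ (1 / 2 - ε) / 2 ≤ E.y := by linarith
    have e4 : (J : ℝ) / 4 ≤ Real.log E.z := by
      have a1 : Real.log ((2 : ℝ) ^ J) ≤ Real.log (2 ^ A * E.z) :=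
        Real.log_le_log (by positivity) (by exact_mod_cast h2)
      rw [Real.log_mul (by positivity) (by positivity), Real.log_pow, Real.log_pow] at a1
      have a2 : (2 * (A : ℝ)) ≤ J := by exact_mod_cast (by omega : 2 * A ≤ J)
      nlinarith
    have e5 : 1 / (8 * 2 ^ A) * ((2 : ℝ) ^ ((1 / 2 - ε) * J) * J) ≤ E.y * Real.log E.z := by
      have b1 : 1 / (2 * 2 ^ A) * (2 : ℝ) ^ ((1 / 2 - ε) * J) ≤ E.y := by
        refine le_trans ?_ e3
        rw [div_mul_eq_mul_div, div_le_div_iff₀ (by positivity) (by norm_num)]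
        nlinarith
      calc 1 / (8 * 2 ^ A) * ((2 : ℝ) ^ ((1 / 2 - ε) * J) * J)
          = (1 / (2 * 2 ^ A) * (2 : ℝ) ^ ((1 / 2 - ε) * J)) * (J / 4) := by
            field_simp
            ring
        _ ≤ E.y * Real.log E.z := mul_le_mul b1 e4 (by positivity) (by linarith)
    linarith

/-- `N_k(X) ≥ X ^ c` for all large `X` -/
theorem large_all (k : ℤ) (hk : k ≠ 0) : ∃ c X1 : ℝ, 0 < c ∧ ∀ X : ℝ, X1 ≤ X → X ^ c ≤ Ncount k X := by
  obtain ⟨θ, D, c, J1, hθ, hθ1, hD, hc, hJ1, h⟩ := h7_scale k hk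
  set u : ℕ → ℝ := fun J => D * ((2 : ℝ) ^ (θ * J) * J) with hu
  have hu1 : ∀ J : ℕ, 1 ≤ J → u (J + 1) ≤ 4 * u J := by
    intro J hJ
    have hJ' : (1 : ℝ) ≤ J := by exact_mod_cast hJ
    simp only [hu]
    have e1 : (2 : ℝ) ^ (θ * ((J + 1 : ℕ) : ℝ)) = (2 : ℝ) ^ (θ * J) * (2 : ℝ) ^ θ := by
      rw [← Real.rpow_add (by norm_num)]
      congr 1
      push_cast
      ring
    have e2 : (2 : ℝ) ^ θ ≤ 2 := by
      calc (2 : ℝ) ^ θ ≤ (2 : ℝ) ^ (1 : ℝ) :=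
            Real.rpow_le_rpow_of_exponent_le (by norm_num) hθ1
        _ = 2 := Real.rpow_one _
    rw [e1]
    have e3 : (0 : ℝ) < (2 : ℝ) ^ (θ * J) := by positivity
    have e4 : (2 : ℝ) ^ (θ * J) * (2 : ℝ) ^ θ * ((J + 1 : ℕ) : ℝ) ≤ (2 : ℝ) ^ (θ * J) * 2 * (2 * J) := by
      push_cast
      apply mul_le_mul (mul_le_mul_of_nonneg_left e2 e3.le) (by linarith) (by positivity)
        (by positivity)
    calc D * ((2 : ℝ) ^ (θ * J) * (2 : ℝ) ^ θ * ((J + 1 : ℕ) : ℝ))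
        ≤ D * ((2 : ℝ) ^ (θ * J) * 2 * (2 * J)) := mul_le_mul_of_nonneg_left e4 (by linarith)
      _ = 4 * (D * ((2 : ℝ) ^ (θ * J) * J)) := by ring
  have hu2 : ∀ J : ℕ, (J : ℝ) ≤ u J := by
    intro J
    simp only [hu]
    have e1 : (1 : ℝ) ≤ (2 : ℝ) ^ (θ * J) := Real.one_le_rpow (by norm_num) (by positivity)
    have e0 : (0 : ℝ) ≤ J := Nat.cast_nonneg J
    have e2 : (J : ℝ) ≤ (2 : ℝ) ^ (θ * J) * J := le_mul_of_one_le_left e0 e1
    have e3 : (2 : ℝ) ^ (θ * J) * J ≤ D * ((2 : ℝ) ^ (θ * J) * J) :=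
      le_mul_of_one_le_left (by positivity) hD
    linarith
  refine ⟨c / (8 * D), Real.exp (u J1), by positivity, fun X hX => ?_⟩
  have hXpos : 0 < X := lt_of_lt_of_le (Real.exp_pos _) hX
  have hlX : u J1 ≤ Real.log X := (Real.le_log_iff_exp_le hXpos).2 hX
  -- the largest J with u J ≤ log X
  obtain ⟨J, hJ1', hJ2, hJ3⟩ : ∃ J : ℕ, J1 ≤ J ∧ u J ≤ Real.log X ∧ Real.log X < u (J + 1) := by
    by_contra hcon
    push Not at hcon
    have : ∀ J : ℕ, J1 ≤ J → u J ≤ Real.log X := by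
      intro J hJ
      induction J, hJ using Nat.le_induction with
      | base => exact hlX
      | succ n hn ih => exact hcon n hn ih
    obtain ⟨m, hm⟩ := exists_nat_gt (Real.log X)
    have h1 := this (max J1 m) (le_max_left _ _)
    have h2 := hu2 (max J1 m)
    have h3 : (m : ℝ) ≤ (max J1 m : ℕ) := by exact_mod_cast le_max_right J1 m
    linarith
  obtain ⟨Y, hY0, hY1, hY2, hY3⟩ := h J hJ1'
  have hYX : Y ≤ X := by
    rw [← Real.log_le_log_iff hY0 hXpos]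
    exact hY1.trans hJ2
  have e1 : Real.log X ≤ 4 * u J := hJ3.le.trans (hu1 J (by omega))
  have e2 : c / (8 * D) * Real.log X ≤ 1 / 2 * Real.log Y := by
    have f1 : c / (8 * D) * Real.log X ≤ c / (8 * D) * (4 * u J) :=
      mul_le_mul_of_nonneg_left e1 (by positivity)
    have f2 : c / (8 * D) * (4 * u J) = 1 / 2 * (c * ((2 : ℝ) ^ (θ * J) * J)) := by
      simp only [hu]
      field_simp
      ring
    rw [f2] at f1
    linarith
  calc X ^ (c / (8 * D)) = Real.exp (c / (8 * D) * Real.log X) := by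
        rw [Real.rpow_def_of_pos hXpos, mul_comm]
    _ ≤ Real.exp (1 / 2 * Real.log Y) := Real.exp_le_exp.2 e2
    _ = Y ^ (1 / 2 : ℝ) := by rw [Real.rpow_def_of_pos hY0, mul_comm]
    _ ≤ Ncount k Y := hY3
    _ ≤ Ncount k X := by exact_mod_cast ncount_mono k hYX

end GCN
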