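import Pool.Agent.LPX.V1
import Pool.Agent.EPK.V1b
import Pool.Agent.EPK.M1b
import Pool.Agent.MP_de0709_nt.V
import Pool.Agent.MP_ffd2b5_nt.LF
import Pool.Agent.IDE.SV2
import Pool.Agent.LBS.S2
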