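import Pool.Agent.GCN.G8
import Pool.Agent.GCN.T6
import Pool.Agent.GCN.H7

/-!
# [GCN] the theorem
-/

set_option autoImplicit false

open Finset

namespace GCN

/-- `N_k(X) ≥ X^(1/2)` for arbitrarily large `X` -/
theorem large_count (k : ℤ) (hk : k ≠ 0) (X0 : ℝ) :
    ∃ X : ℝ, X0 ≤ X ∧ X ^ (1 / 2 : ℝ) ≤ Ncount k X := by
  obtain ⟨E, hE⟩ := exists_env k hk X0
  obtain ⟨X, hX, h⟩ := final E
  exact ⟨X, hE.trans hX, h⟩

theorem nset_infinite (k : ℤ) (hk : k ≠ 0) : (Nset k).Infinite := by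
  intro hfin
  obtain ⟨X, hX, h⟩ := large_count k hk (((Nset k).ncard + 1 : ℕ) ^ 2 : ℝ)
  have h0 : (0 : ℝ) ≤ (((Nset k).ncard + 1 : ℕ) : ℝ) := by positivity
  have h1 : (((Nset k).ncard + 1 : ℕ) : ℝ) ≤ X ^ (1 / 2 : ℝ) := by
    have := Real.rpow_le_rpow (by positivity) hX (by norm_num : (0 : ℝ) ≤ 1 / 2)
    rw [← Real.sqrt_eq_rpow, Real.sqrt_sq h0, ] at this
    simpa [Real.sqrt_eq_rpow] using this
  have h2 : Ncount k X ≤ (Nset k).ncard := by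
    unfold Ncount
    exact Set.ncard_le_ncard (fun n hn => hn.1) hfin
  have h3 : (((Nset k).ncard + 1 : ℕ) : ℝ) ≤ ((Nset k).ncard : ℝ) :=
    h1.trans (h.trans (by exact_mod_cast h2))
  push_cast at h3
  linarith

end GCN
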