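import Pool.Agent.GCN.N1

/-!
# [GCN-P1] pairs of primes: the bad characters with modulus built from the two parts
-/

set_option autoImplicit false

open Finset

namespace GCN

theorem p1_count (T : Finset ℕ) (x : ℕ) (hT : ∀ s ∈ T, 3 ≤ s ∧ s ≤ x ∧ ¬ 2 ∣ s) (S : Set ℕ) (u : ℕ) :
    ∑ s ∈ T, (if u ∣ prt S ((s - 1) / 2) then (1 : ℝ) else 0) ≤ (x : ℝ) / u := by
  rw [← Finset.sum_filter, Finset.sum_const, nsmul_eq_mul, mul_one]
  have h1 : (T.filter fun s => u ∣ prt S ((s - 1) / 2)).card ≤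
      ((Ioc 0 x).filter (fun n => u ∣ n)).card := by
    apply Finset.card_le_card_of_injOn (fun s => s - 1)
    · intro s hs
      simp only [Finset.coe_filter, Set.mem_setOf_eq] at hs
      obtain ⟨hs1, hs2⟩ := hs
      obtain ⟨h3, h4, h5⟩ := hT s hs1
      simp only [Finset.coe_filter, Finset.mem_Ioc, Set.mem_setOf_eq]
      refine ⟨⟨by omega, by omega⟩, ?_⟩
      refine (hs2.trans (prt_dvd _ _)).trans ?_
      refine Nat.div_dvd_of_dvd ?_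
      omega
    · intro s hs s' hs' h
      simp only [Finset.coe_filter, Set.mem_setOf_eq] at hs hs'
      have := hT s hs.1
      have := hT s' hs'.1
      simp only at h
      omega
  rw [Nat.Ioc_filter_dvd_card_eq_div] at h1
  calc (((T.filter fun s => u ∣ prt S ((s - 1) / 2)).card : ℕ) : ℝ) ≤ ((x / u : ℕ) : ℝ) := by
        exact_mod_cast h1
    _ ≤ (x : ℝ) / u := Nat.cast_div_le

theorem p1_pairs (T : Finset ℕ) (x : ℕ) (hT : ∀ s ∈ T, 3 ≤ s ∧ s ≤ x ∧ ¬ 2 ∣ s) (S : Set ℕ) (r : ℕ)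
    (hr : r ≠ 0) :
    ∑ s ∈ T, ∑ s' ∈ T, (if r ∣ prt S ((s - 1) / 2) * prt S ((s' - 1) / 2) then (1 : ℝ) else 0) ≤
      (r.divisors.card : ℝ) * ((x : ℝ) ^ 2 / r) := by
  have h1 : ∀ s s' : ℕ, (if r ∣ prt S ((s - 1) / 2) * prt S ((s' - 1) / 2) then (1 : ℝ) else 0) ≤
      ∑ u ∈ r.divisors, (if u ∣ prt S ((s - 1) / 2) then (1 : ℝ) else 0) *
        (if r / u ∣ prt S ((s' - 1) / 2) then (1 : ℝ) else 0) := by
    intro s s'
    have hnn : ∀ u ∈ r.divisors, 0 ≤ (if u ∣ prt S ((s - 1) / 2) then (1 : ℝ) else 0) *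
        (if r / u ∣ prt S ((s' - 1) / 2) then (1 : ℝ) else 0) := by
      intro u _
      split_ifs <;> norm_num
    split_ifs with h
    · obtain ⟨a, b, ha, hb, hab⟩ := exists_dvd_and_dvd_of_dvd_mul h
      have ha0 : a ≠ 0 := by rintro rfl; simp at hab; exact hr hab
      have hmem : a ∈ r.divisors := Nat.mem_divisors.mpr ⟨⟨b, hab⟩, hr⟩
      refine le_trans (le_of_eq ?_) (Finset.single_le_sum hnn hmem)
      have hra : r / a = b := by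
        rw [hab, Nat.mul_div_cancel_left b (Nat.pos_of_ne_zero ha0)]
      rw [hra, if_pos ha, if_pos hb, mul_one]
    · exact Finset.sum_nonneg hnn
  calc ∑ s ∈ T, ∑ s' ∈ T,
        (if r ∣ prt S ((s - 1) / 2) * prt S ((s' - 1) / 2) then (1 : ℝ) else 0)
      ≤ ∑ s ∈ T, ∑ s' ∈ T, ∑ u ∈ r.divisors,
        (if u ∣ prt S ((s - 1) / 2) then (1 : ℝ) else 0) *
        (if r / u ∣ prt S ((s' - 1) / 2) then (1 : ℝ) else 0) :=
        Finset.sum_le_sum fun s _ => Finset.sum_le_sum fun s' _ => h1 s s'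
    _ = ∑ u ∈ r.divisors, (∑ s ∈ T, (if u ∣ prt S ((s - 1) / 2) then (1 : ℝ) else 0)) *
        ∑ s' ∈ T, (if r / u ∣ prt S ((s' - 1) / 2) then (1 : ℝ) else 0) := by
        have h2 : ∀ s ∈ T, (∑ s' ∈ T, ∑ u ∈ r.divisors,
            (if u ∣ prt S ((s - 1) / 2) then (1 : ℝ) else 0) *
            (if r / u ∣ prt S ((s' - 1) / 2) then (1 : ℝ) else 0)) =
            ∑ u ∈ r.divisors, (if u ∣ prt S ((s - 1) / 2) then (1 : ℝ) else 0) *
            ∑ s' ∈ T, (if r / u ∣ prt S ((s' - 1) / 2) then (1 : ℝ) else 0) := by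
          intro s _
          rw [Finset.sum_comm]
          refine Finset.sum_congr rfl fun u _ => ?_
          rw [Finset.mul_sum]
        rw [Finset.sum_congr rfl h2, Finset.sum_comm]
        refine Finset.sum_congr rfl fun u _ => ?_
        rw [Finset.sum_mul]
    _ ≤ ∑ u ∈ r.divisors, ((x : ℝ) ^ 2 / r) := by
        refine Finset.sum_le_sum fun u hu => ?_
        have hur : u ∣ r := Nat.dvd_of_mem_divisors hu
        have hu0 : u ≠ 0 := by rintro rfl; simp at hur; exact hr hur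
        have e1 : ((r / u : ℕ) : ℝ) = (r : ℝ) / u := Nat.cast_div hur (by exact_mod_cast hu0)
        have hu1 : (0 : ℝ) < u := by exact_mod_cast Nat.pos_of_ne_zero hu0
        have hr1 : (0 : ℝ) < r := by exact_mod_cast Nat.pos_of_ne_zero hr
        refine le_trans (mul_le_mul (p1_count T x hT S u) (p1_count T x hT S (r / u)) ?_ ?_) ?_
        · exact Finset.sum_nonneg fun _ _ => by split_ifs <;> norm_num
        · positivity
        · rw [e1]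
          apply le_of_eq
          field_simp
    _ = (r.divisors.card : ℝ) * ((x : ℝ) ^ 2 / r) := by
        rw [Finset.sum_const, nsmul_eq_mul]

theorem p1_term (ε : ℝ) (hε : 0 < ε) (hε1 : ε ≤ 1 / 10) (y W L0 n : ℕ) (hy : 2 ≤ y)
    (hy2 : (2 : ℝ) ≤ (y : ℝ) ^ (ε / 4)) (hyW : y ≤ W) (hL0 : 1 ≤ L0) (hn : 0 < n)
    (h1 : 1 < prt (Set.Ioi W) n) (h2 : prt (Set.Iic y) n ∣ L0) :
    ((prt (Set.Ioi W) n : ℕ) : ℝ) ^ (-(1 - ε / 4)) *
      (((prt (Set.Ioc y W) n).divisors.card : ℝ) * (1 / ((prt (Set.Ioc y W) n : ℕ) : ℝ))) ≤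
      L0 * (W : ℝ) ^ (-(ε / 2)) * (n : ℝ) ^ (-(1 - ε)) := by
  set a := prt (Set.Iic y) n with ha
  set b := prt (Set.Ioc y W) n with hb
  set c := prt (Set.Ioi W) n with hc
  have hsplit : a * b * c = n := prt_split y W n hyW hn.ne'
  have ha0 : a ≠ 0 := prt_ne_zero _ _
  have hb0 : b ≠ 0 := prt_ne_zero _ _
  have hc0 : c ≠ 0 := prt_ne_zero _ _
  have haR : (0 : ℝ) < a := by exact_mod_cast Nat.pos_of_ne_zero ha0
  have hbR : (0 : ℝ) < b := by exact_mod_cast Nat.pos_of_ne_zero hb0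
  have hcR : (0 : ℝ) < c := by exact_mod_cast Nat.pos_of_ne_zero hc0
  have hb1 : (1 : ℝ) ≤ b := by exact_mod_cast Nat.pos_of_ne_zero hb0
  have hW0 : 0 < W := by omega
  have hW1 : (1 : ℝ) ≤ W := by exact_mod_cast hW0
  have hWR : (0 : ℝ) < W := by linarith
  have hLR : (1 : ℝ) ≤ L0 := by exact_mod_cast hL0
  have hnR : (0 : ℝ) < n := by exact_mod_cast hn
  have haL : (a : ℝ) ≤ L0 := by exact_mod_cast Nat.le_of_dvd hL0 h2
  -- number of divisors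
  have hdiv : (b.divisors.card : ℝ) ≤ (b : ℝ) ^ (ε / 4) := by
    have e1 : (b.divisors.card : ℝ) ≤ (2 : ℝ) ^ b.primeFactorsList.length := by
      exact_mod_cast card_divisors_le b hb0
    refine e1.trans (rpow_length_le y b 2 (ε / 4) hb0 (by norm_num) (by positivity) hy2 ?_)
    intro p hp hpb
    exact (prime_of_dvd_prt _ _ p hp hpb).1.1
  -- W < c
  have hWc : (W : ℝ) ≤ c := by
    obtain ⟨p, hp, hpc⟩ := Nat.exists_prime_and_dvd (show c ≠ 1 by omega)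
    have h3 : W < p := (prime_of_dvd_prt _ _ p hp hpc).1
    have h4 : p ≤ c := Nat.le_of_dvd (Nat.pos_of_ne_zero hc0) hpc
    exact_mod_cast (h3.le.trans h4)
  have hvW : (W : ℝ) ≤ b * c := by nlinarith
  have hv0 : (0 : ℝ) < b * c := by positivity
  -- v ^ (-(1-ε/4))
  have s1 : (c : ℝ) ^ (-(1 - ε / 4)) * ((b.divisors.card : ℝ) * (1 / (b : ℝ))) ≤
      ((b : ℝ) * c) ^ (-(1 - ε / 4)) := by
    rw [Real.mul_rpow hbR.le hcR.le, mul_comm]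
    refine mul_le_mul_of_nonneg_right ?_ (by positivity)
    have e2 : (b : ℝ) ^ (-(1 - ε / 4)) = (b : ℝ) ^ (ε / 4) * (1 / (b : ℝ)) := by
      rw [show -(1 - ε / 4) = ε / 4 + (-1) by ring, Real.rpow_add hbR, Real.rpow_neg_one,
        one_div]
    rw [e2]
    exact mul_le_mul_of_nonneg_right hdiv (by positivity)
  refine s1.trans ?_
  have s2 : ((b : ℝ) * c) ^ (-(1 - ε / 4)) =
      ((b : ℝ) * c) ^ (-(1 - ε)) * ((b : ℝ) * c) ^ (-(3 * ε / 4)) := by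
    rw [← Real.rpow_add hv0]
    congr 1
    ring
  rw [s2]
  have s3 : ((b : ℝ) * c) ^ (-(3 * ε / 4)) ≤ (W : ℝ) ^ (-(ε / 2)) := by
    calc ((b : ℝ) * c) ^ (-(3 * ε / 4)) ≤ (W : ℝ) ^ (-(3 * ε / 4)) :=
          Real.rpow_le_rpow_of_nonpos hWR hvW (by linarith)
      _ ≤ (W : ℝ) ^ (-(ε / 2)) := Real.rpow_le_rpow_of_exponent_le hW1 (by linarith)
  have s4 : ((b : ℝ) * c) ^ (-(1 - ε)) ≤ L0 * (n : ℝ) ^ (-(1 - ε)) := by
    have e3 : (n : ℝ) / L0 ≤ b * c := by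
      rw [div_le_iff₀ (by linarith)]
      have : (n : ℝ) = a * b * c := by exact_mod_cast hsplit.symm
      rw [this]
      have : (a : ℝ) * (b * c) ≤ L0 * (b * c) := mul_le_mul_of_nonneg_right haL hv0.le
      linarith
    calc ((b : ℝ) * c) ^ (-(1 - ε)) ≤ ((n : ℝ) / L0) ^ (-(1 - ε)) :=
          Real.rpow_le_rpow_of_nonpos (by positivity) e3 (by linarith)
      _ = (n : ℝ) ^ (-(1 - ε)) * (L0 : ℝ) ^ (1 - ε) := by
          rw [Real.div_rpow hnR.le (by linarith), Real.rpow_neg (by linarith : (0 : ℝ) ≤ L0),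
            div_inv_eq_mul]
      _ ≤ (n : ℝ) ^ (-(1 - ε)) * L0 := by
          refine mul_le_mul_of_nonneg_left ?_ (by positivity)
          calc (L0 : ℝ) ^ (1 - ε) ≤ (L0 : ℝ) ^ (1 : ℝ) :=
                Real.rpow_le_rpow_of_exponent_le hLR (by linarith)
            _ = L0 := Real.rpow_one _
      _ = L0 * (n : ℝ) ^ (-(1 - ε)) := by ring
  calc ((b : ℝ) * c) ^ (-(1 - ε)) * ((b : ℝ) * c) ^ (-(3 * ε / 4))
      ≤ (L0 * (n : ℝ) ^ (-(1 - ε))) * (W : ℝ) ^ (-(ε / 2)) :=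
        mul_le_mul s4 s3 (by positivity) (by positivity)
    _ = L0 * (W : ℝ) ^ (-(ε / 2)) * (n : ℝ) ^ (-(1 - ε)) := by ring

/-- [P1] Proof. Let `r_L`, `r_M`, `r'` be the three parts of `w.1` (`prt_split`). Exchange the sums: for fixed `w` (in the filtered set: `1 < r'`, `r_L ∣ L0`) count the pairs with `r_M ∣ Mp(s) Mp(s')`. Put
`u = gcd(r_M, Mp(s))`: then `v = r_M/u` divides `Mp(s')` (`Nat.Coprime.dvd_of_dvd_mul_left`-type argument), `u ∣ (s-1)/2`, so `u ∣ s-1`, and `v ∣ s'-1`: at most `∑_{u ∣ r_M} (x/u)(x/v) = τ(r_M) x²/r_M` pairs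
(numbers `s - 1 ∈ [1, x]` divisible by `u`: `≤ x/u`). `τ(r_M) ≤ 2^Ω(r_M) ≤ r_M^(ε/4)` (`card_divisors_le`, `rpow_length_le` with `b = 2 ≤ y^(ε/4)`). So the sum is at most
`x² ∑_w v^(-(1-ε/4))`, `v = r' r_M`; `v ≥ r' ≥ W` (a prime factor `> W`) and `v = w.1/r_L ≥ w.1/L0`, so `v^(-(1-ε/4)) = v^(-(1-ε)) v^(-3ε/4) ≤ (w.1/L0)^(-(1-ε)) W^(-3ε/4) ≤ L0 w.1^(-(1-ε)) W^(-ε/2)`. -/
theorem pairs_phi (ε : ℝ) (hε : 0 < ε) (hε1 : ε ≤ 1 / 10) (x y W L0 : ℕ) (hy : 2 ≤ y)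
    (hy2 : (2 : ℝ) ≤ (y : ℝ) ^ (ε / 4)) (hyW : y ≤ W) (hL0 : 1 ≤ L0)
    (T : Finset ℕ) (hT : ∀ s ∈ T, 3 ≤ s ∧ s ≤ x ∧ ¬ 2 ∣ s)
    (𝒲 : Finset Ch) (h𝒲 : ∀ w ∈ 𝒲, 0 < w.1) :
    ∑ s ∈ T, ∑ s' ∈ T, Phi 𝒲 ε y W L0
        (prt (Set.Ioc y W) ((s - 1) / 2) * prt (Set.Ioc y W) ((s' - 1) / 2)) ≤
      (x : ℝ) ^ 2 * L0 * (W : ℝ) ^ (-(ε / 2)) * ∑ w ∈ 𝒲, (w.1 : ℝ) ^ (-(1 - ε)) := by
  classical
  have h1 : ∀ N : ℕ, Phi 𝒲 ε y W L0 N = ∑ w ∈ 𝒲,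
      (if 1 < prt (Set.Ioi W) w.1 ∧ prt (Set.Iic y) w.1 ∣ L0 then
        ((prt (Set.Ioi W) w.1 : ℕ) : ℝ) ^ (-(1 - ε / 4)) else 0) *
      (if prt (Set.Ioc y W) w.1 ∣ N then (1 : ℝ) else 0) := by
    intro N
    unfold Phi
    rw [Finset.sum_filter]
    refine Finset.sum_congr rfl fun w _ => ?_
    by_cases hA : 1 < prt (Set.Ioi W) w.1 ∧ prt (Set.Iic y) w.1 ∣ L0
    · by_cases hB : prt (Set.Ioc y W) w.1 ∣ N
      · rw [if_pos ⟨hA.1, hA.2, hB⟩, if_pos hA, if_pos hB, mul_one]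
      · rw [if_neg (fun h => hB h.2.2), if_neg hB, mul_zero]
    · rw [if_neg (fun h => hA ⟨h.1, h.2.1⟩), if_neg hA, zero_mul]
  simp only [h1]
  have h2 : ∀ s ∈ T, ∑ s' ∈ T, ∑ w ∈ 𝒲,
      (if 1 < prt (Set.Ioi W) w.1 ∧ prt (Set.Iic y) w.1 ∣ L0 then
        ((prt (Set.Ioi W) w.1 : ℕ) : ℝ) ^ (-(1 - ε / 4)) else 0) *
      (if prt (Set.Ioc y W) w.1 ∣
        prt (Set.Ioc y W) ((s - 1) / 2) * prt (Set.Ioc y W) ((s' - 1) / 2) then (1 : ℝ) else 0) =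
      ∑ w ∈ 𝒲, (if 1 < prt (Set.Ioi W) w.1 ∧ prt (Set.Iic y) w.1 ∣ L0 then
        ((prt (Set.Ioi W) w.1 : ℕ) : ℝ) ^ (-(1 - ε / 4)) else 0) *
      ∑ s' ∈ T, (if prt (Set.Ioc y W) w.1 ∣
        prt (Set.Ioc y W) ((s - 1) / 2) * prt (Set.Ioc y W) ((s' - 1) / 2) then (1 : ℝ)
          else 0) := by
    intro s _
    rw [Finset.sum_comm]
    refine Finset.sum_congr rfl fun w _ => ?_
    rw [Finset.mul_sum]
  rw [Finset.sum_congr rfl h2, Finset.sum_comm, Finset.mul_sum]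
  refine Finset.sum_le_sum fun w hw => ?_
  rw [← Finset.mul_sum]
  by_cases hA : 1 < prt (Set.Ioi W) w.1 ∧ prt (Set.Iic y) w.1 ∣ L0
  · rw [if_pos hA]
    have e1 := p1_pairs T x hT (Set.Ioc y W) (prt (Set.Ioc y W) w.1) (prt_ne_zero _ _)
    have e2 := p1_term ε hε hε1 y W L0 w.1 hy hy2 hyW hL0 (h𝒲 w hw) hA.1 hA.2
    calc ((prt (Set.Ioi W) w.1 : ℕ) : ℝ) ^ (-(1 - ε / 4)) *
          ∑ s ∈ T, ∑ s' ∈ T, (if prt (Set.Ioc y W) w.1 ∣
            prt (Set.Ioc y W) ((s - 1) / 2) * prt (Set.Ioc y W) ((s' - 1) / 2) then (1 : ℝ)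
              else 0)
        ≤ ((prt (Set.Ioi W) w.1 : ℕ) : ℝ) ^ (-(1 - ε / 4)) *
          (((prt (Set.Ioc y W) w.1).divisors.card : ℝ) *
            ((x : ℝ) ^ 2 / ((prt (Set.Ioc y W) w.1 : ℕ) : ℝ))) :=
          mul_le_mul_of_nonneg_left e1 (by positivity)
      _ = (x : ℝ) ^ 2 * (((prt (Set.Ioi W) w.1 : ℕ) : ℝ) ^ (-(1 - ε / 4)) *
          (((prt (Set.Ioc y W) w.1).divisors.card : ℝ) *
            (1 / ((prt (Set.Ioc y W) w.1 : ℕ) : ℝ)))) := by ring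
      _ ≤ (x : ℝ) ^ 2 * (L0 * (W : ℝ) ^ (-(ε / 2)) * (w.1 : ℝ) ^ (-(1 - ε))) :=
          mul_le_mul_of_nonneg_left e2 (by positivity)
      _ = (x : ℝ) ^ 2 * L0 * (W : ℝ) ^ (-(ε / 2)) * (w.1 : ℝ) ^ (-(1 - ε)) := by ring
  · rw [if_neg hA, zero_mul]
    positivity

end GCN
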