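import Pool.Agent.GCN.N1

/-!
# [GCN-P2] pairs of primes with a common prime; a clique lemma
-/

set_option autoImplicit false

open Finset

namespace GCN

theorem p2_tele (y n : ℕ) (hy : 2 ≤ y) :
    ∑ l ∈ Ioc y (y + n), (1 : ℝ) / ((l : ℝ) - 1) ^ 2 ≤ 1 / ((y : ℝ) - 1) - 1 / ((y : ℝ) + n - 1) := by
  have hy' : (2 : ℝ) ≤ y := by exact_mod_cast hy
  induction n with
  | zero => simp
  | succ n ih =>
    rw [← add_assoc, Finset.sum_Ioc_succ_top (by omega)]
    push_cast
    have h1 : (1 : ℝ) / ((y : ℝ) + n + 1 - 1) ^ 2 ≤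
        1 / ((y : ℝ) + n - 1) - 1 / ((y : ℝ) + (n + 1) - 1) := by
      have hn : (0 : ℝ) ≤ n := Nat.cast_nonneg n
      have e1 : ((y : ℝ) + (n + 1) - 1) = (y : ℝ) + n := by ring
      have e2 : ((y : ℝ) + n + 1 - 1) = (y : ℝ) + n := by ring
      rw [e1, e2]
      have p1 : (0 : ℝ) < (y : ℝ) + n := by linarith
      have p2 : (0 : ℝ) < (y : ℝ) + n - 1 := by linarith
      rw [div_sub_div _ _ p2.ne' p1.ne', div_le_div_iff₀ (by positivity) (by positivity)]
      nlinarith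
    linarith

theorem p2_sum (y W : ℕ) (hy : 2 ≤ y) :
    ∑ l ∈ Ioc y W, (1 : ℝ) / ((l : ℝ) - 1) ^ 2 ≤ 2 / (y : ℝ) := by
  have hy' : (2 : ℝ) ≤ y := by exact_mod_cast hy
  have h2 : (1 : ℝ) / ((y : ℝ) - 1) ≤ 2 / (y : ℝ) := by
    rw [div_le_div_iff₀ (by linarith) (by linarith)]
    linarith
  rcases le_or_gt W y with h | h
  · rw [Ioc_eq_empty (by omega), sum_empty]
    positivity
  · obtain ⟨n, rfl⟩ := Nat.exists_eq_add_of_lt h
    have h1 := p2_tele y (n + 1) hy
    rw [← add_assoc] at h1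
    have h3 : (0 : ℝ) ≤ 1 / ((y : ℝ) + ((n + 1 : ℕ) : ℝ) - 1) := by
      apply div_nonneg zero_le_one
      push_cast
      have : (0 : ℝ) ≤ n := Nat.cast_nonneg n
      linarith
    linarith

/-- [P2a] Proof. A pair with `gcd > 1` has a common prime `l ∈ (y, W]` of `(s-1)/2` and `(s'-1)/2` (`prime_of_dvd_prt`), so `l ∣ s-1`, `l ∣ s'-1`: at most `∑_{l > y} (D/(l-1))² ≤ D² ∑_{n ≥ y} 1/n² ≤ D²/(y-1) ≤ 2 D²/y`. -/
theorem pairs_cop (x y W : ℕ) (hy : 2 ≤ y) (T : Finset ℕ) (hT : ∀ s ∈ T, 3 ≤ s ∧ ¬ 2 ∣ s) (D : ℝ) (hD0 : 0 ≤ D)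
    (hD : ∀ l : ℕ, l.Prime → y < l → l ≤ W → ((T.filter (fun s => l ∣ s - 1)).card : ℝ) ≤ D / (l - 1)) :
    (((T ×ˢ T).filter (fun t => ¬ Nat.Coprime (prt (Set.Ioc y W) ((t.1 - 1) / 2))
      (prt (Set.Ioc y W) ((t.2 - 1) / 2)))).card : ℝ) ≤ 2 * D ^ 2 / y := by
  classical
  have hy' : (2 : ℝ) ≤ y := by exact_mod_cast hy
  set PP := (Ioc y W).filter Nat.Prime with hPP
  have hsub : (T ×ˢ T).filter (fun t => ¬ Nat.Coprime (prt (Set.Ioc y W) ((t.1 - 1) / 2))
      (prt (Set.Ioc y W) ((t.2 - 1) / 2))) ⊆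
      PP.biUnion (fun l => (T.filter (fun s => l ∣ s - 1)) ×ˢ (T.filter (fun s => l ∣ s - 1))) := by
    intro t ht
    rw [mem_filter, mem_product] at ht
    obtain ⟨⟨h1, h2⟩, h3⟩ := ht
    obtain ⟨p, hp, hp1, hp2⟩ := Nat.Prime.not_coprime_iff_dvd.mp h3
    obtain ⟨a1, a2⟩ := prime_of_dvd_prt _ _ _ hp hp1
    obtain ⟨b1, b2⟩ := prime_of_dvd_prt _ _ _ hp hp2
    rw [mem_biUnion]
    refine ⟨p, ?_, ?_⟩
    · rw [hPP, mem_filter, mem_Ioc]
      exact ⟨⟨a1.1, a1.2⟩, hp⟩
    · have key : ∀ s ∈ T, p ∣ (s - 1) / 2 → p ∣ s - 1 := by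
        intro s hs hd
        have h5 := hT s hs
        have hev : 2 ∣ s - 1 := by omega
        exact hd.trans (Nat.div_dvd_of_dvd hev)
      rw [mem_product, mem_filter, mem_filter]
      exact ⟨⟨h1, key _ h1 a2⟩, ⟨h2, key _ h2 b2⟩⟩
  have h1 : (((T ×ˢ T).filter (fun t => ¬ Nat.Coprime (prt (Set.Ioc y W) ((t.1 - 1) / 2))
      (prt (Set.Ioc y W) ((t.2 - 1) / 2)))).card : ℝ) ≤
      ∑ l ∈ PP, ((T.filter (fun s => l ∣ s - 1)).card : ℝ) * ((T.filter (fun s => l ∣ s - 1)).card : ℝ) := by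
    have := (card_le_card hsub).trans (card_biUnion_le)
    simp only [card_product] at this
    exact_mod_cast this
  have h2 : ∑ l ∈ PP, ((T.filter (fun s => l ∣ s - 1)).card : ℝ) * ((T.filter (fun s => l ∣ s - 1)).card : ℝ) ≤
      ∑ l ∈ PP, D ^ 2 * ((1 : ℝ) / ((l : ℝ) - 1) ^ 2) := by
    apply sum_le_sum
    intro l hl
    rw [hPP, mem_filter, mem_Ioc] at hl
    have h3 := hD l hl.2 hl.1.1 hl.1.2
    have h4 : (0 : ℝ) ≤ ((T.filter (fun s => l ∣ s - 1)).card : ℝ) := Nat.cast_nonneg _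
    have h5 : (0 : ℝ) ≤ D / ((l : ℝ) - 1) := h4.trans h3
    calc _ ≤ (D / ((l : ℝ) - 1)) * (D / ((l : ℝ) - 1)) := mul_le_mul h3 h3 h4 h5
      _ = _ := by rw [div_mul_div_comm, ← sq, ← sq, mul_one_div]
  have h3 : ∑ l ∈ PP, D ^ 2 * ((1 : ℝ) / ((l : ℝ) - 1) ^ 2) ≤ D ^ 2 * (2 / (y : ℝ)) := by
    rw [← mul_sum]
    apply mul_le_mul_of_nonneg_left _ (sq_nonneg D)
    refine le_trans ?_ (p2_sum y W hy)
    apply sum_le_sum_of_subset_of_nonneg (filter_subset _ _)
    intro i _ _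
    positivity
  calc _ ≤ _ := h1
    _ ≤ _ := h2
    _ ≤ _ := h3
    _ = _ := by ring

theorem p2_count {ι : Type*} [DecidableEq ι] (T : Finset ι) (R : ι → ι → Prop) [DecidableRel R]
    (P : ℕ) (i j : Fin P) (hij : i ≠ j) :
    ((Fintype.piFinset (fun _ : Fin P => T)).filter (fun v => R (v i) (v j))).card * T.card ^ 2 =
      ((T ×ˢ T).filter (fun t => R t.1 t.2)).card * T.card ^ P := by
  have hji : j ≠ i := fun h => hij h.symm
  have hVc : (Fintype.piFinset (fun _ : Fin P => T)).card = T.card ^ P := by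
    rw [Fintype.card_piFinset]; simp
  rw [← hVc, sq, ← card_product T T, ← card_product, ← card_product]
  apply card_nbij'
    (fun q : (Fin P → ι) × (ι × ι) => ((q.1 i, q.1 j), Function.update (Function.update q.1 i q.2.1) j q.2.2))
    (fun q : (ι × ι) × (Fin P → ι) => (Function.update (Function.update q.2 i q.1.1) j q.1.2, (q.2 i, q.2 j)))
  · rintro ⟨v, a, b⟩ hq
    simp only [coe_product, Set.mem_prod, mem_coe, mem_filter, Fintype.mem_piFinset, mem_product] at hq ⊢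
    obtain ⟨⟨hv, hR⟩, ha, hb⟩ := hq
    refine ⟨⟨⟨hv i, hv j⟩, hR⟩, fun k => ?_⟩
    by_cases hk : k = j
    · subst hk; simpa using hb
    · rw [Function.update_of_ne hk]
      by_cases hk' : k = i
      · subst hk'; simpa using ha
      · rw [Function.update_of_ne hk']; exact hv k
  · rintro ⟨⟨a, b⟩, v⟩ hq
    simp only [coe_product, Set.mem_prod, mem_coe, mem_filter, Fintype.mem_piFinset, mem_product] at hq ⊢
    obtain ⟨⟨⟨ha, hb⟩, hR⟩, hv⟩ := hq
    refine ⟨⟨fun k => ?_, ?_⟩, hv i, hv j⟩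
    · by_cases hk : k = j
      · subst hk; simpa using hb
      · rw [Function.update_of_ne hk]
        by_cases hk' : k = i
        · subst hk'; simpa using ha
        · rw [Function.update_of_ne hk']; exact hv k
    · rw [Function.update_self, Function.update_of_ne hij, Function.update_self]
      exact hR
  · rintro ⟨v, a, b⟩ _
    refine Prod.ext ?_ (Prod.ext ?_ ?_)
    · funext k
      by_cases hk : k = j
      · subst hk; simp
      · by_cases hk' : k = i
        · subst hk'; simp [Function.update_of_ne hk]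
        · simp [Function.update_of_ne hk, Function.update_of_ne hk']
    · simp [Function.update_of_ne hij]
    · simp
  · rintro ⟨⟨a, b⟩, v⟩ _
    refine Prod.ext (Prod.ext ?_ ?_) ?_
    · simp [Function.update_of_ne hij]
    · simp
    · funext k
      by_cases hk : k = j
      · subst hk; simp
      · by_cases hk' : k = i
        · subst hk'; simp [Function.update_of_ne hk]
        · simp [Function.update_of_ne hk, Function.update_of_ne hk']

/-- [P2b] Proof. Count the maps `v : Fin P → T`: for fixed `i ≠ j` the number of those with `R (v i) (v j)` is `#{(a,b) : R a b} · #T^(P-2)`; the total for all `i ≠ j` is at most `P² #{..} #T^(P-2) < #T^P`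
(for `P ≤ 1` any `v` works; `T` is nonempty as `#T² > 0`). -/
theorem clique {ι : Type*} [DecidableEq ι] (T : Finset ι) (R : ι → ι → Prop) [DecidableRel R]
    (P : ℕ) (h : P ^ 2 * ((T ×ˢ T).filter (fun t => R t.1 t.2)).card < T.card ^ 2) :
    ∃ v : Fin P → ι, (∀ i, v i ∈ T) ∧ ∀ i j, i ≠ j → ¬ R (v i) (v j) := by
  by_contra hcon
  push Not at hcon
  have hTpos : 0 < T.card := by
    rcases Nat.eq_zero_or_pos T.card with h0 | h0
    · rw [h0] at h; simp at h
    · exact h0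
  set V := Fintype.piFinset (fun _ : Fin P => T) with hV
  have hVc : V.card = T.card ^ P := by
    rw [hV, Fintype.card_piFinset]; simp
  have hsub : V ⊆ (univ : Finset (Fin P × Fin P)).biUnion
      (fun p => if p.1 ≠ p.2 then V.filter (fun v => R (v p.1) (v p.2)) else ∅) := by
    intro v hv
    obtain ⟨i, j, hij, hR⟩ := hcon v (fun i => (Fintype.mem_piFinset.mp hv) i)
    rw [mem_biUnion]
    exact ⟨(i, j), mem_univ _, by simp only [ne_eq, hij, not_false_eq_true, if_true, mem_filter]; exact ⟨hv, hR⟩⟩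
  have h1 : T.card ^ P * T.card ^ 2 ≤ P ^ 2 * (((T ×ˢ T).filter (fun t => R t.1 t.2)).card * T.card ^ P) := by
    calc T.card ^ P * T.card ^ 2 = V.card * T.card ^ 2 := by rw [hVc]
      _ ≤ (∑ p : Fin P × Fin P, (if p.1 ≠ p.2 then V.filter (fun v => R (v p.1) (v p.2)) else ∅).card) * T.card ^ 2 :=
          Nat.mul_le_mul_right _ ((card_le_card hsub).trans card_biUnion_le)
      _ = ∑ p : Fin P × Fin P, (if p.1 ≠ p.2 then V.filter (fun v => R (v p.1) (v p.2)) else ∅).card * T.card ^ 2 := by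
          rw [sum_mul]
      _ ≤ ∑ p : Fin P × Fin P, ((T ×ˢ T).filter (fun t => R t.1 t.2)).card * T.card ^ P := by
          apply sum_le_sum
          intro p _
          by_cases hp : p.1 = p.2
          · simp [hp]
          · simp only [ne_eq, hp, not_false_eq_true, if_true]
            exact (p2_count T R P p.1 p.2 hp).le
      _ = P ^ 2 * (((T ×ˢ T).filter (fun t => R t.1 t.2)).card * T.card ^ P) := by
          rw [sum_const, card_univ, Fintype.card_prod, Fintype.card_fin, smul_eq_mul, ← sq]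
  have h2 : T.card ^ 2 ≤ P ^ 2 * ((T ×ˢ T).filter (fun t => R t.1 t.2)).card := by
    have hp : 0 < T.card ^ P := pow_pos hTpos _
    have : T.card ^ P * T.card ^ 2 ≤ T.card ^ P * (P ^ 2 * ((T ×ˢ T).filter (fun t => R t.1 t.2)).card) := by
      calc _ ≤ _ := h1
        _ = _ := by ring
    exact Nat.le_of_mul_le_mul_left this hp
  omega

end GCN
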