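import Pool.Agent.GCN.Env

/-!
# [GCN] the constants and the regime of the variables
-/

set_option autoImplicit false

open Finset

open scoped Classical

namespace GCN

/-- the relations between the variables -/
structure Reg (ε CL C1 Λ : ℝ) (w z y W x L0 : ℕ) : Prop where
  hy : (y : ℝ) ≤ (z : ℝ) ^ (1 / 2 - ε)
  hy' : (z : ℝ) ^ (1 / 2 - ε) < y + 1
  hW : W = 2 ^ (w * y)
  hx : C1 * y ≤ Real.log x
  hx' : Real.log x ≤ Λ * y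
  hL : 1 ≤ L0
  hL' : Real.log L0 ≤ CL * y

/-- the constants that depend only on `k`, with the analytic theorems for the modulus `f = 4 K!` -/
structure Cst (k : ℤ) where
  ε : ℝ
  C2 : ℝ
  ch : ℝ
  CB : ℝ
  cA : ℝ
  CL : ℝ
  C3 : ℕ
  P : ℕ
  N0 : ℕ
  K : ℕ
  z0 : ℕ
  hk : k ≠ 0
  hε : 0 < ε
  hε1 : ε ≤ 1 / 10
  hC2 : 1 ≤ C2
  hch : 0 < ch
  hch1 : ch ≤ 1
  hC3 : 1 ≤ C3
  hCB : 1 ≤ CB
  hcA : 0 < cA
  hCL : 1 ≤ CL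
  hN0 : (16 * C2 / ch) ^ 2 * (C2 / ch) ≤ N0
  hP : 2 * N0 + 2 ≤ P
  hK2 : 2 ≤ K
  hkK : k.natAbs ≤ K
  hK3 : 32 * (C2 / ch) * (P * N0) * (C2 / ch) ≤ K
  hK4 : 512 * (P * N0) * CB ≤ cA * K
  sb : ∀ z y W x M M' b : ℕ, K < y → z0 ≤ y → y < W → W ^ 400 ≤ x → M ≠ 0 → M' ≠ 0 →
    Nat.Coprime M M' → (∀ p : ℕ, p.Prime → p ∣ M * M' → y < p ∧ p ≤ W) →
    (M * M').primeFactors.card ≤ y → (4 * K.factorial * Lc z (cp K y) * M * M') ^ 4 ≤ x →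
    (((SM (4 * K.factorial) x y W M).filter
      (fun s => s ≡ b [MOD Lc z (cp K y) * M'])).card : ℝ) ≤
      C2 * EE (4 * K.factorial) x y W / (M * Nat.totient (Lc z (cp K y)) * Nat.totient M')
  heavy : ∀ x y W : ℕ, z0 ≤ x → 2 ≤ y → y < W → W ^ 400 ≤ x → (4 * K.factorial) ^ 400 ≤ x →
    (x : ℝ) / (16 * Nat.totient (4 * K.factorial) * Real.log x) ≤
      ((Pm (4 * K.factorial) (x / 2) x).card : ℝ) →
    (Pm (4 * K.factorial) (x / 2) x).card ≤ 2 * ((Pm (4 * K.factorial) (x / 2) x).filter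
      (fun s => prt (Set.Ioc y W) ((s - 1) / 2) ≤ W ^ C3 ∧
        ch * EE (4 * K.factorial) x y W / ((prt (Set.Ioc y W) ((s - 1) / 2) : ℕ) : ℝ) ≤
          ((SM (4 * K.factorial) x y W (prt (Set.Ioc y W) ((s - 1) / 2))).card : ℝ))).card
  bt : ∀ x d : ℕ, z0 ≤ x → 1 ≤ d → Nat.Coprime d (4 * K.factorial) →
    (4 * K.factorial * d) ^ 4 ≤ x ^ 3 →
    (((Pm (4 * K.factorial) (x / 2) x).filter (fun p => d ∣ p - 1)).card : ℝ) ≤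
      CB * x / (Nat.totient (4 * K.factorial) * Nat.totient d * Real.log x)
  propA : ∀ z : ℕ, z0 ≤ z →
    (z : ℝ) / (16 * Nat.totient (4 * K.factorial) * Real.log z) ≤
      ((Pm (4 * K.factorial) (z / 2) z).card : ℝ) →
    cA * z / (Nat.totient (4 * K.factorial) * Real.log z) ≤
      (((Pm (4 * K.factorial) (z / 2) z).filter
        (fun a => ∀ q : ℕ, q.Prime → q ∣ a - 1 → (q : ℝ) ≤ (z : ℝ) ^ (1 / 2 - ε))).card : ℝ)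
  badsum : ∀ (A : ℕ → Finset ℕ) (r m z X0 : ℕ), z0 ≤ z →
    r ≤ z → 1 ≤ X0 → X0 ≤ 2 ^ z → 1024 * (z : ℝ) ^ (1 / 2 + 3 * ε / 4) ≤ m →
    8 * (2 * Real.log (2 * X0) / Real.log z + 1) ≤ r →
    (∀ j < r, (∀ a ∈ A j, a.Prime ∧ a ≤ z) ∧ (A j).card = m) →
    (∀ i < r, ∀ j < r, i ≠ j → Disjoint (A i) (A j)) →
    ∀ 𝒲 : Finset Ch, (∀ w ∈ 𝒲, Bad A r m w ∧ 0 < w.1 ∧ w.1 ≤ X0) →
      ∑ w ∈ 𝒲, (w.1 : ℝ) ^ (-(1 - ε)) ≤ (z : ℝ) ^ 3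
  Lclog : ∀ z y : ℕ, z0 ≤ z → (y : ℝ) ≤ (z : ℝ) ^ (1 / 2 - ε) → (z : ℝ) ^ (1 / 2 - ε) < y + 1 →
    Real.log (Lc z (cp K y)) ≤ CL * y

end GCN
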