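import Pool.Agent.GCN.T1a

/-!
# [GCN-T1] a clique
-/

set_option autoImplicit false

open Finset

open scoped Classical

namespace GCN

variable {k : ℤ} (E : Env k)

/-- [T1b] Proof. `clique` (P2) with `T` = the heavy primes in `heavy` (`#SA ≤ 2 #T`) and `R = Rbad`: `P² #{bad pairs in T × T} ≤ P² #{bad pairs in SA × SA} ≤ (3/16) #SA² < #SA²/4 ≤ #T²` (`0 < #SA`, `hS0`). -/
theorem exists_clique : ∃ v : Fin E.P → ℕ, (∀ i, v i ∈ E.SA) ∧
    (∀ i, E.Mp (v i) ≤ E.W ^ E.C3 ∧ E.ch * E.EQ / (E.Mp (v i) : ℕ) ≤ ((E.S (E.Mp (v i))).card : ℝ)) ∧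
    ∀ i j, i ≠ j → ¬ E.Rbad (v i) (v j) := by
  have hbp := bad_pairs E
  have hheavy := E.heavy
  have hS0 := E.hS0
  set T := E.SA.filter (fun s => E.Mp s ≤ E.W ^ E.C3 ∧
    E.ch * E.EQ / (E.Mp s : ℕ) ≤ ((E.S (E.Mp s)).card : ℝ)) with hT
  have hh : E.SA.card ≤ 2 * T.card := by
    rw [hT]
    exact hheavy
  have hS : 0 < E.SA.card := hS0
  have hsub : ((T ×ˢ T).filter (fun t => E.Rbad t.1 t.2)).card ≤
      ((E.SA ×ˢ E.SA).filter (fun t => E.Rbad t.1 t.2)).card := by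
    apply card_le_card
    intro t ht
    rw [mem_filter, mem_product] at ht ⊢
    rw [hT, mem_filter, mem_filter] at ht
    exact ⟨⟨ht.1.1.1, ht.1.2.1⟩, ht.2⟩
  have hlt : E.P ^ 2 * ((T ×ˢ T).filter (fun t => E.Rbad t.1 t.2)).card < T.card ^ 2 := by
    have h1 : (((T ×ˢ T).filter (fun t => E.Rbad t.1 t.2)).card : ℝ) ≤
        (((E.SA ×ˢ E.SA).filter (fun t => E.Rbad t.1 t.2)).card : ℝ) := by exact_mod_cast hsub
    have h2 : (E.SA.card : ℝ) ≤ 2 * (T.card : ℝ) := by exact_mod_cast hh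
    have h3 : (0 : ℝ) < (E.SA.card : ℝ) := by exact_mod_cast hS
    have h4 : (0 : ℝ) < (T.card : ℝ) := by linarith
    have h5 : (E.SA.card : ℝ) ^ 2 ≤ (2 * (T.card : ℝ)) ^ 2 := pow_le_pow_left₀ h3.le h2 2
    have h6 : 16 * (E.P : ℝ) ^ 2 * (((T ×ˢ T).filter (fun t => E.Rbad t.1 t.2)).card : ℝ) ≤
        16 * (E.P : ℝ) ^ 2 *
          (((E.SA ×ˢ E.SA).filter (fun t => E.Rbad t.1 t.2)).card : ℝ) :=
      mul_le_mul_of_nonneg_left h1 (by positivity)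
    have h7 : (E.P : ℝ) ^ 2 * (((T ×ˢ T).filter (fun t => E.Rbad t.1 t.2)).card : ℝ) <
        (T.card : ℝ) ^ 2 := by
      have h8 : 0 < (T.card : ℝ) ^ 2 := by positivity
      nlinarith
    exact_mod_cast h7
  obtain ⟨v, hv1, hv2⟩ := clique T E.Rbad E.P hlt
  refine ⟨v, ?_, ?_, hv2⟩
  · intro i
    have := hv1 i
    rw [hT, mem_filter] at this
    exact this.1
  · intro i
    have := hv1 i
    rw [hT, mem_filter] at this
    exact this.2

end GCN
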