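import Pool.Agent.GCN.Env
import Pool.Agent.GCN.P1
import Pool.Agent.GCN.P2
import Pool.Agent.GCN.C3

/-!
# [GCN-T1a] few pairs must be avoided
-/

set_option autoImplicit false

open Finset

open scoped Classical

namespace GCN

variable {k : ℤ} (E : Env k)

theorem t1a_W : 8 ≤ E.W ∧ E.y < E.W ∧ 3 ≤ E.y ∧ 2 * E.W < E.x := by
  have h1 := E.hK2
  have h2 := E.hKy
  have h3 := E.hyz
  have h4 := E.hzW
  have h5 := E.hWx
  have h8 : 8 ≤ E.W := by omega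
  refine ⟨h8, by omega, by omega, ?_⟩
  have h6 : E.W ^ 2 ≤ E.W ^ 400 := Nat.pow_le_pow_right (by omega) (by norm_num)
  have h7 : 2 * E.W < E.W ^ 2 := by nlinarith
  omega

theorem t1a_mem (s : ℕ) (hs : s ∈ E.SA) :
    s.Prime ∧ 3 ≤ s ∧ s ≤ E.x ∧ ¬ 2 ∣ s ∧ E.y < s := by
  have h0 := t1a_W E
  unfold Env.SA Pm at hs
  rw [mem_filter, mem_Ioc] at hs
  obtain ⟨⟨h1, h2⟩, h3, h4⟩ := hs
  have h5 : 4 ∣ s + 1 := (Dvd.intro _ rfl).trans h4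
  refine ⟨h3, by omega, h2, by omega, by omega⟩

theorem t1a_L0 : 0 < E.L0 := by
  unfold Env.L0 Lc
  refine Finset.prod_pos fun l hl => ?_
  unfold cp at hl
  rw [mem_filter] at hl
  exact pow_pos hl.2.pos _

theorem t1a_cop (s : ℕ) (hs : s ∈ E.SA) : Nat.Coprime s E.L0 := by
  obtain ⟨h1, -, -, -, h2⟩ := t1a_mem E s hs
  unfold Env.L0 Lc
  refine Nat.Coprime.prod_right fun l hl => ?_
  unfold cp at hl
  rw [mem_filter, mem_Ioc] at hl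
  refine Nat.Coprime.pow_right _ ?_
  rw [Nat.coprime_primes h1 hl.2]
  omega

theorem t1a_SMsub (s : ℕ) (hs : s ∈ E.S 1) : s ∈ E.SA ∧ E.Mp s = 1 := by
  unfold Env.S SM at hs
  rw [mem_filter] at hs
  exact ⟨hs.1, hs.2⟩

theorem t1a_one : ((E.S 1).card : ℝ) ≤ E.C2 * E.EQ := by
  have hL := t1a_L0 E
  have hφ : (0 : ℝ) < (Nat.totient E.L0 : ℝ) := by exact_mod_cast Nat.totient_pos.2 hL
  have h1 : ∀ b : ℕ, (((E.S 1).filter (fun s => s ≡ b [MOD E.L0])).card : ℝ) ≤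
      E.C2 * E.EQ / Nat.totient E.L0 := by
    intro b
    have h2 := E.sb 1 1 b one_ne_zero one_ne_zero (Nat.coprime_one_left 1)
      (fun p hp hd => by
        rw [mul_one] at hd
        exact absurd (Nat.dvd_one.1 hd) hp.one_lt.ne')
      (by rw [mul_one]; exact Nat.one_le_pow _ _ (by have := t1a_W E; omega))
    rw [Nat.totient_one, Nat.cast_one, one_mul, mul_one] at h2
    simp only [mul_one] at h2
    exact h2
  have h3 := class_down (E.S 1) E.L0 1 hL (one_dvd _)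
    (fun s hs => t1a_cop E s (t1a_SMsub E s hs).1) _ h1 0
  have h4 : (E.S 1).filter (fun s => s ≡ 0 [MOD 1]) = E.S 1 := by
    rw [Finset.filter_eq_self]
    intro s _
    exact Nat.modEq_one
  rw [h4, Nat.totient_one, Nat.cast_one, div_one, div_mul_cancel₀ _ hφ.ne'] at h3
  exact h3

theorem t1a_two : 16 * (E.P : ℝ) ^ 2 *
    (((E.SA ×ˢ E.SA).filter (fun t => E.Mp t.1 = 1 ∧ E.Mp t.2 = 1)).card : ℝ) ≤
      (E.SA.card : ℝ) ^ 2 := by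
  have h1 : (E.SA ×ˢ E.SA).filter (fun t => E.Mp t.1 = 1 ∧ E.Mp t.2 = 1) ⊆ E.S 1 ×ˢ E.S 1 := by
    intro t ht
    rw [mem_filter, mem_product] at ht
    rw [mem_product]
    unfold Env.S SM
    rw [mem_filter, mem_filter]
    exact ⟨⟨ht.1.1, ht.2.1⟩, ⟨ht.1.2, ht.2.2⟩⟩
  have h2 : (((E.SA ×ˢ E.SA).filter (fun t => E.Mp t.1 = 1 ∧ E.Mp t.2 = 1)).card : ℝ) ≤
      ((E.S 1).card : ℝ) ^ 2 := by
    have := Finset.card_le_card h1
    rw [Finset.card_product, ← sq] at this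
    exact_mod_cast this
  have h3 := t1a_one E
  have h4 : 4 * (E.P : ℝ) * (E.C2 * E.EQ) ≤ (E.SA.card : ℝ) := E.n_one
  have h5 : (0 : ℝ) ≤ ((E.S 1).card : ℝ) := Nat.cast_nonneg _
  have h6 : (0 : ℝ) ≤ (E.P : ℝ) := Nat.cast_nonneg _
  have h7 : 4 * (E.P : ℝ) * ((E.S 1).card : ℝ) ≤ (E.SA.card : ℝ) :=
    (mul_le_mul_of_nonneg_left h3 (by positivity)).trans h4
  have h8 : (4 * (E.P : ℝ) * ((E.S 1).card : ℝ)) ^ 2 ≤ (E.SA.card : ℝ) ^ 2 :=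
    pow_le_pow_left₀ (by positivity) h7 2
  calc _ ≤ 16 * (E.P : ℝ) ^ 2 * ((E.S 1).card : ℝ) ^ 2 :=
        mul_le_mul_of_nonneg_left h2 (by positivity)
    _ = (4 * (E.P : ℝ) * ((E.S 1).card : ℝ)) ^ 2 := by ring
    _ ≤ _ := h8

theorem t1a_three : 16 * (E.P : ℝ) ^ 2 *
    (((E.SA ×ˢ E.SA).filter (fun t => ¬ Nat.Coprime (E.Mp t.1) (E.Mp t.2))).card : ℝ) ≤
      (E.SA.card : ℝ) ^ 2 := by
  have h0 := t1a_W E
  have h1 := pairs_cop E.x E.y E.W (by omega) E.SA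
    (fun s hs => ⟨(t1a_mem E s hs).2.1, (t1a_mem E s hs).2.2.2.1⟩) (E.GS * E.SA.card)
    (mul_nonneg E.hGS (Nat.cast_nonneg _)) (fun l hl h2 h3 => E.btS l hl h2 h3)
  have hy : (0 : ℝ) < (E.y : ℝ) := by
    have : 0 < E.y := by omega
    exact_mod_cast this
  have h2 : (((E.SA ×ˢ E.SA).filter (fun t => ¬ Nat.Coprime (E.Mp t.1) (E.Mp t.2))).card : ℝ) ≤
      2 * (E.GS * E.SA.card) ^ 2 / E.y := by
    refine le_trans (le_of_eq ?_) h1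
    congr 2
  have h3 := E.n_cop
  calc _ ≤ 16 * (E.P : ℝ) ^ 2 * (2 * (E.GS * E.SA.card) ^ 2 / E.y) :=
        mul_le_mul_of_nonneg_left h2 (by positivity)
    _ = (32 * (E.P : ℝ) ^ 2 * E.GS ^ 2) * (E.SA.card : ℝ) ^ 2 / E.y := by ring
    _ ≤ (E.y : ℝ) * (E.SA.card : ℝ) ^ 2 / E.y := by
        refine div_le_div_of_nonneg_right ?_ hy.le
        exact mul_le_mul_of_nonneg_right h3 (by positivity)
    _ = _ := by field_simp

theorem t1a_phi : 16 * (E.P : ℝ) ^ 2 *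
    (((E.SA ×ˢ E.SA).filter (fun t => (E.W : ℝ) ^ (-(E.ε / 4)) <
      Phi E.𝒲 E.ε E.y E.W E.L0 (E.Mp t.1 * E.Mp t.2))).card : ℝ) ≤
      (E.SA.card : ℝ) ^ 2 := by
  have h0 := t1a_W E
  have hW : (0 : ℝ) < (E.W : ℝ) := by
    have : 0 < E.W := by omega
    exact_mod_cast this
  have hP : (0 : ℝ) < (E.P : ℝ) := by
    have h := E.hP
    have : 0 < E.P := by
      by_contra hc
      have hc' : E.P = 0 := by omega
      omega
    exact_mod_cast this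
  have hw : (0 : ℝ) < (E.W : ℝ) ^ (-(E.ε / 4)) := Real.rpow_pos_of_pos hW _
  have hphi0 : ∀ N : ℕ, 0 ≤ Phi E.𝒲 E.ε E.y E.W E.L0 N := by
    intro N
    unfold Phi
    exact Finset.sum_nonneg fun _ _ => Real.rpow_nonneg (Nat.cast_nonneg _) _
  have h1 := pairs_phi E.ε E.hε E.hε1 E.x E.y E.W E.L0 (by omega) E.n_y2 (by omega)
    (t1a_L0 E) E.SA
    (fun s hs => ⟨(t1a_mem E s hs).2.1, (t1a_mem E s hs).2.2.1, (t1a_mem E s hs).2.2.2.1⟩)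
    E.𝒲 E.h𝒲pos
  have h2 : (E.x : ℝ) ^ 2 * E.L0 * (E.W : ℝ) ^ (-(E.ε / 2)) *
      ∑ w ∈ E.𝒲, (w.1 : ℝ) ^ (-(1 - E.ε)) ≤
      (E.x : ℝ) ^ 2 * E.L0 * (E.W : ℝ) ^ (-(E.ε / 2)) * (E.z : ℝ) ^ 3 :=
    mul_le_mul_of_nonneg_left E.h𝒲z (by positivity)
  have h3 : (E.x : ℝ) ^ 2 * E.L0 * (E.W : ℝ) ^ (-(E.ε / 2)) * (E.z : ℝ) ^ 3 ≤
      (E.W : ℝ) ^ (-(E.ε / 4)) * ((E.SA.card : ℝ) ^ 2 / (16 * E.P ^ 2)) := E.n_phi
  have h4 : (((E.SA ×ˢ E.SA).filter (fun t => (E.W : ℝ) ^ (-(E.ε / 4)) <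
      Phi E.𝒲 E.ε E.y E.W E.L0 (E.Mp t.1 * E.Mp t.2))).card : ℝ) * (E.W : ℝ) ^ (-(E.ε / 4)) ≤
      ∑ s ∈ E.SA, ∑ s' ∈ E.SA, Phi E.𝒲 E.ε E.y E.W E.L0
        (prt (Set.Ioc E.y E.W) ((s - 1) / 2) * prt (Set.Ioc E.y E.W) ((s' - 1) / 2)) := by
    rw [← Finset.sum_product', ← nsmul_eq_mul]
    refine le_trans (Finset.card_nsmul_le_sum _
      (fun t : ℕ × ℕ => Phi E.𝒲 E.ε E.y E.W E.L0 (E.Mp t.1 * E.Mp t.2)) _ ?_) ?_
    · intro t ht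
      rw [mem_filter] at ht
      exact ht.2.le
    · refine Finset.sum_le_sum_of_subset_of_nonneg (Finset.filter_subset _ _) ?_
      intro t _ _
      exact hphi0 _
  have h5 := h4.trans (h1.trans (h2.trans h3))
  have h6 : (((E.SA ×ˢ E.SA).filter (fun t => (E.W : ℝ) ^ (-(E.ε / 4)) <
      Phi E.𝒲 E.ε E.y E.W E.L0 (E.Mp t.1 * E.Mp t.2))).card : ℝ) ≤
      (E.SA.card : ℝ) ^ 2 / (16 * E.P ^ 2) := by
    rw [mul_comm] at h5
    exact le_of_mul_le_mul_left h5 hw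
  rw [le_div_iff₀ (by positivity)] at h6
  linarith

/-- [T1a] Proof. The elements of `SA` are odd primes `> x/2 ≥ 3` (`4 ∣ s + 1`; `x` is large: `W^400 ≤ x`, `2 ≤ W`). A pair with `Rbad` is of one of three kinds. (1) not coprime: `pairs_cop` (P2) with `D = GS #SA` (`btS`):
`≤ 2 GS² #SA²/y ≤ #SA²/(16P²)` by `n_cop`. (2) both parts `1`: `≤ #(S 1)²`; `#(S 1) ≤ C2 EQ`: `sb` with `M = M' = 1` and `class_down` (C3) from `L0` to `n = 1` (the elements are prime to `L0`: primes `> x/2 > y`), so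
`≤ (C2 EQ)² ≤ #SA²/(16P²)` by `n_one`. (3) `Phi > W^(-ε/4)`: `pairs_phi` (P1) with `T = SA`, `h𝒲z` and Markov's inequality (`Phi ≥ 0`): `≤ x² L0 W^(-ε/2) z³/W^(-ε/4) ≤ #SA²/(16P²)` by `n_phi`. -/
theorem bad_pairs : 16 * (E.P : ℝ) ^ 2 *
    (((E.SA ×ˢ E.SA).filter (fun t => E.Rbad t.1 t.2)).card : ℝ) ≤ 3 * (E.SA.card : ℝ) ^ 2 := by
  have h1 : (E.SA ×ˢ E.SA).filter (fun t => E.Rbad t.1 t.2) ⊆
      ((E.SA ×ˢ E.SA).filter (fun t => ¬ Nat.Coprime (E.Mp t.1) (E.Mp t.2)) ∪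
        (E.SA ×ˢ E.SA).filter (fun t => E.Mp t.1 = 1 ∧ E.Mp t.2 = 1)) ∪
      (E.SA ×ˢ E.SA).filter (fun t => (E.W : ℝ) ^ (-(E.ε / 4)) <
        Phi E.𝒲 E.ε E.y E.W E.L0 (E.Mp t.1 * E.Mp t.2)) := by
    intro t ht
    rw [mem_filter] at ht
    obtain ⟨h2, h3⟩ := ht
    rw [mem_union, mem_union, mem_filter, mem_filter, mem_filter]
    unfold Env.Rbad at h3
    by_cases ha : Nat.Coprime (E.Mp t.1) (E.Mp t.2)
    · by_cases hb : E.Mp t.1 = 1 ∧ E.Mp t.2 = 1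
      · exact Or.inl (Or.inr ⟨h2, hb⟩)
      · refine Or.inr ⟨h2, ?_⟩
        by_contra hc
        exact h3 ⟨ha, hb, not_lt.1 hc⟩
    · exact Or.inl (Or.inl ⟨h2, ha⟩)
  have h2 := (Finset.card_le_card h1).trans
    ((Finset.card_union_le _ _).trans (Nat.add_le_add_right (Finset.card_union_le _ _) _))
  have h3 : (((E.SA ×ˢ E.SA).filter (fun t => E.Rbad t.1 t.2)).card : ℝ) ≤
      (((E.SA ×ˢ E.SA).filter (fun t => ¬ Nat.Coprime (E.Mp t.1) (E.Mp t.2))).card : ℝ) +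
      (((E.SA ×ˢ E.SA).filter (fun t => E.Mp t.1 = 1 ∧ E.Mp t.2 = 1)).card : ℝ) +
      (((E.SA ×ˢ E.SA).filter (fun t => (E.W : ℝ) ^ (-(E.ε / 4)) <
        Phi E.𝒲 E.ε E.y E.W E.L0 (E.Mp t.1 * E.Mp t.2))).card : ℝ) := by
    exact_mod_cast h2
  have h4 := mul_le_mul_of_nonneg_left h3 (by positivity : (0 : ℝ) ≤ 16 * (E.P : ℝ) ^ 2)
  have h5 := t1a_two E
  have h6 := t1a_three E
  have h7 := t1a_phi E
  rw [mul_add, mul_add] at h4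
  linarith

end GCN
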