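import Pool.Agent.GCN.N1

/-!
# [GCN-X2] the choice of two parts and of the set `D`
-/

set_option autoImplicit false

open Finset

namespace GCN

/-- [X2] Proof. For every `i` and every `c ∈ F i` divisible by a core prime choose one core prime `l ∣ c`; `D` is the set of all of them, `#D ≤ P N0`. For `c ∈ F i` without core prime factor, `c ≠ 1`, choose a prime
`l ∣ c`: `l ∣ Lc z (cp K y) * ∏_{j ≠ i} M j`, not a core prime (`prime_dvd_Lc`), so `l ∣ M j` for some `j ≠ i`, unique by coprimality: an arrow `i → j`. There are at most `P N0 < P (P-1)/2` arrows, so some pair `i < j` has no arrow in either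
direction (`N0 ≤ (P-2)/2`). Let `c ∈ F i`, `c ≠ 1`, and suppose `c ∣ Lc z (cp K y \ D) * M j`. If `c` has a core prime factor, the chosen one `l ∈ D` divides `Lc z (cp K y \ D)` (impossible, `l ∈ D`) or `M j` (impossible, `l ≤ y`). Otherwise the
chosen prime `l ∣ c` is not core, so it does not divide `Lc`, hence `l ∣ M j`: an arrow `i → j`, contradiction. The same with `i`, `j` exchanged. -/
theorem choose_pair (K y z P N0 : ℕ) (hP : 2 * N0 + 2 ≤ P) (M : Fin P → ℕ) (hM : ∀ i, M i ≠ 0)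
    (hMy : ∀ i, ∀ p : ℕ, p.Prime → p ∣ M i → y < p) (hco : ∀ i j, i ≠ j → Nat.Coprime (M i) (M j))
    (F : Fin P → Finset ℕ) (hFc : ∀ i, (F i).card ≤ N0)
    (hF : ∀ i, ∀ c ∈ F i, c ∣ Lc z (cp K y) * ∏ j ∈ univ.erase i, M j) :
    ∃ D : Finset ℕ, D ⊆ cp K y ∧ D.card ≤ P * N0 ∧ ∃ i j : Fin P, i ≠ j ∧
      (∀ c ∈ F i, c ≠ 1 → ¬ c ∣ Lc z (cp K y \ D) * M j) ∧
      (∀ c ∈ F j, c ≠ 1 → ¬ c ∣ Lc z (cp K y \ D) * M i) := by
  classical
  have hcp : ∀ l ∈ cp K y, l.Prime := fun l hl => (Finset.mem_filter.1 hl).2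
  have hcpy : ∀ l ∈ cp K y, l ≤ y := fun l hl =>
    (Finset.mem_Ioc.1 (Finset.mem_filter.1 hl).1).2
  let a : ℕ → ℕ := fun c => if h : ∃ l ∈ cp K y, l ∣ c then h.choose else 0
  have ha : ∀ c, (∃ l ∈ cp K y, l ∣ c) → a c ∈ cp K y ∧ a c ∣ c := by
    intro c hc
    have h1 : a c = hc.choose := by
      show (if h : ∃ l ∈ cp K y, l ∣ c then h.choose else 0) = hc.choose
      rw [dif_pos hc]
    rw [h1]
    exact hc.choose_spec
  let D : Finset ℕ := ((univ.biUnion F).image a).filter (fun l => l ∈ cp K y)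
  have hD : ∀ i, ∀ c ∈ F i, (∃ l ∈ cp K y, l ∣ c) → a c ∈ D := by
    intro i c hc h
    exact Finset.mem_filter.2 ⟨Finset.mem_image_of_mem _
      (Finset.mem_biUnion.2 ⟨i, Finset.mem_univ i, hc⟩), (ha c h).1⟩
  have hDc : D.card ≤ P * N0 := by
    calc D.card ≤ ((univ.biUnion F).image a).card := Finset.card_filter_le _ _
      _ ≤ (univ.biUnion F).card := Finset.card_image_le
      _ ≤ ∑ i, (F i).card := Finset.card_biUnion_le
      _ ≤ ∑ _i : Fin P, N0 := Finset.sum_le_sum fun i _ => hFc i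
      _ = P * N0 := by simp
  let A : Finset (Fin P × Fin P) := univ.filter (fun t => ∃ c ∈ F t.1, c ≠ 1 ∧ c.minFac ∣ M t.2)
  have hA : A.card ≤ P * N0 := by
    have h1 : A ⊆ univ.biUnion (fun i : Fin P => (univ.filter (fun j : Fin P =>
        ∃ c ∈ F i, c ≠ 1 ∧ c.minFac ∣ M j)).image (fun j => (i, j))) := by
      intro t ht
      have ht2 := (Finset.mem_filter.1 ht).2
      refine Finset.mem_biUnion.2 ⟨t.1, Finset.mem_univ _, Finset.mem_image.2 ⟨t.2, ?_, rfl⟩⟩
      exact Finset.mem_filter.2 ⟨Finset.mem_univ _, ht2⟩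
    have h2 : ∀ i : Fin P, (univ.filter (fun j : Fin P =>
        ∃ c ∈ F i, c ≠ 1 ∧ c.minFac ∣ M j)).card ≤ N0 := by
      intro i
      refine le_trans ?_ (hFc i)
      refine Finset.card_le_card_of_forall_subsingleton
        (fun (j : Fin P) (c : ℕ) => c ≠ 1 ∧ c.minFac ∣ M j) ?_ ?_
      · intro j hj
        obtain ⟨c, hc, h⟩ := (Finset.mem_filter.1 hj).2
        exact ⟨c, hc, h⟩
      · intro c hc j hj j' hj'
        by_contra hne
        have h3 := Nat.dvd_gcd hj.2.2 hj'.2.2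
        rw [hco j j' hne] at h3
        exact (Nat.minFac_prime hj.2.1).one_lt.ne' (Nat.dvd_one.1 h3)
    calc A.card ≤ _ := Finset.card_le_card h1
      _ ≤ ∑ i : Fin P, ((univ.filter (fun j : Fin P =>
          ∃ c ∈ F i, c ≠ 1 ∧ c.minFac ∣ M j)).image (fun j => (i, j))).card := Finset.card_biUnion_le
      _ ≤ ∑ _i : Fin P, N0 := Finset.sum_le_sum fun i _ => Finset.card_image_le.trans (h2 i)
      _ = P * N0 := by simp
  have hex : ∃ i j : Fin P, i ≠ j ∧ (i, j) ∉ A ∧ (j, i) ∉ A := by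
    by_contra hcon
    push Not at hcon
    have h1 : (univ : Finset (Fin P)).offDiag ⊆ A ∪ A.image Prod.swap := by
      intro t ht
      have ht2 := (Finset.mem_offDiag.1 ht).2.2
      by_cases h : (t.1, t.2) ∈ A
      · exact Finset.mem_union_left _ h
      · refine Finset.mem_union_right _ (Finset.mem_image.2 ⟨(t.2, t.1), hcon t.1 t.2 ht2 h, rfl⟩)
    have h2 := Finset.card_le_card h1
    rw [Finset.offDiag_card, Finset.card_univ, Fintype.card_fin] at h2
    have h3 : (A ∪ A.image Prod.swap).card ≤ P * N0 + P * N0 :=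
      (Finset.card_union_le _ _).trans (add_le_add hA (Finset.card_image_le.trans hA))
    have h4 : P * P - P ≤ P * (2 * N0) := by
      calc P * P - P ≤ P * N0 + P * N0 := h2.trans h3
        _ = P * (2 * N0) := by ring
    have h5 : P * (2 * N0) + 2 * P ≤ P * P := by
      calc P * (2 * N0) + 2 * P = P * (2 * N0 + 2) := by ring
        _ ≤ P * P := Nat.mul_le_mul le_rfl hP
    omega
  obtain ⟨i, j, hij, h1, h2⟩ := hex
  have key : ∀ i j : Fin P, (i, j) ∉ A → ∀ c ∈ F i, c ≠ 1 → ¬ c ∣ Lc z (cp K y \ D) * M j := by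
    intro i j hA c hc hc1 hdvd
    have hsub : ∀ l ∈ cp K y \ D, l.Prime := fun l hl => hcp l (Finset.mem_sdiff.1 hl).1
    by_cases h : ∃ l ∈ cp K y, l ∣ c
    · obtain ⟨h3, h4⟩ := ha c h
      have hp := hcp _ h3
      rcases (hp.dvd_mul).1 (h4.trans hdvd) with h5 | h5
      · rw [prime_dvd_Lc z _ hsub _ hp] at h5
        exact (Finset.mem_sdiff.1 h5).2 (hD i c hc h)
      · exact absurd (hMy j _ hp h5) (not_lt.2 (hcpy _ h3))
    · have hp := Nat.minFac_prime hc1
      rcases (hp.dvd_mul).1 ((Nat.minFac_dvd c).trans hdvd) with h5 | h5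
      · rw [prime_dvd_Lc z _ hsub _ hp] at h5
        exact h ⟨_, (Finset.mem_sdiff.1 h5).1, Nat.minFac_dvd c⟩
      · exact hA (Finset.mem_filter.2 ⟨Finset.mem_univ _, c, hc, hc1, h5⟩)
  exact ⟨D, fun l hl =>
    (Finset.mem_filter.1 hl).2, hDc, i, j, hij, key i j h1, key j i h2⟩

end GCN
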