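import Pool.Agent.GCN.Defs2
import Pool.Agent.GCN.N1
import Pool.Agent.GCN.C3

/-!
# [GCN-X3] the selected primes `SS`
-/

set_option autoImplicit false

open Finset

namespace GCN

theorem x3_prt_zero (S : Set ℕ) : prt S ((2 - 1) / 2) = 1 := by
  unfold prt
  simp

/-- [X3a] for `s ∈ SM`: `s` is a prime, `x/2 < s ≤ x`, `s ≡ -1 mod f`, `M ∣ (s-1)/2`. If `2 ∣ f`, `s` is odd and `M ∣ s - 1`. -/
theorem mem_SM (f x y W M s : ℕ) (hs : s ∈ SM f x y W M) :
    s.Prime ∧ x / 2 < s ∧ s ≤ x ∧ f ∣ s + 1 ∧ prt (Set.Ioc y W) ((s - 1) / 2) = M ∧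
      M ∣ (s - 1) / 2 ∧ M ∣ s - 1 := by
  classical
  unfold SM at hs
  rw [mem_filter] at hs
  obtain ⟨h1, h2⟩ := hs
  unfold Pm at h1
  rw [mem_filter, mem_Ioc] at h1
  obtain ⟨⟨h3, h4⟩, h5, h6⟩ := h1
  have hd : M ∣ (s - 1) / 2 := by
    rw [← h2]
    exact prt_dvd _ _
  refine ⟨h5, h3, h4, h6, h2, hd, ?_⟩
  rcases h5.eq_two_or_odd with h7 | h7
  · have h8 : M = 1 := by
      rw [← h2, h7]
      exact x3_prt_zero _
    rw [h8]
    exact one_dvd _
  · have h8 : (s - 1) / 2 ∣ s - 1 := by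
      refine ⟨2, ?_⟩
      omega
    exact hd.trans h8

/-- [X3b] Proof. The removed `s`: those with some `l ∈ D` dividing `s - 1`: at most `∑_{l ∈ D} G/(l-1) ≤ #D G/K` (`l - 1 ≥ K`); those with `l^(e+2) ∣ s - 1`, `e = log_l(z²)`, for some `l ∈ cp K y`: `M` and `l^(e+2)` are coprime
(`l ≤ y`, the primes of `M` are `> y`), so `M l^(e+2) ∣ s - 1`, `l^(e+2) ≥ z²` (`Nat.lt_pow_succ_log_self`), by `count_dvd` (C3) at most `x/(M z²)` for every one of the at most `y` primes `l`. -/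
theorem SS_card (f x y z W K M : ℕ) (D : Finset ℕ) (hf : 2 ∣ f) (hx : 4 ≤ x) (hK : 1 ≤ K) (hz : 1 ≤ z) (hM : M ≠ 0)
    (hMy : ∀ p : ℕ, p.Prime → p ∣ M → y < p) (hD : D ⊆ cp K y) (G : ℝ) (hG0 : 0 ≤ G)
    (hG : ∀ l ∈ cp K y, (((SM f x y W M).filter (fun s => l ∣ s - 1)).card : ℝ) ≤ G / (l - 1)) :
    ((SM f x y W M).card : ℝ) ≤
      (SS f x y z W K M D).card + D.card * (G / K) + (x : ℝ) * y / (M * z ^ 2) := by
  classical
  have hsub : SM f x y W M ⊆ SS f x y z W K M D ∪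
      (D.biUnion (fun l => (SM f x y W M).filter (fun s => l ∣ s - 1)) ∪
      (cp K y).biUnion (fun l => (SM f x y W M).filter
        (fun s => l ^ (Nat.log l (z ^ 2) + 2) ∣ s - 1))) := by
    intro s hs
    rw [mem_union, mem_union, mem_biUnion, mem_biUnion]
    by_cases h1 : ∀ l ∈ D, ¬ l ∣ s - 1
    · by_cases h2 : ∀ l ∈ cp K y, ¬ l ^ (Nat.log l (z ^ 2) + 2) ∣ s - 1
      · left
        unfold SS
        rw [mem_filter]
        exact ⟨hs, h1, h2⟩
      · right; right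
        push Not at h2
        obtain ⟨l, hl, hl2⟩ := h2
        exact ⟨l, hl, mem_filter.mpr ⟨hs, hl2⟩⟩
    · right; left
      push Not at h1
      obtain ⟨l, hl, hl2⟩ := h1
      exact ⟨l, hl, mem_filter.mpr ⟨hs, hl2⟩⟩
  have hc := (card_le_card hsub).trans (card_union_le _ _)
  have hc2 := card_union_le (D.biUnion (fun l => (SM f x y W M).filter (fun s => l ∣ s - 1)))
    ((cp K y).biUnion (fun l => (SM f x y W M).filter
        (fun s => l ^ (Nat.log l (z ^ 2) + 2) ∣ s - 1)))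
  have hc3 := card_biUnion_le (s := D) (t := fun l => (SM f x y W M).filter (fun s => l ∣ s - 1))
  have hc4 := card_biUnion_le (s := cp K y) (t := fun l => (SM f x y W M).filter
        (fun s => l ^ (Nat.log l (z ^ 2) + 2) ∣ s - 1))
  have hall : (SM f x y W M).card ≤ (SS f x y z W K M D).card +
      (∑ l ∈ D, ((SM f x y W M).filter (fun s => l ∣ s - 1)).card +
      ∑ l ∈ cp K y, ((SM f x y W M).filter
        (fun s => l ^ (Nat.log l (z ^ 2) + 2) ∣ s - 1)).card) := by omega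
  have hall' : ((SM f x y W M).card : ℝ) ≤ ((SS f x y z W K M D).card : ℝ) +
      (∑ l ∈ D, (((SM f x y W M).filter (fun s => l ∣ s - 1)).card : ℝ) +
      ∑ l ∈ cp K y, (((SM f x y W M).filter
        (fun s => l ^ (Nat.log l (z ^ 2) + 2) ∣ s - 1)).card : ℝ)) := by
    exact_mod_cast hall
  have hKr : (1 : ℝ) ≤ K := by exact_mod_cast hK
  have b1 : ∑ l ∈ D, (((SM f x y W M).filter (fun s => l ∣ s - 1)).card : ℝ) ≤
      D.card * (G / K) := by
    have : ∀ l ∈ D, (((SM f x y W M).filter (fun s => l ∣ s - 1)).card : ℝ) ≤ G / K := by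
      intro l hl
      have hl' := hD hl
      refine (hG l hl').trans ?_
      unfold cp at hl'
      rw [mem_filter, mem_Ioc] at hl'
      have h1 : ((K + 1 : ℕ) : ℝ) ≤ l := by exact_mod_cast hl'.1.1
      push_cast at h1
      exact div_le_div_of_nonneg_left hG0 (by linarith) (by linarith)
    refine (sum_le_sum this).trans ?_
    rw [sum_const, nsmul_eq_mul]
  have hzr : (1 : ℝ) ≤ z := by exact_mod_cast hz
  have hMr : (0 : ℝ) < M := by exact_mod_cast Nat.pos_of_ne_zero hM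
  have b2 : ∑ l ∈ cp K y, (((SM f x y W M).filter
        (fun s => l ^ (Nat.log l (z ^ 2) + 2) ∣ s - 1)).card : ℝ) ≤
      (x : ℝ) * y / (M * z ^ 2) := by
    have : ∀ l ∈ cp K y, (((SM f x y W M).filter
        (fun s => l ^ (Nat.log l (z ^ 2) + 2) ∣ s - 1)).card : ℝ) ≤ (x : ℝ) / (M * z ^ 2) := by
      intro l hl
      unfold cp at hl
      rw [mem_filter, mem_Ioc] at hl
      obtain ⟨⟨hl1, hl2⟩, hlp⟩ := hl
      have hlog : z ^ 2 ≤ l ^ (Nat.log l (z ^ 2) + 2) := by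
        have h1 := Nat.lt_pow_succ_log_self hlp.one_lt (z ^ 2)
        have h2 : l ^ (Nat.log l (z ^ 2)).succ ≤ l ^ (Nat.log l (z ^ 2) + 2) :=
          Nat.pow_le_pow_right hlp.pos (by omega)
        omega
      have hco : Nat.Coprime M (l ^ (Nat.log l (z ^ 2) + 2)) := by
        apply Nat.Coprime.pow_right
        rw [Nat.coprime_comm, Nat.Prime.coprime_iff_not_dvd hlp]
        intro h
        have := hMy l hlp h
        omega
      have hlpow : 0 < l ^ (Nat.log l (z ^ 2) + 2) := Nat.pow_pos hlp.pos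
      have h3 := count_dvd x (M * l ^ (Nat.log l (z ^ 2) + 2))
        (Nat.mul_pos (Nat.pos_of_ne_zero hM) hlpow)
        ((SM f x y W M).filter (fun s => l ^ (Nat.log l (z ^ 2) + 2) ∣ s - 1)) (by
          intro s hs
          rw [mem_filter] at hs
          obtain ⟨hs1, hs2⟩ := hs
          obtain ⟨g1, g2, g3, g4, g5, g6, g7⟩ := mem_SM f x y W M s hs1
          exact ⟨g1.two_le, g3, Nat.Coprime.mul_dvd_of_dvd_of_dvd hco g7 hs2⟩)
      refine h3.trans ?_
      have h4 : ((z ^ 2 : ℕ) : ℝ) ≤ ((l ^ (Nat.log l (z ^ 2) + 2) : ℕ) : ℝ) := by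
        exact_mod_cast hlog
      rw [Nat.cast_mul]
      refine div_le_div_of_nonneg_left (Nat.cast_nonneg x) (by positivity) ?_
      have h5 : (z : ℝ) ^ 2 ≤ ((l ^ (Nat.log l (z ^ 2) + 2) : ℕ) : ℝ) := by
        rw [← Nat.cast_pow]
        exact h4
      exact mul_le_mul_of_nonneg_left h5 hMr.le
    refine (sum_le_sum this).trans ?_
    rw [sum_const, nsmul_eq_mul]
    have hcard : ((cp K y).card : ℝ) ≤ y := by
      have h1 : (cp K y).card ≤ (Ioc K y).card := card_filter_le _ _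
      rw [Nat.card_Ioc] at h1
      exact_mod_cast h1.trans (Nat.sub_le y K)
    have hq : 0 ≤ (x : ℝ) / (M * z ^ 2) := by positivity
    calc ((cp K y).card : ℝ) * ((x : ℝ) / (M * z ^ 2)) ≤ (y : ℝ) * ((x : ℝ) / (M * z ^ 2)) :=
          mul_le_mul_of_nonneg_right hcard hq
      _ = (x : ℝ) * y / (M * z ^ 2) := by ring
  linarith

/-- [X3c] Proof. `N = (s-1)/2 ≠ 0`. `s ≡ -1 mod 4 K!` gives `(s-1)/2 ≡ -1 mod 2 K!`, so no prime `≤ K` divides `N`; the primes `≤ y` dividing `N` are core primes, not in `D`, with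
exponents at most `log_l(z²) + 1`: `prt (Iic y) N ∣ Lc z (cp K y \ D)` (`dvd_Lc`). `N` is the product of its three parts (`prt_split`). -/
theorem SS_struct (K x y z W M s : ℕ) (D : Finset ℕ) (hyW : y ≤ W) (hx : 6 ≤ x)
    (hs : s ∈ SS (4 * K.factorial) x y z W K M D) :
    (s - 1) / 2 ∣ Lc z (cp K y \ D) * M * prt (Set.Ioi W) ((s - 1) / 2) := by
  classical
  unfold SS at hs
  rw [mem_filter] at hs
  obtain ⟨hs1, hs2, hs3⟩ := hs
  obtain ⟨g1, g2, g3, g4, g5, g6, g7⟩ := mem_SM _ x y W M s hs1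
  have hs4 : 4 ≤ s := by omega
  have hodd : s % 2 = 1 := by
    rcases g1.eq_two_or_odd with h | h
    · omega
    · exact h
  have hNs : (s - 1) / 2 ∣ s - 1 := ⟨2, by omega⟩
  have hN0 : (s - 1) / 2 ≠ 0 := by omega
  have hsplit := prt_split y W ((s - 1) / 2) hyW hN0
  rw [g5] at hsplit
  have hK : ∀ p : ℕ, p.Prime → p ∣ (s - 1) / 2 → K < p := by
    intro p hp hpd
    by_contra hcon
    have h1 : p ∣ K.factorial := (Nat.Prime.dvd_factorial hp).mpr (by omega)
    obtain ⟨t, ht⟩ := g4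
    have h2 : (s - 1) / 2 + 1 = K.factorial * (2 * t) := by
      have : 4 * K.factorial * t = 2 * (K.factorial * (2 * t)) := by ring
      omega
    have h3 : p ∣ (s - 1) / 2 + 1 := by
      rw [h2]
      exact h1.mul_right _
    have h4 : p ∣ 1 := (Nat.dvd_add_right hpd).mp h3
    exact hp.one_lt.ne' (Nat.dvd_one.mp h4)
  have hmain : prt (Set.Iic y) ((s - 1) / 2) ∣ Lc z (cp K y \ D) := by
    apply dvd_Lc
    · intro l hl
      rw [mem_sdiff] at hl
      have := hl.1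
      unfold cp at this
      rw [mem_filter] at this
      exact this.2
    · exact prt_ne_zero _ _
    · intro p hp hpd
      obtain ⟨h1, h2⟩ := prime_of_dvd_prt _ _ p hp hpd
      rw [mem_sdiff]
      refine ⟨?_, fun h => hs2 p h (h2.trans hNs)⟩
      unfold cp
      rw [mem_filter, mem_Ioc]
      exact ⟨⟨hK p hp h2, h1⟩, hp⟩
    · intro l hl hld
      rw [mem_sdiff] at hl
      exact hs3 l hl.1 ((hld.trans (prt_dvd _ _)).trans hNs)
  conv_lhs => rw [← hsplit]
  exact mul_dvd_mul_right (mul_dvd_mul_right hmain M) _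

end GCN
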