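import Pool.Agent.GCN.T1
import Pool.Agent.GCN.X1
import Pool.Agent.GCN.X2
import Pool.Agent.GCN.X3

/-!
# [GCN-T1c] the choice of `D`, `M`, `M'`
-/

set_option autoImplicit false

open Finset

open scoped Classical

namespace GCN

variable {k : ℤ} (E : Env k)

theorem t1c_EQ_pos : 0 < E.EQ := by
  have hy : 2 < E.y := lt_of_le_of_lt E.hK2 E.hKy
  have hW : 2 < E.W := by
    have h1 := E.hyz
    have h2 := E.hzW
    omega
  have hx : 1 < E.x := lt_of_lt_of_le (Nat.one_lt_pow (by norm_num) (by omega)) E.hWx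
  have h1 : (0 : ℝ) < Real.log E.y := Real.log_pos (by exact_mod_cast (by omega : 1 < E.y))
  have h2 : (0 : ℝ) < Real.log E.W := Real.log_pos (by exact_mod_cast (by omega : 1 < E.W))
  have h3 : (0 : ℝ) < Real.log E.x := Real.log_pos (by exact_mod_cast hx)
  have h4 : (0 : ℝ) < E.x := by exact_mod_cast (by omega : 0 < E.x)
  have h5 : (0 : ℝ) < Nat.totient (4 * E.K.factorial) := by
    exact_mod_cast Nat.totient_pos.2 (Nat.mul_pos (by norm_num) (Nat.factorial_pos _))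
  unfold Env.EQ EE
  positivity

theorem t1c_xW : E.W ≤ E.x / 2 := by
  have h1 := E.hyz
  have h2 := E.hzW
  have h3 : 2 ≤ E.W := by omega
  have h4 : E.W ^ 2 ≤ E.W ^ 400 := Nat.pow_le_pow_right (by omega) (by norm_num)
  have h5 := E.hWx
  have h6 : 2 * E.W ≤ E.W ^ 2 := by nlinarith
  omega

theorem t1c_exc (M M'' : ℕ) (hM : M ≠ 0) (hM'' : M'' ≠ 0) (hco : Nat.Coprime M M'')
    (hpr : ∀ p : ℕ, p.Prime → p ∣ M * M'' → E.y < p ∧ p ≤ E.W)
    (hle : M * M'' ≤ E.W ^ (E.C3 * E.P)) (h1 : E.ch * E.EQ / M ≤ ((E.S M).card : ℝ)) :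
    ∃ F : Finset ℕ, F.card ≤ E.N0 ∧ (∀ c ∈ F, c ∣ Lc E.z (cp E.K E.y) * M'') ∧
      ∀ n : ℕ, n ∣ Lc E.z (cp E.K E.y) * M'' → (∀ c ∈ F, c ≠ 1 → ¬ c ∣ n) →
        ∀ χ : DirichletCharacter ℂ n, χ ≠ 1 →
          ‖∑ s ∈ E.S M, χ (s : ZMod n)‖ ≤ (E.S M).card / (16 * E.C2 / E.ch) := by
  have hEQ := t1c_EQ_pos E
  have hcp : ∀ l ∈ cp E.K E.y, l.Prime := fun l hl => (mem_filter.1 hl).2
  have hL0 : Lc E.z (cp E.K E.y) ≠ 0 := Lc_ne_zero _ _ hcp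
  have hN : Lc E.z (cp E.K E.y) * M'' ≠ 0 := mul_ne_zero hL0 hM''
  have : NeZero (Lc E.z (cp E.K E.y) * M'') := ⟨hN⟩
  have hyW : E.y ≤ E.W := by
    have h1 := E.hyz
    have h2 := E.hzW
    omega
  have hLp : ∀ p : ℕ, p.Prime → p ∣ Lc E.z (cp E.K E.y) → p ≤ E.y := fun p hp h =>
    (mem_Ioc.1 (mem_filter.1 ((prime_dvd_Lc _ _ hcp p hp).1 h)).1).2
  have hcoL : Nat.Coprime (Lc E.z (cp E.K E.y)) M'' := by
    refine Nat.Coprime.symm (Nat.coprime_of_dvd fun p hp h2 h3 => ?_)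
    have h4 := (hpr p hp (h2.mul_left M)).1
    have h5 := hLp p hp h3
    omega
  have hScop : ∀ s ∈ E.S M, Nat.Coprime s (Lc E.z (cp E.K E.y) * M'') := by
    intro s hs
    obtain ⟨g1, g2, -⟩ := mem_SM _ _ _ _ _ _ hs
    have h3 := t1c_xW E
    rw [Nat.Prime.coprime_iff_not_dvd g1, g1.dvd_mul]
    rintro (h4 | h4)
    · have h5 := hLp s g1 h4
      omega
    · have h5 := (hpr s g1 (h4.mul_left M)).2
      omega
  have hMr : (0 : ℝ) < M := by exact_mod_cast Nat.pos_of_ne_zero hM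
  have hC2 : (0 : ℝ) < E.C2 := lt_of_lt_of_le one_pos E.hC2
  have hch := E.hch
  have hSpos : (0 : ℝ) < (E.S M).card := lt_of_lt_of_le (by positivity) h1
  have hB : (0 : ℝ) < 16 * E.C2 / E.ch := by positivity
  have hsb : ∀ b : ℕ, (((E.S M).filter
      (fun s => s ≡ b [MOD Lc E.z (cp E.K E.y) * M''])).card : ℝ) ≤
      (E.C2 * E.EQ / M) / Nat.totient (Lc E.z (cp E.K E.y) * M'') := by
    intro b
    refine (E.sb M M'' b hM hM'' hco hpr hle).trans (le_of_eq ?_)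
    rw [Nat.totient_mul hcoL, Nat.cast_mul, div_div, mul_assoc (M : ℝ)]
    rfl
  let 𝒳 : Finset (DirichletCharacter ℂ (Lc E.z (cp E.K E.y) * M'')) := univ.filter fun χ =>
    ((E.S M).card : ℝ) / (16 * E.C2 / E.ch) ≤
      ‖∑ s ∈ E.S M, χ (s : ZMod (Lc E.z (cp E.K E.y) * M''))‖
  have hX := exc_count (Lc E.z (cp E.K E.y) * M'') (E.S M)
    (card_pos.1 (by exact_mod_cast hSpos)) hScop (E.C2 * E.EQ / M) (16 * E.C2 / E.ch) hB hsb 𝒳
    (fun χ hχ => (mem_filter.1 hχ).2)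
  have hXN : 𝒳.card ≤ E.N0 := by
    have h2 : (16 * E.C2 / E.ch) ^ 2 * (E.C2 * E.EQ / M) / (E.S M).card ≤ E.N0 := by
      rw [div_le_iff₀ hSpos]
      have h3 : (16 * E.C2 / E.ch) ^ 2 * (E.C2 * E.EQ / (M : ℝ)) =
          ((16 * E.C2 / E.ch) ^ 2 * (E.C2 / E.ch)) * (E.ch * E.EQ / (M : ℝ)) := by
        field_simp
      rw [h3]
      exact mul_le_mul E.hN0 h1 (by positivity) (Nat.cast_nonneg _)
    exact_mod_cast hX.trans h2
  refine ⟨𝒳.image DirichletCharacter.conductor, card_image_le.trans hXN, ?_, ?_⟩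
  · intro c hc
    obtain ⟨χ, -, rfl⟩ := mem_image.1 hc
    exact χ.conductor_dvd_level
  · intro n hn hnc χ hχ
    exact (no_exc n (Lc E.z (cp E.K E.y) * M'') hn (E.S M) hScop (16 * E.C2 / E.ch)
      (𝒳.image DirichletCharacter.conductor)
      (fun χ' hχ' => mem_image_of_mem _ (mem_filter.2 ⟨mem_univ _, hχ'⟩)) hnc χ hχ).le

/-- [T1c] Proof. `v` from `exists_clique`, `M i = Mp (v i)`: nonzero, primes in `(y, W]` (N1), pairwise coprime, `≤ W^C3`; not both `1`, so different for `i ≠ j`. For every `i` let `M''_i = ∏_{j ∈ univ.erase i} M j`, `N_i = L0 M''_i`;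
`M i M''_i = ∏ M j ≤ W^(C3 P)`. `sb` (with `M i`, `M''_i`): `#{s ∈ S (M i) : s ≡ b mod N_i} ≤ (C2 EQ/M i)/φ(N_i)` (`φ` multiplicative: the primes of `L0` are `≤ y`). The elements of `S (M i)` are primes `> x/2 ≥ W`, prime to `N_i`.
`𝒳_i` = all characters modulo `N_i` with `#S/B ≤ ‖∑‖`, `B = 16 C2/ch`: by `exc_count` (X1) `#𝒳_i ≤ B² (C2 EQ/M i)/#(S (M i)) ≤ B² C2/ch ≤ N0` (`#(S (M i)) ≥ ch EQ/M i`; `EQ > 0`). `F i` = image of `conductor` on `𝒳_i`.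
`choose_pair` (X2) gives `D`, `i ≠ j`. `no_exc` (X1) with `n = L D * M j ∣ N_i` (`Lc_dvd`, `M j ∣ M''_i`) gives `hχ`; the same with `i`, `j` exchanged gives `hχ'`. `hPhi`, `hco`, `hne` from `¬ Rbad`. -/
theorem exists_sel : Nonempty (Sel E) := by
  obtain ⟨v, -, hv2, hv3⟩ := exists_clique E
  have hM0 : ∀ i, E.Mp (v i) ≠ 0 := fun i => prt_ne_zero _ _
  have hMpr : ∀ i, ∀ p : ℕ, p.Prime → p ∣ E.Mp (v i) → E.y < p ∧ p ≤ E.W := fun i p hp h =>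
    mem_Ioc.1 (by
      have := (prime_of_dvd_prt _ _ p hp h).1
      exact mem_Ioc.2 this)
  have hR : ∀ i j, i ≠ j → Nat.Coprime (E.Mp (v i)) (E.Mp (v j)) ∧
      ¬ (E.Mp (v i) = 1 ∧ E.Mp (v j) = 1) ∧
      Phi E.𝒲 E.ε E.y E.W E.L0 (E.Mp (v i) * E.Mp (v j)) ≤ (E.W : ℝ) ^ (-(E.ε / 4)) :=
    fun i j hij => not_not.1 (hv3 i j hij)
  have hprod : ∀ i, ∏ j ∈ univ.erase i, E.Mp (v j) ≠ 0 := fun i =>
    prod_ne_zero_iff.2 fun j _ => hM0 j
  have hex : ∀ i, ∃ F : Finset ℕ, F.card ≤ E.N0 ∧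
      (∀ c ∈ F, c ∣ Lc E.z (cp E.K E.y) * ∏ j ∈ univ.erase i, E.Mp (v j)) ∧
      ∀ n : ℕ, n ∣ Lc E.z (cp E.K E.y) * ∏ j ∈ univ.erase i, E.Mp (v j) →
        (∀ c ∈ F, c ≠ 1 → ¬ c ∣ n) → ∀ χ : DirichletCharacter ℂ n, χ ≠ 1 →
          ‖∑ s ∈ E.S (E.Mp (v i)), χ (s : ZMod n)‖ ≤
            (E.S (E.Mp (v i))).card / (16 * E.C2 / E.ch) := by
    intro i
    apply t1c_exc E (E.Mp (v i)) (∏ j ∈ univ.erase i, E.Mp (v j)) (hM0 i) (hprod i)
    · exact Nat.Coprime.prod_right fun j hj => (hR i j (ne_of_mem_erase hj).symm).1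
    · intro p hp h
      rw [mul_prod_erase univ (fun j => E.Mp (v j)) (mem_univ i)] at h
      obtain ⟨j, -, hj⟩ := (Prime.dvd_finsetProd_iff hp.prime _).1 h
      exact hMpr j p hp hj
    · rw [mul_prod_erase univ (fun j => E.Mp (v j)) (mem_univ i), pow_mul]
      refine (prod_le_pow_card _ _ (E.W ^ E.C3) fun j _ => (hv2 j).1).trans (le_of_eq ?_)
      rw [card_univ, Fintype.card_fin]
    · exact (hv2 i).2
  choose F hF1 hF2 hF3 using hex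
  obtain ⟨D, hD, hDc, i, j, hij, hci, hcj⟩ := choose_pair E.K E.y E.z E.P E.N0 E.hP
    (fun i => E.Mp (v i)) hM0 (fun i p hp h => (hMpr i p hp h).1) (fun i j hij => (hR i j hij).1)
    F hF1 hF2
  have hdvd : ∀ i j : Fin E.P, i ≠ j → E.L D * E.Mp (v j) ∣
      Lc E.z (cp E.K E.y) * ∏ j ∈ univ.erase i, E.Mp (v j) := fun i j hij =>
    Nat.mul_dvd_mul (Lc_dvd _ _ _ sdiff_subset)
      (dvd_prod_of_mem (fun j => E.Mp (v j)) (mem_erase.2 ⟨hij.symm, mem_univ j⟩))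
  refine ⟨{ D := D, M := E.Mp (v i), M' := E.Mp (v j), hD := hD, hDc := hDc, hM := hM0 i,
            hM' := hM0 j, hco := (hR i j hij).1, hne := ?_, hpr := ?_, hMW := (hv2 i).1,
            hMW' := (hv2 j).1, hPhi := (hR i j hij).2.2, h1 := (hv2 i).2, h1' := (hv2 j).2,
            hχ := hF3 i _ (hdvd i j hij) hci, hχ' := hF3 j _ (hdvd j i hij.symm) hcj }⟩
  · intro h
    have h1 := (hR i j hij).1
    rw [← h, Nat.coprime_self] at h1
    exact (hR i j hij).2.1 ⟨h1, h ▸ h1⟩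
  · intro p hp h
    rcases (hp.dvd_mul).1 h with h | h
    · exact hMpr i p hp h
    · exact hMpr j p hp h

end GCN
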