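import Pool.Agent.GCN.T2a
import Pool.Agent.GCN.X1

/-!
# [GCN-T2] size, density and character sums of the selected primes
-/

set_option autoImplicit false

open Finset

open scoped Classical

namespace GCN

variable {k : ℤ} (E : Env k)

theorem t2_size : 8 ≤ E.W ∧ 8 * E.W ≤ E.x := by
  have hK2 := E.hK2
  have hKy := E.hKy
  have hyz := E.hyz
  have hzW := E.hzW
  have hWx := E.hWx
  have hW8 : 8 ≤ E.W := by omega
  have hWW : E.W * E.W ≤ E.W ^ 400 := by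
    have h1 : E.W ^ 2 ≤ E.W ^ 400 := Nat.pow_le_pow_right (by omega) (by norm_num)
    rwa [sq] at h1
  exact ⟨hW8, (Nat.mul_le_mul_right E.W hW8).trans (hWW.trans hWx)⟩

theorem t2_EQ : 0 < E.EQ := by
  have h := E.n_big
  have h1 : EE (4 * E.K.factorial) E.x E.y E.W = E.EQ := rfl
  rw [h1] at h
  have hch := E.hch
  have hC2 := E.hC2
  have hW := (t2_size E).1
  have hW' : (0 : ℝ) < E.W := by exact_mod_cast (by omega : 0 < E.W)
  have h2 : 0 < 72 * (E.C2 / E.ch) * (E.W : ℝ) ^ E.C3 := by positivity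
  by_contra hcon
  push Not at hcon
  have : E.ch * E.EQ ≤ 0 := mul_nonpos_of_nonneg_of_nonpos hch.le hcon
  linarith

theorem t2_cp : ∀ l ∈ cp E.K E.y, l.Prime := by
  intro l hl
  unfold cp at hl
  rw [mem_filter] at hl
  exact hl.2

/-- elements of `S M` are prime to the moduli -/
theorem t2_cop (D : Finset ℕ) (M M' : ℕ)
    (hpr : ∀ p : ℕ, p.Prime → p ∣ M * M' → E.y < p ∧ p ≤ E.W)
    (s : ℕ) (hs : s ∈ E.S M) :
    Nat.Coprime s E.L0 ∧ Nat.Coprime s (E.L0 * M') ∧ Nat.Coprime s (E.L D * M') := by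
  obtain ⟨hW8, hx1⟩ := t2_size E
  have hK2 := E.hK2
  have hKy := E.hKy
  have hyz := E.hyz
  have hzW := E.hzW
  obtain ⟨g1, g2, g3, g4, g5, g6, g7⟩ := mem_SM _ _ _ _ _ _ hs
  have hWs : E.W < s := by omega
  have hcp : ∀ Q : Finset ℕ, Q ⊆ cp E.K E.y → Nat.Coprime s (Lc E.z Q) := by
    intro Q hQ
    rw [Nat.Prime.coprime_iff_not_dvd g1]
    intro h
    have h2 := (prime_dvd_Lc E.z Q (fun l hl => t2_cp E l (hQ hl)) s g1).mp h
    have h3 := hQ h2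
    unfold cp at h3
    rw [mem_filter, mem_Ioc] at h3
    omega
  have hcoM' : Nat.Coprime s M' := by
    rw [Nat.Prime.coprime_iff_not_dvd g1]
    intro h
    have := hpr s g1 (h.trans (dvd_mul_left _ _))
    omega
  have hco0 : Nat.Coprime s E.L0 := hcp _ (Subset.refl _)
  have hcoD : Nat.Coprime s (E.L D) := hcp _ sdiff_subset
  exact ⟨hco0, Nat.Coprime.mul_right hco0 hcoM', Nat.Coprime.mul_right hcoD hcoM'⟩

theorem t2_L0M (M M' : ℕ)
    (hpr : ∀ p : ℕ, p.Prime → p ∣ M * M' → E.y < p ∧ p ≤ E.W) : Nat.Coprime E.L0 M' := by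
  by_contra hcon
  obtain ⟨p, hp, h1, h2⟩ := Nat.Prime.not_coprime_iff_dvd.mp hcon
  have h3 := (prime_dvd_Lc E.z _ (t2_cp E) p hp).mp h1
  unfold cp at h3
  rw [mem_filter, mem_Ioc] at h3
  have h4 := hpr p hp (h2.trans (dvd_mul_left _ _))
  omega

/-- the class bound for a modulus `n` dividing `L0 * M'` -/
theorem t2_cls (M M' n : ℕ) (hM : M ≠ 0) (hM' : M' ≠ 0) (hco : Nat.Coprime M M')
    (hpr : ∀ p : ℕ, p.Prime → p ∣ M * M' → E.y < p ∧ p ≤ E.W)
    (hMW : M ≤ E.W ^ E.C3) (hMW' : M' ≤ E.W ^ E.C3) (hn : n ∣ E.L0 * M') (b : ℕ) :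
    (((E.S M).filter (fun s => s ≡ b [MOD n])).card : ℝ) ≤
      E.C2 * E.EQ / M / Nat.totient n := by
  have hW8 := (t2_size E).1
  have hP := E.hP
  have hL0 : E.L0 ≠ 0 := Lc_ne_zero _ _ (t2_cp E)
  have hMM : M * M' ≤ E.W ^ (E.C3 * E.P) := by
    calc M * M' ≤ E.W ^ E.C3 * E.W ^ E.C3 := Nat.mul_le_mul hMW hMW'
      _ = E.W ^ (E.C3 * 2) := by rw [← pow_add, mul_two]
      _ ≤ E.W ^ (E.C3 * E.P) :=
        Nat.pow_le_pow_right (by omega) (Nat.mul_le_mul_left _ (by omega))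
  have h1 : ∀ b : ℕ, (((E.S M).filter (fun s => s ≡ b [MOD E.L0 * M'])).card : ℝ) ≤
      E.C2 * E.EQ / (M * Nat.totient E.L0 * Nat.totient M') :=
    fun b => E.sb M M' b hM hM' hco hpr hMM
  have h2 := class_down (E.S M) (E.L0 * M') n
    (Nat.mul_pos (Nat.pos_of_ne_zero hL0) (Nat.pos_of_ne_zero hM')) hn
    (fun s hs => (t2_cop E ∅ M M' hpr s hs).2.1) _ h1 b
  refine h2.trans (le_of_eq ?_)
  rw [Nat.totient_mul (t2_L0M E M M' hpr)]
  have f1 : (Nat.totient E.L0 : ℝ) ≠ 0 := by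
    exact_mod_cast (Nat.totient_pos.mpr (Nat.pos_of_ne_zero hL0)).ne'
  have f2 : (Nat.totient M' : ℝ) ≠ 0 := by
    exact_mod_cast (Nat.totient_pos.mpr (Nat.pos_of_ne_zero hM')).ne'
  have f3 : (M : ℝ) ≠ 0 := by exact_mod_cast hM
  have hn0 : n ≠ 0 := by
    rintro rfl
    rw [zero_dvd_iff] at hn
    exact (Nat.mul_ne_zero hL0 hM') hn
  have f4 : (Nat.totient n : ℝ) ≠ 0 := by
    exact_mod_cast (Nat.totient_pos.mpr (Nat.pos_of_ne_zero hn0)).ne'
  push_cast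
  field_simp

/-- few elements of `S M` are not selected -/
theorem t2_sel (D : Finset ℕ) (M : ℕ) (hD : D ⊆ cp E.K E.y) (hDc : D.card ≤ E.P * E.N0)
    (hM : M ≠ 0) (hpr : ∀ p : ℕ, p.Prime → p ∣ M * 1 → E.y < p ∧ p ≤ E.W)
    (hMW : M ≤ E.W ^ E.C3) (h1 : E.ch * E.EQ / M ≤ ((E.S M).card : ℝ)) :
    ((E.S M).card : ℝ) ≤ (E.S' D M).card + (E.S M).card / (16 * (E.C2 / E.ch)) := by
  obtain ⟨hW8, hx1⟩ := t2_size E
  have hEQ := t2_EQ E
  have hch := E.hch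
  have hC2 := E.hC2
  have hK2 := E.hK2
  have hKy := E.hKy
  have hyz := E.hyz
  have hCpos : 0 < E.C2 / E.ch := by positivity
  have hMr : (0 : ℝ) < M := by exact_mod_cast Nat.pos_of_ne_zero hM
  have hKr : (0 : ℝ) < E.K := by exact_mod_cast (by omega : 0 < E.K)
  have hzr : (0 : ℝ) < E.z := by exact_mod_cast (by omega : 0 < E.z)
  have hG0 : 0 ≤ E.C2 * E.EQ / M := by positivity
  have hG : ∀ l ∈ cp E.K E.y, (((SM (4 * E.K.factorial) E.x E.y E.W M).filter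
      (fun s => l ∣ s - 1)).card : ℝ) ≤ (E.C2 * E.EQ / M) / (l - 1) := by
    intro l hl
    have hlp := t2_cp E l hl
    have hdl : l ∣ E.L0 * 1 := by
      rw [mul_one]
      exact (prime_dvd_Lc E.z _ (t2_cp E) l hlp).mpr hl
    have h2 := t2_cls E M 1 l hM one_ne_zero (Nat.coprime_one_right M) hpr hMW
      (Nat.one_le_pow _ _ (by omega)) hdl 1
    rw [Nat.totient_prime hlp, Nat.cast_sub hlp.one_lt.le, Nat.cast_one] at h2
    have h3 : ((SM (4 * E.K.factorial) E.x E.y E.W M).filter (fun s => l ∣ s - 1)).card ≤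
        ((E.S M).filter (fun s => s ≡ 1 [MOD l])).card := by
      apply card_le_card
      intro s hs
      rw [mem_filter] at hs ⊢
      obtain ⟨g1, g2, g3, g4, g5, g6, g7⟩ := mem_SM _ _ _ _ _ _ hs.1
      exact ⟨hs.1, ((Nat.modEq_iff_dvd' g1.one_lt.le).mpr hs.2).symm⟩
    have h4 : (((SM (4 * E.K.factorial) E.x E.y E.W M).filter (fun s => l ∣ s - 1)).card : ℝ) ≤
        (((E.S M).filter (fun s => s ≡ 1 [MOD l])).card : ℝ) := by exact_mod_cast h3
    exact h4.trans h2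
  have hss := SS_card (4 * E.K.factorial) E.x E.y E.z E.W E.K M D
    (Dvd.dvd.mul_right (by norm_num) _) (by omega) (by omega) (by omega) hM
    (fun p hp hpd => (hpr p hp (by rwa [mul_one])).1) hD (E.C2 * E.EQ / M) hG0 hG
  have hss' : ((E.S M).card : ℝ) ≤ ((E.S' D M).card : ℝ) +
      D.card * ((E.C2 * E.EQ / M) / E.K) + (E.x : ℝ) * E.y / (M * E.z ^ 2) := hss
  have hnK := E.n_K
  have hnz := E.n_z
  have hEE : EE (4 * E.K.factorial) E.x E.y E.W = E.EQ := rfl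
  rw [hEE] at hnz
  have hDr : (D.card : ℝ) ≤ (E.P : ℝ) * E.N0 := by exact_mod_cast hDc
  have hSM : E.ch * E.EQ / M / (32 * (E.C2 / E.ch)) ≤ (E.S M).card / (32 * (E.C2 / E.ch)) :=
    div_le_div_of_nonneg_right h1 (by positivity)
  have b1 : D.card * ((E.C2 * E.EQ / M) / E.K) ≤ E.ch * E.EQ / M / (32 * (E.C2 / E.ch)) := by
    rw [le_div_iff₀ (by positivity)]
    have e1 : D.card * ((E.C2 * E.EQ / M) / E.K) * (32 * (E.C2 / E.ch)) =
        (E.ch * E.EQ / M) * ((32 * (E.C2 / E.ch) * D.card * (E.C2 / E.ch)) / E.K) := by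
      field_simp
    rw [e1]
    have e2 : (32 * (E.C2 / E.ch) * D.card * (E.C2 / E.ch)) / E.K ≤ 1 := by
      rw [div_le_one hKr]
      refine le_trans ?_ hnK
      have : 32 * (E.C2 / E.ch) * (D.card : ℝ) ≤ 32 * (E.C2 / E.ch) * ((E.P : ℝ) * E.N0) :=
        mul_le_mul_of_nonneg_left hDr (by positivity)
      exact mul_le_mul_of_nonneg_right this hCpos.le
    have e3 : 0 ≤ E.ch * E.EQ / M := by positivity
    calc (E.ch * E.EQ / M) * ((32 * (E.C2 / E.ch) * D.card * (E.C2 / E.ch)) / E.K) ≤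
        (E.ch * E.EQ / M) * 1 := mul_le_mul_of_nonneg_left e2 e3
      _ = E.ch * E.EQ / M := mul_one _
  have b2 : (E.x : ℝ) * E.y / (M * E.z ^ 2) ≤ E.ch * E.EQ / M / (32 * (E.C2 / E.ch)) := by
    rw [le_div_iff₀ (by positivity)]
    have e1 : (E.x : ℝ) * E.y / (M * E.z ^ 2) * (32 * (E.C2 / E.ch)) =
        (32 * (E.C2 / E.ch) * ((E.x : ℝ) * E.y)) / E.z ^ 2 / M := by
      field_simp
    rw [e1]
    refine div_le_div_of_nonneg_right ?_ hMr.le
    rw [div_le_iff₀ (by positivity)]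
    exact hnz
  have e4 : ((E.S M).card : ℝ) / (16 * (E.C2 / E.ch)) =
      (E.S M).card / (32 * (E.C2 / E.ch)) + (E.S M).card / (32 * (E.C2 / E.ch)) := by
    field_simp
    ring
  rw [e4]
  linarith

/-- [T2b] Proof. `C = C2/ch ≥ 1`, `B = 16 C`. `sb` with `M' = 1` and `class_down` (C3) from `L0` to a core prime `l`: `#{s ∈ S M : l ∣ s - 1} ≤ (C2 EQ/M)/(l-1)` (`φ(l) = l - 1`); `SS_card` (X3) with `G = C2 EQ/M`:
`#(S M) ≤ #(S' D M) + P N0 C2 EQ/(M K) + x y/(M z²)`; by `n_K`, `n_z` and `h1` both terms are at most `#(S M)/(2B)`. So `#(S' D M) ≥ (1 - 1/B) #(S M) ≥ #(S M)/2` and the first claim follows from `h1`.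
Second claim: `sb` with `M`, `M'` (`M M' ≤ W^(2 C3) ≤ W^(C3 P)`) and `class_down` from `L0 M'` to `L D M'`: `≤ C2 EQ/(M φ(L D M')) ≤ (C2/ch) #(S M)/φ ≤ (2 C2/ch) #(S' D M)/φ`. Third claim:
`‖∑_{S'}‖ ≤ ‖∑_{S}‖ + #(S \ S') ≤ 2 #(S M)/B ≤ 4 #(S')/B = #(S')/(4 C)`. Fourth claim: `#(S') ≥ ch EQ/(2M) ≥ ch EQ/(2 W^C3) ≥ 36 C` by `n_big`. -/
theorem half (D : Finset ℕ) (M M' : ℕ) (hD : D ⊆ cp E.K E.y) (hDc : D.card ≤ E.P * E.N0)
    (hM : M ≠ 0) (hM' : M' ≠ 0) (hco : Nat.Coprime M M')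
    (hpr : ∀ p : ℕ, p.Prime → p ∣ M * M' → E.y < p ∧ p ≤ E.W)
    (hMW : M ≤ E.W ^ E.C3) (hMW' : M' ≤ E.W ^ E.C3)
    (h1 : E.ch * E.EQ / M ≤ ((E.S M).card : ℝ))
    (hχ : ∀ χ : DirichletCharacter ℂ (E.L D * M'), χ ≠ 1 →
      ‖∑ s ∈ E.S M, χ (s : ZMod (E.L D * M'))‖ ≤ (E.S M).card / (16 * E.C2 / E.ch)) :
    E.ch * E.EQ / (2 * M) ≤ ((E.S' D M).card : ℝ) ∧
    (∀ b : ℕ, (((E.S' D M).filter (fun s => s ≡ b [MOD E.L D * M'])).card : ℝ) ≤
      (2 * E.C2 / E.ch) * (E.S' D M).card / Nat.totient (E.L D * M')) ∧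
    (∀ χ : DirichletCharacter ℂ (E.L D * M'), χ ≠ 1 →
      ‖∑ s ∈ E.S' D M, χ (s : ZMod (E.L D * M'))‖ ≤ (E.S' D M).card / (2 * (2 * E.C2 / E.ch))) ∧
    18 * (2 * E.C2 / E.ch) ≤ ((E.S' D M).card : ℝ) := by
  obtain ⟨hW8, hx1⟩ := t2_size E
  have hEQ := t2_EQ E
  have hch := E.hch
  have hch1 := E.hch1
  have hC2 := E.hC2
  have hCpos : 0 < E.C2 / E.ch := by positivity
  have hC1 : 1 ≤ E.C2 / E.ch := by
    rw [le_div_iff₀ hch]
    linarith
  have hMr : (0 : ℝ) < M := by exact_mod_cast Nat.pos_of_ne_zero hM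
  have hsel := t2_sel E D M hD hDc hM (fun p hp hpd => hpr p hp
    ((by rwa [mul_one] at hpd : p ∣ M).trans (dvd_mul_right _ _))) hMW h1
  set C := E.C2 / E.ch with hC
  have e2C : 2 * E.C2 / E.ch = 2 * C := by rw [hC]; ring
  have e16C : 16 * E.C2 / E.ch = 16 * C := by rw [hC]; ring
  rw [e2C]
  rw [e16C] at hχ
  have hsub : E.S' D M ⊆ E.S M := by
    intro s hs
    have hs0 : s ∈ SS (4 * E.K.factorial) E.x E.y E.z E.W E.K M D := hs
    unfold SS at hs0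
    rw [mem_filter] at hs0
    exact hs0.1
  set a : ℝ := ((E.S M).card : ℝ) with ha
  set a' : ℝ := ((E.S' D M).card : ℝ) with ha'
  have ha0 : 0 ≤ a := by rw [ha]; positivity
  have hd16 : a / (16 * C) ≤ a / 2 := by
    apply div_le_div_of_nonneg_left ha0 (by norm_num)
    linarith
  have hhalf : a / 2 ≤ a' := by linarith
  have hfirst : E.ch * E.EQ / (2 * M) ≤ a' := by
    have e : E.ch * E.EQ / (2 * M) = E.ch * E.EQ / M / 2 := by
      field_simp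
    rw [e]
    linarith
  refine ⟨hfirst, ?_, ?_, ?_⟩
  · intro b
    have hLD : E.L D ∣ E.L0 := Lc_dvd _ _ _ sdiff_subset
    have h2 := t2_cls E M M' (E.L D * M') hM hM' hco hpr hMW hMW'
      (Nat.mul_dvd_mul_right hLD M') b
    have h3 : (((E.S' D M).filter (fun s => s ≡ b [MOD E.L D * M'])).card : ℝ) ≤
        (((E.S M).filter (fun s => s ≡ b [MOD E.L D * M'])).card : ℝ) := by
      exact_mod_cast card_le_card (filter_subset_filter _ hsub)
    refine h3.trans (h2.trans ?_)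
    refine div_le_div_of_nonneg_right ?_ (Nat.cast_nonneg _)
    have e : E.C2 * E.EQ / M = C * (E.ch * E.EQ / M) := by
      rw [hC]
      field_simp
    rw [e]
    have h4 : C * (E.ch * E.EQ / M) ≤ C * a := mul_le_mul_of_nonneg_left h1 hCpos.le
    nlinarith
  · intro χ hχ1
    have h2 := hχ χ hχ1
    have h3 : ∑ s ∈ E.S M, χ (s : ZMod (E.L D * M')) =
        ∑ s ∈ E.S' D M, χ (s : ZMod (E.L D * M')) +
          ∑ s ∈ E.S M \ E.S' D M, χ (s : ZMod (E.L D * M')) := by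
      rw [add_comm]
      exact (sum_sdiff hsub).symm
    have h4 : ‖∑ s ∈ E.S M \ E.S' D M, χ (s : ZMod (E.L D * M'))‖ ≤ a - a' := by
      refine (norm_sum_le _ _).trans ?_
      refine (sum_le_sum (g := fun _ => (1 : ℝ)) (fun s _ =>
        DirichletCharacter.norm_le_one χ _)).trans ?_
      rw [sum_const, nsmul_eq_mul, mul_one, card_sdiff_of_subset hsub,
        Nat.cast_sub (card_le_card hsub)]
    have h5 : ∑ s ∈ E.S' D M, χ (s : ZMod (E.L D * M')) =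
        ∑ s ∈ E.S M, χ (s : ZMod (E.L D * M')) -
          ∑ s ∈ E.S M \ E.S' D M, χ (s : ZMod (E.L D * M')) := by
      rw [h3]
      ring
    rw [h5]
    refine (norm_sub_le _ _).trans ?_
    have h6 : a / (16 * C) + a / (16 * C) ≤ a' / (2 * (2 * C)) := by
      rw [← add_div, div_le_div_iff₀ (by positivity) (by positivity)]
      nlinarith
    linarith
  · have hnb := E.n_big
    have hEE : EE (4 * E.K.factorial) E.x E.y E.W = E.EQ := rfl
    rw [hEE, ← hC] at hnb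
    refine le_trans ?_ hfirst
    rw [le_div_iff₀ (by positivity)]
    have hMW2 : (M : ℝ) ≤ (E.W : ℝ) ^ E.C3 := by exact_mod_cast hMW
    have : 72 * C * (M : ℝ) ≤ 72 * C * (E.W : ℝ) ^ E.C3 :=
      mul_le_mul_of_nonneg_left hMW2 (by positivity)
    linarith

end GCN
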