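import Pool.Agent.GCN.Env
import Pool.Agent.GCN.X3

/-!
# [GCN-T2a] facts about the selected primes
-/

set_option autoImplicit false

open Finset

open scoped Classical

namespace GCN

variable {k : ℤ} (E : Env k)

/-- [T2a] Proof. `mem_SM` (X3). `s` is a prime `> x/2 ≥ W ≥` all primes of `L D`, `M`, `M'`; `M ∣ s - 1`. `W^400 ≤ x`, `2 ≤ W` (`K < y < W`). The last claim: `SS_struct` (X3). -/
theorem S_facts (D : Finset ℕ) (M M' : ℕ)
    (hpr : ∀ p : ℕ, p.Prime → p ∣ M * M' → E.y < p ∧ p ≤ E.W) (hM : M ≠ 0) (hM' : M' ≠ 0)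
    (s : ℕ) (hs : s ∈ E.S' D M) :
    s ∈ E.S M ∧ s.Prime ∧ E.f ∣ s + 1 ∧ E.W < s ∧ E.x / 2 < s ∧ s ≤ E.x ∧ 2 ≤ s ∧
      Nat.Coprime s (E.L0 * (M * M')) ∧ Nat.Coprime s (E.L D * M') ∧ s ≡ 1 [MOD M] ∧ M ∣ s - 1 ∧
      (s - 1) / 2 ∣ E.L D * M * prt (Set.Ioi E.W) ((s - 1) / 2) := by
  have hK2 := E.hK2
  have hKy := E.hKy
  have hyz := E.hyz
  have hzW := E.hzW
  have hWx := E.hWx
  have hW8 : 8 ≤ E.W := by omega
  have hWW : E.W * E.W ≤ E.W ^ 400 := by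
    have h1 : E.W ^ 2 ≤ E.W ^ 400 := Nat.pow_le_pow_right (by omega) (by norm_num)
    rwa [sq] at h1
  have hx1 : 8 * E.W ≤ E.x := (Nat.mul_le_mul_right E.W hW8).trans (hWW.trans hWx)
  have hs0 : s ∈ SS (4 * E.K.factorial) E.x E.y E.z E.W E.K M D := hs
  have hs1 : s ∈ SM (4 * E.K.factorial) E.x E.y E.W M := by
    unfold SS at hs0
    rw [mem_filter] at hs0
    exact hs0.1
  obtain ⟨g1, g2, g3, g4, g5, g6, g7⟩ := mem_SM _ _ _ _ _ _ hs1
  have hWs : E.W < s := by omega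
  have hcp : ∀ Q : Finset ℕ, Q ⊆ cp E.K E.y → Nat.Coprime s (Lc E.z Q) := by
    intro Q hQ
    rw [Nat.Prime.coprime_iff_not_dvd g1]
    intro h
    have hQp : ∀ l ∈ Q, l.Prime := by
      intro l hl
      have := hQ hl
      unfold cp at this
      rw [mem_filter] at this
      exact this.2
    have h2 := (prime_dvd_Lc E.z Q hQp s g1).mp h
    have h3 := hQ h2
    unfold cp at h3
    rw [mem_filter, mem_Ioc] at h3
    omega
  have hMM : ∀ N, N ∣ M * M' → Nat.Coprime s N := by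
    intro N hN
    rw [Nat.Prime.coprime_iff_not_dvd g1]
    intro h
    have := hpr s g1 (h.trans hN)
    omega
  have hco0 : Nat.Coprime s E.L0 := hcp _ (Subset.refl _)
  have hcoD : Nat.Coprime s (E.L D) := hcp _ sdiff_subset
  have hcoM : Nat.Coprime s (M * M') := hMM _ (dvd_refl _)
  have hcoM' : Nat.Coprime s M' := hMM _ (dvd_mul_left _ _)
  refine ⟨hs1, g1, g4, hWs, g2, g3, g1.two_le, Nat.Coprime.mul_right hco0 hcoM,
    Nat.Coprime.mul_right hcoD hcoM', ?_, g7, ?_⟩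
  · exact ((Nat.modEq_iff_dvd' g1.one_lt.le).mpr g7).symm
  · exact SS_struct E.K E.x E.y E.z E.W M s D (by omega) (by omega) hs0

end GCN
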