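import Pool.Agent.GCN.U3a

/-!
# [GCN-U3] unclean tuples are rare in every class
-/

set_option autoImplicit false

open Finset

open scoped Classical

namespace GCN

/-- [U3b] Proof. Sum `unclean_one` over `w ∈ Wf 𝒲 y W L0 (M M')`, `R = prt (Ioi W) w.1` (nonzero, `W`-rough: N1), `Phi_eq` (Defs2). -/
theorem unclean_le (ε : ℝ) (hε : 0 < ε) (hε1 : ε ≤ 1 / 10) (y W L0 L M M' : ℕ) (hL : 0 < L) (hM : 0 < M)
    (hM' : 0 < M') (hLM : Nat.Coprime L M) (hLM' : Nat.Coprime L M') (hMM' : Nat.Coprime M M')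
    (hW : (6 : ℝ) ≤ (W : ℝ) ^ (ε / 8)) (S T : Finset ℕ)
    (hS : ∀ s ∈ S, 2 ≤ s ∧ Nat.Coprime s (L * M') ∧ s ≡ 1 [MOD M])
    (hT : ∀ t ∈ T, 2 ≤ t ∧ Nat.Coprime t (L * M) ∧ t ≡ 1 [MOD M']) (Y : ℝ) (hY : 0 ≤ Y)
    (hFS : ∀ d b : ℕ, 0 < d → (∀ p : ℕ, p.Prime → p ∣ d → W < p) →
      ((S.filter (fun s => s ≡ b [MOD L * M'] ∧ d ∣ s - 1)).card : ℝ) ≤
        S.card / Nat.totient (L * M') * Y * (d : ℝ) ^ (-(1 - ε / 8)))
    (hFT : ∀ d b : ℕ, 0 < d → (∀ p : ℕ, p.Prime → p ∣ d → W < p) →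
      ((T.filter (fun s => s ≡ b [MOD L * M] ∧ d ∣ s - 1)).card : ℝ) ≤
        T.card / Nat.totient (L * M) * Y * (d : ℝ) ^ (-(1 - ε / 8)))
    (𝒲 : Finset Ch) (c : ℕ) (hc : Nat.Coprime c (L * M * M')) :
    ((((Fintype.piFinset (fun _ : Fin 3 => S)) ×ˢ (Fintype.piFinset (fun _ : Fin 3 => T))).filter
      (fun u => Unclean 𝒲 y W L0 (M * M') u ∧ mprod u ≡ c [MOD L * M * M'])).card : ℝ) ≤
      Y ^ 6 * Phi 𝒲 ε y W L0 (M * M') * ((S.card : ℝ) ^ 3 * (T.card : ℝ) ^ 3) /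
        Nat.totient (L * M * M') := by
  have hsub : (((Fintype.piFinset (fun _ : Fin 3 => S)) ×ˢ (Fintype.piFinset (fun _ : Fin 3 => T))).filter
      (fun u => Unclean 𝒲 y W L0 (M * M') u ∧ mprod u ≡ c [MOD L * M * M'])) ⊆
      (Wf 𝒲 y W L0 (M * M')).biUnion (fun w =>
        ((Fintype.piFinset (fun _ : Fin 3 => S)) ×ˢ (Fintype.piFinset (fun _ : Fin 3 => T))).filter
          (fun u => prt (Set.Ioi W) w.1 ∣ mone u ∧ mprod u ≡ c [MOD L * M * M'])) := by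
    intro u hu
    obtain ⟨hu1, ⟨w, hw, hwu⟩, hu2⟩ := mem_filter.1 hu
    exact mem_biUnion.2 ⟨w, hw, mem_filter.2 ⟨hu1, hwu, hu2⟩⟩
  have h1 := (card_le_card hsub).trans card_biUnion_le
  have h2 : ((((Fintype.piFinset (fun _ : Fin 3 => S)) ×ˢ (Fintype.piFinset (fun _ : Fin 3 => T))).filter
      (fun u => Unclean 𝒲 y W L0 (M * M') u ∧ mprod u ≡ c [MOD L * M * M'])).card : ℝ) ≤
      ∑ w ∈ Wf 𝒲 y W L0 (M * M'),
        ((((Fintype.piFinset (fun _ : Fin 3 => S)) ×ˢ (Fintype.piFinset (fun _ : Fin 3 => T))).filter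
          (fun u => prt (Set.Ioi W) w.1 ∣ mone u ∧ mprod u ≡ c [MOD L * M * M'])).card : ℝ) := by
    exact_mod_cast h1
  refine h2.trans ?_
  have h3 : ∀ w ∈ Wf 𝒲 y W L0 (M * M'),
      ((((Fintype.piFinset (fun _ : Fin 3 => S)) ×ˢ (Fintype.piFinset (fun _ : Fin 3 => T))).filter
          (fun u => prt (Set.Ioi W) w.1 ∣ mone u ∧ mprod u ≡ c [MOD L * M * M'])).card : ℝ) ≤
      Y ^ 6 * ((prt (Set.Ioi W) w.1 : ℕ) : ℝ) ^ (-(1 - ε / 4)) * ((S.card : ℝ) ^ 3 * (T.card : ℝ) ^ 3) /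
        Nat.totient (L * M * M') := by
    intro w _
    have h4 := unclean_one ε hε hε1 W L M M' hL hM hM' hLM hLM' hMM' hW S T hS hT Y hY
      (by convert hFS) (by convert hFT) (prt (Set.Ioi W) w.1) (prt_ne_zero _ _)
      (fun p hp hpd => (prime_of_dvd_prt _ _ p hp hpd).1) c hc
    convert h4
  refine (sum_le_sum h3).trans (le_of_eq ?_)
  rw [Phi_eq, mul_sum, sum_mul, sum_div]

end GCN
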