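import Pool.Agent.GCN.T3a
import Pool.Agent.GCN.T2
import Pool.Agent.GCN.E1
import Pool.Agent.GCN.E2
import Pool.Agent.GCN.U3

/-!
# [GCN-T3] clean tuples in every class
-/

set_option autoImplicit false

open Finset

open scoped Classical

namespace GCN

variable {k : ℤ} (E : Env k)

theorem t3_three (S : Finset ℕ) (M : ℕ) (hS : ∀ s ∈ S, s ≡ 1 [MOD M]) (t : Fin 3 → ℕ) (ht : t ∈ Tri S) :
    ∏ i, t i ≡ 1 [MOD M] := by
  unfold Tri at ht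
  rw [mem_filter, Fintype.mem_piFinset] at ht
  rw [Fin.prod_univ_three]
  have h := ((hS _ (ht.1 0)).mul (hS _ (ht.1 1))).mul (hS _ (ht.1 2))
  simpa using h

theorem t3_cop (s : Sel E) (m : ℕ) (hm : m ∣ s.M * s.M') : Nat.Coprime (E.L s.D) m := by
  by_contra hne
  obtain ⟨p, hp, hpL, hpm⟩ := Nat.Prime.not_coprime_iff_dvd.1 hne
  have h5 := (prime_dvd_Lc E.z (cp E.K E.y \ s.D) (fun l hl => by
    rw [mem_sdiff, cp, mem_filter] at hl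
    exact hl.1.2) p hp).1 hpL
  rw [mem_sdiff, cp, mem_filter, mem_Ioc] at h5
  have h6 := s.hpr p hp (hpm.trans hm)
  omega

theorem t3_Lpos (D : Finset ℕ) : 0 < E.L D := by
  unfold Env.L
  refine Nat.pos_of_ne_zero (Lc_ne_zero _ _ fun l hl => ?_)
  rw [mem_sdiff, cp, mem_filter] at hl
  exact hl.1.2

theorem t3_EQ : 0 ≤ E.EQ := by
  unfold Env.EQ EE
  exact div_nonneg (mul_nonneg (Nat.cast_nonneg _) (Real.log_natCast_nonneg _))
    (mul_nonneg (mul_nonneg (Nat.cast_nonneg _) (Real.log_natCast_nonneg _))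
      (Real.log_natCast_nonneg _))

theorem t3_C : 1 ≤ 2 * E.C2 / E.ch := by
  rw [le_div_iff₀ E.hch]
  have h1 := E.hC2
  have h2 := E.hch1
  linarith

/-- [T3b] Proof. Let `S = S' D M`, `T = S' D M'` (for `T` use `half` with `M`, `M'` exchanged). `eq_three` (E1) for `S` modulo `L M'` and `T` modulo `L M` with `C = 2 C2/ch`, and `combine_lower` (E2) with `Tri S`, `Tri T`, `A = #S³/3`, `B = #T³/3`:
every class `c` prime to `L M M'` contains `≥ #S³#T³/(9φ)` elements of `Tri S ×ˢ Tri T` (`∏ u.1 i ≡ 1 mod M`). `unclean_le` (U3) with `Y = 4x/(ch EQ)`, `FS`, `hPhi`, `n_uc`: at most `#S³#T³/(18φ)` of them are unclean. Subtract.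
(`L * M * M' = L * (M * M')`.) -/
theorem clean_count (s : Sel E) (c : ℕ) (hc : Nat.Coprime c (E.L s.D * (s.M * s.M'))) :
    (((E.S' s.D s.M).card : ℝ) ^ 3 * ((E.S' s.D s.M').card : ℝ) ^ 3 / 18) /
        Nat.totient (E.L s.D * (s.M * s.M')) ≤
      ((((Tri (E.S' s.D s.M) ×ˢ Tri (E.S' s.D s.M')).filter
        (fun u => ¬ Unclean E.𝒲 E.y E.W E.L0 (s.M * s.M') u)).filter
          (fun u => mprod u ≡ c [MOD E.L s.D * (s.M * s.M')])).card : ℝ) := by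
  rw [← mul_assoc] at hc ⊢
  have hpr' : ∀ p : ℕ, p.Prime → p ∣ s.M' * s.M → E.y < p ∧ p ≤ E.W := by
    intro p hp hpd
    rw [mul_comm] at hpd
    exact s.hpr p hp hpd
  have hL := t3_Lpos E s.D
  have hM := Nat.pos_of_ne_zero s.hM
  have hM' := Nat.pos_of_ne_zero s.hM'
  have hLM := t3_cop E s s.M (dvd_mul_right _ _)
  have hLM' := t3_cop E s s.M' (dvd_mul_left _ _)
  have : NeZero (E.L s.D * s.M') := ⟨mul_ne_zero hL.ne' s.hM'⟩
  have : NeZero (E.L s.D * s.M) := ⟨mul_ne_zero hL.ne' s.hM⟩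
  obtain ⟨S1, S2, S3, S4⟩ := half E s.D s.M s.M' s.hD s.hDc s.hM s.hM' s.hco s.hpr s.hMW s.hMW'
    s.h1 s.hχ
  obtain ⟨T1, T2, T3, T4⟩ := half E s.D s.M' s.M s.hD s.hDc s.hM' s.hM s.hco.symm hpr' s.hMW' s.hMW
    s.h1' s.hχ'
  have FS1 := fun v hv => S_facts E s.D s.M s.M' s.hpr s.hM s.hM' v hv
  have FT1 := fun v hv => S_facts E s.D s.M' s.M hpr' s.hM' s.hM v hv
  have hcL : ∀ v ∈ E.S' s.D s.M, 2 ≤ v ∧ Nat.Coprime v (E.L s.D * s.M') ∧ v ≡ 1 [MOD s.M] :=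
    fun v hv => ⟨(FS1 v hv).2.2.2.2.2.2.1, (FS1 v hv).2.2.2.2.2.2.2.2.1,
      (FS1 v hv).2.2.2.2.2.2.2.2.2.1⟩
  have hcT : ∀ v ∈ E.S' s.D s.M', 2 ≤ v ∧ Nat.Coprime v (E.L s.D * s.M) ∧ v ≡ 1 [MOD s.M'] :=
    fun v hv => ⟨(FT1 v hv).2.2.2.2.2.2.1, (FT1 v hv).2.2.2.2.2.2.2.2.1,
      (FT1 v hv).2.2.2.2.2.2.2.2.2.1⟩
  have h1 := combine_lower (Tri (E.S' s.D s.M)) (Tri (E.S' s.D s.M')) (fun t => ∏ i, t i)
    (fun t => ∏ i, t i) (E.L s.D) s.M s.M' hL hM hM' hLM hLM' s.hco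
    (fun t ht => t3_three _ _ (fun v hv => (hcL v hv).2.2) t ht)
    (fun t ht => t3_three _ _ (fun v hv => (hcT v hv).2.2) t ht)
    (((E.S' s.D s.M).card : ℝ) ^ 3 / 3) (((E.S' s.D s.M').card : ℝ) ^ 3 / 3)
    (by positivity) (by positivity)
    (fun b hb => by
      have h := eq_three (E.L s.D * s.M') (E.S' s.D s.M) (fun v hv => (hcL v hv).2.1)
        (2 * E.C2 / E.ch) (t3_C E) S2 S3 S4 b hb
      rw [div_div]
      exact h)
    (fun b hb => by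
      have h := eq_three (E.L s.D * s.M) (E.S' s.D s.M') (fun v hv => (hcT v hv).2.1)
        (2 * E.C2 / E.ch) (t3_C E) T2 T3 T4 b hb
      rw [div_div]
      exact h) c hc
  have hEQ := t3_EQ E
  have hY : 0 ≤ 4 * (E.x : ℝ) / (E.ch * E.EQ) :=
    div_nonneg (by positivity) (mul_nonneg E.hch.le hEQ)
  have h2 := unclean_le E.ε E.hε E.hε1 E.y E.W E.L0 (E.L s.D) s.M s.M' hL hM hM' hLM hLM' s.hco
    E.n_W6 (E.S' s.D s.M) (E.S' s.D s.M') hcL hcT (4 * (E.x : ℝ) / (E.ch * E.EQ)) hY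
    (fun d b hd hdW => FS E s.D s.M s.M' s.hD s.hM s.hM' s.hco s.hpr s.hMW s.hMW' S1 d b hd hdW)
    (fun d b hd hdW => FS E s.D s.M' s.M s.hD s.hM' s.hM s.hco.symm hpr' s.hMW' s.hMW T1 d b hd hdW)
    E.𝒲 c hc
  have hφ : (0 : ℝ) < Nat.totient (E.L s.D * s.M * s.M') := by
    exact_mod_cast Nat.totient_pos.2 (Nat.mul_pos (Nat.mul_pos hL hM) hM')
  have h3 : (4 * (E.x : ℝ) / (E.ch * E.EQ)) ^ 6 * Phi E.𝒲 E.ε E.y E.W E.L0 (s.M * s.M') ≤ 1 / 18 :=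
    (mul_le_mul_of_nonneg_left s.hPhi (pow_nonneg hY 6)).trans E.n_uc
  have h4 : ((Tri (E.S' s.D s.M) ×ˢ Tri (E.S' s.D s.M')).filter
      (fun u => (∏ i, u.1 i) * (∏ i, u.2 i) ≡ c [MOD E.L s.D * s.M * s.M'])) ⊆
      (((Tri (E.S' s.D s.M) ×ˢ Tri (E.S' s.D s.M')).filter
        (fun u => ¬ Unclean E.𝒲 E.y E.W E.L0 (s.M * s.M') u)).filter
          (fun u => mprod u ≡ c [MOD E.L s.D * s.M * s.M'])) ∪
      (((Fintype.piFinset (fun _ : Fin 3 => E.S' s.D s.M)) ×ˢ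
        (Fintype.piFinset (fun _ : Fin 3 => E.S' s.D s.M'))).filter
      (fun u => Unclean E.𝒲 E.y E.W E.L0 (s.M * s.M') u ∧
        mprod u ≡ c [MOD E.L s.D * s.M * s.M'])) := by
    intro u hu
    rw [mem_filter] at hu
    obtain ⟨hu1, hu2⟩ := hu
    have hu3 : mprod u ≡ c [MOD E.L s.D * s.M * s.M'] := hu2
    rw [mem_union]
    by_cases h : Unclean E.𝒲 E.y E.W E.L0 (s.M * s.M') u
    · right
      rw [mem_product] at hu1
      obtain ⟨h5, h6⟩ := hu1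
      unfold Tri at h5 h6
      rw [mem_filter] at h5 h6
      exact mem_filter.2 ⟨mem_product.2 ⟨h5.1, h6.1⟩, h, hu3⟩
    · left
      exact mem_filter.2 ⟨mem_filter.2 ⟨hu1, h⟩, hu3⟩
  have h5 := (card_le_card h4).trans (card_union_le _ _)
  have h6 : (((Tri (E.S' s.D s.M) ×ˢ Tri (E.S' s.D s.M')).filter
      (fun u => (∏ i, u.1 i) * (∏ i, u.2 i) ≡ c [MOD E.L s.D * s.M * s.M'])).card : ℝ) ≤
      ((((Tri (E.S' s.D s.M) ×ˢ Tri (E.S' s.D s.M')).filter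
        (fun u => ¬ Unclean E.𝒲 E.y E.W E.L0 (s.M * s.M') u)).filter
          (fun u => mprod u ≡ c [MOD E.L s.D * s.M * s.M'])).card : ℝ) +
      ((((Fintype.piFinset (fun _ : Fin 3 => E.S' s.D s.M)) ×ˢ
        (Fintype.piFinset (fun _ : Fin 3 => E.S' s.D s.M'))).filter
      (fun u => Unclean E.𝒲 E.y E.W E.L0 (s.M * s.M') u ∧
        mprod u ≡ c [MOD E.L s.D * s.M * s.M'])).card : ℝ) := by
    exact_mod_cast h5
  obtain ⟨a, ha⟩ : ∃ a : ℝ, a = ((E.S' s.D s.M).card : ℝ) ^ 3 := ⟨_, rfl⟩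
  obtain ⟨b, hb⟩ : ∃ b : ℝ, b = ((E.S' s.D s.M').card : ℝ) ^ 3 := ⟨_, rfl⟩
  have ha0 : 0 ≤ a := by rw [ha]; positivity
  have hb0 : 0 ≤ b := by rw [hb]; positivity
  rw [← ha, ← hb] at h1 h2 ⊢
  have h7 : (4 * (E.x : ℝ) / (E.ch * E.EQ)) ^ 6 * Phi E.𝒲 E.ε E.y E.W E.L0 (s.M * s.M') * (a * b) /
      Nat.totient (E.L s.D * s.M * s.M') ≤ 1 / 18 * (a * b) / Nat.totient (E.L s.D * s.M * s.M') := by
    exact div_le_div_of_nonneg_right (mul_le_mul_of_nonneg_right h3 (mul_nonneg ha0 hb0)) hφ.le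
  have e1 : a / 3 * (b / 3) / (Nat.totient (E.L s.D * s.M * s.M') : ℝ) -
      1 / 18 * (a * b) / (Nat.totient (E.L s.D * s.M * s.M') : ℝ) =
      a * b / 18 / (Nat.totient (E.L s.D * s.M * s.M') : ℝ) := by ring
  rw [← e1]
  linarith

end GCN
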