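import Pool.Agent.GCN.Defs2
import Pool.Agent.GCN.C3

/-!
# [GCN-U1] the number of the primes `s` in a class with `d ∣ s - 1`
-/

set_option autoImplicit false

open Finset

namespace GCN

/-- [U1] Proof. If `d > x` there is no such `s` (`1 ≤ s - 1 < d`) and the right side is `≥ 0`. Otherwise `count_class` (C3) with `N1` and `M d`: `#T ≤ x/(N1 M d) + 1 = (x/(M N1)) (1/d + N1 M/x)`, and `x/M ≤ G Y`, `N1 ≥ φ(N1)`,
`1/d ≤ d^(-(1-ε/8))`, `N1 M/x ≤ x^(ε/8 - 1) ≤ d^(-(1-ε/8))`. -/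
theorem fbound (ε : ℝ) (hε : 0 < ε) (hε1 : ε ≤ 1 / 10) (x N1 M d b : ℕ) (hN1 : 0 < N1) (hM : 0 < M)
    (hd : 0 < d) (h1 : Nat.Coprime N1 M) (h2 : Nat.Coprime N1 d) (h3 : Nat.Coprime M d)
    (hN : ((N1 * M : ℕ) : ℝ) ≤ (x : ℝ) ^ (ε / 8)) (G Y : ℝ) (hG : 0 ≤ G) (hY : 0 ≤ Y)
    (hGY : (x : ℝ) / M ≤ G * Y) (T : Finset ℕ)
    (hT : ∀ s ∈ T, 2 ≤ s ∧ s ≤ x ∧ s ≡ b [MOD N1] ∧ M ∣ s - 1 ∧ d ∣ s - 1) :
    (T.card : ℝ) ≤ G / Nat.totient N1 * (2 * Y) * (d : ℝ) ^ (-(1 - ε / 8)) := by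
  have hd0 : (0 : ℝ) < d := by exact_mod_cast hd
  have hd1 : (1 : ℝ) ≤ d := by exact_mod_cast hd
  have hM0 : (0 : ℝ) < M := by exact_mod_cast hM
  have hN0 : (0 : ℝ) < N1 := by exact_mod_cast hN1
  have hφ : 0 < Nat.totient N1 := Nat.totient_pos.2 hN1
  have hφ0 : (0 : ℝ) < Nat.totient N1 := by exact_mod_cast hφ
  have hφN : (Nat.totient N1 : ℝ) ≤ N1 := by exact_mod_cast Nat.totient_le N1
  have hDd : 0 < (d : ℝ) ^ (-(1 - ε / 8)) := Real.rpow_pos_of_pos hd0 _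
  rcases lt_or_ge x d with hxd | hxd
  · have hTe : T = ∅ := by
      rw [Finset.eq_empty_iff_forall_notMem]
      intro s hs
      obtain ⟨h2s, hsx, _, _, hds⟩ := hT s hs
      have h3 := Nat.le_of_dvd (by omega) hds
      omega
    rw [hTe]
    simp only [Finset.card_empty, Nat.cast_zero]
    positivity
  have hx0 : (0 : ℝ) < x := by
    have h1 : 0 < x := by omega
    exact_mod_cast h1
  have hdx : (d : ℝ) ≤ x := by exact_mod_cast hxd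
  have hc := count_class x N1 (M * d) b hN1 (Nat.mul_pos hM hd) (Nat.Coprime.mul_right h1 h2) T
    (by
      intro s hs
      obtain ⟨h2s, hsx, hsb, hMs, hds⟩ := hT s hs
      exact ⟨by omega, hsx, hsb, Nat.Coprime.mul_dvd_of_dvd_of_dvd h3 hMs hds⟩)
  refine hc.trans ?_
  have e1 : (x : ℝ) / (N1 * ((M * d : ℕ) : ℝ)) + 1 = (x / M / N1) * (1 / d + N1 * M / x) := by
    push_cast
    field_simp
  have e2 : (1 : ℝ) / d ≤ (d : ℝ) ^ (-(1 - ε / 8)) := by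
    have h4 : (1 : ℝ) / d = (d : ℝ) ^ (-1 : ℝ) := by
      rw [Real.rpow_neg_one, one_div]
    rw [h4]
    exact Real.rpow_le_rpow_of_exponent_le hd1 (by linarith)
  have e3 : (N1 : ℝ) * M / x ≤ (d : ℝ) ^ (-(1 - ε / 8)) := by
    have h4 : (x : ℝ) ^ (-(1 - ε / 8)) ≤ (d : ℝ) ^ (-(1 - ε / 8)) :=
      Real.rpow_le_rpow_of_nonpos hd0 hdx (by linarith)
    refine le_trans ?_ h4
    rw [div_le_iff₀ hx0]
    have h5 : (x : ℝ) ^ (-(1 - ε / 8)) * x = (x : ℝ) ^ (ε / 8) := by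
      rw [← Real.rpow_add_one hx0.ne']
      congr 1
      ring
    rw [h5]
    push_cast at hN
    exact hN
  have e4 : (x : ℝ) / M / N1 ≤ G * Y / Nat.totient N1 := by
    calc (x : ℝ) / M / N1 ≤ G * Y / N1 := div_le_div_of_nonneg_right hGY hN0.le
      _ ≤ G * Y / Nat.totient N1 := div_le_div_of_nonneg_left (by positivity) hφ0 hφN
  rw [e1]
  calc (x : ℝ) / M / N1 * (1 / d + N1 * M / x)
      ≤ G * Y / Nat.totient N1 * ((d : ℝ) ^ (-(1 - ε / 8)) + (d : ℝ) ^ (-(1 - ε / 8))) := by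
        refine mul_le_mul e4 (add_le_add e2 e3) (by positivity) (by positivity)
    _ = G / Nat.totient N1 * (2 * Y) * (d : ℝ) ^ (-(1 - ε / 8)) := by ring

end GCN
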