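import Pool.Agent.GCN.T2a
import Pool.Agent.GCN.U1

/-!
# [GCN-T3a] the selected primes with `d ∣ s - 1` in a class
-/

set_option autoImplicit false

open Finset

open scoped Classical

namespace GCN

variable {k : ℤ} (E : Env k)

lemma t3a_EQ_pos (E : Env k) : 0 < E.EQ := by
  have h1 := E.hKy
  have h2 := E.hK2
  have h3 := E.hyz
  have h4 := E.hzW
  have h5 : E.W ≤ E.x := by
    exact (Nat.le_self_pow (by norm_num) _).trans E.hWx
  have hy : (1 : ℝ) < E.y := by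
    have : 1 < E.y := by omega
    exact_mod_cast this
  have hW : (1 : ℝ) < E.W := by
    have : 1 < E.W := by omega
    exact_mod_cast this
  have hx : (1 : ℝ) < E.x := by
    have : 1 < E.x := by omega
    exact_mod_cast this
  have hφ : (0 : ℝ) < Nat.totient (4 * E.K.factorial) := by
    have : 0 < Nat.totient (4 * E.K.factorial) :=
      Nat.totient_pos.2 (Nat.mul_pos (by norm_num) (Nat.factorial_pos _))
    exact_mod_cast this
  have l1 := Real.log_pos hy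
  have l2 := Real.log_pos hW
  have l3 := Real.log_pos hx
  unfold Env.EQ EE
  have hx0 : (0 : ℝ) < E.x := by linarith
  positivity

lemma t3a_L_prime (E : Env k) (D : Finset ℕ) (p : ℕ) (hp : p.Prime) (h : p ∣ E.L D) :
    p ≤ E.y := by
  unfold Env.L Lc at h
  obtain ⟨l, hl, hpl⟩ := (Prime.dvd_finsetProd_iff hp.prime _).1 h
  have h1 := hp.dvd_of_dvd_pow hpl
  rw [Finset.mem_sdiff] at hl
  have h2 := hl.1
  unfold cp at h2
  rw [Finset.mem_filter, Finset.mem_Ioc] at h2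
  exact (Nat.le_of_dvd h2.2.pos h1).trans h2.1.2

lemma t3a_L_pos (E : Env k) (D : Finset ℕ) : 0 < E.L D := by
  unfold Env.L Lc
  refine Finset.prod_pos ?_
  intro l hl
  rw [Finset.mem_sdiff] at hl
  have h2 := hl.1
  unfold cp at h2
  rw [Finset.mem_filter] at h2
  exact pow_pos h2.2.pos _

lemma t3a_L_le (E : Env k) (D : Finset ℕ) : E.L D ≤ Lc E.z (cp E.K E.y) := by
  unfold Env.L Lc
  refine Finset.prod_le_prod_of_subset_of_one_le' Finset.sdiff_subset ?_
  intro l hl _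
  unfold cp at hl
  rw [Finset.mem_filter] at hl
  exact Nat.one_le_pow _ _ hl.2.pos

/-- [T3a] Proof. `fbound` (U1) with `N1 = L D * M'`, `M`, `d`, `G = #(S' D M)`, `Y = 2 x/(ch EQ)`: `x/M ≤ G Y` by the first claim of `half`; `L D * M' * M ≤ L0 W^(2 C3) ≤ x^(ε/8)` (`n_mod`); the primes of `L D`, `M`, `M'` are `≤ W`, those of `d` are
`> W`. `2 Y = 4 x/(ch EQ)`. -/
theorem FS (D : Finset ℕ) (M M' : ℕ) (hD : D ⊆ cp E.K E.y)
    (hM : M ≠ 0) (hM' : M' ≠ 0) (hco : Nat.Coprime M M')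
    (hpr : ∀ p : ℕ, p.Prime → p ∣ M * M' → E.y < p ∧ p ≤ E.W)
    (hMW : M ≤ E.W ^ E.C3) (hMW' : M' ≤ E.W ^ E.C3)
    (h1 : E.ch * E.EQ / (2 * M) ≤ ((E.S' D M).card : ℝ)) (d b : ℕ) (hd : 0 < d)
    (hdW : ∀ p : ℕ, p.Prime → p ∣ d → E.W < p) :
    (((E.S' D M).filter (fun s => s ≡ b [MOD E.L D * M'] ∧ d ∣ s - 1)).card : ℝ) ≤
      (E.S' D M).card / Nat.totient (E.L D * M') * (4 * E.x / (E.ch * E.EQ)) *
        (d : ℝ) ^ (-(1 - E.ε / 8)) := by
  have _hD := hD
  have hEQ := t3a_EQ_pos E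
  have hch := E.hch
  have hyz := E.hyz
  have hzW := E.hzW
  have hyW : E.y < E.W := by omega
  have hL0 := t3a_L_pos E D
  have hMp : 0 < M := Nat.pos_of_ne_zero hM
  have hMp' : 0 < M' := Nat.pos_of_ne_zero hM'
  have hN1 : 0 < E.L D * M' := Nat.mul_pos hL0 hMp'
  have hM0 : (0 : ℝ) < M := by exact_mod_cast hMp
  have c1 : Nat.Coprime (E.L D) M := by
    refine Nat.Coprime.symm (Nat.coprime_of_dvd ?_)
    intro p hp hpM hpL
    have h2 := (hpr p hp (hpM.mul_right M')).1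
    have h3 := t3a_L_prime E D p hp hpL
    omega
  have c2 : Nat.Coprime (E.L D * M') M := Nat.Coprime.mul_left c1 hco.symm
  have c3 : Nat.Coprime (E.L D * M') d := by
    refine Nat.coprime_of_dvd ?_
    intro p hp hp1 hpd
    have h2 := hdW p hp hpd
    rcases (Nat.Prime.dvd_mul hp).1 hp1 with h4 | h4
    · have h3 := t3a_L_prime E D p hp h4
      omega
    · have h3 := (hpr p hp (h4.mul_left M)).2
      omega
  have c4 : Nat.Coprime M d := by
    refine Nat.coprime_of_dvd ?_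
    intro p hp hp1 hpd
    have h2 := hdW p hp hpd
    have h3 := (hpr p hp (hp1.mul_right M')).2
    omega
  have hsize : ((E.L D * M' * M : ℕ) : ℝ) ≤ (E.x : ℝ) ^ (E.ε / 8) := by
    refine le_trans ?_ E.n_mod
    have h5 : E.L D * M' * M ≤ Lc E.z (cp E.K E.y) * E.W ^ (2 * E.C3) := by
      calc E.L D * M' * M ≤ Lc E.z (cp E.K E.y) * E.W ^ E.C3 * E.W ^ E.C3 :=
            Nat.mul_le_mul (Nat.mul_le_mul (t3a_L_le E D) hMW') hMW
        _ = Lc E.z (cp E.K E.y) * E.W ^ (2 * E.C3) := by ring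
    exact_mod_cast h5
  have hcE : 0 < E.ch * E.EQ := mul_pos hch hEQ
  have hx0 : (0 : ℝ) ≤ E.x := Nat.cast_nonneg _
  have hGY : (E.x : ℝ) / M ≤ ((E.S' D M).card : ℝ) * (2 * E.x / (E.ch * E.EQ)) := by
    have h6 : (E.x : ℝ) / M = E.ch * E.EQ / (2 * M) * (2 * E.x / (E.ch * E.EQ)) := by
      field_simp
    rw [h6]
    exact mul_le_mul_of_nonneg_right h1 (by positivity)
  have key := fbound E.ε E.hε E.hε1 E.x (E.L D * M') M d b hN1 hMp hd c2 c3 c4 hsize
    ((E.S' D M).card : ℝ) (2 * E.x / (E.ch * E.EQ)) (Nat.cast_nonneg _) (by positivity) hGY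
    ((E.S' D M).filter (fun s => s ≡ b [MOD E.L D * M'] ∧ d ∣ s - 1))
    (by
      intro s hs
      rw [Finset.mem_filter] at hs
      obtain ⟨hs1, hs2, hs3⟩ := hs
      have hf := S_facts E D M M' hpr hM hM' s hs1
      exact ⟨hf.2.2.2.2.2.2.1, hf.2.2.2.2.2.1, hs2, hf.2.2.2.2.2.2.2.2.2.2.1, hs3⟩)
  refine key.trans (le_of_eq ?_)
  ring

end GCN
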