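import Pool.Agent.GCN.Defs2
import Pool.Agent.GCN.N1

/-!
# [GCN-Z5] divisibility; the parts of the conductors
-/

set_option autoImplicit false

open Finset

namespace GCN

/-- [Z5a] Proof. `(a - 1)/2 = 2 K! c - 1` has no prime factor `≤ K`; all its prime factors are `≤ y`, not in `D`: core primes outside `D`; an exponent `e` of `l` satisfies `l^e ≤ (a-1)/2 < z ≤ z²`, so `l^(log_l(z²)+2)` does not
divide it. `dvd_Lc` (N1). -/
theorem a_dvd (K y z a : ℕ) (D : Finset ℕ) (ha : 3 ≤ a) (haz : a ≤ z) (hf : 4 * K.factorial ∣ a + 1)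
    (hay : ∀ q : ℕ, q.Prime → q ∣ a - 1 → q ≤ y) (haD : ∀ l ∈ D, ¬ l ∣ a - 1) :
    (a - 1) / 2 ∣ Lc z (cp K y \ D) := by
  obtain ⟨c, hc⟩ := hf
  have hcp : 0 < c := by
    rcases Nat.eq_zero_or_pos c with h | h
    · rw [h, mul_zero] at hc
      omega
    · exact h
  have hK := Nat.factorial_pos K
  have hkc : 0 < K.factorial * c := Nat.mul_pos hK hcp
  have e1 : a + 1 = 4 * (K.factorial * c) := by rw [hc]; ring
  have e2 : (a - 1) / 2 = 2 * (K.factorial * c) - 1 := by omega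
  have e3 : a - 1 = 2 * ((a - 1) / 2) := by omega
  have hdv : ∀ p : ℕ, p ∣ (a - 1) / 2 → p ∣ a - 1 := by
    intro p hp
    rw [e3]
    exact hp.mul_left 2
  have hQ : ∀ l ∈ cp K y \ D, l.Prime := by
    intro l hl
    rw [mem_sdiff, cp, mem_filter] at hl
    exact hl.1.2
  refine dvd_Lc z (cp K y \ D) hQ ((a - 1) / 2) (by omega) ?_ ?_
  · intro p hp hpa
    have hpa1 := hdv p hpa
    rw [mem_sdiff, cp, mem_filter, mem_Ioc]
    refine ⟨⟨⟨?_, hay p hp hpa1⟩, hp⟩, fun hD => haD p hD hpa1⟩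
    by_contra hle
    have h1 : p ∣ K.factorial := (hp.dvd_factorial).2 (not_lt.1 hle)
    have h2 : p ∣ 2 * (K.factorial * c) := (h1.mul_right c).mul_left 2
    rw [e2] at hpa
    have h3 : p ∣ 2 * (K.factorial * c) - (2 * (K.factorial * c) - 1) := Nat.dvd_sub h2 hpa
    have h4 : 2 * (K.factorial * c) - (2 * (K.factorial * c) - 1) = 1 := by omega
    rw [h4] at h3
    exact hp.one_lt.ne' (Nat.dvd_one.1 h3)
  · intro l hl hdvd
    have hlp := hQ l hl
    have h1 : l ^ (Nat.log l (z ^ 2) + 2) ≤ (a - 1) / 2 := Nat.le_of_dvd (by omega) hdvd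
    have h2 : z ^ 2 < l ^ (Nat.log l (z ^ 2) + 1) := Nat.lt_pow_succ_log_self hlp.one_lt _
    have h3 : l ^ (Nat.log l (z ^ 2) + 1) ≤ l ^ (Nat.log l (z ^ 2) + 2) :=
      Nat.pow_le_pow_right hlp.pos (by omega)
    have h4 : z ≤ z ^ 2 := Nat.le_self_pow (by norm_num) z
    omega

/-- [Z5b] Proof. The three parts of `N = L MM Q` are `L`, `MM`, `Q` (`prt_mul`, `prt_eq_self`, `prt_eq_one`); `prt_dvd_prt` for `r ∣ N`. If `prt (Ioi W) r = 1` then `r = prt (Iic y) r * prt (Ioc y W) r` divides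
`L * MM` (coprime factors or product of divisors), excluded. -/
theorem cond_parts (y W L MM Q r : ℕ) (hyW : y ≤ W) (hL : L ≠ 0) (hMM : MM ≠ 0) (hQ : Q ≠ 0)
    (hLy : ∀ p : ℕ, p.Prime → p ∣ L → p ≤ y)
    (hMy : ∀ p : ℕ, p.Prime → p ∣ MM → y < p ∧ p ≤ W)
    (hQW : ∀ p : ℕ, p.Prime → p ∣ Q → W < p) (hr : r ∣ L * MM * Q) (hn : ¬ r ∣ L * MM) :
    1 < prt (Set.Ioi W) r ∧ prt (Set.Iic y) r ∣ L ∧ prt (Set.Ioc y W) r ∣ MM ∧
      prt (Set.Ioi W) r ∣ Q := by
  have hN : L * MM * Q ≠ 0 := mul_ne_zero (mul_ne_zero hL hMM) hQ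
  have hr0 : r ≠ 0 := fun h => hN (Nat.eq_zero_of_zero_dvd (h ▸ hr))
  have p1 : prt (Set.Iic y) (L * MM * Q) = L := by
    rw [prt_mul _ _ _ (mul_ne_zero hL hMM) hQ, prt_mul _ _ _ hL hMM,
      prt_eq_self (Set.Iic y) L hL (fun p hp h => hLy p hp h),
      prt_eq_one _ MM (fun p hp h => by
        rw [Set.mem_Iic, not_le]
        exact (hMy p hp h).1),
      prt_eq_one _ Q (fun p hp h => by
        rw [Set.mem_Iic, not_le]
        exact lt_of_le_of_lt hyW (hQW p hp h)), mul_one, mul_one]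
  have p2 : prt (Set.Ioc y W) (L * MM * Q) = MM := by
    rw [prt_mul _ _ _ (mul_ne_zero hL hMM) hQ, prt_mul _ _ _ hL hMM,
      prt_eq_self (Set.Ioc y W) MM hMM (fun p hp h => hMy p hp h),
      prt_eq_one _ L (fun p hp h => by
        rw [Set.mem_Ioc, not_and_or, not_lt]
        exact Or.inl (hLy p hp h)),
      prt_eq_one _ Q (fun p hp h => by
        rw [Set.mem_Ioc, not_and_or, not_le]
        exact Or.inr (hQW p hp h)), mul_one, one_mul]
  have p3 : prt (Set.Ioi W) (L * MM * Q) = Q := by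
    rw [prt_mul _ _ _ (mul_ne_zero hL hMM) hQ, prt_mul _ _ _ hL hMM,
      prt_eq_self (Set.Ioi W) Q hQ (fun p hp h => hQW p hp h),
      prt_eq_one _ L (fun p hp h => by
        rw [Set.mem_Ioi, not_lt]
        exact (hLy p hp h).trans hyW),
      prt_eq_one _ MM (fun p hp h => by
        rw [Set.mem_Ioi, not_lt]
        exact (hMy p hp h).2), mul_one, one_mul]
  have q1 := prt_dvd_prt (Set.Iic y) r _ hN hr
  have q2 := prt_dvd_prt (Set.Ioc y W) r _ hN hr
  have q3 := prt_dvd_prt (Set.Ioi W) r _ hN hr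
  rw [p1] at q1
  rw [p2] at q2
  rw [p3] at q3
  refine ⟨?_, q1, q2, q3⟩
  by_contra hle
  have h0 := prt_ne_zero (Set.Ioi W) r
  have h1 : prt (Set.Ioi W) r = 1 := by omega
  have h2 := prt_split y W r hyW hr0
  rw [h1, mul_one] at h2
  apply hn
  rw [← h2]
  exact mul_dvd_mul q1 q2

end GCN
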