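import Pool.Agent.GCN.T2a
import Pool.Agent.GCN.Z5

/-!
# [GCN-T4] the modulus
-/

set_option autoImplicit false

open Finset

open scoped Classical

namespace GCN

variable {k : ℤ} (E : Env k)

theorem t4_mem (S T : Finset ℕ) (u : (Fin 3 → ℕ) × (Fin 3 → ℕ)) (hu : u ∈ Tri S ×ˢ Tri T) :
    (∀ i, u.1 i ∈ S) ∧ ∀ i, u.2 i ∈ T := by
  rw [mem_product] at hu
  obtain ⟨h1, h2⟩ := hu
  unfold Tri at h1 h2
  rw [mem_filter, Fintype.mem_piFinset] at h1 h2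
  exact ⟨h1.1, h2.1⟩

theorem t4_Ldvd (D : Finset ℕ) : E.L D ∣ E.L0 := by
  unfold Env.L Env.L0
  exact Lc_dvd _ _ _ sdiff_subset

theorem t4_L0 : E.L0 ≠ 0 := by
  unfold Env.L0
  refine Lc_ne_zero _ _ fun l hl => ?_
  rw [cp, mem_filter] at hl
  exact hl.2

theorem t4_half (s : ℕ) (hs : s.Prime) (h : 2 < s) : (s - 1) / 2 ∣ s - 1 ∧ 0 < (s - 1) / 2 := by
  rcases hs.eq_two_or_odd with h1 | h1
  · omega
  · exact ⟨⟨2, by omega⟩, by omega⟩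

theorem t4_prt (W s : ℕ) (hs : s.Prime) (h : 2 < s) :
    prt (Set.Ioi W) ((s - 1) / 2) ∣ s - 1 ∧ prt (Set.Ioi W) ((s - 1) / 2) ≤ s := by
  obtain ⟨h1, h2⟩ := t4_half s hs h
  have h3 := prt_dvd (Set.Ioi W) ((s - 1) / 2)
  refine ⟨h3.trans h1, ?_⟩
  have h4 := Nat.le_of_dvd h2 h3
  omega

/-- [T4a] Proof. `Qr ∣ mone u` (`prt_dvd`, `(s-1)/2 ∣ s-1` for odd `s`), the primes of `Qr` are `> W` (N1), `Qr ≤ x^6`, so `L (M M') Qr ≤ L0 W^(2 C3) x^6 ≤ X0` (`hX0`). The last two claims: `S_facts` (T2): `s` prime, `> W`, prime to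
`L D (M M')`; a prime of `Qr` divides `(s'-1)/2 < x/2 < s`; `(s-1)/2 ∣ L D * M * prt (Ioi W) ((s-1)/2)`, and this divides the modulus. -/
theorem Qr_facts (s : Sel E) (u : (Fin 3 → ℕ) × (Fin 3 → ℕ))
    (hu : u ∈ Tri (E.S' s.D s.M) ×ˢ Tri (E.S' s.D s.M')) :
    Qr E.W u ≠ 0 ∧ (∀ p : ℕ, p.Prime → p ∣ Qr E.W u → E.W < p ∧ p < E.x / 2 + 1) ∧ Qr E.W u ∣ mone u ∧
      E.L s.D * (s.M * s.M') * Qr E.W u ≤ E.X0 ∧
      Nat.Coprime (mprod u) (E.L s.D * (s.M * s.M') * Qr E.W u) ∧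
      ∀ i, (u.1 i - 1) / 2 ∣ E.L s.D * (s.M * s.M') * Qr E.W u ∧
        (u.2 i - 1) / 2 ∣ E.L s.D * (s.M * s.M') * Qr E.W u := by
  obtain ⟨hu1, hu2⟩ := t4_mem _ _ u hu
  have hpr' : ∀ p : ℕ, p.Prime → p ∣ s.M' * s.M → E.y < p ∧ p ≤ E.W := by
    intro p hp hpd
    rw [mul_comm] at hpd
    exact s.hpr p hp hpd
  have F1 := fun i => S_facts E s.D s.M s.M' s.hpr s.hM s.hM' (u.1 i) (hu1 i)
  have F2 := fun i => S_facts E s.D s.M' s.M hpr' s.hM' s.hM (u.2 i) (hu2 i)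
  have hW2 : 2 < E.W := by
    have h1 := E.hKy
    have h2 := E.hyz
    have h3 := E.hzW
    have h4 := E.hK2
    omega
  have P1 : ∀ i, (u.1 i).Prime := fun i => (F1 i).2.1
  have P2 : ∀ i, (u.2 i).Prime := fun i => (F2 i).2.1
  have G1 : ∀ i, 2 < u.1 i := fun i => hW2.trans (F1 i).2.2.2.1
  have G2 : ∀ i, 2 < u.2 i := fun i => hW2.trans (F2 i).2.2.2.1
  have X1 : ∀ i, E.x / 2 < u.1 i := fun i => (F1 i).2.2.2.2.1
  have X2 : ∀ i, E.x / 2 < u.2 i := fun i => (F2 i).2.2.2.2.1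
  have Y1 : ∀ i, u.1 i ≤ E.x := fun i => (F1 i).2.2.2.2.2.1
  have Y2 : ∀ i, u.2 i ≤ E.x := fun i => (F2 i).2.2.2.2.2.1
  have C1 : ∀ i, Nat.Coprime (u.1 i) (E.L0 * (s.M * s.M')) := fun i => (F1 i).2.2.2.2.2.2.2.1
  have C2 : ∀ i, Nat.Coprime (u.2 i) (E.L0 * (s.M * s.M')) := fun i => by
    rw [mul_comm s.M s.M']
    exact (F2 i).2.2.2.2.2.2.2.1
  have D1 : ∀ i, (u.1 i - 1) / 2 ∣ E.L s.D * s.M * prt (Set.Ioi E.W) ((u.1 i - 1) / 2) :=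
    fun i => (F1 i).2.2.2.2.2.2.2.2.2.2.2
  have D2 : ∀ i, (u.2 i - 1) / 2 ∣ E.L s.D * s.M' * prt (Set.Ioi E.W) ((u.2 i - 1) / 2) :=
    fun i => (F2 i).2.2.2.2.2.2.2.2.2.2.2
  have hQp : ∀ p : ℕ, p.Prime → p ∣ Qr E.W u → E.W < p ∧ p < E.x / 2 + 1 := by
    have key : ∀ v : ℕ, v.Prime → 2 < v → v ≤ E.x → ∀ p : ℕ, p.Prime →
        p ∣ prt (Set.Ioi E.W) ((v - 1) / 2) → E.W < p ∧ p < E.x / 2 + 1 := by
      intro v hv hv2 hvx p hp hpd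
      obtain ⟨h1, h2⟩ := prime_of_dvd_prt _ _ p hp hpd
      have h3 := Nat.le_of_dvd (t4_half v hv hv2).2 h2
      exact ⟨h1, by omega⟩
    intro p hp hpd
    unfold Qr at hpd
    rcases hp.dvd_mul.1 hpd with h | h
    · obtain ⟨i, -, hi⟩ := (hp.prime.dvd_finsetProd_iff _).1 h
      exact key (u.1 i) (P1 i) (G1 i) (Y1 i) p hp hi
    · obtain ⟨i, -, hi⟩ := (hp.prime.dvd_finsetProd_iff _).1 h
      exact key (u.2 i) (P2 i) (G2 i) (Y2 i) p hp hi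
  have hL0 := t4_L0 E
  have hMM : s.M * s.M' ≤ E.W ^ (2 * E.C3) := by
    calc s.M * s.M' ≤ E.W ^ E.C3 * E.W ^ E.C3 := Nat.mul_le_mul s.hMW s.hMW'
      _ = E.W ^ (2 * E.C3) := by rw [two_mul, pow_add]
  refine ⟨?_, hQp, ?_, ?_, ?_, ?_⟩
  · unfold Qr
    exact mul_ne_zero (prod_ne_zero_iff.2 fun i _ => prt_ne_zero _ _)
      (prod_ne_zero_iff.2 fun i _ => prt_ne_zero _ _)
  · unfold Qr mone
    exact mul_dvd_mul (prod_dvd_prod_of_dvd _ _ fun i _ => (t4_prt E.W (u.1 i) (P1 i) (G1 i)).1)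
      (prod_dvd_prod_of_dvd _ _ fun i _ => (t4_prt E.W (u.2 i) (P2 i) (G2 i)).1)
  · have hQ : Qr E.W u ≤ E.x ^ 6 := by
      unfold Qr
      have h1 : ∏ i, prt (Set.Ioi E.W) ((u.1 i - 1) / 2) ≤ E.x ^ 3 := by
        have h := prod_le_pow_card (univ : Finset (Fin 3))
          (fun i => prt (Set.Ioi E.W) ((u.1 i - 1) / 2)) E.x
          (fun i _ => (t4_prt E.W (u.1 i) (P1 i) (G1 i)).2.trans (Y1 i))
        rwa [card_univ, Fintype.card_fin] at h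
      have h2 : ∏ i, prt (Set.Ioi E.W) ((u.2 i - 1) / 2) ≤ E.x ^ 3 := by
        have h := prod_le_pow_card (univ : Finset (Fin 3))
          (fun i => prt (Set.Ioi E.W) ((u.2 i - 1) / 2)) E.x
          (fun i _ => (t4_prt E.W (u.2 i) (P2 i) (G2 i)).2.trans (Y2 i))
        rwa [card_univ, Fintype.card_fin] at h
      calc _ ≤ E.x ^ 3 * E.x ^ 3 := Nat.mul_le_mul h1 h2
        _ = E.x ^ 6 := by rw [← pow_add]
    refine le_trans ?_ E.hX0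
    have hL : E.L s.D ≤ Lc E.z (cp E.K E.y) :=
      Nat.le_of_dvd (Nat.pos_of_ne_zero hL0) (t4_Ldvd E s.D)
    exact Nat.mul_le_mul (Nat.mul_le_mul hL hMM) hQ
  · have key : ∀ v : ℕ, v.Prime → E.x / 2 < v → Nat.Coprime v (E.L0 * (s.M * s.M')) →
        Nat.Coprime v (E.L s.D * (s.M * s.M') * Qr E.W u) := by
      intro v hv hvx hvc
      refine Nat.Coprime.mul_right ?_ ?_
      · exact Nat.Coprime.coprime_dvd_right (mul_dvd_mul_right (t4_Ldvd E s.D) _) hvc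
      · rw [hv.coprime_iff_not_dvd]
        intro hd
        have h1 := (hQp v hv hd).2
        omega
    unfold mprod
    exact Nat.Coprime.mul_left
      (Nat.Coprime.prod_left fun i _ => key (u.1 i) (P1 i) (X1 i) (C1 i))
      (Nat.Coprime.prod_left fun i _ => key (u.2 i) (P2 i) (X2 i) (C2 i))
  · intro i
    have q1 : prt (Set.Ioi E.W) ((u.1 i - 1) / 2) ∣ Qr E.W u := by
      unfold Qr
      exact (dvd_prod_of_mem (fun j => prt (Set.Ioi E.W) ((u.1 j - 1) / 2)) (mem_univ i)).mul_right _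
    have q2 : prt (Set.Ioi E.W) ((u.2 i - 1) / 2) ∣ Qr E.W u := by
      unfold Qr
      exact (dvd_prod_of_mem (fun j => prt (Set.Ioi E.W) ((u.2 j - 1) / 2)) (mem_univ i)).mul_left _
    refine ⟨(D1 i).trans (mul_dvd_mul (mul_dvd_mul_left _ (dvd_mul_right _ _)) q1),
      (D2 i).trans (mul_dvd_mul (mul_dvd_mul_left _ (dvd_mul_left _ _)) q2)⟩

/-- [T4c] Proof. A prime `p` dividing `N = L (M M') Q` is `> K` (core primes; primes `> y > K`; primes `> W > K`), and `0 < |κ| ≤ K`, so `p ∤ κ`: `gcd(κ, N) = 1` (`ZMod.isUnit_iff_coprime`, `Int.isCoprime_iff_gcd_eq_one`). -/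
theorem kappa_unit (s : Sel E) (Q : ℕ) (hQ0 : Q ≠ 0) (hQ : ∀ p : ℕ, p.Prime → p ∣ Q → E.W < p) (κ : ℤ)
    (hκ : κ ≠ 0) (hκK : κ.natAbs ≤ E.K) : IsUnit ((κ : ℤ) : ZMod (E.L s.D * (s.M * s.M') * Q)) := by
  have _h0 := hQ0
  have h1 := E.hKy
  have h2 := E.hyz
  have h3 := E.hzW
  rw [ZMod.coe_int_isUnit_iff_isCoprime, Int.isCoprime_iff_gcd_eq_one, Int.gcd, Int.natAbs_natCast]
  by_contra hne
  obtain ⟨p, hp, hpN, hpk⟩ := Nat.Prime.not_coprime_iff_dvd.1 hne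
  have h4 : p ≤ κ.natAbs := Nat.le_of_dvd (Int.natAbs_pos.2 hκ) hpk
  rcases hp.dvd_mul.1 hpN with hd | hd
  · rcases hp.dvd_mul.1 hd with hd | hd
    · have h5 := (prime_dvd_Lc E.z (cp E.K E.y \ s.D) (fun l hl => by
        rw [mem_sdiff, cp, mem_filter] at hl
        exact hl.1.2) p hp).1 hd
      rw [mem_sdiff, cp, mem_filter, mem_Ioc] at h5
      omega
    · have h5 := s.hpr p hp hd
      omega
  · have h5 := hQ p hp hd
    omega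

end GCN
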