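import Pool.Agent.GCN.Defs2

/-!
# [GCN-Z1] selection of the blocks
-/

set_option autoImplicit false

open Finset

namespace GCN

/-- [Z1a] Proof. Let `G j = {a ∈ A j : some l ∈ D divides a - 1}`. `∑_{j<r} #(G j) ≤ ∑_{l ∈ D} #{a ∈ A0 : l ∣ a - 1} ≤ r m/256` (the blocks are disjoint subsets of `A0`); `#(G j) > m/32` for `j ∉ JJ`, so fewer than
`r/8` indices are not in `JJ` (if `m = 0` all indices are in `JJ`). For `j ∈ JJ`: `A j \ AD` consists of `G j` and of prime divisors of `Q`: at most `m/32 + m/32`. -/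
theorem sel_J (A : ℕ → Finset ℕ) (A0 D : Finset ℕ) (r m Q : ℕ) (hQ : Q ≠ 0)
    (hA : ∀ j < r, A j ⊆ A0 ∧ (A j).card = m ∧ ∀ a ∈ A j, a.Prime)
    (hdis : ∀ i < r, ∀ j < r, i ≠ j → Disjoint (A i) (A j))
    (hD : 256 * ∑ l ∈ D, (A0.filter (fun a => l ∣ a - 1)).card ≤ r * m)
    (hQm : 32 * Q.primeFactors.card ≤ m) :
    7 * r ≤ 8 * (JJ A D r m).card ∧ ∀ j ∈ JJ A D r m, 15 * m ≤ 16 * (AD A D Q j).card := by
  classical
  obtain ⟨G, hG⟩ : ∃ G : ℕ → Finset ℕ, G = fun j => (A j).filter (fun a => ∃ l ∈ D, l ∣ a - 1) := ⟨_, rfl⟩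
  have hJJ : ∀ j, j ∈ JJ A D r m ↔ j < r ∧ 32 * (G j).card ≤ m := by
    intro j
    unfold JJ
    rw [mem_filter, mem_range, hG]
  have hsum : ∑ j ∈ range r, (G j).card ≤ ∑ l ∈ D, (A0.filter (fun a => l ∣ a - 1)).card := by
    rw [← card_biUnion]
    · refine (card_le_card ?_).trans card_biUnion_le
      intro a ha
      rw [mem_biUnion] at ha ⊢
      obtain ⟨j, hj, haj⟩ := ha
      rw [hG, mem_filter] at haj
      obtain ⟨ha1, l, hl, hla⟩ := haj
      exact ⟨l, hl, mem_filter.2 ⟨(hA j (mem_range.1 hj)).1 ha1, hla⟩⟩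
    · intro i hi j hj hij
      rw [hG]
      exact (hdis i (mem_range.1 hi) j (mem_range.1 hj) hij).mono (filter_subset _ _) (filter_subset _ _)
  constructor
  · have hB : ((range r).filter (fun j => ¬ 32 * (G j).card ≤ m)).card * (m + 1) ≤
        32 * ∑ j ∈ range r, (G j).card := by
      rw [← smul_eq_mul, ← sum_const, mul_sum]
      refine (sum_le_sum fun j hj => ?_).trans (sum_le_sum_of_subset (filter_subset _ _))
      have := (mem_filter.1 hj).2
      omega
    have hJ : JJ A D r m = (range r).filter (fun j => 32 * (G j).card ≤ m) := by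
      ext j
      rw [hJJ, mem_filter, mem_range]
    have hc := card_filter_add_card_filter_not (s := range r) (fun j => 32 * (G j).card ≤ m)
    rw [card_range, ← hJ] at hc
    have h1 : 8 * ((range r).filter (fun j => ¬ 32 * (G j).card ≤ m)).card * (m + 1) ≤ r * (m + 1) := by
      nlinarith
    have h2 := Nat.le_of_mul_le_mul_right h1 (Nat.succ_pos m)
    omega
  · intro j hj
    obtain ⟨hjr, hjm⟩ := (hJJ j).1 hj
    have hsub : A j ⊆ AD A D Q j ∪ (G j ∪ Q.primeFactors) := by
      intro a ha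
      rw [mem_union, mem_union]
      by_cases h1 : ∃ l ∈ D, l ∣ a - 1
      · right
        left
        rw [hG]
        exact mem_filter.2 ⟨ha, h1⟩
      · by_cases h2 : a ∣ Q
        · right
          right
          exact Nat.mem_primeFactors.2 ⟨(hA j hjr).2.2 a ha, h2, hQ⟩
        · left
          unfold AD
          refine mem_filter.2 ⟨ha, fun l hl hla => h1 ⟨l, hl, hla⟩, h2⟩
    have h1 := (card_le_card hsub).trans ((card_union_le _ _).trans (Nat.add_le_add_left (card_union_le _ _) _))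
    rw [(hA j hjr).2.1] at h1
    omega

end GCN
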