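import Pool.Agent.GCN.T2a
import Pool.Agent.GCN.Z5
import Pool.Agent.GCN.Z1

/-!
# [GCN-T4b] the blocks
-/

set_option autoImplicit false

open Finset

open scoped Classical

namespace GCN

variable {k : ℤ} (E : Env k)

/-- [T4b] Proof. `a ∈ A j ⊆ A0`: prime, `z/2 < a ≤ z`, `f ∣ a + 1`, all primes of `a - 1` are `≤ y`. `a_dvd` (Z5): `(a-1)/2 ∣ L D`. `a > y ≥` primes of `L D`, `a ∤ M M'`, `a ≤ z < W <` the primes of `Q`. -/
theorem AD_facts (s : Sel E) (Q : ℕ) (hQ : ∀ p : ℕ, p.Prime → p ∣ Q → E.W < p) (j : ℕ) (hj : j < E.r)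
    (a : ℕ) (ha : a ∈ AD E.A s.D (s.M * s.M') j) :
    a.Prime ∧ E.f ∣ a + 1 ∧ a ≤ E.z ∧ Nat.Coprime a (E.L s.D * (s.M * s.M') * Q) ∧
      (a - 1) / 2 ∣ E.L s.D * (s.M * s.M') * Q := by
  unfold AD at ha
  rw [mem_filter] at ha
  obtain ⟨haA, haD, haQ⟩ := ha
  obtain ⟨haP, hay⟩ := E.hA0 a ((E.hA j hj).1 haA)
  unfold Pm at haP
  rw [mem_filter, mem_Ioc] at haP
  obtain ⟨⟨ha1, ha2⟩, hap, haf⟩ := haP
  have h1 := E.hKy
  have h2 := E.hyz
  have h3 := E.hzW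
  have h4 := E.hK2
  have hL : (a - 1) / 2 ∣ E.L s.D :=
    a_dvd E.K E.y E.z a s.D (by omega) ha2 haf hay haD
  refine ⟨hap, haf, ha2, ?_, (hL.mul_right _).mul_right _⟩
  rw [hap.coprime_iff_not_dvd]
  intro hd
  rcases (Nat.Prime.dvd_mul hap).1 hd with hd | hd
  · rcases (Nat.Prime.dvd_mul hap).1 hd with hd | hd
    · have h5 := (prime_dvd_Lc E.z (cp E.K E.y \ s.D) (fun l hl => by
        rw [mem_sdiff, cp, mem_filter] at hl
        exact hl.1.2) a hap).1 hd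
      rw [mem_sdiff, cp, mem_filter, mem_Ioc] at h5
      omega
    · exact haQ hd
  · have h5 := hQ a hap hd
    omega

/-- [T4d] Proof. `sel_J` (Z1) with `Q = M M'`: `∑_{l ∈ D} #{a ∈ A0 : l ∣ a - 1} ≤ #D GA/K ≤ P N0 GA/K ≤ r m/256` (`btA`, `l - 1 ≥ K`, `n_D`); `y^(#primeFactors (M M')) ≤ M M' ≤ W^(2 C3) ≤ W^(C3 P) ≤ y^y`, so
`32 #primeFactors ≤ 32 y ≤ m` (`n_m`). -/
theorem J_facts (s : Sel E) : 7 * E.r ≤ 8 * (JJ E.A s.D E.r E.m).card ∧
    ∀ j ∈ JJ E.A s.D E.r E.m, 15 * E.m ≤ 16 * (AD E.A s.D (s.M * s.M') j).card := by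
  refine sel_J E.A E.A0 s.D E.r E.m (s.M * s.M') (mul_ne_zero s.hM s.hM') ?_ E.hdis ?_ ?_
  · intro j hj
    refine ⟨(E.hA j hj).1, (E.hA j hj).2, fun a ha => ?_⟩
    have h1 := (E.hA0 a ((E.hA j hj).1 ha)).1
    unfold Pm at h1
    rw [mem_filter] at h1
    exact h1.2.1
  · have hK : (0 : ℝ) < E.K := by
      have := E.hK2
      exact_mod_cast (by omega : 0 < E.K)
    have hl : ∀ l ∈ s.D, (((E.A0.filter (fun a => l ∣ a - 1)).card : ℕ) : ℝ) ≤ E.GA / E.K := by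
      intro l hl
      refine (E.btA l (s.hD hl)).trans ?_
      have h1 := s.hD hl
      rw [cp, mem_filter, mem_Ioc] at h1
      have h2 : ((E.K + 1 : ℕ) : ℝ) ≤ l := by exact_mod_cast h1.1.1
      push_cast at h2
      exact div_le_div_of_nonneg_left E.hGA hK (by linarith)
    have h1 := sum_le_sum hl
    rw [sum_const, nsmul_eq_mul] at h1
    have h2 : (s.D.card : ℝ) ≤ E.P * E.N0 := by exact_mod_cast s.hDc
    have h3 : (s.D.card : ℝ) * (E.GA / E.K) ≤ E.P * E.N0 * (E.GA / E.K) :=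
      mul_le_mul_of_nonneg_right h2 (div_nonneg E.hGA hK.le)
    have h4 := E.n_D
    have h5 : (E.P : ℝ) * E.N0 * (E.GA / E.K) * 256 ≤ E.r * E.m := by
      have e : (E.P : ℝ) * E.N0 * (E.GA / E.K) * 256 = (256 * (E.P * E.N0) * E.GA) / E.K := by
        field_simp
      rw [e, div_le_iff₀ hK]
      linarith
    have h6 : ((256 * ∑ l ∈ s.D, (E.A0.filter (fun a => l ∣ a - 1)).card : ℕ) : ℝ) ≤
        ((E.r * E.m : ℕ) : ℝ) := by
      push_cast
      linarith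
    exact_mod_cast h6
  · have hy : 1 < E.y := by
      have := E.hK2
      have := E.hKy
      omega
    have hMM : s.M * s.M' ≠ 0 := mul_ne_zero s.hM s.hM'
    have h1 : E.y ^ (s.M * s.M').primeFactors.card ≤ s.M * s.M' := by
      refine le_trans ?_ (Nat.le_of_dvd (Nat.pos_of_ne_zero hMM)
        (Nat.prod_primeFactors_dvd (s.M * s.M')))
      rw [← prod_const]
      refine prod_le_prod' fun p hp => ?_
      have h2 := Nat.mem_primeFactors.1 hp
      exact (s.hpr p h2.1 h2.2.1).1.le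
    have hW : 0 < E.W := by
      have := E.hzW
      omega
    have h2 : s.M * s.M' ≤ E.y ^ E.y := by
      refine le_trans ?_ E.n_MW
      calc s.M * s.M' ≤ E.W ^ E.C3 * E.W ^ E.C3 := Nat.mul_le_mul s.hMW s.hMW'
        _ = E.W ^ (E.C3 * 2) := by rw [mul_two, pow_add]
        _ ≤ E.W ^ (E.C3 * E.P) := Nat.pow_le_pow_right hW
            (Nat.mul_le_mul_left _ (by have := E.hP; omega))
    have h3 := (Nat.pow_le_pow_iff_right hy).1 (h1.trans h2)
    have h4 := E.n_m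
    omega

end GCN
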