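import Pool.Agent.GCN.Defs2

/-!
# [GCN-Z2] the product of the character sums over the blocks
-/

set_option autoImplicit false

open Finset

namespace GCN

/-- [Z1b] Proof. `w` is not large at more than `r/4` indices `j < r`, at most `r/8` of them are outside `J`; so at more than `r/8` indices `j ∈ J` the sum over `A j` has absolute value `< m/16`, and then
`F j ≤ m/16 + m/16 = m/8 ≤ (2/15) #(B j)` (`15 m ≤ 16 #(B j)`). The other factors are at most `#(B j)`. So the product is at most `(2/15)^g ∏ #(B j)`, `g > r/8` the number of those indices, and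
`(2/15)^g ≤ (2/15)^(r/8)`. -/
theorem prod_bound (A B : ℕ → Finset ℕ) (J : Finset ℕ) (r m : ℕ) (w : Ch) (hJ : J ⊆ range r)
    (hJc : 7 * r ≤ 8 * J.card) (hB : ∀ j ∈ J, 15 * m ≤ 16 * (B j).card)
    (hw : ¬ 3 * r ≤ 4 * ((range r).filter
      (fun j => (m : ℝ) / 16 ≤ ‖∑ a ∈ A j, w.2 (a : ZMod w.1)‖)).card)
    (F : ℕ → ℝ) (hF0 : ∀ j ∈ J, 0 ≤ F j) (hFB : ∀ j ∈ J, F j ≤ (B j).card)
    (hFA : ∀ j ∈ J, F j ≤ ‖∑ a ∈ A j, w.2 (a : ZMod w.1)‖ + m / 16) :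
    ∏ j ∈ J, F j ≤ (2 / 15 : ℝ) ^ ((r : ℝ) / 8) * ∏ j ∈ J, ((B j).card : ℝ) := by
  classical
  have hcard : r ≤ 8 * (J.filter
      (fun j => ¬ (m : ℝ) / 16 ≤ ‖∑ a ∈ A j, w.2 (a : ZMod w.1)‖)).card := by
    have h1 := Finset.card_filter_add_card_filter_not (s := J)
      (fun j => (m : ℝ) / 16 ≤ ‖∑ a ∈ A j, w.2 (a : ZMod w.1)‖)
    have h2 : (J.filter (fun j => (m : ℝ) / 16 ≤ ‖∑ a ∈ A j, w.2 (a : ZMod w.1)‖)).card ≤
        ((range r).filter (fun j => (m : ℝ) / 16 ≤ ‖∑ a ∈ A j, w.2 (a : ZMod w.1)‖)).card :=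
      Finset.card_le_card (Finset.filter_subset_filter _ hJ)
    omega
  have h3 : ∀ j ∈ J, F j ≤ (if ¬ (m : ℝ) / 16 ≤ ‖∑ a ∈ A j, w.2 (a : ZMod w.1)‖ then
      (2 / 15 : ℝ) else 1) * ((B j).card : ℝ) := by
    intro j hj
    by_cases h : (m : ℝ) / 16 ≤ ‖∑ a ∈ A j, w.2 (a : ZMod w.1)‖
    · rw [if_neg (not_not.2 h), one_mul]
      exact hFB j hj
    · rw [if_pos h]
      have h4 := hFA j hj
      have h5 : (15 : ℝ) * m ≤ 16 * ((B j).card : ℝ) := by exact_mod_cast hB j hj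
      have h6 := not_le.1 h
      linarith
  refine (Finset.prod_le_prod hF0 h3).trans ?_
  rw [Finset.prod_mul_distrib]
  refine mul_le_mul_of_nonneg_right ?_ (Finset.prod_nonneg fun j _ => Nat.cast_nonneg _)
  rw [Finset.prod_ite, Finset.prod_const, Finset.prod_const_one, mul_one,
    ← Real.rpow_natCast]
  refine Real.rpow_le_rpow_of_exponent_ge (by norm_num) (by norm_num) ?_
  rw [div_le_iff₀ (by norm_num)]
  have h7 : (r : ℝ) ≤ 8 * ((J.filter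
      (fun j => ¬ (m : ℝ) / 16 ≤ ‖∑ a ∈ A j, w.2 (a : ZMod w.1)‖)).card : ℝ) := by
    exact_mod_cast hcard
  linarith

end GCN
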