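import Pool.Agent.GCN.Z5

/-!
# [GCN-Z6] characters that do not come from the small modulus are not bad
-/

set_option autoImplicit false

open Finset

namespace GCN

/-- [Z5c] Proof. Let `r = χ.conductor` and `w = ⟨r, χ.primitiveCharacter⟩`. By `cond_parts` `w` would be in `Wf` and make `u` unclean (`Q ∣ mone u`), if `w ∈ 𝒲`; by `h𝒲` every bad `w` with `w.1 ≤ X0` is in `𝒲`. So `w` is not bad,
and it is primitive. -/
theorem clean_not_bad (A : ℕ → Finset ℕ) (r m : ℕ) (𝒲 : Finset Ch) (y W L0 L MM Q X0 : ℕ)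
    (u : (Fin 3 → ℕ) × (Fin 3 → ℕ)) (hyW : y ≤ W) (hLL0 : L ∣ L0) (hL : L ≠ 0) (hMM : MM ≠ 0) (hQ : Q ≠ 0)
    (hLy : ∀ p : ℕ, p.Prime → p ∣ L → p ≤ y)
    (hMy : ∀ p : ℕ, p.Prime → p ∣ MM → y < p ∧ p ≤ W)
    (hQW : ∀ p : ℕ, p.Prime → p ∣ Q → W < p) (hQu : Q ∣ mone u)
    (hX0 : L * MM * Q ≤ X0) (h𝒲 : ∀ w : Ch, Bad A r m w → 0 < w.1 → w.1 ≤ X0 → w ∈ 𝒲)
    (hu : ¬ Unclean 𝒲 y W L0 MM u) (χ : DirichletCharacter ℂ (L * MM * Q))
    (hχ : ¬ χ.conductor ∣ L * MM) :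
    ¬ 3 * r ≤ 4 * ((range r).filter
      (fun j => (m : ℝ) / 16 ≤ ‖∑ a ∈ A j, χ.primitiveCharacter (a : ZMod χ.conductor)‖)).card := by
  intro hbig
  have hN : L * MM * Q ≠ 0 := mul_ne_zero (mul_ne_zero hL hMM) hQ
  have hd : χ.conductor ∣ L * MM * Q := DirichletCharacter.conductor_dvd_level χ
  have hc0 : 0 < χ.conductor := Nat.pos_of_ne_zero fun h => hN (Nat.eq_zero_of_zero_dvd (h ▸ hd))
  have hle : χ.conductor ≤ X0 := (Nat.le_of_dvd (Nat.pos_of_ne_zero hN) hd).trans hX0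
  obtain ⟨c1, c2, c3, c4⟩ := cond_parts y W L MM Q χ.conductor hyW hL hMM hQ hLy hMy hQW hd hχ
  have hW : (⟨χ.conductor, χ.primitiveCharacter⟩ : Ch) ∈ 𝒲 := by
    refine h𝒲 _ ⟨?_, hbig⟩ hc0 hle
    exact DirichletCharacter.primitiveCharacter_isPrimitive χ
  apply hu
  refine ⟨⟨χ.conductor, χ.primitiveCharacter⟩, ?_, c4.trans hQu⟩
  unfold Wf
  rw [mem_filter]
  exact ⟨hW, c1, c2.trans hLL0, c3⟩

/-- [Z5d] Proof. For `a ∈ B` (prime to `N`) `χ a = χ.primitiveCharacter a` (`DirichletCharacter.primitiveCharacter_apply_of_isCoprime`); the elements of `A \ B` have absolute value `≤ 1` each, `#(A \ B) ≤ m/16`. -/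
theorem sum_sub (N m : ℕ) [NeZero N] (χ : DirichletCharacter ℂ N) (A B : Finset ℕ) (hBA : B ⊆ A) (hA : A.card = m)
    (hB : 15 * m ≤ 16 * B.card) (hc : ∀ a ∈ B, Nat.Coprime a N) :
    ‖∑ a ∈ B, χ (a : ZMod N)‖ ≤
      ‖∑ a ∈ A, χ.primitiveCharacter (a : ZMod χ.conductor)‖ + m / 16 := by
  have e1 : ∑ a ∈ B, χ (a : ZMod N) = ∑ a ∈ B, χ.primitiveCharacter (a : ZMod χ.conductor) := by
    refine sum_congr rfl fun a ha => ?_
    have h := χ.primitiveCharacter_apply_of_isCoprime (a := (a : ℤ))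
      (Nat.isCoprime_iff_coprime.2 (hc a ha))
    rw [Int.cast_natCast, Int.cast_natCast] at h
    exact h.symm
  have e2 : ∑ a ∈ B, χ.primitiveCharacter (a : ZMod χ.conductor) =
      ∑ a ∈ A, χ.primitiveCharacter (a : ZMod χ.conductor) -
        ∑ a ∈ A \ B, χ.primitiveCharacter (a : ZMod χ.conductor) := by
    rw [← sum_sdiff hBA, add_sub_cancel_left]
  have e3 : ‖∑ a ∈ A \ B, χ.primitiveCharacter (a : ZMod χ.conductor)‖ ≤ m / 16 := by
    calc ‖∑ a ∈ A \ B, χ.primitiveCharacter (a : ZMod χ.conductor)‖ ≤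
        ∑ a ∈ A \ B, (1 : ℝ) :=
          norm_sum_le_of_le _ fun a _ => DirichletCharacter.norm_le_one _ _
      _ = ((A \ B).card : ℝ) := by rw [sum_const, nsmul_eq_mul, mul_one]
      _ ≤ m / 16 := by
          have h1 : (A \ B).card + B.card = m := by
            rw [card_sdiff_add_card_eq_card hBA, hA]
          have h2 : 16 * (A \ B).card ≤ m := by omega
          have h3 : (16 : ℝ) * ((A \ B).card : ℝ) ≤ m := by exact_mod_cast h2
          linarith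
  rw [e1, e2]
  exact (norm_sub_le _ _).trans (add_le_add le_rfl e3)

end GCN
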