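import Pool.Agent.GCN.T4
import Pool.Agent.GCN.T4b
import Pool.Agent.GCN.Z2
import Pool.Agent.GCN.Z6

/-!
# [GCN-T5] the character sums over the blocks
-/

set_option autoImplicit false

open Finset

open scoped Classical

namespace GCN

variable {k : ℤ} (E : Env k)

/-- [T5] Proof. `clean_not_bad` (Z6) with `MM = M M'`, `Q = Qr`, `r = E.r`: the primitive character is not large at `3r/4` indices. `prod_bound` (Z2) with `J = JJ`, `B j = AD j`, `F j = ‖∑_{a ∈ AD j} χ a‖` (`≤ #(AD j)`; `sum_sub` (Z6) for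
`hFA`), and `(2/15)^(r/8) ≤ 1/(36 X0)` from `n_r`. `‖∏‖ = ∏ ‖·‖`, `Finset.prod_coe_sort`/`Finset.prod_attach` for the product over the subtype. -/
theorem char_bound (s : Sel E) (u : (Fin 3 → ℕ) × (Fin 3 → ℕ))
    (hu : u ∈ Tri (E.S' s.D s.M) ×ˢ Tri (E.S' s.D s.M'))
    (hcl : ¬ Unclean E.𝒲 E.y E.W E.L0 (s.M * s.M') u)
    (χ : DirichletCharacter ℂ (E.L s.D * (s.M * s.M') * Qr E.W u))
    (hχ : ¬ χ.conductor ∣ E.L s.D * (s.M * s.M')) :
    ‖∏ j : JJ E.A s.D E.r E.m, ∑ a ∈ AD E.A s.D (s.M * s.M') j,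
        χ (a : ZMod (E.L s.D * (s.M * s.M') * Qr E.W u))‖ ≤
      1 / (36 * E.X0) * ∏ j : JJ E.A s.D E.r E.m, ((AD E.A s.D (s.M * s.M') j).card : ℝ) := by
  classical
  obtain ⟨q0, q1, q2, q3, q4, q5⟩ := Qr_facts E s u hu
  obtain ⟨j1, j2⟩ := J_facts E s
  have hQW : ∀ p : ℕ, p.Prime → p ∣ Qr E.W u → E.W < p := fun p hp hd => (q1 p hp hd).1
  have hcpD : ∀ l ∈ cp E.K E.y \ s.D, l.Prime := by
    intro l hl
    have h := (mem_sdiff.1 hl).1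
    unfold cp at h
    exact (mem_filter.1 h).2
  have hL : E.L s.D ≠ 0 := Lc_ne_zero _ _ hcpD
  have hLL0 : E.L s.D ∣ E.L0 := Lc_dvd _ _ _ sdiff_subset
  have hLy : ∀ p : ℕ, p.Prime → p ∣ E.L s.D → p ≤ E.y := by
    intro p hp hd
    have h1 : p ∈ cp E.K E.y \ s.D := (prime_dvd_Lc _ _ hcpD p hp).1 hd
    have h := (mem_sdiff.1 h1).1
    unfold cp at h
    exact (mem_Ioc.1 (mem_filter.1 h).1).2
  have hyW : E.y ≤ E.W := by
    have h1 := E.hyz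
    have h2 := E.hzW
    omega
  have hMM : s.M * s.M' ≠ 0 := mul_ne_zero s.hM s.hM'
  have hN : E.L s.D * (s.M * s.M') * Qr E.W u ≠ 0 := mul_ne_zero (mul_ne_zero hL hMM) q0
  have : NeZero (E.L s.D * (s.M * s.M') * Qr E.W u) := ⟨hN⟩
  have hnb := clean_not_bad E.A E.r E.m E.𝒲 E.y E.W E.L0 (E.L s.D) (s.M * s.M') (Qr E.W u) E.X0 u
    hyW hLL0 hL hMM q0 hLy s.hpr hQW q2 q3 E.h𝒲 hcl χ hχ
  have hJ : JJ E.A s.D E.r E.m ⊆ range E.r := by
    unfold JJ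
    exact filter_subset _ _
  have hpb := prod_bound E.A (fun j => AD E.A s.D (s.M * s.M') j) (JJ E.A s.D E.r E.m) E.r E.m
    ⟨χ.conductor, χ.primitiveCharacter⟩ hJ j1 j2 hnb
    (fun j => ‖∑ a ∈ AD E.A s.D (s.M * s.M') j,
        χ (a : ZMod (E.L s.D * (s.M * s.M') * Qr E.W u))‖)
    (fun j _ => norm_nonneg _)
    (fun j _ => by
      calc ‖∑ a ∈ AD E.A s.D (s.M * s.M') j,
            χ (a : ZMod (E.L s.D * (s.M * s.M') * Qr E.W u))‖ ≤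
          ∑ a ∈ AD E.A s.D (s.M * s.M') j, (1 : ℝ) :=
            norm_sum_le_of_le _ fun a _ => DirichletCharacter.norm_le_one _ _
        _ = _ := by rw [sum_const, nsmul_eq_mul, mul_one])
    (fun j hj => by
      have hjr : j < E.r := mem_range.1 (hJ hj)
      refine sum_sub _ E.m χ (E.A j) (AD E.A s.D (s.M * s.M') j) ?_ (E.hA j hjr).2 (j2 j hj) ?_
      · unfold AD
        exact filter_subset _ _
      · intro a ha
        exact (AD_facts E s (Qr E.W u) hQW j hjr a ha).2.2.2.1)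
  have e1 : ‖∏ j : JJ E.A s.D E.r E.m, ∑ a ∈ AD E.A s.D (s.M * s.M') j,
        χ (a : ZMod (E.L s.D * (s.M * s.M') * Qr E.W u))‖ =
      ∏ j ∈ JJ E.A s.D E.r E.m, ‖∑ a ∈ AD E.A s.D (s.M * s.M') j,
        χ (a : ZMod (E.L s.D * (s.M * s.M') * Qr E.W u))‖ := by
    rw [norm_prod]
    exact Finset.prod_coe_sort (JJ E.A s.D E.r E.m) (fun j => ‖∑ a ∈ AD E.A s.D (s.M * s.M') j,
        χ (a : ZMod (E.L s.D * (s.M * s.M') * Qr E.W u))‖)
  have e2 : ∏ j : JJ E.A s.D E.r E.m, ((AD E.A s.D (s.M * s.M') j).card : ℝ) =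
      ∏ j ∈ JJ E.A s.D E.r E.m, ((AD E.A s.D (s.M * s.M') j).card : ℝ) :=
    Finset.prod_coe_sort (JJ E.A s.D E.r E.m) (fun j => ((AD E.A s.D (s.M * s.M') j).card : ℝ))
  rw [e1, e2]
  refine hpb.trans (mul_le_mul_of_nonneg_right ?_ (Finset.prod_nonneg fun j _ => Nat.cast_nonneg _))
  have hX0 : 0 < E.X0 := by
    have h1 : 0 < E.L s.D * (s.M * s.M') * Qr E.W u := Nat.pos_of_ne_zero hN
    omega
  have hX : (0 : ℝ) < 36 * (E.X0 : ℝ) := by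
    have : (0 : ℝ) < (E.X0 : ℝ) := by exact_mod_cast hX0
    linarith
  have e3 : (2 / 15 : ℝ) ^ ((E.r : ℝ) / 8) = 1 / (15 / 2 : ℝ) ^ ((E.r : ℝ) / 8) := by
    rw [show (2 / 15 : ℝ) = (15 / 2 : ℝ)⁻¹ by norm_num, Real.inv_rpow (by norm_num), one_div]
  rw [e3]
  exact one_div_le_one_div_of_le hX E.n_r

end GCN
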