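import Pool.Agent.GCN.Defs2

/-!
# [GCN-Z3] from the modulus `n` to a multiple `N`
-/

set_option autoImplicit false

open Finset

open scoped Classical

namespace GCN

/-- the character sum over the family -/
noncomputable def z3_S {ι : Type} (V : Finset (ι → ℕ)) (m : (ι → ℕ) → ℕ) (κ : ℤ) {N : ℕ}
    (χ : DirichletCharacter ℂ N) : ℂ := ∑ v ∈ V, (χ ((κ : ℤ) : ZMod N))⁻¹ * χ (m v : ZMod N)

theorem z3_count {ι : Type} (V : Finset (ι → ℕ)) (m : (ι → ℕ) → ℕ) (κ : ℤ) (N : ℕ) [NeZero N]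
    (hκ : IsUnit ((κ : ℤ) : ZMod N)) :
    ∑ χ : DirichletCharacter ℂ N, z3_S V m κ χ =
      (Nat.totient N : ℂ) * ((V.filter (fun v => ((m v : ℕ) : ZMod N) = κ)).card : ℂ) := by
  unfold z3_S
  rw [Finset.sum_comm]
  have h1 : ∀ v ∈ V, ∑ χ : DirichletCharacter ℂ N, (χ ((κ : ℤ) : ZMod N))⁻¹ * χ (m v : ZMod N) =
      if ((m v : ℕ) : ZMod N) = κ then (Nat.totient N : ℂ) else 0 := by
    intro v _
    have h2 := DirichletCharacter.sum_char_inv_mul_char_eq ℂ hκ (m v : ZMod N)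
    rw [show (if ((m v : ℕ) : ZMod N) = κ then (Nat.totient N : ℂ) else 0) =
      if ((κ : ℤ) : ZMod N) = (m v : ZMod N) then (Nat.totient N : ℂ) else 0 from
      if_congr ⟨Eq.symm, Eq.symm⟩ rfl rfl, ← h2]
    refine Finset.sum_congr rfl fun χ _ => ?_
    congr 1
    refine (eq_inv_of_mul_eq_one_left ?_).symm
    rw [← map_mul, ZMod.inv_mul_of_unit _ hκ, map_one]
  rw [Finset.sum_congr rfl h1, ← Finset.sum_filter, Finset.sum_const, nsmul_eq_mul, mul_comm]

theorem z3_level {ι : Type} (V : Finset (ι → ℕ)) (m : (ι → ℕ) → ℕ) (κ : ℤ) (N n : ℕ) [NeZero N]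
    (h : n ∣ N) (hκ : IsCoprime κ (N : ℤ)) (hm : ∀ v ∈ V, Nat.Coprime (m v) N)
    (ψ : DirichletCharacter ℂ n) :
    z3_S V m κ (DirichletCharacter.changeLevel h ψ) = z3_S V m κ ψ := by
  unfold z3_S
  refine Finset.sum_congr rfl fun v hv => ?_
  have h1 : IsCoprime ((m v : ℕ) : ℤ) (N : ℤ) := Nat.isCoprime_iff_coprime.2 (hm v hv)
  rw [DirichletCharacter.changeLevel_eq_cast_of_dvd' ψ h hκ]
  have h2 := DirichletCharacter.changeLevel_eq_cast_of_dvd' ψ h h1
  rw [Int.cast_natCast, Int.cast_natCast] at h2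
  rw [h2]

/-- [Z3] Proof. With `Ŝ(χ) = χ(κ)⁻¹ χ(B) ∏_i ∑_{a ∈ A i} χ(a)` the right number is `(1/φ(N)) ∑_{χ mod N} Ŝ(χ)` (`DirichletCharacter.sum_char_inv_mul_char_eq`, `Finset.prod_univ_sum` to expand the product over
`Fintype.piFinset A`). The characters with conductor dividing `n` are the characters `changeLevel h ψ`, `ψ` modulo `n` (bijection: `changeLevel_injective`, `factorsThrough_iff`-type lemmas), with the same values at the
integers prime to `N`; their contribution is `(1/φ(N)) ∑_ψ … = (φ(n)/φ(N)) #{v : … in ZMod n}`. The others (fewer than `φ(N)`) have `|Ŝ(χ)| ≤ η ∏ #(A i)`. -/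
theorem transfer (N n : ℕ) [NeZero N] (h : n ∣ N) {ι : Type} [Fintype ι] (A : ι → Finset ℕ)
    (hA : ∀ i, ∀ a ∈ A i, Nat.Coprime a N) (B : ℕ) (hB : Nat.Coprime B N) (κ : ℤ)
    (hκ : IsUnit ((κ : ℤ) : ZMod N)) (η : ℝ) (hη : 0 ≤ η)
    (hχ : ∀ χ : DirichletCharacter ℂ N, ¬ χ.conductor ∣ n →
      ‖∏ i, ∑ a ∈ A i, χ (a : ZMod N)‖ ≤ η * ∏ i, ((A i).card : ℝ)) :
    (Nat.totient n : ℝ) / Nat.totient N *
        (((Fintype.piFinset A).filter (fun v => (((∏ i, v i) * B : ℕ) : ZMod n) = κ)).card : ℝ) -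
      η * ∏ i, ((A i).card : ℝ) ≤
    (((Fintype.piFinset A).filter (fun v => (((∏ i, v i) * B : ℕ) : ZMod N) = κ)).card : ℝ) := by
  have hn0 : 0 < n := Nat.pos_of_dvd_of_pos h (NeZero.pos N)
  have : NeZero n := ⟨hn0.ne'⟩
  set V := Fintype.piFinset A with hV
  let m : (ι → ℕ) → ℕ := fun v => (∏ i, v i) * B
  have hκc : IsCoprime κ (N : ℤ) := ((ZMod.coe_int_isUnit_iff_isCoprime κ N).1 hκ).symm
  have hκn : IsUnit ((κ : ℤ) : ZMod n) := (ZMod.coe_int_isUnit_iff_isCoprime κ n).2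
    (hκc.of_isCoprime_of_dvd_right (Int.natCast_dvd_natCast.2 h)).symm
  have hm : ∀ v ∈ V, Nat.Coprime (m v) N := by
    intro v hv
    rw [hV, Fintype.mem_piFinset] at hv
    exact Nat.Coprime.mul_left (Nat.Coprime.prod_left fun i _ => hA i _ (hv i)) hB
  set P : ℝ := ∏ i, ((A i).card : ℝ) with hP
  have hP0 : 0 ≤ P := Finset.prod_nonneg fun i _ => Nat.cast_nonneg _
  have hN0 : (0 : ℝ) < Nat.totient N := by exact_mod_cast Nat.totient_pos.2 (NeZero.pos N)
  -- the sum over a character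
  have hS : ∀ χ : DirichletCharacter ℂ N, ¬ χ.conductor ∣ n → ‖z3_S V m κ χ‖ ≤ η * P := by
    intro χ hc
    have h1 : z3_S V m κ χ = (χ ((κ : ℤ) : ZMod N))⁻¹ * χ (B : ZMod N) *
        ∏ i, ∑ a ∈ A i, χ (a : ZMod N) := by
      rw [Finset.prod_univ_sum, Finset.mul_sum]
      refine Finset.sum_congr rfl fun v _ => ?_
      change (χ ((κ : ℤ) : ZMod N))⁻¹ * χ (((∏ i, v i) * B : ℕ) : ZMod N) = _
      rw [Nat.cast_mul, map_mul, Nat.cast_prod, map_prod]
      ring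
    have h2 : ‖(χ ((κ : ℤ) : ZMod N))⁻¹‖ ≤ 1 := by
      have h3 : (χ ((κ : ℤ) : ZMod N))⁻¹ = χ (((κ : ℤ) : ZMod N)⁻¹) := by
        refine (eq_inv_of_mul_eq_one_left ?_).symm
        rw [← map_mul, ZMod.inv_mul_of_unit _ hκ, map_one]
      rw [h3]
      exact DirichletCharacter.norm_le_one χ _
    rw [h1, norm_mul, norm_mul]
    calc ‖(χ ((κ : ℤ) : ZMod N))⁻¹‖ * ‖χ (B : ZMod N)‖ * ‖∏ i, ∑ a ∈ A i, χ (a : ZMod N)‖
        ≤ 1 * 1 * (η * P) := by
          refine mul_le_mul (mul_le_mul h2 (DirichletCharacter.norm_le_one χ _)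
            (norm_nonneg _) zero_le_one) (hχ χ hc) (norm_nonneg _) (by norm_num)
      _ = η * P := by ring
  -- the characters of conductor dividing n
  have hT : ∑ χ ∈ Finset.univ.filter (fun χ : DirichletCharacter ℂ N => χ.conductor ∣ n),
      z3_S V m κ χ = ∑ ψ : DirichletCharacter ℂ n, z3_S V m κ ψ := by
    symm
    refine Finset.sum_bij (fun ψ _ => DirichletCharacter.changeLevel h ψ) (fun ψ _ => ?_)
      (fun ψ₁ _ ψ₂ _ h1 => DirichletCharacter.changeLevel_injective h h1) (fun χ hc => ?_)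
      (fun ψ _ => (z3_level V m κ N n h hκc hm ψ).symm)
    · rw [Finset.mem_filter]
      refine ⟨Finset.mem_univ _, ?_⟩
      rw [← DirichletCharacter.mem_conductorSet_iff_conductor_dvd _ h]
      exact DirichletCharacter.changeLevel_factorsThrough ψ h
    · rw [Finset.mem_filter, ← DirichletCharacter.mem_conductorSet_iff_conductor_dvd _ h] at hc
      exact ⟨_, Finset.mem_univ _, (DirichletCharacter.FactorsThrough.eq_changeLevel hc.2).symm⟩
  have h3 := z3_count V m κ N hκ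
  rw [← Finset.sum_filter_add_sum_filter_not Finset.univ
    (fun χ : DirichletCharacter ℂ N => χ.conductor ∣ n), hT, z3_count V m κ n hκn] at h3
  have h4 : ‖∑ χ ∈ Finset.univ.filter (fun χ : DirichletCharacter ℂ N => ¬ χ.conductor ∣ n),
      z3_S V m κ χ‖ ≤ Nat.totient N * (η * P) := by
    refine (norm_sum_le_of_le _ fun χ hc => hS χ (Finset.mem_filter.1 hc).2).trans ?_
    rw [Finset.sum_const, nsmul_eq_mul]
    refine mul_le_mul_of_nonneg_right ?_ (mul_nonneg hη hP0)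
    refine Nat.cast_le.2 ((Finset.card_filter_le _ _).trans ?_)
    rw [Finset.card_univ, ← Nat.card_eq_fintype_card,
      DirichletCharacter.card_eq_totient_of_hasEnoughRootsOfUnity ℂ N]
  rw [← eq_sub_iff_add_eq'] at h3
  rw [h3] at h4
  have h5 : (Nat.totient n : ℝ) * ((V.filter (fun v => ((m v : ℕ) : ZMod n) = κ)).card : ℝ) -
      Nat.totient N * ((V.filter (fun v => ((m v : ℕ) : ZMod N) = κ)).card : ℝ) ≤
        Nat.totient N * (η * P) := by
    refine le_trans (le_abs_self _) ?_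
    rw [abs_sub_comm, ← Real.norm_eq_abs, ← Complex.norm_real]
    push_cast
    exact h4
  change (Nat.totient n : ℝ) / Nat.totient N *
    ((V.filter (fun v => ((m v : ℕ) : ZMod n) = κ)).card : ℝ) - η * P ≤
      ((V.filter (fun v => ((m v : ℕ) : ZMod N) = κ)).card : ℝ)
  rw [div_mul_eq_mul_div, sub_le_iff_le_add, div_le_iff₀ hN0]
  linarith

end GCN
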