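import Pool.Agent.GCN.Defs2

/-!
# [GCN-Z4] averaging: a good element
-/

set_option autoImplicit false

open Finset

open scoped Classical

namespace GCN

theorem z4_exists_class (n : ℕ) [NeZero n] (p : ℕ) (hp : Nat.Coprime p n) (κ : ℤ)
    (hκ : IsUnit ((κ : ℤ) : ZMod n)) :
    ∃ c : ℕ, Nat.Coprime c n ∧ ∀ x : ℕ, x ≡ c [MOD n] → ((p * x : ℕ) : ZMod n) = κ := by
  obtain ⟨k, hk⟩ := hκ
  set w : (ZMod n)ˣ := ZMod.unitOfCoprime p hp with hw
  have hwp : ((w : (ZMod n)ˣ) : ZMod n) = (p : ZMod n) := ZMod.coe_unitOfCoprime p hp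
  refine ⟨((w⁻¹ * k : (ZMod n)ˣ) : ZMod n).val, ZMod.val_coe_unit_coprime _, ?_⟩
  intro x hx
  have hx' : ((x : ℕ) : ZMod n) = ((((w⁻¹ * k : (ZMod n)ˣ) : ZMod n).val : ℕ) : ZMod n) :=
    (ZMod.natCast_eq_natCast_iff _ _ _).2 hx
  rw [ZMod.natCast_zmod_val] at hx'
  rw [Nat.cast_mul, hx', ← hwp, ← Units.val_mul, mul_inv_cancel_left, hk]

/-- [Z4] Proof. Double count the pairs `(u, v)`, `u ∈ 𝒰`, `v ∈ Fintype.piFinset A`, with `∏ v · g u = κ` in `ZMod n`. For fixed `v` the product is prime to `n`, so the condition is `g u ≡ c [MOD n]` for some `c` prime to `n`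
(a representative of `κ / ∏ v`): at least `G/φ(n)` elements `u`. So the total is at least `∏ #(A i) · G/φ(n)`, and some `u` has at least the average `/#𝒰 ≥ /U`. (If `∏ #(A i) = 0` any `u ∈ 𝒰` works; `𝒰` is nonempty as
`0 < G/φ(n) ≤ #𝒰`, use `c = 1`.) -/
theorem exists_good {β : Type} (n : ℕ) [NeZero n] {ι : Type} [Fintype ι] (A : ι → Finset ℕ)
    (hA : ∀ i, ∀ a ∈ A i, Nat.Coprime a n) (𝒰 : Finset β) (g : β → ℕ) (κ : ℤ)
    (hκ : IsUnit ((κ : ℤ) : ZMod n)) (G U : ℝ) (hG : 0 < G) (hU : (𝒰.card : ℝ) ≤ U)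
    (h : ∀ c : ℕ, Nat.Coprime c n →
      G / Nat.totient n ≤ ((𝒰.filter (fun u => g u ≡ c [MOD n])).card : ℝ)) :
    ∃ u ∈ 𝒰, G / U * (∏ i, ((A i).card : ℝ)) / Nat.totient n ≤
      (((Fintype.piFinset A).filter (fun v => (((∏ i, v i) * g u : ℕ) : ZMod n) = κ)).card : ℝ) := by
  have hφ : (0 : ℝ) < (Nat.totient n : ℝ) := by
    exact_mod_cast Nat.totient_pos.2 (Nat.pos_of_ne_zero (NeZero.ne n))
  -- nonempty
  have hne : 𝒰.Nonempty := by
    by_contra hcon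
    rw [Finset.not_nonempty_iff_eq_empty] at hcon
    have h1 := h 1 (Nat.coprime_one_left n)
    rw [hcon] at h1
    simp only [Finset.filter_empty, Finset.card_empty, Nat.cast_zero] at h1
    have h2 : 0 < G / (Nat.totient n : ℝ) := div_pos hG hφ
    linarith
  have hcard0 : (0 : ℝ) < (𝒰.card : ℝ) := by exact_mod_cast hne.card_pos
  have hUpos : 0 < U := lt_of_lt_of_le hcard0 hU
  set P := Fintype.piFinset A with hP
  have hPcard : ((P.card : ℕ) : ℝ) = ∏ i, ((A i).card : ℝ) := by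
    rw [hP, Fintype.card_piFinset]
    push_cast
    rfl
  -- lower bound for each v
  have hlow : ∀ v ∈ P, G / (Nat.totient n : ℝ) ≤
      (((𝒰.filter (fun u => (((∏ i, v i) * g u : ℕ) : ZMod n) = κ)).card : ℕ) : ℝ) := by
    intro v hv
    have hcop : Nat.Coprime (∏ i, v i) n := by
      apply Nat.Coprime.prod_left
      intro i _
      exact hA i (v i) ((Fintype.mem_piFinset.1 hv) i)
    obtain ⟨c, hc, hc2⟩ := z4_exists_class n (∏ i, v i) hcop κ hκ
    refine (h c hc).trans ?_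
    have hsub : (𝒰.filter (fun u => g u ≡ c [MOD n])) ⊆
        (𝒰.filter (fun u => (((∏ i, v i) * g u : ℕ) : ZMod n) = κ)) := by
      intro u hu
      rw [Finset.mem_filter] at hu ⊢
      exact ⟨hu.1, hc2 _ hu.2⟩
    exact_mod_cast Finset.card_le_card hsub
  -- double counting
  have hdc : ∑ u ∈ 𝒰, (((P.filter (fun v => (((∏ i, v i) * g u : ℕ) : ZMod n) = κ)).card : ℕ) : ℝ)
      = ∑ v ∈ P, (((𝒰.filter (fun u => (((∏ i, v i) * g u : ℕ) : ZMod n) = κ)).card : ℕ) : ℝ) := by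
    have e1 : ∀ u, (((P.filter (fun v => (((∏ i, v i) * g u : ℕ) : ZMod n) = κ)).card : ℕ) : ℝ)
        = ∑ v ∈ P, (if (((∏ i, v i) * g u : ℕ) : ZMod n) = κ then (1 : ℝ) else 0) := by
      intro u
      rw [Finset.card_filter]
      push_cast
      rfl
    have e2 : ∀ v : ι → ℕ, (((𝒰.filter (fun u => (((∏ i, v i) * g u : ℕ) : ZMod n) = κ)).card : ℕ) : ℝ)
        = ∑ u ∈ 𝒰, (if (((∏ i, v i) * g u : ℕ) : ZMod n) = κ then (1 : ℝ) else 0) := by
      intro v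
      rw [Finset.card_filter]
      push_cast
      rfl
    simp_rw [e1, e2]
    exact Finset.sum_comm
  by_contra hcon
  push Not at hcon
  have hlt : ∑ u ∈ 𝒰, (((P.filter (fun v => (((∏ i, v i) * g u : ℕ) : ZMod n) = κ)).card : ℕ) : ℝ)
      < ∑ _u ∈ 𝒰, (G / U * (∏ i, ((A i).card : ℝ)) / Nat.totient n) :=
    Finset.sum_lt_sum_of_nonempty hne hcon
  rw [Finset.sum_const, nsmul_eq_mul, hdc] at hlt
  have hge : (P.card : ℝ) * (G / (Nat.totient n : ℝ)) ≤
      ∑ v ∈ P, (((𝒰.filter (fun u => (((∏ i, v i) * g u : ℕ) : ZMod n) = κ)).card : ℕ) : ℝ) := by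
    rw [← nsmul_eq_mul, ← Finset.sum_const]
    exact Finset.sum_le_sum hlow
  have hle : (𝒰.card : ℝ) * (G / U * (∏ i, ((A i).card : ℝ)) / Nat.totient n) ≤
      (P.card : ℝ) * (G / (Nat.totient n : ℝ)) := by
    rw [← hPcard]
    have hnn : 0 ≤ G / U * (P.card : ℝ) / (Nat.totient n : ℝ) := by positivity
    calc (𝒰.card : ℝ) * (G / U * (P.card : ℝ) / (Nat.totient n : ℝ))
        ≤ U * (G / U * (P.card : ℝ) / (Nat.totient n : ℝ)) :=
          mul_le_mul_of_nonneg_right hU hnn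
      _ = (P.card : ℝ) * (G / (Nat.totient n : ℝ)) := by
          field_simp
  linarith

end GCN
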