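import Pool.Agent.GCN.T1c
import Pool.Agent.GCN.T3
import Pool.Agent.GCN.T5
import Pool.Agent.GCN.Z3
import Pool.Agent.GCN.Z4

/-!
# [GCN-T6a] many products in the class of `κ`
-/

set_option autoImplicit false

open Finset

open scoped Classical

namespace GCN

variable {k : ℤ} (E : Env k)

theorem t6a_L_ne_zero (D : Finset ℕ) : E.L D ≠ 0 := by
  refine Lc_ne_zero _ _ fun l hl => ?_
  rw [mem_sdiff] at hl
  unfold cp at hl
  exact (mem_filter.1 hl.1).2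

theorem t6a_Tri_card (S : Finset ℕ) : (Tri S).card ≤ S.card ^ 3 := by
  unfold Tri
  refine (card_filter_le _ _).trans ?_
  rw [Fintype.card_piFinset, prod_const, card_univ, Fintype.card_fin]

theorem t6a_pos (s : Sel E) : 0 < (E.S' s.D s.M).card ∧ 0 < (E.S' s.D s.M').card := by
  have hC2 := E.hC2
  have hch := E.hch
  have hpos : 0 < 18 * (2 * E.C2 / E.ch) := by positivity
  have h1 := (half E s.D s.M s.M' s.hD s.hDc s.hM s.hM' s.hco s.hpr s.hMW s.hMW' s.h1 s.hχ).2.2.2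
  have h2 := (half E s.D s.M' s.M s.hD s.hDc s.hM' s.hM s.hco.symm
    (fun p hp h => s.hpr p hp (by rwa [mul_comm] at h)) s.hMW' s.hMW s.h1' s.hχ').2.2.2
  have h3 : (0 : ℝ) < ((E.S' s.D s.M).card : ℝ) := lt_of_lt_of_le hpos h1
  have h4 : (0 : ℝ) < ((E.S' s.D s.M').card : ℝ) := lt_of_lt_of_le hpos h2
  exact ⟨by exact_mod_cast h3, by exact_mod_cast h4⟩

/-- [T6a] Proof. `exists_good` (Z4) with `n = L (M M')`, `ι = JJ …` (subtype), `A j = AD …`, `𝒰` = the clean tuples, `g = mprod`, `G = #S³#T³/18`, `U = #S³#T³` (`#(Tri S) ≤ #S³`), `clean_count` (T3): some clean `u` has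
`#{v : … in ZMod n} ≥ Π/(18 φ(n))`, `Π = ∏ #(AD j)`. `transfer` (Z3) with `N = n Qr`, `B = mprod u`, `η = 1/(36 X0)`, `char_bound` (T5): `#{v : … in ZMod N} ≥ (φ(n)/φ(N)) Π/(18 φ(n)) - Π/(36 X0) ≥ Π/(36 φ(N)) ≥ Π/(36 X0)` as `φ(N) ≤ N ≤ X0`
(`1/(36 X0) ≤ 1/(36 φ(N))`). `Qr_facts`, `AD_facts`, `kappa_unit` (T4) for the hypotheses. -/
theorem many_v (s : Sel E) (κ : ℤ) (hκ : κ ≠ 0) (hκK : κ.natAbs ≤ E.K) :
    ∃ u ∈ Tri (E.S' s.D s.M) ×ˢ Tri (E.S' s.D s.M'),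
      (∏ j : JJ E.A s.D E.r E.m, ((AD E.A s.D (s.M * s.M') j).card : ℝ)) / (36 * E.X0) ≤
        (((Fintype.piFinset (fun j : JJ E.A s.D E.r E.m => AD E.A s.D (s.M * s.M') j)).filter
          (fun v => (((∏ i, v i) * mprod u : ℕ) : ZMod (E.L s.D * (s.M * s.M') * Qr E.W u)) = κ)).card : ℝ) := by
  obtain ⟨hS0, hT0⟩ := t6a_pos E s
  have hn0 : E.L s.D * (s.M * s.M') ≠ 0 := mul_ne_zero (t6a_L_ne_zero E s.D) (mul_ne_zero s.hM s.hM')
  have : NeZero (E.L s.D * (s.M * s.M')) := ⟨hn0⟩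
  have hj : ∀ j : JJ E.A s.D E.r E.m, (j : ℕ) < E.r := by
    intro j
    have h1 := j.2
    unfold JJ at h1
    exact mem_range.1 (mem_filter.1 h1).1
  have hno : ∀ p : ℕ, p.Prime → p ∣ 1 → E.W < p := fun p hp h => absurd (Nat.dvd_one.1 h) hp.one_lt.ne'
  have hA1 : ∀ i : JJ E.A s.D E.r E.m, ∀ a ∈ AD E.A s.D (s.M * s.M') i,
      Nat.Coprime a (E.L s.D * (s.M * s.M')) := by
    intro i a ha
    have h1 := (AD_facts E s 1 hno i (hj i) a ha).2.2.2.1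
    rwa [mul_one] at h1
  have hκ1 : IsUnit ((κ : ℤ) : ZMod (E.L s.D * (s.M * s.M'))) := by
    have h1 := kappa_unit E s 1 one_ne_zero hno κ hκ hκK
    rwa [mul_one] at h1
  have hSr : (0 : ℝ) < ((E.S' s.D s.M).card : ℝ) := by exact_mod_cast hS0
  have hTr : (0 : ℝ) < ((E.S' s.D s.M').card : ℝ) := by exact_mod_cast hT0
  obtain ⟨u, hu, hgood⟩ := exists_good (E.L s.D * (s.M * s.M'))
    (fun j : JJ E.A s.D E.r E.m => AD E.A s.D (s.M * s.M') j) hA1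
    ((Tri (E.S' s.D s.M) ×ˢ Tri (E.S' s.D s.M')).filter
      (fun u => ¬ Unclean E.𝒲 E.y E.W E.L0 (s.M * s.M') u)) mprod κ hκ1
    (((E.S' s.D s.M).card : ℝ) ^ 3 * ((E.S' s.D s.M').card : ℝ) ^ 3 / 18)
    (((E.S' s.D s.M).card : ℝ) ^ 3 * ((E.S' s.D s.M').card : ℝ) ^ 3) (by positivity)
    (by
      have h1 := (card_filter_le (Tri (E.S' s.D s.M) ×ˢ Tri (E.S' s.D s.M'))
        (fun u => ¬ Unclean E.𝒲 E.y E.W E.L0 (s.M * s.M') u))
      rw [card_product] at h1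
      have h2 := h1.trans (Nat.mul_le_mul (t6a_Tri_card (E.S' s.D s.M)) (t6a_Tri_card (E.S' s.D s.M')))
      exact_mod_cast h2)
    (fun c hc => clean_count E s c hc)
  rw [mem_filter] at hu
  obtain ⟨huT, hcl⟩ := hu
  refine ⟨u, huT, ?_⟩
  obtain ⟨hQ0, hQp, -, hQX, hQc, -⟩ := Qr_facts E s u huT
  have hQW : ∀ p : ℕ, p.Prime → p ∣ Qr E.W u → E.W < p := fun p hp h => (hQp p hp h).1
  have hN0 : E.L s.D * (s.M * s.M') * Qr E.W u ≠ 0 := mul_ne_zero hn0 hQ0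
  have : NeZero (E.L s.D * (s.M * s.M') * Qr E.W u) := ⟨hN0⟩
  have hX0 : (0 : ℝ) < E.X0 := by
    have h1 : 0 < E.L s.D * (s.M * s.M') * Qr E.W u := Nat.pos_of_ne_zero hN0
    exact_mod_cast lt_of_lt_of_le h1 hQX
  have htr := transfer (E.L s.D * (s.M * s.M') * Qr E.W u) (E.L s.D * (s.M * s.M')) (Dvd.intro _ rfl)
    (fun j : JJ E.A s.D E.r E.m => AD E.A s.D (s.M * s.M') j)
    (fun i a ha => (AD_facts E s (Qr E.W u) hQW i (hj i) a ha).2.2.2.1) (mprod u) hQc κ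
    (kappa_unit E s (Qr E.W u) hQ0 hQW κ hκ hκK) (1 / (36 * E.X0)) (by positivity)
    (fun χ hχ => char_bound E s u huT hcl χ hχ)
  refine le_trans ?_ (htr.trans (le_of_eq (congrArg (fun n : ℕ => (n : ℝ))
    (congrArg Finset.card (Finset.ext fun v => by
      simp only [Finset.mem_filter, Fintype.mem_piFinset])))))
  obtain ⟨R, hR⟩ : ∃ R : ℝ, R = ∏ j : JJ E.A s.D E.r E.m, ((AD E.A s.D (s.M * s.M') j).card : ℝ) := ⟨_, rfl⟩
  have hPi0 : 0 ≤ R := by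
    rw [hR]
    exact prod_nonneg fun _ _ => Nat.cast_nonneg _
  rw [← hR] at hgood ⊢
  have hφn : (0 : ℝ) < Nat.totient (E.L s.D * (s.M * s.M')) := by
    exact_mod_cast Nat.totient_pos.2 (Nat.pos_of_ne_zero hn0)
  have hφN : (0 : ℝ) < Nat.totient (E.L s.D * (s.M * s.M') * Qr E.W u) := by
    exact_mod_cast Nat.totient_pos.2 (Nat.pos_of_ne_zero hN0)
  have hφX : (Nat.totient (E.L s.D * (s.M * s.M') * Qr E.W u) : ℝ) ≤ E.X0 := by
    exact_mod_cast (Nat.totient_le _).trans hQX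
  have h1 : ((E.S' s.D s.M).card : ℝ) ^ 3 * ((E.S' s.D s.M').card : ℝ) ^ 3 / 18 /
      (((E.S' s.D s.M).card : ℝ) ^ 3 * ((E.S' s.D s.M').card : ℝ) ^ 3) = 1 / 18 := by
    field_simp
  rw [h1] at hgood
  have h2 : (Nat.totient (E.L s.D * (s.M * s.M')) : ℝ) / Nat.totient (E.L s.D * (s.M * s.M') * Qr E.W u) *
      (1 / 18 * R / Nat.totient (E.L s.D * (s.M * s.M'))) =
      R / (18 * Nat.totient (E.L s.D * (s.M * s.M') * Qr E.W u)) := by
    field_simp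
  have h3 := mul_le_mul_of_nonneg_left hgood (show 0 ≤ (Nat.totient (E.L s.D * (s.M * s.M')) : ℝ) /
    Nat.totient (E.L s.D * (s.M * s.M') * Qr E.W u) by positivity)
  rw [h2] at h3
  have h4 : R / (18 * E.X0) ≤ R / (18 * Nat.totient (E.L s.D * (s.M * s.M') * Qr E.W u)) :=
    div_le_div_of_nonneg_left hPi0 (by positivity) (by linarith)
  have h5 : R / (36 * E.X0) + 1 / (36 * E.X0) * R = R / (18 * E.X0) := by
    field_simp
    ring
  linarith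

end GCN
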