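import Pool.Agent.GCN.Defs2
import Pool.Agent.GCN.N1
import Pool.Agent.GCN.E1a
import Pool.Agent.GCN.E2

/-!
# [GCN-U3a] tuples with `R ∣ mone u` in a class
-/

set_option autoImplicit false

open Finset

namespace GCN

theorem u3a_split {ι : Type*} [DecidableEq ι] (s : Finset ι) (a : ι → ℕ) :
    ∀ R : ℕ, R ∣ ∏ i ∈ s, a i → ∃ f : ι → ℕ, (∀ i ∈ s, f i ∣ a i) ∧ ∏ i ∈ s, f i = R := by
  induction s using Finset.induction_on with
  | empty =>
    intro R h
    rw [Finset.prod_empty, Nat.dvd_one] at h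
    exact ⟨fun _ => 1, by simp, by rw [h, Finset.prod_empty]⟩
  | insert j s hj ih =>
    intro R h
    rw [Finset.prod_insert hj] at h
    obtain ⟨r1, r2, h1, h2, rfl⟩ := exists_dvd_and_dvd_of_dvd_mul h
    obtain ⟨f, hf1, hf2⟩ := ih r2 h2
    refine ⟨Function.update f j r1, ?_, ?_⟩
    · intro i hi
      rcases Finset.mem_insert.1 hi with rfl | hi
      · rw [Function.update_self]
        exact h1
      · rw [Function.update_of_ne (ne_of_mem_of_not_mem hi hj)]
        exact hf1 i hi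
    · rw [Finset.prod_insert hj, Function.update_self, ← hf2]
      congr 1
      exact Finset.prod_congr rfl fun i hi => by
        rw [Function.update_of_ne (ne_of_mem_of_not_mem hi hj)]

theorem u3a_card_step (k p n : ℕ) (hp : p.Prime) (hn : n ≠ 0) :
    (Nat.finMulAntidiag k (p * n)).card ≤ k * (Nat.finMulAntidiag k n).card := by
  have h1 : Nat.finMulAntidiag k (p * n) ⊆
      ((Finset.univ : Finset (Fin k)) ×ˢ Nat.finMulAntidiag k n).image
        (fun u => Function.update u.2 u.1 (p * u.2 u.1)) := by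
    intro f hf
    obtain ⟨hf1, -⟩ := Nat.mem_finMulAntidiag.1 hf
    have h2 : p ∣ ∏ i, f i := by rw [hf1]; exact dvd_mul_right p n
    obtain ⟨i, -, hi⟩ := (Prime.dvd_finsetProd_iff hp.prime f).1 h2
    obtain ⟨m, hm⟩ := hi
    rw [Finset.mem_image]
    refine ⟨(i, Function.update f i m), ?_, ?_⟩
    · rw [Finset.mem_product]
      refine ⟨Finset.mem_univ _, Nat.mem_finMulAntidiag.2 ⟨?_, hn⟩⟩
      have h3 := Finset.prod_update_of_mem (Finset.mem_univ i) f m
      have h4 := Finset.prod_update_of_mem (Finset.mem_univ i) f (f i)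
      rw [Function.update_eq_self, hf1, hm, mul_assoc] at h4
      rw [h3]
      exact (Nat.eq_of_mul_eq_mul_left hp.pos h4).symm
    · show Function.update (Function.update f i m) i (p * Function.update f i m i) = f
      rw [Function.update_self, Function.update_idem, ← hm, Function.update_eq_self]
  calc (Nat.finMulAntidiag k (p * n)).card ≤ _ := Finset.card_le_card h1
    _ ≤ _ := Finset.card_image_le
    _ = _ := by rw [Finset.card_product, Finset.card_univ, Fintype.card_fin]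

theorem u3a_card (k : ℕ) : ∀ n : ℕ, n ≠ 0 →
    (Nat.finMulAntidiag k n).card ≤ k ^ n.primeFactorsList.length := by
  intro n
  induction n using Nat.strong_induction_on with
  | _ n ih =>
    intro hn
    rcases eq_or_ne n 1 with rfl | h1
    · rw [Nat.finMulAntidiag_one, Finset.card_singleton, Nat.primeFactorsList_one,
        List.length_nil, pow_zero]
    · have hp := Nat.minFac_prime h1
      obtain ⟨m, hm⟩ := Nat.minFac_dvd n
      have hm0 : m ≠ 0 := by
        rintro rfl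
        rw [mul_zero] at hm
        exact hn hm
      have hmn : m < n := by
        rw [hm]
        exact lt_mul_of_one_lt_left (Nat.pos_of_ne_zero hm0) hp.one_lt
      have h2 := ih m hmn hm0
      have h3 : n.primeFactorsList.length = m.primeFactorsList.length + 1 := by
        have h4 := (Nat.perm_primeFactorsList_mul hp.ne_zero hm0).length_eq
        rw [← hm, List.length_append, Nat.primeFactorsList_prime hp] at h4
        rw [h4, List.length_singleton, add_comm]
      rw [h3, pow_succ]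
      calc (Nat.finMulAntidiag k n).card = (Nat.finMulAntidiag k (n.minFac * m)).card := by
            rw [← hm]
        _ ≤ k * (Nat.finMulAntidiag k m).card := u3a_card_step k _ m hp hm0
        _ ≤ k * k ^ m.primeFactorsList.length := Nat.mul_le_mul_left k h2
        _ = _ := mul_comm _ _

/-- triples for fixed divisors -/
theorem u3a_triple (θ : ℝ) (W L M' : ℕ) (hL : 0 < L) (hM' : 0 < M') (S : Finset ℕ)
    (hS : ∀ s ∈ S, Nat.Coprime s (L * M')) (Y : ℝ)
    (hFS : ∀ d b : ℕ, 0 < d → (∀ p : ℕ, p.Prime → p ∣ d → W < p) →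
      ((S.filter (fun s => s ≡ b [MOD L * M'] ∧ d ∣ s - 1)).card : ℝ) ≤
        S.card / Nat.totient (L * M') * Y * (d : ℝ) ^ (-θ))
    (d : Fin 3 → ℕ) (hd : ∀ i, 0 < d i) (hdW : ∀ i, ∀ p : ℕ, p.Prime → p ∣ d i → W < p) (c : ℕ) :
    (((Fintype.piFinset (fun i => S.filter (fun s => d i ∣ s - 1))).filter
      (fun t => ∏ i, t i ≡ c [MOD L * M'])).card : ℝ) ≤
      ((S.card : ℝ) ^ 3 * Y ^ 3 * ((∏ i, d i : ℕ) : ℝ) ^ (-θ)) / Nat.totient (L * M') := by
  have hLM : 0 < L * M' := Nat.mul_pos hL hM'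
  have hφ : (0 : ℝ) < Nat.totient (L * M') := by
    exact_mod_cast Nat.totient_pos.2 hLM
  have h1 := triple_le (L * M') hLM (fun i => S.filter (fun s => d i ∣ s - 1))
    (fun i s hs => hS s (Finset.mem_filter.1 hs).1)
    (fun i => S.card / Nat.totient (L * M') * Y * (d i : ℝ) ^ (-θ)) (fun i b => by
      have h2 := hFS (d i) b (hd i) (hdW i)
      have h3 : (S.filter (fun s => d i ∣ s - 1)).filter (fun s => s ≡ b [MOD L * M']) =
          S.filter (fun s => s ≡ b [MOD L * M'] ∧ d i ∣ s - 1) := by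
        rw [Finset.filter_filter]
        exact Finset.filter_congr fun s _ => and_comm
      rw [h3]
      exact h2) c
  refine h1.trans (le_of_eq ?_)
  rw [Finset.prod_mul_distrib, Finset.prod_const, Finset.card_univ, Fintype.card_fin,
    Real.finsetProd_rpow _ _ (fun i _ => Nat.cast_nonneg _), Nat.cast_prod]
  field_simp

theorem u3a_one {M : ℕ} (t : Fin 3 → ℕ) (h : ∀ i, t i ≡ 1 [MOD M]) : ∏ i, t i ≡ 1 [MOD M] := by
  rw [Fin.prod_univ_three]
  have h1 := ((h 0).mul (h 1)).mul (h 2)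
  rwa [one_mul, one_mul] at h1

/-- [U3a] Proof. Let `θ = 1 - ε/8`. If `R ∣ mone u` there are `d i ∣ u.1 i - 1`, `e i ∣ u.2 i - 1` with `∏ d i ∏ e i = R` (repeatedly: a divisor of `a b` is a product of a divisor of `a` and one of `b`,
`exists_dvd_and_dvd_of_dvd_mul`). The number of the factorizations of `R` into 6 ordered factors is at most `6^Ω(R)` (assign every prime of the list of prime factors to a factor; or induction:
the number of maps from the multiset of primes) `≤ R^(ε/8)` (`rpow_length_le` with `b = 6 ≤ W^(ε/8)`, `R` is `W`-rough). For a fixed factorization the tuples with `u.1 i ∈ S`, `d i ∣ u.1 i - 1`: by `triple_le` and `hFS` at most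
`φ(LM')² ∏ (#S/φ(LM')) Y d i^(-θ) = (#S³/φ(LM')) Y³ ∏ d i^(-θ)` in every class modulo `L M'`, similarly for `T`; `combine_upper` gives at most `Y^6 R^(-θ) #S³ #T³/φ(LMM')` in the class `c`. Total:
`Y^6 R^(ε/8) R^(-θ) = Y^6 R^(-(1-ε/4))`. (All products `∏ u.1 i` are `≡ 1 mod M`.) -/
theorem unclean_one (ε : ℝ) (hε : 0 < ε) (hε1 : ε ≤ 1 / 10) (W L M M' : ℕ) (hL : 0 < L) (hM : 0 < M)
    (hM' : 0 < M') (hLM : Nat.Coprime L M) (hLM' : Nat.Coprime L M') (hMM' : Nat.Coprime M M')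
    (hW : (6 : ℝ) ≤ (W : ℝ) ^ (ε / 8)) (S T : Finset ℕ)
    (hS : ∀ s ∈ S, 2 ≤ s ∧ Nat.Coprime s (L * M') ∧ s ≡ 1 [MOD M])
    (hT : ∀ t ∈ T, 2 ≤ t ∧ Nat.Coprime t (L * M) ∧ t ≡ 1 [MOD M']) (Y : ℝ) (hY : 0 ≤ Y)
    (hFS : ∀ d b : ℕ, 0 < d → (∀ p : ℕ, p.Prime → p ∣ d → W < p) →
      ((S.filter (fun s => s ≡ b [MOD L * M'] ∧ d ∣ s - 1)).card : ℝ) ≤
        S.card / Nat.totient (L * M') * Y * (d : ℝ) ^ (-(1 - ε / 8)))
    (hFT : ∀ d b : ℕ, 0 < d → (∀ p : ℕ, p.Prime → p ∣ d → W < p) →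
      ((T.filter (fun s => s ≡ b [MOD L * M] ∧ d ∣ s - 1)).card : ℝ) ≤
        T.card / Nat.totient (L * M) * Y * (d : ℝ) ^ (-(1 - ε / 8)))
    (R : ℕ) (hR : R ≠ 0) (hRW : ∀ p : ℕ, p.Prime → p ∣ R → W < p)
    (c : ℕ) (hc : Nat.Coprime c (L * M * M')) :
    ((((Fintype.piFinset (fun _ : Fin 3 => S)) ×ˢ (Fintype.piFinset (fun _ : Fin 3 => T))).filter
      (fun u => R ∣ mone u ∧ mprod u ≡ c [MOD L * M * M'])).card : ℝ) ≤
      Y ^ 6 * (R : ℝ) ^ (-(1 - ε / 4)) * ((S.card : ℝ) ^ 3 * (T.card : ℝ) ^ 3) /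
        Nat.totient (L * M * M') := by
  classical
  have hLM0 : 0 < L * M := Nat.mul_pos hL hM
  have hLM'0 : 0 < L * M' := Nat.mul_pos hL hM'
  have hR0 : (0 : ℝ) < R := by exact_mod_cast Nat.pos_of_ne_zero hR
  -- the tuples for a fixed factorization
  set X : ℝ := Y ^ 6 * (R : ℝ) ^ (-(1 - ε / 8)) * ((S.card : ℝ) ^ 3 * (T.card : ℝ) ^ 3) /
    Nat.totient (L * M * M') with hX
  have hfix : ∀ f ∈ Nat.finMulAntidiag (3 + 3) R,
      ((((Fintype.piFinset (fun i => S.filter (fun s => f (Fin.castAdd 3 i) ∣ s - 1))) ×ˢ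
        (Fintype.piFinset (fun i => T.filter (fun s => f (Fin.natAdd 3 i) ∣ s - 1)))).filter
          (fun u => mprod u ≡ c [MOD L * M * M'])).card : ℝ) ≤ X := by
    intro f hf
    have hf0 : ∀ i, 0 < f i := fun i => Nat.pos_of_ne_zero (Nat.ne_zero_of_mem_finMulAntidiag hf i)
    have hfW : ∀ i, ∀ p : ℕ, p.Prime → p ∣ f i → W < p := fun i p hp hpf =>
      hRW p hp (hpf.trans (Nat.dvd_of_mem_finMulAntidiag hf i))
    have hfR := Nat.prod_eq_of_mem_finMulAntidiag hf
    rw [Fin.prod_univ_add] at hfR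
    have h1 := combine_upper
      (Fintype.piFinset (fun i => S.filter (fun s => f (Fin.castAdd 3 i) ∣ s - 1)))
      (Fintype.piFinset (fun i => T.filter (fun s => f (Fin.natAdd 3 i) ∣ s - 1)))
      (fun t => ∏ i, t i) (fun t => ∏ i, t i) L M M' hL hM hM' hLM hLM' hMM'
      (fun t ht => u3a_one t fun i =>
        (hS _ (Finset.mem_filter.1 (Fintype.mem_piFinset.1 ht i)).1).2.2)
      (fun t ht => u3a_one t fun i =>
        (hT _ (Finset.mem_filter.1 (Fintype.mem_piFinset.1 ht i)).1).2.2)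
      ((S.card : ℝ) ^ 3 * Y ^ 3 * ((∏ i, f (Fin.castAdd 3 i) : ℕ) : ℝ) ^ (-(1 - ε / 8)))
      ((T.card : ℝ) ^ 3 * Y ^ 3 * ((∏ i, f (Fin.natAdd 3 i) : ℕ) : ℝ) ^ (-(1 - ε / 8)))
      (by positivity) (by positivity)
      (u3a_triple (1 - ε / 8) W L M' hL hM' S (fun s hs => (hS s hs).2.1) Y hFS _
        (fun i => hf0 _) (fun i => hfW _))
      (u3a_triple (1 - ε / 8) W L M hL hM T (fun s hs => (hT s hs).2.1) Y hFT _
        (fun i => hf0 _) (fun i => hfW _)) c hc
    refine h1.trans (le_of_eq ?_)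
    rw [hX]
    congr 1
    have h2 : (R : ℝ) ^ (-(1 - ε / 8)) =
        ((∏ i, f (Fin.castAdd 3 i) : ℕ) : ℝ) ^ (-(1 - ε / 8)) *
          ((∏ i, f (Fin.natAdd 3 i) : ℕ) : ℝ) ^ (-(1 - ε / 8)) := by
      rw [← hfR, Nat.cast_mul, Real.mul_rpow (Nat.cast_nonneg _) (Nat.cast_nonneg _)]
    rw [h2]
    ring
  have hsub : (((Fintype.piFinset (fun _ : Fin 3 => S)) ×ˢ
      (Fintype.piFinset (fun _ : Fin 3 => T))).filter
      (fun u => R ∣ mone u ∧ mprod u ≡ c [MOD L * M * M'])) ⊆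
      (Nat.finMulAntidiag (3 + 3) R).biUnion (fun f =>
        ((Fintype.piFinset (fun i => S.filter (fun s => f (Fin.castAdd 3 i) ∣ s - 1))) ×ˢ
        (Fintype.piFinset (fun i => T.filter (fun s => f (Fin.natAdd 3 i) ∣ s - 1)))).filter
          (fun u => mprod u ≡ c [MOD L * M * M'])) := by
    intro u hu
    obtain ⟨hu1, hu2, hu3⟩ := Finset.mem_filter.1 hu
    obtain ⟨hu4, hu5⟩ := Finset.mem_product.1 hu1
    rw [Fintype.mem_piFinset] at hu4 hu5
    have h1 : R ∣ ∏ i : Fin (3 + 3), Fin.append (fun i => u.1 i - 1) (fun i => u.2 i - 1) i := by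
      rw [Fin.prod_univ_add]
      simp only [Fin.append_left, Fin.append_right]
      exact hu2
    obtain ⟨f, hf1, hf2⟩ := u3a_split _ _ R h1
    rw [Finset.mem_biUnion]
    refine ⟨f, Nat.mem_finMulAntidiag.2 ⟨hf2, hR⟩, ?_⟩
    rw [Finset.mem_filter, Finset.mem_product, Fintype.mem_piFinset, Fintype.mem_piFinset]
    refine ⟨⟨fun i => Finset.mem_filter.2 ⟨hu4 i, ?_⟩,
      fun i => Finset.mem_filter.2 ⟨hu5 i, ?_⟩⟩, hu3⟩
    · have := hf1 (Fin.castAdd 3 i) (Finset.mem_univ _)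
      rwa [Fin.append_left] at this
    · have := hf1 (Fin.natAdd 3 i) (Finset.mem_univ _)
      rwa [Fin.append_right] at this
  have hX0 : 0 ≤ X := by positivity
  have hcard : ((Nat.finMulAntidiag (3 + 3) R).card : ℝ) ≤ (R : ℝ) ^ (ε / 8) := by
    have h1 : ((Nat.finMulAntidiag (3 + 3) R).card : ℝ) ≤
        (6 : ℝ) ^ R.primeFactorsList.length := by
      exact_mod_cast u3a_card (3 + 3) R hR
    exact h1.trans (rpow_length_le W R 6 (ε / 8) hR (by norm_num) (by positivity) hW hRW)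
  have h1 := (Nat.cast_le (α := ℝ)).2 ((Finset.card_le_card hsub).trans Finset.card_biUnion_le)
  refine h1.trans ?_
  rw [Nat.cast_sum]
  refine (Finset.sum_le_card_nsmul _ _ X hfix).trans ?_
  rw [nsmul_eq_mul]
  refine (mul_le_mul_of_nonneg_right hcard hX0).trans (le_of_eq ?_)
  have h2 : (R : ℝ) ^ (-(1 - ε / 4)) = (R : ℝ) ^ (ε / 8) * (R : ℝ) ^ (-(1 - ε / 8)) := by
    rw [← Real.rpow_add hR0]
    congr 1
    ring
  rw [h2, hX]
  ring

end GCN
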