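import Pool.Agent.GCN.Defs

/-!
# [GCN-Z7] membership in `N_k`
-/

set_option autoImplicit false

open Finset

namespace GCN

/-- size and residue of the primes of `P` -/
private lemma z7_big {K p : ℕ} (hK : 2 ≤ K) (hd : 4 * K.factorial ∣ p + 1) :
    K < p ∧ p % 4 = 3 := by
  have h1 : K ≤ K.factorial := Nat.self_le_factorial K
  have h2 : 4 * K.factorial ≤ p + 1 := Nat.le_of_dvd (by omega) hd
  have h3 : 4 ∣ p + 1 := (Dvd.intro _ rfl).trans hd
  constructor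
  · omega
  · omega

private lemma z7_fermat {p t : ℕ} (hp : p.Prime) (ht : (p - 1) ∣ t) (a : ℤ) :
    (p : ℤ) ∣ a ^ (t + 1) - a := by
  have := Fact.mk hp
  rw [← ZMod.intCast_zmod_eq_zero_iff_dvd]
  push_cast
  by_cases h : (a : ZMod p) = 0
  · simp [h]
  · obtain ⟨c, rfl⟩ := ht
    rw [pow_succ, pow_mul, ZMod.pow_card_sub_one_eq_one h, one_pow, one_mul, sub_self]

private lemma z7_odd {K : ℕ} (hK : 2 ≤ K) (P : Finset ℕ)
    (hP : ∀ p ∈ P, p.Prime ∧ 4 * K.factorial ∣ p + 1) : Odd (∏ p ∈ P, p) := by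
  refine Finset.prod_induction _ Odd (fun a b ha hb => ha.mul hb) odd_one (fun p hp => ?_)
  have h := (z7_big hK (hP p hp).2).2
  exact Nat.odd_iff.mpr (by omega)

/-- [Z7a] Proof. `n = e ∏ p > |k|`. For a prime divisor `p` of `n`: `p - 1 ∣ n - k` (over `ℤ`): `p = 2` (if `e = 2`) trivial; for `p ∈ P` (odd): if `k` is odd, `e = 1`, `n - k` is even, `(p-1)/2` is odd (`4 ∣ p + 1`) and divides `n - k`, so
`p - 1 = 2 (p-1)/2` divides it; if `k = 2κ`, `n - k = 2 (∏ p - κ)`. So `a^(n-k+1) ≡ a mod p` for all integers `a` (Fermat; `n - k + 1 ≥ 1`, exponent `≡ 1 mod p-1`), and `n` is squarefree (distinct primes; `2 ∉ P`), hence the congruence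
modulo `n` (`Finset.prod_dvd_of_coprime`-type argument / `Int` pairwise coprime). -/
theorem mem_Cset (k κ : ℤ) (hk : k ≠ 0) (K : ℕ) (hK : 2 ≤ K) (hkK : k.natAbs ≤ K) (P : Finset ℕ)
    (hP : ∀ p ∈ P, p.Prime ∧ 4 * K.factorial ∣ p + 1) (hcard : 2 ≤ P.card) (e : ℕ)
    (he : (e = 1 ∧ Odd k ∧ κ = k) ∨ (e = 2 ∧ k = 2 * κ))
    (hdvd : ∀ p ∈ P, (((p - 1) / 2 : ℕ) : ℤ) ∣ ((∏ p ∈ P, p : ℕ) : ℤ) - κ) :
    ((e * ∏ p ∈ P, p : ℕ) : ℤ) ∈ Cset k := by
  have hbig : ∀ p ∈ P, K < p ∧ p % 4 = 3 := fun p hp => z7_big hK (hP p hp).2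
  have hne : P.Nonempty := Finset.card_pos.mp (by omega)
  obtain ⟨p0, hp0⟩ := hne
  have hMpos : 0 < ∏ p ∈ P, p := Finset.prod_pos (fun p hp => (hP p hp).1.pos)
  have hp0le : p0 ≤ ∏ p ∈ P, p := Nat.le_of_dvd hMpos (Finset.dvd_prod_of_mem (fun p => p) hp0)
  have hodd : Odd (∏ p ∈ P, p) := z7_odd hK P hP
  have hcop : (↑(∏ p ∈ P, p) : ℤ) = ∏ p ∈ P, (p : ℤ) := by push_cast; rfl
  have hKM : K < ∏ p ∈ P, p := lt_of_lt_of_le (hbig p0 hp0).1 hp0le
  have hdiv : ∀ a : ℤ, ∀ t : ℕ, (∀ p ∈ P, (p - 1) ∣ t) →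
      (((∏ p ∈ P, p : ℕ)) : ℤ) ∣ a ^ (t + 1) - a := by
    intro a t ht
    rw [hcop]
    refine Finset.prod_dvd_of_coprime ?_ (fun p hp => z7_fermat (hP p hp).1 (ht p hp) a)
    intro p hp q hq hpq
    have h1 : Nat.Coprime p q := (Nat.coprime_primes (hP p hp).1 (hP q hq).1).mpr hpq
    exact Nat.isCoprime_iff_coprime.mpr h1
  generalize (∏ p ∈ P, p) = M at *
  have hkM : (k.natAbs : ℤ) < (M : ℤ) := by omega
  have hkle : k ≤ (k.natAbs : ℤ) := Int.le_natAbs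
  have hab : 0 ≤ (k.natAbs : ℤ) := Int.natCast_nonneg _
  have hodd' : M % 2 = 1 := Nat.odd_iff.mp hodd
  -- the exponent
  have key : ∀ n : ℤ, k < n → (∀ p ∈ P, ((p - 1 : ℕ) : ℤ) ∣ n - k) →
      ∃ t : ℕ, (n - k + 1).toNat = t + 1 ∧ (∀ p ∈ P, (p - 1) ∣ t) := by
    intro n hn h
    refine ⟨(n - k).toNat, by omega, fun p hp => ?_⟩
    have h1 := h p hp
    rw [← Int.toNat_of_nonneg (by omega : 0 ≤ n - k)] at h1
    exact Int.natCast_dvd_natCast.mp h1
  rcases he with ⟨rfl, hk1, rfl⟩ | ⟨rfl, hk2⟩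
  · rw [one_mul]
    refine ⟨by rw [max_lt_iff]; constructor <;> omega, fun a => ?_⟩
    obtain ⟨t, ht1, ht2⟩ := key (M : ℤ) (by omega) (fun p hp => by
      have h1 := hdvd p hp
      have h2 := (hbig p hp).2
      have h3 : ((p - 1 : ℕ) : ℤ) = 2 * (((p - 1) / 2 : ℕ) : ℤ) := by
        have : p - 1 = 2 * ((p - 1) / 2) := by omega
        exact_mod_cast this
      rw [h3]
      refine IsCoprime.mul_dvd ?_ ?_ h1
      · have h4 : Nat.Coprime 2 ((p - 1) / 2) := by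
          rw [Nat.coprime_two_left]
          exact Nat.odd_iff.mpr (by omega)
        exact_mod_cast Nat.isCoprime_iff_coprime.mpr h4
      · obtain ⟨c, hc⟩ := hk1
        omega)
    rw [ht1]
    exact (Int.modEq_iff_dvd.mpr (by
      have := hdiv a t ht2
      rw [← neg_sub]
      exact this.neg_right |> fun h => by simpa using h)).symm.symm
  · refine ⟨by push_cast; rw [max_lt_iff]; constructor <;> omega, fun a => ?_⟩
    obtain ⟨t, ht1, ht2⟩ := key ((2 * M : ℕ) : ℤ) (by push_cast; omega) (fun p hp => by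
      have h1 := hdvd p hp
      have h2 := (hbig p hp).2
      have h3 : ((p - 1 : ℕ) : ℤ) = 2 * (((p - 1) / 2 : ℕ) : ℤ) := by
        have : p - 1 = 2 * ((p - 1) / 2) := by omega
        exact_mod_cast this
      rw [h3]
      have h4 : ((2 * M : ℕ) : ℤ) - k = 2 * ((M : ℤ) - κ) := by
        rw [hk2]; push_cast; ring
      rw [h4]
      exact mul_dvd_mul_left 2 h1)
    rw [ht1]
    have h5 := hdiv a t ht2
    have h6 : ((2 : ℕ) : ℤ) ∣ a ^ (t + 1) - a := z7_fermat Nat.prime_two (by simp) a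
    have h7 : ((2 * M : ℕ) : ℤ) ∣ a ^ (t + 1) - a := by
      rw [Nat.cast_mul]
      refine IsCoprime.mul_dvd ?_ h6 h5
      have h8 : Nat.Coprime 2 M := by
        rw [Nat.coprime_two_left]; exact hodd
      exact Nat.isCoprime_iff_coprime.mpr h8
    exact ((Int.modEq_iff_dvd).mpr h7).symm

/-- [Z7b] Proof. `mem_Cset`; if `n = k q` with a prime `q`: two different primes `p₁, p₂ ∈ P` divide `k q` and are `> K ≥ |k| > 0`, so they do not divide `k`, hence both are `q`: a contradiction. -/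
theorem mem_Nset (k κ : ℤ) (hk : k ≠ 0) (K : ℕ) (hK : 2 ≤ K) (hkK : k.natAbs ≤ K) (P : Finset ℕ)
    (hP : ∀ p ∈ P, p.Prime ∧ 4 * K.factorial ∣ p + 1) (hcard : 2 ≤ P.card) (e : ℕ)
    (he : (e = 1 ∧ Odd k ∧ κ = k) ∨ (e = 2 ∧ k = 2 * κ))
    (hdvd : ∀ p ∈ P, (((p - 1) / 2 : ℕ) : ℤ) ∣ ((∏ p ∈ P, p : ℕ) : ℤ) - κ) :
    ((e * ∏ p ∈ P, p : ℕ) : ℤ) ∈ Nset k := by
  have hC := mem_Cset k κ hk K hK hkK P hP hcard e he hdvd
  unfold Nset
  split_ifs with h
  · refine ⟨hC, ?_⟩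
    rintro ⟨q, hq, -, hn⟩
    obtain ⟨p1, hp1, p2, hp2, hne⟩ := Finset.one_lt_card.mp (by omega : 1 < P.card)
    have hall : ∀ p ∈ P, p = q := by
      intro p hp
      have hpp := (hP p hp).1
      have h1 : (p : ℤ) ∣ k * q := by
        rw [← hn]
        have h2 : p ∣ e * ∏ p ∈ P, p := (Finset.dvd_prod_of_mem (fun p => p) hp).mul_left e
        exact_mod_cast h2
      have hpI : Prime (p : ℤ) := Nat.prime_iff_prime_int.mp hpp
      rcases hpI.dvd_or_dvd h1 with h3 | h3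
      · exfalso
        have h4 : p ∣ k.natAbs := Int.natCast_dvd.mp h3
        have h5 := Nat.le_of_dvd (Int.natAbs_pos.mpr hk) h4
        have h6 := (z7_big hK (hP p hp).2).1
        omega
      · have h4 : p ∣ q := by exact_mod_cast h3
        exact (Nat.prime_dvd_prime_iff_eq hpp hq).mp h4
    exact hne ((hall p1 hp1).trans (hall p2 hp2).symm)
  · exact hC

end GCN
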